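import Pool.Agent.ADQ.Defs
import Pool.Agent.ADP.Near

/-!
# ADQ: definitions for the step from `R` to `I`, `p ≥ 3`
-/

namespace ADQ

open AD ADN ADC

/-- `q = 4` for `p ≥ 5`, `q = 3` for `p = 3` -/
def qq (p : ℕ) : ℕ := if p = 3 then 3 else 4

/-- the coefficients `c_i` of `g`, as a polynomial in `z_0, z_1` -/
noncomputable def cS (p : ℕ) (g : P) : Z p :=
  ∑ i ∈ Finset.range (qq p + 1), ((ADP.cc p i g : ℤ) : ZMod p) • (z 0 ^ i * z 1 ^ (qq p - i))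

/-- the space `K_W` -/
noncomputable def KW (p : ℕ) : Submodule (ZMod p) (Z p) :=
  if p = 3 then Submodule.span (ZMod p) {z 1 ^ 3 + z 0 * z 1 ^ 2 + z 0 ^ 2 * z 1}
  else Submodule.span (ZMod p) {z 1 ^ 4 - 3 * z 0 * z 1 ^ 3 + 3 * z 0 ^ 2 * z 1 ^ 2 + 3 * z 0 ^ 3 * z 1 - z 0 ^ 4,
    z 1 ^ 4 - 2 * z 0 * z 1 ^ 3 + z 0 ^ 2 * z 1 ^ 2}

/-- `z_0, z_1 ↦ z_0`, `z_2 ↦ z_1` -/
noncomputable def eps (p : ℕ) : Z p →ₐ[ZMod p] Z p := MvPolynomial.aeval (fun i => if i = 2 then z 1 else z 0)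

/-- `x_0 ↦ x_0 + x_1`, `x_1 ↦ x_2`, the other variables `↦ 0`, then the words `zw p 3` -/
noncomputable def fCz (p : ℕ) : P →ₗ[ℤ] P :=
  (wp (zw p 3)).comp (tl (sb (fun i => if i = 0 then X 0 + X 1 else if i = 1 then X 2 else 0)))

end ADQ
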