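import Pool.Agent.ADQ.Lif
import Pool.Agent.ADQ.Defs2

/-!
# ADQ-CzF

Both sides are additive in `g`, so let `g = mon w` (`ind_mon`, `lm_ext`; `ADP.cc p i (mon w) = 1` if `w` has `2 + (p-1) i` letters 0, `1 + (p-1) (q-i)` letters 1 and no others, otherwise 0: `com (mon w)` is a monomial).  `fCz p (mon w)` is the sum of the words `w'` obtained from `w` by replacing the letters 0 by 0 or 1, the letters 1 by 2
(0 if other letters occur), those with `zw p 3 w'`.  If `w` has `A` letters 0 and `B` letters 1, length `A + B = 3 + (p-1) q`: `B ≡ 1`, `A = A_0 + A_1`, `A_0, A_1 ≡ 1` modulo `p - 1`, all `≥ 1`: so `A = 2 + (p-1) i`, `B = 1 + (p-1) (q-i)`, and `zi p 3` of the sum is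
`∑_{s=0}^i C(2 + (p-1) i, 1 + (p-1) s) z_0^s z_1^(i-s) z_2^(q-i)`; `eps p` maps it to `(∑_s C(2 + (p-1) i, 1 + (p-1) s)) z_0^i z_1^(q-i)`.  `bin2`: this sum is `≡ 2` modulo `p` for `i ≤ q = qq p`: `p = 3`: `i = 0`: `C(2,1) = 2`; `i = 1`: `C(4,1) + C(4,3) = 8`; `i = 2`: `C(6,1) + C(6,3) + C(6,5) = 32`; `i = 3`: `C(8,1) + C(8,3) + C(8,5) + C(8,7) = 128`.
`p ≥ 5` by Lucas (`Choose.choose_modEq_choose_mod_mul_choose_div_nat`): `i = 0`: 2; `i = 1` (`p + 1`): `C(p+1,1) + C(p+1,p) = 2 (p+1)`; `i = 2` (`2p`): `2p + C(2p,p) + 2p ≡ 2`; `i = 3` (`3p - 1 = 2p + (p-1)`): `C(3p-1,1) ≡ -1`, `C(3p-1,p) ≡ 2`, `C(3p-1,2p-1) ≡ C(2,1) C(p-1,p-1) = 2`, `C(3p-1,3p-2) ≡ -1`; `i = 4`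
(`4p - 2 = 3p + (p-2)`): `C(.,1) ≡ -2`, `C(.,p) ≡ 3`, `C(.,2p-1) ≡ 0`, `C(.,3p-2) ≡ C(3,2) = 3`, `C(.,4p-3) ≡ -2`.
If `w` is not of this kind both sides are 0.
-/

namespace ADQ

open AD ADN ADC

private theorem cz_luc {p : ℕ} (hp : p.Prime) {a b : ℕ} (ha : a < p) (hb : b < p) (A B : ℕ) :
    ((Nat.choose (a + p * A) (b + p * B) : ℕ) : ZMod p) = (Nat.choose a b * Nat.choose A B : ℕ) := by
  have : Fact p.Prime := ⟨hp⟩
  have h := Choose.choose_modEq_choose_mod_mul_choose_div_nat (n := a + p * A) (k := b + p * B) (p := p)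
  rw [Nat.add_mul_mod_self_left, Nat.add_mul_mod_self_left, Nat.mod_eq_of_lt ha, Nat.mod_eq_of_lt hb,
    Nat.add_mul_div_left _ _ hp.pos, Nat.add_mul_div_left _ _ hp.pos, Nat.div_eq_of_lt ha,
    Nat.div_eq_of_lt hb, zero_add, zero_add] at h
  exact (ZMod.natCast_eq_natCast_iff _ _ _).2 h

private theorem cz_luc' {p : ℕ} (hp : p.Prime) {n k a b : ℕ} (A B : ℕ) (ha : a < p) (hb : b < p)
    (hn : n = a + p * A) (hk : k = b + p * B) (c : ZMod p)
    (hc : ((Nat.choose a b * Nat.choose A B : ℕ) : ZMod p) = c) : ((Nat.choose n k : ℕ) : ZMod p) = c := by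
  rw [hn, hk, cz_luc hp ha hb, hc]

theorem bin2 {p : ℕ} (hp : p.Prime) (h3 : 3 ≤ p) {i : ℕ} (hi : i ≤ qq p) :
    ((∑ s ∈ Finset.range (i + 1), Nat.choose (2 + (p - 1) * i) (1 + (p - 1) * s) : ℕ) : ZMod p) = 2 := by
  by_cases e3 : p = 3
  · subst e3
    have hi' : i ≤ 3 := hi
    interval_cases i <;> decide
  · have hi' : i ≤ 4 := by
      unfold qq at hi
      rwa [if_neg e3] at hi
    have h5 : 5 ≤ p := by
      have h4 : p ≠ 4 := by
        rintro rfl
        exact absurd hp (by decide)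
      omega
    have hpc : ((p : ℕ) : ZMod p) = 0 := ZMod.natCast_self p
    obtain ⟨q, rfl⟩ : ∃ q, p = q + 3 := ⟨p - 3, by omega⟩
    have hq : ((q : ℕ) : ZMod (q + 3)) = -3 := by
      push_cast at hpc
      linear_combination hpc
    have hm : q + 3 - 1 = q + 2 := rfl
    rw [hm, Nat.cast_sum]
    interval_cases i
    · rw [Finset.sum_range_succ, Finset.sum_range_zero, zero_add]
      simp
    · rw [Finset.sum_range_succ, Finset.sum_range_succ, Finset.sum_range_zero, zero_add]
      rw [cz_luc' hp (a := 1) (b := 1) 1 0 (by omega) (by omega) (by ring) (by ring) 1 (by simp),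
        cz_luc' hp (a := 1) (b := 0) 1 1 (by omega) (by omega) (by ring) (by ring) 1 (by simp)]
      norm_num
    · rw [Finset.sum_range_succ, Finset.sum_range_succ, Finset.sum_range_succ, Finset.sum_range_zero, zero_add]
      rw [cz_luc' hp (a := 0) (b := 1) 2 0 (by omega) (by omega) (by ring) (by ring) 0 (by simp),
        cz_luc' hp (a := 0) (b := 0) 2 1 (by omega) (by omega) (by ring) (by ring) 2 (by simp),
        cz_luc' hp (a := 0) (b := q + 2) 2 1 (by omega) (by omega) (by ring) (by ring) 0 (by simp)]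
      norm_num
    · rw [Finset.sum_range_succ, Finset.sum_range_succ, Finset.sum_range_succ, Finset.sum_range_succ,
        Finset.sum_range_zero, zero_add]
      rw [cz_luc' hp (a := q + 2) (b := 1) 2 0 (by omega) (by omega) (by ring) (by ring) (-1)
          (by simp [hq]; norm_num),
        cz_luc' hp (a := q + 2) (b := 0) 2 1 (by omega) (by omega) (by ring) (by ring) 2 (by simp),
        cz_luc' hp (a := q + 2) (b := q + 2) 2 1 (by omega) (by omega) (by ring) (by ring) 2 (by simp),
        cz_luc' hp (a := q + 2) (b := q + 1) 2 2 (by omega) (by omega) (by ring) (by ring) (-1)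
          (by simp [hq]; norm_num)]
      norm_num
    · rw [Finset.sum_range_succ, Finset.sum_range_succ, Finset.sum_range_succ, Finset.sum_range_succ,
        Finset.sum_range_succ, Finset.sum_range_zero, zero_add]
      rw [cz_luc' hp (a := q + 1) (b := 1) 3 0 (by omega) (by omega) (by ring) (by ring) (-2)
          (by simp [hq]; norm_num),
        cz_luc' hp (a := q + 1) (b := 0) 3 1 (by omega) (by omega) (by ring) (by ring) 3 (by simp),
        cz_luc' hp (a := q + 1) (b := q + 2) 3 1 (by omega) (by omega) (by ring) (by ring) 0 (by simp),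
        cz_luc' hp (a := q + 1) (b := q + 1) 3 2 (by omega) (by omega) (by ring) (by ring) 3
          (by simp [Nat.choose]),
        cz_luc' hp (a := q + 1) (b := q) 3 3 (by omega) (by omega) (by ring) (by ring) (-2)
          (by simp [hq]; norm_num)]
      norm_num

/-! ### the operators on the commutative images -/

private noncomputable def czn (w : List ℕ) : ℕ →₀ ℕ := (w.map (fun i => Finsupp.single i 1)).sum

private theorem czn_cons (i : ℕ) (l : List ℕ) : czn (i :: l) = Finsupp.single i 1 + czn l := by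
  simp [czn]

private theorem cz_com_mon (w : List ℕ) : com (mon w) = MvPolynomial.monomial (czn w) 1 := by
  induction w with
  | nil => rw [mon_nil, map_one]; simp [czn]
  | cons a w ih =>
    have e : com (X a) = MvPolynomial.X a := by simp [com]
    rw [mon_cons, map_mul, ih, czn_cons, e, MvPolynomial.X, MvPolynomial.monomial_mul, one_mul]

private theorem czn_apply (w : List ℕ) (i : ℕ) : czn w i = w.count i := by
  induction w with
  | nil => simp [czn]
  | cons a w ih =>
    rw [czn_cons, Finsupp.add_apply, ih, List.count_cons, Finsupp.single_apply, add_comm]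
    congr 1
    by_cases h : a = i
    · simp [h]
    · simp [h]

/-- the value of the three exponents -/
private noncomputable def czv (p a b c : ℕ) : Z p :=
  open Classical in
  if 1 ≤ a ∧ 1 ≤ b ∧ 1 ≤ c ∧ (p - 1) ∣ a - 1 ∧ (p - 1) ∣ b - 1 ∧ (p - 1) ∣ c - 1 ∧
      a + b + c = 3 + (p - 1) * qq p then
    z 0 ^ ((a - 1) / (p - 1) + (b - 1) / (p - 1)) * z 1 ^ ((c - 1) / (p - 1)) else 0

/-- the operator on the commutative images -/
private noncomputable def czP (p : ℕ) : MvPolynomial ℕ ℤ →ₗ[ℤ] Z p :=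
  open Classical in
  (MvPolynomial.basisMonomials ℕ ℤ).constr ℤ
    (fun m => if ∀ i, 3 ≤ i → m i = 0 then czv p (m 0) (m 1) (m 2) else 0)

private theorem czP_mono (p : ℕ) (m : ℕ →₀ ℕ) : czP p (MvPolynomial.monomial m 1) =
    open Classical in if ∀ i, 3 ≤ i → m i = 0 then czv p (m 0) (m 1) (m 2) else 0 := by
  classical
  unfold czP
  have h := (MvPolynomial.basisMonomials ℕ ℤ).constr_basis ℤ
    (fun m => if ∀ i, 3 ≤ i → m i = 0 then czv p (m 0) (m 1) (m 2) else 0) m
  rwa [MvPolynomial.coe_basisMonomials] at h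

private theorem cz_eps_zx (p : ℕ) (w : List ℕ) : eps p (mo (zx p 3 w)) =
    z 0 ^ ((w.count 0 - 1) / (p - 1) + (w.count 1 - 1) / (p - 1)) * z 1 ^ ((w.count 2 - 1) / (p - 1)) := by
  have e : (mo (zx p 3 w) : Z p) = z 0 ^ ((w.count 0 - 1) / (p - 1)) * z 1 ^ ((w.count 1 - 1) / (p - 1)) *
      z 2 ^ ((w.count 2 - 1) / (p - 1)) := by
    unfold mo zx z
    rw [Finset.sum_range_succ, Finset.sum_range_succ, Finset.sum_range_succ, Finset.sum_range_zero, zero_add,
      MvPolynomial.X_pow_eq_monomial, MvPolynomial.X_pow_eq_monomial, MvPolynomial.X_pow_eq_monomial,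
      MvPolynomial.monomial_mul, MvPolynomial.monomial_mul, one_mul, one_mul]
  rw [e]
  unfold eps z
  rw [map_mul, map_mul, map_pow, map_pow, map_pow, MvPolynomial.aeval_X, MvPolynomial.aeval_X,
    MvPolynomial.aeval_X, if_neg (by decide), if_neg (by decide), if_pos rfl, pow_add]

private theorem cz_len (w : List ℕ) (h : ∀ i ∈ w, i < 3) : w.length = w.count 0 + w.count 1 + w.count 2 := by
  induction w with
  | nil => simp
  | cons a w ih =>
    have h1 := ih (fun i hi => h i (List.mem_cons_of_mem a hi))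
    have h2 : a < 3 := h a List.mem_cons_self
    rw [List.length_cons, h1]
    interval_cases a <;> simp <;> omega

private theorem cz_word (p : ℕ) (w : List ℕ) :
    eps p (zi p 3 (wp (fun w => w.length = 3 + (p - 1) * qq p) (wp (zw p 3) (mon w)))) =
      czP p (com (mon w)) := by
  classical
  rw [cz_com_mon, czP_mono, czn_apply, czn_apply, czn_apply]
  by_cases h : zw p 3 w
  · have h3 : ∀ i, 3 ≤ i → czn w i = 0 := by
      intro i hi
      rw [czn_apply, List.count_eq_zero]
      intro hm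
      have := h.1 i hm
      omega
    rw [wp_pos h, if_pos h3]
    have hl := cz_len w h.1
    obtain ⟨a1, a2⟩ := h.2 0 (by omega)
    obtain ⟨b1, b2⟩ := h.2 1 (by omega)
    obtain ⟨c1, c2⟩ := h.2 2 (by omega)
    unfold czv
    by_cases hL : w.length = 3 + (p - 1) * qq p
    · rw [wp_pos (φ := fun w => w.length = 3 + (p - 1) * qq p) hL, zi_mon h, cz_eps_zx,
        if_pos ⟨a1, b1, c1, a2, b2, c2, by rw [← hl, hL]⟩]
    · rw [wp_neg (φ := fun w => w.length = 3 + (p - 1) * qq p) hL, map_zero, map_zero, if_neg]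
      rintro ⟨_, _, _, _, _, _, e⟩
      exact hL (by rw [hl, e])
  · rw [wp_neg h, map_zero, map_zero, map_zero]
    by_cases h3 : ∀ i, 3 ≤ i → czn w i = 0
    · rw [if_pos h3]
      unfold czv
      rw [if_neg]
      rintro ⟨a1, b1, c1, a2, b2, c2, e⟩
      apply h
      refine ⟨fun i hi => ?_, fun i hi => ?_⟩
      · by_contra hcon
        have h4 := h3 i (by omega)
        rw [czn_apply, List.count_eq_zero] at h4
        exact h4 hi
      · interval_cases i
        · exact ⟨a1, a2⟩
        · exact ⟨b1, b2⟩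
        · exact ⟨c1, c2⟩
    · rw [if_neg h3]

private theorem cz_all (p : ℕ) (f : P) :
    eps p (zi p 3 (wp (fun w => w.length = 3 + (p - 1) * qq p) (wp (zw p 3) f))) = czP p (com f) := by
  refine ind_mon (C := fun f => eps p (zi p 3 (wp (fun w => w.length = 3 + (p - 1) * qq p)
    (wp (zw p 3) f))) = czP p (com f)) ?_ ?_ ?_ ?_ f
  · simp only [map_zero]
  · intro f g hf hg
    simp only [map_add] at hf hg ⊢
    rw [hf, hg]
  · intro c f hf
    rw [map_smul, map_smul, map_smul, map_zsmul, hf, map_zsmul, map_smul]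
  · exact cz_word p

private noncomputable def czs : ℕ → MvPolynomial ℕ ℤ := fun i =>
  if i = 0 then MvPolynomial.X 0 + MvPolynomial.X 1 else if i = 1 then MvPolynomial.X 2 else 0

private theorem cz_sb (g : P) : com (sb (fun i => if i = 0 then X 0 + X 1 else if i = 1 then X 2 else 0) g) =
    MvPolynomial.aeval czs (com g) := by
  have h : com.comp (sb (fun i => if i = 0 then X 0 + X 1 else if i = 1 then X 2 else 0)) =
      (MvPolynomial.aeval czs).comp com := by
    refine FreeAlgebra.hom_ext (funext fun i => ?_)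
    show com (sb _ (X i)) = MvPolynomial.aeval czs (com (X i))
    have e : ∀ a, com (X a) = MvPolynomial.X a := fun a => by simp [com]
    rw [sb_X, e, MvPolynomial.aeval_X]
    unfold czs
    split_ifs
    · rw [map_add, e, e]
    · rw [e]
    · rw [map_zero]
  exact DFunLike.congr_fun h g

private theorem cz_sum (p A B : ℕ) : czP p ((MvPolynomial.X 0 + MvPolynomial.X 1) ^ A * MvPolynomial.X 2 ^ B) =
    ∑ k ∈ Finset.range (A + 1), (Nat.choose A k : ℤ) • czv p k (A - k) B := by
  classical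
  rw [add_pow, Finset.sum_mul, map_sum]
  refine Finset.sum_congr rfl fun k hk => ?_
  have e : (MvPolynomial.X 0 ^ k * MvPolynomial.X 1 ^ (A - k) * ((Nat.choose A k : ℕ) : MvPolynomial ℕ ℤ) *
      MvPolynomial.X 2 ^ B : MvPolynomial ℕ ℤ) = (Nat.choose A k : ℤ) •
        MvPolynomial.monomial (Finsupp.single 0 k + Finsupp.single 1 (A - k) + Finsupp.single 2 B) (1 : ℤ) := by
    rw [zsmul_eq_mul, Int.cast_natCast, MvPolynomial.X_pow_eq_monomial, MvPolynomial.X_pow_eq_monomial,
      MvPolynomial.X_pow_eq_monomial, mul_right_comm, MvPolynomial.monomial_mul, MvPolynomial.monomial_mul,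
      one_mul, one_mul, mul_comm]
  rw [e, map_smul, czP_mono]
  have h3 : ∀ i, 3 ≤ i → (Finsupp.single 0 k + Finsupp.single 1 (A - k) + Finsupp.single 2 B : ℕ →₀ ℕ) i = 0 := by
    intro i hi
    rw [Finsupp.add_apply, Finsupp.add_apply, Finsupp.single_eq_of_ne (by omega),
      Finsupp.single_eq_of_ne (by omega), Finsupp.single_eq_of_ne (by omega), add_zero, add_zero]
  rw [if_pos h3]
  congr 2 <;> simp [Finsupp.add_apply, Finsupp.single_apply]

private theorem cz_exp {p A B : ℕ} (h3 : 3 ≤ p) {i : ℕ} (hi : i ≤ qq p) (hA : A = 2 + (p - 1) * i)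
    (hB : B = 1 + (p - 1) * (qq p - i)) :
    ∑ k ∈ Finset.range (A + 1), (Nat.choose A k : ℤ) • czv p k (A - k) B =
      ((∑ s ∈ Finset.range (i + 1), Nat.choose A (1 + (p - 1) * s) : ℕ) : ZMod p) •
        (z 0 ^ i * z 1 ^ (qq p - i)) := by
  classical
  have hr : 0 < p - 1 := by omega
  have hinj : ∀ a ∈ Finset.range (i + 1), ∀ b ∈ Finset.range (i + 1),
      1 + (p - 1) * a = 1 + (p - 1) * b → a = b := fun a _ b _ h =>
    Nat.eq_of_mul_eq_mul_left hr (by omega)
  have hsub : (Finset.range (i + 1)).image (fun s => 1 + (p - 1) * s) ⊆ Finset.range (A + 1) := by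
    intro k hk
    rw [Finset.mem_image] at hk
    obtain ⟨s, hs, rfl⟩ := hk
    rw [Finset.mem_range] at hs ⊢
    have : (p - 1) * s ≤ (p - 1) * i := Nat.mul_le_mul_left _ (by omega)
    omega
  rw [← Finset.sum_subset hsub, Finset.sum_image hinj, Nat.cast_sum, Finset.sum_smul]
  · refine Finset.sum_congr rfl fun s hs => ?_
    rw [Finset.mem_range] at hs
    obtain ⟨t, ht⟩ : ∃ t, i = s + t := ⟨i - s, by omega⟩
    have h4 : A - (1 + (p - 1) * s) = 1 + (p - 1) * t := by
      rw [hA, ht, mul_add]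
      omega
    have h5 : czv p (1 + (p - 1) * s) (A - (1 + (p - 1) * s)) B = z 0 ^ i * z 1 ^ (qq p - i) := by
      have h6 : 1 + (p - 1) * s + (1 + (p - 1) * t) + (1 + (p - 1) * (qq p - i)) = 3 + (p - 1) * qq p := by
        have h7 : (p - 1) * qq p = (p - 1) * s + (p - 1) * t + (p - 1) * (qq p - i) := by
          rw [← mul_add, ← mul_add, ← ht]
          congr 1
          omega
        omega
      rw [h4, hB]
      unfold czv
      rw [if_pos ⟨by omega, by omega, by omega, by rw [Nat.add_sub_cancel_left]; exact dvd_mul_right _ _,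
        by rw [Nat.add_sub_cancel_left]; exact dvd_mul_right _ _,
        by rw [Nat.add_sub_cancel_left]; exact dvd_mul_right _ _, h6⟩,
        Nat.add_sub_cancel_left, Nat.add_sub_cancel_left, Nat.add_sub_cancel_left,
        Nat.mul_div_cancel_left _ hr, Nat.mul_div_cancel_left _ hr, Nat.mul_div_cancel_left _ hr, ← ht]
    rw [h5, ← Int.cast_smul_eq_zsmul (ZMod p), Int.cast_natCast]
  · intro k hk hk'
    rw [Finset.mem_range] at hk
    have h5 : czv p k (A - k) B = 0 := by
      unfold czv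
      rw [if_neg]
      rintro ⟨a1, b1, _, ⟨s, a2⟩, ⟨t, b2⟩, _, _⟩
      apply hk'
      rw [Finset.mem_image]
      refine ⟨s, ?_, by omega⟩
      rw [Finset.mem_range]
      have h6 : (p - 1) * s ≤ (p - 1) * i := by omega
      have h7 := Nat.le_of_mul_le_mul_left h6 hr
      omega
    rw [h5, smul_zero]

private theorem cz_non {p A B : ℕ} (h3 : 3 ≤ p)
    (h : ∀ i ≤ qq p, ¬ (A = 2 + (p - 1) * i ∧ B = 1 + (p - 1) * (qq p - i))) :
    ∑ k ∈ Finset.range (A + 1), (Nat.choose A k : ℤ) • czv p k (A - k) B = 0 := by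
  have hr : 0 < p - 1 := by omega
  refine Finset.sum_eq_zero fun k hk => ?_
  rw [Finset.mem_range] at hk
  have h5 : czv p k (A - k) B = 0 := by
    unfold czv
    rw [if_neg]
    rintro ⟨a1, b1, c1, ⟨s, a2⟩, ⟨t, b2⟩, ⟨u, c2⟩, e⟩
    have h6 : (p - 1) * (s + t + u) = (p - 1) * qq p := by
      rw [mul_add, mul_add]
      omega
    have h7 := Nat.eq_of_mul_eq_mul_left hr h6
    refine h (s + t) (by omega) ⟨?_, ?_⟩
    · rw [mul_add]
      omega
    · have h8 : qq p - (s + t) = u := by omega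
      rw [h8]
      omega
  rw [h5, smul_zero]

private theorem cz_dne {p : ℕ} {m : ℕ →₀ ℕ} {i : ℕ} :
    m = Finsupp.single 0 (2 + (p - 1) * i) + Finsupp.single 1 (1 + (p - 1) * (qq p - i)) →
      m 0 = 2 + (p - 1) * i ∧ m 1 = 1 + (p - 1) * (qq p - i) ∧ ∀ j, 2 ≤ j → m j = 0 := by
  intro h
  rw [h]
  refine ⟨by simp, by simp, fun j hj => ?_⟩
  rw [Finsupp.add_apply, Finsupp.single_eq_of_ne (by omega), Finsupp.single_eq_of_ne (by omega), add_zero]

private theorem cz_mono {p : ℕ} (hp : p.Prime) (h3 : 3 ≤ p) (m : ℕ →₀ ℕ) :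
    czP p (MvPolynomial.aeval czs (MvPolynomial.monomial m (1 : ℤ))) = (2 : ZMod p) •
      ∑ i ∈ Finset.range (qq p + 1), (((MvPolynomial.monomial m (1 : ℤ)).coeff
        (Finsupp.single 0 (2 + (p - 1) * i) + Finsupp.single 1 (1 + (p - 1) * (qq p - i))) : ℤ) : ZMod p) •
          (z 0 ^ i * z 1 ^ (qq p - i)) := by
  classical
  have hr : 0 < p - 1 := by omega
  by_cases hB : ∃ j, 2 ≤ j ∧ m j ≠ 0
  · obtain ⟨j, hj, hmj⟩ := hB
    have e1 : MvPolynomial.aeval czs (MvPolynomial.monomial m (1 : ℤ)) = 0 := by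
      rw [MvPolynomial.aeval_monomial, map_one, one_mul, Finsupp.prod]
      refine Finset.prod_eq_zero (Finsupp.mem_support_iff.2 hmj) ?_
      unfold czs
      rw [if_neg (by omega), if_neg (by omega), zero_pow hmj]
    rw [e1, map_zero, Finset.sum_eq_zero, smul_zero]
    intro i _
    rw [MvPolynomial.coeff_monomial, if_neg, Int.cast_zero, zero_smul]
    intro h
    exact hmj ((cz_dne h).2.2 j hj)
  · have hB' : ∀ j, 2 ≤ j → m j = 0 := fun j hj => by
      by_contra hc
      exact hB ⟨j, hj, hc⟩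
    have hm : m = Finsupp.single 0 (m 0) + Finsupp.single 1 (m 1) := by
      ext j
      rw [Finsupp.add_apply]
      by_cases h0 : j = 0
      · subst h0; simp
      by_cases h1 : j = 1
      · subst h1; simp
      rw [Finsupp.single_eq_of_ne (by omega), Finsupp.single_eq_of_ne (by omega), hB' j (by omega), add_zero]
    have e1 : MvPolynomial.aeval czs (MvPolynomial.monomial m (1 : ℤ)) =
        (MvPolynomial.X 0 + MvPolynomial.X 1) ^ (m 0) * MvPolynomial.X 2 ^ (m 1) := by
      have e2 : MvPolynomial.monomial m (1 : ℤ) = MvPolynomial.X 0 ^ (m 0) * MvPolynomial.X 1 ^ (m 1) := by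
        rw [MvPolynomial.X_pow_eq_monomial, MvPolynomial.X_pow_eq_monomial, MvPolynomial.monomial_mul,
          one_mul, ← hm]
      rw [e2, map_mul, map_pow, map_pow, MvPolynomial.aeval_X, MvPolynomial.aeval_X]
      unfold czs
      rw [if_pos rfl, if_neg one_ne_zero, if_pos rfl]
    rw [e1, cz_sum]
    by_cases hx : ∃ i ≤ qq p, m 0 = 2 + (p - 1) * i ∧ m 1 = 1 + (p - 1) * (qq p - i)
    · obtain ⟨i, hi, hA, hB2⟩ := hx
      rw [cz_exp h3 hi hA hB2]
      have e3 : ((∑ s ∈ Finset.range (i + 1), Nat.choose (m 0) (1 + (p - 1) * s) : ℕ) : ZMod p) = 2 := by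
        rw [hA]
        exact bin2 hp h3 hi
      rw [e3]
      congr 1
      rw [Finset.sum_eq_single i]
      · rw [MvPolynomial.coeff_monomial, if_pos, Int.cast_one, one_smul]
        rw [hm, hA, hB2]
      · intro j _ hji
        rw [MvPolynomial.coeff_monomial, if_neg, Int.cast_zero, zero_smul]
        intro h
        apply hji
        have h4 := (cz_dne h).1
        rw [hA] at h4
        exact (Nat.eq_of_mul_eq_mul_left hr (by omega)).symm
      · intro hni
        rw [Finset.mem_range] at hni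
        omega
    · rw [cz_non h3 (fun i hi hc => hx ⟨i, hi, hc⟩), Finset.sum_eq_zero, smul_zero]
      intro i hi
      rw [MvPolynomial.coeff_monomial, if_neg, Int.cast_zero, zero_smul]
      intro h
      rw [Finset.mem_range] at hi
      exact hx ⟨i, by omega, (cz_dne h).1, (cz_dne h).2.1⟩

private theorem cz_poly {p : ℕ} (hp : p.Prime) (h3 : 3 ≤ p) (F : MvPolynomial ℕ ℤ) :
    czP p (MvPolynomial.aeval czs F) = (2 : ZMod p) •
      ∑ i ∈ Finset.range (qq p + 1), ((F.coeff
        (Finsupp.single 0 (2 + (p - 1) * i) + Finsupp.single 1 (1 + (p - 1) * (qq p - i))) : ℤ) : ZMod p) •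
          (z 0 ^ i * z 1 ^ (qq p - i)) := by
  classical
  induction F using MvPolynomial.induction_on' with
  | monomial u a =>
    have e : MvPolynomial.monomial u a = a • MvPolynomial.monomial u (1 : ℤ) := by
      rw [MvPolynomial.smul_monomial, smul_eq_mul, mul_one]
    rw [e, map_zsmul, map_smul, cz_mono hp h3]
    rw [← Int.cast_smul_eq_zsmul (ZMod p), smul_comm, Finset.smul_sum]
    congr 1
    refine Finset.sum_congr rfl fun i _ => ?_
    rw [MvPolynomial.coeff_smul, smul_smul, smul_eq_mul, Int.cast_mul]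
  | add F G hF hG =>
    rw [map_add, map_add, hF, hG, ← smul_add, ← Finset.sum_add_distrib]
    congr 1
    refine Finset.sum_congr rfl fun i _ => ?_
    rw [MvPolynomial.coeff_add, Int.cast_add, add_smul]

theorem czf {p : ℕ} (hp : p.Prime) (h3 : 3 ≤ p) (g : P) :
    eps p (zi p 3 (wp (fun w => w.length = 3 + (p - 1) * qq p) (fCz p g))) = (2 : ZMod p) • cS p g := by
  have e : fCz p g = wp (zw p 3) (sb (fun i => if i = 0 then X 0 + X 1 else if i = 1 then X 2 else 0) g) := rfl
  rw [e, cz_all, cz_sb, cz_poly hp h3]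
  rfl

end ADQ
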