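import Pool.Agent.ADQ.Defs

/-!
# ADQ-Tool1: elementary facts on the polynomials in `z`

Monomials, renaming, evaluation, homogeneous polynomials.
-/

namespace ADQ

open AD ADN ADC

variable {p : ℕ}

theorem mo_zero : (mo 0 : Z p) = 1 := by
  unfold mo
  rw [← MvPolynomial.C_apply, MvPolynomial.C_1]

theorem mo_single (i a : ℕ) : (mo (Finsupp.single i a) : Z p) = z i ^ a := by
  unfold mo
  rw [MvPolynomial.X_pow_eq_monomial]

theorem mo_add (m m' : ℕ →₀ ℕ) : (mo (m + m') : Z p) = mo m * mo m' := by
  unfold mo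
  rw [MvPolynomial.monomial_mul, mul_one]

theorem lz_mo (φ : (ℕ →₀ ℕ) → Z p) (m : ℕ →₀ ℕ) : lz φ (mo m) = φ m := by
  unfold lz mo
  exact (MvPolynomial.basisMonomials ℕ (ZMod p)).constr_basis (ZMod p) φ m

/-- two linear maps that agree on the monomials are equal -/
theorem lz_ext {f g : Z p →ₗ[ZMod p] Z p} (h : ∀ m, f (mo m) = g (mo m)) : f = g := by
  exact (MvPolynomial.basisMonomials ℕ (ZMod p)).ext h

theorem rn_z (g : ℕ → ℕ) (i : ℕ) : rn g (z i : Z p) = z (g i) := by
  exact MvPolynomial.rename_X g i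

theorem rn_mo (g : ℕ → ℕ) (m : ℕ →₀ ℕ) : rn g (mo m : Z p) = mo (m.mapDomain g) := by
  exact MvPolynomial.rename_monomial g m 1

theorem rn_rn (g h : ℕ → ℕ) (F : Z p) : rn g (rn h F) = rn (g ∘ h) F := by
  exact MvPolynomial.rename_rename h g F

theorem rn_id (F : Z p) : rn id F = F := by
  exact MvPolynomial.rename_id_apply F

/-- renaming depends only on the variables that occur -/
theorem rn_congr {n k : ℕ} {F : Z p} (hF : F ∈ Hh p n k) {g h : ℕ → ℕ} (e : ∀ i < n, g i = h i) :
    rn g F = rn h F := by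
  unfold Hh at hF
  induction hF using Submodule.span_induction with
  | mem x hx =>
    obtain ⟨m, hm, -, rfl⟩ := hx
    rw [rn_mo, rn_mo, Finsupp.mapDomain_congr (g := h)]
    intro i hi
    refine e i (not_le.1 fun hn => ?_)
    rw [Finsupp.mem_support_iff] at hi
    exact hi (hm i hn)
  | zero => rw [map_zero, map_zero]
  | add x y _ _ hx hy => rw [map_add, map_add, hx, hy]
  | smul c x _ hx => rw [map_smul, map_smul, hx]

theorem ev_z (i j : ℕ) : ev i (z j : Z p) = if j = i then 0 else z j := by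
  unfold ev
  rw [MvPolynomial.aeval_X]

theorem ev_NV {i : ℕ} {G : Z p} (hG : G ∈ NV i) : ev i G = G := by
  unfold NV MvPolynomial.supported at hG
  induction hG using Algebra.adjoin_induction with
  | mem x hx =>
    obtain ⟨j, hj, rfl⟩ := hx
    rw [ev_z, if_neg (fun h => hj (by rw [h]; rfl))]
  | algebraMap r => exact (ev i).commutes r
  | add x y _ _ hx hy => rw [map_add, hx, hy]
  | mul x y _ _ hx hy => rw [map_mul, hx, hy]

theorem z_Hh {n i : ℕ} (hi : i < n) : (z i : Z p) ∈ Hh p n 1 := by
  refine Submodule.subset_span ⟨Finsupp.single i 1, fun j hj => ?_, Finsupp.degree_single i 1, ?_⟩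
  · rw [Finsupp.single_apply, if_neg (by omega)]
  · rw [mo_single, pow_one]

theorem one_Hh (n : ℕ) : (1 : Z p) ∈ Hh p n 0 := by
  refine Submodule.subset_span ⟨0, fun j _ => rfl, map_zero _, mo_zero.symm⟩

theorem Hh_mul {n k l : ℕ} {F G : Z p} (hF : F ∈ Hh p n k) (hG : G ∈ Hh p n l) : F * G ∈ Hh p n (k + l) := by
  unfold Hh at hF
  induction hF using Submodule.span_induction with
  | mem x hx =>
    obtain ⟨m, hm, hk, rfl⟩ := hx
    unfold Hh at hG
    induction hG using Submodule.span_induction with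
    | mem y hy =>
      obtain ⟨m', hm', hl, rfl⟩ := hy
      refine Submodule.subset_span ⟨m + m', fun i hi => ?_, ?_, (mo_add m m').symm⟩
      · rw [Finsupp.add_apply, hm i hi, hm' i hi]
      · rw [map_add, hk, hl]
    | zero =>
      rw [mul_zero]
      exact Submodule.zero_mem _
    | add x y _ _ hx hy =>
      rw [mul_add]
      exact Submodule.add_mem _ hx hy
    | smul c x _ hx =>
      rw [mul_smul_comm]
      exact Submodule.smul_mem _ c hx
  | zero =>
    rw [zero_mul]
    exact Submodule.zero_mem _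
  | add x y _ _ hx hy =>
    rw [add_mul]
    exact Submodule.add_mem _ hx hy
  | smul c x _ hx =>
    rw [smul_mul_assoc]
    exact Submodule.smul_mem _ c hx

theorem Hh_mono {n n' k : ℕ} (h : n ≤ n') : Hh p n k ≤ Hh p n' k := by
  refine Submodule.span_mono ?_
  rintro F ⟨m, hm, hk, rfl⟩
  exact ⟨m, fun i hi => hm i (h.trans hi), hk, rfl⟩

theorem Hh_rn {n n' k : ℕ} {g : ℕ → ℕ} (h : ∀ i < n, g i < n') {F : Z p} (hF : F ∈ Hh p n k) : rn g F ∈ Hh p n' k := by
  unfold Hh at hF
  induction hF using Submodule.span_induction with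
  | mem x hx =>
    obtain ⟨m, hm, hk, rfl⟩ := hx
    rw [rn_mo]
    refine Submodule.subset_span ⟨m.mapDomain g, fun i hi => ?_, ?_, rfl⟩
    · by_contra hne
      have h1 := Finsupp.mapDomain_support (Finsupp.mem_support_iff.2 hne)
      obtain ⟨j, hj, hji⟩ := Finset.mem_image.1 h1
      have h2 : j < n := not_le.1 fun hn => (Finsupp.mem_support_iff.1 hj) (hm j hn)
      have h3 := h j h2
      omega
    · rw [Finsupp.degree_mapDomain, hk]
  | zero =>
    rw [map_zero]
    exact Submodule.zero_mem _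
  | add x y _ _ hx hy =>
    rw [map_add]
    exact Submodule.add_mem _ hx hy
  | smul c x _ hx =>
    rw [map_smul]
    exact Submodule.smul_mem _ c hx

/-- a homogeneous polynomial of positive degree is a sum of multiples of the variables -/
theorem Hh_succ {n k : ℕ} : Hh p n (k + 1) =
    Submodule.span (ZMod p) {F | ∃ i G, i < n ∧ G ∈ Hh p n k ∧ F = z i * G} := by
  apply le_antisymm
  · refine Submodule.span_le.2 ?_
    rintro F ⟨m, hm, hk, rfl⟩
    have h0 : m ≠ 0 := by
      intro h
      rw [h, map_zero] at hk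
      omega
    obtain ⟨i, hi⟩ : ∃ i, m i ≠ 0 := by
      by_contra hne
      push Not at hne
      exact h0 (Finsupp.ext hne)
    have h1 : m - Finsupp.single i 1 + Finsupp.single i 1 = m :=
      tsub_add_cancel_of_le (Finsupp.single_le_iff.2 (Nat.one_le_iff_ne_zero.2 hi))
    refine Submodule.subset_span ⟨i, mo (m - Finsupp.single i 1), not_le.1 fun hn => hi (hm i hn), ?_, ?_⟩
    · refine Submodule.subset_span ⟨m - Finsupp.single i 1, fun j hj => ?_, ?_, rfl⟩
      · rw [Finsupp.tsub_apply, hm j hj, Nat.zero_sub]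
      · have h2 := congrArg Finsupp.degree h1
        rw [map_add, Finsupp.degree_single, hk] at h2
        omega
    · have h2 : (mo m : Z p) = mo (m - Finsupp.single i 1 + Finsupp.single i 1) := by rw [h1]
      rw [h2, mo_add, mo_single, pow_one, mul_comm]
  · refine Submodule.span_le.2 ?_
    rintro F ⟨i, G, hi, hG, rfl⟩
    have h1 := Hh_mul (z_Hh hi) hG
    rw [add_comm 1 k] at h1
    exact h1

end ADQ
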