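import Pool.Agent.ADQ.Defs2
import Pool.Agent.ADQ.Tool1

/-!
# ADQ-EpsK: the images of `K4`, `K3`, and `K_W`
-/

namespace ADQ

open AD ADN ADC

private theorem ek_eps {p : ℕ} (i : ℕ) : eps p (z i) = if i = 2 then z 1 else z 0 := by
  unfold eps
  rw [MvPolynomial.aeval_X]

private theorem ek_eps0 {p : ℕ} : eps p (z 0) = z 0 := by
  rw [ek_eps, if_neg (by omega)]

private theorem ek_eps1 {p : ℕ} : eps p (z 1) = z 0 := by
  rw [ek_eps, if_neg (by omega)]

private theorem ek_eps2 {p : ℕ} : eps p (z 2) = z 1 := by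
  rw [ek_eps, if_pos rfl]

private noncomputable def ekm {p : ℕ} (i j : ℕ) : Z p := z 0 ^ i * z 1 ^ j

private theorem ek_coeff {p : ℕ} (i j a b : ℕ) :
    MvPolynomial.coeff (Finsupp.single 0 a + Finsupp.single 1 b) (ekm i j : Z p) =
      if i = a ∧ j = b then 1 else 0 := by
  unfold ekm
  rw [← mo_single, ← mo_single, ← mo_add]
  unfold mo
  rw [MvPolynomial.coeff_monomial]
  by_cases h : i = a ∧ j = b
  · rw [if_pos h, if_pos (by rw [h.1, h.2])]
  · rw [if_neg h, if_neg]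
    intro e
    apply h
    have e0 := congrArg (fun m : ℕ →₀ ℕ => m 0) e
    have e1 := congrArg (fun m : ℕ →₀ ℕ => m 1) e
    simp only [Finsupp.add_apply, Finsupp.single_apply] at e0 e1
    simp at e0 e1
    exact ⟨e0, e1⟩

private theorem ek_dvd {p : ℕ} [Fact p.Prime] {x : ℤ} (h : ((x : ℤ) : ZMod p) = 0) : (p : ℤ) ∣ x :=
  (ZMod.intCast_zmod_eq_zero_iff_dvd x p).mp h

theorem epsK4 {p : ℕ} [Fact p.Prime] (h5 : 5 ≤ p) {F : Z p} (hF : F ∈ K4 p) : eps p F ∈ KW p := by
  unfold K4 at hF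
  have hp3 : p ≠ 3 := by omega
  have hK : KW p = Submodule.span (ZMod p)
      {z 1 ^ 4 - 3 * z 0 * z 1 ^ 3 + 3 * z 0 ^ 2 * z 1 ^ 2 + 3 * z 0 ^ 3 * z 1 - z 0 ^ 4,
        z 1 ^ 4 - 2 * z 0 * z 1 ^ 3 + z 0 ^ 2 * z 1 ^ 2} := by
    unfold KW
    rw [if_neg hp3]
  induction hF using Submodule.span_induction with
  | mem x hx =>
    simp only [Set.mem_insert_iff, Set.mem_singleton_iff] at hx
    rcases hx with rfl | rfl | rfl | rfl | rfl
    · have e : eps p (F4 0 1 2) = 0 := by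
        unfold F4
        simp only [map_mul, map_sub, map_pow, ek_eps0, ek_eps1, ek_eps2]
        ring
      rw [e]
      exact Submodule.zero_mem _
    · have e : eps p (F4 1 0 2) = 0 := by
        unfold F4
        simp only [map_mul, map_sub, map_pow, ek_eps0, ek_eps1, ek_eps2]
        ring
      rw [e]
      exact Submodule.zero_mem _
    · have e : eps p (F4 2 0 1) = z 1 ^ 4 - 2 * z 0 * z 1 ^ 3 + z 0 ^ 2 * z 1 ^ 2 := by
        unfold F4
        simp only [map_mul, map_sub, map_pow, ek_eps0, ek_eps1, ek_eps2]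
        ring
      rw [e, hK]
      exact Submodule.subset_span (Set.mem_insert_of_mem _ rfl)
    · have e : eps p D4 = 0 := by
        unfold D4
        simp only [map_mul, map_sub, map_add, map_pow, ek_eps0, ek_eps1, ek_eps2]
        ring
      rw [e]
      exact Submodule.zero_mem _
    · have e : eps p (h4 0 1 2 + h4 1 0 2 + h4 2 0 1) = (2 : ZMod p) •
          (z 1 ^ 4 - 3 * z 0 * z 1 ^ 3 + 3 * z 0 ^ 2 * z 1 ^ 2 + 3 * z 0 ^ 3 * z 1 - z 0 ^ 4) := by
        unfold h4
        rw [MvPolynomial.smul_eq_C_mul, map_ofNat]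
        simp only [map_mul, map_sub, map_add, map_pow, map_ofNat, ek_eps0, ek_eps1, ek_eps2]
        ring
      rw [e, hK]
      exact Submodule.smul_mem _ _ (Submodule.subset_span (Set.mem_insert _ _))
  | zero =>
    rw [map_zero]
    exact Submodule.zero_mem _
  | add x y _ _ hx hy =>
    rw [map_add]
    exact Submodule.add_mem _ hx hy
  | smul c x _ hx =>
    rw [map_smul]
    exact Submodule.smul_mem _ c hx

theorem epsK3 {F : Z 3} (hF : F ∈ K3 3) : eps 3 F ∈ KW 3 := by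
  unfold K3 at hF
  have hK : KW 3 = Submodule.span (ZMod 3) {z 1 ^ 3 + z 0 * z 1 ^ 2 + z 0 ^ 2 * z 1} := by
    unfold KW
    rw [if_pos rfl]
  have h3 : (3 : Z 3) = 0 := by
    have h : ((3 : ℕ) : Z 3) = 0 := CharP.cast_eq_zero (Z 3) 3
    exact_mod_cast h
  induction hF using Submodule.span_induction with
  | mem x hx =>
    simp only [Set.mem_insert_iff, Set.mem_singleton_iff] at hx
    rcases hx with rfl | rfl | rfl | rfl
    · have e : eps 3 (F3 0 1 2) = 0 := by
        unfold F3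
        simp only [map_mul, map_sub, ek_eps0, ek_eps1, ek_eps2]
        ring
      rw [e]
      exact Submodule.zero_mem _
    · have e : eps 3 (F3 1 0 2) = 0 := by
        unfold F3
        simp only [map_mul, map_sub, ek_eps0, ek_eps1, ek_eps2]
        ring
      rw [e]
      exact Submodule.zero_mem _
    · have e : eps 3 (F3 2 0 1) = z 1 ^ 3 + z 0 * z 1 ^ 2 + z 0 ^ 2 * z 1 := by
        unfold F3
        simp only [map_mul, map_sub, ek_eps0, ek_eps1, ek_eps2]
        linear_combination (-(z 0 * z 1 ^ 2)) * h3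
      rw [e, hK]
      exact Submodule.subset_span rfl
    · have e : eps 3 D3 = 0 := by
        unfold D3
        simp only [map_mul, map_sub, map_add, map_pow, ek_eps0, ek_eps1, ek_eps2]
        ring
      rw [e]
      exact Submodule.zero_mem _
  | zero =>
    rw [map_zero]
    exact Submodule.zero_mem _
  | add x y _ _ hx hy =>
    rw [map_add]
    exact Submodule.add_mem _ hx hy
  | smul c x _ hx =>
    rw [map_smul]
    exact Submodule.smul_mem _ c hx

theorem kwc {p : ℕ} [Fact p.Prime] (h3 : 3 ≤ p) {g : P} (hg : cS p g ∈ KW p) : g ∈ ADP.KC p := by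
  by_cases hp3 : p = 3
  · subst hp3
    have hK : KW 3 = Submodule.span (ZMod 3) {z 1 ^ 3 + z 0 * z 1 ^ 2 + z 0 ^ 2 * z 1} := by
      unfold KW
      rw [if_pos rfl]
    rw [hK, Submodule.mem_span_singleton] at hg
    obtain ⟨a, ha⟩ := hg
    have e1 : (z 1 ^ 3 + z 0 * z 1 ^ 2 + z 0 ^ 2 * z 1 : Z 3) = ekm 0 3 + ekm 1 2 + ekm 2 1 := by
      unfold ekm
      ring
    have e2 : cS 3 g = ((ADP.cc 3 0 g : ℤ) : ZMod 3) • ekm 0 3 + ((ADP.cc 3 1 g : ℤ) : ZMod 3) • ekm 1 2 +
        ((ADP.cc 3 2 g : ℤ) : ZMod 3) • ekm 2 1 + ((ADP.cc 3 3 g : ℤ) : ZMod 3) • ekm 3 0 := by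
      have hq : qq 3 = 3 := by
        unfold qq
        rw [if_pos rfl]
      unfold cS
      rw [hq]
      simp only [Finset.sum_range_succ, Finset.sum_range_zero, zero_add]
      rfl
    rw [e1, e2] at ha
    have c0 := congrArg (MvPolynomial.coeff (Finsupp.single 0 0 + Finsupp.single 1 3)) ha
    have c1 := congrArg (MvPolynomial.coeff (Finsupp.single 0 1 + Finsupp.single 1 2)) ha
    have c2 := congrArg (MvPolynomial.coeff (Finsupp.single 0 2 + Finsupp.single 1 1)) ha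
    have c3 := congrArg (MvPolynomial.coeff (Finsupp.single 0 3 + Finsupp.single 1 0)) ha
    simp only [MvPolynomial.coeff_add, MvPolynomial.coeff_smul, ek_coeff] at c0 c1 c2 c3
    simp at c0 c1 c2 c3
    unfold ADP.KC
    rw [if_pos rfl]
    refine ⟨?_, ?_, ?_⟩
    · exact ek_dvd (p := 3) (by rw [← c3])
    · exact ek_dvd (p := 3) (by push_cast; rw [← c0, ← c1, sub_self])
    · exact ek_dvd (p := 3) (by push_cast; rw [← c1, ← c2, sub_self])
  · have hK : KW p = Submodule.span (ZMod p)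
        {z 1 ^ 4 - 3 * z 0 * z 1 ^ 3 + 3 * z 0 ^ 2 * z 1 ^ 2 + 3 * z 0 ^ 3 * z 1 - z 0 ^ 4,
          z 1 ^ 4 - 2 * z 0 * z 1 ^ 3 + z 0 ^ 2 * z 1 ^ 2} := by
      unfold KW
      rw [if_neg hp3]
    rw [hK, Submodule.mem_span_pair] at hg
    obtain ⟨a, b, ha⟩ := hg
    have e1 : a • (z 1 ^ 4 - 3 * z 0 * z 1 ^ 3 + 3 * z 0 ^ 2 * z 1 ^ 2 + 3 * z 0 ^ 3 * z 1 - z 0 ^ 4 : Z p) +
        b • (z 1 ^ 4 - 2 * z 0 * z 1 ^ 3 + z 0 ^ 2 * z 1 ^ 2) =
        (a + b) • ekm 0 4 + (-3 * a - 2 * b) • ekm 1 3 + (3 * a + b) • ekm 2 2 + (3 * a) • ekm 3 1 +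
          (-a) • ekm 4 0 := by
      unfold ekm
      simp only [MvPolynomial.smul_eq_C_mul, map_add, map_sub, map_neg, map_mul, map_ofNat]
      ring
    have e2 : cS p g = ((ADP.cc p 0 g : ℤ) : ZMod p) • ekm 0 4 + ((ADP.cc p 1 g : ℤ) : ZMod p) • ekm 1 3 +
        ((ADP.cc p 2 g : ℤ) : ZMod p) • ekm 2 2 + ((ADP.cc p 3 g : ℤ) : ZMod p) • ekm 3 1 +
        ((ADP.cc p 4 g : ℤ) : ZMod p) • ekm 4 0 := by
      have hq : qq p = 4 := by
        unfold qq
        rw [if_neg hp3]
      unfold cS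
      rw [hq]
      simp only [Finset.sum_range_succ, Finset.sum_range_zero, zero_add]
      rfl
    rw [e1, e2] at ha
    have c0 := congrArg (MvPolynomial.coeff (Finsupp.single 0 0 + Finsupp.single 1 4)) ha
    have c1 := congrArg (MvPolynomial.coeff (Finsupp.single 0 1 + Finsupp.single 1 3)) ha
    have c2 := congrArg (MvPolynomial.coeff (Finsupp.single 0 2 + Finsupp.single 1 2)) ha
    have c3 := congrArg (MvPolynomial.coeff (Finsupp.single 0 3 + Finsupp.single 1 1)) ha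
    have c4 := congrArg (MvPolynomial.coeff (Finsupp.single 0 4 + Finsupp.single 1 0)) ha
    simp only [MvPolynomial.coeff_add, MvPolynomial.coeff_smul, ek_coeff] at c0 c1 c2 c3 c4
    simp at c0 c1 c2 c3 c4
    unfold ADP.KC
    rw [if_neg hp3]
    refine ⟨?_, ?_, ?_⟩
    · refine ek_dvd ?_
      push_cast
      rw [← c3, ← c4]
      ring
    · refine ek_dvd ?_
      push_cast
      rw [← c0, ← c1, ← c2, ← c4]
      ring
    · refine ek_dvd ?_
      push_cast
      rw [← c2, ← c0, ← c4]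
      ring

end ADQ
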