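import Pool.Agent.ADQ.GAop
import Pool.Agent.ADC.Lkb

/-!
# ADQ-LPx: from the linked pair to the leading pair

Notation: `u = zi p n f`, `w = zi p n g`, `d = n + (p-1) k`, `e = n + (p-1) l`, `T ∈ GA`, `Φ` from `GA_op`.  (1) `T u ∈ RR n k ↔ Φ a ∈ I`: if `T u = zi (Φ f) ∈ RR` then
`Φ f ∈ I ⊔ Fge (d+1)` (`mem_RR`), `Φ (a - f) ∈ I ⊔ Fge (d+1)`, so `Φ a ∈ A ⊓ (I ⊔ Fge (d+1)) ≤ I` (`oA`); conversely `RR_soc`.  The same for `b`, `w`.  (2) `Lnk (Φ a) (Φ b)` (`Lnk.map`, `TOp p Φ`),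
so `Φ a ∈ I ↔ Φ b ∈ I` (`Lk.iff`): this is `lk`.  `nu`: `T = id` in (1).  (3) `lk2`: `x, y : ZMod p` are images of integers `x', y'` not both divisible by `p`; `T (x u + y w) = zi (Φ (x' f + y' g)) ∈ RR n k`,
so `x' Φ f + y' Φ g ∈ I ⊔ Fge (d+1)` (`mem_RR`), so `x' Φ a + y' Φ b ∈ I ⊔ Fge (d+1)` (`d = e`), `best` for the linked pair `Φ a, Φ b`: `Φ a ∈ I`, `Φ b ∈ I`, (1).
`S` is any predicate; `su`, `sw` are given.
-/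

namespace ADQ

open AD ADN ADC

private theorem lpx_sub {p : ℕ} {I : Submodule ℤ P} (hI : NC p I) {d : ℕ} {a f : P}
    (af : a - f ∈ I ⊔ Fge (d + 1)) {Φ : P →ₗ[ℤ] P} (hΦ : TOp p Φ)
    (hF : ∀ m, ∀ x ∈ Fge m, Φ x ∈ Fge m) : Φ a - Φ f ∈ I ⊔ Fge (d + 1) := by
  obtain ⟨i, hi, x, hx, e⟩ := Submodule.mem_sup.1 af
  rw [← map_sub, ← e, map_add]
  exact Submodule.add_mem_sup (hΦ I hI.isT hI.mul.sq i hi) (hF _ x hx)

private theorem lpx_fwd {p : ℕ} {I A : Submodule ℤ P} (hI : NC p I) {d : ℕ} {a f : P}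
    (af : a - f ∈ I ⊔ Fge (d + 1)) (oA : Od I A d) {Φ : P →ₗ[ℤ] P} (hΦ : TOp p Φ)
    (hF : ∀ m, ∀ x ∈ Fge m, Φ x ∈ Fge m) (ha : Φ a ∈ A) (hf : Φ f ∈ I ⊔ Fge (d + 1)) : Φ a ∈ I := by
  refine oA.2 ⟨ha, ?_⟩
  have e : Φ a = (Φ a - Φ f) + Φ f := by abel
  rw [e]
  exact Submodule.add_mem _ (lpx_sub hI af hΦ hF) hf

private theorem lpx_iff {p : ℕ} [Fact p.Prime] {I A : Submodule ℤ P} (hI : NC p I) {n k : ℕ}
    (hn : 1 ≤ n) {a f : P} (hf : f ∈ HQ p n k) (af : a - f ∈ I ⊔ Fge (n + (p - 1) * k + 1))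
    (oA : Od I A (n + (p - 1) * k)) {Φ : P →ₗ[ℤ] P} {T : Z p →ₗ[ZMod p] Z p} (hΦ : TOp p Φ)
    (hO : Opr p n k n k Φ T) (hF : ∀ m, ∀ x ∈ Fge m, Φ x ∈ Fge m) (ha : Φ a ∈ A)
    (hH : Φ f ∈ HQ p n k ∧ zi p n (Φ f) = T (zi p n f)) :
    T (zi p n f) ∈ RR p I n k ↔ Φ a ∈ I := by
  constructor
  · intro h1
    exact lpx_fwd hI af oA hΦ hF ha (((mem_RR hI hn).1 h1).2 _ hH.1 hH.2)
  · intro h1
    exact RR_soc hI hO hf af (Submodule.mem_sup_left h1)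

theorem TP.LP {p : ℕ} [Fact p.Prime] {I A B C : Submodule ℤ P} {n k l : ℕ} {a b f g : P}
    (h : TP p I A B C n k l a b f g) {S : ℕ → ℕ → Z p → Prop} (su : S n k (zi p n f)) (sw : S n l (zi p n g)) :
    LP p (RR p I) S n k l (zi p n f) (zi p n g) := by
  have key : ∀ T ∈ GA p n, ∃ Φ : P →ₗ[ℤ] P, TOp p Φ ∧ (∀ m, ∀ x ∈ Fge m, Φ x ∈ Fge m) ∧
      (∀ k, ∀ x ∈ HQ p n k, Φ x ∈ HQ p n k ∧ zi p n (Φ x) = T (zi p n x)) ∧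
      Lnk A B C (Φ a) (Φ b) ∧ (T (zi p n f) ∈ RR p I n k ↔ Φ a ∈ I) ∧
      (T (zi p n g) ∈ RR p I n l ↔ Φ b ∈ I) := by
    intro T hT
    obtain ⟨Φ, hΦ, hO, hF, -, hH⟩ := GA_op hT
    have hl : Lnk A B C (Φ a) (Φ b) := Lnk.map h.lk h.ln hΦ
    exact ⟨Φ, hΦ, hF, hH, hl, lpx_iff h.nc h.n1 h.hf h.af h.oA hΦ (hO k) hF hl.1 (hH k f h.hf),
      lpx_iff h.nc h.n1 h.hg h.bg h.oB hΦ (hO l) hF hl.2.1 (hH l g h.hg)⟩
  refine ⟨h.n1, h.kl, su, sw, ?_, ?_, ?_⟩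
  · intro hu
    have h1 : f ∈ I ⊔ Fge (n + (p - 1) * k + 1) := ((mem_RR h.nc h.n1).1 hu).2 f h.hf rfl
    exact h.na (lpx_fwd (Φ := LinearMap.id) h.nc h.af h.oA (TOp.id' p) (fun _ _ hx => hx) h.ln.1 h1)
  · intro T hT
    obtain ⟨Φ, -, -, -, hl, h1, h2⟩ := key T hT
    exact h1.trans ((h.lk.iff hl).trans h2.symm)
  · intro hkl T hT x y hxy hm
    subst hkl
    obtain ⟨Φ, hΦ, hF, hH, hl, h1, h2⟩ := key T hT
    have hx : (((x.val : ℕ) : ℤ) : ZMod p) = x := by simp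
    have hy : (((y.val : ℕ) : ℤ) : ZMod p) = y := by simp
    have hz : ∀ (c : ℤ) (v : Z p), ((c : ZMod p)) • v = c • v := fun c v =>
      Int.cast_smul_eq_zsmul (ZMod p) c v
    have e1 : zi p n (((x.val : ℕ) : ℤ) • Φ f + ((y.val : ℕ) : ℤ) • Φ g) =
        T (x • zi p n f + y • zi p n g) := by
      rw [map_add, map_smul, map_smul, (hH k f h.hf).2, (hH k g h.hg).2, ← hz, ← hz, hx, hy,
        map_add, map_smul, map_smul]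
    have m1 : ((x.val : ℕ) : ℤ) • Φ f + ((y.val : ℕ) : ℤ) • Φ g ∈
        I ⊔ Fge (n + (p - 1) * k + 1) :=
      ((mem_RR h.nc h.n1).1 hm).2 _ (Submodule.add_mem _ (Submodule.smul_mem _ _ (hH k f h.hf).1)
        (Submodule.smul_mem _ _ (hH k g h.hg).1)) e1
    have m2 := lpx_sub h.nc h.af hΦ hF
    have m3 := lpx_sub h.nc h.bg hΦ hF
    have e2 : ((x.val : ℕ) : ℤ) • Φ a + ((y.val : ℕ) : ℤ) • Φ b =
        (((x.val : ℕ) : ℤ) • Φ f + ((y.val : ℕ) : ℤ) • Φ g) +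
          (((x.val : ℕ) : ℤ) • (Φ a - Φ f) + ((y.val : ℕ) : ℤ) • (Φ b - Φ g)) := by
      rw [smul_sub, smul_sub]
      abel
    have ha : Φ a ∈ I := by
      refine h.best (Φ a) (Φ b) hl ((x.val : ℕ) : ℤ) ((y.val : ℕ) : ℤ) ?_ ?_
      · rintro ⟨d1, d2⟩
        apply hxy
        constructor
        · rw [← hx]
          exact (ZMod.intCast_zmod_eq_zero_iff_dvd _ p).2 d1
        · rw [← hy]
          exact (ZMod.intCast_zmod_eq_zero_iff_dvd _ p).2 d2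
      · rw [e2]
        exact Submodule.add_mem _ m1 (Submodule.add_mem _ (Submodule.smul_mem _ _ m2)
          (Submodule.smul_mem _ _ m3))
    exact ⟨h1.2 ha, h2.2 ((h.lk.iff hl).1 ha)⟩

end ADQ
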