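import Pool.Agent.ADQ.Defs

/-!
# ADQ-Lif: lifts of the polynomials in `z`

`zi_mon`, `zi_mon_neg`: `lm_mon`.  `zx p n w i = (w.count i - 1) / (p - 1)` for `i < n`, `0` otherwise; for `zw p n w`:
`w.count i = 1 + (p-1) * zx i`, so `w.length = n + (p-1) * (zx p n w).degree`.  `zi_ker`: modulo `I + Fge (L + c)`,
`L = n + (p-1) k`, two words that are permutations of each other are congruent, so an element of `HQ p n k` is a
combination of standard words, one for every monomial in `z`; if its image is `0`, the coefficients are divisible by `p`.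
-/

namespace ADQ

open AD ADN ADC

theorem zi_mon {p n : ℕ} {w : List ℕ} (h : zw p n w) : zi p n (mon w) = mo (zx p n w) := by
  classical
  unfold zi
  rw [lm_mon]
  simp only [if_pos h]

theorem zi_mon_neg {p n : ℕ} {w : List ℕ} (h : ¬ zw p n w) : zi p n (mon w) = 0 := by
  classical
  unfold zi
  rw [lm_mon]
  simp only [if_neg h]

theorem zx_apply {p n : ℕ} (w : List ℕ) (i : ℕ) :
    zx p n w i = if i < n then (w.count i - 1) / (p - 1) else 0 := by
  classical
  unfold zx
  rw [Finsupp.finsetSum_apply]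
  simp only [Finsupp.single_apply]
  rw [Finset.sum_ite_eq' (Finset.range n) i (fun j => (w.count j - 1) / (p - 1))]
  simp only [Finset.mem_range]

theorem zw_count {p n : ℕ} (hp : 2 ≤ p) {w : List ℕ} (h : zw p n w) {i : ℕ} (hi : i < n) :
    w.count i = 1 + (p - 1) * zx p n w i := by
  obtain ⟨h1, h2⟩ := h.2 i hi
  rw [zx_apply, if_pos hi, Nat.mul_div_cancel' h2]
  omega

private theorem lif_len (n : ℕ) (w : List ℕ) (h : ∀ i ∈ w, i < n) :
    w.length = ∑ i ∈ Finset.range n, w.count i := by
  induction w with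
  | nil => simp
  | cons a w ih =>
    have h1 := ih (fun i hi => h i (List.mem_cons_of_mem a hi))
    have h2 : a ∈ Finset.range n := Finset.mem_range.2 (h a List.mem_cons_self)
    rw [List.length_cons, h1]
    simp only [List.count_cons, Finset.sum_add_distrib, beq_iff_eq, Finset.sum_ite_eq, if_pos h2]

private theorem lif_deg (p n : ℕ) (w : List ℕ) :
    (zx p n w).degree = ∑ i ∈ Finset.range n, (w.count i - 1) / (p - 1) := by
  unfold zx
  rw [map_sum]
  exact Finset.sum_congr rfl (fun i _ => Finsupp.degree_single _ _)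

theorem zw_length {p n : ℕ} (hp : 2 ≤ p) {w : List ℕ} (h : zw p n w) :
    w.length = n + (p - 1) * (zx p n w).degree := by
  rw [lif_len n w h.1, lif_deg, Finset.mul_sum]
  have h1 : ∑ i ∈ Finset.range n, w.count i
      = ∑ i ∈ Finset.range n, (1 + (p - 1) * ((w.count i - 1) / (p - 1))) := by
    refine Finset.sum_congr rfl (fun i hi => ?_)
    have h2 := zw_count hp h (Finset.mem_range.1 hi)
    rwa [zx_apply, if_pos (Finset.mem_range.1 hi)] at h2
  rw [h1, Finset.sum_add_distrib]
  simp

/-- the standard word -/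
private def stw (p n : ℕ) (m : ℕ →₀ ℕ) : List ℕ :=
  (List.range n).flatMap (fun i => List.replicate (1 + (p - 1) * m i) i)

private theorem stw_succ (p n : ℕ) (m : ℕ →₀ ℕ) :
    stw p (n + 1) m = stw p n m ++ List.replicate (1 + (p - 1) * m n) n := by
  unfold stw
  rw [List.range_succ, List.flatMap_append]
  simp

private theorem stw_count (p n : ℕ) (m : ℕ →₀ ℕ) (i : ℕ) :
    (stw p n m).count i = if i < n then 1 + (p - 1) * m i else 0 := by
  induction n with
  | zero => simp [stw]
  | succ n ih =>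
    rw [stw_succ, List.count_append, ih, List.count_replicate]
    by_cases h : i < n
    · have h1 : ¬ (n == i) = true := by simp; omega
      rw [if_pos h, if_neg h1, if_pos (by omega), add_zero]
    · by_cases h2 : n = i
      · subst h2
        simp
      · have h1 : ¬ (n == i) = true := by simpa using h2
        rw [if_neg h, if_neg h1, if_neg (by omega)]

private theorem stw_mem {p n : ℕ} {m : ℕ →₀ ℕ} {i : ℕ} (h : i ∈ stw p n m) : i < n := by
  unfold stw at h
  rw [List.mem_flatMap] at h
  obtain ⟨a, ha, hi⟩ := h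
  rw [List.eq_of_mem_replicate hi]
  exact List.mem_range.1 ha

private theorem stw_zw (p n : ℕ) (m : ℕ →₀ ℕ) : zw p n (stw p n m) := by
  refine ⟨fun i hi => stw_mem hi, fun i hi => ?_⟩
  rw [stw_count, if_pos hi]
  refine ⟨by omega, ?_⟩
  rw [Nat.add_sub_cancel_left]
  exact dvd_mul_right _ _

private theorem stw_ne {p n : ℕ} (hn : 1 ≤ n) (m : ℕ →₀ ℕ) : stw p n m ≠ [] := by
  intro h
  have h1 := stw_count p n m 0
  rw [h, if_pos (by omega)] at h1
  simp only [List.count_nil] at h1
  omega

private theorem stw_zx {p n : ℕ} (hp : 2 ≤ p) (m : ℕ →₀ ℕ) (i : ℕ) :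
    zx p n (stw p n m) i = if i < n then m i else 0 := by
  rw [zx_apply]
  by_cases h : i < n
  · rw [if_pos h, if_pos h, stw_count, if_pos h, Nat.add_sub_cancel_left,
      Nat.mul_div_cancel_left _ (by omega)]
  · rw [if_neg h, if_neg h]

theorem exists_word {p n : ℕ} (hp : 2 ≤ p) {m : ℕ →₀ ℕ} (hm : ∀ i, n ≤ i → m i = 0) :
    ∃ w, zw p n w ∧ zx p n w = m ∧ w.length = n + (p - 1) * m.degree := by
  have h1 : zx p n (stw p n m) = m := by
    ext i
    rw [stw_zx hp]
    by_cases h : i < n
    · rw [if_pos h]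
    · rw [if_neg h, hm i (by omega)]
  refine ⟨stw p n m, stw_zw p n m, h1, ?_⟩
  rw [zw_length hp (stw_zw p n m), h1]

private theorem zx_supp {p n : ℕ} (w : List ℕ) (i : ℕ) (hi : n ≤ i) : zx p n w i = 0 := by
  rw [zx_apply, if_neg (by omega)]

theorem zi_mem {p n k : ℕ} (hp : 2 ≤ p) {f : P} (hf : f ∈ HQ p n k) : zi p n f ∈ Hh p n k := by
  unfold HQ at hf
  induction hf using Submodule.span_induction with
  | mem x hx =>
    obtain ⟨w, hw, hl, rfl⟩ := hx
    rw [zi_mon hw]
    refine Submodule.subset_span ⟨zx p n w, fun i hi => zx_supp w i hi, ?_, rfl⟩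
    have h1 := zw_length hp hw
    rw [hl] at h1
    have h2 : (p - 1) * k = (p - 1) * (zx p n w).degree := by omega
    exact (Nat.eq_of_mul_eq_mul_left (by omega) h2).symm
  | zero => rw [map_zero]; exact Submodule.zero_mem _
  | add x y _ _ hx hy => rw [map_add]; exact Submodule.add_mem _ hx hy
  | smul c x _ hx => rw [map_smul]; exact zsmul_mem hx c

theorem exists_lift {p : ℕ} [Fact p.Prime] {n k : ℕ} {F : Z p} (hF : F ∈ Hh p n k) :
    ∃ f ∈ HQ p n k, zi p n f = F := by
  have hp : 2 ≤ p := (Fact.out : p.Prime).two_le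
  unfold Hh at hF
  induction hF using Submodule.span_induction with
  | mem x hx =>
    obtain ⟨m, hm, hd, rfl⟩ := hx
    obtain ⟨w, hw, hz, hl⟩ := exists_word (p := p) hp hm
    refine ⟨mon w, Submodule.subset_span ⟨w, hw, ?_, rfl⟩, ?_⟩
    · rw [hl, hd]
    · rw [zi_mon hw, hz]
  | zero => exact ⟨0, Submodule.zero_mem _, map_zero _⟩
  | add x y _ _ hx hy =>
    obtain ⟨f, hf, rfl⟩ := hx
    obtain ⟨g, hg, rfl⟩ := hy
    exact ⟨f + g, Submodule.add_mem _ hf hg, map_add _ _ _⟩
  | smul c x _ hx =>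
    obtain ⟨f, hf, rfl⟩ := hx
    refine ⟨(c.val : ℤ) • f, Submodule.smul_mem _ _ hf, ?_⟩
    rw [map_smul, ← Int.cast_smul_eq_zsmul (ZMod p), Int.cast_natCast, ZMod.natCast_zmod_val]

private theorem lif_mem {n : ℕ} {w : List ℕ} (h : n ≤ w.length) : mon w ∈ Fge n :=
  Submodule.subset_span ⟨w, h, rfl⟩

private theorem lif_mul {a b : ℕ} {f g : P} (hf : f ∈ Fge a) (hg : g ∈ Fge b) : f * g ∈ Fge (a + b) := by
  induction hf using Submodule.span_induction with
  | mem f hf =>
    obtain ⟨u, hu, rfl⟩ := hf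
    induction hg using Submodule.span_induction with
    | mem g hg =>
      obtain ⟨v, hv, rfl⟩ := hg
      rw [← mon_append]
      exact lif_mem (by rw [List.length_append]; omega)
    | zero => rw [mul_zero]; exact Submodule.zero_mem _
    | add x y _ _ hx hy => rw [mul_add]; exact Submodule.add_mem _ hx hy
    | smul c x _ hx => rw [mul_smul_comm]; exact Submodule.smul_mem _ _ hx
  | zero => rw [zero_mul]; exact Submodule.zero_mem _
  | add x y _ _ hx hy => rw [add_mul]; exact Submodule.add_mem _ hx hy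
  | smul c x _ hx => rw [smul_mul_assoc]; exact Submodule.smul_mem _ _ hx

private theorem lif_swap {I : Submodule ℤ P} (hI : IsT I) {c : ℕ} (hc : cm 0 1 ∈ I ⊔ Fge (c + 2))
    (u v : List ℕ) (i j : ℕ) :
    mon (u ++ i :: j :: v) - mon (u ++ j :: i :: v) ∈ I ⊔ Fge (u.length + v.length + 2 + c) := by
  obtain ⟨a, ha, b, hb, hab⟩ := Submodule.mem_sup.1 hc
  have hs : IsSubst (sb (fun t => if t = 0 then X i else X j)) := by
    apply sb_isSubst
    intro t
    by_cases ht : t = 0
    · simp only [if_pos ht]; exact X_mem i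
    · simp only [if_neg ht]; exact X_mem j
  have ha' := hI.subst _ hs a ha
  have hb' := (isT_Fge (c + 2) (by omega)).subst _ hs b hb
  have e1 : sb (fun t => if t = 0 then X i else X j) (cm 0 1) = X i * X j - X j * X i := by
    unfold cm
    rw [map_sub, map_mul, map_mul, sb_X, sb_X]
    simp
  rw [← hab, map_add] at e1
  have e2 : mon (u ++ i :: j :: v) - mon (u ++ j :: i :: v)
      = mon u * sb (fun t => if t = 0 then X i else X j) a * mon v
        + mon u * sb (fun t => if t = 0 then X i else X j) b * mon v := by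
    rw [mon_append, mon_append, mon_cons, mon_cons, mon_cons, mon_cons, ← add_mul, ← mul_add, e1]
    noncomm_ring
  rw [e2]
  refine Submodule.add_mem_sup (hI.mul_right _ (hI.mul_left _ ha' _) _) ?_
  have h1 := lif_mul (lif_mul (lif_mem (le_refl u.length)) hb') (lif_mem (le_refl v.length))
  refine Fge_anti ?_ h1
  omega

private theorem lif_perm {I : Submodule ℤ P} (hI : IsT I) {c : ℕ} (hc : cm 0 1 ∈ I ⊔ Fge (c + 2)) {L : ℕ}
    {w w' : List ℕ} (h : w.Perm w') : ∀ u : List ℕ, u.length + w.length = L →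
    mon (u ++ w) - mon (u ++ w') ∈ I ⊔ Fge (L + c) := by
  induction h with
  | nil => intro u _; rw [sub_self]; exact Submodule.zero_mem _
  | cons x h ih =>
    rename_i l₁ l₂
    intro u hu
    have h1 := ih (u ++ [x]) (by
      rw [List.length_append, List.length_singleton]
      rw [List.length_cons] at hu
      omega)
    rwa [List.append_assoc, List.append_assoc, List.singleton_append, List.singleton_append] at h1
  | swap x y l =>
    intro u hu
    have h1 := lif_swap hI hc u l y x
    rw [List.length_cons, List.length_cons] at hu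
    rwa [show u.length + l.length + 2 + c = L + c by omega] at h1
  | trans h1 h2 ih1 ih2 =>
    rename_i l₁ l₂ l₃
    intro u hu
    have a1 := ih1 u hu
    have a2 := ih2 u (by rw [← h1.length_eq]; exact hu)
    have e : mon (u ++ l₁) - mon (u ++ l₃) = (mon (u ++ l₁) - mon (u ++ l₂)) + (mon (u ++ l₂) - mon (u ++ l₃)) := by
      abel
    rw [e]
    exact Submodule.add_mem _ a1 a2

private theorem zw_perm {p n : ℕ} (hp : 2 ≤ p) {w : List ℕ} (h : zw p n w) : w.Perm (stw p n (zx p n w)) := by
  rw [List.perm_iff_count]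
  intro i
  rw [stw_count]
  by_cases hi : i < n
  · rw [if_pos hi]; exact zw_count hp h hi
  · rw [if_neg hi, List.count_eq_zero]
    exact fun h' => hi (h.1 i h')

private theorem lif_repr {p : ℕ} (hp : 2 ≤ p) {I : Submodule ℤ P} (hI : IsT I) {c : ℕ}
    (hc : cm 0 1 ∈ I ⊔ Fge (c + 2)) {n k : ℕ} {f : P} (hf : f ∈ HQ p n k) :
    ∃ d : (ℕ →₀ ℕ) →₀ ℤ, f - d.sum (fun m a => a • mon (stw p n m)) ∈ I ⊔ Fge (n + (p - 1) * k + c) ∧
      zi p n f = d.sum (fun m a => a • (mo m : Z p)) := by
  classical
  unfold HQ at hf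
  induction hf using Submodule.span_induction with
  | mem x hx =>
    obtain ⟨w, hw, hl, rfl⟩ := hx
    refine ⟨Finsupp.single (zx p n w) 1, ?_, ?_⟩
    · rw [Finsupp.sum_single_index (by simp), one_smul]
      have h1 := lif_perm hI hc (L := n + (p - 1) * k) (zw_perm hp hw) [] (by simpa using hl)
      simpa using h1
    · rw [Finsupp.sum_single_index (by simp), one_smul, zi_mon hw]
  | zero => exact ⟨0, by simp, by simp⟩
  | add x y _ _ hx hy =>
    obtain ⟨d, h1, h2⟩ := hx
    obtain ⟨e, h3, h4⟩ := hy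
    refine ⟨d + e, ?_, ?_⟩
    · rw [Finsupp.sum_add_index' (by simp) (by intro a b c; rw [add_smul]), add_sub_add_comm]
      exact Submodule.add_mem _ h1 h3
    · rw [Finsupp.sum_add_index' (by simp) (by intro a b c; rw [add_smul]), map_add, h2, h4]
  | smul t x _ hx =>
    obtain ⟨d, h1, h2⟩ := hx
    refine ⟨t • d, ?_, ?_⟩
    · rw [Finsupp.sum_smul_index' (by simp)]
      have e : (d.sum fun i c => (t • c) • mon (stw p n i)) = t • d.sum (fun m a => a • mon (stw p n m)) := by
        rw [Finsupp.smul_sum]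
        refine Finsupp.sum_congr (fun i _ => ?_)
        rw [smul_eq_mul, mul_smul]
      rw [e, ← smul_sub]
      exact Submodule.smul_mem _ _ h1
    · rw [Finsupp.sum_smul_index' (by simp), map_smul, h2, Finsupp.smul_sum]
      refine Finsupp.sum_congr (fun i _ => ?_)
      rw [smul_eq_mul, mul_smul]

theorem zi_ker {p : ℕ} [Fact p.Prime] {I : Submodule ℤ P} (hI : IsT I) (hm : Mul p I) {c : ℕ}
    (hc : cm 0 1 ∈ I ⊔ Fge (c + 2)) {n k : ℕ} (hn : 1 ≤ n) {f : P} (hf : f ∈ HQ p n k) (h0 : zi p n f = 0) :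
    f ∈ I ⊔ Fge (n + (p - 1) * k + c) := by
  classical
  have hp : 2 ≤ p := (Fact.out : p.Prime).two_le
  obtain ⟨d, h1, h2⟩ := lif_repr hp hI hc hf
  have h3 : ∀ m, (p : ℤ) ∣ d m := by
    intro m
    rw [h0] at h2
    have h4 := congrArg (MvPolynomial.coeff m) h2
    rw [MvPolynomial.coeff_zero, Finsupp.sum, MvPolynomial.coeff_sum] at h4
    have h5 : ∀ x ∈ d.support, MvPolynomial.coeff m (d x • (mo x : Z p)) = if x = m then ((d x : ℤ) : ZMod p) else 0 := by
      intro x _
      rw [← Int.cast_smul_eq_zsmul (ZMod p), MvPolynomial.coeff_smul]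
      unfold mo
      rw [MvPolynomial.coeff_monomial]
      by_cases hx : x = m
      · rw [if_pos hx, if_pos hx]; simp
      · rw [if_neg hx, if_neg hx]; simp
    rw [Finset.sum_congr rfl h5, Finset.sum_ite_eq' d.support m (fun x => ((d x : ℤ) : ZMod p))] at h4
    by_cases hmem : m ∈ d.support
    · rw [if_pos hmem] at h4
      exact (ZMod.intCast_zmod_eq_zero_iff_dvd _ _).1 h4.symm
    · rw [Finsupp.notMem_support_iff.1 hmem]
      exact dvd_zero _
  have h4 : d.sum (fun m a => a • mon (stw p n m)) ∈ I := by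
    refine Submodule.sum_mem _ (fun m _ => ?_)
    obtain ⟨t, ht⟩ := h3 m
    show d m • mon (stw p n m) ∈ I
    rw [ht, mul_comm, mul_smul]
    exact Submodule.smul_mem _ _ (hm _ (mon_mem (stw_ne hn m)))
  have h5 : f = (f - d.sum (fun m a => a • mon (stw p n m))) + d.sum (fun m a => a • mon (stw p n m)) := by
    abel
  rw [h5]
  exact Submodule.add_mem _ h1 (Submodule.mem_sup_left h4)

end ADQ
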