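import Pool.Agent.ADQ.TOz
import Pool.Agent.ADQ.Lif

/-!
# ADQ-ODd: `x_i ↦ x_i + x_j`, `p ≥ 3`

`Φ = fDd p n i j`.  `tO`: `TO_zw`, `sb_mem`.  `up`: words are mapped to combinations of words of the same length.  `val`: `w` with `zw p n w`,
`w.count i = 1 + (p-1) m`, `m ≤ k ≤ 4`.  `sb` maps `mon w` to the sum of the words obtained by replacing each `i` by `i` or `j`; the words with `s`
letters `i` (there are `C(1+(p-1)m, s)` of them) are `zw p n` iff `s = 1 + (p-1) a`, and all of them have the exponents `a` at `i` and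
`m_j + (m - a)` at `j`.  So `zi p n (Φ (mon w)) = ∑_{a=0}^{m-1} C(1+(p-1)m, 1+(p-1)a) z_i^a z_j^(m-a) * (rest)` (the term `a = m` is cancelled by the identity).
`Φ (mon w)` is itself in `HQ p n k`, take `g = Φ (mon w)`.
Binomials modulo `p` (`binom`): `1 + (p-1) m = p (m-1) + (p+1-m)` for `2 ≤ m ≤ p`, Lucas (`Choose.choose_modEq_choose_mod_mul_choose_div_nat` or
`Nat.choose` with `Nat.Prime`): `a = 1`: `p = p * 1 + 0`: `C(m-1,1) C(p+1-m,0) = m - 1`; `a = 0`: `C(m-1,0) C(p+1-m,1) = p+1-m ≡ -(m-1)`;
`2 ≤ a < m`: `C(m-1,a-1) C(p+1-m, p+1-a) = 0` as `p+1-a > p+1-m`.  `m = 1`: `C(p,1) = p ≡ 0` (`a = 0`), this is `(m-1) = 0`.  `m = p + 1` (only `p = 3`, `m = 4`: `9`):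
`C(9,7)=36, C(9,5)=126, C(9,3)=84, C(9,1)=9`, all divisible by 3.  `m = 0`: nothing.  So the value is `(m-1) (z_i - z_j) z_j^(m-1) * rest`: this is `dd i j`.
-/

namespace ADQ

open AD ADN ADC

private theorem od_luc {p a b c d : ℕ} (hp : p.Prime) (ha : a < p) (hb : b < p) :
    ((Nat.choose (p * c + a) (p * d + b) : ℕ) : ZMod p) = ((Nat.choose a b * Nat.choose c d : ℕ) : ZMod p) := by
  have : Fact p.Prime := ⟨hp⟩
  have h := Choose.choose_modEq_choose_mod_mul_choose_div_nat (n := p * c + a) (k := p * d + b) (p := p)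
  have h0 : 0 < p := hp.pos
  rw [Nat.mul_add_mod, Nat.mul_add_mod, Nat.mod_eq_of_lt ha, Nat.mod_eq_of_lt hb,
    Nat.mul_add_div h0, Nat.mul_add_div h0, Nat.div_eq_of_lt ha, Nat.div_eq_of_lt hb, add_zero, add_zero] at h
  exact (ZMod.natCast_eq_natCast_iff _ _ _).2 h

theorem binom {p m a : ℕ} (hp : p.Prime) (h3 : 3 ≤ p) (hm : m ≤ 4) (ha : a < m) :
    ((Nat.choose (1 + (p - 1) * m) (1 + (p - 1) * a) : ℕ) : ZMod p) =
      if a = 1 then (m : ZMod p) - 1 else if a = 0 then - ((m : ZMod p) - 1) else 0 := by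
  obtain ⟨q, rfl⟩ : ∃ q, p = q + 3 := ⟨p - 3, by omega⟩
  have hp0 : ((q + 3 : ℕ) : ZMod (q + 3)) = 0 := ZMod.natCast_self _
  have hq : (q : ZMod (q + 3)) = -3 := by
    have h := hp0
    push_cast at h
    linear_combination h
  have e1 : q + 3 - 1 = q + 2 := by omega
  rw [e1]
  interval_cases m
  · omega
  · obtain rfl : a = 0 := by omega
    have h1 : 1 + (q + 2) * 1 = (q + 3) * 1 + 0 := by ring
    have h2 : 1 + (q + 2) * 0 = (q + 3) * 0 + 1 := by ring
    rw [h1, h2, od_luc hp (by omega) (by omega)]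
    simp
  · interval_cases a
    · have h1 : 1 + (q + 2) * 2 = (q + 3) * 1 + (q + 2) := by ring
      have h2 : 1 + (q + 2) * 0 = (q + 3) * 0 + 1 := by ring
      rw [h1, h2, od_luc hp (by omega) (by omega)]
      simp only [Nat.choose_one_right, Nat.choose_zero_right]
      push_cast
      rw [hq]
      norm_num
    · have h1 : 1 + (q + 2) * 2 = (q + 3) * 1 + (q + 2) := by ring
      have h2 : 1 + (q + 2) * 1 = (q + 3) * 1 + 0 := by ring
      rw [h1, h2, od_luc hp (by omega) (by omega)]
      simp only [Nat.choose_one_right, Nat.choose_zero_right]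
      push_cast
      norm_num
  · interval_cases a
    · have h1 : 1 + (q + 2) * 3 = (q + 3) * 2 + (q + 1) := by ring
      have h2 : 1 + (q + 2) * 0 = (q + 3) * 0 + 1 := by ring
      rw [h1, h2, od_luc hp (by omega) (by omega)]
      simp only [Nat.choose_one_right, Nat.choose_zero_right]
      push_cast
      rw [hq]
      norm_num
    · have h1 : 1 + (q + 2) * 3 = (q + 3) * 2 + (q + 1) := by ring
      have h2 : 1 + (q + 2) * 1 = (q + 3) * 1 + 0 := by ring
      rw [h1, h2, od_luc hp (by omega) (by omega)]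
      simp only [Nat.choose_one_right, Nat.choose_zero_right]
      push_cast
      norm_num
    · have h1 : 1 + (q + 2) * 3 = (q + 3) * 2 + (q + 1) := by ring
      have h2 : 1 + (q + 2) * 2 = (q + 3) * 1 + (q + 2) := by ring
      rw [h1, h2, od_luc hp (by omega) (by omega), Nat.choose_eq_zero_of_lt (by omega : q + 1 < q + 2)]
      simp
  · interval_cases a
    · have h1 : 1 + (q + 2) * 4 = (q + 3) * 3 + q := by ring
      have h2 : 1 + (q + 2) * 0 = (q + 3) * 0 + 1 := by ring
      rw [h1, h2, od_luc hp (by omega) (by omega)]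
      simp only [Nat.choose_one_right, Nat.choose_zero_right]
      push_cast
      rw [hq]
      norm_num
    · have h1 : 1 + (q + 2) * 4 = (q + 3) * 3 + q := by ring
      have h2 : 1 + (q + 2) * 1 = (q + 3) * 1 + 0 := by ring
      rw [h1, h2, od_luc hp (by omega) (by omega)]
      simp only [Nat.choose_one_right, Nat.choose_zero_right]
      push_cast
      norm_num
    · have h1 : 1 + (q + 2) * 4 = (q + 3) * 3 + q := by ring
      have h2 : 1 + (q + 2) * 2 = (q + 3) * 1 + (q + 2) := by ring
      rw [h1, h2, od_luc hp (by omega) (by omega), Nat.choose_eq_zero_of_lt (by omega : q < q + 2)]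
      simp
    · have h1 : 1 + (q + 2) * 4 = (q + 3) * 3 + q := by ring
      have h2 : 1 + (q + 2) * 3 = (q + 3) * 2 + (q + 1) := by ring
      rw [h1, h2, od_luc hp (by omega) (by omega), Nat.choose_eq_zero_of_lt (by omega : q < q + 1)]
      simp

/-- the numbers of the letters -/
private noncomputable def oc (w : List ℕ) : ℕ →₀ ℕ := (w.map (fun a => Finsupp.single a 1)).sum

private theorem oc_apply (w : List ℕ) (i : ℕ) : oc w i = w.count i := by
  induction w with
  | nil => simp [oc]
  | cons a w ih =>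
    have h : oc (a :: w) = Finsupp.single a 1 + oc w := by simp [oc]
    rw [h, Finsupp.add_apply, ih, List.count_cons, Finsupp.single_apply]
    by_cases e : a = i <;> simp [e, add_comm]

private theorem od_com (w : List ℕ) : com (mon w) = MvPolynomial.monomial (oc w) (1 : ℤ) := by
  induction w with
  | nil =>
    rw [mon_nil, map_one]
    rfl
  | cons a w ih =>
    have h : oc (a :: w) = Finsupp.single a 1 + oc w := by simp [oc]
    have hX : com (X a) = MvPolynomial.X a := FreeAlgebra.lift_ι_apply _ _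
    rw [mon_cons, map_mul, ih, h, hX, MvPolynomial.X, MvPolynomial.monomial_mul, one_mul]

/-- exponents of the words `zw` -/
private def ze (p n : ℕ) (d : ℕ →₀ ℕ) : Prop :=
  (∀ i, n ≤ i → d i = 0) ∧ ∀ i < n, 1 ≤ d i ∧ (p - 1) ∣ (d i - 1)

private noncomputable def zv (p n : ℕ) (d : ℕ →₀ ℕ) : ℕ →₀ ℕ :=
  ∑ i ∈ Finset.range n, Finsupp.single i ((d i - 1) / (p - 1))

private theorem zv_apply (p n : ℕ) (d : ℕ →₀ ℕ) (i : ℕ) :
    zv p n d i = if i < n then (d i - 1) / (p - 1) else 0 := by
  unfold zv
  rw [Finsupp.finsetSum_apply]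
  simp only [Finsupp.single_apply]
  rw [Finset.sum_ite_eq']
  simp

private theorem zw_ze {p n : ℕ} {w : List ℕ} : zw p n w ↔ ze p n (oc w) := by
  unfold zw ze
  refine and_congr ?_ ?_
  · constructor
    · intro h i hi
      rw [oc_apply]
      exact List.count_eq_zero_of_not_mem (fun hm => absurd (h i hm) (by omega))
    · intro h i hi
      by_contra hn
      have := h i (by omega)
      rw [oc_apply] at this
      exact absurd (List.count_pos_iff.2 hi) (by omega)
  · simp only [oc_apply]

private theorem zx_zv {p n : ℕ} {w : List ℕ} : zx p n w = zv p n (oc w) := by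
  unfold zx zv
  simp only [oc_apply]

/-- the map on commutative polynomials -/
private noncomputable def zt (p n : ℕ) : MvPolynomial ℕ ℤ →ₗ[ℤ] Z p :=
  open Classical in
  (MvPolynomial.basisMonomials ℕ ℤ).constr ℤ (fun d => if ze p n d then mo (zv p n d) else 0)

private theorem zt_mono {p n : ℕ} (d : ℕ →₀ ℕ) [Decidable (ze p n d)] :
    zt p n (MvPolynomial.monomial d 1) = if ze p n d then mo (zv p n d) else 0 := by
  unfold zt
  have h := (MvPolynomial.basisMonomials ℕ ℤ).constr_basis ℤ
    (fun d => open Classical in if ze p n d then (mo (zv p n d) : Z p) else 0) d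
  rw [MvPolynomial.coe_basisMonomials] at h
  rw [h]
  by_cases e : ze p n d <;> simp [e]

private theorem zi_zt {p n : ℕ} (f : P) : zi p n f = zt p n (com f) := by
  refine ind_mon (C := fun f => zi p n f = zt p n (com f)) (by simp) ?_ ?_ ?_ f
  · intro f g hf hg; rw [map_add, map_add, map_add, hf, hg]
  · intro c f hf; rw [map_smul, map_smul, hf, map_smul]
  · intro w
    classical
    rw [od_com, zt_mono]
    unfold zi
    rw [lm_mon]
    by_cases h : zw p n w
    · rw [if_pos h, if_pos (zw_ze.1 h), zx_zv]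
    · rw [if_neg h, if_neg (fun h' => h (zw_ze.2 h'))]

private theorem zi_wp {p n : ℕ} (f : P) : zi p n (wp (zw p n) f) = zi p n f := by
  refine ind_mon (C := fun f => zi p n (wp (zw p n) f) = zi p n f) (by simp) ?_ ?_ ?_ f
  · intro f g hf hg; rw [map_add, map_add, map_add, hf, hg]
  · intro c f hf; rw [map_smul, map_smul, hf, map_smul]
  · intro w
    by_cases h : zw p n w
    · rw [wp_pos h]
    · rw [wp_neg h, map_zero, zi_mon_neg h]

/-- the substitution -/
private noncomputable def ss (i j : ℕ) : ℕ → P := fun t => if t = i then X i + X j else X t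

private theorem ss_mem (i j t : ℕ) : ss i j t ∈ Pp := by
  unfold ss
  split_ifs
  · exact Submodule.add_mem _ (X_mem i) (X_mem j)
  · exact X_mem t

private theorem od_sb_len (i j : ℕ) (w : List ℕ) :
    sb (ss i j) (mon w) ∈ Submodule.span ℤ {f | ∃ v : List ℕ, v.length = w.length ∧ f = mon v} := by
  induction w with
  | nil =>
    rw [mon_nil, map_one]
    exact Submodule.subset_span ⟨[], rfl, mon_nil.symm⟩
  | cons a w ih =>
    have key : ∀ (b : ℕ) (g : P), g ∈ Submodule.span ℤ {f | ∃ v : List ℕ, v.length = w.length ∧ f = mon v} →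
        X b * g ∈ Submodule.span ℤ {f | ∃ v : List ℕ, v.length = (a :: w).length ∧ f = mon v} := by
      intro b g hg
      induction hg using Submodule.span_induction with
      | mem x hx =>
        obtain ⟨v, hv, rfl⟩ := hx
        exact Submodule.subset_span ⟨b :: v, by simp [hv], (mon_cons b v).symm⟩
      | zero => simp
      | add x y _ _ hx hy => rw [mul_add]; exact Submodule.add_mem _ hx hy
      | smul c x _ hx => rw [mul_smul_comm]; exact Submodule.smul_mem _ _ hx
    rw [mon_cons, map_mul, sb_X]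
    unfold ss
    split_ifs with h
    · rw [add_mul]
      exact Submodule.add_mem _ (key _ _ ih) (key _ _ ih)
    · exact key _ _ ih

private theorem od_HQ {p n k : ℕ} {f : P}
    (hf : f ∈ Submodule.span ℤ {f | ∃ v : List ℕ, v.length = n + (p - 1) * k ∧ f = mon v}) :
    wp (zw p n) f ∈ HQ p n k := by
  induction hf using Submodule.span_induction with
  | mem x hx =>
    obtain ⟨v, hv, rfl⟩ := hx
    by_cases h : zw p n v
    · rw [wp_pos h]; exact Submodule.subset_span ⟨v, h, hv, rfl⟩
    · rw [wp_neg h]; exact Submodule.zero_mem _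
  | zero => simp
  | add x y _ _ hx hy => rw [map_add]; exact Submodule.add_mem _ hx hy
  | smul c x _ hx => rw [map_smul]; exact Submodule.smul_mem _ _ hx

private theorem od_wp_Fge {φ : List ℕ → Prop} {m : ℕ} {f : P} (hf : f ∈ Fge m) : wp φ f ∈ Fge m := by
  unfold Fge at hf
  induction hf using Submodule.span_induction with
  | mem x hx =>
    obtain ⟨v, hv, rfl⟩ := hx
    by_cases h : φ v
    · rw [wp_pos h]; exact Submodule.subset_span ⟨v, hv, rfl⟩
    · rw [wp_neg h]; exact Submodule.zero_mem _
  | zero => simp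
  | add x y _ _ hx hy => rw [map_add]; exact Submodule.add_mem _ hx hy
  | smul c x _ hx => rw [map_smul]; exact Submodule.smul_mem _ _ hx

private theorem od_sb_Fge (i j : ℕ) {m : ℕ} {f : P} (hf : f ∈ Fge m) : sb (ss i j) f ∈ Fge m := by
  unfold Fge at hf
  induction hf using Submodule.span_induction with
  | mem x hx =>
    obtain ⟨v, hv, rfl⟩ := hx
    refine Submodule.span_mono ?_ (od_sb_len i j v)
    rintro _ ⟨u, hu, rfl⟩
    exact ⟨u, by omega, rfl⟩
  | zero => simp
  | add x y _ _ hx hy => rw [map_add]; exact Submodule.add_mem _ hx hy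
  | smul c x _ hx =>
    rw [map_zsmul]; exact Submodule.smul_mem _ _ hx

private theorem od_com_sb {i j : ℕ} (hij : i ≠ j) (w : List ℕ) : com (sb (ss i j) (mon w)) =
    ∑ s ∈ Finset.range (oc w i + 1), ((oc w i).choose s : ℤ) •
      MvPolynomial.monomial (Finsupp.single i s + Finsupp.single j (oc w i - s) + (oc w).erase i) (1 : ℤ) := by
  have h1 : com.comp (sb (ss i j)) = (MvPolynomial.aeval (fun t => if t = i then
      (MvPolynomial.X i + MvPolynomial.X j : MvPolynomial ℕ ℤ) else MvPolynomial.X t)).comp com := by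
    refine FreeAlgebra.hom_ext (funext fun t => ?_)
    have hX : ∀ a, com (X a) = MvPolynomial.X a := fun a => FreeAlgebra.lift_ι_apply _ _
    show com (sb (ss i j) (X t)) = MvPolynomial.aeval _ (com (X t))
    rw [sb_X, hX, MvPolynomial.aeval_X]
    unfold ss
    split_ifs with h
    · rw [map_add, hX, hX]
    · rw [hX]
  have h2 := DFunLike.congr_fun h1 (mon w)
  rw [AlgHom.comp_apply, AlgHom.comp_apply, od_com] at h2
  rw [h2]
  have h3 : MvPolynomial.monomial (oc w) (1 : ℤ) = MvPolynomial.X i ^ (oc w i) *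
      MvPolynomial.monomial ((oc w).erase i) (1 : ℤ) := by
    rw [MvPolynomial.X_pow_eq_monomial, MvPolynomial.monomial_mul, one_mul, Finsupp.single_add_erase]
  have h4 : MvPolynomial.aeval (fun t => if t = i then
      (MvPolynomial.X i + MvPolynomial.X j : MvPolynomial ℕ ℤ) else MvPolynomial.X t)
      (MvPolynomial.monomial ((oc w).erase i) (1 : ℤ)) = MvPolynomial.monomial ((oc w).erase i) (1 : ℤ) := by
    rw [MvPolynomial.aeval_monomial, map_one, one_mul, MvPolynomial.monomial_eq, map_one, one_mul]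
    refine Finsupp.prod_congr ?_
    intro t ht
    have : t ≠ i := by
      rintro rfl
      simp at ht
    simp [this]
  rw [h3, map_mul, map_pow, MvPolynomial.aeval_X, if_pos rfl, h4, add_pow, Finset.sum_mul]
  refine Finset.sum_congr rfl fun s hs => ?_
  rw [MvPolynomial.X_pow_eq_monomial, MvPolynomial.X_pow_eq_monomial, MvPolynomial.monomial_mul]
  rw [mul_assoc, mul_comm ((_ : ℕ) : MvPolynomial ℕ ℤ), ← mul_assoc, MvPolynomial.monomial_mul, mul_comm _ ((_ : ℕ) : MvPolynomial ℕ ℤ)]
  rw [zsmul_eq_mul]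
  push_cast
  norm_num

private theorem mo_mul {p : ℕ} (a b : ℕ →₀ ℕ) : (mo (a + b) : Z p) = mo a * mo b := by
  unfold mo
  rw [MvPolynomial.monomial_mul, one_mul]

private theorem mo_single {p : ℕ} (i a : ℕ) : (mo (Finsupp.single i a) : Z p) = z i ^ a := by
  unfold mo z
  rw [MvPolynomial.X_pow_eq_monomial]

private theorem lz_mo {p : ℕ} (φ : (ℕ →₀ ℕ) → Z p) (m : ℕ →₀ ℕ) : lz φ (mo m) = φ m := by
  have h := (MvPolynomial.basisMonomials ℕ (ZMod p)).constr_basis (ZMod p) φ m
  rw [MvPolynomial.coe_basisMonomials] at h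
  exact h

/-- the exponents after the substitution -/
private theorem od_exp {p n i j : ℕ} (h3 : 3 ≤ p) (hi : i < n) (hj : j < n) (hij : i ≠ j) {w : List ℕ}
    (hw : zw p n w) {s : ℕ} (hs : s ≤ oc w i) :
    (ze p n (Finsupp.single i s + Finsupp.single j (oc w i - s) + (oc w).erase i) ↔
      ∃ a ≤ zx p n w i, s = 1 + (p - 1) * a) ∧
    ∀ a ≤ zx p n w i, s = 1 + (p - 1) * a →
      zv p n (Finsupp.single i s + Finsupp.single j (oc w i - s) + (oc w).erase i) =
        Finsupp.single i a + Finsupp.single j (zx p n w i - a) + (zx p n w).erase i := by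
  have hp2 : 2 ≤ p := by omega
  have hci : oc w i = 1 + (p - 1) * zx p n w i := by rw [oc_apply]; exact zw_count hp2 hw hi
  have hcj : oc w j = 1 + (p - 1) * zx p n w j := by rw [oc_apply]; exact zw_count hp2 hw hj
  have hct : ∀ t < n, oc w t = 1 + (p - 1) * zx p n w t := fun t ht => by
    rw [oc_apply]; exact zw_count hp2 hw ht
  have hc0 : ∀ t, n ≤ t → oc w t = 0 := (zw_ze.1 hw).1
  have hq : 0 < p - 1 := by omega
  have ei : (Finsupp.single i s + Finsupp.single j (oc w i - s) + (oc w).erase i) i = s := by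
    simp [hij.symm]
  have ej : (Finsupp.single i s + Finsupp.single j (oc w i - s) + (oc w).erase i) j = oc w i - s + oc w j := by
    simp [hij, Finsupp.erase_ne hij.symm]
  have et : ∀ t, t ≠ i → t ≠ j →
      (Finsupp.single i s + Finsupp.single j (oc w i - s) + (oc w).erase i) t = oc w t := by
    intro t h1 h2
    simp [Ne.symm h1, Ne.symm h2, Finsupp.erase_ne h1]
  constructor
  · constructor
    · intro h
      obtain ⟨h1, a, ha⟩ := h.2 i hi
      rw [ei] at h1 ha
      have hs' : s = 1 + (p - 1) * a := by omega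
      refine ⟨a, ?_, hs'⟩
      rw [hs', hci] at hs
      exact Nat.le_of_mul_le_mul_left (by omega : (p - 1) * a ≤ (p - 1) * zx p n w i) hq
    · rintro ⟨a, ha, rfl⟩
      constructor
      · intro t ht
        rw [et t (by omega) (by omega), hc0 t ht]
      · intro t ht
        by_cases h1 : t = i
        · subst h1
          rw [ei]
          exact ⟨by omega, ⟨a, by omega⟩⟩
        by_cases h2 : t = j
        · subst h2
          rw [ej, hci, hcj]
          refine ⟨by omega, ⟨zx p n w i - a + zx p n w t, ?_⟩⟩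
          obtain ⟨b, hb⟩ := Nat.exists_eq_add_of_le ha
          rw [hb]
          have : a + b - a = b := by omega
          rw [this]
          have e : 1 + (p - 1) * (a + b) - (1 + (p - 1) * a) = (p - 1) * b := by
            rw [mul_add]; omega
          rw [e, mul_add]
          omega
        · rw [et t h1 h2, hct t ht]
          exact ⟨by omega, ⟨zx p n w t, by omega⟩⟩
  · rintro a ha rfl
    ext t
    rw [zv_apply]
    by_cases h1 : t = i
    · subst h1
      rw [ei, if_pos hi]
      have e2 : (Finsupp.single t a + Finsupp.single j (zx p n w t - a) + (zx p n w).erase t) t = a := by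
        simp [hij.symm]
      rw [e2]
      have : 1 + (p - 1) * a - 1 = (p - 1) * a := by omega
      rw [this, Nat.mul_div_cancel_left _ hq]
    by_cases h2 : t = j
    · subst h2
      rw [ej, if_pos hj, hci, hcj]
      have e2 : (Finsupp.single i a + Finsupp.single t (zx p n w i - a) + (zx p n w).erase i) t =
          zx p n w i - a + zx p n w t := by
        simp [hij, Finsupp.erase_ne h1]
      rw [e2]
      obtain ⟨b, hb⟩ := Nat.exists_eq_add_of_le ha
      rw [hb]
      have : a + b - a = b := by omega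
      rw [this]
      have e : 1 + (p - 1) * (a + b) - (1 + (p - 1) * a) + (1 + (p - 1) * zx p n w t) - 1 =
          (p - 1) * (b + zx p n w t) := by
        rw [mul_add, mul_add]; omega
      rw [e, Nat.mul_div_cancel_left _ hq]
    · have e2 : (Finsupp.single i a + Finsupp.single j (zx p n w i - a) + (zx p n w).erase i) t =
          zx p n w t := by
        simp [Ne.symm h1, Ne.symm h2, Finsupp.erase_ne h1]
      rw [et t h1 h2, e2]
      by_cases ht : t < n
      · rw [if_pos ht, hct t ht]
        have : 1 + (p - 1) * zx p n w t - 1 = (p - 1) * zx p n w t := by omega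
        rw [this, Nat.mul_div_cancel_left _ hq]
      · rw [if_neg ht, zx_apply, if_neg ht]

private theorem od_sum {p n i j : ℕ} (h3 : 3 ≤ p) (hi : i < n) (hj : j < n) (hij : i ≠ j) {w : List ℕ}
    (hw : zw p n w) : zi p n (sb (ss i j) (mon w)) =
    ∑ a ∈ Finset.range (zx p n w i + 1), ((1 + (p - 1) * zx p n w i).choose (1 + (p - 1) * a) : ZMod p) •
      (z i ^ a * z j ^ (zx p n w i - a) * mo ((zx p n w).erase i)) := by
  classical
  have hp2 : 2 ≤ p := by omega
  have hq : 0 < p - 1 := by omega
  have hci : oc w i = 1 + (p - 1) * zx p n w i := by rw [oc_apply]; exact zw_count hp2 hw hi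
  rw [zi_zt, od_com_sb hij, map_sum]
  have hF : ∀ s ∈ Finset.range (oc w i + 1), zt p n (((oc w i).choose s : ℤ) •
      MvPolynomial.monomial (Finsupp.single i s + Finsupp.single j (oc w i - s) + (oc w).erase i) (1 : ℤ)) =
      ((oc w i).choose s : ℤ) • (if ze p n (Finsupp.single i s + Finsupp.single j (oc w i - s) + (oc w).erase i)
        then (mo (zv p n (Finsupp.single i s + Finsupp.single j (oc w i - s) + (oc w).erase i)) : Z p) else 0) := by
    intro s _
    rw [map_smul, zt_mono]
  rw [Finset.sum_congr rfl hF]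
  have hsub : (Finset.range (zx p n w i + 1)).image (fun a => 1 + (p - 1) * a) ⊆ Finset.range (oc w i + 1) := by
    intro s hs
    obtain ⟨a, ha, rfl⟩ := Finset.mem_image.1 hs
    rw [Finset.mem_range] at ha ⊢
    have := Nat.mul_le_mul_left (p - 1) (by omega : a ≤ zx p n w i)
    rw [hci]
    omega
  rw [← Finset.sum_subset hsub]
  · rw [Finset.sum_image]
    · refine Finset.sum_congr rfl fun a ha => ?_
      have ha' : a ≤ zx p n w i := by rw [Finset.mem_range] at ha; omega
      have hs : 1 + (p - 1) * a ≤ oc w i := by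
        have := Nat.mul_le_mul_left (p - 1) ha'
        omega
      obtain ⟨h1, h2⟩ := od_exp h3 hi hj hij hw hs
      rw [if_pos (h1.2 ⟨a, ha', rfl⟩), h2 a ha' rfl, mo_mul, mo_mul, mo_single, mo_single, hci]
      rw [← Int.cast_smul_eq_zsmul (ZMod p)]
      push_cast
      rfl
    · intro a _ b _ hab
      have : (p - 1) * a = (p - 1) * b := by
        have : 1 + (p - 1) * a = 1 + (p - 1) * b := hab
        omega
      exact Nat.eq_of_mul_eq_mul_left hq this
  · intro s hs hn
    have hs' : s ≤ oc w i := by rw [Finset.mem_range] at hs; omega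
    rw [if_neg, smul_zero]
    intro h
    obtain ⟨a, ha, rfl⟩ := (od_exp h3 hi hj hij hw hs').1.1 h
    exact hn (Finset.mem_image.2 ⟨a, by rw [Finset.mem_range]; omega, rfl⟩)

theorem odd {p n k i j : ℕ} (hp : p.Prime) (h3 : 3 ≤ p) (hk : k ≤ 4) (hi : i < n) (hj : j < n) (hij : i ≠ j) :
    Opr p n k n k (fDd p n i j) (dd i j) := by
  have happ : ∀ f, fDd p n i j f = wp (zw p n) (sb (ss i j) f) - wp (zw p n) f := fun f => rfl
  refine ⟨?_, ?_, ?_⟩
  · intro D hD hm f hf
    rw [happ]
    exact Submodule.sub_mem _ (TO_zw hp n D hD hm _ (sb_mem hD (ss_mem i j) hf)) (TO_zw hp n D hD hm _ hf)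
  · intro f hf
    rw [happ]
    exact Submodule.sub_mem _ (od_wp_Fge (od_sb_Fge i j hf)) (od_wp_Fge hf)
  · intro w hw hl
    refine ⟨fDd p n i j (mon w), ?_, ?_, ?_⟩
    · rw [happ]
      refine Submodule.sub_mem _ (od_HQ ?_) ?_
      · rw [← hl]
        exact od_sb_len i j w
      · rw [wp_pos hw]
        exact Submodule.subset_span ⟨w, hw, hl, rfl⟩
    · rw [sub_self]
      exact Submodule.zero_mem _
    · rw [happ, map_sub, zi_wp, zi_wp, zi_mon hw, od_sum h3 hi hj hij hw]
      have hx : zx p n w i ≤ 4 := by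
        have h1 := zw_length (by omega : 2 ≤ p) hw
        rw [hl] at h1
        have h2 : (p - 1) * k = (p - 1) * (zx p n w).degree := by omega
        have h3' := Nat.eq_of_mul_eq_mul_left (by omega : 0 < p - 1) h2
        have h4 : zx p n w i ≤ (zx p n w).degree := Finsupp.le_degree i _
        omega
      have hE : (mo (zx p n w) : Z p) = z i ^ (zx p n w i) * mo ((zx p n w).erase i) := by
        rw [← mo_single, ← mo_mul, Finsupp.single_add_erase]
      rw [Finset.sum_range_succ, Nat.choose_self, Nat.sub_self, pow_zero, mul_one, Nat.cast_one, one_smul,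
        ← hE, add_sub_cancel_right]
      unfold dd
      rw [lz_mo]
      have hb : ∀ a ∈ Finset.range (zx p n w i),
          ((1 + (p - 1) * zx p n w i).choose (1 + (p - 1) * a) : ZMod p) •
          (z i ^ a * z j ^ (zx p n w i - a) * mo ((zx p n w).erase i) : Z p) =
          (if a = 1 then ((zx p n w i : ℕ) : ZMod p) - 1 else if a = 0 then
            - (((zx p n w i : ℕ) : ZMod p) - 1) else 0) •
          (z i ^ a * z j ^ (zx p n w i - a) * mo ((zx p n w).erase i) : Z p) := by
        intro a ha
        rw [Finset.mem_range] at ha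
        rw [← binom hp h3 hx ha]
      rw [Finset.sum_congr rfl hb]
      generalize (mo ((zx p n w).erase i) : Z p) = E
      generalize zx p n w i = m
      rcases m with _ | _ | q
      · simp
      · simp
      · have cd : (if q + 1 + 1 = 0 then (0 : Z p) else (((q + 1 + 1 : ℕ) : ZMod p) - 1) •
            ((z i - z j) * z j ^ (q + 1 + 1 - 1) * E)) = (((q + 1 + 1 : ℕ) : ZMod p) - 1) •
            ((z i - z j) * z j ^ (q + 1 + 1 - 1) * E) := if_neg (by omega)
        have c1 : (if 0 + 1 = 1 then ((q + 1 + 1 : ℕ) : ZMod p) - 1 else if 0 + 1 = 0 then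
            - (((q + 1 + 1 : ℕ) : ZMod p) - 1) else 0) = ((q + 1 + 1 : ℕ) : ZMod p) - 1 := if_pos rfl
        have c0 : (if 0 = 1 then ((q + 1 + 1 : ℕ) : ZMod p) - 1 else if 0 = 0 then
            - (((q + 1 + 1 : ℕ) : ZMod p) - 1) else 0) = - (((q + 1 + 1 : ℕ) : ZMod p) - 1) := by
          rw [if_neg (by omega), if_pos rfl]
        have h0 : ∀ a ∈ Finset.range q, (if a + 1 + 1 = 1 then ((q + 1 + 1 : ℕ) : ZMod p) - 1 else if a + 1 + 1 = 0 then
            - (((q + 1 + 1 : ℕ) : ZMod p) - 1) else 0) •
            (z i ^ (a + 1 + 1) * z j ^ (q + 1 + 1 - (a + 1 + 1)) * E : Z p) = 0 := by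
          intro a _
          rw [if_neg (by omega), if_neg (by omega), zero_smul]
        rw [Finset.sum_range_succ', Finset.sum_range_succ', Finset.sum_congr rfl h0, Finset.sum_const_zero,
          zero_add, cd, c1, c0]
        have e1 : q + 1 + 1 - (0 + 1) = q + 1 := by omega
        have e2 : q + 1 + 1 - 0 = q + 2 := by omega
        have e3 : (z i ^ (0 + 1) * z j ^ (q + 1) * E - z i ^ 0 * z j ^ (q + 2) * E : Z p) =
            (z i - z j) * z j ^ (q + 1) * E := by ring
        rw [e1, e2, neg_smul, ← sub_eq_add_neg, ← smul_sub, e3]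

end ADQ
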