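import Pool.Agent.ADQ.TOz
import Pool.Agent.ADQ.Lif

/-!
# ADQ-ORen: renaming variables and multiplying by new ones

`Φ = fRen n n' g`.  `tO`: a substitution (`sb_mem`) followed by right multiplication (`IsT.mul_right`).  `up`: a word of length `m` becomes a word of
length `m + (n' - n)`: the number of `j < n'` that are not of the form `g i`, `i < n`, is `n' - n`, as `g` is injective on `{0..n-1}` and maps it
into `{0..n'-1}` (`sb_mon`, `mon_append`; words with letters `≥ n` only matter for the length).  `val`: for `zw p n w` the word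
`w.map g ++ missing` has the property `zw p n'` (the count of `g i` is `w.count i`, the count of a missing letter is 1), its `zx` is
`Finsupp.mapDomain g (zx p n w)` and `rn g (mo m) = mo (m.mapDomain g)` (`MvPolynomial.rename_monomial`); take `r = 0`.
-/

namespace ADQ

open AD ADN ADC

private def orM (n n' : ℕ) (g : ℕ → ℕ) : List ℕ :=
  (List.range n').filter (fun j => decide (∀ i < n, g i ≠ j))

private theorem orM_mem {n n' : ℕ} {g : ℕ → ℕ} {j : ℕ} :
    j ∈ orM n n' g ↔ j < n' ∧ ∀ i < n, g i ≠ j := by
  unfold orM
  rw [List.mem_filter, List.mem_range, decide_eq_true_eq]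

private theorem orM_nodup (n n' : ℕ) (g : ℕ → ℕ) : (orM n n' g).Nodup :=
  List.Nodup.filter _ List.nodup_range

private theorem orM_length {n n' : ℕ} {g : ℕ → ℕ} (h1 : ∀ i < n, g i < n')
    (h2 : ∀ i < n, ∀ j < n, g i = g j → i = j) : n + (orM n n' g).length = n' := by
  have h : ((List.range n).map g ++ orM n n' g).Perm (List.range n') := by
    rw [List.perm_ext_iff_of_nodup _ List.nodup_range]
    · intro j
      rw [List.mem_append, List.mem_map, orM_mem, List.mem_range]
      constructor
      · rintro (⟨i, hi, rfl⟩ | h)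
        · exact h1 i (List.mem_range.1 hi)
        · exact h.1
      · intro hj
        by_cases h : ∃ i < n, g i = j
        · obtain ⟨i, hi, hij⟩ := h
          exact Or.inl ⟨i, List.mem_range.2 hi, hij⟩
        · right
          refine ⟨hj, fun i hi hij => h ⟨i, hi, hij⟩⟩
    · refine List.Nodup.append ?_ (orM_nodup n n' g) ?_
      · refine List.Nodup.map_on ?_ List.nodup_range
        intro i hi j hj hij
        exact h2 i (List.mem_range.1 hi) j (List.mem_range.1 hj) hij
      · intro j hj hj'
        obtain ⟨i, hi, rfl⟩ := List.mem_map.1 hj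
        exact (orM_mem.1 hj').2 i (List.mem_range.1 hi) rfl
  have h3 := h.length_eq
  rw [List.length_append, List.length_map, List.length_range, List.length_range] at h3
  exact h3

private theorem orM_map (g : ℕ → ℕ) (w : List ℕ) : sb (fun i => X (g i)) (mon w) = mon (w.map g) := by
  rw [sb_mon]
  unfold mon
  rw [List.map_map]
  rfl

private theorem orM_val (n n' : ℕ) (g : ℕ → ℕ) (w : List ℕ) :
    fRen n n' g (mon w) = mon (w.map g ++ orM n n' g) := by
  unfold fRen
  rw [LinearMap.comp_apply, tl_apply, orM_map, mon_append]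
  rfl

private theorem orM_cnt {n n' : ℕ} {g : ℕ → ℕ} (h2 : ∀ i < n, ∀ j < n, g i = g j → i = j) {i : ℕ} (hi : i < n)
    (w : List ℕ) (hw : ∀ a ∈ w, a < n) : (w.map g ++ orM n n' g).count (g i) = w.count i := by
  rw [List.count_append, List.count_eq_zero_of_not_mem (fun h => (orM_mem.1 h).2 i hi rfl), add_zero]
  induction w with
  | nil => simp
  | cons a w ih =>
    have hw' : ∀ a ∈ w, a < n := fun a h => hw a (List.mem_cons_of_mem _ h)
    rw [List.map_cons, List.count_cons, List.count_cons, ih hw']
    congr 1
    by_cases h : a = i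
    · rw [h]; simp
    · have h' : g a ≠ g i := fun h'' => h (h2 a (hw a List.mem_cons_self) i hi h'')
      simp [h, h']

private theorem orM_cnt' {n n' : ℕ} {g : ℕ → ℕ} {j : ℕ} (hj : j ∈ orM n n' g)
    (w : List ℕ) (hw : ∀ a ∈ w, a < n) : (w.map g ++ orM n n' g).count j = 1 := by
  rw [List.count_append, List.count_eq_one_of_mem (orM_nodup n n' g) hj, List.count_eq_zero_of_not_mem]
  intro h
  obtain ⟨a, ha, hga⟩ := List.mem_map.1 h
  exact (orM_mem.1 hj).2 a (hw a ha) hga

theorem oren {p n n' k : ℕ} (hp : p.Prime) (hn : 1 ≤ n) {g : ℕ → ℕ} (h1 : ∀ i < n, g i < n')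
    (h2 : ∀ i < n, ∀ j < n, g i = g j → i = j) :
    Opr p n k n' k (fRen n n' g) (rn g).toLinearMap := by
  have hlen := orM_length h1 h2
  refine ⟨?_, ?_, ?_⟩
  · intro D hD _ f hf
    unfold fRen
    rw [LinearMap.comp_apply, tl_apply]
    exact hD.mul_right _ (sb_mem hD (fun i => X_mem _) hf) _
  · intro f hf
    unfold Fge at hf
    induction hf using Submodule.span_induction with
    | mem f hf =>
      obtain ⟨w, hw, rfl⟩ := hf
      rw [orM_val]
      refine Submodule.subset_span ⟨_, ?_, rfl⟩
      rw [List.length_append, List.length_map]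
      omega
    | zero => rw [map_zero]; exact Submodule.zero_mem _
    | add x y _ _ hx hy => rw [map_add]; exact Submodule.add_mem _ hx hy
    | smul c x _ hx => rw [map_smul]; exact Submodule.smul_mem _ _ hx
  · intro w hw hl
    have hz : zw p n' (w.map g ++ orM n n' g) := by
      constructor
      · intro j hj
        rcases List.mem_append.1 hj with h | h
        · obtain ⟨a, ha, rfl⟩ := List.mem_map.1 h
          exact h1 a (hw.1 a ha)
        · exact (orM_mem.1 h).1
      · intro j hj
        by_cases h : ∃ i < n, g i = j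
        · obtain ⟨i, hi, rfl⟩ := h
          rw [orM_cnt h2 hi w hw.1]
          exact hw.2 i hi
        · rw [orM_cnt' (orM_mem.2 ⟨hj, fun i hi hij => h ⟨i, hi, hij⟩⟩) w hw.1]
          simp
    refine ⟨mon (w.map g ++ orM n n' g), Submodule.subset_span ⟨_, hz, ?_, rfl⟩, ?_, ?_⟩
    · rw [List.length_append, List.length_map]
      omega
    · rw [orM_val, sub_self]
      exact Submodule.zero_mem _
    · rw [zi_mon hz]
      unfold mo rn
      rw [AlgHom.toLinearMap_apply, MvPolynomial.rename_monomial]
      have key : zx p n' (w.map g ++ orM n n' g) = Finsupp.mapDomain g (zx p n w) := ?_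
      · rw [key]
      ext j
      rw [zx_apply]
      unfold zx
      rw [Finsupp.mapDomain_finsetSum, Finsupp.finsetSum_apply]
      simp only [Finsupp.mapDomain_single]
      by_cases h : ∃ i < n, g i = j
      · obtain ⟨i, hi, rfl⟩ := h
        rw [if_pos (h1 i hi), orM_cnt h2 hi w hw.1, Finset.sum_eq_single i]
        · rw [Finsupp.single_eq_same]
        · intro i' hi' hne
          rw [Finsupp.single_eq_of_ne]
          intro h
          exact hne (h2 i hi i' (Finset.mem_range.1 hi') h).symm
        · intro h
          exact absurd (Finset.mem_range.2 hi) h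
      · rw [Finset.sum_eq_zero]
        · by_cases hj : j < n'
          · rw [if_pos hj, orM_cnt' (orM_mem.2 ⟨hj, fun i hi hij => h ⟨i, hi, hij⟩⟩) w hw.1]
            simp
          · rw [if_neg hj]
        · intro i hi
          rw [Finsupp.single_eq_of_ne]
          intro hij
          exact h ⟨i, Finset.mem_range.1 hi, hij.symm⟩

end ADQ
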