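import Pool.Agent.ADQ.TOz
import Pool.Agent.ADQ.Lif

/-!
# ADQ-OVv: the composite operator for `n = 2`, `k = 4`, `p ≥ 3`

`Φ = fVv p`: (1) `x_0 ↦ x_0 + x_2`, part `w110`; (2) `x_1 ↦ x_1 + x_0`, part `w110`, minus the identity; (3) `x_2 ↦ x_1`.  The projection `wp (w110 p)` maps T-ideals into
themselves: `TOp_res` (counts modulo `p - 1`), `TOp_lt`, `TOp_mem` (`ADC/TOpW`), `wp_wp`; all steps preserve lengths.
`val`: a word `w` with `zw p 2 w`, `1 + (p-1) a` letters 0, `1 + (p-1) b` letters 1, `a + b = 4`, `mo (zx) = z_0^a z_1^b`.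
(1) gives the words with `(p-1) t` letters 2 and `1 + (p-1)(a-t)` letters 0, `1 ≤ t ≤ a`, altogether `C(1+(p-1)a, (p-1)t)` for every `t`.
(2) gives, for each of them, the words with `1 + (p-1)(b-s)` letters 1, `1 ≤ s ≤ b` [`s = 0` is cancelled], the others of the letters 1 became 0, altogether
`C(1+(p-1)b, (p-1)s)`; (3) the letters 2 become 1.  Total: `1 + (p-1)(a-t+s)` letters 0, `1 + (p-1)(b-s+t)` letters 1:
`zi p 2 (Φ (mon w)) = (∑_{t=1}^a C(1+(p-1)a,(p-1)t) z_0^(a-t) z_1^t) * (∑_{s=1}^b C(1+(p-1)b,(p-1)s) z_1^(b-s) z_0^s)`.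
Modulo `p`: `a = 0`: 0; `a = 1`: `C(p,p-1) = p = 0`; `a = 2`: `C(2p-1,p-1) ≡ 1` (`t = 1`), `C(2p-1,2p-2) = 2p-1 ≡ -1` (`t = 2`) (Lucas: `2p-1 = p + (p-1)`).
So the product is `0` unless `a = b = 2` (for `a = 3, 4` we have `b = 1, 0`), and then it is `(z_0 z_1 - z_1^2) (z_1 z_0 - z_0^2) = - z_0 z_1 (z_0 - z_1)^2 = - b0`.
`g = Φ (mon w) ∈ HQ p 2 4` (`3 ≤ p` is used: `zw p 2` follows from the counts).
-/

namespace ADQ

open AD ADN ADC

private theorem vv_and {p : ℕ} {φ ψ : List ℕ → Prop} (h : TOp p (wp φ)) (h' : TOp p (wp ψ)) :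
    TOp p (wp (fun w => φ w ∧ ψ w)) := by
  have h1 : wp (fun w => φ w ∧ ψ w) = (wp φ).comp (wp ψ) := by
    ext f
    rw [LinearMap.comp_apply, wp_wp]
  rw [h1]
  exact h.comp h'

theorem TOp_w110 {p : ℕ} (hp : p.Prime) (h3 : 3 ≤ p) : TOp p (wp (w110 p)) :=
  vv_and (TOp_lt p 3) (vv_and (TOp_res hp h3 0 1 (by omega)) (vv_and (TOp_res hp h3 1 1 (by omega))
    (vv_and (TOp_res hp h3 2 0 (by omega)) (TOp_mem p 2))))

/-- the linear map `F ↦ - (coefficient of z_0^2 z_1^2) * b0` -/
noncomputable def vv (p : ℕ) : Z p →ₗ[ZMod p] Z p :=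
  lz (fun m => if m = Finsupp.single 0 2 + Finsupp.single 1 2 then - b0 else 0)

private theorem vv_lz_mo {p : ℕ} (φ : (ℕ →₀ ℕ) → Z p) (m : ℕ →₀ ℕ) : lz φ (mo m) = φ m := by
  have h := (MvPolynomial.basisMonomials ℕ (ZMod p)).constr_basis (ZMod p) φ m
  rw [MvPolynomial.coe_basisMonomials] at h
  exact h

theorem vv_apply {p : ℕ} (F : Z p) :
    vv p F = - (MvPolynomial.coeff (Finsupp.single 0 2 + Finsupp.single 1 2) F) • b0 := by
  induction F using MvPolynomial.induction_on' with
  | monomial m c =>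
    have h1 : (MvPolynomial.monomial m c : Z p) = c • mo m := by
      unfold mo
      rw [MvPolynomial.smul_monomial, smul_eq_mul, mul_one]
    rw [h1, map_smul, MvPolynomial.coeff_smul]
    unfold vv
    rw [vv_lz_mo]
    unfold mo
    rw [MvPolynomial.coeff_monomial]
    split_ifs with h
    · rw [smul_neg, smul_eq_mul, mul_one, neg_smul]
    · simp
  | add f g hf hg =>
    rw [map_add, hf, hg, MvPolynomial.coeff_add, neg_add, add_smul]

/-- the numbers of the letters -/
private noncomputable def vc (w : List ℕ) : ℕ →₀ ℕ := (w.map (fun a => Finsupp.single a 1)).sum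

private theorem vc_apply (w : List ℕ) (i : ℕ) : vc w i = w.count i := by
  induction w with
  | nil => simp [vc]
  | cons a w ih =>
    have h : vc (a :: w) = Finsupp.single a 1 + vc w := by simp [vc]
    rw [h, Finsupp.add_apply, ih, List.count_cons, Finsupp.single_apply]
    by_cases e : a = i <;> simp [e, add_comm]

private theorem vv_com (w : List ℕ) : com (mon w) = MvPolynomial.monomial (vc w) (1 : ℤ) := by
  induction w with
  | nil =>
    rw [mon_nil, map_one]
    rfl
  | cons a w ih =>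
    have h : vc (a :: w) = Finsupp.single a 1 + vc w := by simp [vc]
    have hX : com (X a) = MvPolynomial.X a := FreeAlgebra.lift_ι_apply _ _
    rw [mon_cons, map_mul, ih, h, hX, MvPolynomial.X, MvPolynomial.monomial_mul, one_mul]

/-- the linear map on commutative polynomials with given values on the monomials -/
private noncomputable def cl {M : Type} [AddCommGroup M] (φ : (ℕ →₀ ℕ) → M) : MvPolynomial ℕ ℤ →ₗ[ℤ] M :=
  (MvPolynomial.basisMonomials ℕ ℤ).constr ℤ φ

private theorem cl_mono {M : Type} [AddCommGroup M] (φ : (ℕ →₀ ℕ) → M) (d : ℕ →₀ ℕ) :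
    cl φ (MvPolynomial.monomial d 1) = φ d := by
  have h := (MvPolynomial.basisMonomials ℕ ℤ).constr_basis ℤ φ d
  rw [MvPolynomial.coe_basisMonomials] at h
  exact h

/-- exponents with the property `w110` -/
private def W3 (p : ℕ) (d : ℕ →₀ ℕ) : Prop :=
  (∀ i, 3 ≤ i → d i = 0) ∧ d 0 % (p - 1) = 1 ∧ d 1 % (p - 1) = 1 ∧ d 2 % (p - 1) = 0 ∧ 1 ≤ d 2

private theorem w110_W3 {p : ℕ} {w : List ℕ} : w110 p w ↔ W3 p (vc w) := by
  unfold w110 W3
  simp only [vc_apply]
  refine and_congr ?_ (and_congr Iff.rfl (and_congr Iff.rfl (and_congr Iff.rfl ?_)))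
  · constructor
    · intro h i hi
      exact List.count_eq_zero_of_not_mem (fun hm => absurd (h i hm) (by omega))
    · intro h i hi
      by_contra hn
      have := h i (by omega)
      exact absurd (List.count_pos_iff.2 hi) (by omega)
  · exact List.count_pos_iff.symm

open Classical in
/-- projection of commutative polynomials -/
private noncomputable def pj (p : ℕ) : MvPolynomial ℕ ℤ →ₗ[ℤ] MvPolynomial ℕ ℤ :=
  cl (fun d => if W3 p d then MvPolynomial.monomial d 1 else 0)

private theorem com_wp {p : ℕ} (f : P) : com (wp (w110 p) f) = pj p (com f) := by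
  refine ind_mon (C := fun f => com (wp (w110 p) f) = pj p (com f)) (by simp) ?_ ?_ ?_ f
  · intro f g hf hg; rw [map_add, map_add, map_add, map_add, hf, hg]
  · intro c f hf; rw [map_smul, map_smul, hf, map_smul, map_smul]
  · intro w
    unfold pj
    rw [vv_com, cl_mono]
    by_cases h : w110 p w
    · rw [wp_pos h, if_pos (w110_W3.1 h), vv_com]
    · rw [wp_neg h, if_neg (fun h' => h (w110_W3.2 h')), map_zero]

/-- exponents of the words `zw p 2` -/
private def z2 (p : ℕ) (d : ℕ →₀ ℕ) : Prop :=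
  (∀ i, 2 ≤ i → d i = 0) ∧ ∀ i < 2, 1 ≤ d i ∧ (p - 1) ∣ (d i - 1)

private theorem zw_z2 {p : ℕ} {w : List ℕ} : zw p 2 w ↔ z2 p (vc w) := by
  unfold zw z2
  simp only [vc_apply]
  refine and_congr ?_ Iff.rfl
  constructor
  · intro h i hi
    exact List.count_eq_zero_of_not_mem (fun hm => absurd (h i hm) (by omega))
  · intro h i hi
    by_contra hn
    have := h i (by omega)
    exact absurd (List.count_pos_iff.2 hi) (by omega)

open Classical in
private noncomputable def zt2 (p : ℕ) : MvPolynomial ℕ ℤ →ₗ[ℤ] Z p :=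
  cl (fun d => if z2 p d then (z 0 ^ ((d 0 - 1) / (p - 1)) * z 1 ^ ((d 1 - 1) / (p - 1)) : Z p) else 0)

private theorem mo_zx2 {p : ℕ} (w : List ℕ) : (mo (zx p 2 w) : Z p) =
    z 0 ^ ((w.count 0 - 1) / (p - 1)) * z 1 ^ ((w.count 1 - 1) / (p - 1)) := by
  unfold mo zx z
  rw [Finset.sum_range_succ, Finset.sum_range_succ, Finset.sum_range_zero, zero_add,
    MvPolynomial.X_pow_eq_monomial, MvPolynomial.X_pow_eq_monomial, MvPolynomial.monomial_mul, one_mul]

private theorem zi_zt2 {p : ℕ} (f : P) : zi p 2 f = zt2 p (com f) := by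
  refine ind_mon (C := fun f => zi p 2 f = zt2 p (com f)) (by simp) ?_ ?_ ?_ f
  · intro f g hf hg; rw [map_add, map_add, map_add, hf, hg]
  · intro c f hf; rw [map_smul, map_smul, hf, map_smul]
  · intro w
    unfold zt2
    rw [vv_com, cl_mono]
    by_cases h : zw p 2 w
    · rw [zi_mon h, if_pos (zw_z2.1 h), mo_zx2, vc_apply, vc_apply]
    · rw [zi_mon_neg h, if_neg (fun h' => h (zw_z2.2 h'))]

/-- monomials in three variables -/
private noncomputable def m3 (a b c : ℕ) : MvPolynomial ℕ ℤ :=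
  MvPolynomial.X 0 ^ a * MvPolynomial.X 1 ^ b * MvPolynomial.X 2 ^ c

private theorem m3_eq (a b c : ℕ) : m3 a b c =
    MvPolynomial.monomial (Finsupp.single 0 a + Finsupp.single 1 b + Finsupp.single 2 c) (1 : ℤ) := by
  unfold m3
  rw [MvPolynomial.X_pow_eq_monomial, MvPolynomial.X_pow_eq_monomial, MvPolynomial.X_pow_eq_monomial,
    MvPolynomial.monomial_mul, MvPolynomial.monomial_mul, one_mul, one_mul]

private theorem e0' (a b : ℕ) : (Finsupp.single 0 a + Finsupp.single 1 b : ℕ →₀ ℕ) 0 = a := by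
  simp

private theorem e1' (a b : ℕ) : (Finsupp.single 0 a + Finsupp.single 1 b : ℕ →₀ ℕ) 1 = b := by
  simp

private theorem e0 (a b c : ℕ) : (Finsupp.single 0 a + Finsupp.single 1 b + Finsupp.single 2 c : ℕ →₀ ℕ) 0 = a := by
  simp

private theorem e1 (a b c : ℕ) : (Finsupp.single 0 a + Finsupp.single 1 b + Finsupp.single 2 c : ℕ →₀ ℕ) 1 = b := by
  simp

private theorem e2 (a b c : ℕ) : (Finsupp.single 0 a + Finsupp.single 1 b + Finsupp.single 2 c : ℕ →₀ ℕ) 2 = c := by
  simp

private theorem e3 (a b c i : ℕ) (hi : 3 ≤ i) :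
    (Finsupp.single 0 a + Finsupp.single 1 b + Finsupp.single 2 c : ℕ →₀ ℕ) i = 0 := by
  rw [Finsupp.add_apply, Finsupp.add_apply, Finsupp.single_eq_of_ne (by omega), Finsupp.single_eq_of_ne (by omega),
    Finsupp.single_eq_of_ne (by omega)]
  rfl

private theorem pj_m3 {p a b c : ℕ} : pj p (m3 a b c) =
    if a % (p - 1) = 1 ∧ b % (p - 1) = 1 ∧ c % (p - 1) = 0 ∧ 1 ≤ c then m3 a b c else 0 := by
  classical
  unfold pj
  rw [m3_eq, cl_mono]
  have h : W3 p (Finsupp.single 0 a + Finsupp.single 1 b + Finsupp.single 2 c) ↔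
      a % (p - 1) = 1 ∧ b % (p - 1) = 1 ∧ c % (p - 1) = 0 ∧ 1 ≤ c := by
    unfold W3
    rw [e0, e1, e2]
    exact ⟨fun h => h.2, fun h => ⟨fun i hi => e3 a b c i hi, h⟩⟩
  by_cases hc : a % (p - 1) = 1 ∧ b % (p - 1) = 1 ∧ c % (p - 1) = 0 ∧ 1 ≤ c
  · rw [if_pos hc, if_pos (h.2 hc)]
  · rw [if_neg hc, if_neg (fun h' => hc (h.1 h'))]

private theorem zt2_m3 {p i j : ℕ} (h3 : 3 ≤ p) : zt2 p (m3 (1 + (p - 1) * i) (1 + (p - 1) * j) 0) =
    z 0 ^ i * z 1 ^ j := by
  have hq : 0 < p - 1 := by omega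
  unfold zt2
  rw [m3_eq, cl_mono, if_pos, e0, e1]
  · rw [Nat.add_sub_cancel_left, Nat.add_sub_cancel_left, Nat.mul_div_cancel_left _ hq, Nat.mul_div_cancel_left _ hq]
  · refine ⟨fun k hk => ?_, fun k hk => ?_⟩
    · by_cases h : k = 2
      · subst h
        exact e2 _ _ _
      · exact e3 _ _ _ _ (by omega)
    · interval_cases k
      · rw [e0]
        exact ⟨by omega, ⟨i, by omega⟩⟩
      · rw [e1]
        exact ⟨by omega, ⟨j, by omega⟩⟩

/-- the substitutions -/
private noncomputable def u0 : ℕ → P := fun t => if t = 0 then X 0 + X 2 else X t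
private noncomputable def u1 : ℕ → P := fun t => if t = 1 then X 1 + X 0 else X t
private noncomputable def u2 : ℕ → P := fun t => if t = 2 then X 1 else X t

private theorem com_X (a : ℕ) : com (X a) = MvPolynomial.X a := FreeAlgebra.lift_ι_apply _ _

private theorem com_sb (u : ℕ → P) (f : P) : com (sb u f) = MvPolynomial.aeval (fun t => com (u t)) (com f) := by
  have h1 : com.comp (sb u) = (MvPolynomial.aeval (fun t => com (u t))).comp com := by
    refine FreeAlgebra.hom_ext (funext fun t => ?_)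
    show com (sb u (X t)) = MvPolynomial.aeval _ (com (X t))
    rw [sb_X, com_X, MvPolynomial.aeval_X]
  exact DFunLike.congr_fun h1 f

private theorem ae_m3 (u : ℕ → P) (a b c : ℕ) : MvPolynomial.aeval (fun t => com (u t)) (m3 a b c) =
    com (u 0) ^ a * com (u 1) ^ b * com (u 2) ^ c := by
  unfold m3
  rw [map_mul, map_mul, map_pow, map_pow, map_pow, MvPolynomial.aeval_X, MvPolynomial.aeval_X, MvPolynomial.aeval_X]

private theorem ae0 (a b : ℕ) : MvPolynomial.aeval (fun t => com (u0 t)) (m3 a b 0) =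
    ∑ s ∈ Finset.range (a + 1), (a.choose s : ℤ) • m3 (a - s) b s := by
  have h0 : com (u0 0) = MvPolynomial.X 2 + MvPolynomial.X 0 := by
    unfold u0
    rw [if_pos rfl, map_add, com_X, com_X, add_comm]
  have h1 : com (u0 1) = MvPolynomial.X 1 := by
    unfold u0
    rw [if_neg (by omega), com_X]
  rw [ae_m3, h0, h1, pow_zero, mul_one, add_pow, Finset.sum_mul]
  refine Finset.sum_congr rfl fun s _ => ?_
  unfold m3
  rw [zsmul_eq_mul]
  push_cast
  ring

private theorem ae1 (c b e : ℕ) : MvPolynomial.aeval (fun t => com (u1 t)) (m3 c b e) =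
    ∑ s ∈ Finset.range (b + 1), (b.choose s : ℤ) • m3 (c + s) (b - s) e := by
  have h0 : com (u1 0) = MvPolynomial.X 0 := by
    unfold u1
    rw [if_neg (by omega), com_X]
  have h1 : com (u1 1) = MvPolynomial.X 0 + MvPolynomial.X 1 := by
    unfold u1
    rw [if_pos rfl, map_add, com_X, com_X, add_comm]
  have h2 : com (u1 2) = MvPolynomial.X 2 := by
    unfold u1
    rw [if_neg (by omega), com_X]
  rw [ae_m3, h0, h1, h2, add_pow, Finset.mul_sum, Finset.sum_mul]
  refine Finset.sum_congr rfl fun s _ => ?_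
  unfold m3
  rw [zsmul_eq_mul]
  push_cast
  ring

private theorem ae2 (c b e : ℕ) : MvPolynomial.aeval (fun t => com (u2 t)) (m3 c b e) = m3 c (b + e) 0 := by
  have h0 : com (u2 0) = MvPolynomial.X 0 := by
    unfold u2
    rw [if_neg (by omega), com_X]
  have h1 : com (u2 1) = MvPolynomial.X 1 := by
    unfold u2
    rw [if_neg (by omega), com_X]
  have h2 : com (u2 2) = MvPolynomial.X 1 := by
    unfold u2
    rw [if_pos rfl, com_X]
  rw [ae_m3, h0, h1, h2]
  unfold m3
  ring

/-- summation over the multiples of `q` -/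
private theorem sum_mult {M : Type} [AddCommGroup M] {q a : ℕ} (hq : 2 ≤ q) (F : ℕ → M) (Q : ℕ → Prop) [DecidablePred Q]
    (hQ : ∀ s ≤ 1 + q * a, Q s ↔ s % q = 0) :
    ∑ s ∈ Finset.range (1 + q * a + 1), (if Q s then F s else 0) = ∑ t ∈ Finset.range (a + 1), F (q * t) := by
  rw [← Finset.sum_filter]
  have h : (Finset.range (1 + q * a + 1)).filter Q = (Finset.range (a + 1)).image (fun t => q * t) := by
    ext s
    rw [Finset.mem_filter, Finset.mem_range, Finset.mem_image]
    constructor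
    · rintro ⟨h1, h2⟩
      have h3 := (hQ s (by omega)).1 h2
      obtain ⟨t, rfl⟩ := Nat.dvd_of_mod_eq_zero h3
      refine ⟨t, ?_, rfl⟩
      rw [Finset.mem_range]
      by_contra h4
      have h5 : q * (a + 1) ≤ q * t := Nat.mul_le_mul_left q (by omega)
      rw [mul_add] at h5
      omega
    · rintro ⟨t, ht, rfl⟩
      rw [Finset.mem_range] at ht
      have h5 : q * t ≤ q * a := Nat.mul_le_mul_left q (by omega)
      exact ⟨by omega, (hQ _ (by omega)).2 (Nat.mul_mod_right q t)⟩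
  rw [h, Finset.sum_image]
  intro x _ y _ hxy
  exact Nat.eq_of_mul_eq_mul_left (by omega : 0 < q) hxy

private theorem mod_aux {q a s : ℕ} (hq : 2 ≤ q) (hs : s ≤ 1 + q * a) : (1 + q * a - s) % q = 1 ↔ s % q = 0 := by
  constructor
  · intro h
    have h1 := Nat.div_add_mod (1 + q * a - s) q
    rw [h] at h1
    have h2 : s + q * ((1 + q * a - s) / q) = q * a := by omega
    have h3 : (s + q * ((1 + q * a - s) / q)) % q = (q * a) % q := by rw [h2]
    rwa [Nat.add_mul_mod_self_left, Nat.mul_mod_right] at h3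
  · intro h
    obtain ⟨t, rfl⟩ := Nat.dvd_of_mod_eq_zero h
    have h4 : t ≤ a := by
      by_contra h4
      have h5 : q * (a + 1) ≤ q * t := Nat.mul_le_mul_left q (by omega)
      rw [mul_add] at h5
      omega
    obtain ⟨r, rfl⟩ := Nat.exists_eq_add_of_le h4
    have h6 : 1 + q * (t + r) - q * t = 1 + q * r := by rw [mul_add]; omega
    rw [h6, Nat.add_mul_mod_self_left, Nat.mod_eq_of_lt (by omega)]

private theorem one_mod {q a : ℕ} (hq : 2 ≤ q) : (1 + q * a) % q = 1 := by
  rw [Nat.add_mul_mod_self_left, Nat.mod_eq_of_lt (by omega)]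

/-- step 1 -/
private theorem st1 {p a b : ℕ} (h3 : 3 ≤ p) :
    pj p (MvPolynomial.aeval (fun t => com (u0 t)) (m3 (1 + (p - 1) * a) (1 + (p - 1) * b) 0)) =
    ∑ t ∈ Finset.range a, ((1 + (p - 1) * a).choose ((p - 1) * (t + 1)) : ℤ) •
      m3 (1 + (p - 1) * (a - (t + 1))) (1 + (p - 1) * b) ((p - 1) * (t + 1)) := by
  have hq : 2 ≤ p - 1 := by omega
  rw [ae0, map_sum]
  have hF : ∀ s ∈ Finset.range (1 + (p - 1) * a + 1),
      pj p (((1 + (p - 1) * a).choose s : ℤ) • m3 (1 + (p - 1) * a - s) (1 + (p - 1) * b) s) =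
      if s % (p - 1) = 0 then (if 1 ≤ s then
        ((1 + (p - 1) * a).choose s : ℤ) • m3 (1 + (p - 1) * a - s) (1 + (p - 1) * b) s else 0) else 0 := by
    intro s hs
    rw [Finset.mem_range] at hs
    rw [map_smul, pj_m3]
    by_cases h1 : s % (p - 1) = 0
    · by_cases h2 : 1 ≤ s
      · rw [if_pos h1, if_pos h2, if_pos ⟨(mod_aux hq (by omega)).2 h1, one_mod hq, h1, h2⟩]
      · rw [if_pos h1, if_neg h2, if_neg (fun h => h2 h.2.2.2), smul_zero]
    · rw [if_neg h1, if_neg (fun h => h1 h.2.2.1), smul_zero]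
  rw [Finset.sum_congr rfl hF, sum_mult hq (fun s => if 1 ≤ s then
        ((1 + (p - 1) * a).choose s : ℤ) • m3 (1 + (p - 1) * a - s) (1 + (p - 1) * b) s else 0)
        (fun s => s % (p - 1) = 0) (fun s _ => Iff.rfl), Finset.sum_range_succ', mul_zero, if_neg (by omega), add_zero]
  refine Finset.sum_congr rfl fun t ht => ?_
  rw [Finset.mem_range] at ht
  have h1 : 1 ≤ (p - 1) * (t + 1) := Nat.mul_pos (by omega) (Nat.succ_pos t)
  obtain ⟨r, rfl⟩ := Nat.exists_eq_add_of_le (by omega : t + 1 ≤ a)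
  have h2 : 1 + (p - 1) * (t + 1 + r) - (p - 1) * (t + 1) = 1 + (p - 1) * (t + 1 + r - (t + 1)) := by
    rw [Nat.add_sub_cancel_left, mul_add]
    omega
  rw [if_pos h1, h2]

/-- step 2 -/
private theorem st2 {p c b e : ℕ} (h3 : 3 ≤ p) (hc : c % (p - 1) = 1) (he : e % (p - 1) = 0) (he1 : 1 ≤ e) :
    pj p (MvPolynomial.aeval (fun t => com (u1 t)) (m3 c (1 + (p - 1) * b) e)) - m3 c (1 + (p - 1) * b) e =
    ∑ s ∈ Finset.range b, ((1 + (p - 1) * b).choose ((p - 1) * (s + 1)) : ℤ) •
      m3 (c + (p - 1) * (s + 1)) (1 + (p - 1) * (b - (s + 1))) e := by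
  have hq : 2 ≤ p - 1 := by omega
  rw [ae1, map_sum]
  have hF : ∀ s ∈ Finset.range (1 + (p - 1) * b + 1),
      pj p (((1 + (p - 1) * b).choose s : ℤ) • m3 (c + s) (1 + (p - 1) * b - s) e) =
      if s % (p - 1) = 0 then
        ((1 + (p - 1) * b).choose s : ℤ) • m3 (c + s) (1 + (p - 1) * b - s) e else 0 := by
    intro s hs
    rw [Finset.mem_range] at hs
    rw [map_smul, pj_m3]
    by_cases h1 : s % (p - 1) = 0
    · have h2 : (c + s) % (p - 1) = 1 := by
        rw [Nat.add_mod, h1, hc, add_zero]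
        exact Nat.mod_eq_of_lt (by omega)
      rw [if_pos h1, if_pos ⟨h2, (mod_aux hq (by omega)).2 h1, he, he1⟩]
    · rw [if_neg h1, if_neg (fun h => h1 ((mod_aux hq (by omega)).1 h.2.1)), smul_zero]
  rw [Finset.sum_congr rfl hF, sum_mult hq (fun s =>
        ((1 + (p - 1) * b).choose s : ℤ) • m3 (c + s) (1 + (p - 1) * b - s) e)
        (fun s => s % (p - 1) = 0) (fun s _ => Iff.rfl), Finset.sum_range_succ', mul_zero, add_zero,
        Nat.choose_zero_right, Nat.cast_one, one_smul, Nat.sub_zero, add_sub_cancel_right]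
  refine Finset.sum_congr rfl fun t ht => ?_
  rw [Finset.mem_range] at ht
  obtain ⟨r, rfl⟩ := Nat.exists_eq_add_of_le (by omega : t + 1 ≤ b)
  have h2 : 1 + (p - 1) * (t + 1 + r) - (p - 1) * (t + 1) = 1 + (p - 1) * (t + 1 + r - (t + 1)) := by
    rw [Nat.add_sub_cancel_left, mul_add]
    omega
  rw [h2]

private theorem vv_luc {p a b c d : ℕ} (hp : p.Prime) (ha : a < p) (hb : b < p) :
    ((Nat.choose (p * c + a) (p * d + b) : ℕ) : ZMod p) = ((Nat.choose a b * Nat.choose c d : ℕ) : ZMod p) := by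
  have : Fact p.Prime := ⟨hp⟩
  have h := Choose.choose_modEq_choose_mod_mul_choose_div_nat (n := p * c + a) (k := p * d + b) (p := p)
  have h0 : 0 < p := hp.pos
  rw [Nat.mul_add_mod, Nat.mul_add_mod, Nat.mod_eq_of_lt ha, Nat.mod_eq_of_lt hb,
    Nat.mul_add_div h0, Nat.mul_add_div h0, Nat.div_eq_of_lt ha, Nat.div_eq_of_lt hb, add_zero, add_zero] at h
  exact (ZMod.natCast_eq_natCast_iff _ _ _).2 h

private theorem vv_b1 {p : ℕ} (hp : p.Prime) (h3 : 3 ≤ p) :
    (((1 + (p - 1) * 1).choose ((p - 1) * (0 + 1)) : ℕ) : ZMod p) = 0 := by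
  obtain ⟨q, rfl⟩ : ∃ q, p = q + 3 := ⟨p - 3, by omega⟩
  have h1 : 1 + (q + 3 - 1) * 1 = (q + 3) * 1 + 0 := by omega
  have h2 : (q + 3 - 1) * (0 + 1) = (q + 3) * 0 + (q + 2) := by omega
  rw [h1, h2, vv_luc hp (by omega) (by omega), Nat.choose_eq_zero_of_lt (by omega : 0 < q + 2)]
  simp

private theorem vv_b2 {p : ℕ} (hp : p.Prime) (h3 : 3 ≤ p) :
    (((1 + (p - 1) * 2).choose ((p - 1) * (0 + 1)) : ℕ) : ZMod p) = 1 := by
  obtain ⟨q, rfl⟩ : ∃ q, p = q + 3 := ⟨p - 3, by omega⟩
  have h1 : 1 + (q + 3 - 1) * 2 = (q + 3) * 1 + (q + 2) := by omega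
  have h2 : (q + 3 - 1) * (0 + 1) = (q + 3) * 0 + (q + 2) := by omega
  rw [h1, h2, vv_luc hp (by omega) (by omega), Nat.choose_self]
  simp

private theorem vv_b3 {p : ℕ} (hp : p.Prime) (h3 : 3 ≤ p) :
    (((1 + (p - 1) * 2).choose ((p - 1) * (1 + 1)) : ℕ) : ZMod p) = -1 := by
  obtain ⟨q, rfl⟩ : ∃ q, p = q + 3 := ⟨p - 3, by omega⟩
  have hp0 : ((q + 3 : ℕ) : ZMod (q + 3)) = 0 := ZMod.natCast_self _
  have h1 : 1 + (q + 3 - 1) * 2 = (q + 3) * 1 + (q + 2) := by omega
  have h2 : (q + 3 - 1) * (1 + 1) = (q + 3) * 1 + (q + 1) := by omega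
  rw [h1, h2, vv_luc hp (by omega) (by omega), Nat.choose_succ_self_right, Nat.choose_self, mul_one]
  push_cast at hp0 ⊢
  linear_combination hp0

private theorem fVv_apply (p : ℕ) (f : P) : fVv p f =
    sb u2 (wp (w110 p) (sb u1 (wp (w110 p) (sb u0 f))) - wp (w110 p) (sb u0 f)) := rfl

/-- the value -/
private theorem vv_val {p : ℕ} (h3 : 3 ≤ p) {w : List ℕ} (hw : zw p 2 w) :
    zi p 2 (fVv p (mon w)) = ∑ t ∈ Finset.range (zx p 2 w 0), ∑ s ∈ Finset.range (zx p 2 w 1),
      (((1 + (p - 1) * zx p 2 w 0).choose ((p - 1) * (t + 1)) : ℤ) *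
       ((1 + (p - 1) * zx p 2 w 1).choose ((p - 1) * (s + 1)) : ℤ)) •
        (z 0 ^ (zx p 2 w 0 - (t + 1) + (s + 1)) * z 1 ^ (zx p 2 w 1 - (s + 1) + (t + 1)) : Z p) := by
  have hp2 : 2 ≤ p := by omega
  have hc0 : w.count 0 = 1 + (p - 1) * zx p 2 w 0 := zw_count hp2 hw (by omega)
  have hc1 : w.count 1 = 1 + (p - 1) * zx p 2 w 1 := zw_count hp2 hw (by omega)
  have hm : com (mon w) = m3 (1 + (p - 1) * zx p 2 w 0) (1 + (p - 1) * zx p 2 w 1) 0 := by
    rw [vv_com, m3_eq]
    refine congrArg (fun d => MvPolynomial.monomial d (1 : ℤ)) ?_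
    ext i
    rw [vc_apply]
    by_cases h0 : i = 0
    · subst h0
      rw [e0, hc0]
    by_cases h1 : i = 1
    · subst h1
      rw [e1, hc1]
    have h2 : w.count i = 0 := List.count_eq_zero_of_not_mem (fun hm => absurd (hw.1 i hm) (by omega))
    rw [h2]
    by_cases h3 : i = 2
    · subst h3
      rw [e2]
    · rw [e3 _ _ _ _ (by omega)]
  rw [zi_zt2, fVv_apply, com_sb, map_sub, com_wp, com_sb, com_wp, com_sb, hm, st1 h3]
  generalize zx p 2 w 0 = a
  generalize zx p 2 w 1 = b
  rw [map_sum, map_sum, ← Finset.sum_sub_distrib, map_sum, map_sum]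
  refine Finset.sum_congr rfl fun t ht => ?_
  rw [map_smul, map_smul, ← smul_sub, st2 h3 (one_mod (by omega)) (Nat.mul_mod_right _ _)
    (Nat.mul_pos (by omega) (Nat.succ_pos t)), map_smul, map_smul, map_sum, map_sum, Finset.smul_sum]
  refine Finset.sum_congr rfl fun s hs => ?_
  rw [map_smul, map_smul, ae2, smul_smul]
  have h4 : 1 + (p - 1) * (a - (t + 1)) + (p - 1) * (s + 1) = 1 + (p - 1) * (a - (t + 1) + (s + 1)) := by ring
  have h5 : 1 + (p - 1) * (b - (s + 1)) + (p - 1) * (t + 1) = 1 + (p - 1) * (b - (s + 1) + (t + 1)) := by ring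
  rw [h4, h5, zt2_m3 h3]

private theorem vv_len (u : ℕ → P) (hu : ∀ a, u a ∈ Submodule.span ℤ {f | ∃ b : ℕ, f = X b}) (w : List ℕ) :
    sb u (mon w) ∈ Submodule.span ℤ {f | ∃ v : List ℕ, v.length = w.length ∧ f = mon v} := by
  induction w with
  | nil =>
    rw [mon_nil, map_one]
    exact Submodule.subset_span ⟨[], rfl, mon_nil.symm⟩
  | cons a w ih =>
    have key : ∀ (b : ℕ) (g : P), g ∈ Submodule.span ℤ {f | ∃ v : List ℕ, v.length = w.length ∧ f = mon v} →
        X b * g ∈ Submodule.span ℤ {f | ∃ v : List ℕ, v.length = (a :: w).length ∧ f = mon v} := by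
      intro b g hg
      induction hg using Submodule.span_induction with
      | mem x hx =>
        obtain ⟨v, hv, rfl⟩ := hx
        exact Submodule.subset_span ⟨b :: v, by simp [hv], (mon_cons b v).symm⟩
      | zero => simp
      | add x y _ _ hx hy => rw [mul_add]; exact Submodule.add_mem _ hx hy
      | smul c x _ hx => rw [mul_smul_comm]; exact Submodule.smul_mem _ _ hx
    rw [mon_cons, map_mul, sb_X]
    have h := hu a
    generalize u a = g at h
    induction h using Submodule.span_induction with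
    | mem x hx =>
      obtain ⟨b, rfl⟩ := hx
      exact key b _ ih
    | zero => simp
    | add x y _ _ hx hy => rw [add_mul]; exact Submodule.add_mem _ hx hy
    | smul c x _ hx => rw [smul_mul_assoc]; exact Submodule.smul_mem _ _ hx

private theorem u0_sp (a : ℕ) : u0 a ∈ Submodule.span ℤ {f | ∃ b : ℕ, f = X b} := by
  unfold u0
  split_ifs
  · exact Submodule.add_mem _ (Submodule.subset_span ⟨_, rfl⟩) (Submodule.subset_span ⟨_, rfl⟩)
  · exact Submodule.subset_span ⟨_, rfl⟩

private theorem u1_sp (a : ℕ) : u1 a ∈ Submodule.span ℤ {f | ∃ b : ℕ, f = X b} := by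
  unfold u1
  split_ifs
  · exact Submodule.add_mem _ (Submodule.subset_span ⟨_, rfl⟩) (Submodule.subset_span ⟨_, rfl⟩)
  · exact Submodule.subset_span ⟨_, rfl⟩

private theorem u2_sp (a : ℕ) : u2 a ∈ Submodule.span ℤ {f | ∃ b : ℕ, f = X b} := by
  unfold u2
  split_ifs
  · exact Submodule.subset_span ⟨_, rfl⟩
  · exact Submodule.subset_span ⟨_, rfl⟩

private theorem vv_Pp {g : P} (h : g ∈ Submodule.span ℤ {f | ∃ b : ℕ, f = X b}) : g ∈ Pp := by
  refine Submodule.span_le.2 ?_ h
  rintro _ ⟨b, rfl⟩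
  exact X_mem b

private theorem vv_wp_Fge {φ : List ℕ → Prop} {m : ℕ} {f : P} (hf : f ∈ Fge m) : wp φ f ∈ Fge m := by
  unfold Fge at hf
  induction hf using Submodule.span_induction with
  | mem x hx =>
    obtain ⟨v, hv, rfl⟩ := hx
    by_cases h : φ v
    · rw [wp_pos h]; exact Submodule.subset_span ⟨v, hv, rfl⟩
    · rw [wp_neg h]; exact Submodule.zero_mem _
  | zero => simp
  | add x y _ _ hx hy => rw [map_add]; exact Submodule.add_mem _ hx hy
  | smul c x _ hx => rw [map_smul]; exact Submodule.smul_mem _ _ hx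

private theorem vv_sb_Fge (u : ℕ → P) (hu : ∀ a, u a ∈ Submodule.span ℤ {f | ∃ b : ℕ, f = X b}) {m : ℕ} {f : P}
    (hf : f ∈ Fge m) : sb u f ∈ Fge m := by
  unfold Fge at hf
  induction hf using Submodule.span_induction with
  | mem x hx =>
    obtain ⟨v, hv, rfl⟩ := hx
    refine Submodule.span_mono ?_ (vv_len u hu v)
    rintro _ ⟨u, hu, rfl⟩
    exact ⟨u, by omega, rfl⟩
  | zero => simp
  | add x y _ _ hx hy => rw [map_add]; exact Submodule.add_mem _ hx hy
  | smul c x _ hx =>
    rw [map_zsmul]; exact Submodule.smul_mem _ _ hx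

/-- words of length `m` with `w110` -/
private noncomputable def S3 (p m : ℕ) : Submodule ℤ P :=
  Submodule.span ℤ {f | ∃ v : List ℕ, w110 p v ∧ v.length = m ∧ f = mon v}

private theorem S3_wp {p m : ℕ} {f : P}
    (hf : f ∈ Submodule.span ℤ {f | ∃ v : List ℕ, v.length = m ∧ f = mon v}) : wp (w110 p) f ∈ S3 p m := by
  induction hf using Submodule.span_induction with
  | mem x hx =>
    obtain ⟨v, hv, rfl⟩ := hx
    by_cases h : w110 p v
    · rw [wp_pos h]; exact Submodule.subset_span ⟨v, h, hv, rfl⟩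
    · rw [wp_neg h]; exact Submodule.zero_mem _
  | zero => simp
  | add x y _ _ hx hy => rw [map_add]; exact Submodule.add_mem _ hx hy
  | smul c x _ hx => rw [map_smul]; exact Submodule.smul_mem _ _ hx

private theorem S3_u1 {p m : ℕ} {f : P} (hf : f ∈ S3 p m) : wp (w110 p) (sb u1 f) ∈ S3 p m := by
  unfold S3 at hf
  induction hf using Submodule.span_induction with
  | mem x hx =>
    obtain ⟨v, -, rfl, rfl⟩ := hx
    exact S3_wp (vv_len u1 u1_sp v)
  | zero => simp
  | add x y _ _ hx hy => rw [map_add, map_add]; exact Submodule.add_mem _ hx hy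
  | smul c x _ hx => rw [map_zsmul, map_zsmul]; exact Submodule.smul_mem _ _ hx

private theorem u2_mon (w : List ℕ) : sb u2 (mon w) = mon (w.map (fun a => if a = 2 then 1 else a)) := by
  induction w with
  | nil => rw [mon_nil, map_one]; rfl
  | cons a w ih =>
    rw [mon_cons, map_mul, ih, List.map_cons, mon_cons, sb_X]
    unfold u2
    by_cases h : a = 2
    · rw [if_pos h, if_pos h]
    · rw [if_neg h, if_neg h]

private theorem u2_c0 (w : List ℕ) : (w.map (fun a => if a = 2 then 1 else a)).count 0 = w.count 0 := by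
  induction w with
  | nil => rfl
  | cons a w ih =>
    rw [List.map_cons, List.count_cons, List.count_cons, ih]
    by_cases h : a = 2
    · subst h
      simp
    · rw [if_neg h]

private theorem u2_c1 (w : List ℕ) : (w.map (fun a => if a = 2 then 1 else a)).count 1 = w.count 1 + w.count 2 := by
  induction w with
  | nil => rfl
  | cons a w ih =>
    rw [List.map_cons, List.count_cons, List.count_cons, List.count_cons, ih]
    by_cases h : a = 2
    · subst h
      simp
      omega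
    · rw [if_neg h]
      have h2 : (a == 2) = false := by simpa using h
      rw [h2]
      simp
      omega

private theorem S3_u2 {p k : ℕ} (h3 : 3 ≤ p) {f : P} (hf : f ∈ S3 p (2 + (p - 1) * k)) : sb u2 f ∈ HQ p 2 k := by
  unfold S3 at hf
  induction hf using Submodule.span_induction with
  | mem x hx =>
    obtain ⟨v, hv, hl, rfl⟩ := hx
    rw [u2_mon]
    obtain ⟨h0, h1, h2, h4, h5⟩ := hv
    refine Submodule.subset_span ⟨_, ⟨?_, ?_⟩, ?_, rfl⟩
    · intro i hi
      obtain ⟨a, ha, rfl⟩ := List.mem_map.1 hi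
      have := h0 a ha
      by_cases h : a = 2
      · rw [if_pos h]; omega
      · rw [if_neg h]; omega
    · intro i hi
      have hmod : ∀ n : ℕ, n % (p - 1) = 1 → 1 ≤ n ∧ (p - 1) ∣ (n - 1) := by
        intro n hn
        have h6 := Nat.div_add_mod n (p - 1)
        rw [hn] at h6
        exact ⟨by omega, ⟨n / (p - 1), by omega⟩⟩
      interval_cases i
      · rw [u2_c0]
        exact hmod _ h1
      · rw [u2_c1]
        refine hmod _ ?_
        rw [Nat.add_mod, h2, h4, add_zero]
        exact Nat.mod_eq_of_lt (by omega)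
    · rw [List.length_map, hl]
  | zero => simp
  | add x y _ _ hx hy => rw [map_add]; exact Submodule.add_mem _ hx hy
  | smul c x _ hx => rw [map_zsmul]; exact Submodule.smul_mem _ _ hx

theorem ovv {p : ℕ} (hp : p.Prime) (h3 : 3 ≤ p) : Opr p 2 4 2 4 (fVv p) (vv p) := by
  refine ⟨?_, ?_, ?_⟩
  · have hs : ∀ u : ℕ → P, (∀ a, u a ∈ Submodule.span ℤ {f | ∃ b : ℕ, f = X b}) → TOp p (tl (sb u)) := fun u hu =>
      TOp.subst p (sb_isSubst fun i => vv_Pp (hu i))
    have hw := TOp_w110 hp h3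
    exact TO_of_TOp (((hs u2 u2_sp).comp ((hw.comp (hs u1 u1_sp)).sub (TOp.id' p))).comp (hw.comp (hs u0 u0_sp)))
  · intro f hf
    rw [fVv_apply]
    have h1 := vv_wp_Fge (φ := w110 p) (vv_sb_Fge u0 u0_sp hf)
    exact vv_sb_Fge u2 u2_sp (Submodule.sub_mem _ (vv_wp_Fge (vv_sb_Fge u1 u1_sp h1)) h1)
  · intro w hw hl
    refine ⟨fVv p (mon w), ?_, ?_, ?_⟩
    · rw [fVv_apply]
      have h1 : wp (w110 p) (sb u0 (mon w)) ∈ S3 p (2 + (p - 1) * 4) := by
        rw [← hl]
        exact S3_wp (vv_len u0 u0_sp w)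
      exact S3_u2 h3 (Submodule.sub_mem _ (S3_u1 h1) h1)
    · rw [sub_self]
      exact Submodule.zero_mem _
    · have hp2 : 2 ≤ p := by omega
      have hz : zx p 2 w = Finsupp.single 0 (zx p 2 w 0) + Finsupp.single 1 (zx p 2 w 1) := by
        ext i
        by_cases h0 : i = 0
        · subst h0
          simp
        by_cases h1 : i = 1
        · subst h1
          simp
        · rw [zx_apply, if_neg (by omega), Finsupp.add_apply, Finsupp.single_eq_of_ne h0,
            Finsupp.single_eq_of_ne h1, add_zero]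
      have hd : zx p 2 w 0 + zx p 2 w 1 = 4 := by
        have h1 := zw_length hp2 hw
        rw [hl] at h1
        have h2 : (p - 1) * 4 = (p - 1) * (zx p 2 w).degree := by omega
        have h4 := Nat.eq_of_mul_eq_mul_left (by omega : 0 < p - 1) h2
        rw [hz] at h4
        simpa [map_add, Finsupp.degree_single] using h4.symm
      rw [vv_val h3 hw, hz]
      unfold vv
      rw [vv_lz_mo]
      simp only [e0', e1']
      generalize zx p 2 w 0 = a at hd
      generalize zx p 2 w 1 = b at hd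
      have hb1 := vv_b1 hp h3
      have hb2 := vv_b2 hp h3
      have hb3 := vv_b3 hp h3
      have hn : ∀ a b : ℕ, a ≠ 2 → ¬ (Finsupp.single 0 a + Finsupp.single 1 b : ℕ →₀ ℕ) =
          Finsupp.single 0 2 + Finsupp.single 1 2 := by
        intro a b hab h
        have := DFunLike.congr_fun h 0
        rw [e0', e0'] at this
        exact hab this
      have hcast : ∀ (m n : ℕ) (x : Z p), ((m : ℤ) * (n : ℤ)) • x = ((m : ZMod p) * (n : ZMod p)) • x := by
        intro m n x
        rw [← Int.cast_smul_eq_zsmul (ZMod p)]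
        push_cast
        rfl
      simp only [hcast]
      obtain rfl | rfl | rfl | rfl | rfl : a = 0 ∨ a = 1 ∨ a = 2 ∨ a = 3 ∨ a = 4 := by omega
      · rw [if_neg (hn _ _ (by omega)), Finset.sum_range_zero]
      · rw [if_neg (hn _ _ (by omega)), Finset.sum_range_one]
        refine Finset.sum_eq_zero fun s _ => ?_
        rw [hb1, zero_mul, zero_smul]
      · obtain rfl : b = 2 := by omega
        rw [if_pos rfl, Finset.sum_range_succ, Finset.sum_range_one, Finset.sum_range_succ, Finset.sum_range_one,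
          Finset.sum_range_succ, Finset.sum_range_one, hb2, hb3]
        unfold b0
        simp only [one_mul, mul_one, neg_smul, one_smul, neg_mul, neg_neg]
        ring
      · obtain rfl : b = 1 := by omega
        rw [if_neg (hn _ _ (by omega))]
        refine Finset.sum_eq_zero fun t _ => ?_
        rw [Finset.sum_range_one, hb1, mul_zero, zero_smul]
      · obtain rfl : b = 0 := by omega
        rw [if_neg (hn _ _ (by omega))]
        refine Finset.sum_eq_zero fun t _ => ?_
        rw [Finset.sum_range_zero]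

end ADQ
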