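import Pool.Agent.ADQ.TOz
import Pool.Agent.ADQ.Lif

/-!
# ADQ-OXx: `x_i ↦ x_i + x_n`, `p = 2`

`Φ = fXx 2 n i = wp (zw 2 (n+1)) ∘ sb (x_i ↦ x_i + x_n)`.  `tO`: `TO_zw`, `sb_mem`.  `up`: lengths are preserved and `n + (k+1) = (n+1) + k` (`p - 1 = 1`).
`val`: `w.count i = m + 1`, `m = zx i`; the words obtained by replacing each `i` by `i` or `n` such that both occur: `t` letters `i` (`1 ≤ t ≤ m`),
`m + 1 - t` letters `n`: `C(m+1, t)` words with exponents `t - 1` at `i` and `m - t` at `n`.  Words without `n` or without `i` are not `zw 2 (n+1)`.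
`g = Φ (mon w) ∈ HQ 2 (n+1) k`, its image is `∑_{t=1}^m C(m+1,t) z_i^(t-1) z_n^(m-t) * mo (m.erase i)`.
-/

namespace ADQ

open AD ADN ADC

/-- the words obtained by replacing each letter `i` by `i` or `n` -/
private def oE (i n : ℕ) : List ℕ → List (List ℕ)
  | [] => [[]]
  | a :: w => if a = i then (oE i n w).map (fun v => i :: v) ++ (oE i n w).map (fun v => n :: v)
      else (oE i n w).map (fun v => a :: v)

private theorem oE_sum (i n : ℕ) (w : List ℕ) :
    (w.map (fun t => if t = i then X i + X n else X t)).prod = ((oE i n w).map mon).sum := by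
  have h : ∀ (a : ℕ) (l : List (List ℕ)), (l.map (fun v => mon (a :: v))).sum = X a * (l.map mon).sum := by
    intro a l
    rw [← List.sum_map_mul_left]
    congr 1
  induction w with
  | nil => simp [oE, mon_nil]
  | cons a w ih =>
    rw [List.map_cons, List.prod_cons, ih, oE]
    by_cases ha : a = i
    · rw [if_pos ha, if_pos ha, List.map_append, List.sum_append, List.map_map, List.map_map]
      have e1 := h i (oE i n w)
      have e2 := h n (oE i n w)
      rw [show (mon ∘ fun v => i :: v) = fun v => mon (i :: v) from rfl,
        show (mon ∘ fun v => n :: v) = fun v => mon (n :: v) from rfl, e1, e2, add_mul]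
    · rw [if_neg ha, if_neg ha, List.map_map]
      rw [show (mon ∘ fun v => a :: v) = fun v => mon (a :: v) from rfl, h]

private theorem oE_len (i n : ℕ) (w : List ℕ) : ∀ v ∈ oE i n w, v.length = w.length := by
  induction w with
  | nil => simp [oE]
  | cons a w ih =>
    intro v hv
    rw [oE] at hv
    by_cases ha : a = i
    · rw [if_pos ha, List.mem_append, List.mem_map, List.mem_map] at hv
      rcases hv with ⟨u, hu, rfl⟩ | ⟨u, hu, rfl⟩
      · rw [List.length_cons, List.length_cons, ih u hu]
      · rw [List.length_cons, List.length_cons, ih u hu]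
    · rw [if_neg ha, List.mem_map] at hv
      obtain ⟨u, hu, rfl⟩ := hv
      rw [List.length_cons, List.length_cons, ih u hu]

private theorem oE_count {i n : ℕ} (w : List ℕ) : ∀ v ∈ oE i n w, ∀ j, j ≠ i → j ≠ n →
    v.count j = w.count j := by
  induction w with
  | nil => simp [oE]
  | cons a w ih =>
    intro v hv j hj hj'
    rw [oE] at hv
    by_cases ha : a = i
    · rw [if_pos ha, List.mem_append, List.mem_map, List.mem_map] at hv
      rcases hv with ⟨u, hu, rfl⟩ | ⟨u, hu, rfl⟩
      · rw [List.count_cons_of_ne (fun h => hj h.symm), List.count_cons_of_ne (fun h => hj (h.symm.trans ha)),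
          ih u hu j hj hj']
      · rw [List.count_cons_of_ne (fun h => hj' h.symm), List.count_cons_of_ne (fun h => hj (h.symm.trans ha)),
          ih u hu j hj hj']
    · rw [if_neg ha, List.mem_map] at hv
      obtain ⟨u, hu, rfl⟩ := hv
      rw [List.count_cons, List.count_cons, ih u hu j hj hj']

private theorem oE_count2 {i n : ℕ} (hin : i ≠ n) (w : List ℕ) : ∀ v ∈ oE i n w,
    v.count i + v.count n = w.count i + w.count n := by
  induction w with
  | nil => simp [oE]
  | cons a w ih =>
    intro v hv
    rw [oE] at hv
    by_cases ha : a = i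
    · rw [if_pos ha, List.mem_append, List.mem_map, List.mem_map] at hv
      rcases hv with ⟨u, hu, rfl⟩ | ⟨u, hu, rfl⟩
      · have := ih u hu
        rw [ha, List.count_cons_self, List.count_cons_self, List.count_cons_of_ne hin,
          List.count_cons_of_ne hin]
        omega
      · have := ih u hu
        rw [ha, List.count_cons_self, List.count_cons_self, List.count_cons_of_ne hin.symm,
          List.count_cons_of_ne hin]
        omega
    · rw [if_neg ha, List.mem_map] at hv
      obtain ⟨u, hu, rfl⟩ := hv
      have := ih u hu
      rw [List.count_cons, List.count_cons, List.count_cons, List.count_cons]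
      omega

private theorem oE_lt {i n : ℕ} (hi : i < n) (w : List ℕ) (hw : ∀ a ∈ w, a < n) : ∀ v ∈ oE i n w,
    ∀ a ∈ v, a < n + 1 := by
  induction w with
  | nil => simp [oE]
  | cons b w ih =>
    intro v hv a hav
    rw [oE] at hv
    have hw' : ∀ a ∈ w, a < n := fun a h => hw a (List.mem_cons_of_mem _ h)
    by_cases hb : b = i
    · rw [if_pos hb, List.mem_append, List.mem_map, List.mem_map] at hv
      rcases hv with ⟨u, hu, rfl⟩ | ⟨u, hu, rfl⟩
      · rcases List.mem_cons.1 hav with h | h
        · omega
        · exact ih hw' u hu a h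
      · rcases List.mem_cons.1 hav with h | h
        · omega
        · exact ih hw' u hu a h
    · rw [if_neg hb, List.mem_map] at hv
      obtain ⟨u, hu, rfl⟩ := hv
      rcases List.mem_cons.1 hav with h | h
      · have := hw b List.mem_cons_self
        omega
      · exact ih hw' u hu a h

private theorem oE_pascal {M : Type} [AddCommGroup M] {i n : ℕ} (hin : i ≠ n) (w : List ℕ) :
    ∀ f : ℕ → M, ((oE i n w).map (fun v => f (v.count i))).sum =
      ∑ s ∈ Finset.range (w.count i + 1), (w.count i).choose s • f s := by
  induction w with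
  | nil => intro f; simp [oE]
  | cons a w ih =>
    intro f
    rw [oE]
    by_cases ha : a = i
    · rw [if_pos ha, List.map_append, List.sum_append, List.map_map, List.map_map, ha, List.count_cons_self]
      have e1 : ((fun v : List ℕ => f (v.count i)) ∘ fun v => i :: v) = fun v => f (v.count i + 1) := by
        funext v
        simp
      have e2 : ((fun v : List ℕ => f (v.count i)) ∘ fun v => n :: v) = fun v => f (v.count i) := by
        funext v
        rw [Function.comp_apply, List.count_cons_of_ne hin.symm]
      rw [e1, e2, ih (fun s => f (s + 1)), ih f]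
      set c := w.count i with hc
      rw [Finset.sum_range_succ' (fun s => (c + 1).choose s • f s) (c + 1)]
      have e3 : ∀ s, (c + 1).choose (s + 1) • f (s + 1) =
          c.choose s • f (s + 1) + c.choose (s + 1) • f (s + 1) := by
        intro s
        rw [Nat.choose_succ_succ', add_smul]
      rw [Finset.sum_congr rfl (fun s _ => e3 s), Finset.sum_add_distrib]
      have e4 := Finset.sum_range_succ' (fun s => c.choose s • f s) (c + 1)
      rw [Finset.sum_range_succ (fun s => c.choose s • f s) (c + 1)] at e4
      rw [Nat.choose_succ_self, zero_smul, add_zero] at e4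
      rw [e4]
      simp only [Nat.choose_zero_right]
      abel
    · rw [if_neg ha, List.map_map]
      have e1 : ((fun v : List ℕ => f (v.count i)) ∘ fun v => a :: v) = fun v => f (v.count i) := by
        funext v
        rw [Function.comp_apply, List.count_cons_of_ne ha]
      rw [e1, ih f, List.count_cons_of_ne ha]

private theorem o_lz {p : ℕ} (φ : (ℕ →₀ ℕ) → Z p) (m : ℕ →₀ ℕ) : lz φ (mo m) = φ m := by
  unfold lz mo
  have h : (MvPolynomial.monomial m (1 : ZMod p)) = MvPolynomial.basisMonomials ℕ (ZMod p) m := by
    rw [MvPolynomial.coe_basisMonomials]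
  rw [h, Module.Basis.constr_basis]

private theorem o_wpF (φ : List ℕ → Prop) {N : ℕ} {f : P} (hf : f ∈ Fge N) : wp φ f ∈ Fge N := by
  unfold Fge at hf
  induction hf using Submodule.span_induction with
  | mem f hf =>
    obtain ⟨w, hw, rfl⟩ := hf
    by_cases h : φ w
    · rw [wp_pos h]
      exact Submodule.subset_span ⟨w, hw, rfl⟩
    · rw [wp_neg h]
      exact Submodule.zero_mem _
  | zero => rw [map_zero]; exact Submodule.zero_mem _
  | add x y _ _ hx hy => rw [map_add]; exact Submodule.add_mem _ hx hy
  | smul c x _ hx => rw [map_smul]; exact Submodule.smul_mem _ _ hx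

private theorem o_Pp (i n t : ℕ) : (if t = i then X i + X n else X t : P) ∈ Pp := by
  split_ifs
  · exact Pp.add_mem (X_mem _) (X_mem _)
  · exact X_mem _

private theorem o_mo {i n : ℕ} (a b : ℕ) (m : ℕ →₀ ℕ) :
    (z i ^ a * z n ^ b * mo m : Z 2) = mo (Finsupp.single i a + Finsupp.single n b + m) := by
  unfold z mo
  rw [MvPolynomial.X_pow_eq_monomial, MvPolynomial.X_pow_eq_monomial, MvPolynomial.monomial_mul,
    MvPolynomial.monomial_mul, one_mul, one_mul]

theorem oxx {n k i : ℕ} (hi : i < n) : Opr 2 n (k + 1) (n + 1) k (fXx 2 n i) (xx i n) := by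
  classical
  have hin : i ≠ n := hi.ne
  refine ⟨?_, ?_, ?_⟩
  · intro D hD hm f hf
    unfold fXx
    rw [LinearMap.comp_apply, tl_apply]
    exact TO_zw Nat.prime_two (n + 1) D hD hm _ (sb_mem hD (o_Pp i n) hf)
  · intro f hf
    unfold fXx
    rw [LinearMap.comp_apply, tl_apply]
    refine o_wpF _ ?_
    have e : n + 1 + (2 - 1) * k + 1 = n + (2 - 1) * (k + 1) + 1 := by omega
    rw [e]
    exact sb_mem (isT_Fge _ (by omega)) (o_Pp i n) hf
  · intro w hw hlen
    have hwlt := hw.1
    have hnw : w.count n = 0 := List.count_eq_zero_of_not_mem fun h => by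
      have := hwlt n h
      omega
    have hval : fXx 2 n i (mon w) = ((oE i n w).map (fun v => wp (zw 2 (n + 1)) (mon v))).sum := by
      unfold fXx
      rw [LinearMap.comp_apply, tl_apply, sb_mon, oE_sum, map_list_sum, List.map_map]
      rfl
    refine ⟨fXx 2 n i (mon w), ?_, by rw [sub_self]; exact Submodule.zero_mem _, ?_⟩
    · rw [hval]
      refine list_sum_mem ?_
      intro x hx
      obtain ⟨v, hv, rfl⟩ := List.mem_map.1 hx
      by_cases h : zw 2 (n + 1) v
      · rw [wp_pos h]
        refine Submodule.subset_span ⟨v, h, ?_, rfl⟩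
        rw [oE_len i n w v hv, hlen]
        omega
      · rw [wp_neg h]
        exact Submodule.zero_mem _
    · set c := w.count i with hc
      have hc1 : 1 ≤ c := (hw.2 i hi).1
      set m := zx 2 n w with hm
      have hmi : m i = c - 1 := by
        rw [hm, zx_apply, if_pos hi]
        simp [← hc]
      set f : ℕ → Z 2 := fun s => if 1 ≤ s ∧ s + 1 ≤ c then
        z i ^ (s - 1) * z n ^ (c - 1 - s) * mo (m.erase i) else 0 with hf
      have hterm : ∀ v ∈ oE i n w, zi 2 (n + 1) (wp (zw 2 (n + 1)) (mon v)) = f (v.count i) := by
        intro v hv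
        have h1 := oE_count2 hin w v hv
        rw [hnw, add_zero, ← hc] at h1
        have h2 := oE_count (i := i) (n := n) w v hv
        have h3 := oE_lt hi w hwlt v hv
        by_cases h : zw 2 (n + 1) v
        · have hs1 := (h.2 i (by omega)).1
          have hs2 := (h.2 n (by omega)).1
          rw [wp_pos h, zi_mon h, hf]
          simp only
          rw [if_pos ⟨hs1, by omega⟩, o_mo]
          congr 1
          ext j
          rw [zx_apply, Finsupp.add_apply, Finsupp.add_apply]
          by_cases hji : j = i
          · subst hji
            rw [if_pos (by omega), Finsupp.single_eq_same, Finsupp.single_eq_of_ne hin, Finsupp.erase_same]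
            simp
          · rw [Finsupp.erase_ne hji, Finsupp.single_eq_of_ne hji, zero_add]
            by_cases hjn : j = n
            · subst hjn
              rw [if_pos (by omega), Finsupp.single_eq_same, hm, zx_apply, if_neg (by omega), add_zero]
              simp
              omega
            · rw [Finsupp.single_eq_of_ne hjn, zero_add, hm, zx_apply, h2 j hji hjn]
              by_cases hjl : j < n
              · rw [if_pos (by omega), if_pos hjl]
              · rw [if_neg (by omega), if_neg hjl]
        · rw [wp_neg h, map_zero, hf]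
          simp only
          rw [if_neg]
          rintro ⟨hs1, hs2⟩
          apply h
          refine ⟨h3, fun j hj => ⟨?_, by simp⟩⟩
          by_cases hji : j = i
          · rw [hji]
            exact hs1
          · by_cases hjn : j = n
            · rw [hjn]
              omega
            · rw [h2 j hji hjn]
              exact (hw.2 j (by omega)).1
      rw [hval, map_list_sum, List.map_map]
      have e1 : ((oE i n w).map ((zi 2 (n + 1)) ∘ fun v => wp (zw 2 (n + 1)) (mon v))) =
          (oE i n w).map (fun v => f (v.count i)) := by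
        refine List.map_congr_left fun v hv => ?_
        rw [Function.comp_apply]
        exact hterm v hv
      rw [e1, oE_pascal hin w f, ← hc]
      unfold xx
      rw [o_lz, hmi]
      have e2 : c - 1 + 1 = c := by omega
      rw [e2]
      symm
      have e3 : ∀ t ∈ Finset.Icc 1 (c - 1), ((c.choose t : ℕ) : ZMod 2) •
          (z i ^ (t - 1) * z n ^ (c - 1 - t) * mo (m.erase i)) = c.choose t • f t := by
        intro t ht
        rw [Finset.mem_Icc] at ht
        rw [Nat.cast_smul_eq_nsmul, hf]
        simp only
        rw [if_pos ⟨ht.1, by omega⟩]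
      rw [Finset.sum_congr rfl e3]
      refine Finset.sum_subset ?_ ?_
      · intro t ht
        rw [Finset.mem_Icc] at ht
        rw [Finset.mem_range]
        omega
      · intro t _ ht
        rw [hf]
        simp only
        rw [if_neg, smul_zero]
        rintro ⟨h1, h2⟩
        exact ht (Finset.mem_Icc.2 ⟨h1, by omega⟩)

end ADQ
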