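import Pool.Agent.ADQ.TOz
import Pool.Agent.ADQ.Lif

/-!
# ADQ-OZer: `x_i ↦ x_i x_n`
-/

namespace ADQ

open AD ADN ADC

private noncomputable def ozs (i n : ℕ) : ℕ → P := fun j => if j = i then X i * X n else X j

private def ozd (i n : ℕ) (w : List ℕ) : List ℕ := w.flatMap (fun a => if a = i then [i, n] else [a])

private theorem ozd_nil (i n : ℕ) : ozd i n [] = [] := rfl

private theorem ozd_cons (i n a : ℕ) (w : List ℕ) :
    ozd i n (a :: w) = (if a = i then [i, n] else [a]) ++ ozd i n w := by
  rw [ozd, List.flatMap_cons, ozd]

private theorem oz_sb (i n : ℕ) (w : List ℕ) : sb (ozs i n) (mon w) = mon (ozd i n w) := by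
  induction w with
  | nil => rw [ozd_nil, mon_nil, map_one]
  | cons a w ih =>
    rw [ozd_cons, mon_append, mon_cons, map_mul, sb_X, ih]
    congr 1
    unfold ozs
    by_cases h : a = i
    · rw [if_pos h, if_pos h, mon_cons, mon_single]
    · rw [if_neg h, if_neg h, mon_single]

private theorem oz_len (i n : ℕ) (w : List ℕ) : (ozd i n w).length = w.length + w.count i := by
  induction w with
  | nil => simp [ozd_nil]
  | cons a w ih =>
    rw [ozd_cons, List.length_append, ih, List.length_cons, List.count_cons]
    by_cases h : a = i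
    · simp only [h, if_true, List.length_cons, List.length_nil, beq_self_eq_true]
      omega
    · have h' : (a == i) = false := by simpa using h
      rw [if_neg h, h']
      simp only [List.length_cons, List.length_nil, Bool.false_eq_true, if_false]
      omega

private theorem oz_count {i n : ℕ} {j : ℕ} (hj : j ≠ n) (w : List ℕ) :
    (ozd i n w).count j = w.count j := by
  have hj' : (n == j) = false := by simpa using (Ne.symm hj)
  induction w with
  | nil => simp [ozd_nil]
  | cons a w ih =>
    rw [ozd_cons, List.count_append, ih, List.count_cons]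
    by_cases h : a = i
    · rw [if_pos h, List.count_cons, List.count_cons, List.count_nil, hj', h]
      simp only [Bool.false_eq_true, if_false]
      omega
    · rw [if_neg h, List.count_cons, List.count_nil]
      omega

private theorem oz_count_n {i n : ℕ} (hi : i ≠ n) (w : List ℕ) :
    (ozd i n w).count n = w.count n + w.count i := by
  have hi' : (i == n) = false := by simpa using hi
  induction w with
  | nil => simp [ozd_nil]
  | cons a w ih =>
    rw [ozd_cons, List.count_append, ih, List.count_cons, List.count_cons]
    by_cases h : a = i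
    · rw [if_pos h, List.count_cons, List.count_cons, List.count_nil, h, hi']
      simp only [Bool.false_eq_true, if_false, beq_self_eq_true, if_true]
      omega
    · have h' : (a == i) = false := by simpa using h
      rw [if_neg h, List.count_cons, List.count_nil, h']
      simp only [Bool.false_eq_true, if_false]
      omega

private theorem oz_mon (p n i : ℕ) (w : List ℕ) :
    fZer p n i (mon w) = wp (zw p (n + 1)) (mon (ozd i n w)) := by
  show wp (zw p (n + 1)) (sb (ozs i n) (mon w)) = _
  rw [oz_sb]

private theorem oz_letters {i n : ℕ} (hi : i < n) {w : List ℕ} (hw : ∀ a ∈ w, a < n) :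
    ∀ a ∈ ozd i n w, a < n + 1 := by
  intro a ha
  unfold ozd at ha
  rw [List.mem_flatMap] at ha
  obtain ⟨b, hb, hab⟩ := ha
  by_cases h : b = i
  · rw [if_pos h] at hab
    simp only [List.mem_cons, List.not_mem_nil, or_false] at hab
    rcases hab with h1 | h1 <;> omega
  · rw [if_neg h] at hab
    simp only [List.mem_cons, List.not_mem_nil, or_false] at hab
    have := hw b hb
    omega

private theorem oz_zw {p n i : ℕ} (hi : i < n) {w : List ℕ} (hw : zw p n w) : zw p (n + 1) (ozd i n w) := by
  have hn : w.count n = 0 := by
    rw [List.count_eq_zero]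
    intro h
    exact absurd (hw.1 n h) (lt_irrefl n)
  refine ⟨oz_letters hi hw.1, ?_⟩
  intro j hj
  by_cases h : j = n
  · rw [h, oz_count_n (by omega), hn, zero_add]
    exact hw.2 i hi
  · rw [oz_count h]
    exact hw.2 j (by omega)

private theorem oz_mem {m : ℕ} {w : List ℕ} (h : m ≤ w.length) : mon w ∈ Fge m :=
  Submodule.subset_span ⟨w, h, rfl⟩

private theorem oz_S (i n : ℕ) (j : ℕ) : ozs i n j ∈ Pp := by
  unfold ozs
  by_cases h : j = i
  · rw [if_pos h]
    exact Pp_mul_left _ (X_mem n)
  · rw [if_neg h]
    exact X_mem j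

theorem ev_mo {p : ℕ} (i : ℕ) (m : ℕ →₀ ℕ) : ev i (mo m : Z p) = if m i = 0 then mo m else 0 := by
  unfold ev mo
  rw [MvPolynomial.aeval_monomial, map_one, one_mul]
  by_cases h : m i = 0
  · rw [if_pos h, MvPolynomial.monomial_eq, MvPolynomial.C_1, one_mul]
    refine Finsupp.prod_congr ?_
    intro j hj
    have hji : j ≠ i := by
      intro e
      rw [e, Finsupp.mem_support_iff] at hj
      exact hj h
    rw [if_neg hji]
  · rw [if_neg h]
    refine Finset.prod_eq_zero (Finsupp.mem_support_iff.mpr h) ?_
    show (if i = i then (0 : Z p) else z i) ^ m i = 0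
    rw [if_pos rfl]
    exact zero_pow h

theorem fZer_up {p n i : ℕ} (hi : i < n) {m : ℕ} {f : P} (hf : f ∈ Fge m) : fZer p n i f ∈ Fge (m + 1) := by
  refine Submodule.span_induction (p := fun f _ => fZer p n i f ∈ Fge (m + 1)) ?_ ?_ ?_ ?_ hf
  · rintro f ⟨w, hw, rfl⟩
    rw [oz_mon]
    by_cases h : zw p (n + 1) (ozd i n w)
    · rw [wp_pos h]
      refine oz_mem ?_
      have h1 := (h.2 i (by omega)).1
      rw [oz_count (by omega)] at h1
      rw [oz_len]
      omega
    · rw [wp_neg h]
      exact Submodule.zero_mem _
  · rw [map_zero]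
    exact Submodule.zero_mem _
  · intro f g _ _ h1 h2
    rw [map_add]
    exact Submodule.add_mem _ h1 h2
  · intro c f _ h1
    rw [map_smul]
    exact Submodule.smul_mem _ c h1

theorem ozer {p n k i : ℕ} (hp : p.Prime) (hi : i < n) :
    Opr p n k (n + 1) k (fZer p n i) (ev i).toLinearMap := by
  have hp2 : 2 ≤ p := hp.two_le
  refine ⟨?_, ?_, ?_⟩
  · intro D hD hm f hf
    exact TO_zw hp (n + 1) D hD hm _ (sb_mem hD (oz_S i n) hf)
  · intro f hf
    have h1 := fZer_up (p := p) hi hf
    have e : n + (p - 1) * k + 1 + 1 = n + 1 + (p - 1) * k + 1 := by omega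
    rw [e] at h1
    exact h1
  · intro w hw hl
    have hz := oz_zw hi hw
    have hcn : w.count n = 0 := by
      rw [List.count_eq_zero]
      intro h
      exact absurd (hw.1 n h) (lt_irrefl n)
    have hci := hw.2 i hi
    have hlen := oz_len i n w
    have hev : (ev i).toLinearMap (mo (zx p n w) : Z p) = ev i (mo (zx p n w)) := rfl
    rw [hev, ev_mo, zx_apply, if_pos hi, oz_mon, wp_pos hz]
    by_cases h1 : w.count i = 1
    · refine ⟨mon (ozd i n w), Submodule.subset_span ⟨_, hz, ?_, rfl⟩, ?_, ?_⟩
      · rw [hlen, hl, h1]
        omega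
      · rw [sub_self]
        exact Submodule.zero_mem _
      · rw [zi_mon hz, h1, Nat.sub_self, Nat.zero_div, if_pos rfl]
        congr 1
        ext j
        rw [zx_apply, zx_apply]
        by_cases hj : j < n
        · rw [if_pos hj, if_pos (by omega), oz_count (by omega)]
        · rw [if_neg hj]
          by_cases hjn : j = n
          · rw [hjn, if_pos (by omega), oz_count_n (by omega), hcn, h1, zero_add, Nat.sub_self, Nat.zero_div]
          · rw [if_neg (by omega)]
    · refine ⟨0, Submodule.zero_mem _, ?_, ?_⟩
      · rw [sub_zero]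
        refine oz_mem ?_
        rw [hlen, hl]
        omega
      · rw [map_zero]
        have h2 : (w.count i - 1) / (p - 1) ≠ 0 := by
          intro h0
          rw [Nat.div_eq_zero_iff] at h0
          rcases h0 with h0 | h0
          · omega
          · have := Nat.le_of_dvd (by omega) hci.2
            omega
        rw [if_neg h2]

end ADQ
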