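import Pool.Agent.ADQ.OprR
import Pool.Agent.ADQ.ORen
import Pool.Agent.ADQ.OZer
import Pool.Agent.ADQ.ODd
import Pool.Agent.ADQ.OXx
import Pool.Agent.ADQ.OVv

/-!
# ADQ-SocA: the socle conditions of a leading form
-/

namespace ADQ

open AD ADN ADC

private theorem soca_sb {p n : ℕ} {φ ψ : ℕ → P} (h : ∀ i < n, φ i = ψ i) {a : P} (ha : a ∈ ZQ p n) :
    sb φ a = sb ψ a := by
  unfold ZQ at ha
  induction ha using Submodule.span_induction with
  | mem x hx =>
    obtain ⟨w, hw, rfl⟩ := hx
    rw [sb_mon, sb_mon]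
    congr 1
    exact List.map_congr_left fun i hi => h i (hw.1 i hi)
  | zero => rw [map_zero, map_zero]
  | add x y _ _ hx hy => rw [map_add, map_add, hx, hy]
  | smul c x _ hx => rw [map_zsmul, map_zsmul, hx]

private theorem soca_map (g : ℕ → ℕ) (w : List ℕ) : sb (fun j => X (g j)) (mon w) = mon (w.map g) := by
  rw [sb_mon]
  unfold mon
  rw [List.map_map]
  rfl

private theorem soca_wp0 {p n : ℕ} {Q : List ℕ → Prop} (g : ℕ → ℕ)
    (h : ∀ w, zw p n w → ¬ Q (w.map g)) {a : P} (ha : a ∈ ZQ p n) :
    wp Q (sb (fun j => X (g j)) a) = 0 := by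
  unfold ZQ at ha
  induction ha using Submodule.span_induction with
  | mem x hx =>
    obtain ⟨w, hw, rfl⟩ := hx
    rw [soca_map]
    exact wp_neg (h w hw)
  | zero => rw [map_zero, map_zero]
  | add x y _ _ hx hy => rw [map_add, map_add, hx, hy, add_zero]
  | smul c x _ hx => rw [map_zsmul, map_smul, hx, smul_zero]

private theorem soca_id (a : P) : sb (fun j => X j) a = a := by
  have h : sb (fun j => X j) = AlgHom.id ℤ P := hom_ext_X fun i => by
    rw [sb_X]
    rfl
  rw [h]
  rfl

private theorem soca_not_mem {w : List ℕ} {i n : ℕ} (hin : i ≠ n) :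
    i ∉ w.map (fun j => if j = i then n else j) := by
  intro h
  obtain ⟨j, _, hj⟩ := List.mem_map.1 h
  by_cases hji : j = i
  · rw [if_pos hji] at hj
    exact hin hj.symm
  · rw [if_neg hji] at hj
    exact hji hj

private theorem soca_ite (i n : ℕ) : (fun j => if j = i then X n else X j : ℕ → P) =
    fun j => X ((fun j => if j = i then n else j) j) := by
  funext j
  show (if j = i then X n else X j : P) = X (if j = i then n else j)
  by_cases h : j = i
  · rw [if_pos h, if_pos h]
  · rw [if_neg h, if_neg h]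

private theorem soca_up {I A : Submodule ℤ P} {d : ℕ} (hd : Od I A d) {Φ : P →ₗ[ℤ] P}
    (h1 : ∀ f ∈ I, Φ f ∈ I) (h2 : ∀ f ∈ A, Φ f ∈ A) (h3 : ∀ f ∈ Fge d, Φ f ∈ Fge (d + 1)) {a : P}
    (ha : a ∈ A) : Φ a ∈ I := by
  refine hd.2 ⟨h2 a ha, ?_⟩
  obtain ⟨x, hx, y, hy, hxy⟩ := Submodule.mem_sup.1 (hd.1 ha)
  rw [← hxy, map_add]
  exact Submodule.add_mem_sup (h1 x hx) (h3 y hy)

private theorem soca_ren (n d : ℕ) {f : P} (hf : f ∈ Fge d) : fRen n (n + 1) id f ∈ Fge (d + 1) := by
  unfold Fge at hf
  induction hf using Submodule.span_induction with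
  | mem x hx =>
    obtain ⟨w, hw, rfl⟩ := hx
    have h1 : fRen n (n + 1) id (mon w) = mon (w ++
        (List.range (n + 1)).filter (fun j => decide (∀ i < n, id i ≠ j))) := by
      rw [mon_append]
      show sb (fun i => X (id i)) (mon w) * _ = _
      have h2 : sb (fun i => X (id i)) (mon w) = mon w := by
        rw [soca_map id w, List.map_id]
      rw [h2]
    rw [h1]
    refine Submodule.subset_span ⟨_, ?_, rfl⟩
    have h3 : n ∈ (List.range (n + 1)).filter (fun j => decide (∀ i < n, id i ≠ j)) := by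
      rw [List.mem_filter]
      refine ⟨List.mem_range.2 (Nat.lt_succ_self n), decide_eq_true ?_⟩
      intro i hi
      show i ≠ n
      omega
    have h4 := List.length_pos_of_mem h3
    rw [List.length_append]
    omega
  | zero => rw [map_zero]; exact Submodule.zero_mem _
  | add x y _ _ hx hy => rw [map_add]; exact Submodule.add_mem _ hx hy
  | smul c x _ hx => rw [map_smul]; exact Submodule.smul_mem _ _ hx

private theorem soca_ext {p : ℕ} (hp : p.Prime) {I A : Submodule ℤ P} (hI : NC p I) (hA : IsT A)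
    (hmA : Mul p A) {n k : ℕ} (hn : 1 ≤ n) (hd : Od I A (n + (p - 1) * k)) {a f : P} (ha : a ∈ A)
    (hf : f ∈ HQ p n k) (haf : a - f ∈ I ⊔ Fge (n + (p - 1) * k + 1)) :
    zi p n f ∈ RR p I (n + 1) k := by
  have ho : Opr p n k (n + 1) k (fRen n (n + 1) id) (rn id).toLinearMap :=
    oren hp hn (fun i hi => by show i < n + 1; omega) (fun i _ j _ h => h)
  have h1 : fRen n (n + 1) id a ∈ I :=
    soca_up hd (fun g hg => ho.tO I hI.isT hI.mul g hg) (fun g hg => ho.tO A hA hmA g hg)
      (fun g hg => soca_ren n _ hg) ha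
  have h2 := RR_soc hI ho hf haf (Submodule.mem_sup_left h1)
  have h3 : (rn id).toLinearMap (zi p n f) = zi p n f := by
    show MvPolynomial.rename id (zi p n f) = zi p n f
    rw [MvPolynomial.rename_id]
    rfl
  rw [h3] at h2
  exact h2

private theorem soca_zer {p : ℕ} (hp : p.Prime) {I A : Submodule ℤ P} (hI : NC p I) (hA : IsT A)
    (hmA : Mul p A) {n k : ℕ} (hd : Od I A (n + (p - 1) * k)) {a f : P} (ha : a ∈ A)
    (hf : f ∈ HQ p n k) (haf : a - f ∈ I ⊔ Fge (n + (p - 1) * k + 1)) {i : ℕ} (hi : i < n) :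
    ev i (zi p n f) ∈ RR p I (n + 1) k := by
  have ho : Opr p n k (n + 1) k (fZer p n i) (ev i).toLinearMap := ozer hp hi
  have h1 : fZer p n i a ∈ I :=
    soca_up hd (fun g hg => ho.tO I hI.isT hI.mul g hg) (fun g hg => ho.tO A hA hmA g hg)
      (fun g hg => fZer_up hi hg) ha
  exact RR_soc hI ho hf haf (Submodule.mem_sup_left h1)

theorem soc3 {p : ℕ} [Fact p.Prime] (h3 : 3 ≤ p) {I A : Submodule ℤ P} (hI : NC p I) (hA : IsT A) (hmA : Mul p A)
    {n k : ℕ} (hn : 1 ≤ n) (hd : Od I A (n + (p - 1) * k)) {a f : P} (ha : a ∈ A) (hz : a ∈ ZQ p n)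
    (had : Ad I n a) (hf : f ∈ HQ p n k) (haf : a - f ∈ I ⊔ Fge (n + (p - 1) * k + 1)) :
    Soc3 p (RR p I) n k (zi p n f) := by
  have hp : p.Prime := hI.pp
  refine ⟨⟨zi_mem hp.two_le hf, soca_ext hp hI hA hmA hn hd ha hf haf,
    fun i hi => soca_zer hp hI hA hmA hd ha hf haf hi⟩, ?_, ?_⟩
  · intro hk i hi j hj hij
    have ho : Opr p n k n k (fDd p n i j) (dd i j) := odd hp h3 hk hi hj hij
    refine RR_soc hI ho hf haf (Submodule.mem_sup_left ?_)
    have h1 := had i hi
    have h2 := sb_mem hI.isT (φ := fun t => if t = n then X j else X t) (fun t => by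
      show (if t = n then X j else X t : P) ∈ Pp
      split_ifs
      · exact X_mem _
      · exact X_mem _) h1
    have e1 : sb (fun t => if t = n then X j else X t)
        (sb (fun j => if j = i then X i + X n else X j) a) =
        sb (fun t => if t = i then X i + X j else X t) a := by
      have h4 : (sb (fun t => if t = n then X j else X t)).comp
          (sb (fun j => if j = i then X i + X n else X j)) =
          sb (fun s => sb (fun t => if t = n then X j else X t)
            (if s = i then X i + X n else X s)) := hom_ext_X fun s => by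
        rw [AlgHom.comp_apply, sb_X, sb_X]
      have h5 := DFunLike.congr_fun h4 a
      rw [AlgHom.comp_apply] at h5
      rw [h5]
      refine soca_sb (fun s hs => ?_) hz
      have hin : ¬ i = n := by omega
      have hsn : ¬ s = n := by omega
      by_cases hsi : s = i
      · rw [if_pos hsi, if_pos hsi, map_add, sb_X, sb_X, if_neg hin, if_pos rfl]
      · rw [if_neg hsi, if_neg hsi, sb_X, if_neg hsn]
    have e2 : sb (fun t => if t = n then X j else X t) a = a := by
      have h6 : sb (fun t => if t = n then X j else X t) a = sb (fun t => X t) a :=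
        soca_sb (fun s hs => if_neg (by omega)) hz
      rw [h6, soca_id]
    have e3 : sb (fun t => if t = n then X j else X t)
        (sb (fun j => if j = i then X n else X j) a) =
        sb (fun t => X ((fun t => if t = i then j else t) t)) a := by
      have h4 : (sb (fun t => if t = n then X j else X t)).comp
          (sb (fun j => if j = i then X n else X j)) =
          sb (fun s => sb (fun t => if t = n then X j else X t)
            (if s = i then X n else X s)) := hom_ext_X fun s => by
        rw [AlgHom.comp_apply, sb_X, sb_X]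
      have h5 := DFunLike.congr_fun h4 a
      rw [AlgHom.comp_apply] at h5
      rw [h5]
      refine soca_sb (fun s hs => ?_) hz
      have hsn : ¬ s = n := by omega
      show sb (fun t => if t = n then X j else X t) (if s = i then X n else X s) =
        X (if s = i then j else s)
      by_cases hsi : s = i
      · rw [if_pos hsi, if_pos hsi, sb_X, if_pos rfl]
      · rw [if_neg hsi, if_neg hsi, sb_X, if_neg hsn]
    rw [map_sub, map_sub, e1, e2, e3] at h2
    have h7 := TO_zw hp n I hI.isT hI.mul _ h2
    rw [map_sub, map_sub, ZQ_iff.1 hz, soca_wp0 (fun t => if t = i then j else t) (fun w _ hw' => by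
      have h8 := (hw'.2 i hi).1
      rw [List.count_eq_zero_of_not_mem (soca_not_mem hij)] at h8
      omega) hz, sub_zero] at h7
    show wp (zw p n) (sb (fun t => if t = i then X i + X j else X t) a) - wp (zw p n) a ∈ I
    rw [ZQ_iff.1 hz]
    exact h7
  · intro hn2 hk4
    subst hn2
    subst hk4
    have ho : Opr p 2 4 2 4 (fVv p) (vv p) := ovv hp h3
    have hT : TO p (wp (w110 p)) := TO_of_TOp (TOp_w110 hp h3)
    have hb : wp (w110 p) (sb (fun t => if t = 0 then X 0 + X 2 else X t) a) ∈ I := by
      have h1 := hT I hI.isT hI.mul _ (had 0 (by omega))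
      have e1 : wp (w110 p) a = 0 := by
        have h2 := soca_wp0 (Q := w110 p) (fun t => t) (fun w hw hw' => by
          rw [List.map_id'] at hw'
          have h3 := hw.1 2 hw'.2.2.2.2
          omega) hz
        rw [soca_id] at h2
        exact h2
      have e2 : wp (w110 p) (sb (fun j => if j = 0 then X 2 else X j) a) = 0 := by
        rw [soca_ite]
        refine soca_wp0 (fun j => if j = 0 then 2 else j) (fun w _ hw' => ?_) hz
        have h3 := hw'.2.1
        rw [List.count_eq_zero_of_not_mem (soca_not_mem (by omega)), Nat.zero_mod] at h3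
        omega
      rw [map_sub, map_sub, e1, e2, sub_zero, sub_zero] at h1
      exact h1
    have h4 : fVv p a ∈ I := by
      show sb (fun t => if t = 2 then X 1 else X t)
        (wp (w110 p) (sb (fun t => if t = 1 then X 1 + X 0 else X t)
          (wp (w110 p) (sb (fun t => if t = 0 then X 0 + X 2 else X t) a))) -
          wp (w110 p) (sb (fun t => if t = 0 then X 0 + X 2 else X t) a)) ∈ I
      refine sb_mem hI.isT (fun t => ?_) (Submodule.sub_mem _ (hT I hI.isT hI.mul _
        (sb_mem hI.isT (fun t => ?_) hb)) hb)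
      · show (if t = 2 then X 1 else X t : P) ∈ Pp
        split_ifs
        · exact X_mem _
        · exact X_mem _
      · show (if t = 1 then X 1 + X 0 else X t : P) ∈ Pp
        split_ifs
        · exact Submodule.add_mem _ (X_mem _) (X_mem _)
        · exact X_mem _
    have h5 := RR_soc hI ho hf haf (Submodule.mem_sup_left h4)
    rw [vv_apply] at h5
    have h6 := Submodule.neg_mem _ h5
    rw [neg_smul, neg_neg] at h6
    exact h6

theorem soc2 {I A : Submodule ℤ P} (hI : NC 2 I) (hA : IsT A) (hmA : Mul 2 A)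
    {n k : ℕ} (hn : 1 ≤ n) (hd : Od I A (n + (2 - 1) * k)) {a f : P} (ha : a ∈ A) (hz : a ∈ ZQ 2 n)
    (had : Ad I n a) (hf : f ∈ HQ 2 n k) (haf : a - f ∈ I ⊔ Fge (n + (2 - 1) * k + 1)) :
    Soc2 (RR 2 I) n k (zi 2 n f) := by
  have hp : (2 : ℕ).Prime := Nat.prime_two
  have hmA' : Mul ((2 : ℕ) : ℤ) A := hmA
  refine ⟨⟨zi_mem hp.two_le hf, soca_ext hp hI hA hmA' hn hd ha hf haf,
    fun i hi => soca_zer hp hI hA hmA' hd ha hf haf hi⟩, ?_⟩
  intro hk i hi
  obtain ⟨k, rfl⟩ : ∃ k', k = k' + 1 := ⟨k - 1, by omega⟩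
  have ho : Opr 2 n (k + 1) (n + 1) k (fXx 2 n i) (xx i n) := oxx hi
  have hk1 : k + 1 - 1 = k := rfl
  rw [hk1]
  refine RR_soc hI ho hf haf (Submodule.mem_sup_left ?_)
  have h1 := TO_zw hp (n + 1) I hI.isT hI.mul _ (had i hi)
  have e1 : wp (zw 2 (n + 1)) a = 0 := by
    have h2 := soca_wp0 (Q := zw 2 (n + 1)) (fun t => t) (fun w hw hw' => by
      rw [List.map_id'] at hw'
      have h3 := (hw'.2 n (by omega)).1
      have h4 := hw.1 n (List.count_pos_iff.1 h3)
      omega) hz
    rw [soca_id] at h2
    exact h2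
  have e2 : wp (zw 2 (n + 1)) (sb (fun j => if j = i then X n else X j) a) = 0 := by
    rw [soca_ite]
    refine soca_wp0 (fun j => if j = i then n else j) (fun w _ hw' => ?_) hz
    have h3 := (hw'.2 i (by omega)).1
    rw [List.count_eq_zero_of_not_mem (soca_not_mem (by omega))] at h3
    omega
  rw [map_sub, map_sub, e1, e2, sub_zero, sub_zero] at h1
  exact h1

end ADQ
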