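import Pool.Agent.ADQ.Best
import Pool.Agent.ADQ.NfZ
import Pool.Agent.ADQ.Lif

/-!
# ADQ-TPx: existence of a linked pair with leading terms
-/

namespace ADQ

open AD ADN ADC

private theorem tpx_Fge (φ : List ℕ → Prop) {n : ℕ} {f : P} (hf : f ∈ Fge n) : wp φ f ∈ Fge n := by
  unfold Fge at hf
  induction hf using Submodule.span_induction with
  | mem x hx =>
    obtain ⟨v, hv, rfl⟩ := hx
    by_cases h1 : φ v
    · rw [wp_pos h1]
      exact Submodule.subset_span ⟨v, hv, rfl⟩
    · rw [wp_neg h1]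
      exact Submodule.zero_mem _
  | zero => rw [map_zero]; exact Submodule.zero_mem _
  | add x y _ _ hx hy => rw [map_add]; exact Submodule.add_mem _ hx hy
  | smul c x _ hx => rw [map_smul]; exact Submodule.smul_mem _ _ hx

private theorem tpx_sub {d : ℕ} {r : P} (hr : r ∈ Fge d) :
    r - wp (fun w => w.length = d) r ∈ Fge (d + 1) := by
  unfold Fge at hr
  induction hr using Submodule.span_induction with
  | mem x hx =>
    obtain ⟨v, hv, rfl⟩ := hx
    by_cases h1 : v.length = d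
    · rw [wp_pos (φ := fun w => w.length = d) h1, sub_self]
      exact Submodule.zero_mem _
    · rw [wp_neg (φ := fun w => w.length = d) h1, sub_zero]
      exact Submodule.subset_span ⟨v, by omega, rfl⟩
  | zero => rw [map_zero, sub_zero]; exact Submodule.zero_mem _
  | add x y _ _ hx hy =>
    rw [map_add, add_sub_add_comm]
    exact Submodule.add_mem _ hx hy
  | smul c x _ hx =>
    rw [map_smul, ← smul_sub]
    exact Submodule.smul_mem _ _ hx

theorem lead {p : ℕ} (hp : p.Prime) {I A : Submodule ℤ P} (hI : IsT I) (hm : Mul p I) {d n : ℕ}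
    (hd : Od I A d) {a : P} (ha : a ∈ A) (hz : a ∈ ZQ p n) (hna : a ∉ I) :
    ∃ k f, d = n + (p - 1) * k ∧ f ∈ HQ p n k ∧ a - f ∈ I ⊔ Fge (n + (p - 1) * k + 1) := by
  obtain ⟨i, hi, r, hr, e⟩ := Submodule.mem_sup.1 (hd.1 ha)
  have hz' := ZQ_iff.1 hz
  have hi' : wp (zw p n) i ∈ I := TO_zw hp n I hI hm i hi
  have hr' : wp (zw p n) r ∈ Fge d := tpx_Fge _ hr
  have e' : a = wp (zw p n) i + wp (zw p n) r := by rw [← map_add, e, hz']
  have hs := tpx_sub hr'
  have hw : wp (fun w => w.length = d) (wp (zw p n) r) ∈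
      Submodule.span ℤ {f | ∃ w, (w.length = d ∧ zw p n w) ∧ f = mon w} := by
    rw [wp_wp]
    exact wp_mem _ _
  by_cases hk : ∃ k, d = n + (p - 1) * k
  · obtain ⟨k, hk⟩ := hk
    refine ⟨k, wp (fun w => w.length = d) (wp (zw p n) r), hk, ?_, ?_⟩
    · refine Submodule.span_mono ?_ hw
      rintro f ⟨w, ⟨h1, h2⟩, rfl⟩
      exact ⟨w, h2, h1.trans hk, rfl⟩
    · rw [← hk]
      have e2 : a - wp (fun w => w.length = d) (wp (zw p n) r) =
          wp (zw p n) i + (wp (zw p n) r - wp (fun w => w.length = d) (wp (zw p n) r)) := by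
        rw [e', add_sub_assoc]
      rw [e2]
      exact Submodule.add_mem_sup hi' hs
  · exfalso
    have h0 : wp (fun w => w.length = d) (wp (zw p n) r) = 0 := by
      have he : {f : P | ∃ w, (w.length = d ∧ zw p n w) ∧ f = mon w} = ∅ := by
        rw [Set.eq_empty_iff_forall_notMem]
        rintro f ⟨w, ⟨h1, h2⟩, -⟩
        exact hk ⟨_, h1.symm.trans (zw_length hp.two_le h2)⟩
      rw [he, Submodule.span_empty] at hw
      exact (Submodule.mem_bot ℤ).1 hw
    rw [h0, sub_zero] at hs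
    apply hna
    refine hd.2 ⟨ha, ?_⟩
    rw [e']
    exact Submodule.add_mem_sup hi' hs

theorem exists_TP {p : ℕ} {I : Submodule ℤ P} (h : NC p I) (hA : AlmDist I) :
    ∃ (A B C : Submodule ℤ P) (n k l : ℕ) (a b f g : P), TP p I A B C n k l a b f g := by
  obtain ⟨A0, B0, C0, h0⟩ := exists_lk hA h.mul.sq
  obtain ⟨A, B, C, dA, dB, hL, hOA, hOB, hle, hbest⟩ := exists_best h.pp h.mul ⟨A0, B0, C0, h0⟩
  obtain ⟨n, a, b, hn, hza, hzb, hl, hna, hAa, hAb⟩ := nfz h.pp hL
  have hnb : b ∉ I := fun hb => hna ((hL.iff hl).2 hb)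
  obtain ⟨k, f, ek, hf, haf⟩ := lead h.pp h.isT h.mul hOA hl.1 hza hna
  obtain ⟨l, g, el, hg, hbg⟩ := lead h.pp h.isT h.mul hOB hl.2.1 hzb hnb
  subst ek
  subst el
  have h2 := h.pp.two_le
  have hkl : k ≤ l := by
    have h3 : (p - 1) * k ≤ (p - 1) * l := by omega
    exact Nat.le_of_mul_le_mul_left h3 (by omega)
  exact ⟨A, B, C, n, k, l, a, b, f, g,
    { nc := h
      lk := hL
      ln := hl
      n1 := hn
      kl := hkl
      na := hna
      aZ := hza
      bZ := hzb
      aA := hAa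
      bA := hAb
      hf := hf
      hg := hg
      af := haf
      bg := hbg
      oA := hOA
      oB := hOB
      best := hbest }⟩

end ADQ
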