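import Pool.Agent.ADQ.Tool1

/-!
# ADQ-ExpN: explicit forms of the homogeneous polynomials in `n` variables

Span induction over the monomials: the set of polynomials of the given form is closed under sums and scalars.  Degree 1: `m = single i 1`.  Degree 2: `m = single i 2` or `m = single i 1 + single j 1`, `i ≠ j`
(then squarefree).
Degree 3: `m = single i 3`, `single i 2 + single j 1`, or squarefree.  Degree 4: `m = single i 2 + single j 2` with `i ≠ j`, or a generator of `Nt`.  `expS`: a squarefree monomial is `∏ i ∈ m.support, z i`.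
-/

namespace ADQ

open AD ADN ADC

variable {p : ℕ}

private theorem expN_split (m : ℕ →₀ ℕ) (i : ℕ) :
    m = Finsupp.single i (m i) + m.erase i ∧ m.degree = m i + (m.erase i).degree := by
  have h : m = Finsupp.single i (m i) + m.erase i := (Finsupp.single_add_erase i m).symm
  refine ⟨h, ?_⟩
  calc m.degree = (Finsupp.single i (m i) + m.erase i).degree := by rw [← h]
    _ = m i + (m.erase i).degree := by rw [map_add, Finsupp.degree_single]

private theorem expN_zero {m : ℕ →₀ ℕ} (h : m.degree = 0) : m = 0 := by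
  exact (Finsupp.degree_eq_zero_iff m).1 h

private theorem expN_ex {m : ℕ →₀ ℕ} (h : m.degree ≠ 0) : ∃ i, m i ≠ 0 := by
  by_contra hc
  push Not at hc
  apply h
  have : m = 0 := Finsupp.ext hc
  rw [this, map_zero]

private theorem expN_one {m : ℕ →₀ ℕ} (h : m.degree = 1) : ∃ i, m = Finsupp.single i 1 := by
  obtain ⟨i, hi⟩ := expN_ex (m := m) (by omega)
  obtain ⟨h1, h2⟩ := expN_split m i
  have h3 : m i = 1 := by omega
  have h4 : (m.erase i).degree = 0 := by omega
  refine ⟨i, ?_⟩
  rw [expN_zero h4, add_zero, h3] at h1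
  exact h1

private theorem expN_lt {m : ℕ →₀ ℕ} {n i : ℕ} (hm : ∀ i, n ≤ i → m i = 0) (hi : m i ≠ 0) : i < n := by
  by_contra h
  exact hi (hm i (by omega))

theorem expN1 {n : ℕ} {F : Z p} (hF : F ∈ Hh p n 1) : ∃ c : ℕ → ZMod p, F = ∑ i ∈ Finset.range n, c i • z i := by
  unfold Hh at hF
  induction hF using Submodule.span_induction with
  | mem x hx =>
    obtain ⟨m, hm, hk, rfl⟩ := hx
    obtain ⟨i, hi⟩ := expN_one hk
    have hin : i < n := by
      refine expN_lt hm ?_
      rw [hi, Finsupp.single_eq_same]
      exact one_ne_zero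
    refine ⟨fun j => if j = i then 1 else 0, ?_⟩
    rw [Finset.sum_eq_single i]
    · beta_reduce
      rw [if_pos rfl, one_smul, hi, mo_single, pow_one]
    · intro j _ hj
      beta_reduce
      rw [if_neg hj, zero_smul]
    · intro h
      exact absurd (Finset.mem_range.2 hin) h
  | zero => exact ⟨0, by simp only [Pi.zero_apply, zero_smul, Finset.sum_const_zero]⟩
  | add x y _ _ hx hy =>
    obtain ⟨c, hc⟩ := hx
    obtain ⟨c', hc'⟩ := hy
    refine ⟨c + c', ?_⟩
    simp only [Pi.add_apply, add_smul, Finset.sum_add_distrib]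
    rw [← hc, ← hc']
  | smul a x _ hx =>
    obtain ⟨c, hc⟩ := hx
    refine ⟨fun i => a * c i, ?_⟩
    simp only [mul_smul]
    rw [← Finset.smul_sum, ← hc]

/-- the elements of degree 2 in `n` variables -/
theorem expN2 {n : ℕ} {F : Z p} (hF : F ∈ Hh p n 2) :
    ∃ (d : ℕ → ZMod p) (s : Z p), s ∈ Sq p n 2 ∧ F = (∑ i ∈ Finset.range n, d i • z i ^ 2) + s := by
  unfold Hh at hF
  induction hF using Submodule.span_induction with
  | mem x hx =>
    obtain ⟨m, hm, hk, rfl⟩ := hx
    by_cases hs : ∀ i, m i ≤ 1
    · refine ⟨0, mo m, Submodule.subset_span ⟨m, hm, hk, hs, rfl⟩, ?_⟩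
      simp only [Pi.zero_apply, zero_smul, Finset.sum_const_zero, zero_add]
    · push Not at hs
      obtain ⟨i, hi⟩ := hs
      obtain ⟨h1, h2⟩ := expN_split m i
      have h3 : m i = 2 := by omega
      have h4 : (m.erase i).degree = 0 := by omega
      have hin : i < n := expN_lt hm (by omega)
      rw [expN_zero h4, add_zero, h3] at h1
      refine ⟨fun j => if j = i then 1 else 0, 0, Submodule.zero_mem _, ?_⟩
      rw [Finset.sum_eq_single i]
      · beta_reduce
        rw [if_pos rfl, one_smul, add_zero, h1, mo_single]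
      · intro j _ hj
        beta_reduce
        rw [if_neg hj, zero_smul]
      · intro h
        exact absurd (Finset.mem_range.2 hin) h
  | zero =>
    refine ⟨0, 0, Submodule.zero_mem _, ?_⟩
    simp only [Pi.zero_apply, zero_smul, Finset.sum_const_zero, zero_add]
  | add x y _ _ hx hy =>
    obtain ⟨c, s, hs, hc⟩ := hx
    obtain ⟨c', s', hs', hc'⟩ := hy
    refine ⟨c + c', s + s', Submodule.add_mem _ hs hs', ?_⟩
    simp only [Pi.add_apply, add_smul, Finset.sum_add_distrib]
    rw [hc, hc']
    abel
  | smul a x _ hx =>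
    obtain ⟨c, s, hs, hc⟩ := hx
    refine ⟨fun i => a * c i, a • s, Submodule.smul_mem _ a hs, ?_⟩
    simp only [mul_smul]
    rw [← Finset.smul_sum, hc, smul_add]

/-- the elements of degree 3 in `n` variables -/
theorem expN3 {n : ℕ} {F : Z p} (hF : F ∈ Hh p n 3) :
    ∃ (d : ℕ → ZMod p) (e : ℕ → ℕ → ZMod p) (s : Z p), s ∈ Sq p n 3 ∧
      F = (∑ i ∈ Finset.range n, d i • z i ^ 3) +
        (∑ i ∈ Finset.range n, ∑ j ∈ (Finset.range n).erase i, e i j • (z i ^ 2 * z j)) + s := by
  unfold Hh at hF
  induction hF using Submodule.span_induction with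
  | mem x hx =>
    obtain ⟨m, hm, hk, rfl⟩ := hx
    by_cases hs : ∀ i, m i ≤ 1
    · refine ⟨0, 0, mo m, Submodule.subset_span ⟨m, hm, hk, hs, rfl⟩, ?_⟩
      simp only [Pi.zero_apply, zero_smul, Finset.sum_const_zero, zero_add]
    · push Not at hs
      obtain ⟨i, hi⟩ := hs
      obtain ⟨h1, h2⟩ := expN_split m i
      have hin : i < n := expN_lt hm (by omega)
      by_cases h3 : m i = 3
      · have h4 : (m.erase i).degree = 0 := by omega
        rw [expN_zero h4, add_zero, h3] at h1
        refine ⟨fun j => if j = i then 1 else 0, 0, 0, Submodule.zero_mem _, ?_⟩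
        simp only [Pi.zero_apply, zero_smul, Finset.sum_const_zero, add_zero]
        rw [Finset.sum_eq_single i]
        · rw [if_pos rfl, one_smul, h1, mo_single]
        · intro j _ hj
          rw [if_neg hj, zero_smul]
        · intro h
          exact absurd (Finset.mem_range.2 hin) h
      · have h3' : m i = 2 := by omega
        have h4 : (m.erase i).degree = 1 := by omega
        obtain ⟨j, hj⟩ := expN_one h4
        have hji : j ≠ i := by
          intro he
          have h5 : (m.erase i) i = 0 := Finsupp.erase_same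
          rw [hj, he, Finsupp.single_eq_same] at h5
          exact one_ne_zero h5
        have hjn : j < n := by
          refine expN_lt hm ?_
          have h5 : (m.erase i) j = m j := Finsupp.erase_ne hji
          rw [hj, Finsupp.single_eq_same] at h5
          omega
        rw [hj, h3'] at h1
        refine ⟨0, fun a b => if a = i ∧ b = j then 1 else 0, 0, Submodule.zero_mem _, ?_⟩
        simp only [Pi.zero_apply, zero_smul, Finset.sum_const_zero, zero_add, add_zero]
        rw [Finset.sum_eq_single i]
        · rw [Finset.sum_eq_single j]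
          · rw [if_pos ⟨rfl, rfl⟩, one_smul, h1, mo_add, mo_single, mo_single, pow_one]
          · intro b _ hb
            rw [if_neg (fun h => hb h.2), zero_smul]
          · intro h
            exact absurd (Finset.mem_erase.2 ⟨hji, Finset.mem_range.2 hjn⟩) h
        · intro a _ ha
          refine Finset.sum_eq_zero fun b _ => ?_
          rw [if_neg (fun h => ha h.1), zero_smul]
        · intro h
          exact absurd (Finset.mem_range.2 hin) h
  | zero =>
    refine ⟨0, 0, 0, Submodule.zero_mem _, ?_⟩
    simp only [Pi.zero_apply, zero_smul, Finset.sum_const_zero, zero_add]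
  | add x y _ _ hx hy =>
    obtain ⟨c, e, s, hs, hc⟩ := hx
    obtain ⟨c', e', s', hs', hc'⟩ := hy
    refine ⟨c + c', e + e', s + s', Submodule.add_mem _ hs hs', ?_⟩
    simp only [Pi.add_apply, add_smul, Finset.sum_add_distrib]
    rw [hc, hc']
    abel
  | smul a x _ hx =>
    obtain ⟨c, e, s, hs, hc⟩ := hx
    refine ⟨fun i => a * c i, fun i j => a * e i j, a • s, Submodule.smul_mem _ a hs, ?_⟩
    simp only [mul_smul]
    simp only [← Finset.smul_sum]
    rw [hc, smul_add, smul_add]

/-- the elements of degree 4 in `n` variables -/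
theorem expN4 {n : ℕ} {F : Z p} (hF : F ∈ Hh p n 4) :
    ∃ (g : Finset ℕ → ZMod p) (t : Z p), t ∈ Nt p n ∧
      F = (∑ S ∈ (Finset.range n).powersetCard 2, g S • ∏ i ∈ S, z i ^ 2) + t := by
  unfold Hh at hF
  induction hF using Submodule.span_induction with
  | mem x hx =>
    obtain ⟨m, hm, hk, rfl⟩ := hx
    by_cases hs : ∀ i j, i ≠ j → ¬ (m i = 2 ∧ m j = 2)
    · refine ⟨0, mo m, Submodule.subset_span ⟨m, hm, hk, hs, rfl⟩, ?_⟩
      simp only [Pi.zero_apply, zero_smul, Finset.sum_const_zero, zero_add]
    · push Not at hs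
      obtain ⟨i, j, hij, hi, hj⟩ := hs
      obtain ⟨h1, h2⟩ := expN_split m i
      obtain ⟨h3, h4⟩ := expN_split (m.erase i) j
      have h5 : (m.erase i) j = m j := Finsupp.erase_ne hij.symm
      have h6 : ((m.erase i).erase j).degree = 0 := by omega
      rw [expN_zero h6, add_zero, h5, hj] at h3
      rw [h3, hi] at h1
      have hin : i < n := expN_lt hm (by omega)
      have hjn : j < n := expN_lt hm (by omega)
      refine ⟨fun S => if S = {i, j} then 1 else 0, 0, Submodule.zero_mem _, ?_⟩
      rw [Finset.sum_eq_single {i, j}]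
      · beta_reduce
        rw [if_pos rfl, one_smul, Finset.prod_pair hij, add_zero, h1, mo_add, mo_single, mo_single]
      · intro S _ hS
        beta_reduce
        rw [if_neg hS, zero_smul]
      · intro h
        refine absurd (Finset.mem_powersetCard.2 ⟨?_, Finset.card_pair hij⟩) h
        intro a ha
        rw [Finset.mem_insert, Finset.mem_singleton] at ha
        rw [Finset.mem_range]
        rcases ha with rfl | rfl
        · exact hin
        · exact hjn
  | zero =>
    refine ⟨0, 0, Submodule.zero_mem _, ?_⟩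
    simp only [Pi.zero_apply, zero_smul, Finset.sum_const_zero, zero_add]
  | add x y _ _ hx hy =>
    obtain ⟨c, s, hs, hc⟩ := hx
    obtain ⟨c', s', hs', hc'⟩ := hy
    refine ⟨c + c', s + s', Submodule.add_mem _ hs hs', ?_⟩
    simp only [Pi.add_apply, add_smul, Finset.sum_add_distrib]
    rw [hc, hc']
    abel
  | smul a x _ hx =>
    obtain ⟨c, s, hs, hc⟩ := hx
    refine ⟨fun i => a * c i, a • s, Submodule.smul_mem _ a hs, ?_⟩
    simp only [mul_smul]
    rw [← Finset.smul_sum, hc, smul_add]

private theorem expN_sq (m : ℕ →₀ ℕ) (hm : ∀ i, m i ≤ 1) :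
    (mo m : Z p) = ∏ i ∈ m.support, z i ∧ m.support.card = m.degree := by
  have h1 : ∀ i ∈ m.support, m i = 1 := by
    intro i hi
    have h2 := hm i
    have h3 := Finsupp.mem_support_iff.1 hi
    omega
  constructor
  · unfold mo
    rw [MvPolynomial.monomial_eq, Finsupp.prod, MvPolynomial.C_1, one_mul]
    refine Finset.prod_congr rfl fun i hi => ?_
    rw [h1 i hi, pow_one]
  · rw [Finsupp.degree_apply, Finset.card_eq_sum_ones]
    exact Finset.sum_congr rfl fun i hi => (h1 i hi).symm

/-- squarefree elements -/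
theorem expS {n k : ℕ} {F : Z p} (hF : F ∈ Sq p n k) : ∃ c : Finset ℕ → ZMod p,
    F = ∑ S ∈ (Finset.range n).powersetCard k, c S • ∏ i ∈ S, z i := by
  unfold Sq at hF
  induction hF using Submodule.span_induction with
  | mem x hx =>
    obtain ⟨m, hm, hk, hs, rfl⟩ := hx
    obtain ⟨h1, h2⟩ := expN_sq (p := p) m hs
    refine ⟨fun S => if S = m.support then 1 else 0, ?_⟩
    rw [Finset.sum_eq_single m.support]
    · beta_reduce
      rw [if_pos rfl, one_smul, h1]
    · intro S _ hS
      beta_reduce
      rw [if_neg hS, zero_smul]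
    · intro h
      refine absurd (Finset.mem_powersetCard.2 ⟨?_, h2.trans hk⟩) h
      intro a ha
      rw [Finset.mem_range]
      exact expN_lt hm (Finsupp.mem_support_iff.1 ha)
  | zero => exact ⟨0, by simp only [Pi.zero_apply, zero_smul, Finset.sum_const_zero]⟩
  | add x y _ _ hx hy =>
    obtain ⟨c, hc⟩ := hx
    obtain ⟨c', hc'⟩ := hy
    refine ⟨c + c', ?_⟩
    simp only [Pi.add_apply, add_smul, Finset.sum_add_distrib]
    rw [← hc, ← hc']
  | smul a x _ hx =>
    obtain ⟨c, hc⟩ := hx
    refine ⟨fun i => a * c i, ?_⟩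
    simp only [mul_smul]
    rw [← Finset.smul_sum, ← hc]

theorem Sq_Hh {n k : ℕ} : Sq p n k ≤ Hh p n k := by
  refine Submodule.span_mono ?_
  rintro F ⟨m, hm, hk, -, rfl⟩
  exact ⟨m, hm, hk, rfl⟩

end ADQ
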