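import Pool.Agent.ADQ.Tool2

/-!
# ADQ-Tool2c: socle elements and leading pairs

`SocB.mulz`: `ext` and `MS.mulz'`.  `gact`: span induction over `GA`; `ev i (rn σ y) = rn σ (ev (σ⁻¹ i) y)`, `σ` also fixes `n`.  `soc3_GAd`: `dd_rn`.
`LP.nw`: `lk` with `T = id` (`GA_one`).  `rank1`: `u ≡ x E`, `w ≡ y E`: `y u - x w ∈ R`; if `(x, y) ≠ 0` then `u ∈ R` by `lk2` (`T = id`); if `x = y = 0` then `u ∈ R` directly.
`modify`: `T r ∈ R` for `r ∈ R` (`GAs`).  `map`: compositions of elements of `GA` are in `GA`.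
-/

namespace ADQ

open AD ADN ADC

variable {p : ℕ} {R : ℕ → ℕ → Submodule (ZMod p) (Z p)}

private theorem t2c_lt {n : ℕ} {σ : Equiv.Perm ℕ} (h : ∀ i, n ≤ i → σ i = i) {i : ℕ} (hi : i < n) :
    σ i < n := by
  by_contra hc
  have h1 := h (σ i) (not_lt.mp hc)
  have h2 : σ i = i := σ.injective h1
  omega

private theorem t2c_inv {n : ℕ} {σ : Equiv.Perm ℕ} (h : ∀ i, n ≤ i → σ i = i) {i : ℕ} (hi : i < n) :
    σ⁻¹ i < n := by
  refine t2c_lt (fun j hj => ?_) hi
  have h1 := h j hj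
  rw [Equiv.Perm.inv_eq_iff_eq]
  exact h1.symm

private theorem t2c_GA {n : ℕ} {T : Z p →ₗ[ZMod p] Z p} (hT : T ∈ GA p n) : T ∈ GA p (n + 1) := by
  refine (Submodule.span_mono ?_ : GA p n ≤ GA p (n + 1)) hT
  rintro T ⟨σ, hσ, rfl⟩
  exact ⟨σ, fun i hi => hσ i (by omega), rfl⟩

private theorem t2c_ai (σ : Equiv.Perm ℕ) (i : ℕ) : σ (σ⁻¹ i) = i := by simp

private theorem t2c_ia (σ : Equiv.Perm ℕ) {i j : ℕ} (h : σ j = i) : σ⁻¹ i = j := by simp [← h]

private theorem t2c_ev (σ : Equiv.Perm ℕ) (i : ℕ) (F : Z p) : ev i (rn σ F) = rn σ (ev (σ⁻¹ i) F) := by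
  have e : (ev i : Z p →ₐ[ZMod p] Z p).comp (rn σ) = (rn σ).comp (ev (σ⁻¹ i)) := by
    apply MvPolynomial.algHom_ext
    intro j
    rw [AlgHom.comp_apply, AlgHom.comp_apply]
    rw [rn_z, ev_z, ev_z]
    by_cases h : σ j = i
    · rw [if_pos h, if_pos, map_zero]
      exact (t2c_ia σ h).symm
    · rw [if_neg h, if_neg, rn_z]
      intro h'
      apply h
      rw [h', t2c_ai]
  exact DFunLike.congr_fun e F

/-- the socle conditions do not change modulo `R` -/
theorem SocB.mulz (h : MS p R) (hp : 2 ≤ p) {n k i : ℕ} (hi : i < n) {y : Z p} (hy : SocB p R n k y) :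
    z i * y ∈ R n (k + 1) := by
  exact h.mulz' hp hi hy.hy hy.ext

theorem SocB.add (h : MS p R) {n k : ℕ} (hn : 1 ≤ n) {y r : Z p} (hy : SocB p R n k y) (hr : r ∈ R n k) :
    SocB p R n k (y + r) := by
  refine ⟨Submodule.add_mem _ hy.hy (h.le n k hn hr), Submodule.add_mem _ hy.ext (h.up hn (Nat.le_succ n) hr), ?_⟩
  intro i hi
  rw [map_add]
  exact Submodule.add_mem _ (hy.zer i hi) (h.zer n k i hi r hr)

theorem SocB.gact (h : MS p R) {n k : ℕ} (hn : 1 ≤ n) {y : Z p} (hy : SocB p R n k y) {T : Z p →ₗ[ZMod p] Z p}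
    (hT : T ∈ GA p n) : SocB p R n k (T y) := by
  refine ⟨GA_Hh hT hy.hy, h.GAs (n := n + 1) (by omega) T (t2c_GA hT) y hy.ext, ?_⟩
  unfold GA at hT
  induction hT using Submodule.span_induction with
  | mem T hT =>
    obtain ⟨σ, hσ, rfl⟩ := hT
    intro i hi
    show ev i (rn σ y) ∈ R (n + 1) k
    rw [t2c_ev]
    exact h.GAs (n := n + 1) (by omega) _ (GA_rn σ fun j hj => hσ j (by omega)) _ (hy.zer _ (t2c_inv hσ hi))
  | zero =>
    intro i _
    rw [LinearMap.zero_apply, map_zero]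
    exact Submodule.zero_mem _
  | add S T _ _ hS hT =>
    intro i hi
    rw [LinearMap.add_apply, map_add]
    exact Submodule.add_mem _ (hS i hi) (hT i hi)
  | smul c T _ hT =>
    intro i hi
    rw [LinearMap.smul_apply, map_smul]
    exact Submodule.smul_mem _ c (hT i hi)

theorem soc3_dds (h : MS3 p R) {n k : ℕ} (hk : k ≤ 4) {y r : Z p} (hy : Soc3 p R n k y) (hr : r ∈ R n k) :
    ∀ i < n, ∀ j < n, i ≠ j → dd i j (y + r) ∈ R n k := by
  intro i hi j hj hij
  rw [map_add]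
  exact Submodule.add_mem _ (hy.dd hk i hi j hj hij) (h.dd n k i j hk hi hj hij r hr)

theorem soc3_GAd (h : MS3 p R) {n k : ℕ} (hn : 1 ≤ n) (hk : k ≤ 4) {y : Z p} (hy : Soc3 p R n k y)
    {T : Z p →ₗ[ZMod p] Z p} (hT : T ∈ GA p n) : ∀ i < n, ∀ j < n, i ≠ j → dd i j (T y) ∈ R n k := by
  unfold GA at hT
  induction hT using Submodule.span_induction with
  | mem T hT =>
    obtain ⟨σ, hσ, rfl⟩ := hT
    intro i hi j hj hij
    show dd i j (rn σ y) ∈ R n k
    have e : dd i j (rn σ y) = rn σ (dd (σ⁻¹ i) (σ⁻¹ j) y) := by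
      have e1 := dd_rn σ (σ⁻¹ i) (σ⁻¹ j) y
      rw [t2c_ai, t2c_ai] at e1
      exact e1
    rw [e]
    refine h.toMS.GAs hn _ (GA_rn σ hσ) _ (hy.dd hk _ (t2c_inv hσ hi) _ (t2c_inv hσ hj) ?_)
    intro h'
    exact hij (σ⁻¹.injective h')
  | zero =>
    intro i _ j _ _
    rw [LinearMap.zero_apply, map_zero]
    exact Submodule.zero_mem _
  | add S T _ _ hS hT =>
    intro i hi j hj hij
    rw [LinearMap.add_apply, map_add]
    exact Submodule.add_mem _ (hS i hi j hj hij) (hT i hi j hj hij)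
  | smul c T _ hT =>
    intro i hi j hj hij
    rw [LinearMap.smul_apply, map_smul]
    exact Submodule.smul_mem _ c (hT i hi j hj hij)

variable {S : ℕ → ℕ → Z p → Prop} {n k l : ℕ} {u w : Z p}

theorem LP.nw (h : LP p R S n k l u w) : w ∉ R n l := by
  intro hw
  have h1 := (h.lk LinearMap.id (GA_one n)).2 hw
  exact h.nu h1

theorem LP.mono (h : LP p R S n k l u w) {S' : ℕ → ℕ → Z p → Prop} (hS : ∀ n k y, S n k y → S' n k y) :
    LP p R S' n k l u w :=
  { n1 := h.n1, kl := h.kl, su := hS _ _ _ h.su, sw := hS _ _ _ h.sw, nu := h.nu, lk := h.lk, lk2 := h.lk2 }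

theorem LP.Lkd (h : LP p R S n k k u w) : Lkd p n (R n k) u w := h.lk2 rfl

theorem LP.rank1 [Fact p.Prime] (h : LP p R S n k k u w) {E : Z p} {x y : ZMod p} (hu : u - x • E ∈ R n k)
    (hw : w - y • E ∈ R n k) : False := by
  by_cases hxy : x = 0 ∧ y = 0
  · rw [hxy.1, zero_smul, sub_zero] at hu
    exact h.nu hu
  · have h1 : y • u + (-x) • w ∈ R n k := by
      have e : y • u + (-x) • w = y • (u - x • E) - x • (w - y • E) := by
        rw [smul_sub, smul_sub, smul_smul, smul_smul, neg_smul, mul_comm x y]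
        abel
      rw [e]
      exact Submodule.sub_mem _ (Submodule.smul_mem _ y hu) (Submodule.smul_mem _ x hw)
    have h2 := h.lk2 rfl LinearMap.id (GA_one n) y (-x) (fun h' => hxy ⟨neg_eq_zero.1 h'.2, h'.1⟩) h1
    exact h.nu h2.1

theorem LP.modify (h : LP p R S n k l u w) (hm : MS p R) {u' w' : Z p} (hu : u' - u ∈ R n k) (hw : w' - w ∈ R n l)
    {S' : ℕ → ℕ → Z p → Prop} (su : S' n k u') (sw : S' n l w') : LP p R S' n k l u' w' := by
  have hu1 : ∀ T ∈ GA p n, T u' ∈ R n k ↔ T u ∈ R n k := by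
    intro T hT
    have h1 := hm.GAs h.n1 T hT _ hu
    rw [map_sub] at h1
    exact ⟨fun h2 => by simpa using Submodule.sub_mem _ h2 h1, fun h2 => by simpa using Submodule.add_mem _ h1 h2⟩
  have hw1 : ∀ T ∈ GA p n, T w' ∈ R n l ↔ T w ∈ R n l := by
    intro T hT
    have h1 := hm.GAs h.n1 T hT _ hw
    rw [map_sub] at h1
    exact ⟨fun h2 => by simpa using Submodule.sub_mem _ h2 h1, fun h2 => by simpa using Submodule.add_mem _ h1 h2⟩
  refine ⟨h.n1, h.kl, su, sw, fun h1 => h.nu ((hu1 _ (GA_one n)).1 h1), fun T hT => ?_, ?_⟩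
  · rw [hu1 T hT, hw1 T hT]
    exact h.lk T hT
  · intro hkl T hT x y hxy h1
    subst hkl
    rw [hu1 T hT, hw1 T hT]
    refine h.lk2 rfl T hT x y hxy ?_
    have h2 := hm.GAs h.n1 T hT _ hu
    have h3 := hm.GAs h.n1 T hT _ hw
    have e : T (x • u + y • w) = T (x • u' + y • w') - x • T (u' - u) - y • T (w' - w) := by
      simp only [map_add, map_sub, map_smul, smul_sub]
      abel
    rw [e]
    exact Submodule.sub_mem _ (Submodule.sub_mem _ h1 (Submodule.smul_mem _ x h2)) (Submodule.smul_mem _ y h3)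

theorem LP.map (h : LP p R S n k l u w) {T : Z p →ₗ[ZMod p] Z p} (hT : T ∈ GA p n) (hu : T u ∉ R n k)
    {S' : ℕ → ℕ → Z p → Prop} (su : S' n k (T u)) (sw : S' n l (T w)) : LP p R S' n k l (T u) (T w) := by
  refine ⟨h.n1, h.kl, su, sw, hu, fun U hU => h.lk _ (GA_comp hU hT), ?_⟩
  intro hkl U hU x y hxy h1
  refine h.lk2 hkl _ (GA_comp hU hT) x y hxy ?_
  rw [LinearMap.comp_apply, map_add, map_smul, map_smul]
  exact h1

end ADQ
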