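import Pool.Agent.ADQ.Tool2b
import Pool.Agent.ADQ.Tool2c
import Pool.Agent.ADQ.ExpN

/-!
# ADQ-Cub

Notation: `α_j = z_j^3`, `β_jk = z_j^2 z_k`; `N = R n 3 + Sq p n 3`, stable under the permutations.  `y = ∑ d_i α_i + ∑_{i≠j} e_ij β_ij + s` (`expN3`).  `dd i j y = (2 d_i + e_ij) (z_i z_j^2 - z_j^3) + ∑_{k ≠ i,j} e_ik (z_i z_j z_k - z_j^2 z_k)`, so
`Y_ij := (2 d_i + e_ij) (β_ji - α_j) - ∑_{k≠i,j} e_ik β_jk ∈ N`.  `Y_ij - (i k) Y_ij`: `(2 d_i + e_ij + e_ik) (β_ji - β_jk) ∈ N` (1).  `Y_ij - (k l) Y_ij`: `(e_il - e_ik) (β_jk - β_jl) ∈ N` (2) (`i, j, k, l` distinct).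
Case A: `β_jk - β_jl ∈ N` for one triple of distinct indices, so for all.  Then `r = β_jk - β_jl - s' ∈ R n 3`, `s' ∈ Sq`; `dd j k r = (z_j - z_k) z_k^2 - (z_j - z_k) z_k z_l` (`dd` of `s'` is 0) is in `R n 3`: `β_kj - α_k + β_kl ∈ N`: `α_k ≡ 2 β_k` where
`β_k ≡ β_kj` for all `j`.  `Y_ij ≡ - ω_i β_j`, `ω_i = 2 d_i + ∑_{k≠i} e_ik`, `y ≡ ∑ ω_i β_i`.  If some `ω_i ≠ 0` then `β_j ∈ N` for `j ≠ i`, so for all `j`; in any case `y ∈ N`.
Case B: not Case A: by (2) `e_ij = e_i` for all `j ≠ i` (`n ≥ 4`: for `k ≠ l`, both `≠ i`, choose `j` different from `i, k, l`), by (1) `d_i = - e_i`.  Let `F_j = ∑_{k≠j} β_jk - α_j`: `y ≡ ∑ e_i F_i`, `Y_ij = - e_i F_j ∈ N`.  If some `e_i ≠ 0`: all `F_j ∈ N`.  So `y ∈ N`.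
-/

namespace ADQ

open AD ADN ADC

variable {p : ℕ} [Fact p.Prime] {R : ℕ → ℕ → Submodule (ZMod p) (Z p)}

private noncomputable def cu_b (j k : ℕ) : Z p := z j ^ 2 * z k
private noncomputable def cu_a (j : ℕ) : Z p := z j ^ 3

omit [Fact p.Prime] in
private theorem cu_zNV {i j : ℕ} (h : j ≠ i) : (z j : Z p) ∈ NV i := z_NV h

private theorem cu_dd_s {n : ℕ} (i j : ℕ) {s : Z p} (hs : s ∈ Sq p n 3) : dd i j s = 0 := by
  unfold Sq at hs
  induction hs using Submodule.span_induction with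
  | mem x hx =>
    obtain ⟨m, -, -, hm, rfl⟩ := hx
    unfold dd
    rw [lz_mo]
    by_cases h : m i = 0
    · rw [if_pos h]
    · have h1 : m i = 1 := by
        have := hm i
        omega
      rw [if_neg h, h1, Nat.cast_one, sub_self, zero_smul]
  | zero => exact map_zero _
  | add x y _ _ hx hy => rw [map_add, hx, hy, add_zero]
  | smul c x _ hx => rw [map_smul, hx, smul_zero]

private theorem cu_sq {n i j k : ℕ} (hi : i < n) (hj : j < n) (hk : k < n) (hij : i ≠ j) (hik : i ≠ k)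
    (hjk : j ≠ k) : (z i * z j * z k : Z p) ∈ Sq p n 3 := by
  refine Submodule.subset_span ⟨Finsupp.single i 1 + Finsupp.single j 1 + Finsupp.single k 1, ?_, ?_, ?_, ?_⟩
  · intro t ht
    rw [Finsupp.add_apply, Finsupp.add_apply, Finsupp.single_apply, Finsupp.single_apply,
      Finsupp.single_apply, if_neg (by omega), if_neg (by omega), if_neg (by omega)]
    rfl
  · rw [map_add, map_add, Finsupp.degree_single, Finsupp.degree_single, Finsupp.degree_single]
  · intro t
    rw [Finsupp.add_apply, Finsupp.add_apply, Finsupp.single_apply, Finsupp.single_apply,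
      Finsupp.single_apply]
    split_ifs <;> omega
  · rw [mo_add, mo_add, mo_single, mo_single, mo_single, pow_one, pow_one, pow_one]

private theorem cu_dda {i j t : ℕ} : dd i j (z t ^ 3 : Z p) =
    if t = i then (2 : ZMod p) • (cu_b j i - cu_a j) else 0 := by
  by_cases h : t = i
  · subst h
    rw [if_pos rfl]
    have h1 := dd_three (p := p) (i := t) (j := j) (G := 1) (Subalgebra.one_mem _)
    rw [mul_one, mul_one] at h1
    rw [h1]
    congr 1
    unfold cu_b cu_a
    ring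
  · rw [if_neg h]
    exact dd_NV (Subalgebra.pow_mem _ (cu_zNV h) 3)

private theorem cu_ddb {i j a b : ℕ} (hab : a ≠ b) : dd i j (z a ^ 2 * z b : Z p) =
    if a = i then (z i - z j) * z j * z b else 0 := by
  by_cases h : a = i
  · subst h
    rw [if_pos rfl]
    exact dd_two (cu_zNV (Ne.symm hab))
  · rw [if_neg h]
    by_cases hb : b = i
    · subst hb
      rw [mul_comm]
      exact dd_one (Subalgebra.pow_mem _ (cu_zNV h) 2)
    · exact dd_NV (Subalgebra.mul_mem _ (Subalgebra.pow_mem _ (cu_zNV h) 2) (cu_zNV hb))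

omit [Fact p.Prime] in
private theorem cu_rnb (σ : ℕ → ℕ) (j k : ℕ) : rn σ (cu_b j k : Z p) = cu_b (σ j) (σ k) := by
  unfold cu_b
  rw [map_mul, map_pow, rn_z, rn_z]

omit [Fact p.Prime] in
private theorem cu_rna (σ : ℕ → ℕ) (j : ℕ) : rn σ (cu_a j : Z p) = cu_a (σ j) := by
  unfold cu_a
  rw [map_pow, rn_z]

private theorem cu_fix_lt {n : ℕ} {σ : Equiv.Perm ℕ} (h : ∀ i, n ≤ i → σ i = i) (i : ℕ) : σ i < n ↔ i < n := by
  constructor
  · intro h1
    by_contra h2
    rw [h i (by omega)] at h1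
    exact h2 h1
  · intro h1
    by_contra h2
    have h3 := h (σ i) (by omega)
    have h4 := σ.injective h3
    omega

private theorem cu_sqst {n : ℕ} {σ : Equiv.Perm ℕ} (h : ∀ i, n ≤ i → σ i = i) {F : Z p} (hF : F ∈ Sq p n 3) :
    rn σ F ∈ Sq p n 3 := by
  unfold Sq at hF
  induction hF using Submodule.span_induction with
  | mem x hx =>
    obtain ⟨m, hm, hk, h1, rfl⟩ := hx
    rw [rn_mo]
    have e : ∀ i, m.mapDomain σ i = m (σ.symm i) := by
      intro i
      have e1 : i = σ (σ.symm i) := (σ.apply_symm_apply i).symm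
      rw [e1, Finsupp.mapDomain_apply σ.injective, σ.symm_apply_apply]
    refine Submodule.subset_span ⟨m.mapDomain σ, fun i hi => ?_, ?_, fun i => ?_, rfl⟩
    · rw [e]
      have h2 : σ.symm i = i := by
        rw [Equiv.symm_apply_eq]
        exact (h i hi).symm
      rw [h2]
      exact hm i hi
    · rw [Finsupp.degree_mapDomain, hk]
    · rw [e]
      exact h1 _
  | zero => rw [map_zero]; exact Submodule.zero_mem _
  | add x y _ _ hx hy => rw [map_add]; exact Submodule.add_mem _ hx hy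
  | smul c x _ hx => rw [map_smul]; exact Submodule.smul_mem _ _ hx

private theorem cu_swap {n a b : ℕ} (ha : a < n) (hb : b < n) : ∀ i, n ≤ i → Equiv.swap a b i = i := by
  intro i hi
  exact Equiv.swap_apply_of_ne_of_ne (by omega) (by omega)

/-- a permutation that maps a triple to a triple -/
private theorem cu_perm3 {n j k l j' k' l' : ℕ} (hj : j < n) (hk : k < n) (hl : l < n) (hj' : j' < n) (hk' : k' < n)
    (hl' : l' < n) (h1 : j ≠ k) (h2 : j ≠ l) (h3 : k ≠ l) (h1' : j' ≠ k') (h2' : j' ≠ l') (h3' : k' ≠ l') :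
    ∃ σ : Equiv.Perm ℕ, (∀ i, n ≤ i → σ i = i) ∧ σ j = j' ∧ σ k = k' ∧ σ l = l' := by
  obtain ⟨σ₁, f₁, e₁⟩ : ∃ σ₁ : Equiv.Perm ℕ, (∀ i, n ≤ i → σ₁ i = i) ∧ σ₁ j = j' :=
    ⟨Equiv.swap j j', cu_swap hj hj', Equiv.swap_apply_left _ _⟩
  have k1 : σ₁ k ≠ j' := fun h => h1 (σ₁.injective (e₁.trans h.symm))
  have k1n : σ₁ k < n := (cu_fix_lt f₁ k).2 hk
  obtain ⟨σ₂, f₂, e₂, e₂'⟩ : ∃ σ₂ : Equiv.Perm ℕ, (∀ i, n ≤ i → σ₂ i = i) ∧ σ₂ j = j' ∧ σ₂ k = k' := by
    refine ⟨Equiv.swap (σ₁ k) k' * σ₁, fun i hi => ?_, ?_, ?_⟩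
    · rw [Equiv.Perm.mul_apply, f₁ i hi, cu_swap k1n hk' i hi]
    · rw [Equiv.Perm.mul_apply, e₁]
      exact Equiv.swap_apply_of_ne_of_ne (Ne.symm k1) h1'
    · rw [Equiv.Perm.mul_apply]
      exact Equiv.swap_apply_left _ _
  have l1 : σ₂ l ≠ j' := fun h => h2 (σ₂.injective (e₂.trans h.symm))
  have l2 : σ₂ l ≠ k' := fun h => h3 (σ₂.injective (e₂'.trans h.symm))
  have l1n : σ₂ l < n := (cu_fix_lt f₂ l).2 hl
  refine ⟨Equiv.swap (σ₂ l) l' * σ₂, fun i hi => ?_, ?_, ?_, ?_⟩
  · rw [Equiv.Perm.mul_apply, f₂ i hi, cu_swap l1n hl' i hi]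
  · rw [Equiv.Perm.mul_apply, e₂]
    exact Equiv.swap_apply_of_ne_of_ne (Ne.symm l1) h2'
  · rw [Equiv.Perm.mul_apply, e₂']
    exact Equiv.swap_apply_of_ne_of_ne (Ne.symm l2) h3'
  · rw [Equiv.Perm.mul_apply]
    exact Equiv.swap_apply_left _ _

private theorem cu_four (i k l : ℕ) : ∃ j < 4, j ≠ i ∧ j ≠ k ∧ j ≠ l := by
  by_contra h
  push Not at h
  have h0 := h 0 (by norm_num)
  have h1 := h 1 (by norm_num)
  have h2 := h 2 (by norm_num)
  have h3 := h 3 (by norm_num)
  omega

theorem cub (h3 : 3 ≤ p) (h : MS3 p R) {n : ℕ} (hn : 4 ≤ n) {y : Z p} (hy : y ∈ Hh p n 3)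
    (hd : ∀ i < n, ∀ j < n, i ≠ j → dd i j y ∈ R n 3) : ∃ s ∈ Sq p n 3, y - s ∈ R n 3 := by
  have two : (2 : ZMod p) ≠ 0 := by
    intro h2
    have h4 : ((2 : ℕ) : ZMod p) = 0 := by exact_mod_cast h2
    rw [ZMod.natCast_eq_zero_iff] at h4
    have := Nat.le_of_dvd (by norm_num) h4
    omega
  obtain ⟨N, hN⟩ : ∃ N, N = R n 3 ⊔ Sq p n 3 := ⟨_, rfl⟩
  have hRN : R n 3 ≤ N := hN ▸ le_sup_left
  have hSN : Sq p n 3 ≤ N := hN ▸ le_sup_right
  suffices hyN : y ∈ N by
    rw [hN] at hyN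
    obtain ⟨r, hr, s, hs, e⟩ := Submodule.mem_sup.1 hyN
    refine ⟨s, hs, ?_⟩
    rw [← e, add_sub_cancel_right]
    exact hr
  have hNst : ∀ σ : Equiv.Perm ℕ, (∀ i, n ≤ i → σ i = i) → ∀ F ∈ N, rn σ F ∈ N := by
    intro σ hσ F hF
    rw [hN] at hF
    obtain ⟨r, hr, s, hs, rfl⟩ := Submodule.mem_sup.1 hF
    rw [map_add]
    exact N.add_mem (hRN (h.ren n n 3 σ (by omega) (fun i hi => (cu_fix_lt hσ i).2 hi)
      (fun i _ j _ hij => σ.injective hij) r hr)) (hSN (cu_sqst hσ hs))
  obtain ⟨d, e, s, hs, hye⟩ := expN3 hy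
  -- `Y_ij`
  have hY : ∀ i < n, ∀ j < n, i ≠ j → (2 * d i + e i j) • (cu_b j i - cu_a j) -
      ∑ k ∈ ((Finset.range n).erase i).erase j, e i k • (cu_b j k : Z p) ∈ N := by
    intro i hi j hj hij
    have hji : j ∈ (Finset.range n).erase i := Finset.mem_erase.2 ⟨Ne.symm hij, Finset.mem_range.2 hj⟩
    have e1 : dd i j y = d i • ((2 : ZMod p) • (cu_b j i - cu_a j)) +
        ∑ b ∈ (Finset.range n).erase i, e i b • ((z i - z j) * z j * z b) := by
      rw [hye, map_add, map_add, cu_dd_s i j hs, add_zero, map_sum, map_sum]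
      congr 1
      · rw [Finset.sum_eq_single i]
        · rw [map_smul, cu_dda, if_pos rfl]
        · intro t _ hti
          rw [map_smul, cu_dda, if_neg hti, smul_zero]
        · intro h1
          exact absurd (Finset.mem_range.2 hi) h1
      · rw [Finset.sum_eq_single i]
        · rw [map_sum]
          refine Finset.sum_congr rfl fun b hb => ?_
          rw [map_smul, cu_ddb (Ne.symm (Finset.ne_of_mem_erase hb)), if_pos rfl]
        · intro t _ hti
          rw [map_sum]
          refine Finset.sum_eq_zero fun b hb => ?_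
          rw [map_smul, cu_ddb (Ne.symm (Finset.ne_of_mem_erase hb)), if_neg hti, smul_zero]
        · intro h1
          exact absurd (Finset.mem_range.2 hi) h1
    rw [← Finset.add_sum_erase _ _ hji] at e1
    have e2 : ∑ b ∈ ((Finset.range n).erase i).erase j, e i b • ((z i - z j) * z j * z b) =
        ∑ b ∈ ((Finset.range n).erase i).erase j, e i b • (z i * z j * z b) -
        ∑ b ∈ ((Finset.range n).erase i).erase j, e i b • (cu_b j b : Z p) := by
      rw [← Finset.sum_sub_distrib]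
      refine Finset.sum_congr rfl fun b _ => ?_
      rw [← smul_sub]
      congr 1
      unfold cu_b
      ring
    have e3 : (z i - z j) * z j * z j = (cu_b j i - cu_a j : Z p) := by
      unfold cu_b cu_a
      ring
    have e4 : ∑ b ∈ ((Finset.range n).erase i).erase j, e i b • (z i * z j * z b) ∈ N := by
      refine N.sum_mem fun b hb => N.smul_mem _ (hSN ?_)
      rw [Finset.mem_erase, Finset.mem_erase, Finset.mem_range] at hb
      exact cu_sq hi hj hb.2.2 hij (Ne.symm hb.2.1) (Ne.symm hb.1)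
    rw [e2, e3] at e1
    have e5 := N.sub_mem (hRN (hd i hi j hj hij)) e4
    rw [e1] at e5
    have e6 : (2 * d i + e i j) • (cu_b j i - cu_a j) -
        ∑ k ∈ ((Finset.range n).erase i).erase j, e i k • (cu_b j k : Z p) =
        d i • ((2 : ZMod p) • (cu_b j i - cu_a j)) + (e i j • (cu_b j i - cu_a j) +
          (∑ b ∈ ((Finset.range n).erase i).erase j, e i b • (z i * z j * z b) -
          ∑ b ∈ ((Finset.range n).erase i).erase j, e i b • (cu_b j b : Z p))) -
          ∑ b ∈ ((Finset.range n).erase i).erase j, e i b • (z i * z j * z b) := by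
      rw [add_smul, mul_comm 2 (d i), mul_smul]
      abel
    rw [e6]
    exact e5
  -- (1)
  have k1 : ∀ i < n, ∀ j < n, ∀ k < n, i ≠ j → i ≠ k → j ≠ k →
      (2 * d i + e i j + e i k) • (cu_b j i - cu_b j k : Z p) ∈ N := by
    intro i hi j hj k hk hij hik hjk
    have hkE : k ∈ ((Finset.range n).erase i).erase j :=
      Finset.mem_erase.2 ⟨Ne.symm hjk, Finset.mem_erase.2 ⟨Ne.symm hik, Finset.mem_range.2 hk⟩⟩
    have h1 := hY i hi j hj hij
    have h2 := hNst _ (cu_swap hi hk) _ h1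
    have sj : Equiv.swap i k j = j := Equiv.swap_apply_of_ne_of_ne (Ne.symm hij) hjk
    rw [map_sub, map_smul, map_sub, cu_rnb, cu_rna, sj, Equiv.swap_apply_left, map_sum] at h2
    rw [← Finset.add_sum_erase _ _ hkE] at h1 h2
    have e1 : ∑ x ∈ (((Finset.range n).erase i).erase j).erase k,
        rn (Equiv.swap i k) (e i x • (cu_b j x : Z p)) =
        ∑ x ∈ (((Finset.range n).erase i).erase j).erase k, e i x • (cu_b j x : Z p) := by
      refine Finset.sum_congr rfl fun x hx => ?_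
      rw [Finset.mem_erase, Finset.mem_erase, Finset.mem_erase] at hx
      rw [map_smul, cu_rnb, sj, Equiv.swap_apply_of_ne_of_ne hx.2.2.1 hx.1]
    rw [e1, map_smul, cu_rnb, sj, Equiv.swap_apply_right] at h2
    have h4 := N.sub_mem h1 h2
    have e2 : (2 * d i + e i j) • (cu_b j i - cu_a j) - (e i k • cu_b j k +
        ∑ x ∈ (((Finset.range n).erase i).erase j).erase k, e i x • (cu_b j x : Z p)) -
        ((2 * d i + e i j) • (cu_b j k - cu_a j) - (e i k • cu_b j i +
        ∑ x ∈ (((Finset.range n).erase i).erase j).erase k, e i x • (cu_b j x : Z p))) =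
        (2 * d i + e i j + e i k) • (cu_b j i - cu_b j k : Z p) := by
      simp only [add_smul, smul_sub]
      abel
    rw [e2] at h4
    exact h4
  -- (2)
  have k2 : ∀ i < n, ∀ j < n, ∀ k < n, ∀ l < n, i ≠ j → i ≠ k → i ≠ l → j ≠ k → j ≠ l → k ≠ l →
      (e i l - e i k) • (cu_b j k - cu_b j l : Z p) ∈ N := by
    intro i hi j hj k hk l hl hij hik hil hjk hjl hkl
    have hkE : k ∈ ((Finset.range n).erase i).erase j :=
      Finset.mem_erase.2 ⟨Ne.symm hjk, Finset.mem_erase.2 ⟨Ne.symm hik, Finset.mem_range.2 hk⟩⟩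
    have hlE : l ∈ (((Finset.range n).erase i).erase j).erase k :=
      Finset.mem_erase.2 ⟨Ne.symm hkl, Finset.mem_erase.2 ⟨Ne.symm hjl,
        Finset.mem_erase.2 ⟨Ne.symm hil, Finset.mem_range.2 hl⟩⟩⟩
    have h1 := hY i hi j hj hij
    have h2 := hNst _ (cu_swap hk hl) _ h1
    have sj : Equiv.swap k l j = j := Equiv.swap_apply_of_ne_of_ne hjk hjl
    have si : Equiv.swap k l i = i := Equiv.swap_apply_of_ne_of_ne hik hil
    rw [map_sub, map_smul, map_sub, cu_rnb, cu_rna, sj, si, map_sum] at h2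
    rw [← Finset.add_sum_erase _ _ hkE, ← Finset.add_sum_erase _ _ hlE] at h1 h2
    have e1 : ∑ x ∈ ((((Finset.range n).erase i).erase j).erase k).erase l,
        rn (Equiv.swap k l) (e i x • (cu_b j x : Z p)) =
        ∑ x ∈ ((((Finset.range n).erase i).erase j).erase k).erase l, e i x • (cu_b j x : Z p) := by
      refine Finset.sum_congr rfl fun x hx => ?_
      rw [Finset.mem_erase, Finset.mem_erase] at hx
      rw [map_smul, cu_rnb, sj, Equiv.swap_apply_of_ne_of_ne hx.2.1 hx.1]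
    rw [e1, map_smul, map_smul, cu_rnb, cu_rnb, sj, Equiv.swap_apply_left, Equiv.swap_apply_right] at h2
    have h4 := N.sub_mem h2 h1
    have e2 : (2 * d i + e i j) • (cu_b j i - cu_a j) - (e i k • cu_b j l + (e i l • cu_b j k +
        ∑ x ∈ ((((Finset.range n).erase i).erase j).erase k).erase l, e i x • (cu_b j x : Z p))) -
        ((2 * d i + e i j) • (cu_b j i - cu_a j) - (e i k • cu_b j k + (e i l • cu_b j l +
        ∑ x ∈ ((((Finset.range n).erase i).erase j).erase k).erase l, e i x • (cu_b j x : Z p)))) =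
        -((e i l - e i k) • (cu_b j k - cu_b j l : Z p)) := by
      simp only [sub_smul, smul_sub]
      abel
    rw [e2] at h4
    exact N.neg_mem_iff.1 h4
  -- the main part of `y`
  have hyr : (∑ i ∈ Finset.range n, (d i • (cu_a i : Z p) + ∑ j ∈ (Finset.range n).erase i, e i j • cu_b i j)) ∈ N →
      y ∈ N := by
    intro h1
    rw [hye]
    refine N.add_mem ?_ (hSN hs)
    rw [Finset.sum_add_distrib] at h1
    exact h1
  apply hyr
  -- another index
  obtain ⟨κ, hκ⟩ : ∃ κ : ℕ → ℕ, ∀ i, κ i < 4 ∧ κ i ≠ i := by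
    refine ⟨fun i => if i = 0 then 1 else 0, fun i => ?_⟩
    dsimp only
    split_ifs <;> omega
  by_cases hA : ∃ j k l, j < n ∧ k < n ∧ l < n ∧ j ≠ k ∧ j ≠ l ∧ k ≠ l ∧ (cu_b j k - cu_b j l : Z p) ∈ N
  · -- Case A
    obtain ⟨j₀, k₀, l₀, hj₀, hk₀, hl₀, hjk₀, hjl₀, hkl₀, hA⟩ := hA
    have hA' : ∀ j < n, ∀ k < n, ∀ l < n, j ≠ k → j ≠ l → (cu_b j k - cu_b j l : Z p) ∈ N := by
      intro j hj k hk l hl hjk hjl
      by_cases hkl : k = l
      · rw [hkl, sub_self]
        exact N.zero_mem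
      · obtain ⟨σ, hσ, s1, s2, s3⟩ := cu_perm3 hj₀ hk₀ hl₀ hj hk hl hjk₀ hjl₀ hkl₀ hjk hjl hkl
        have h1 := hNst σ hσ _ hA
        rwa [map_sub, cu_rnb, cu_rnb, s1, s2, s3] at h1
    have hal : ∀ k < n, ∀ j < n, k ≠ j → (cu_a k - (2 : ZMod p) • cu_b k j : Z p) ∈ N := by
      intro k hk j hj hkj
      obtain ⟨l, hl4, hlj, hlk, -⟩ := cu_four j k k
      have hl : l < n := by omega
      have h1 := hA' j hj k hk l hl (Ne.symm hkj) (Ne.symm hlj)
      rw [hN] at h1
      obtain ⟨r, hr, s', hs', e1⟩ := Submodule.mem_sup.1 h1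
      have h2 := h.dd n 3 j k (by norm_num) hj hk (Ne.symm hkj) r hr
      have e2 : r = z j ^ 2 * z k - z j ^ 2 * z l - s' := by
        have e3 : r = (r + s') - s' := by abel
        rw [e3, e1]
        rfl
      rw [e2, map_sub, map_sub, cu_dd_s j k hs', sub_zero, cu_ddb (Ne.symm hkj), cu_ddb (Ne.symm hlj),
        if_pos rfl, if_pos rfl] at h2
      have h4 := N.add_mem (hRN h2) (hSN (cu_sq hj hk hl (Ne.symm hkj) (Ne.symm hlj) (Ne.symm hlk)))
      have h5 := hA' k hk l hl j hj (Ne.symm hlk) hkj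
      have e4 : (cu_a k - (2 : ZMod p) • cu_b k j : Z p) = (cu_b k l - cu_b k j) -
          ((z j - z k) * z k * z k - (z j - z k) * z k * z l + z j * z k * z l) := by
        rw [two_smul]
        unfold cu_a cu_b
        ring
      rw [e4]
      exact N.sub_mem h5 h4
    by_cases hb : ∃ j k, j < n ∧ k < n ∧ j ≠ k ∧ (cu_b j k : Z p) ∈ N
    · obtain ⟨j₁, k₁, hj₁, hk₁, hjk₁, hb⟩ := hb
      have hb' : ∀ j < n, ∀ k < n, j ≠ k → (cu_b j k : Z p) ∈ N := by
        intro j hj k hk hjk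
        obtain ⟨l₁, hl₁, a1, a2, -⟩ := cu_four j₁ k₁ k₁
        obtain ⟨l, hl, b1, b2, -⟩ := cu_four j k k
        obtain ⟨σ, hσ, s1, s2, -⟩ := cu_perm3 hj₁ hk₁ (l := l₁) (by omega) hj hk (l' := l) (by omega) hjk₁
          (Ne.symm a1) (Ne.symm a2) hjk (Ne.symm b1) (Ne.symm b2)
        have h1 := hNst σ hσ _ hb
        rwa [cu_rnb, s1, s2] at h1
      refine N.sum_mem fun i hi => N.add_mem (N.smul_mem _ ?_) (N.sum_mem fun j hj => N.smul_mem _ ?_)
      · have hi' := Finset.mem_range.1 hi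
        have h1 := hal i hi' (κ i) (by have := (hκ i).1; omega) (Ne.symm (hκ i).2)
        have h2 := hb' i hi' (κ i) (by have := (hκ i).1; omega) (Ne.symm (hκ i).2)
        have e1 : (cu_a i : Z p) = (cu_a i - (2 : ZMod p) • cu_b i (κ i)) + (2 : ZMod p) • cu_b i (κ i) := by abel
        rw [e1]
        exact N.add_mem h1 (N.smul_mem _ h2)
      · rw [Finset.mem_erase, Finset.mem_range] at hj
        exact hb' i (Finset.mem_range.1 hi) j hj.2 (Ne.symm hj.1)
    · -- all `ω_i` vanish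
      have hω : ∀ i < n, 2 * d i + ∑ k ∈ (Finset.range n).erase i, e i k = 0 := by
        intro i hi
        by_contra hne
        obtain ⟨j, hj4, hji, -, -⟩ := cu_four i i i
        obtain ⟨k, hk4, hkj, -, -⟩ := cu_four j j j
        have hj : j < n := by omega
        have hk : k < n := by omega
        have hjE : j ∈ (Finset.range n).erase i := Finset.mem_erase.2 ⟨hji, Finset.mem_range.2 hj⟩
        apply hb
        refine ⟨j, k, hj, hk, Ne.symm hkj, (N.smul_mem_iff hne).1 ?_⟩
        have h1 := hY i hi j hj (Ne.symm hji)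
        have h2 : (2 * d i + e i j) • ((cu_b j i - cu_b j k) - (cu_a j - (2 : ZMod p) • cu_b j k) : Z p) ∈ N :=
          N.smul_mem _ (N.sub_mem (hA' j hj i hi k hk hji (Ne.symm hkj)) (hal j hj k hk (Ne.symm hkj)))
        have h4 : ∑ x ∈ ((Finset.range n).erase i).erase j, e i x • (cu_b j x - cu_b j k : Z p) ∈ N := by
          refine N.sum_mem fun x hx => N.smul_mem _ ?_
          rw [Finset.mem_erase, Finset.mem_erase, Finset.mem_range] at hx
          exact hA' j hj x hx.2.2 k hk (Ne.symm hx.1) (Ne.symm hkj)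
        have h5 := N.sub_mem (N.sub_mem h2 h4) h1
        have e1 : (2 * d i + e i j) • ((cu_b j i - cu_b j k) - (cu_a j - (2 : ZMod p) • cu_b j k) : Z p) -
            ∑ x ∈ ((Finset.range n).erase i).erase j, e i x • (cu_b j x - cu_b j k : Z p) -
            ((2 * d i + e i j) • (cu_b j i - cu_a j) -
              ∑ x ∈ ((Finset.range n).erase i).erase j, e i x • (cu_b j x : Z p)) =
            (2 * d i + ∑ x ∈ (Finset.range n).erase i, e i x) • (cu_b j k : Z p) := by
          have t2 : ∀ c : ZMod p, ∀ x : Z p, c • ((2 : ZMod p) • x) = c • x + c • x := by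
            intro c x
            rw [two_smul (ZMod p) x, smul_add]
          rw [← Finset.add_sum_erase _ _ hjE]
          simp only [smul_sub, Finset.sum_sub_distrib, ← Finset.sum_smul, add_smul, t2]
          abel
        rw [e1] at h5
        exact h5
      refine N.sum_mem fun i hi => ?_
      have hi' := Finset.mem_range.1 hi
      have hk' : κ i < n := by
        have := (hκ i).1
        omega
      have h1 := N.smul_mem (d i) (hal i hi' (κ i) hk' (Ne.symm (hκ i).2))
      have h2 : ∑ j ∈ (Finset.range n).erase i, e i j • (cu_b i j - cu_b i (κ i) : Z p) ∈ N := by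
        refine N.sum_mem fun j hj => N.smul_mem _ ?_
        rw [Finset.mem_erase, Finset.mem_range] at hj
        exact hA' i hi' j hj.2 (κ i) hk' (Ne.symm hj.1) (Ne.symm (hκ i).2)
      have h4 := N.add_mem h1 h2
      have e1 : d i • (cu_a i : Z p) + ∑ j ∈ (Finset.range n).erase i, e i j • cu_b i j =
          d i • (cu_a i - (2 : ZMod p) • cu_b i (κ i)) +
          ∑ j ∈ (Finset.range n).erase i, e i j • (cu_b i j - cu_b i (κ i) : Z p) +
          (2 * d i + ∑ k ∈ (Finset.range n).erase i, e i k) • (cu_b i (κ i) : Z p) := by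
        simp only [smul_sub, Finset.sum_sub_distrib, ← Finset.sum_smul, add_smul, mul_comm 2 (d i), mul_smul]
        abel
      rw [e1, hω i hi', zero_smul, add_zero]
      exact h4
  · -- Case B
    push Not at hA
    have he : ∀ i < n, ∀ k < n, i ≠ k → e i k = e i (κ i) := by
      intro i hi k hk hik
      have hl : κ i < n := by
        have := (hκ i).1
        omega
      by_cases hkl : k = κ i
      · rw [← hkl]
      · obtain ⟨j, hj4, hji, hjk, hjl⟩ := cu_four i k (κ i)
        have hj : j < n := by omega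
        have h1 := k2 i hi j hj k hk (κ i) hl (Ne.symm hji) hik (Ne.symm (hκ i).2) hjk hjl hkl
        by_contra hne
        refine hA j k (κ i) hj hk hl hjk hjl hkl ((N.smul_mem_iff (sub_ne_zero.2 (Ne.symm hne))).1 h1)
    have hdi : ∀ i < n, d i = - e i (κ i) := by
      intro i hi
      obtain ⟨j, hj4, hji, -, -⟩ := cu_four i i i
      obtain ⟨k, hk4, hki, hkj, -⟩ := cu_four i j j
      have hj : j < n := by omega
      have hk : k < n := by omega
      have h1 := k1 i hi j hj k hk (Ne.symm hji) (Ne.symm hki) (Ne.symm hkj)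
      have h2 : 2 * d i + e i j + e i k = 0 := by
        by_contra hne
        exact hA j i k hj hi hk hji (Ne.symm hkj) (Ne.symm hki) ((N.smul_mem_iff hne).1 h1)
      rw [he i hi j hj (Ne.symm hji), he i hi k hk (Ne.symm hki)] at h2
      have h4 : 2 * (d i + e i (κ i)) = 0 := by
        rw [← h2]
        ring
      rcases mul_eq_zero.1 h4 with h5 | h5
      · exact absurd h5 two
      · exact eq_neg_of_add_eq_zero_left h5
    obtain ⟨F, hF⟩ : ∃ F : ℕ → Z p, ∀ j, F j = (∑ k ∈ (Finset.range n).erase j, cu_b j k) - cu_a j :=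
      ⟨_, fun _ => rfl⟩
    have hFY : ∀ i < n, ∀ j < n, i ≠ j → e i (κ i) • F j ∈ N := by
      intro i hi j hj hij
      have hiE : i ∈ (Finset.range n).erase j := Finset.mem_erase.2 ⟨hij, Finset.mem_range.2 hi⟩
      have h1 := hY i hi j hj hij
      have e1 : (2 * d i + e i j) • (cu_b j i - cu_a j) -
          ∑ k ∈ ((Finset.range n).erase i).erase j, e i k • (cu_b j k : Z p) = - (e i (κ i) • F j) := by
        have e2 : ∑ k ∈ ((Finset.range n).erase i).erase j, e i k • (cu_b j k : Z p) =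
            e i (κ i) • ∑ k ∈ ((Finset.range n).erase j).erase i, (cu_b j k : Z p) := by
          rw [Finset.smul_sum, Finset.erase_right_comm]
          refine Finset.sum_congr rfl fun k hk => ?_
          rw [Finset.mem_erase, Finset.mem_erase, Finset.mem_range] at hk
          rw [he i hi k hk.2.2 (Ne.symm hk.1)]
        rw [e2, hF, ← Finset.add_sum_erase _ _ hiE, he i hi j hj hij, hdi i hi]
        have e3 : 2 * -e i (κ i) + e i (κ i) = - e i (κ i) := by ring
        rw [e3]
        simp only [smul_sub, smul_add, neg_smul]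
        abel
      rw [e1] at h1
      exact N.neg_mem_iff.1 h1
    have hrnF : ∀ σ : Equiv.Perm ℕ, (∀ i, n ≤ i → σ i = i) → ∀ j, rn σ (F j) = F (σ j) := by
      intro σ hσ j
      rw [hF, hF, map_sub, cu_rna, map_sum]
      congr 1
      refine Finset.sum_equiv σ (fun k => ?_) (fun k _ => cu_rnb _ _ _)
      rw [Finset.mem_erase, Finset.mem_erase, Finset.mem_range, Finset.mem_range, cu_fix_lt hσ]
      exact and_congr (not_congr σ.injective.eq_iff.symm) Iff.rfl
    have hsum : ∀ i < n, d i • (cu_a i : Z p) + ∑ j ∈ (Finset.range n).erase i, e i j • cu_b i j =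
        e i (κ i) • F i := by
      intro i hi
      rw [hF, hdi i hi, smul_sub, Finset.smul_sum, neg_smul]
      have e1 : ∑ j ∈ (Finset.range n).erase i, e i j • (cu_b i j : Z p) =
          ∑ j ∈ (Finset.range n).erase i, e i (κ i) • cu_b i j := by
        refine Finset.sum_congr rfl fun j hj => ?_
        rw [Finset.mem_erase, Finset.mem_range] at hj
        rw [he i hi j hj.2 (Ne.symm hj.1)]
      rw [e1]
      abel
    refine N.sum_mem fun i hi => ?_
    have hi' := Finset.mem_range.1 hi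
    rw [hsum i hi']
    by_cases hc : e i (κ i) = 0
    · rw [hc, zero_smul]
      exact N.zero_mem
    · have hk' : κ i < n := by
        have := (hκ i).1
        omega
      have h1 := (N.smul_mem_iff hc).1 (hFY i hi' (κ i) hk' (Ne.symm (hκ i).2))
      have h2 := hNst _ (cu_swap hi' hk') _ h1
      rw [hrnF _ (cu_swap hi' hk'), Equiv.swap_apply_right] at h2
      exact N.smul_mem _ h2

end ADQ
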