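import Pool.Agent.ADQ.P3
import Pool.Agent.ADQ.ExpN

/-!
# ADQ-NoSq: no linked pairs of squarefree polynomials of degree 2 or 3

`expS`: `u = ∑_{|S| = k} a S ∏_{i ∈ S} z_i`, `w` the same with `b`.  `NoSq2`: `n ≤ 1`: `u = 0`.  `n = 2`: one monomial, `Lkd.rank1`.  `n = 3`: `e i = ∏_{j ∈ range 3 ∖ {i}} z_j`, `P1` (`T = rn (swap i j)`).  `n ≥ 4`: `P2` with
`e S = ∏_{i ∈ S} z_i`, `rn σ (e S) = e (S.image σ)`.  `NoSq3`: `n ≤ 2`: `u = 0`.  `n = 3`: one monomial.  `n = 4`: `P1` with `e i = ∏_{j ∈ range 4 ∖ {i}} z_j`.  `n = 5`: `P2` with `e S = ∏_{j ∈ range 5 ∖ S} z_j`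
(complements).  `n ≥ 6`: `P3`.  `N` is stable under `GA`.
-/

namespace ADQ

open AD ADN ADC

private lemma rnP {p : ℕ} (σ : Equiv.Perm ℕ) (S : Finset ℕ) :
    rn σ (∏ i ∈ S, (z i : Z p)) = ∏ i ∈ S.image σ, (z i : Z p) := by
  rw [map_prod, Finset.prod_image (fun a _ b _ h => σ.injective h)]
  exact Finset.prod_congr rfl fun i _ => rn_z _ _

private lemma imR {n : ℕ} (σ : Equiv.Perm ℕ) (hσ : ∀ i, n ≤ i → σ i = i) :
    (Finset.range n).image σ = Finset.range n := by
  refine Finset.eq_of_subset_of_card_le ?_ (le_of_eq (Finset.card_image_of_injective _ σ.injective).symm)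
  intro j hj
  obtain ⟨i, hi, rfl⟩ := Finset.mem_image.1 hj
  rw [Finset.mem_range] at hi ⊢
  by_contra h
  have h1 : σ (σ i) = σ i := hσ _ (not_lt.1 h)
  have h2 : σ i = i := σ.injective h1
  omega

private lemma imC {n : ℕ} (σ : Equiv.Perm ℕ) (hσ : ∀ i, n ≤ i → σ i = i) (S : Finset ℕ) :
    (Finset.range n \ S).image σ = Finset.range n \ S.image σ := by
  rw [Finset.image_sdiff _ _ σ.injective, imR σ hσ]

private lemma rnC {p n : ℕ} (σ : Equiv.Perm ℕ) (hσ : ∀ i, n ≤ i → σ i = i) (S : Finset ℕ) :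
    rn σ (∏ i ∈ Finset.range n \ S, (z i : Z p)) = ∏ i ∈ Finset.range n \ S.image σ, (z i : Z p) := by
  rw [rnP, imC σ hσ]

private lemma sumC {M : Type*} [AddCommMonoid M] {n k l : ℕ} (h : k + l = n) (f : Finset ℕ → M) :
    ∑ S ∈ (Finset.range n).powersetCard k, f S =
      ∑ S ∈ (Finset.range n).powersetCard l, f (Finset.range n \ S) := by
  refine Finset.sum_nbij' (fun S => Finset.range n \ S) (fun S => Finset.range n \ S) ?_ ?_ ?_ ?_ ?_
  · intro S hS
    rw [Finset.mem_powersetCard] at hS ⊢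
    refine ⟨Finset.sdiff_subset, ?_⟩
    rw [Finset.card_sdiff_of_subset hS.1, Finset.card_range]
    omega
  · intro S hS
    rw [Finset.mem_powersetCard] at hS ⊢
    refine ⟨Finset.sdiff_subset, ?_⟩
    rw [Finset.card_sdiff_of_subset hS.1, Finset.card_range]
    omega
  · intro S hS
    rw [Finset.mem_powersetCard] at hS
    exact Finset.sdiff_sdiff_eq_self hS.1
  · intro S hS
    rw [Finset.mem_powersetCard] at hS
    exact Finset.sdiff_sdiff_eq_self hS.1
  · intro S hS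
    rw [Finset.mem_powersetCard] at hS
    rw [Finset.sdiff_sdiff_eq_self hS.1]

private lemma memGA {p n : ℕ} {σ : Equiv.Perm ℕ} (hσ : ∀ i, n ≤ i → σ i = i) :
    (rn σ : Z p →ₐ[ZMod p] Z p).toLinearMap ∈ GA p n :=
  Submodule.subset_span ⟨σ, hσ, rfl⟩

private lemma swf {n i j : ℕ} (hi : i < n) (hj : j < n) : ∀ k, n ≤ k → Equiv.swap i j k = k :=
  fun k hk => Equiv.swap_apply_of_ne_of_ne (by omega) (by omega)

/-- one monomial -/
private lemma one {p : ℕ} [Fact p.Prime] {k : ℕ} {N : Submodule (ZMod p) (Z p)} {u w : Z p}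
    {a b : Finset ℕ → ZMod p}
    (ha : u = ∑ S ∈ (Finset.range k).powersetCard k, a S • ∏ i ∈ S, (z i : Z p))
    (hb : w = ∑ S ∈ (Finset.range k).powersetCard k, b S • ∏ i ∈ S, (z i : Z p))
    (hl : Lkd p k N u w) : u ∈ N := by
  have h : (Finset.range k).powersetCard k = {Finset.range k} := by
    have h1 := Finset.powersetCard_self (Finset.range k)
    rwa [Finset.card_range] at h1
  rw [h, Finset.sum_singleton] at ha hb
  refine hl.rank1 (E := ∏ i ∈ Finset.range k, (z i : Z p)) (x := a (Finset.range k))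
    (y := b (Finset.range k)) ?_ ?_
  · rw [ha, sub_self]
    exact N.zero_mem
  · rw [hb, sub_self]
    exact N.zero_mem

/-- all monomials but one variable -/
private lemma two {p : ℕ} [Fact p.Prime] {n k : ℕ} (hnk : k + 1 = n) {N : Submodule (ZMod p) (Z p)}
    (hN : Stb p n N) {u w : Z p} {a b : Finset ℕ → ZMod p}
    (ha : u = ∑ S ∈ (Finset.range n).powersetCard k, a S • ∏ i ∈ S, (z i : Z p))
    (hb : w = ∑ S ∈ (Finset.range n).powersetCard k, b S • ∏ i ∈ S, (z i : Z p))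
    (hl : Lkd p n N u w) : u ∈ N := by
  rw [sumC hnk, Finset.powersetCard_one, Finset.sum_map] at ha hb
  refine P1 hN (e := fun i => ∏ j ∈ Finset.range n \ {i}, (z j : Z p))
    (a := fun i => a (Finset.range n \ {i})) (b := fun i => b (Finset.range n \ {i})) ?_ ?_ ?_ hl
  · intro i hi j hj hij
    have hT := swf hi hj
    have hr : ∀ k, rn (Equiv.swap i j) (∏ t ∈ Finset.range n \ {k}, (z t : Z p)) =
        ∏ t ∈ Finset.range n \ {Equiv.swap i j k}, (z t : Z p) := by
      intro k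
      rw [rnC _ hT, Finset.image_singleton]
    refine ⟨(rn (Equiv.swap i j)).toLinearMap, memGA hT, ?_, ?_, ?_⟩
    · change rn (Equiv.swap i j) (∏ t ∈ Finset.range n \ {i}, (z t : Z p)) - _ ∈ N
      rw [hr, Equiv.swap_apply_left, sub_self]
      exact N.zero_mem
    · change rn (Equiv.swap i j) (∏ t ∈ Finset.range n \ {j}, (z t : Z p)) - _ ∈ N
      rw [hr, Equiv.swap_apply_right, sub_self]
      exact N.zero_mem
    · intro k _ hki hkj
      change rn (Equiv.swap i j) (∏ t ∈ Finset.range n \ {k}, (z t : Z p)) - _ ∈ N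
      rw [hr, Equiv.swap_apply_of_ne_of_ne hki hkj, sub_self]
      exact N.zero_mem
  · rw [ha]
    simp only [Function.Embedding.coeFn_mk, sub_self]
    exact N.zero_mem
  · rw [hb]
    simp only [Function.Embedding.coeFn_mk, sub_self]
    exact N.zero_mem

theorem NoSq2 {p : ℕ} [Fact p.Prime] (h3 : 3 ≤ p) {n : ℕ} {N : Submodule (ZMod p) (Z p)} (hN : Stb p n N)
    {u w : Z p} (hu : u ∈ Sq p n 2) (hw : w ∈ Sq p n 2) (hl : Lkd p n N u w) : u ∈ N := by
  obtain ⟨a, ha⟩ := expS hu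
  obtain ⟨b, hb⟩ := expS hw
  rcases (by omega : n < 2 ∨ n = 2 ∨ n = 3 ∨ 4 ≤ n) with h | h | h | h
  · rw [Finset.powersetCard_eq_empty.2 (by rw [Finset.card_range]; exact h), Finset.sum_empty] at ha
    rw [ha]
    exact N.zero_mem
  · subst h
    exact one ha hb hl
  · subst h
    exact two rfl hN ha hb hl
  · refine P2 h3 h hN (e := fun S => ∏ i ∈ S, (z i : Z p)) ?_ (a := a) (b := b) ?_ ?_ hl
    · intro σ _ S _
      rw [rnP, sub_self]
      exact N.zero_mem
    · rw [← ha, sub_self]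
      exact N.zero_mem
    · rw [← hb, sub_self]
      exact N.zero_mem

theorem NoSq3 {p : ℕ} [Fact p.Prime] (h5 : 5 ≤ p) {n : ℕ} {N : Submodule (ZMod p) (Z p)} (hN : Stb p n N)
    {u w : Z p} (hu : u ∈ Sq p n 3) (hw : w ∈ Sq p n 3) (hl : Lkd p n N u w) : u ∈ N := by
  obtain ⟨a, ha⟩ := expS hu
  obtain ⟨b, hb⟩ := expS hw
  rcases (by omega : n < 3 ∨ n = 3 ∨ n = 4 ∨ n = 5 ∨ 6 ≤ n) with h | h | h | h | h
  · rw [Finset.powersetCard_eq_empty.2 (by rw [Finset.card_range]; exact h), Finset.sum_empty] at ha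
    rw [ha]
    exact N.zero_mem
  · subst h
    exact one ha hb hl
  · subst h
    exact two rfl hN ha hb hl
  · subst h
    rw [sumC (rfl : 3 + 2 = 5)] at ha hb
    refine P2 (by omega) (by omega) hN (e := fun S => ∏ i ∈ Finset.range 5 \ S, (z i : Z p)) ?_
      (a := fun S => a (Finset.range 5 \ S)) (b := fun S => b (Finset.range 5 \ S)) ?_ ?_ hl
    · intro σ hσ S _
      rw [rnC σ hσ, sub_self]
      exact N.zero_mem
    · rw [← ha, sub_self]
      exact N.zero_mem
    · rw [← hb, sub_self]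
      exact N.zero_mem
  · refine P3 h5 h hN (e := fun S => ∏ i ∈ S, (z i : Z p)) ?_ (a := a) (b := b) ?_ ?_ hl
    · intro σ _ S _
      rw [rnP, sub_self]
      exact N.zero_mem
    · rw [← ha, sub_self]
      exact N.zero_mem
    · rw [← hb, sub_self]
      exact N.zero_mem

/-- degree 1 -/
theorem NoLin {p : ℕ} [Fact p.Prime] {n : ℕ} {N : Submodule (ZMod p) (Z p)} (hN : Stb p n N)
    {u w : Z p} (hu : u ∈ Hh p n 1) (hw : w ∈ Hh p n 1) (hl : Lkd p n N u w) : u ∈ N := by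
  obtain ⟨a, ha⟩ := expN1 hu
  obtain ⟨b, hb⟩ := expN1 hw
  refine P1 hN (e := fun i => (z i : Z p)) (a := a) (b := b) ?_ ?_ ?_ hl
  · intro i hi j hj hij
    refine ⟨(rn (Equiv.swap i j)).toLinearMap, memGA (swf hi hj), ?_, ?_, ?_⟩
    · change rn (Equiv.swap i j) (z i : Z p) - _ ∈ N
      rw [rn_z, Equiv.swap_apply_left, sub_self]
      exact N.zero_mem
    · change rn (Equiv.swap i j) (z j : Z p) - _ ∈ N
      rw [rn_z, Equiv.swap_apply_right, sub_self]
      exact N.zero_mem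
    · intro k _ hki hkj
      change rn (Equiv.swap i j) (z k : Z p) - _ ∈ N
      rw [rn_z, Equiv.swap_apply_of_ne_of_ne hki hkj, sub_self]
      exact N.zero_mem
  · rw [← ha, sub_self]
    exact N.zero_mem
  · rw [← hb, sub_self]
    exact N.zero_mem

end ADQ
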