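import Pool.Agent.ADQ.Sqt
import Pool.Agent.ADQ.NoSq

/-!
# ADQ-NoLP2

`n = 1`: `exp1k` and `noLP_n1` is not needed, see below.  `u = ∑ d_i z_i^2 + s` (`expN2`), `dd i j u = d_i (z_i - z_j) z_j` (`dd_two`, the other terms are in `NV i` or linear in `z_i`; `s` is squarefree).
Case A: `d_i ≠ 0` for some `i < n`, for `u`, or for `w` if `l = 2`; assume `n ≥ 2` (for `n = 1`: `Hh p 1 2` is spanned by `z_0^2`: `l = 2`: `rank1`; `l ≥ 3`: `SocB.mulz`, `Kup`).  Then `(z_i - z_j) z_j ∈ R n 2` for all `i ≠ j < n`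
(`Soc3.dd`, `ren`), so all monomials of degree 2 are congruent modulo `R n 2`: every `F ∈ Hh p n 2` is `≡ s z_0^2`.  `l = 2`: `LP.rank1`.  `l ≥ 3`: `u ≡ s z_0^2`, `s ≠ 0`; `u ∈ R (n+1) 2` (`ext`), so `z_0^2 ∈ R (n+1) 2`, and
`z_0 z_1 ∈ R (n+1) 2`, `K2`, `Kup`: `w ∈ R`.  Case B: `u ∈ Sq p n 2`, `u ≠ 0`: `sqt`: `z_0 z_1 ∈ R (n+2) 2`, `K2`, `Kup`: `l = 2`, then `w ∈ Sq p n 2` too, `NoSq2` (`GAs`, `LP.Lkd`).
-/

namespace ADQ

open AD ADN ADC

variable {p : ℕ} [Fact p.Prime] {R : ℕ → ℕ → Submodule (ZMod p) (Z p)}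

private theorem NoLP2_perm {n i j a b : ℕ} (hi : i < n) (hj : j < n) (hij : i ≠ j) (ha : a < n) (hb : b < n)
    (hab : a ≠ b) : ∃ σ : Equiv.Perm ℕ, (∀ k, n ≤ k → σ k = k) ∧ σ i = a ∧ σ j = b := by
  have h1 : Equiv.swap i a j < n := by
    rw [Equiv.swap_apply_def]
    split_ifs <;> assumption
  have h2 : a ≠ Equiv.swap i a j := by
    intro h
    have h3 : Equiv.swap i a i = Equiv.swap i a j := by rw [Equiv.swap_apply_left]; exact h
    exact hij ((Equiv.swap i a).injective h3)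
  refine ⟨Equiv.swap (Equiv.swap i a j) b * Equiv.swap i a, fun k hk => ?_, ?_, ?_⟩
  · have k1 : Equiv.swap i a k = k := Equiv.swap_apply_of_ne_of_ne (by omega) (by omega)
    rw [Equiv.Perm.mul_apply, k1]
    exact Equiv.swap_apply_of_ne_of_ne (by omega) (by omega)
  · rw [Equiv.Perm.mul_apply, Equiv.swap_apply_left, Equiv.swap_apply_of_ne_of_ne h2 hab]
  · rw [Equiv.Perm.mul_apply, Equiv.swap_apply_left]

private theorem NoLP2_ddSq {n k i j : ℕ} {s : Z p} (hs : s ∈ Sq p n k) : dd i j s = 0 := by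
  obtain ⟨c, rfl⟩ := expS hs
  rw [map_sum]
  refine Finset.sum_eq_zero fun S _ => ?_
  rw [map_smul]
  by_cases hi : i ∈ S
  · rw [← Finset.mul_prod_erase S _ hi, dd_one, smul_zero]
    exact Subalgebra.prod_mem _ fun t ht => z_NV (Finset.ne_of_mem_erase ht)
  · rw [dd_NV, smul_zero]
    exact Subalgebra.prod_mem _ fun t ht => z_NV (fun h => hi (h ▸ ht))

private theorem NoLP2_dd {n i j : ℕ} (hi : i < n) (d : ℕ → ZMod p) {s : Z p} (hs : s ∈ Sq p n 2) :
    dd i j ((∑ k ∈ Finset.range n, d k • z k ^ 2) + s) = d i • ((z i - z j) * z j) := by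
  rw [map_add, NoLP2_ddSq hs, add_zero, map_sum, Finset.sum_eq_single i]
  · rw [map_smul]
    have h1 : (z i ^ 2 : Z p) = z i ^ 2 * 1 := (mul_one _).symm
    rw [h1, dd_two (Subalgebra.one_mem _), mul_one]
  · intro k _ hk
    rw [map_smul, dd_NV (Subalgebra.pow_mem _ (z_NV hk) 2), smul_zero]
  · intro h
    exact absurd (Finset.mem_range.2 hi) h

private theorem NoLP2_all (h : MS p R) {n i j : ℕ} (hi : i < n) (hj : j < n) (hij : i ≠ j)
    (hr : (z i - z j) * z j ∈ R n 2) {a b : ℕ} (ha : a < n) (hb : b < n) (hab : a ≠ b) :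
    (z a - z b) * z b ∈ R n 2 := by
  obtain ⟨σ, h1, h2, h3⟩ := NoLP2_perm hi hj hij ha hb hab
  have h4 := h.GAs (k := 2) (by omega : 1 ≤ n) _ (GA_rn σ h1) _ hr
  have h5 : (rn σ : Z p →ₐ[ZMod p] Z p).toLinearMap ((z i - z j) * z j) = (z a - z b) * z b := by
    rw [AlgHom.toLinearMap_apply, map_mul, map_sub, rn_z, rn_z, h2, h3]
  rw [h5] at h4
  exact h4

private theorem NoLP2_cong (h : MS p R) {n i j : ℕ} (hi : i < n) (hj : j < n) (hij : i ≠ j)
    (hr : (z i - z j) * z j ∈ R n 2) {F : Z p} (hF : F ∈ Hh p n 2) : ∃ c : ZMod p, F - c • z 0 ^ 2 ∈ R n 2 := by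
  have hal : ∀ {a b : ℕ}, a < n → b < n → a ≠ b → (z a - z b) * z b ∈ R n 2 :=
    fun ha hb hab => NoLP2_all h hi hj hij hr ha hb hab
  have hsq : ∀ a < n, (z a ^ 2 : Z p) ∈ R n 2 ⊔ Submodule.span (ZMod p) {z 0 ^ 2} := by
    intro a ha
    by_cases h0 : a = 0
    · rw [h0]
      exact Submodule.mem_sup_right (Submodule.mem_span_singleton_self _)
    · have e : (z a ^ 2 : Z p) = ((z a - z 0) * z 0 - (z 0 - z a) * z a) + z 0 ^ 2 := by ring
      rw [e]
      exact Submodule.add_mem _ (Submodule.mem_sup_left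
        (Submodule.sub_mem _ (hal ha (by omega) h0) (hal (by omega) ha (Ne.symm h0))))
        (Submodule.mem_sup_right (Submodule.mem_span_singleton_self _))
  have hmem : F ∈ R n 2 ⊔ Submodule.span (ZMod p) {z 0 ^ 2} := by
    obtain ⟨d, s, hs, rfl⟩ := expN2 hF
    refine Submodule.add_mem _ (Submodule.sum_mem _ fun a ha => Submodule.smul_mem _ _
      (hsq a (Finset.mem_range.1 ha))) ?_
    obtain ⟨c, rfl⟩ := expS hs
    refine Submodule.sum_mem _ fun S hS => Submodule.smul_mem _ _ ?_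
    obtain ⟨hS1, hS2⟩ := Finset.mem_powersetCard.1 hS
    obtain ⟨a, b, hab, rfl⟩ := Finset.card_eq_two.1 hS2
    have ha : a < n := Finset.mem_range.1 (hS1 (Finset.mem_insert_self _ _))
    have hb : b < n := Finset.mem_range.1 (hS1 (Finset.mem_insert_of_mem (Finset.mem_singleton_self _)))
    rw [Finset.prod_pair hab]
    have e : (z a * z b : Z p) = (z a - z b) * z b + z b ^ 2 := by ring
    rw [e]
    exact Submodule.add_mem _ (Submodule.mem_sup_left (hal ha hb hab)) (hsq b hb)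
  obtain ⟨r, hr', t, ht, rfl⟩ := Submodule.mem_sup.1 hmem
  obtain ⟨c, rfl⟩ := Submodule.mem_span_singleton.1 ht
  exact ⟨c, by rw [add_sub_cancel_right]; exact hr'⟩

private theorem NoLP2_A (h3 : 3 ≤ p) (h : MS p R) {n l : ℕ} {u w : Z p} (hl : LP p R (Soc3 p R) n 2 l u w)
    {i j : ℕ} (hi : i < n) (hj : j < n) (hij : i ≠ j) (hr : (z i - z j) * z j ∈ R n 2) : False := by
  obtain ⟨x, hx⟩ := NoLP2_cong h hi hj hij hr hl.su.hy
  rcases Nat.lt_or_ge 2 l with h2 | h2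
  · have hn : 1 ≤ n := hl.n1
    have hx0 : x ≠ 0 := by
      rintro rfl
      rw [zero_smul, sub_zero] at hx
      exact hl.nu hx
    have e1 : x • (z 0 ^ 2 : Z p) ∈ R (n + 1) 2 := by
      have e : x • (z 0 ^ 2 : Z p) = u - (u - x • z 0 ^ 2) := by abel
      rw [e]
      exact Submodule.sub_mem _ hl.su.ext (h.up hn (Nat.le_succ n) hx)
    have e2 : (z 0 ^ 2 : Z p) ∈ R (n + 1) 2 := by
      have e := Submodule.smul_mem _ x⁻¹ e1
      rw [smul_smul, inv_mul_cancel₀ hx0, one_smul] at e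
      exact e
    have e3 : (z 0 * z 1 : Z p) ∈ R (n + 1) 2 := by
      have e : (z 0 * z 1 : Z p) = (z 1 - z 0) * z 0 + z 0 ^ 2 := by ring
      rw [e]
      exact Submodule.add_mem _ (h.up hn (Nat.le_succ n)
        (NoLP2_all h hi hj hij hr (by omega) (by omega) (by omega))) e2
    have e4 := h.K2 h3 hn (h.up (by omega) (by omega : n + 1 ≤ n + 2) e3)
    exact hl.nw (h.Kup (by omega) hn e4 h2 hl.sw.hy)
  · have h4 : l = 2 := le_antisymm h2 hl.kl
    subst h4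
    obtain ⟨y, hy⟩ := NoLP2_cong h hi hj hij hr hl.sw.hy
    exact hl.rank1 hx hy

private theorem NoLP2_one {F : Z p} (hF : F ∈ Hh p 1 2) : ∃ c : ZMod p, F = c • z 0 ^ 2 := by
  obtain ⟨d, s, hs, rfl⟩ := expN2 hF
  obtain ⟨c, rfl⟩ := expS hs
  refine ⟨d 0, ?_⟩
  have e : (Finset.range 1).powersetCard 2 = ∅ := Finset.powersetCard_eq_empty.2 (by simp)
  rw [e, Finset.sum_empty, add_zero, Finset.sum_range_one]

private theorem NoLP2_1 (h3 : 3 ≤ p) (h : MS p R) {l : ℕ} {u w : Z p} (hl : LP p R (Soc3 p R) 1 2 l u w) :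
    False := by
  obtain ⟨x, hx⟩ := NoLP2_one hl.su.hy
  rcases Nat.lt_or_ge 2 l with h2 | h2
  · have hx0 : x ≠ 0 := by
      rintro rfl
      rw [zero_smul] at hx
      exact hl.nu (hx ▸ Submodule.zero_mem _)
    have e1 : (z 0 * u : Z p) ∈ R 1 3 := hl.su.toSocB.mulz h (by omega) (by omega)
    have e2 : (z 0 ^ 3 : Z p) ∈ R 1 3 := by
      have e := Submodule.smul_mem _ x⁻¹ e1
      have e' : x⁻¹ • (z 0 * u : Z p) = z 0 ^ 3 := by
        rw [hx, mul_smul_comm, smul_smul, inv_mul_cancel₀ hx0, one_smul]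
        ring
      rw [e'] at e
      exact e
    have e3 : Hh p 1 3 ≤ R 1 3 := by
      rw [Hh_succ]
      refine Submodule.span_le.2 ?_
      rintro F ⟨i, G, hi, hG, rfl⟩
      obtain ⟨c, rfl⟩ := NoLP2_one hG
      have hi0 : i = 0 := by omega
      subst hi0
      have e : (z 0 * c • z 0 ^ 2 : Z p) = c • z 0 ^ 3 := by
        rw [mul_smul_comm]
        congr 1
        ring
      rw [e]
      exact Submodule.smul_mem _ c e2
    exact hl.nw (h.Kup (by omega) le_rfl e3 h2 hl.sw.hy)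
  · have h4 : l = 2 := le_antisymm h2 hl.kl
    subst h4
    obtain ⟨y, hy⟩ := NoLP2_one hl.sw.hy
    refine hl.rank1 (E := z 0 ^ 2) (x := x) (y := y) ?_ ?_
    · rw [hx, sub_self]
      exact Submodule.zero_mem _
    · rw [hy, sub_self]
      exact Submodule.zero_mem _

/-- either some `(z_i - z_j) z_j ∈ R`, or `y` is squarefree -/
private theorem NoLP2_dich {n : ℕ} (hn : 2 ≤ n) {y : Z p} (hy : Soc3 p R n 2 y) :
    (∃ i j, i < n ∧ j < n ∧ i ≠ j ∧ (z i - z j) * z j ∈ R n 2) ∨ y ∈ Sq p n 2 := by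
  obtain ⟨d, s, hs, rfl⟩ := expN2 hy.hy
  by_cases hd : ∀ i < n, d i = 0
  · right
    have e : (∑ i ∈ Finset.range n, d i • (z i ^ 2 : Z p)) = 0 :=
      Finset.sum_eq_zero fun i hi => by rw [hd i (Finset.mem_range.1 hi), zero_smul]
    rw [e, zero_add]
    exact hs
  · left
    push Not at hd
    obtain ⟨i, hi, hdi⟩ := hd
    obtain ⟨j, hj, hij⟩ : ∃ j, j < n ∧ i ≠ j := by
      by_cases h0 : i = 0
      · exact ⟨1, by omega, by omega⟩
      · exact ⟨0, by omega, h0⟩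
    refine ⟨i, j, hi, hj, hij, ?_⟩
    have e := hy.dd (by omega) i hi j hj hij
    rw [NoLP2_dd hi d hs] at e
    have e' := Submodule.smul_mem _ (d i)⁻¹ e
    rw [smul_smul, inv_mul_cancel₀ hdi, one_smul] at e'
    exact e'

theorem noLP_2 (h3 : 3 ≤ p) (h : MS3 p R) {n l : ℕ} {u w : Z p} (hl : LP p R (Soc3 p R) n 2 l u w) : False := by
  have hn : 1 ≤ n := hl.n1
  rcases Nat.lt_or_ge 1 n with hn2 | hn2
  · rcases NoLP2_dich hn2 hl.su with ⟨i, j, hi, hj, hij, hr⟩ | hu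
    · exact NoLP2_A h3 h.toMS hl hi hj hij hr
    · have hu0 : u ≠ 0 := fun h0 => hl.nu (h0 ▸ Submodule.zero_mem _)
      have e1 := sqt h.toMS hn (by omega) hu hu0 hl.su.toSocB
      have e2 : (∏ i ∈ Finset.range 2, (z i : Z p)) = z 0 * z 1 := by
        rw [Finset.prod_range_succ, Finset.prod_range_one]
      rw [e2] at e1
      have e3 := h.toMS.K2 h3 hn e1
      rcases Nat.lt_or_ge 2 l with h2 | h2
      · exact hl.nw (h.toMS.Kup (by omega) hn e3 h2 hl.sw.hy)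
      · have h4 : l = 2 := le_antisymm h2 hl.kl
        subst h4
        rcases NoLP2_dich hn2 hl.sw with ⟨i, j, hi, hj, hij, hr⟩ | hw
        · exact NoLP2_A h3 h.toMS hl hi hj hij hr
        · exact hl.nu (NoSq2 h3 (h.toMS.GAs hn) hu hw hl.Lkd)
  · have h1 : n = 1 := le_antisymm hn2 hn
    subst h1
    exact NoLP2_1 h3 h.toMS hl

end ADQ
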