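import Pool.Agent.ADQ.Tool1b

/-!
# ADQ-ExpD: explicit forms of the homogeneous polynomials

`Hh p n k` is the span of the monomials of degree `k` in `z_0..z_{n-1}`: list them (for `n = 3`, `k = 4`: `m 0 + m 1 + m 2 = 4`, 15 cases, `interval_cases`; or use `Hh_succ` repeatedly), the set of the
polynomials of the form `E34 a b g d` is closed under sums and scalars.
`dd01_E34` and `dd01_E33`: write `E34` as `z_0^4 * _ + z_0^3 * _ + z_0^2 * _ + z_0 * _ + _` and use `dd_four, dd_three, dd_two, dd_one, dd_NV`.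
`z_mul_...`: `ring`.
-/

namespace ADQ

open AD ADN ADC

variable {p : ℕ}

private theorem mo2 {k : ℕ} {m : ℕ →₀ ℕ} (hm : ∀ i, 2 ≤ i → m i = 0) (hk : m.degree = k) :
    m 0 + m 1 = k ∧ (mo m : Z p) = z 0 ^ m 0 * z 1 ^ m 1 := by
  have e : m = Finsupp.single 0 (m 0) + Finsupp.single 1 (m 1) := by
    ext i
    rw [Finsupp.add_apply, Finsupp.single_apply, Finsupp.single_apply]
    rcases Nat.lt_or_ge i 2 with h | h
    · interval_cases i <;> simp
    · rw [hm i h, if_neg (by omega), if_neg (by omega), add_zero]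
  constructor
  · rw [← hk]
    conv_rhs => rw [e, map_add, Finsupp.degree_single, Finsupp.degree_single]
  · conv_lhs => rw [e, mo_add, mo_single, mo_single]

private theorem mo3 {k : ℕ} {m : ℕ →₀ ℕ} (hm : ∀ i, 3 ≤ i → m i = 0) (hk : m.degree = k) :
    m 0 + m 1 + m 2 = k ∧ (mo m : Z p) = z 0 ^ m 0 * z 1 ^ m 1 * z 2 ^ m 2 := by
  have e : m = Finsupp.single 0 (m 0) + Finsupp.single 1 (m 1) + Finsupp.single 2 (m 2) := by
    ext i
    rw [Finsupp.add_apply, Finsupp.add_apply, Finsupp.single_apply, Finsupp.single_apply,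
      Finsupp.single_apply]
    rcases Nat.lt_or_ge i 3 with h | h
    · interval_cases i <;> simp
    · rw [hm i h, if_neg (by omega), if_neg (by omega), if_neg (by omega), add_zero, add_zero]
  constructor
  · rw [← hk]
    conv_rhs => rw [e, map_add, map_add, Finsupp.degree_single, Finsupp.degree_single,
      Finsupp.degree_single]
  · conv_lhs => rw [e, mo_add, mo_add, mo_single, mo_single, mo_single]

theorem exp1k {k : ℕ} {F : Z p} (hF : F ∈ Hh p 1 k) : ∃ c : ZMod p, F = c • z 0 ^ k := by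
  unfold Hh at hF
  induction hF using Submodule.span_induction with
  | mem x hx =>
    obtain ⟨m, hm, hk, rfl⟩ := hx
    have e : m = Finsupp.single 0 k := by
      have e1 : m = Finsupp.single 0 (m 0) := by
        ext i
        rw [Finsupp.single_apply]
        rcases Nat.eq_zero_or_pos i with h | h
        · subst h; simp
        · rw [hm i h, if_neg (by omega)]
      have e2 : m.degree = m 0 := by
        conv_lhs => rw [e1, Finsupp.degree_single]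
      rw [← hk, e2]
      exact e1
    refine ⟨1, ?_⟩
    rw [e, mo_single, one_smul]
  | zero => exact ⟨0, by rw [zero_smul]⟩
  | add x y _ _ hx hy =>
    obtain ⟨c, rfl⟩ := hx
    obtain ⟨d, rfl⟩ := hy
    exact ⟨c + d, by rw [add_smul]⟩
  | smul c x _ hx =>
    obtain ⟨d, rfl⟩ := hx
    exact ⟨c * d, by rw [mul_smul]⟩

theorem exp0 {n : ℕ} {F : Z p} (hF : F ∈ Hh p n 0) : ∃ c : ZMod p, F = c • 1 := by
  unfold Hh at hF
  induction hF using Submodule.span_induction with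
  | mem x hx =>
    obtain ⟨m, hm, hk, rfl⟩ := hx
    have e : m = 0 := by
      rwa [Finsupp.degree_eq_zero_iff] at hk
    refine ⟨1, ?_⟩
    rw [e, mo_zero, one_smul]
  | zero => exact ⟨0, by rw [zero_smul]⟩
  | add x y _ _ hx hy =>
    obtain ⟨c, rfl⟩ := hx
    obtain ⟨d, rfl⟩ := hy
    exact ⟨c + d, by rw [add_smul]⟩
  | smul c x _ hx =>
    obtain ⟨d, rfl⟩ := hx
    exact ⟨c * d, by rw [mul_smul]⟩

theorem exp22 {F : Z p} (hF : F ∈ Hh p 2 2) :
    ∃ a : ℕ → ZMod p, F = a 0 • z 1 ^ 2 + a 1 • (z 0 * z 1) + a 2 • z 0 ^ 2 := by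
  unfold Hh at hF
  induction hF using Submodule.span_induction with
  | mem x hx =>
    obtain ⟨m, hm, hk, rfl⟩ := hx
    obtain ⟨hs, e⟩ := mo2 (p := p) hm hk
    rw [e]
    refine ⟨fun i => if i = m 0 then 1 else 0, ?_⟩
    generalize m 0 = u at *
    generalize m 1 = v at *
    have h1 : u ≤ 2 := by omega
    have h2 : v = 2 - u := by omega
    subst h2
    interval_cases u <;> simp
  | zero => exact ⟨0, by simp⟩
  | add x y _ _ hx hy =>
    obtain ⟨a, rfl⟩ := hx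
    obtain ⟨b, rfl⟩ := hy
    refine ⟨a + b, ?_⟩
    simp only [Pi.add_apply]
    module
  | smul c x _ hx =>
    obtain ⟨a, rfl⟩ := hx
    refine ⟨c • a, ?_⟩
    simp only [Pi.smul_apply, smul_eq_mul]
    module

theorem exp23 {F : Z p} (hF : F ∈ Hh p 2 3) : ∃ a : ℕ → ZMod p, F = E23 a := by
  unfold Hh at hF
  induction hF using Submodule.span_induction with
  | mem x hx =>
    obtain ⟨m, hm, hk, rfl⟩ := hx
    obtain ⟨hs, e⟩ := mo2 (p := p) hm hk
    rw [e]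
    refine ⟨fun i => if i = m 0 then 1 else 0, ?_⟩
    generalize m 0 = u at *
    generalize m 1 = v at *
    have h1 : u ≤ 3 := by omega
    have h2 : v = 3 - u := by omega
    subst h2
    unfold E23
    interval_cases u <;> simp
  | zero => exact ⟨0, by simp [E23]⟩
  | add x y _ _ hx hy =>
    obtain ⟨a, rfl⟩ := hx
    obtain ⟨b, rfl⟩ := hy
    refine ⟨a + b, ?_⟩
    simp only [E23, Pi.add_apply]
    module
  | smul c x _ hx =>
    obtain ⟨a, rfl⟩ := hx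
    refine ⟨c • a, ?_⟩
    simp only [E23, Pi.smul_apply, smul_eq_mul]
    module

theorem exp24 {F : Z p} (hF : F ∈ Hh p 2 4) : ∃ a : ℕ → ZMod p, F = E24 a := by
  unfold Hh at hF
  induction hF using Submodule.span_induction with
  | mem x hx =>
    obtain ⟨m, hm, hk, rfl⟩ := hx
    obtain ⟨hs, e⟩ := mo2 (p := p) hm hk
    rw [e]
    refine ⟨fun i => if i = m 0 then 1 else 0, ?_⟩
    generalize m 0 = u at *
    generalize m 1 = v at *
    have h1 : u ≤ 4 := by omega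
    have h2 : v = 4 - u := by omega
    subst h2
    unfold E24
    interval_cases u <;> simp
  | zero => exact ⟨0, by simp [E24]⟩
  | add x y _ _ hx hy =>
    obtain ⟨a, rfl⟩ := hx
    obtain ⟨b, rfl⟩ := hy
    refine ⟨a + b, ?_⟩
    simp only [E24, Pi.add_apply]
    module
  | smul c x _ hx =>
    obtain ⟨a, rfl⟩ := hx
    refine ⟨c • a, ?_⟩
    simp only [E24, Pi.smul_apply, smul_eq_mul]
    module

theorem exp33 {F : Z p} (hF : F ∈ Hh p 3 3) : ∃ a b c, F = E33 a b c := by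
  unfold Hh at hF
  induction hF using Submodule.span_induction with
  | mem x hx =>
    obtain ⟨m, hm, hk, rfl⟩ := hx
    obtain ⟨hs, e⟩ := mo3 (p := p) hm hk
    rw [e]
    generalize m 0 = u at *
    generalize m 1 = v at *
    generalize m 2 = w at *
    refine ⟨fun i => if i = 0 then (if u = 3 then 1 else 0) else if i = 1 then (if v = 3 then 1 else 0)
      else (if w = 3 then 1 else 0),
      fun i j => if i = 0 then (if j = 1 then (if u = 2 ∧ v = 1 then 1 else 0) else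
          (if u = 2 ∧ w = 1 then 1 else 0))
        else if i = 1 then (if j = 0 then (if v = 2 ∧ u = 1 then 1 else 0) else
          (if v = 2 ∧ w = 1 then 1 else 0))
        else (if j = 0 then (if w = 2 ∧ u = 1 then 1 else 0) else
          (if w = 2 ∧ v = 1 then 1 else 0)),
      if u = 1 ∧ v = 1 then 1 else 0, ?_⟩
    have h1 : u ≤ 3 := by omega
    have h3 : v ≤ 3 := by omega
    have h2 : w = 3 - u - v := by omega
    subst h2
    unfold E33
    interval_cases u <;> interval_cases v <;> first | omega | simp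
    all_goals ring
  | zero => exact ⟨0, 0, 0, by simp [E33]⟩
  | add x y _ _ hx hy =>
    obtain ⟨a, b, c, rfl⟩ := hx
    obtain ⟨a', b', c', rfl⟩ := hy
    refine ⟨a + a', b + b', c + c', ?_⟩
    simp only [E33, Pi.add_apply]
    module
  | smul r x _ hx =>
    obtain ⟨a, b, c, rfl⟩ := hx
    refine ⟨r • a, r • b, r * c, ?_⟩
    simp only [E33, Pi.smul_apply, smul_eq_mul]
    module

theorem exp34 {F : Z p} (hF : F ∈ Hh p 3 4) : ∃ a b g d, F = E34 a b g d := by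
  unfold Hh at hF
  induction hF using Submodule.span_induction with
  | mem x hx =>
    obtain ⟨m, hm, hk, rfl⟩ := hx
    obtain ⟨hs, e⟩ := mo3 (p := p) hm hk
    rw [e]
    generalize m 0 = u at *
    generalize m 1 = v at *
    generalize m 2 = w at *
    refine ⟨fun i => if i = 0 then (if u = 4 then 1 else 0) else if i = 1 then (if v = 4 then 1 else 0)
      else (if w = 4 then 1 else 0),
      fun i j => if i = 0 then (if j = 1 then (if u = 3 ∧ v = 1 then 1 else 0) else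
          (if u = 3 ∧ w = 1 then 1 else 0))
        else if i = 1 then (if j = 0 then (if v = 3 ∧ u = 1 then 1 else 0) else
          (if v = 3 ∧ w = 1 then 1 else 0))
        else (if j = 0 then (if w = 3 ∧ u = 1 then 1 else 0) else
          (if w = 3 ∧ v = 1 then 1 else 0)),
      fun i => if i = 0 then (if v = 2 ∧ w = 2 then 1 else 0) else
        if i = 1 then (if u = 2 ∧ w = 2 then 1 else 0) else (if u = 2 ∧ v = 2 then 1 else 0),
      fun i => if i = 0 then (if u = 2 ∧ v = 1 then 1 else 0) else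
        if i = 1 then (if v = 2 ∧ u = 1 then 1 else 0) else (if w = 2 ∧ u = 1 then 1 else 0), ?_⟩
    have h1 : u ≤ 4 := by omega
    have h3 : v ≤ 4 := by omega
    have h2 : w = 4 - u - v := by omega
    subst h2
    unfold E34
    interval_cases u <;> interval_cases v <;> first | omega | simp
    all_goals ring
  | zero => exact ⟨0, 0, 0, 0, by simp [E34]⟩
  | add x y _ _ hx hy =>
    obtain ⟨a, b, c, d, rfl⟩ := hx
    obtain ⟨a', b', c', d', rfl⟩ := hy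
    refine ⟨a + a', b + b', c + c', d + d', ?_⟩
    simp only [E34, Pi.add_apply]
    module
  | smul r x _ hx =>
    obtain ⟨a, b, c, d, rfl⟩ := hx
    refine ⟨r • a, r • b, r • c, r • d, ?_⟩
    simp only [E34, Pi.smul_apply, smul_eq_mul]
    module

theorem dd01_E34 (a : ℕ → ZMod p) (b : ℕ → ℕ → ZMod p) (g d : ℕ → ZMod p) : dd 0 1 (E34 a b g d) =
    (z 0 - z 1) * z 1 * ((3 * a 0 + 2 * b 0 1 + g 2) • z 1 ^ 2 + (2 * b 0 2 + d 0) • (z 1 * z 2) +
      g 1 • z 2 ^ 2) := by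
  have z1 : (z 1 : Z p) ∈ NV 0 := z_NV (by omega)
  have z2 : (z 2 : Z p) ∈ NV 0 := z_NV (by omega)
  have h : E34 a b g d = z 0 ^ 4 * (a 0 • 1) + z 0 ^ 3 * (b 0 1 • z 1 + b 0 2 • z 2) +
      z 0 ^ 2 * (g 1 • z 2 ^ 2 + g 2 • z 1 ^ 2 + d 0 • (z 1 * z 2)) +
      z 0 * (b 1 0 • z 1 ^ 3 + b 2 0 • z 2 ^ 3 + d 1 • (z 1 ^ 2 * z 2) + d 2 • (z 2 ^ 2 * z 1)) +
      (a 1 • z 1 ^ 4 + a 2 • z 2 ^ 4 + b 1 2 • (z 1 ^ 3 * z 2) + b 2 1 • (z 2 ^ 3 * z 1) +
        g 0 • (z 1 ^ 2 * z 2 ^ 2)) := by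
    unfold E34
    simp only [MvPolynomial.smul_eq_C_mul]
    ring
  have m4 : (a 0 • 1 : Z p) ∈ NV 0 := Subalgebra.smul_mem _ (Subalgebra.one_mem _) _
  have m3 : (b 0 1 • z 1 + b 0 2 • z 2 : Z p) ∈ NV 0 :=
    Subalgebra.add_mem _ (Subalgebra.smul_mem _ z1 _) (Subalgebra.smul_mem _ z2 _)
  have m2 : (g 1 • z 2 ^ 2 + g 2 • z 1 ^ 2 + d 0 • (z 1 * z 2) : Z p) ∈ NV 0 :=
    Subalgebra.add_mem _ (Subalgebra.add_mem _ (Subalgebra.smul_mem _ (Subalgebra.pow_mem _ z2 _) _)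
      (Subalgebra.smul_mem _ (Subalgebra.pow_mem _ z1 _) _))
      (Subalgebra.smul_mem _ (Subalgebra.mul_mem _ z1 z2) _)
  have m1 : (b 1 0 • z 1 ^ 3 + b 2 0 • z 2 ^ 3 + d 1 • (z 1 ^ 2 * z 2) + d 2 • (z 2 ^ 2 * z 1) : Z p) ∈
      NV 0 :=
    Subalgebra.add_mem _ (Subalgebra.add_mem _
      (Subalgebra.add_mem _ (Subalgebra.smul_mem _ (Subalgebra.pow_mem _ z1 _) _)
      (Subalgebra.smul_mem _ (Subalgebra.pow_mem _ z2 _) _))
      (Subalgebra.smul_mem _ (Subalgebra.mul_mem _ (Subalgebra.pow_mem _ z1 _) z2) _))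
      (Subalgebra.smul_mem _ (Subalgebra.mul_mem _ (Subalgebra.pow_mem _ z2 _) z1) _)
  have m0 : (a 1 • z 1 ^ 4 + a 2 • z 2 ^ 4 + b 1 2 • (z 1 ^ 3 * z 2) + b 2 1 • (z 2 ^ 3 * z 1) +
        g 0 • (z 1 ^ 2 * z 2 ^ 2) : Z p) ∈ NV 0 :=
    Subalgebra.add_mem _ (Subalgebra.add_mem _ (Subalgebra.add_mem _
      (Subalgebra.add_mem _ (Subalgebra.smul_mem _ (Subalgebra.pow_mem _ z1 _) _)
      (Subalgebra.smul_mem _ (Subalgebra.pow_mem _ z2 _) _))
      (Subalgebra.smul_mem _ (Subalgebra.mul_mem _ (Subalgebra.pow_mem _ z1 _) z2) _))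
      (Subalgebra.smul_mem _ (Subalgebra.mul_mem _ (Subalgebra.pow_mem _ z2 _) z1) _))
      (Subalgebra.smul_mem _ (Subalgebra.mul_mem _ (Subalgebra.pow_mem _ z1 _)
        (Subalgebra.pow_mem _ z2 _)) _)
  rw [h, map_add, map_add, map_add, map_add, dd_four m4, dd_three m3, dd_two m2, dd_one m1, dd_NV m0]
  simp only [MvPolynomial.smul_eq_C_mul, map_add, map_mul, map_ofNat]
  ring

theorem dd01_E33 (a : ℕ → ZMod p) (b : ℕ → ℕ → ZMod p) (c : ZMod p) : dd 0 1 (E33 a b c) =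
    (z 0 - z 1) * z 1 * ((2 * a 0 + b 0 1) • z 1 + b 0 2 • z 2) := by
  have z1 : (z 1 : Z p) ∈ NV 0 := z_NV (by omega)
  have z2 : (z 2 : Z p) ∈ NV 0 := z_NV (by omega)
  have h : E33 a b c = z 0 ^ 3 * (a 0 • 1) +
      z 0 ^ 2 * (b 0 1 • z 1 + b 0 2 • z 2) +
      z 0 * (b 1 0 • z 1 ^ 2 + b 2 0 • z 2 ^ 2 + c • (z 1 * z 2)) +
      (a 1 • z 1 ^ 3 + a 2 • z 2 ^ 3 + b 1 2 • (z 1 ^ 2 * z 2) + b 2 1 • (z 2 ^ 2 * z 1)) := by
    unfold E33
    simp only [MvPolynomial.smul_eq_C_mul]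
    ring
  have m3 : (a 0 • 1 : Z p) ∈ NV 0 := Subalgebra.smul_mem _ (Subalgebra.one_mem _) _
  have m2 : (b 0 1 • z 1 + b 0 2 • z 2 : Z p) ∈ NV 0 :=
    Subalgebra.add_mem _ (Subalgebra.smul_mem _ z1 _) (Subalgebra.smul_mem _ z2 _)
  have m1 : (b 1 0 • z 1 ^ 2 + b 2 0 • z 2 ^ 2 + c • (z 1 * z 2) : Z p) ∈ NV 0 :=
    Subalgebra.add_mem _
      (Subalgebra.add_mem _ (Subalgebra.smul_mem _ (Subalgebra.pow_mem _ z1 _) _)
      (Subalgebra.smul_mem _ (Subalgebra.pow_mem _ z2 _) _))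
      (Subalgebra.smul_mem _ (Subalgebra.mul_mem _ z1 z2) _)
  have m0 : (a 1 • z 1 ^ 3 + a 2 • z 2 ^ 3 + b 1 2 • (z 1 ^ 2 * z 2) + b 2 1 • (z 2 ^ 2 * z 1) : Z p) ∈
      NV 0 :=
    Subalgebra.add_mem _ (Subalgebra.add_mem _
      (Subalgebra.add_mem _ (Subalgebra.smul_mem _ (Subalgebra.pow_mem _ z1 _) _)
      (Subalgebra.smul_mem _ (Subalgebra.pow_mem _ z2 _) _))
      (Subalgebra.smul_mem _ (Subalgebra.mul_mem _ (Subalgebra.pow_mem _ z1 _) z2) _))
      (Subalgebra.smul_mem _ (Subalgebra.mul_mem _ (Subalgebra.pow_mem _ z2 _) z1) _)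
  rw [h, map_add, map_add, map_add, dd_three m3, dd_two m2, dd_one m1, dd_NV m0]
  simp only [MvPolynomial.smul_eq_C_mul, map_add, map_mul, map_ofNat]
  ring

theorem dd01_E24 (a : ℕ → ZMod p) : dd 0 1 (E24 a) =
    (3 * a 4 + 2 * a 3 + a 2) • ((z 0 - z 1) * z 1 ^ 3) := by
  have z1 : (z 1 : Z p) ∈ NV 0 := z_NV (by omega)
  have h : E24 a = z 0 ^ 4 * (a 4 • 1) + z 0 ^ 3 * (a 3 • z 1) + z 0 ^ 2 * (a 2 • z 1 ^ 2) +
      z 0 * (a 1 • z 1 ^ 3) + a 0 • z 1 ^ 4 := by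
    unfold E24
    simp only [MvPolynomial.smul_eq_C_mul]
    ring
  have m4 : (a 4 • 1 : Z p) ∈ NV 0 := Subalgebra.smul_mem _ (Subalgebra.one_mem _) _
  have m3 : (a 3 • z 1 : Z p) ∈ NV 0 := Subalgebra.smul_mem _ z1 _
  have m2 : (a 2 • z 1 ^ 2 : Z p) ∈ NV 0 := Subalgebra.smul_mem _ (Subalgebra.pow_mem _ z1 _) _
  have m1 : (a 1 • z 1 ^ 3 : Z p) ∈ NV 0 := Subalgebra.smul_mem _ (Subalgebra.pow_mem _ z1 _) _
  have m0 : (a 0 • z 1 ^ 4 : Z p) ∈ NV 0 := Subalgebra.smul_mem _ (Subalgebra.pow_mem _ z1 _) _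
  rw [h, map_add, map_add, map_add, map_add, dd_four m4, dd_three m3, dd_two m2, dd_one m1, dd_NV m0]
  simp only [MvPolynomial.smul_eq_C_mul, map_add, map_mul, map_ofNat]
  ring

theorem dd10_E24 (a : ℕ → ZMod p) : dd 1 0 (E24 a) =
    (3 * a 0 + 2 * a 1 + a 2) • ((z 1 - z 0) * z 0 ^ 3) := by
  have z1 : (z 0 : Z p) ∈ NV 1 := z_NV (by omega)
  have h : E24 a = z 1 ^ 4 * (a 0 • 1) + z 1 ^ 3 * (a 1 • z 0) + z 1 ^ 2 * (a 2 • z 0 ^ 2) +
      z 1 * (a 3 • z 0 ^ 3) + a 4 • z 0 ^ 4 := by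
    unfold E24
    simp only [MvPolynomial.smul_eq_C_mul]
    ring
  have m4 : (a 0 • 1 : Z p) ∈ NV 1 := Subalgebra.smul_mem _ (Subalgebra.one_mem _) _
  have m3 : (a 1 • z 0 : Z p) ∈ NV 1 := Subalgebra.smul_mem _ z1 _
  have m2 : (a 2 • z 0 ^ 2 : Z p) ∈ NV 1 := Subalgebra.smul_mem _ (Subalgebra.pow_mem _ z1 _) _
  have m1 : (a 3 • z 0 ^ 3 : Z p) ∈ NV 1 := Subalgebra.smul_mem _ (Subalgebra.pow_mem _ z1 _) _
  have m0 : (a 4 • z 0 ^ 4 : Z p) ∈ NV 1 := Subalgebra.smul_mem _ (Subalgebra.pow_mem _ z1 _) _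
  rw [h, map_add, map_add, map_add, map_add, dd_four m4, dd_three m3, dd_two m2, dd_one m1, dd_NV m0]
  simp only [MvPolynomial.smul_eq_C_mul, map_add, map_mul, map_ofNat]
  ring

theorem dd01_E23 (a : ℕ → ZMod p) : dd 0 1 (E23 a) = (2 * a 3 + a 2) • ((z 0 - z 1) * z 1 ^ 2) := by
  have z1 : (z 1 : Z p) ∈ NV 0 := z_NV (by omega)
  have h : E23 a = z 0 ^ 3 * (a 3 • 1) + z 0 ^ 2 * (a 2 • z 1) +
      z 0 * (a 1 • z 1 ^ 2) + a 0 • z 1 ^ 3 := by
    unfold E23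
    simp only [MvPolynomial.smul_eq_C_mul]
    ring
  have m3 : (a 3 • 1 : Z p) ∈ NV 0 := Subalgebra.smul_mem _ (Subalgebra.one_mem _) _
  have m2 : (a 2 • z 1 : Z p) ∈ NV 0 := Subalgebra.smul_mem _ z1 _
  have m1 : (a 1 • z 1 ^ 2 : Z p) ∈ NV 0 := Subalgebra.smul_mem _ (Subalgebra.pow_mem _ z1 _) _
  have m0 : (a 0 • z 1 ^ 3 : Z p) ∈ NV 0 := Subalgebra.smul_mem _ (Subalgebra.pow_mem _ z1 _) _
  rw [h, map_add, map_add, map_add, dd_three m3, dd_two m2, dd_one m1, dd_NV m0]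
  simp only [MvPolynomial.smul_eq_C_mul, map_add, map_mul, map_ofNat]
  ring

theorem dd10_E23 (a : ℕ → ZMod p) : dd 1 0 (E23 a) = (2 * a 0 + a 1) • ((z 1 - z 0) * z 0 ^ 2) := by
  have z1 : (z 0 : Z p) ∈ NV 1 := z_NV (by omega)
  have h : E23 a = z 1 ^ 3 * (a 0 • 1) + z 1 ^ 2 * (a 1 • z 0) +
      z 1 * (a 2 • z 0 ^ 2) + a 3 • z 0 ^ 3 := by
    unfold E23
    simp only [MvPolynomial.smul_eq_C_mul]
    ring
  have m3 : (a 0 • 1 : Z p) ∈ NV 1 := Subalgebra.smul_mem _ (Subalgebra.one_mem _) _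
  have m2 : (a 1 • z 0 : Z p) ∈ NV 1 := Subalgebra.smul_mem _ z1 _
  have m1 : (a 2 • z 0 ^ 2 : Z p) ∈ NV 1 := Subalgebra.smul_mem _ (Subalgebra.pow_mem _ z1 _) _
  have m0 : (a 3 • z 0 ^ 3 : Z p) ∈ NV 1 := Subalgebra.smul_mem _ (Subalgebra.pow_mem _ z1 _) _
  rw [h, map_add, map_add, map_add, dd_three m3, dd_two m2, dd_one m1, dd_NV m0]
  simp only [MvPolynomial.smul_eq_C_mul, map_add, map_mul, map_ofNat]
  ring

end ADQ
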