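import Pool.Agent.ADQ.Tool2c

/-!
# ADQ-P1: no linked pairs in permutation modules, first case
-/

namespace ADQ

open AD ADN ADC

private theorem id_mem_GA {p n : ℕ} : (LinearMap.id : Z p →ₗ[ZMod p] Z p) ∈ GA p n := by
  refine Submodule.subset_span ⟨Equiv.refl ℕ, fun _ _ => rfl, ?_⟩
  refine LinearMap.ext fun F => ?_
  show F = rn (Equiv.refl ℕ) F
  have h : (rn (Equiv.refl ℕ) : Z p →ₐ[ZMod p] Z p) F = MvPolynomial.rename id F := rfl
  rw [h, MvPolynomial.rename_id_apply]

private theorem comb_mem {p : ℕ} [Fact p.Prime] {N : Submodule (ZMod p) (Z p)} {U W E : Z p} {x y : ZMod p}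
    (hu : U - x • E ∈ N) (hw : W - y • E ∈ N) : y • U + (-x) • W ∈ N := by
  have h1 := N.sub_mem (N.smul_mem y hu) (N.smul_mem x hw)
  have h2 : y • (U - x • E) - x • (W - y • E) = y • U + (-x) • W := by
    rw [smul_sub, smul_sub, smul_smul, smul_smul, neg_smul, mul_comm y x]
    abel
  rwa [h2] at h1

theorem Lkd.rank1 {p : ℕ} [Fact p.Prime] {n : ℕ} {N : Submodule (ZMod p) (Z p)} {u w E : Z p} {x y : ZMod p}
    (h : Lkd p n N u w) (hu : u - x • E ∈ N) (hw : w - y • E ∈ N) : u ∈ N := by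
  by_cases hx : x = 0
  · rw [hx, zero_smul, sub_zero] at hu
    exact hu
  · have h1 := h LinearMap.id id_mem_GA y (-x) (fun h => hx (neg_eq_zero.1 h.2))
      (by rw [LinearMap.id_apply]; exact comb_mem hu hw)
    exact h1.1

/-- the same after an operator -/
theorem Lkd.rankT {p : ℕ} [Fact p.Prime] {n : ℕ} {N : Submodule (ZMod p) (Z p)} {u w E : Z p} {x y : ZMod p}
    {T : Z p →ₗ[ZMod p] Z p} (h : Lkd p n N u w) (hT : T ∈ GA p n) (hu : T u - x • E ∈ N)
    (hw : T w - y • E ∈ N) : T u ∈ N ∧ T w ∈ N := by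
  by_cases hxy : x = 0 ∧ y = 0
  · rw [hxy.1, zero_smul, sub_zero] at hu
    rw [hxy.2, zero_smul, sub_zero] at hw
    exact ⟨hu, hw⟩
  · refine h T hT y (-x) (fun h => hxy ⟨neg_eq_zero.1 h.2, h.1⟩) ?_
    rw [map_add, map_smul, map_smul]
    exact comb_mem hu hw

/-- `(id - T) u` modulo `N` -/
private theorem c_sub {p : ℕ} {n : ℕ} {N : Submodule (ZMod p) (Z p)} (hN : Stb p n N) {e : ℕ → Z p}
    {T : Z p →ₗ[ZMod p] Z p} (hT : T ∈ GA p n) {i j : ℕ} (hi : i < n) (hj : j < n) (hij : i ≠ j)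
    (h1 : T (e i) - e j ∈ N) (h2 : T (e j) - e i ∈ N) (h3 : ∀ k < n, k ≠ i → k ≠ j → T (e k) - e k ∈ N)
    {u : Z p} {a : ℕ → ZMod p} (hu : u - ∑ k ∈ Finset.range n, a k • e k ∈ N) :
    ((LinearMap.id : Z p →ₗ[ZMod p] Z p) - T) u - (a i - a j) • (e i - e j) ∈ N := by
  have e1 : u - T u - ((∑ k ∈ Finset.range n, a k • e k) - T (∑ k ∈ Finset.range n, a k • e k)) ∈ N := by
    have h := N.sub_mem hu (hN T hT _ hu)
    rw [map_sub] at h
    have h' : u - ∑ k ∈ Finset.range n, a k • e k - (T u - T (∑ k ∈ Finset.range n, a k • e k)) =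
        u - T u - ((∑ k ∈ Finset.range n, a k • e k) - T (∑ k ∈ Finset.range n, a k • e k)) := by abel
    rwa [h'] at h
  have e2 : (∑ k ∈ Finset.range n, a k • e k) - T (∑ k ∈ Finset.range n, a k • e k) =
      ∑ k ∈ Finset.range n, a k • (e k - T (e k)) := by
    rw [map_sum, ← Finset.sum_sub_distrib]
    refine Finset.sum_congr rfl fun k _ => ?_
    rw [map_smul, smul_sub]
  have e3 : (∑ k ∈ Finset.range n, a k • (e k - T (e k))) - (a i - a j) • (e i - e j) ∈ N := by
    have hsum : (a i - a j) • (e i - e j) =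
        ∑ k ∈ Finset.range n, (if k = i then a i • (e i - e j) else if k = j then a j • (e j - e i) else 0) := by
      rw [← Finset.add_sum_erase _ _ (Finset.mem_range.2 hi), if_pos rfl,
        ← Finset.add_sum_erase _ _ (Finset.mem_erase.2 ⟨hij.symm, Finset.mem_range.2 hj⟩), if_neg hij.symm,
        if_pos rfl, Finset.sum_eq_zero]
      · rw [add_zero, sub_smul, smul_sub (a j) (e j) (e i), smul_sub (a j) (e i) (e j)]
        abel
      · intro k hk
        have hk1 := Finset.mem_erase.1 hk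
        have hk2 := Finset.mem_erase.1 hk1.2
        rw [if_neg hk2.1, if_neg hk1.1]
    rw [hsum, ← Finset.sum_sub_distrib]
    refine N.sum_mem fun k hk => ?_
    have hk' := Finset.mem_range.1 hk
    by_cases hki : k = i
    · rw [if_pos hki, hki, ← smul_sub]
      refine N.smul_mem _ ?_
      have h := N.neg_mem h1
      have h' : -(T (e i) - e j) = e i - T (e i) - (e i - e j) := by abel
      rwa [h'] at h
    · by_cases hkj : k = j
      · rw [if_neg hki, if_pos hkj, hkj, ← smul_sub]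
        refine N.smul_mem _ ?_
        have h := N.neg_mem h2
        have h' : -(T (e j) - e i) = e j - T (e j) - (e j - e i) := by abel
        rwa [h'] at h
      · rw [if_neg hki, if_neg hkj, sub_zero]
        refine N.smul_mem _ ?_
        have h := N.neg_mem (h3 k hk' hki hkj)
        rwa [neg_sub] at h
  rw [e2] at e1
  have h := N.add_mem e1 e3
  have h' : u - T u - ∑ k ∈ Finset.range n, a k • (e k - T (e k)) +
      ((∑ k ∈ Finset.range n, a k • (e k - T (e k))) - (a i - a j) • (e i - e j)) =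
      ((LinearMap.id : Z p →ₗ[ZMod p] Z p) - T) u - (a i - a j) • (e i - e j) := by
    rw [LinearMap.sub_apply, LinearMap.id_apply]
    abel
  rwa [h'] at h

private theorem mem_of_smul {p : ℕ} [Fact p.Prime] {N : Submodule (ZMod p) (Z p)} {F : Z p} {x : ZMod p}
    (hx : x ≠ 0) (h : x • F ∈ N) : F ∈ N := by
  have h1 := N.smul_mem x⁻¹ h
  rwa [smul_smul, inv_mul_cancel₀ hx, one_smul] at h1

theorem P1 {p : ℕ} [Fact p.Prime] {n : ℕ} {N : Submodule (ZMod p) (Z p)} (hN : Stb p n N) {e : ℕ → Z p}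
    (he : ∀ i < n, ∀ j < n, i ≠ j → ∃ T ∈ GA p n, T (e i) - e j ∈ N ∧ T (e j) - e i ∈ N ∧
      ∀ k < n, k ≠ i → k ≠ j → T (e k) - e k ∈ N) {u w : Z p} {a b : ℕ → ZMod p}
    (hu : u - ∑ i ∈ Finset.range n, a i • e i ∈ N) (hw : w - ∑ i ∈ Finset.range n, b i • e i ∈ N)
    (hl : Lkd p n N u w) : u ∈ N := by
  have key : ∀ i < n, ∀ j < n, i ≠ j → (a i - a j) • (e i - e j) ∈ N ∧ (b i - b j) • (e i - e j) ∈ N := by
    intro i hi j hj hij
    obtain ⟨T, hT, h1, h2, h3⟩ := he i hi j hj hij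
    have hc : ((LinearMap.id : Z p →ₗ[ZMod p] Z p) - T) ∈ GA p n := (GA p n).sub_mem id_mem_GA hT
    have cu := c_sub hN hT hi hj hij h1 h2 h3 hu
    have cw := c_sub hN hT hi hj hij h1 h2 h3 hw
    have hh := hl.rankT hc cu cw
    constructor
    · have h := N.sub_mem hh.1 cu
      rwa [sub_sub_cancel] at h
    · have h := N.sub_mem hh.2 cw
      rwa [sub_sub_cancel] at h
  by_cases hex : ∃ i < n, ∃ j < n, i ≠ j ∧ (a i ≠ a j ∨ b i ≠ b j)
  · obtain ⟨i, hi, j, hj, hij, hab⟩ := hex
    have hE : e i - e j ∈ N := by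
      rcases hab with h | h
      · exact mem_of_smul (sub_ne_zero.2 h) (key i hi j hj hij).1
      · exact mem_of_smul (sub_ne_zero.2 h) (key i hi j hj hij).2
    have hall : ∀ k < n, e k - e j ∈ N := by
      intro k hk
      by_cases hki : k = i
      · rw [hki]; exact hE
      by_cases hkj : k = j
      · rw [hkj, sub_self]; exact N.zero_mem
      obtain ⟨T, hT, h1, h2, h3⟩ := he i hi k hk (fun h => hki h.symm)
      have h4 := hN T hT _ hE
      rw [map_sub] at h4
      have h5 := h3 j hj hij.symm (fun h => hkj h.symm)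
      have h := N.add_mem (N.sub_mem h4 h1) h5
      have h' : T (e i) - T (e j) - (T (e i) - e k) + (T (e j) - e j) = e k - e j := by abel
      rwa [h'] at h
    have hsum : ∀ (c : ℕ → ZMod p) (v : Z p), v - ∑ k ∈ Finset.range n, c k • e k ∈ N →
        v - (∑ k ∈ Finset.range n, c k) • e j ∈ N := by
      intro c v hv
      have h1 : ∑ k ∈ Finset.range n, c k • (e k - e j) ∈ N :=
        N.sum_mem fun k hk => N.smul_mem _ (hall k (Finset.mem_range.1 hk))
      have h2 : ∑ k ∈ Finset.range n, c k • (e k - e j) =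
          (∑ k ∈ Finset.range n, c k • e k) - (∑ k ∈ Finset.range n, c k) • e j := by
        rw [Finset.sum_smul, ← Finset.sum_sub_distrib]
        exact Finset.sum_congr rfl fun k _ => smul_sub _ _ _
      rw [h2] at h1
      have h := N.add_mem hv h1
      rwa [sub_add_sub_cancel] at h
    exact hl.rank1 (hsum a u hu) (hsum b w hw)
  · have hconst : ∀ (c : ℕ → ZMod p), (∀ k < n, c k = c 0) →
        ∑ k ∈ Finset.range n, c k • e k = c 0 • ∑ k ∈ Finset.range n, e k := by
      intro c hc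
      rw [Finset.smul_sum]
      exact Finset.sum_congr rfl fun k hk => by rw [hc k (Finset.mem_range.1 hk)]
    have ha : ∀ k < n, a k = a 0 := by
      intro k hk
      by_contra hne
      exact hex ⟨k, hk, 0, by omega, fun h => hne (by rw [h]), Or.inl hne⟩
    have hb : ∀ k < n, b k = b 0 := by
      intro k hk
      by_contra hne
      exact hex ⟨k, hk, 0, by omega, fun h => hne (by rw [h]), Or.inr hne⟩
    rw [hconst a ha] at hu
    rw [hconst b hb] at hw
    exact hl.rank1 hu hw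

end ADQ
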