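import Pool.Agent.ADQ.Tool2b
import Pool.Agent.ADQ.Tool2c
import Pool.Agent.ADQ.ExpD
import Pool.Agent.ADQ.P1

/-!
# ADQ-NoLP32

No leading pairs with `n = 2`, `k = 3`.  `u = E23 a`, `(2 a_3 + a_2) P ∈ R 2 3`, `(2 a_0 + a_1) P' ∈ R 2 3`, `P = (z_0 - z_1) z_1^2`, `P' = (z_1 - z_0) z_0^2`.
`l = 3`: `P1` with `e_i = z_i^3` if `P ∈ R 2 3`, and with `e_0 = z_0^3 - 2 z_0^2 z_1`, `e_1 = z_1^3 - 2 z_1^2 z_0` otherwise.
`l ≥ 4`: the four monomials of degree 3 in `z_0, z_1` are in `R (2 + (p-1)) 3`, so `Hh p 2 l ≤ R 2 l` (`K0`, `Kup`).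
-/

namespace ADQ

open AD ADN ADC

variable {p : ℕ} [Fact p.Prime] {R : ℕ → ℕ → Submodule (ZMod p) (Z p)}

private theorem n32_sw (h : MS p R) {n k : ℕ} (hn : 1 ≤ n) {i j : ℕ} (hi : i < n) (hj : j < n) {F : Z p}
    (hF : F ∈ R n k) : rn (Equiv.swap i j) F ∈ R n k := by
  refine h.ren n n k (Equiv.swap i j) hn (fun t ht => ?_) (fun x _ y _ hxy => (Equiv.swap i j).injective hxy) F hF
  rw [Equiv.swap_apply_def]
  split_ifs <;> assumption

private theorem n32_two (h3 : 3 ≤ p) : (2 : ZMod p) ≠ 0 := by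
  intro h
  have h1 : ((2 : ℕ) : ZMod p) = 0 := by exact_mod_cast h
  rw [ZMod.natCast_eq_zero_iff] at h1
  exact absurd (Nat.le_of_dvd (by norm_num) h1) (by omega)

/-- the case `l = 3` -/
private theorem n32_eq (h : MS3 p R) {u w : Z p} (hl : LP p R (Soc3 p R) 2 3 3 u w) : False := by
  obtain ⟨a, hu⟩ := exp23 hl.su.hy
  obtain ⟨b, hw⟩ := exp23 hl.sw.hy
  have u1 := hl.su.dd (by norm_num) 0 (by norm_num) 1 (by norm_num) (by norm_num)
  have u2 := hl.su.dd (by norm_num) 1 (by norm_num) 0 (by norm_num) (by norm_num)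
  have w1 := hl.sw.dd (by norm_num) 0 (by norm_num) 1 (by norm_num) (by norm_num)
  have w2 := hl.sw.dd (by norm_num) 1 (by norm_num) 0 (by norm_num) (by norm_num)
  rw [hu, dd01_E23] at u1
  rw [hu, dd10_E23] at u2
  rw [hw, dd01_E23] at w1
  rw [hw, dd10_E23] at w2
  have hT : (rn (Equiv.swap 0 1) : Z p →ₐ[ZMod p] Z p).toLinearMap ∈ GA p 2 :=
    GA_rn (Equiv.swap 0 1) (fun i hi => Equiv.swap_apply_of_ne_of_ne (by omega) (by omega))
  have hN : Stb p 2 (R 2 3) := h.toMS.GAs (by norm_num)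
  have s0 : (Equiv.swap 0 1 : Equiv.Perm ℕ) 0 = 1 := Equiv.swap_apply_left 0 1
  have s1 : (Equiv.swap 0 1 : Equiv.Perm ℕ) 1 = 0 := Equiv.swap_apply_right 0 1
  have he : ∀ e : ℕ → Z p, rn (Equiv.swap 0 1) (e 0) = e 1 → rn (Equiv.swap 0 1) (e 1) = e 0 →
      ∀ i < 2, ∀ j < 2, i ≠ j → ∃ T ∈ GA p 2, T (e i) - e j ∈ R 2 3 ∧ T (e j) - e i ∈ R 2 3 ∧
        ∀ k < 2, k ≠ i → k ≠ j → T (e k) - e k ∈ R 2 3 := by
    intro e e0 e1 i hi j hj hij
    refine ⟨_, hT, ?_, ?_, fun k hk hki hkj => ?_⟩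
    · show rn (Equiv.swap 0 1) (e i) - e j ∈ R 2 3
      rcases (by omega : (i = 0 ∧ j = 1) ∨ (i = 1 ∧ j = 0)) with ⟨rfl, rfl⟩ | ⟨rfl, rfl⟩
      · rw [e0, sub_self]
        exact Submodule.zero_mem _
      · rw [e1, sub_self]
        exact Submodule.zero_mem _
    · show rn (Equiv.swap 0 1) (e j) - e i ∈ R 2 3
      rcases (by omega : (i = 0 ∧ j = 1) ∨ (i = 1 ∧ j = 0)) with ⟨rfl, rfl⟩ | ⟨rfl, rfl⟩
      · rw [e1, sub_self]
        exact Submodule.zero_mem _
      · rw [e0, sub_self]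
        exact Submodule.zero_mem _
    · omega
  by_cases hP : ((z 0 - z 1) * z 1 ^ 2 : Z p) ∈ R 2 3
  · have hP' : ((z 1 - z 0) * z 0 ^ 2 : Z p) ∈ R 2 3 := by
      have h1 := n32_sw h.toMS (by norm_num) (i := 0) (j := 1) (by norm_num) (by norm_num) hP
      rw [map_mul, map_sub, map_pow, rn_z, rn_z, s0, s1] at h1
      exact h1
    have key : ∀ c : ℕ → ZMod p, E23 c - ∑ i ∈ Finset.range 2,
        (if i = 0 then c 2 + c 3 else c 0 + c 1) • (z i ^ 3 : Z p) ∈ R 2 3 := by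
      intro c
      have h1 := Submodule.add_mem _ (Submodule.smul_mem _ (c 1) hP) (Submodule.smul_mem _ (c 2) hP')
      have e : E23 c - ∑ i ∈ Finset.range 2, (if i = 0 then c 2 + c 3 else c 0 + c 1) • (z i ^ 3 : Z p) =
          c 1 • ((z 0 - z 1) * z 1 ^ 2) + c 2 • ((z 1 - z 0) * z 0 ^ 2) := by
        rw [Finset.sum_range_succ, Finset.sum_range_one, if_pos rfl, if_neg one_ne_zero]
        unfold E23
        simp only [MvPolynomial.smul_eq_C_mul, map_add]
        ring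
      rw [e]
      exact h1
    refine hl.nu (P1 hN (e := fun i => z i ^ 3) (he _ ?_ ?_) (a := fun i => if i = 0 then a 2 + a 3 else a 0 + a 1)
      (b := fun i => if i = 0 then b 2 + b 3 else b 0 + b 1) (by rw [hu]; exact key a) (by rw [hw]; exact key b)
      hl.Lkd)
    · show rn (Equiv.swap 0 1) (z 0 ^ 3 : Z p) = z 1 ^ 3
      rw [map_pow, rn_z, s0]
    · show rn (Equiv.swap 0 1) (z 1 ^ 3 : Z p) = z 0 ^ 3
      rw [map_pow, rn_z, s1]
  · have hP' : ((z 1 - z 0) * z 0 ^ 2 : Z p) ∉ R 2 3 := by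
      intro h0
      apply hP
      have h1 := n32_sw h.toMS (by norm_num) (i := 0) (j := 1) (by norm_num) (by norm_num) h0
      rw [map_mul, map_sub, map_pow, rn_z, rn_z, s0, s1] at h1
      exact h1
    have a1 : 2 * a 3 + a 2 = 0 := by
      by_contra hne
      exact hP ((Submodule.smul_mem_iff _ hne).1 u1)
    have a2 : 2 * a 0 + a 1 = 0 := by
      by_contra hne
      exact hP' ((Submodule.smul_mem_iff _ hne).1 u2)
    have b1 : 2 * b 3 + b 2 = 0 := by
      by_contra hne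
      exact hP ((Submodule.smul_mem_iff _ hne).1 w1)
    have b2 : 2 * b 0 + b 1 = 0 := by
      by_contra hne
      exact hP' ((Submodule.smul_mem_iff _ hne).1 w2)
    have key : ∀ c : ℕ → ZMod p, 2 * c 3 + c 2 = 0 → 2 * c 0 + c 1 = 0 → E23 c - ∑ i ∈ Finset.range 2,
        (if i = 0 then c 3 else c 0) • ((fun i => if i = 0 then z 0 ^ 3 - 2 * z 0 ^ 2 * z 1 else
          z 1 ^ 3 - 2 * z 1 ^ 2 * z 0 : ℕ → Z p) i) ∈ R 2 3 := by
      intro c c1 c2
      have c1' : c 2 = - (2 * c 3) := by linear_combination c1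
      have c2' : c 1 = - (2 * c 0) := by linear_combination c2
      have e : E23 c - ∑ i ∈ Finset.range 2,
        (if i = 0 then c 3 else c 0) • ((fun i => if i = 0 then z 0 ^ 3 - 2 * z 0 ^ 2 * z 1 else
          z 1 ^ 3 - 2 * z 1 ^ 2 * z 0 : ℕ → Z p) i) = 0 := by
        rw [Finset.sum_range_succ, Finset.sum_range_one]
        simp only [if_true, one_ne_zero, if_false]
        unfold E23
        rw [c1', c2']
        simp only [MvPolynomial.smul_eq_C_mul, map_neg, map_mul]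
        have e2 : (MvPolynomial.C (2 : ZMod p) : Z p) = 2 := by
          rw [← map_ofNat MvPolynomial.C]
        rw [e2]
        ring
      rw [e]
      exact Submodule.zero_mem _
    refine hl.nu (P1 hN (e := fun i => if i = 0 then z 0 ^ 3 - 2 * z 0 ^ 2 * z 1 else
      z 1 ^ 3 - 2 * z 1 ^ 2 * z 0) (he _ ?_ ?_) (a := fun i => if i = 0 then a 3 else a 0)
      (b := fun i => if i = 0 then b 3 else b 0) (by rw [hu]; exact key a a1 a2) (by rw [hw]; exact key b b1 b2)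
      hl.Lkd)
    · show rn (Equiv.swap 0 1) (z 0 ^ 3 - 2 * z 0 ^ 2 * z 1 : Z p) = z 1 ^ 3 - 2 * z 1 ^ 2 * z 0
      simp only [map_sub, map_mul, map_pow, map_ofNat, rn_z, s0, s1]
    · show rn (Equiv.swap 0 1) (z 1 ^ 3 - 2 * z 1 ^ 2 * z 0 : Z p) = z 0 ^ 3 - 2 * z 0 ^ 2 * z 1
      simp only [map_sub, map_mul, map_pow, map_ofNat, rn_z, s0, s1]

/-- it is enough to have the four monomials in few variables -/
private theorem n32_all (h3 : 3 ≤ p) (h : MS3 p R) {l m : ℕ} {u w : Z p} (hl : LP p R (Soc3 p R) 2 3 l u w)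
    (h4 : 4 ≤ l) (hm : 1 ≤ m) (hm' : m ≤ 4) (k0 : (z 1 ^ 3 : Z p) ∈ R m 3) (k1 : (z 0 * z 1 ^ 2 : Z p) ∈ R m 3)
    (k2 : (z 0 ^ 2 * z 1 : Z p) ∈ R m 3) (k3 : (z 0 ^ 3 : Z p) ∈ R m 3) : False := by
  have h1 : ∀ F ∈ Hh p 2 3, F ∈ R (2 + (p - 1)) 3 := by
    intro F hF
    obtain ⟨c, rfl⟩ := exp23 hF
    refine h.toMS.up hm (by omega) ?_
    unfold E23
    exact Submodule.add_mem _ (Submodule.add_mem _ (Submodule.add_mem _ (Submodule.smul_mem _ _ k0)
      (Submodule.smul_mem _ _ k1)) (Submodule.smul_mem _ _ k2)) (Submodule.smul_mem _ _ k3)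
  have h2 := h.toMS.K0 (by omega) (by norm_num) h1
  have h5 := h.toMS.Kup (by omega) (by norm_num) h2 h4
  exact hl.nw (h5 hl.sw.hy)

theorem noLP_3_2 (h3 : 3 ≤ p) (h : MS3 p R) {l : ℕ} {u w : Z p}
    (hl : LP p R (Soc3 p R) 2 3 l u w) : False := by
  rcases Nat.eq_or_lt_of_le hl.kl with h4 | h4
  · subst h4
    exact n32_eq h hl
  obtain ⟨a, hu⟩ := exp23 hl.su.hy
  have s0 : (Equiv.swap 0 1 : Equiv.Perm ℕ) 0 = 1 := Equiv.swap_apply_left 0 1
  have s1 : (Equiv.swap 0 1 : Equiv.Perm ℕ) 1 = 0 := Equiv.swap_apply_right 0 1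
  have s2 : (Equiv.swap 0 1 : Equiv.Perm ℕ) 2 = 2 := Equiv.swap_apply_of_ne_of_ne (by norm_num) (by norm_num)
  have t0 : (Equiv.swap 0 2 : Equiv.Perm ℕ) 0 = 2 := Equiv.swap_apply_left 0 2
  have t2 : (Equiv.swap 0 2 : Equiv.Perm ℕ) 2 = 0 := Equiv.swap_apply_right 0 2
  have t1 : (Equiv.swap 0 2 : Equiv.Perm ℕ) 1 = 1 := Equiv.swap_apply_of_ne_of_ne (by norm_num) (by norm_num)
  have n01 : (0 : ℕ) ≠ 1 := by norm_num
  have n10 : (1 : ℕ) ≠ 0 := by norm_num
  by_cases hc : a 0 = 0 ∧ a 3 = 0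
  · obtain ⟨c0, c3⟩ := hc
    have hu' : u = a 1 • (z 0 * z 1 ^ 2) + a 2 • (z 0 ^ 2 * z 1) := by
      rw [hu]
      unfold E23
      rw [c0, c3, zero_smul, zero_smul, zero_add, add_zero]
    have hx := hl.su.ext
    have hG : ((z 0 - z 2) * z 2 * z 1 : Z p) ∈ R 3 3 := by
      by_cases ha : a 2 = 0
      · have ha1 : a 1 ≠ 0 := by
          intro h0
          apply hl.nu
          rw [hu', ha, h0, zero_smul, zero_smul, add_zero]
          exact Submodule.zero_mem _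
        have h5 := h.dd 3 3 1 2 (by norm_num) (by norm_num) (by norm_num) (by norm_num) _ hx
        rw [hu', map_add, map_smul, map_smul, ha, zero_smul, add_zero, mul_comm (z 0) (z 1 ^ 2),
          dd_two (z_NV n01)] at h5
        have h6 := (Submodule.smul_mem_iff _ ha1).1 h5
        have h7 := n32_sw h.toMS (by norm_num) (i := 0) (j := 1) (by norm_num) (by norm_num) h6
        rw [map_mul, map_mul, map_sub, rn_z, rn_z, rn_z, s0, s1, s2] at h7
        exact h7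
      · have h5 := h.dd 3 3 0 2 (by norm_num) (by norm_num) (by norm_num) (by norm_num) _ hx
        rw [hu', map_add, map_smul, map_smul, dd_one (Subalgebra.pow_mem _ (z_NV n10) 2), smul_zero, zero_add,
          dd_two (z_NV n10)] at h5
        exact (Submodule.smul_mem_iff _ ha).1 h5
    have g1 := h.zer 3 3 0 (by norm_num) _ hG
    rw [map_mul, map_mul, map_sub, ev_z, ev_z, ev_z, if_pos rfl, if_neg (by norm_num), if_neg (by norm_num)] at g1
    have g2 := n32_sw h.toMS (by norm_num) (i := 0) (j := 2) (by norm_num) (by norm_num) g1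
    rw [map_mul, map_mul, map_sub, map_zero, rn_z, rn_z, t2, t1] at g2
    have k2 : (z 0 ^ 2 * z 1 : Z p) ∈ R 4 3 := by
      have g3 := Submodule.neg_mem _ g2
      have e : -((0 - z 0) * z 0 * z 1 : Z p) = z 0 ^ 2 * z 1 := by ring
      rw [e] at g3
      exact g3
    have k1 : (z 0 * z 1 ^ 2 : Z p) ∈ R 4 3 := by
      have g3 := n32_sw h.toMS (by norm_num) (i := 0) (j := 1) (by norm_num) (by norm_num) k2
      rw [map_mul, map_pow, rn_z, rn_z, s0, s1, mul_comm] at g3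
      exact g3
    have g4 := h.dd 4 3 0 1 (by norm_num) (by norm_num) (by norm_num) n01 _ k2
    rw [dd_two (z_NV n10)] at g4
    have k0 : (z 1 ^ 3 : Z p) ∈ R 4 3 := by
      have g5 := Submodule.sub_mem _ k1 g4
      have e : (z 0 * z 1 ^ 2 - (z 0 - z 1) * z 1 * z 1 : Z p) = z 1 ^ 3 := by ring
      rw [e] at g5
      exact g5
    have k3 : (z 0 ^ 3 : Z p) ∈ R 4 3 := by
      have g3 := n32_sw h.toMS (by norm_num) (i := 0) (j := 1) (by norm_num) (by norm_num) k0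
      rw [map_pow, rn_z, s1] at g3
      exact g3
    exact n32_all h3 h hl h4 (by norm_num) le_rfl k0 k1 k2 k3
  · have z0 := hl.su.zer 0 (by norm_num)
    have z1 := hl.su.zer 1 (by norm_num)
    have e0 : ev 0 (E23 a) = a 0 • (z 1 ^ 3 : Z p) := by
      unfold E23
      simp only [map_add, map_smul, map_mul, map_pow, ev_z, if_true, one_ne_zero, if_false]
      simp
    have e1 : ev 1 (E23 a) = a 3 • (z 0 ^ 3 : Z p) := by
      unfold E23
      simp only [map_add, map_smul, map_mul, map_pow, ev_z, if_true, zero_ne_one, if_false]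
      simp
    rw [hu, e0] at z0
    rw [hu, e1] at z1
    have k3 : (z 0 ^ 3 : Z p) ∈ R 3 3 := by
      by_cases ha : a 3 = 0
      · have ha0 : a 0 ≠ 0 := fun h0 => hc ⟨h0, ha⟩
        have h6 := (Submodule.smul_mem_iff _ ha0).1 z0
        have h7 := n32_sw h.toMS (by norm_num) (i := 0) (j := 1) (by norm_num) (by norm_num) h6
        rw [map_pow, rn_z, s1] at h7
        exact h7
      · exact (Submodule.smul_mem_iff _ ha).1 z1
    have k0 : (z 1 ^ 3 : Z p) ∈ R 3 3 := by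
      have g3 := n32_sw h.toMS (by norm_num) (i := 0) (j := 1) (by norm_num) (by norm_num) k3
      rw [map_pow, rn_z, s0] at g3
      exact g3
    have g4 := h.dd 3 3 0 1 (by norm_num) (by norm_num) (by norm_num) n01 _ k3
    have g5 := dd_three (p := p) (i := 0) (j := 1) (Subalgebra.one_mem (NV 0))
    rw [mul_one, mul_one] at g5
    rw [g5] at g4
    have g6 := (Submodule.smul_mem_iff _ (n32_two h3)).1 g4
    have k1 : (z 0 * z 1 ^ 2 : Z p) ∈ R 3 3 := by
      have g7 := Submodule.add_mem _ g6 k0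
      have e : ((z 0 - z 1) * z 1 ^ 2 + z 1 ^ 3 : Z p) = z 0 * z 1 ^ 2 := by ring
      rw [e] at g7
      exact g7
    have k2 : (z 0 ^ 2 * z 1 : Z p) ∈ R 3 3 := by
      have g3 := n32_sw h.toMS (by norm_num) (i := 0) (j := 1) (by norm_num) (by norm_num) k1
      rw [map_mul, map_pow, rn_z, rn_z, s0, s1, mul_comm] at g3
      exact g3
    exact n32_all h3 h hl h4 (by norm_num) (by norm_num) k0 k1 k2 k3

end ADQ
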