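import Pool.Agent.ADQ.Tool1

/-! # ADQ-ExpR: the effect of a permutation on `E34` and `E33` -/

namespace ADQ

open AD ADN ADC

variable {p : ℕ}

private theorem expr_six (σ : Equiv.Perm ℕ) (h : ∀ i, 3 ≤ i → σ i = i) :
    (σ 0 = 0 ∧ σ 1 = 1 ∧ σ 2 = 2) ∨ (σ 0 = 0 ∧ σ 1 = 2 ∧ σ 2 = 1) ∨ (σ 0 = 1 ∧ σ 1 = 0 ∧ σ 2 = 2) ∨
    (σ 0 = 1 ∧ σ 1 = 2 ∧ σ 2 = 0) ∨ (σ 0 = 2 ∧ σ 1 = 0 ∧ σ 2 = 1) ∨ (σ 0 = 2 ∧ σ 1 = 1 ∧ σ 2 = 0) := by
  have hlt : ∀ i, i < 3 → σ i < 3 := by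
    intro i hi
    by_contra hn
    have h1 := h (σ i) (not_lt.1 hn)
    have h2 := σ.injective h1
    omega
  have h0 := hlt 0 (by omega)
  have h1 := hlt 1 (by omega)
  have h2 := hlt 2 (by omega)
  have n01 : σ 0 ≠ σ 1 := σ.injective.ne (by omega)
  have n02 : σ 0 ≠ σ 2 := σ.injective.ne (by omega)
  have n12 : σ 1 ≠ σ 2 := σ.injective.ne (by omega)
  omega

private theorem expr_symm {σ : Equiv.Perm ℕ} {i j : ℕ} (h : σ i = j) : σ.symm j = i := by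
  rw [← h, Equiv.symm_apply_apply]

/-- the effect of a permutation on `E34` and `E33` -/
theorem rn_E34 (σ : Equiv.Perm ℕ) (h : ∀ i, 3 ≤ i → σ i = i) (a : ℕ → ZMod p) (b : ℕ → ℕ → ZMod p)
    (g d : ℕ → ZMod p) : rn σ (E34 a b g d) =
    E34 (fun i => a (σ.symm i)) (fun i j => b (σ.symm i) (σ.symm j)) (fun i => g (σ.symm i)) (fun i => d (σ.symm i)) := by
  rcases expr_six σ h with ⟨h0, h1, h2⟩ | ⟨h0, h1, h2⟩ | ⟨h0, h1, h2⟩ | ⟨h0, h1, h2⟩ | ⟨h0, h1, h2⟩ | ⟨h0, h1, h2⟩ <;>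
  · have s0 := expr_symm h0
    have s1 := expr_symm h1
    have s2 := expr_symm h2
    unfold E34
    simp only [map_add, map_smul, map_mul, map_pow, rn_z, h0, h1, h2, s0, s1, s2]
    all_goals simp only [MvPolynomial.smul_eq_C_mul]
    all_goals ring

theorem rn_E33 (σ : Equiv.Perm ℕ) (h : ∀ i, 3 ≤ i → σ i = i) (a : ℕ → ZMod p) (b : ℕ → ℕ → ZMod p)
    (c : ZMod p) : rn σ (E33 a b c) =
    E33 (fun i => a (σ.symm i)) (fun i j => b (σ.symm i) (σ.symm j)) c := by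
  rcases expr_six σ h with ⟨h0, h1, h2⟩ | ⟨h0, h1, h2⟩ | ⟨h0, h1, h2⟩ | ⟨h0, h1, h2⟩ | ⟨h0, h1, h2⟩ | ⟨h0, h1, h2⟩ <;>
  · have s0 := expr_symm h0
    have s1 := expr_symm h1
    have s2 := expr_symm h2
    unfold E33
    simp only [map_add, map_smul, map_mul, map_pow, rn_z, h0, h1, h2, s0, s1, s2]
    all_goals simp only [MvPolynomial.smul_eq_C_mul]
    all_goals ring

end ADQ
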