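import Pool.Agent.ADQ.Tool2b
import Pool.Agent.ADQ.Tool2c
import Pool.Agent.ADQ.ExpD
import Pool.Agent.ADQ.ExpR

/-!
# ADQ-Soc33

`y = E33 a b c`, `t = z_0 z_1 z_2`, `s_i = 2 a_i + b_ij + b_ik`.  `dd01_E33`: `dd 0 1 y = (z_0 - z_1) z_1 ((2 a_0 + b_01) z_1 + b_02 z_2) = s_0 p_01 + b_02 F_1` where `p_ij = (z_i - z_j) z_j^2`, `F_1 = F3 1 0 2 = z_1 (z_0 - z_1) (z_2 - z_1) = t - z_1^2 z_2 - p_01`.
In general (`dd_rn`, `rn_E33`) `dd i j y = s_i p_ij + b_ik F_j ∈ R 3 3`, `{i,j,k} = {0,1,2}`.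
Case 1: `s_i ≠ 0` for some `i`: take `j ≠ i`, apply the transposition `(i k)` and subtract: `s_i (p_ij - p_kj) = s_i (z_i - z_k) z_j^2 ∈ R`, so all `G3 ∈ R 3 3`; `dd 1 0 (z_1^2 (z_2 - z_0)) = (z_1 - z_0) z_0 (z_2 - z_0)` is `F3 0 1 2`, so all `F_j ∈ R`, then `p_ij ∈ R` and `z_j^2 z_k ≡ t`, `z_j^3 ≡ z_i z_j^2`: all monomials
are `≡ t`, `y ≡ τ t`, take `a = 0`.
Case 2: all `s_i = 0`: `b_ik F_j ∈ R`.  If all `b_ik = 0`: `a_i = 0` (`2 ≠ 0`), `y = c t`.  Otherwise all `F_j ∈ R`, and `y = ∑_i ((b_ij - b_ik)/2 (z_i^2 z_j - z_i^2 z_k) + (b_ij + b_ik)/2 (z_i^2 z_j + z_i^2 z_k - z_i^3)) + c t`, `z_i^2 z_j + z_i^2 z_k - z_i^3 = t - F_i`.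
-/

namespace ADQ

open AD ADN ADC

variable {p : ℕ} [Fact p.Prime] {R : ℕ → ℕ → Submodule (ZMod p) (Z p)}

private theorem s33_two (h3 : 3 ≤ p) : (2 : ZMod p) ≠ 0 := by
  intro h
  have h1 : ((2 : ℕ) : ZMod p) = 0 := by exact_mod_cast h
  have h2 := (ZMod.natCast_eq_zero_iff 2 p).1 h1
  have h4 := Nat.le_of_dvd (by norm_num) h2
  omega

private theorem s33_rn (h : MS3 p R) (σ : Equiv.Perm ℕ) (hσ : ∀ i, 3 ≤ i → σ i = i) {F : Z p}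
    (hF : F ∈ R 3 3) : rn σ F ∈ R 3 3 :=
  h.toMS.GAs (by norm_num) _ (GA_rn σ hσ) F hF

private theorem s33_cancel {S : Submodule (ZMod p) (Z p)} {s : ZMod p} (hs : s ≠ 0) {F : Z p} (h : s • F ∈ S) : F ∈ S := by
  have h1 := S.smul_mem s⁻¹ h
  rwa [smul_smul, inv_mul_cancel₀ hs, one_smul] at h1

private theorem s33_B (h : MS3 p R) {a : ℕ → ZMod p} {b : ℕ → ℕ → ZMod p} {c : ZMod p}
    (hd : ∀ i < 3, ∀ j < 3, i ≠ j → dd i j (E33 a b c) ∈ R 3 3) (σ : Equiv.Perm ℕ)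
    (hσ : ∀ i, 3 ≤ i → σ i = i) (h0 : σ 0 < 3) (h1 : σ 1 < 3) :
    (2 * a (σ 0) + b (σ 0) (σ 1) + b (σ 0) (σ 2)) • ((z 0 - z 1) * z 1 ^ 2 : Z p) +
      b (σ 0) (σ 2) • F3 1 0 2 ∈ R 3 3 := by
  have hs : ∀ i, 3 ≤ i → σ⁻¹ i = i := fun i hi => by
    rw [Equiv.Perm.inv_eq_iff_eq]
    exact (hσ i hi).symm
  have hne : σ 0 ≠ σ 1 := fun e => by
    have := σ.injective e
    omega
  have e1 := s33_rn h σ⁻¹ hs (hd (σ 0) h0 (σ 1) h1 hne)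
  have i0 : σ⁻¹ (σ 0) = 0 := σ.symm_apply_apply 0
  have i1 : σ⁻¹ (σ 1) = 1 := σ.symm_apply_apply 1
  rw [← dd_rn, i0, i1, rn_E33 σ⁻¹ hs, dd01_E33] at e1
  have e3 : ∀ i, (σ⁻¹).symm i = σ i := fun i => rfl
  simp only [e3] at e1
  have e2 : (2 * a (σ 0) + b (σ 0) (σ 1) + b (σ 0) (σ 2)) • ((z 0 - z 1) * z 1 ^ 2 : Z p) +
      b (σ 0) (σ 2) • F3 1 0 2 =
      (z 0 - z 1) * z 1 * ((2 * a (σ 0) + b (σ 0) (σ 1)) • z 1 + b (σ 0) (σ 2) • z 2) := by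
    unfold F3
    simp only [MvPolynomial.smul_eq_C_mul, map_add, map_mul, map_ofNat]
    ring
  rw [e2]
  exact e1

private theorem s33_fix01 : ∀ i, 3 ≤ i → (Equiv.swap (0 : ℕ) 1) i = i := fun i hi =>
  Equiv.swap_apply_of_ne_of_ne (by omega) (by omega)
private theorem s33_fix02 : ∀ i, 3 ≤ i → (Equiv.swap (0 : ℕ) 2) i = i := fun i hi =>
  Equiv.swap_apply_of_ne_of_ne (by omega) (by omega)
private theorem s33_fix12 : ∀ i, 3 ≤ i → (Equiv.swap (1 : ℕ) 2) i = i := fun i hi =>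
  Equiv.swap_apply_of_ne_of_ne (by omega) (by omega)

private theorem s33_A [Fact p.Prime] (h : MS3 p R) {s β : ZMod p} (hs : s ≠ 0)
    (h1 : s • ((z 0 - z 1) * z 1 ^ 2 : Z p) + β • F3 1 0 2 ∈ R 3 3) :
    (G3 1 2 0 : Z p) ∈ R 3 3 ∧ (F3 1 0 2 : Z p) ∈ R 3 3 ∧ ((z 0 - z 1) * z 1 ^ 2 : Z p) ∈ R 3 3 := by
  have hG : (G3 1 2 0 : Z p) ∈ R 3 3 := by
    have h2 := s33_rn h (Equiv.swap 0 2) s33_fix02 h1
    have h3 := (R 3 3).sub_mem h2 h1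
    apply s33_cancel hs
    have e : rn (Equiv.swap (0 : ℕ) 2) (s • ((z 0 - z 1) * z 1 ^ 2 : Z p) + β • F3 1 0 2) -
        (s • ((z 0 - z 1) * z 1 ^ 2 : Z p) + β • F3 1 0 2) = s • G3 1 2 0 := by
      unfold F3 G3
      simp only [map_add, map_smul, map_mul, map_sub, map_pow, rn_z]
      rw [show (Equiv.swap (0 : ℕ) 2) 0 = 2 from rfl, show (Equiv.swap (0 : ℕ) 2) 1 = 1 from rfl,
        show (Equiv.swap (0 : ℕ) 2) 2 = 0 from rfl]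
      simp only [MvPolynomial.smul_eq_C_mul]
      ring
    rwa [e] at h3
  have hF0 : (F3 0 1 2 : Z p) ∈ R 3 3 := by
    have h2 := h.dd 3 3 1 0 (by norm_num) (by norm_num) (by norm_num) (by norm_num) _ hG
    have e : dd 1 0 (G3 1 2 0 : Z p) = F3 0 1 2 := by
      unfold G3 F3
      rw [dd_two (Subalgebra.sub_mem _ (z_NV (by norm_num)) (z_NV (by norm_num)))]
      ring
    rwa [e] at h2
  have hF : (F3 1 0 2 : Z p) ∈ R 3 3 := by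
    have h2 := s33_rn h (Equiv.swap 0 1) s33_fix01 hF0
    have e : rn (Equiv.swap (0 : ℕ) 1) (F3 0 1 2 : Z p) = F3 1 0 2 := by
      unfold F3
      simp only [map_mul, map_sub, rn_z]
      rw [show (Equiv.swap (0 : ℕ) 1) 0 = 1 from rfl, show (Equiv.swap (0 : ℕ) 1) 1 = 0 from rfl,
        show (Equiv.swap (0 : ℕ) 1) 2 = 2 from rfl]
    rwa [e] at h2
  refine ⟨hG, hF, ?_⟩
  apply s33_cancel hs
  have h2 := (R 3 3).sub_mem h1 ((R 3 3).smul_mem β hF)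
  rwa [add_sub_cancel_right] at h2

private theorem s33_one (h : MS3 p R) (hG : (G3 1 2 0 : Z p) ∈ R 3 3) (hF : (F3 1 0 2 : Z p) ∈ R 3 3)
    (hp : ((z 0 - z 1) * z 1 ^ 2 : Z p) ∈ R 3 3) (a : ℕ → ZMod p) (b : ℕ → ℕ → ZMod p) (c : ZMod p) :
    E33 a b c - (a 0 + a 1 + a 2 + b 0 1 + b 0 2 + b 1 0 + b 1 2 + b 2 0 + b 2 1 + c) •
      (z 0 * z 1 * z 2) ∈ R 3 3 := by
  have m1 : (z 1 ^ 2 * z 2 - z 0 * z 1 * z 2 : Z p) ∈ R 3 3 := by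
    have h1 := (R 3 3).neg_mem ((R 3 3).add_mem hF hp)
    have e : -(F3 1 0 2 + (z 0 - z 1) * z 1 ^ 2) = (z 1 ^ 2 * z 2 - z 0 * z 1 * z 2 : Z p) := by
      unfold F3
      ring
    rwa [e] at h1
  have m2 : (z 1 ^ 2 * z 0 - z 0 * z 1 * z 2 : Z p) ∈ R 3 3 := by
    have h1 := (R 3 3).sub_mem m1 hG
    have e : (z 1 ^ 2 * z 2 - z 0 * z 1 * z 2 - G3 1 2 0 : Z p) = z 1 ^ 2 * z 0 - z 0 * z 1 * z 2 := by
      unfold G3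
      ring
    rwa [e] at h1
  have m3 : (z 1 ^ 3 - z 0 * z 1 * z 2 : Z p) ∈ R 3 3 := by
    have h1 := (R 3 3).sub_mem m2 hp
    have e : (z 1 ^ 2 * z 0 - z 0 * z 1 * z 2 - (z 0 - z 1) * z 1 ^ 2 : Z p) = z 1 ^ 3 - z 0 * z 1 * z 2 := by
      ring
    rwa [e] at h1
  have t01 : ∀ F : Z p, F ∈ R 3 3 → rn (Equiv.swap (0 : ℕ) 1) F ∈ R 3 3 := fun F hF =>
    s33_rn h _ s33_fix01 hF
  have t12 : ∀ F : Z p, F ∈ R 3 3 → rn (Equiv.swap (1 : ℕ) 2) F ∈ R 3 3 := fun F hF =>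
    s33_rn h _ s33_fix12 hF
  have n1 := t01 _ m1
  have n2 := t01 _ m2
  have n3 := t01 _ m3
  have l1 := t12 _ m1
  have l2 := t12 _ m2
  have l3 := t12 _ m3
  simp only [map_mul, map_sub, map_pow, rn_z] at n1 n2 n3 l1 l2 l3
  rw [show (Equiv.swap (0 : ℕ) 1) 0 = 1 from rfl, show (Equiv.swap (0 : ℕ) 1) 1 = 0 from rfl,
    show (Equiv.swap (0 : ℕ) 1) 2 = 2 from rfl] at n1 n2 n3
  rw [show (Equiv.swap (1 : ℕ) 2) 0 = 0 from rfl, show (Equiv.swap (1 : ℕ) 2) 1 = 2 from rfl,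
    show (Equiv.swap (1 : ℕ) 2) 2 = 1 from rfl] at l1 l2 l3
  have e : E33 a b c - (a 0 + a 1 + a 2 + b 0 1 + b 0 2 + b 1 0 + b 1 2 + b 2 0 + b 2 1 + c) •
      (z 0 * z 1 * z 2) =
      a 0 • (z 0 ^ 3 - z 1 * z 0 * z 2) + a 1 • (z 1 ^ 3 - z 0 * z 1 * z 2) + a 2 • (z 2 ^ 3 - z 0 * z 2 * z 1) +
      b 0 1 • (z 0 ^ 2 * z 1 - z 1 * z 0 * z 2) + b 0 2 • (z 0 ^ 2 * z 2 - z 1 * z 0 * z 2) +
      b 1 0 • (z 1 ^ 2 * z 0 - z 0 * z 1 * z 2) + b 1 2 • (z 1 ^ 2 * z 2 - z 0 * z 1 * z 2) +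
      b 2 0 • (z 2 ^ 2 * z 0 - z 0 * z 2 * z 1) + b 2 1 • (z 2 ^ 2 * z 1 - z 0 * z 2 * z 1) := by
    unfold E33
    simp only [MvPolynomial.smul_eq_C_mul, map_add]
    ring
  rw [e]
  have sm : ∀ (x : ZMod p) (F : Z p), F ∈ R 3 3 → x • F ∈ R 3 3 := fun x F hF => (R 3 3).smul_mem x hF
  have ad : ∀ F G : Z p, F ∈ R 3 3 → G ∈ R 3 3 → F + G ∈ R 3 3 := fun F G hF hG => (R 3 3).add_mem hF hG
  exact ad _ _ (ad _ _ (ad _ _ (ad _ _ (ad _ _ (ad _ _ (ad _ _ (ad _ _ (sm _ _ n3) (sm _ _ m3)) (sm _ _ l3))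
    (sm _ _ n2)) (sm _ _ n1)) (sm _ _ m2)) (sm _ _ m1)) (sm _ _ l2)) (sm _ _ l1)

/-- the trichotomy -/
private theorem s33_main (h3 : 3 ≤ p) (h : MS3 p R) {a : ℕ → ZMod p} {b : ℕ → ℕ → ZMod p} {c : ZMod p}
    (hd : ∀ i < 3, ∀ j < 3, i ≠ j → dd i j (E33 a b c) ∈ R 3 3) :
    ((G3 1 2 0 : Z p) ∈ R 3 3 ∧ (F3 1 0 2 : Z p) ∈ R 3 3 ∧ ((z 0 - z 1) * z 1 ^ 2 : Z p) ∈ R 3 3) ∨
    ((F3 1 0 2 : Z p) ∈ R 3 3 ∧ 2 * a 0 + b 0 1 + b 0 2 = 0 ∧ 2 * a 1 + b 1 0 + b 1 2 = 0 ∧ 2 * a 2 + b 2 0 + b 2 1 = 0) ∨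
    E33 a b c = c • (z 0 * z 1 * z 2) := by
  have B01 := s33_B h hd 1 (fun i _ => rfl) (by norm_num) (by norm_num)
  have B10 := s33_B h hd (Equiv.swap 0 1) s33_fix01 (by decide) (by decide)
  have B02 := s33_B h hd (Equiv.swap 1 2) s33_fix12 (by decide) (by decide)
  have B21 := s33_B h hd (Equiv.swap 0 2) s33_fix02 (by decide) (by decide)
  have B12 := s33_B h hd (Equiv.swap 0 1 * Equiv.swap 1 2)
    (fun i hi => by rw [Equiv.Perm.mul_apply, s33_fix12 i hi, s33_fix01 i hi]) (by decide) (by decide)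
  have B20 := s33_B h hd (Equiv.swap 1 2 * Equiv.swap 0 1)
    (fun i hi => by rw [Equiv.Perm.mul_apply, s33_fix01 i hi, s33_fix12 i hi]) (by decide) (by decide)
  change (2 * a 0 + b 0 1 + b 0 2) • ((z 0 - z 1) * z 1 ^ 2 : Z p) + b 0 2 • F3 1 0 2 ∈ R 3 3 at B01
  change (2 * a 1 + b 1 0 + b 1 2) • ((z 0 - z 1) * z 1 ^ 2 : Z p) + b 1 2 • F3 1 0 2 ∈ R 3 3 at B10
  change (2 * a 0 + b 0 2 + b 0 1) • ((z 0 - z 1) * z 1 ^ 2 : Z p) + b 0 1 • F3 1 0 2 ∈ R 3 3 at B02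
  change (2 * a 2 + b 2 1 + b 2 0) • ((z 0 - z 1) * z 1 ^ 2 : Z p) + b 2 0 • F3 1 0 2 ∈ R 3 3 at B21
  change (2 * a 1 + b 1 2 + b 1 0) • ((z 0 - z 1) * z 1 ^ 2 : Z p) + b 1 0 • F3 1 0 2 ∈ R 3 3 at B12
  change (2 * a 2 + b 2 0 + b 2 1) • ((z 0 - z 1) * z 1 ^ 2 : Z p) + b 2 1 • F3 1 0 2 ∈ R 3 3 at B20
  by_cases s0 : 2 * a 0 + b 0 1 + b 0 2 = 0
  swap
  · exact Or.inl (s33_A h s0 B01)
  by_cases s1 : 2 * a 1 + b 1 0 + b 1 2 = 0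
  swap
  · exact Or.inl (s33_A h s1 B10)
  by_cases s2 : 2 * a 2 + b 2 0 + b 2 1 = 0
  swap
  · exact Or.inl (s33_A h s2 B20)
  have s0' : 2 * a 0 + b 0 2 + b 0 1 = 0 := by rw [← s0]; ring
  have s1' : 2 * a 1 + b 1 2 + b 1 0 = 0 := by rw [← s1]; ring
  have s2' : 2 * a 2 + b 2 1 + b 2 0 = 0 := by rw [← s2]; ring
  rw [s0, zero_smul, zero_add] at B01
  rw [s0', zero_smul, zero_add] at B02
  rw [s1, zero_smul, zero_add] at B10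
  rw [s1', zero_smul, zero_add] at B12
  rw [s2, zero_smul, zero_add] at B20
  rw [s2', zero_smul, zero_add] at B21
  right
  by_cases b02 : b 0 2 = 0
  swap
  · exact Or.inl ⟨s33_cancel b02 B01, s0, s1, s2⟩
  by_cases b01 : b 0 1 = 0
  swap
  · exact Or.inl ⟨s33_cancel b01 B02, s0, s1, s2⟩
  by_cases b12 : b 1 2 = 0
  swap
  · exact Or.inl ⟨s33_cancel b12 B10, s0, s1, s2⟩
  by_cases b10 : b 1 0 = 0
  swap
  · exact Or.inl ⟨s33_cancel b10 B12, s0, s1, s2⟩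
  by_cases b21 : b 2 1 = 0
  swap
  · exact Or.inl ⟨s33_cancel b21 B20, s0, s1, s2⟩
  by_cases b20 : b 2 0 = 0
  swap
  · exact Or.inl ⟨s33_cancel b20 B21, s0, s1, s2⟩
  right
  rw [b01, b02, add_zero, add_zero] at s0
  rw [b10, b12, add_zero, add_zero] at s1
  rw [b20, b21, add_zero, add_zero] at s2
  have a0 := (mul_eq_zero.1 s0).resolve_left (s33_two h3)
  have a1 := (mul_eq_zero.1 s1).resolve_left (s33_two h3)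
  have a2 := (mul_eq_zero.1 s2).resolve_left (s33_two h3)
  unfold E33
  rw [a0, a1, a2, b01, b02, b10, b12, b20, b21]
  simp only [zero_smul, zero_add]

private theorem s33_F0 (h : MS3 p R) (hF : (F3 1 0 2 : Z p) ∈ R 3 3) :
    (F3 0 1 2 : Z p) ∈ R 3 3 ∧ (F3 2 0 1 : Z p) ∈ R 3 3 := by
  constructor
  · have h2 := s33_rn h (Equiv.swap 0 1) s33_fix01 hF
    have e : rn (Equiv.swap (0 : ℕ) 1) (F3 1 0 2 : Z p) = F3 0 1 2 := by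
      unfold F3
      simp only [map_mul, map_sub, rn_z]
      rw [show (Equiv.swap (0 : ℕ) 1) 0 = 1 from rfl, show (Equiv.swap (0 : ℕ) 1) 1 = 0 from rfl,
        show (Equiv.swap (0 : ℕ) 1) 2 = 2 from rfl]
    rwa [e] at h2
  · have h2 := s33_rn h (Equiv.swap 1 2) s33_fix12 hF
    have e : rn (Equiv.swap (1 : ℕ) 2) (F3 1 0 2 : Z p) = F3 2 0 1 := by
      unfold F3
      simp only [map_mul, map_sub, rn_z]
      rw [show (Equiv.swap (1 : ℕ) 2) 0 = 0 from rfl, show (Equiv.swap (1 : ℕ) 2) 1 = 2 from rfl,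
        show (Equiv.swap (1 : ℕ) 2) 2 = 1 from rfl]
    rwa [e] at h2

theorem soc33 (h3 : 3 ≤ p) (h : MS3 p R) {y : Z p} (hy : y ∈ Hh p 3 3)
    (hd : ∀ i < 3, ∀ j < 3, i ≠ j → dd i j y ∈ R 3 3) : ∃ (τ : ZMod p) (a : ℕ → ZMod p),
    y - τ • (z 0 * z 1 * z 2) - (a 0 • G3 0 1 2 + a 1 • G3 1 2 0 + a 2 • G3 2 0 1) ∈ R 3 3 ∧
      ((a 0 = 0 ∧ a 1 = 0 ∧ a 2 = 0) ∨ F3 0 1 2 ∈ R 3 3) := by
  obtain ⟨a, b, c, rfl⟩ := exp33 hy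
  rcases s33_main h3 h hd with ⟨hG, hF, hp⟩ | ⟨hF, s0, s1, s2⟩ | he
  · refine ⟨a 0 + a 1 + a 2 + b 0 1 + b 0 2 + b 1 0 + b 1 2 + b 2 0 + b 2 1 + c, fun _ => 0, ?_,
      Or.inl ⟨rfl, rfl, rfl⟩⟩
    have h1 := s33_one h hG hF hp a b c
    simpa only [zero_smul, add_zero, sub_zero] using h1
  · obtain ⟨hF0, hF2⟩ := s33_F0 h hF
    obtain ⟨u, hu⟩ : ∃ u : ZMod p, 2 * u = 1 := ⟨2⁻¹, mul_inv_cancel₀ (s33_two h3)⟩
    refine ⟨c + u * (b 0 1 + b 0 2) + u * (b 1 0 + b 1 2) + u * (b 2 0 + b 2 1),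
      fun i => if i = 0 then u * (b 0 1 - b 0 2) else if i = 1 then u * (b 1 2 - b 1 0) else u * (b 2 0 - b 2 1),
      ?_, Or.inr hF0⟩
    have a0 : a 0 = -(u * (b 0 1 + b 0 2)) := by linear_combination u * s0 - a 0 * hu
    have a1 : a 1 = -(u * (b 1 0 + b 1 2)) := by linear_combination u * s1 - a 1 * hu
    have a2 : a 2 = -(u * (b 2 0 + b 2 1)) := by linear_combination u * s2 - a 2 * hu
    have hu' : (2 : Z p) * MvPolynomial.C u = 1 := by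
      have h1 := congrArg (MvPolynomial.C (σ := ℕ)) hu
      rwa [map_mul, map_ofNat, map_one] at h1
    have e : E33 a b c - (c + u * (b 0 1 + b 0 2) + u * (b 1 0 + b 1 2) + u * (b 2 0 + b 2 1)) • (z 0 * z 1 * z 2) -
        ((u * (b 0 1 - b 0 2)) • G3 0 1 2 + (u * (b 1 2 - b 1 0)) • G3 1 2 0 + (u * (b 2 0 - b 2 1)) • G3 2 0 1) =
        -((u * (b 0 1 + b 0 2)) • F3 0 1 2 + (u * (b 1 0 + b 1 2)) • F3 1 0 2 + (u * (b 2 0 + b 2 1)) • F3 2 0 1) := by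
      unfold E33 G3 F3
      rw [a0, a1, a2]
      simp only [MvPolynomial.smul_eq_C_mul, map_add, map_mul, map_sub, map_neg]
      linear_combination (-(MvPolynomial.C (b 0 1) * (z 0 ^ 2 * z 1) + MvPolynomial.C (b 0 2) * (z 0 ^ 2 * z 2) +
        MvPolynomial.C (b 1 0) * (z 1 ^ 2 * z 0) + MvPolynomial.C (b 1 2) * (z 1 ^ 2 * z 2) +
        MvPolynomial.C (b 2 0) * (z 2 ^ 2 * z 0) + MvPolynomial.C (b 2 1) * (z 2 ^ 2 * z 1))) * hu'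
    simp only [if_true, if_neg (by norm_num : ¬ (1 : ℕ) = 0), if_neg (by norm_num : ¬ (2 : ℕ) = 0),
      if_neg (by norm_num : ¬ (2 : ℕ) = 1)]
    rw [e]
    exact (R 3 3).neg_mem ((R 3 3).add_mem ((R 3 3).add_mem ((R 3 3).smul_mem _ hF0) ((R 3 3).smul_mem _ hF))
      ((R 3 3).smul_mem _ hF2))
  · refine ⟨c, fun _ => 0, ?_, Or.inl ⟨rfl, rfl, rfl⟩⟩
    rw [he]
    simp

/-- the same computation for an element of `Hh p 3 3`, exactly -/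
theorem soc33' (h3 : 3 ≤ p) (h : MS3 p R) {y : Z p} (hy : y ∈ Hh p 3 3)
    (hd : ∀ i < 3, ∀ j < 3, i ≠ j → dd i j y ∈ R 3 3) (hF : F3 0 1 2 ∉ R 3 3) : ∃ c : ZMod p,
    y = c • (z 0 * z 1 * z 2) := by
  obtain ⟨a, b, c, rfl⟩ := exp33 hy
  rcases s33_main h3 h hd with ⟨-, hF1, -⟩ | ⟨hF1, -⟩ | he
  · exact absurd (s33_F0 h hF1).1 hF
  · exact absurd (s33_F0 h hF1).1 hF
  · exact ⟨c, he⟩

end ADQ
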