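import Pool.Agent.ADQ.Tool2b
import Pool.Agent.ADQ.Tool2c
import Pool.Agent.ADQ.ExpN

/-!
# ADQ-Sq22

`y = ∑_S g_S z_S^2 + t`, `t ∈ Nt p n ≤ R n 4` (`expN4`; `z_S^2 = z_a^2 z_b^2` for `S = {a, b}`).  If `g {i,k} ≠ 0`, choose `j ≠ i, k`:
`dd k i (dd i j z_S^2) = 0` for all `S ≠ {i,k}`, and for `S = {i,k}` it is `(z_k - z_i) z_i (z_i - z_j) z_j ≡ z_i^2 z_j^2` modulo `Nt`.
So `z_i^2 z_j^2 ∈ R n 4`, and all `z_a^2 z_b^2 ∈ R n 4` (`ren`).
-/

namespace ADQ

open AD ADN ADC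

variable {p : ℕ} [Fact p.Prime] {R : ℕ → ℕ → Submodule (ZMod p) (Z p)}

private theorem sq_nt3 {n i j : ℕ} (hi : i < n) (hj : j < n) (hij : i ≠ j) : (z i ^ 3 * z j : Z p) ∈ Nt p n := by
  refine Submodule.subset_span ⟨Finsupp.single i 3 + Finsupp.single j 1, ?_, ?_, ?_, ?_⟩
  · intro a ha
    rw [Finsupp.add_apply, Finsupp.single_apply, Finsupp.single_apply, if_neg (by omega), if_neg (by omega),
      add_zero]
  · rw [map_add, Finsupp.degree_single, Finsupp.degree_single]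
  · intro a b hab h
    obtain ⟨h1, h2⟩ := h
    rw [Finsupp.add_apply, Finsupp.single_apply, Finsupp.single_apply] at h1
    split_ifs at h1 <;> omega
  · rw [mo_add, mo_single, mo_single, pow_one]

private theorem sq_nt2 {n i j k : ℕ} (hi : i < n) (hj : j < n) (hk : k < n) (hij : i ≠ j) (hik : i ≠ k)
    (hjk : j ≠ k) : (z i ^ 2 * z j * z k : Z p) ∈ Nt p n := by
  refine Submodule.subset_span ⟨Finsupp.single i 2 + Finsupp.single j 1 + Finsupp.single k 1, ?_, ?_, ?_, ?_⟩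
  · intro a ha
    rw [Finsupp.add_apply, Finsupp.add_apply, Finsupp.single_apply, Finsupp.single_apply, Finsupp.single_apply,
      if_neg (by omega), if_neg (by omega), if_neg (by omega), add_zero, add_zero]
  · rw [map_add, map_add, Finsupp.degree_single, Finsupp.degree_single, Finsupp.degree_single]
  · intro a b hab h
    obtain ⟨h1, h2⟩ := h
    rw [Finsupp.add_apply, Finsupp.add_apply, Finsupp.single_apply, Finsupp.single_apply,
      Finsupp.single_apply] at h1 h2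
    split_ifs at h1 h2 <;> omega
  · rw [mo_add, mo_add, mo_single, mo_single, mo_single, pow_one, pow_one]

/-- the double operator on the squares -/
private theorem sq_dd {i j k : ℕ} (hij : i ≠ j) (hik : i ≠ k) (hjk : j ≠ k) {S : Finset ℕ} (hS : S.card = 2)
    (hne : S ≠ {i, k}) : dd k i (dd i j (∏ a ∈ S, (z a : Z p) ^ 2)) = 0 := by
  by_cases hi : i ∈ S
  · obtain ⟨a, b, hab, rfl⟩ := Finset.card_eq_two.1 hS
    rw [Finset.prod_pair hab]
    have key : ∀ b : ℕ, b ≠ i → b ≠ k → dd k i (dd i j ((z i : Z p) ^ 2 * z b ^ 2)) = 0 := by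
      intro b hb hbk
      rw [dd_two (Subalgebra.pow_mem _ (z_NV hb) 2)]
      exact dd_NV (Subalgebra.mul_mem _ (Subalgebra.mul_mem _ (Subalgebra.sub_mem _ (z_NV hik) (z_NV hjk))
        (z_NV hjk)) (Subalgebra.pow_mem _ (z_NV hbk) 2))
    rw [Finset.mem_insert, Finset.mem_singleton] at hi
    rcases hi with rfl | rfl
    · refine key b (Ne.symm hab) ?_
      rintro rfl
      exact hne rfl
    · rw [mul_comm]
      refine key a hab ?_
      rintro rfl
      exact hne (Finset.pair_comm _ _)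
  · have h1 : (∏ a ∈ S, (z a : Z p) ^ 2) ∈ NV i := by
      refine Subalgebra.prod_mem _ fun a ha => Subalgebra.pow_mem _ (z_NV ?_) 2
      rintro rfl
      exact hi ha
    rw [dd_NV h1, map_zero]

private theorem sq_ik {i j k : ℕ} (hij : i ≠ j) (hik : i ≠ k) (hjk : j ≠ k) :
    dd k i (dd i j (∏ a ∈ ({i, k} : Finset ℕ), (z a : Z p) ^ 2)) =
      z i ^ 2 * z k * z j - z j ^ 2 * z k * z i - z i ^ 3 * z j + z i ^ 2 * z j ^ 2 := by
  rw [Finset.prod_pair hik, dd_two (Subalgebra.pow_mem _ (z_NV (Ne.symm hik)) 2)]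
  have e : (z i - z j) * z j * z k ^ 2 = z k ^ 2 * ((z i - z j) * z j : Z p) := by ring
  rw [e, dd_two (Subalgebra.mul_mem _ (Subalgebra.sub_mem _ (z_NV hik) (z_NV hjk)) (z_NV hjk))]
  ring

/-- all squares from one -/
private theorem sq_all (h : MS3 p R) {n i j : ℕ} (hn : 3 ≤ n) (hi : i < n) (hj : j < n) (hij : i ≠ j)
    (h0 : (z i ^ 2 * z j ^ 2 : Z p) ∈ R n 4) {a b : ℕ} (ha : a < n) (hb : b < n) (hab : a ≠ b) :
    (z a ^ 2 * z b ^ 2 : Z p) ∈ R n 4 := by
  obtain ⟨σ, hσ⟩ : ∃ σ : Equiv.Perm ℕ, σ = Equiv.swap (Equiv.swap i a j) b * Equiv.swap i a := ⟨_, rfl⟩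
  have hja : Equiv.swap i a j ≠ a := by
    intro h'
    apply hij
    apply (Equiv.swap i a).injective
    rw [Equiv.swap_apply_left, h']
  have hsw : ∀ x y t : ℕ, x < n → y < n → t < n → Equiv.swap x y t < n := by
    intro x y t hx hy ht
    rw [Equiv.swap_apply_def]
    split_ifs <;> assumption
  have e1 : σ i = a := by
    rw [hσ, Equiv.Perm.mul_apply, Equiv.swap_apply_left, Equiv.swap_apply_of_ne_of_ne (Ne.symm hja) hab]
  have e2 : σ j = b := by
    rw [hσ, Equiv.Perm.mul_apply, Equiv.swap_apply_left]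
  have h1 := h.ren n n 4 σ (by omega) (fun t ht => by
    rw [hσ, Equiv.Perm.mul_apply]
    exact hsw _ _ _ (hsw _ _ _ hi ha hj) hb (hsw _ _ _ hi ha ht)) (fun x _ y _ hxy => σ.injective hxy) _ h0
  rw [map_mul, map_pow, map_pow, rn_z, rn_z, e1, e2] at h1
  exact h1

theorem sq22 (h3 : 3 ≤ p) (h : MS3 p R) {n : ℕ} (hn : 3 ≤ n) (hN : Nt p n ≤ R n 4) {y : Z p} (hy : y ∈ Hh p n 4)
    (hd : ∀ i < n, ∀ j < n, i ≠ j → dd i j y ∈ R n 4) : y ∈ R n 4 := by
  obtain ⟨g, t, ht, rfl⟩ := expN4 hy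
  by_cases hg : ∀ S ∈ (Finset.range n).powersetCard 2, g S = 0
  · rw [Finset.sum_eq_zero (fun S hS => by rw [hg S hS, zero_smul]), zero_add]
    exact hN ht
  push Not at hg
  obtain ⟨S0, hS0, hg0⟩ := hg
  have hS1 := hS0
  rw [Finset.mem_powersetCard] at hS1
  obtain ⟨i, k, hik, rfl⟩ := Finset.card_eq_two.1 hS1.2
  have hi : i < n := Finset.mem_range.1 (hS1.1 (Finset.mem_insert_self _ _))
  have hk : k < n := Finset.mem_range.1 (hS1.1 (Finset.mem_insert_of_mem (Finset.mem_singleton_self _)))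
  obtain ⟨j, hj, hji, hjk⟩ : ∃ j < n, j ≠ i ∧ j ≠ k := by
    by_contra hc
    push Not at hc
    have a0 := hc 0 (by omega)
    have a1 := hc 1 (by omega)
    have a2 := hc 2 (by omega)
    omega
  have h1 := hd i hi j hj (Ne.symm hji)
  rw [map_add] at h1
  have h2 : dd i j t ∈ R n 4 := h.dd n 4 i j le_rfl hi hj (Ne.symm hji) t (hN ht)
  have h4 := Submodule.sub_mem _ h1 h2
  rw [add_sub_cancel_right] at h4
  have h5 := h.dd n 4 k i le_rfl hk hi (Ne.symm hik) _ h4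
  rw [map_sum, map_sum, Finset.sum_eq_single {i, k}] at h5
  · rw [map_smul, map_smul, sq_ik (Ne.symm hji) hik hjk] at h5
    have h6 := (Submodule.smul_mem_iff _ hg0).1 h5
    have n1 : (z i ^ 2 * z k * z j : Z p) ∈ R n 4 := hN (sq_nt2 hi hk hj hik (Ne.symm hji) (Ne.symm hjk))
    have n2 : (z j ^ 2 * z k * z i : Z p) ∈ R n 4 := hN (sq_nt2 hj hk hi hjk hji (Ne.symm hik))
    have n3 : (z i ^ 3 * z j : Z p) ∈ R n 4 := hN (sq_nt3 hi hj (Ne.symm hji))
    have h7 := Submodule.sub_mem _ h6 (Submodule.sub_mem _ (Submodule.sub_mem _ n1 n2) n3)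
    rw [add_sub_cancel_left] at h7
    refine Submodule.add_mem _ (Submodule.sum_mem _ fun S hS => Submodule.smul_mem _ _ ?_) (hN ht)
    rw [Finset.mem_powersetCard] at hS
    obtain ⟨a, b, hab, rfl⟩ := Finset.card_eq_two.1 hS.2
    rw [Finset.prod_pair hab]
    exact sq_all h hn hi hj (Ne.symm hji) h7
      (Finset.mem_range.1 (hS.1 (Finset.mem_insert_self _ _)))
      (Finset.mem_range.1 (hS.1 (Finset.mem_insert_of_mem (Finset.mem_singleton_self _)))) hab
  · intro S hS hne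
    rw [map_smul, map_smul, sq_dd (Ne.symm hji) hik hjk (Finset.mem_powersetCard.1 hS).2 hne, smul_zero]
  · intro hS
    exact absurd hS0 hS

end ADQ
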