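import Pool.Agent.ADQ.NoLP01
import Pool.Agent.ADQ.NoLP2
import Pool.Agent.ADQ.NoLP32
import Pool.Agent.ADQ.Soc33
import Pool.Agent.ADQ.Cub
import Pool.Agent.ADQ.Sq22
import Pool.Agent.ADQ.P1

/-!
# ADQ-A3i (the theorem `a3i`)

`p = 3`, `t = z_0 z_1 z_2`, `G_0 = G3 0 1 2`, `G_1 = G3 1 2 0`, `G_2 = G3 2 0 1`.
`a3split`: `y ∈ R 3 3`, `y ∉ K3 3`; `soc33` for `y` (`dd i j y ∈ R`).  More precisely use its proof, or: if `F3 0 1 2 ∉ R 3 3`: `soc33'`: `y = c t`, `c ≠ 0`: `t ∈ R`, (i).  If `F3 0 1 2 ∈ R 3 3` (so all three `F3`): write `y = E33 a b c`, `s_i = 2 a_i + b_ij + b_ik`; if some `s_i ≠ 0` then (header of `Soc33`, Case 1) all `G3 ∈ R`, so (ii) with `τ = 0`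
[`D3 = G_0 + G_1 + G_2`]; if all `s_i = 0`: `y = ∑ a_j G_j + τ t - ∑ φ_j F_j`, so `y' = τ t + ∑ a_j G_j ∈ R`.  `(id + rn (swap 0 1)) y' = 2 τ t + (a_0 - a_1)(G_0 - G_1)`.  If all `a_j` are equal: `2 τ t ∈ R`; `τ = 0` would give `y ∈ K3 3`; so `t ∈ R`: (i).  If (by symmetry) `a_0 ≠ a_1`: `τ' t + G_0 - G_1 ∈ R`,
rotations: `τ' t + G_1 - G_2 ∈ R`, the difference is `G_0 - 2 G_1 + G_2 = D3` (`3 = 0`): (ii).
`a3i` (`t ∈ R 3 3`): `K3` (`n + 2 ≥ 3`, `up`): `Nt 3 n ≤ R n 4` for all `n ≥ 1`, `K5`: `Hh 3 n 5 ≤ R n 5`, `Kup`: `l ≤ 4`.  `n = 1`: `noLP_n1`.  `n ≥ 3`, `l = 4`: `sq22` for `w`.  `n ≥ 4`, `k = l = 3`: `cub`: `u ≡ s ∈ Sq 3 n 3 ≤ R n 3` (`ren`).  `n = 3`, `k = l = 3`: `soc33` for `u`, `w`: `u ≡ ∑ a_j G_j`: `P1` with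
`- rn (swap i j)`.  `n = 2`: `k = 3`: `noLP_3_2`; `k = l = 4`: `u`, `w ≡ c z_0^2 z_1^2`, `LP.rank1`.  `k ≤ 2`: `noLP_0, noLP_1, noLP_2`.
`a3ii`: `ev 2 D3 = z_0^2 z_1 - z_1^2 z_0`, `ev 2 (F3 0 1 2) = z_0^3 - z_0^2 z_1`, `ev 2 (τ t + G_0 - G_1) = z_0^2 z_1 + z_1^2 z_0`, all in `R 4 3`; so `z_0^2 z_1 ∈ R 4 3`, `z_0^3 ∈ R 4 3`, `dd 0 2 (z_0^2 z_1)`: `t ∈ R 4 3`: all monomials of degree 3 in `R m 3` for `m ≥ 4`.  `n ≥ 4`: `Hh 3 n 3 ≤ R n 3`, `Kup`: no pair.  `n = 2, 3`: `n + 2 ≥ 4`: `K0`,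
`Kup`: `l ≤ 3`, `k = l = 3`.  `n = 2`: `noLP_3_2`.  `n = 3`: `soc33`: `u ≡ x t + ∑ a_j G_j ≡ x' t + y G_0` as `G_1 ≡ G_0 + τ t`, `G_2 ≡ G_0 + 2 τ t`; `w ≡ x'' t + y'' G_0`.  `T = id - rn (swap 0 1)`: `t ↦ 0`, `G_0 ↦ G_0 + G_1 ≡ E = 2 G_0 + τ t`: `Lkd.rankT`: `y E, y'' E ∈ R`.  `E ∈ R`: `G_0 ≡ - (τ/2) t`: `LP.rank1` with `t`.
`E ∉ R`: `y = y'' = 0`, `LP.rank1`.
-/

namespace ADQ

open AD ADN ADC

variable {R : ℕ → ℕ → Submodule (ZMod 3) (Z 3)}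

private theorem a3i_Nt (h : MS3 3 R) (ht : z 0 * z 1 * z 2 ∈ R 3 3) {n : ℕ} (hn : 1 ≤ n) : Nt 3 n ≤ R n 4 :=
  h.toMS.K3 (by norm_num) hn (h.toMS.up (by norm_num) (by omega) ht)

private theorem a3i_Hh (h : MS3 3 R) (ht : z 0 * z 1 * z 2 ∈ R 3 3) {n : ℕ} (hn : 1 ≤ n) : Hh 3 n 5 ≤ R n 5 :=
  h.toMS.K5 (by norm_num) hn ((Nt_le (Nat.le_add_right n _)).trans (a3i_Nt h ht (Nat.le_add_right_of_le hn)))

/-- all squarefree elements of degree 3 are in `R` -/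
private theorem a3i_Sq (h : MS3 3 R) (ht : z 0 * z 1 * z 2 ∈ R 3 3) {n : ℕ} {s : Z 3} (hs : s ∈ Sq 3 n 3) :
    s ∈ R n 3 := by
  obtain ⟨c, rfl⟩ := expS hs
  refine Submodule.sum_mem _ fun S hS => Submodule.smul_mem _ _ ?_
  obtain ⟨hS1, hS2⟩ := Finset.mem_powersetCard.1 hS
  obtain ⟨i, j, k, hij, hik, hjk, rfl⟩ := Finset.card_eq_three.1 hS2
  have hi : i < n := Finset.mem_range.1 (hS1 (by simp))
  have hj : j < n := Finset.mem_range.1 (hS1 (by simp))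
  have hk : k < n := Finset.mem_range.1 (hS1 (by simp))
  have h1 := h.ren 3 n 3 (fun t => if t = 0 then i else if t = 1 then j else k) (by norm_num) ?_ ?_ _ ht
  · have e : rn (fun t => if t = 0 then i else if t = 1 then j else k) (z 0 * z 1 * z 2 : Z 3) =
        ∏ t ∈ {i, j, k}, z t := by
      rw [map_mul, map_mul, rn_z, rn_z, rn_z, if_pos rfl, if_neg (by norm_num), if_pos rfl, if_neg (by norm_num),
        if_neg (by norm_num), Finset.prod_insert (by simp [hij, hik]), Finset.prod_insert (by simp [hjk]),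
        Finset.prod_singleton, mul_assoc]
    rwa [e] at h1
  · intro t _
    split_ifs
    · exact hi
    · exact hj
    · exact hk
  · intro a ha b hb hab
    split_ifs at hab <;> omega

private theorem a3i_fix {i j : ℕ} (hi : i < 3) (hj : j < 3) : ∀ t, 3 ≤ t → (Equiv.swap i j) t = t := fun t ht =>
  Equiv.swap_apply_of_ne_of_ne (by omega) (by omega)

/-- the three elements `G3` -/
private noncomputable def a3e (i : ℕ) : Z 3 := if i = 0 then G3 0 1 2 else if i = 1 then G3 1 2 0 else G3 2 0 1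

private theorem a3e0 : a3e 0 = G3 0 1 2 := rfl

private theorem a3e1 : a3e 1 = G3 1 2 0 := rfl

private theorem a3e2 : a3e 2 = G3 2 0 1 := rfl

private theorem a3s01 : -(rn (Equiv.swap (0 : ℕ) 1) (a3e 0)) = a3e 1 ∧ -(rn (Equiv.swap (0 : ℕ) 1) (a3e 1)) = a3e 0 ∧
    -(rn (Equiv.swap (0 : ℕ) 1) (a3e 2)) = a3e 2 := by
  rw [a3e0, a3e1, a3e2]
  unfold G3
  simp only [map_mul, map_sub, map_pow, rn_z]
  rw [show (Equiv.swap (0 : ℕ) 1) 0 = 1 from rfl, show (Equiv.swap (0 : ℕ) 1) 1 = 0 from rfl,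
    show (Equiv.swap (0 : ℕ) 1) 2 = 2 from rfl]
  exact ⟨by ring, by ring, by ring⟩

private theorem a3s02 : -(rn (Equiv.swap (0 : ℕ) 2) (a3e 0)) = a3e 2 ∧ -(rn (Equiv.swap (0 : ℕ) 2) (a3e 2)) = a3e 0 ∧
    -(rn (Equiv.swap (0 : ℕ) 2) (a3e 1)) = a3e 1 := by
  rw [a3e0, a3e1, a3e2]
  unfold G3
  simp only [map_mul, map_sub, map_pow, rn_z]
  rw [show (Equiv.swap (0 : ℕ) 2) 0 = 2 from rfl, show (Equiv.swap (0 : ℕ) 2) 1 = 1 from rfl,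
    show (Equiv.swap (0 : ℕ) 2) 2 = 0 from rfl]
  exact ⟨by ring, by ring, by ring⟩

private theorem a3s12 : -(rn (Equiv.swap (1 : ℕ) 2) (a3e 1)) = a3e 2 ∧ -(rn (Equiv.swap (1 : ℕ) 2) (a3e 2)) = a3e 1 ∧
    -(rn (Equiv.swap (1 : ℕ) 2) (a3e 0)) = a3e 0 := by
  rw [a3e0, a3e1, a3e2]
  unfold G3
  simp only [map_mul, map_sub, map_pow, rn_z]
  rw [show (Equiv.swap (1 : ℕ) 2) 0 = 0 from rfl, show (Equiv.swap (1 : ℕ) 2) 1 = 2 from rfl,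
    show (Equiv.swap (1 : ℕ) 2) 2 = 1 from rfl]
  exact ⟨by ring, by ring, by ring⟩

private theorem a3swap {i j : ℕ} (hi : i < 3) (hj : j < 3) (hij : i ≠ j) :
    -(rn (Equiv.swap i j) (a3e i)) = a3e j ∧ -(rn (Equiv.swap i j) (a3e j)) = a3e i ∧
    ∀ k < 3, k ≠ i → k ≠ j → -(rn (Equiv.swap i j) (a3e k)) = a3e k := by
  obtain ⟨a1, a2, a3⟩ := a3s01
  obtain ⟨b1, b2, b3⟩ := a3s02
  obtain ⟨c1, c2, c3⟩ := a3s12
  interval_cases i <;> interval_cases j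
  · exact absurd rfl hij
  · refine ⟨a1, a2, fun k hk h0 h1 => ?_⟩
    have : k = 2 := by omega
    rw [this, a3]
  · refine ⟨b1, b2, fun k hk h0 h1 => ?_⟩
    have : k = 1 := by omega
    rw [this, b3]
  · rw [Equiv.swap_comm]
    refine ⟨a2, a1, fun k hk h0 h1 => ?_⟩
    have : k = 2 := by omega
    rw [this, a3]
  · exact absurd rfl hij
  · refine ⟨c1, c2, fun k hk h0 h1 => ?_⟩
    have : k = 0 := by omega
    rw [this, c3]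
  · rw [Equiv.swap_comm]
    refine ⟨b2, b1, fun k hk h0 h1 => ?_⟩
    have : k = 1 := by omega
    rw [this, b3]
  · rw [Equiv.swap_comm]
    refine ⟨c2, c1, fun k hk h0 h1 => ?_⟩
    have : k = 0 := by omega
    rw [this, c3]
  · exact absurd rfl hij

private theorem a3op : ∀ i < 3, ∀ j < 3, i ≠ j → ∃ T ∈ GA 3 3, T (a3e i) - a3e j ∈ R 3 3 ∧
    T (a3e j) - a3e i ∈ R 3 3 ∧ ∀ k < 3, k ≠ i → k ≠ j → T (a3e k) - a3e k ∈ R 3 3 := by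
  intro i hi j hj hij
  obtain ⟨h1, h2, h3⟩ := a3swap hi hj hij
  refine ⟨-(rn (Equiv.swap i j) : Z 3 →ₐ[ZMod 3] Z 3).toLinearMap, Submodule.neg_mem _ (GA_rn _ (a3i_fix hi hj)), ?_, ?_, ?_⟩
  · rw [LinearMap.neg_apply, AlgHom.toLinearMap_apply, h1, sub_self]
    exact Submodule.zero_mem _
  · rw [LinearMap.neg_apply, AlgHom.toLinearMap_apply, h2, sub_self]
    exact Submodule.zero_mem _
  · intro k hk hki hkj
    rw [LinearMap.neg_apply, AlgHom.toLinearMap_apply, h3 k hk hki hkj, sub_self]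
    exact Submodule.zero_mem _

private theorem a3form [Fact (Nat.Prime 3)] (h : MS3 3 R) (ht : z 0 * z 1 * z 2 ∈ R 3 3) {y : Z 3} (hy : Soc3 3 R 3 3 y) :
    ∃ a : ℕ → ZMod 3, y - ∑ i ∈ Finset.range 3, a i • a3e i ∈ R 3 3 := by
  obtain ⟨τ, a, h1, -⟩ := soc33 le_rfl h hy.hy (hy.dd (by norm_num))
  refine ⟨a, ?_⟩
  have h2 := (R 3 3).add_mem h1 ((R 3 3).smul_mem τ ht)
  have e : y - τ • (z 0 * z 1 * z 2) - (a 0 • G3 0 1 2 + a 1 • G3 1 2 0 + a 2 • G3 2 0 1) + τ • (z 0 * z 1 * z 2) =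
      y - ∑ i ∈ Finset.range 3, a i • a3e i := by
    rw [Finset.sum_range_succ, Finset.sum_range_succ, Finset.sum_range_one, a3e0, a3e1, a3e2]
    abel
  rwa [e] at h2

/-- two variables, degree 4 -/
private theorem a3two (h : MS3 3 R) (ht : z 0 * z 1 * z 2 ∈ R 3 3) {y : Z 3} (hy : y ∈ Hh 3 2 4) :
    ∃ x : ZMod 3, y - x • ∏ i ∈ Finset.range 2, z i ^ 2 ∈ R 2 4 := by
  obtain ⟨g, t, h1, rfl⟩ := expN4 hy
  refine ⟨g (Finset.range 2), ?_⟩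
  have e : (Finset.range 2).powersetCard 2 = {Finset.range 2} := rfl
  rw [e, Finset.sum_singleton, add_sub_cancel_left]
  exact a3i_Nt h ht (by norm_num) h1

theorem a3i [Fact (Nat.Prime 3)] (h : MS3 3 R) (ht : z 0 * z 1 * z 2 ∈ R 3 3) {n k l : ℕ} {u w : Z 3}
    (hl : LP 3 R (Soc3 3 R) n k l u w) : False := by
  have hn := hl.n1
  have hkl := hl.kl
  have hB : LP 3 R (SocB 3 R) n k l u w := hl.mono (fun _ _ _ h => h.toSocB)
  have hl4 : l ≤ 4 := by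
    by_contra hc
    exact hl.nw (h.toMS.Kup (by norm_num) hn (a3i_Hh h ht hn) (by omega) hl.sw.hy)
  by_cases k0 : k = 0
  · subst k0
    exact noLP_0 h.toMS hB
  by_cases k1 : k = 1
  · subst k1
    exact noLP_1 h.toMS hB
  by_cases k2 : k = 2
  · subst k2
    exact noLP_2 le_rfl h hl
  by_cases n1 : n = 1
  · subst n1
    exact noLP_n1 h.toMS hB
  by_cases n2 : n = 2
  · subst n2
    by_cases k3 : k = 3
    · subst k3
      exact noLP_3_2 le_rfl h hl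
    obtain rfl : k = 4 := by omega
    obtain rfl : l = 4 := by omega
    obtain ⟨x, hx⟩ := a3two h ht hl.su.hy
    obtain ⟨y, hy⟩ := a3two h ht hl.sw.hy
    exact hl.rank1 hx hy
  by_cases l4 : l = 4
  · subst l4
    exact hl.nw (sq22 le_rfl h (by omega) (a3i_Nt h ht hn) hl.sw.hy (hl.sw.dd le_rfl))
  obtain rfl : k = 3 := by omega
  obtain rfl : l = 3 := by omega
  by_cases n3 : n = 3
  · subst n3
    obtain ⟨a, ha⟩ := a3form h ht hl.su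
    obtain ⟨b, hb⟩ := a3form h ht hl.sw
    exact hl.nu (P1 (h.toMS.GAs (by norm_num)) a3op ha hb hl.Lkd)
  · obtain ⟨s, hs, hs'⟩ := cub le_rfl h (by omega) hl.su.hy (hl.su.dd (by norm_num))
    have h1 := (R n 3).add_mem hs' (a3i_Sq h ht hs)
    rw [sub_add_cancel] at h1
    exact hl.nu h1

end ADQ
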