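import Pool.Agent.ADQ.NoLP01
import Pool.Agent.ADQ.NoLP2
import Pool.Agent.ADQ.NoLP32
import Pool.Agent.ADQ.Soc33
import Pool.Agent.ADQ.Cub
import Pool.Agent.ADQ.Sq22
import Pool.Agent.ADQ.P1

/-!
# ADQ-A3j (the theorem `a3ii`)

`p = 3`, `t = z_0 z_1 z_2`, `G_0 = G3 0 1 2`, `G_1 = G3 1 2 0`, `G_2 = G3 2 0 1`.
`a3split`: `y ∈ R 3 3`, `y ∉ K3 3`; `soc33` for `y` (`dd i j y ∈ R`).  More precisely use its proof, or: if `F3 0 1 2 ∉ R 3 3`: `soc33'`: `y = c t`, `c ≠ 0`: `t ∈ R`, (i).  If `F3 0 1 2 ∈ R 3 3` (so all three `F3`): write `y = E33 a b c`, `s_i = 2 a_i + b_ij + b_ik`; if some `s_i ≠ 0` then (header of `Soc33`, Case 1) all `G3 ∈ R`, so (ii) with `τ = 0`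
[`D3 = G_0 + G_1 + G_2`]; if all `s_i = 0`: `y = ∑ a_j G_j + τ t - ∑ φ_j F_j`, so `y' = τ t + ∑ a_j G_j ∈ R`.  `(id + rn (swap 0 1)) y' = 2 τ t + (a_0 - a_1)(G_0 - G_1)`.  If all `a_j` are equal: `2 τ t ∈ R`; `τ = 0` would give `y ∈ K3 3`; so `t ∈ R`: (i).  If (by symmetry) `a_0 ≠ a_1`: `τ' t + G_0 - G_1 ∈ R`,
rotations: `τ' t + G_1 - G_2 ∈ R`, the difference is `G_0 - 2 G_1 + G_2 = D3` (`3 = 0`): (ii).
`a3i` (`t ∈ R 3 3`): `K3` (`n + 2 ≥ 3`, `up`): `Nt 3 n ≤ R n 4` for all `n ≥ 1`, `K5`: `Hh 3 n 5 ≤ R n 5`, `Kup`: `l ≤ 4`.  `n = 1`: `noLP_n1`.  `n ≥ 3`, `l = 4`: `sq22` for `w`.  `n ≥ 4`, `k = l = 3`: `cub`: `u ≡ s ∈ Sq 3 n 3 ≤ R n 3` (`ren`).  `n = 3`, `k = l = 3`: `soc33` for `u`, `w`: `u ≡ ∑ a_j G_j`: `P1` with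
`- rn (swap i j)`.  `n = 2`: `k = 3`: `noLP_3_2`; `k = l = 4`: `u`, `w ≡ c z_0^2 z_1^2`, `LP.rank1`.  `k ≤ 2`: `noLP_0, noLP_1, noLP_2`.
`a3ii`: `ev 2 D3 = z_0^2 z_1 - z_1^2 z_0`, `ev 2 (F3 0 1 2) = z_0^3 - z_0^2 z_1`, `ev 2 (τ t + G_0 - G_1) = z_0^2 z_1 + z_1^2 z_0`, all in `R 4 3`; so `z_0^2 z_1 ∈ R 4 3`, `z_0^3 ∈ R 4 3`, `dd 0 2 (z_0^2 z_1)`: `t ∈ R 4 3`: all monomials of degree 3 in `R m 3` for `m ≥ 4`.  `n ≥ 4`: `Hh 3 n 3 ≤ R n 3`, `Kup`: no pair.  `n = 2, 3`: `n + 2 ≥ 4`: `K0`,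
`Kup`: `l ≤ 3`, `k = l = 3`.  `n = 2`: `noLP_3_2`.  `n = 3`: `soc33`: `u ≡ x t + ∑ a_j G_j ≡ x' t + y G_0` as `G_1 ≡ G_0 + τ t`, `G_2 ≡ G_0 + 2 τ t`; `w ≡ x'' t + y'' G_0`.  `T = id - rn (swap 0 1)`: `t ↦ 0`, `G_0 ↦ G_0 + G_1 ≡ E = 2 G_0 + τ t`: `Lkd.rankT`: `y E, y'' E ∈ R`.  `E ∈ R`: `G_0 ≡ - (τ/2) t`: `LP.rank1` with `t`.
`E ∉ R`: `y = y'' = 0`, `LP.rank1`.
-/

namespace ADQ

open AD ADN ADC

variable {R : ℕ → ℕ → Submodule (ZMod 3) (Z 3)}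

private theorem a3j_prm (h : MS 3 R) {m k : ℕ} (hm : 1 ≤ m) (σ : Equiv.Perm ℕ)
    (hσ : ∀ i, m ≤ i → σ i = i) {F : Z 3} (hF : F ∈ R m k) : rn σ F ∈ R m k :=
  h.GAs hm _ (GA_rn σ hσ) F hF

private theorem a3j_sw {m a b : ℕ} (ha : a < m) (hb : b < m) : ∀ i, m ≤ i → Equiv.swap a b i = i := by
  intro i hi
  exact Equiv.swap_apply_of_ne_of_ne (by omega) (by omega)

private theorem a3j_two {m : ℕ} (hm : 4 ≤ m) {a b : ℕ} (ha : a < m) (hb : b < m) (hab : a ≠ b) :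
    ∃ σ : Equiv.Perm ℕ, (∀ i, m ≤ i → σ i = i) ∧ σ 0 = a ∧ σ 1 = b := by
  have h1 : Equiv.swap 0 a 1 < m := by
    by_cases h : 1 = a
    · rw [← h, Equiv.swap_apply_right]
      omega
    · rw [Equiv.swap_apply_of_ne_of_ne (by omega) h]
      omega
  have h0 : Equiv.swap 0 a 0 = a := Equiv.swap_apply_left 0 a
  have hne : a ≠ Equiv.swap 0 a 1 := by
    intro h
    have h2 : Equiv.swap 0 a 0 = Equiv.swap 0 a 1 := h0.trans h
    exact absurd ((Equiv.swap 0 a).injective h2) (by omega)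
  refine ⟨Equiv.swap (Equiv.swap 0 a 1) b * Equiv.swap 0 a, ?_, ?_, ?_⟩
  · intro i hi
    rw [Equiv.Perm.mul_apply, a3j_sw (by omega) ha i hi, a3j_sw h1 hb i hi]
  · rw [Equiv.Perm.mul_apply, h0, Equiv.swap_apply_of_ne_of_ne hne hab]
  · rw [Equiv.Perm.mul_apply, Equiv.swap_apply_left]

private theorem a3j_three {m : ℕ} (hm : 4 ≤ m) {a b c : ℕ} (ha : a < m) (hb : b < m) (hc : c < m)
    (hab : a ≠ b) (hac : a ≠ c) (hbc : b ≠ c) :
    ∃ σ : Equiv.Perm ℕ, (∀ i, m ≤ i → σ i = i) ∧ σ 0 = a ∧ σ 1 = b ∧ σ 2 = c := by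
  obtain ⟨τ, h1, h2, h3⟩ := a3j_two hm ha hb hab
  have h4 : τ 2 < m := by
    by_contra h
    have h5 : τ (τ 2) = τ 2 := h1 _ (not_lt.1 h)
    have h6 := τ.injective h5
    omega
  have e1 : a ≠ τ 2 := by
    rw [← h2]
    intro h
    exact absurd (τ.injective h) (by omega)
  have e2 : b ≠ τ 2 := by
    rw [← h3]
    intro h
    exact absurd (τ.injective h) (by omega)
  refine ⟨Equiv.swap (τ 2) c * τ, ?_, ?_, ?_, ?_⟩
  · intro i hi
    rw [Equiv.Perm.mul_apply, h1 i hi, a3j_sw h4 hc i hi]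
  · rw [Equiv.Perm.mul_apply, h2, Equiv.swap_apply_of_ne_of_ne e1 hac]
  · rw [Equiv.Perm.mul_apply, h3, Equiv.swap_apply_of_ne_of_ne e2 hbc]
  · rw [Equiv.Perm.mul_apply, Equiv.swap_apply_left]

private theorem a3j_all (h : MS3 3 R) (h1 : F3 0 1 2 ∈ R 3 3) (h2 : D3 ∈ R 3 3)
    (h3 : ∃ τ : ZMod 3, τ • (z 0 * z 1 * z 2) + G3 0 1 2 - G3 1 2 0 ∈ R 3 3) {m : ℕ} (hm : 4 ≤ m) :
    Hh 3 m 3 ≤ R m 3 := by
  obtain ⟨τ, h3⟩ := h3
  have f1 := h.zer 3 3 2 (by norm_num) _ h1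
  have f2 := h.zer 3 3 2 (by norm_num) _ h2
  have f3 := h.zer 3 3 2 (by norm_num) _ h3
  have e1 : ev 2 (F3 0 1 2 : Z 3) = z 0 ^ 3 - z 0 ^ 2 * z 1 := by
    unfold F3
    simp only [map_sub, map_mul, ev_z]
    simp
    ring
  have e2 : ev 2 (D3 : Z 3) = z 0 ^ 2 * z 1 - z 1 ^ 2 * z 0 := by
    unfold D3
    simp only [map_sub, map_add, map_mul, map_pow, ev_z]
    simp
    ring
  have e3 : ev 2 (τ • (z 0 * z 1 * z 2) + G3 0 1 2 - G3 1 2 0 : Z 3) =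
      z 0 ^ 2 * z 1 + z 1 ^ 2 * z 0 := by
    unfold G3
    simp only [map_sub, map_add, map_mul, map_pow, map_smul, ev_z]
    simp
  rw [e1] at f1
  rw [e2] at f2
  rw [e3] at f3
  have g1 : (z 0 ^ 2 * z 1 : Z 3) ∈ R 4 3 := by
    have a1 := (R 4 3).smul_mem (2 : ZMod 3) ((R 4 3).add_mem f2 f3)
    have a2 : (2 : ZMod 3) • ((z 0 ^ 2 * z 1 - z 1 ^ 2 * z 0) + (z 0 ^ 2 * z 1 + z 1 ^ 2 * z 0)) =
        (z 0 ^ 2 * z 1 : Z 3) := by
      have a3 : ((z 0 ^ 2 * z 1 - z 1 ^ 2 * z 0) + (z 0 ^ 2 * z 1 + z 1 ^ 2 * z 0) : Z 3) =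
          (2 : ZMod 3) • (z 0 ^ 2 * z 1) := by
        rw [two_smul]
        ring
      rw [a3, smul_smul, show (2 * 2 : ZMod 3) = 1 from by decide, one_smul]
    rwa [a2] at a1
  have g0 : (z 0 ^ 3 : Z 3) ∈ R 4 3 := by
    have := (R 4 3).add_mem f1 g1
    rwa [sub_add_cancel] at this
  have g2 : (z 0 * z 1 * z 2 : Z 3) ∈ R 4 3 := by
    have a1 := h.dd 4 3 0 2 (by norm_num) (by norm_num) (by norm_num) (by norm_num) _ g1
    rw [dd_two (z_NV (by norm_num))] at a1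
    have a2 := a3j_prm h.toMS (by norm_num) (Equiv.swap 0 2) (a3j_sw (by norm_num) (by norm_num)) g1
    rw [map_mul, map_pow, rn_z, rn_z, Equiv.swap_apply_left,
      Equiv.swap_apply_of_ne_of_ne (by norm_num) (by norm_num)] at a2
    have a3 := (R 4 3).add_mem a1 a2
    have a4 : ((z 0 - z 2) * z 2 * z 1 + z 2 ^ 2 * z 1 : Z 3) = z 0 * z 1 * z 2 := by ring
    rwa [a4] at a3
  have k0 := h.up (by norm_num) hm g0
  have k1 := h.up (by norm_num) hm g1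
  have k2 := h.up (by norm_num) hm g2
  intro F hF
  obtain ⟨d, e, s, hs, rfl⟩ := expN3 hF
  refine (R m 3).add_mem ((R m 3).add_mem ?_ ?_) ?_
  · refine (R m 3).sum_mem fun i hi => (R m 3).smul_mem _ ?_
    have a1 := a3j_prm h.toMS (by omega) (Equiv.swap 0 i)
      (a3j_sw (by omega) (Finset.mem_range.1 hi)) k0
    rwa [map_pow, rn_z, Equiv.swap_apply_left] at a1
  · refine (R m 3).sum_mem fun i hi => (R m 3).sum_mem fun j hj => (R m 3).smul_mem _ ?_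
    obtain ⟨σ, hσ, s0, s1⟩ := a3j_two hm (Finset.mem_range.1 hi)
      (Finset.mem_range.1 (Finset.mem_of_mem_erase hj)) (Finset.ne_of_mem_erase hj).symm
    have a1 := a3j_prm h.toMS (by omega) σ hσ k1
    rwa [map_mul, map_pow, rn_z, rn_z, s0, s1] at a1
  · obtain ⟨c, rfl⟩ := expS hs
    refine (R m 3).sum_mem fun S hS => (R m 3).smul_mem _ ?_
    rw [Finset.mem_powersetCard] at hS
    obtain ⟨a, b, c, hab, hac, hbc, rfl⟩ := Finset.card_eq_three.1 hS.2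
    have ha : a < m := Finset.mem_range.1 (hS.1 (by simp))
    have hb : b < m := Finset.mem_range.1 (hS.1 (by simp))
    have hc : c < m := Finset.mem_range.1 (hS.1 (by simp))
    obtain ⟨σ, hσ, s0, s1, s2⟩ := a3j_three hm ha hb hc hab hac hbc
    have a1 := a3j_prm h.toMS (by omega) σ hσ k2
    rw [map_mul, map_mul, rn_z, rn_z, rn_z, s0, s1, s2] at a1
    rw [Finset.prod_insert (by simp [hab, hac]), Finset.prod_insert (by simp [hbc]),
      Finset.prod_singleton, ← mul_assoc]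
    exact a1

/-- the case `n = k = l = 3` -/
private theorem a3j_core [Fact (Nat.Prime 3)] (h : MS3 3 R)
    (h3 : ∃ τ : ZMod 3, τ • (z 0 * z 1 * z 2) + G3 0 1 2 - G3 1 2 0 ∈ R 3 3) {u w : Z 3}
    (hl : LP 3 R (Soc3 3 R) 3 3 3 u w) : False := by
  obtain ⟨τ, h3⟩ := h3
  obtain ⟨τ1, a, hu, -⟩ := soc33 le_rfl h hl.su.hy (hl.su.dd (by norm_num))
  obtain ⟨τ2, b, hw, -⟩ := soc33 le_rfl h hl.sw.hy (hl.sw.dd (by norm_num))
  -- the rotation
  have hrot : τ • (z 0 * z 1 * z 2) + G3 1 2 0 - G3 2 0 1 ∈ R 3 3 := by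
    have a1 := a3j_prm h.toMS (by norm_num) (Equiv.swap 0 1 * Equiv.swap 1 2) (by
      intro i hi
      rw [Equiv.Perm.mul_apply, a3j_sw (by norm_num) (by norm_num) i hi,
        a3j_sw (by norm_num) (by norm_num) i hi]) h3
    have s0 : (Equiv.swap 0 1 * Equiv.swap 1 2 : Equiv.Perm ℕ) 0 = 1 := by decide
    have s1 : (Equiv.swap 0 1 * Equiv.swap 1 2 : Equiv.Perm ℕ) 1 = 2 := by decide
    have s2 : (Equiv.swap 0 1 * Equiv.swap 1 2 : Equiv.Perm ℕ) 2 = 0 := by decide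
    have a2 : rn (Equiv.swap 0 1 * Equiv.swap 1 2 : Equiv.Perm ℕ)
        (τ • (z 0 * z 1 * z 2) + G3 0 1 2 - G3 1 2 0 : Z 3) =
        τ • (z 0 * z 1 * z 2) + G3 1 2 0 - G3 2 0 1 := by
      unfold G3
      simp only [map_sub, map_add, map_mul, map_pow, map_smul, rn_z, s0, s1, s2]
      congr 3
      ring
    rwa [a2] at a1
  set t : Z 3 := z 0 * z 1 * z 2 with ht
  set G : Z 3 := G3 0 1 2 with hG
  -- normal forms
  have nf : ∀ (τ' : ZMod 3) (a : ℕ → ZMod 3) (y : Z 3),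
      y - τ' • t - (a 0 • G + a 1 • G3 1 2 0 + a 2 • G3 2 0 1) ∈ R 3 3 →
      y - ((τ' + a 1 * τ + a 2 * (2 * τ)) • t + (a 0 + a 1 + a 2) • G) ∈ R 3 3 := by
    intro τ' a y hy
    have a1 := (R 3 3).smul_mem (a 1 + a 2) h3
    have a2 := (R 3 3).smul_mem (a 2) hrot
    have a3 := (R 3 3).sub_mem ((R 3 3).sub_mem hy a1) a2
    have a4 : y - ((τ' + a 1 * τ + a 2 * (2 * τ)) • t + (a 0 + a 1 + a 2) • G) =
        y - τ' • t - (a 0 • G + a 1 • G3 1 2 0 + a 2 • G3 2 0 1) -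
        (a 1 + a 2) • (τ • t + G - G3 1 2 0) - a 2 • (τ • t + G3 1 2 0 - G3 2 0 1) := by
      module
    rw [a4]
    exact a3
  have nu := nf τ1 a u hu
  have nw := nf τ2 b w hw
  set x1 := τ1 + a 1 * τ + a 2 * (2 * τ) with hx1
  set y1 := a 0 + a 1 + a 2 with hy1
  set x2 := τ2 + b 1 * τ + b 2 * (2 * τ) with hx2
  set y2 := b 0 + b 1 + b 2 with hy2
  -- the operator
  set T : Z 3 →ₗ[ZMod 3] Z 3 := LinearMap.id - (rn (Equiv.swap 0 1) : Z 3 →ₐ[ZMod 3] Z 3).toLinearMap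
    with hT
  have hTG : T ∈ GA 3 3 := (GA 3 3).sub_mem (GA_one 3) (GA_rn _ (a3j_sw (by norm_num) (by norm_num)))
  have Tt : T t = 0 := by
    rw [hT, LinearMap.sub_apply, LinearMap.id_apply, AlgHom.toLinearMap_apply, ht, map_mul, map_mul,
      rn_z, rn_z, rn_z, Equiv.swap_apply_left, Equiv.swap_apply_right,
      Equiv.swap_apply_of_ne_of_ne (by norm_num) (by norm_num)]
    ring
  have TG : T G = G + G3 1 2 0 := by
    rw [hT, LinearMap.sub_apply, LinearMap.id_apply, AlgHom.toLinearMap_apply, hG]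
    unfold G3
    rw [map_mul, map_pow, map_sub, rn_z, rn_z, rn_z, Equiv.swap_apply_left,
      Equiv.swap_apply_right, Equiv.swap_apply_of_ne_of_ne (by norm_num) (by norm_num)]
    ring
  have hS := h.toMS.GAs (n := 3) (k := 3) (by norm_num) T hTG
  have kT : ∀ (x y : ZMod 3) (v : Z 3), v - (x • t + y • G) ∈ R 3 3 →
      T v - y • ((2 : ZMod 3) • G + τ • t) ∈ R 3 3 := by
    intro x y v hv
    have a1 := hS _ hv
    rw [map_sub, map_add, map_smul, map_smul, Tt, TG, smul_zero, zero_add] at a1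
    have a2 := (R 3 3).smul_mem y h3
    have a3 : T v - y • ((2 : ZMod 3) • G + τ • t) =
        T v - y • (G + G3 1 2 0) - y • (τ • t + G - G3 1 2 0) := by module
    rw [a3]
    exact (R 3 3).sub_mem a1 a2
  have hlk := hl.Lkd
  have kr := hlk.rankT hTG (kT x1 y1 u nu) (kT x2 y2 w nw)
  by_cases hE : (2 : ZMod 3) • G + τ • t ∈ R 3 3
  · have a0 : ∀ x y : ZMod 3, ∀ v : Z 3, v - (x • t + y • G) ∈ R 3 3 →
        v - (x + y * τ) • t ∈ R 3 3 := by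
      intro x y v hv
      have a1 := (R 3 3).smul_mem (2 * y) hE
      have a2 : v - (x + y * τ) • t = v - (x • t + y • G) + (2 * y) • ((2 : ZMod 3) • G + τ • t) -
          (0 : ZMod 3) • t := by
        have c3 : (3 : ZMod 3) = 0 := rfl
        have c4 : (2 * y) • ((2 : ZMod 3) • G + τ • t) = y • G - (y * τ) • t +
            (3 : ZMod 3) • (y • G + (y * τ) • t) := by module
        rw [c4, c3, zero_smul, zero_smul, add_zero, sub_zero]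
        module
      rw [a2, zero_smul, sub_zero]
      exact (R 3 3).add_mem hv a1
    exact hl.rank1 (a0 x1 y1 u nu) (a0 x2 y2 w nw)
  · have b0 : ∀ x y : ZMod 3, ∀ v : Z 3, v - (x • t + y • G) ∈ R 3 3 → T v ∈ R 3 3 →
        v - x • t ∈ R 3 3 := by
      intro x y v hv hTv
      have a1 := kT x y v hv
      have a2 := (R 3 3).sub_mem hTv a1
      rw [sub_sub_cancel] at a2
      have hy0 : y = 0 := by
        by_contra hy
        exact hE (((R 3 3).smul_mem_iff hy).1 a2)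
      rw [hy0, zero_smul, add_zero] at hv
      exact hv
    exact hl.rank1 (b0 x1 y1 u nu kr.1) (b0 x2 y2 w nw kr.2)

theorem a3ii [Fact (Nat.Prime 3)] (h : MS3 3 R) (h1 : F3 0 1 2 ∈ R 3 3) (h2 : D3 ∈ R 3 3)
    (h3 : ∃ τ : ZMod 3, τ • (z 0 * z 1 * z 2) + G3 0 1 2 - G3 1 2 0 ∈ R 3 3) {n k l : ℕ} {u w : Z 3}
    (hl : LP 3 R (Soc3 3 R) n k l u w) : False := by
  have hall : ∀ m, 4 ≤ m → Hh 3 m 3 ≤ R m 3 := fun m hm => a3j_all h h1 h2 h3 hm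
  have hB : LP 3 R (SocB 3 R) n k l u w := hl.mono fun _ _ _ hs => hs.toSocB
  have hn1 := hl.n1
  have hkl := hl.kl
  rcases Nat.lt_or_ge k 3 with hk | hk
  · interval_cases k
    · exact noLP_0 h.toMS hB
    · exact noLP_1 h.toMS hB
    · exact noLP_2 le_rfl h hl
  rcases Nat.lt_or_ge n 4 with hn | hn
  · rcases Nat.lt_or_ge n 2 with hn2 | hn2
    · have : n = 1 := by omega
      subst this
      exact noLP_n1 h.toMS hB
    have hK : Hh 3 n 4 ≤ R n 4 := by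
      refine h.K0 (by norm_num) hn1 fun F hF => ?_
      exact hall (n + (3 - 1)) (by omega) (Hh_mono (by omega) hF)
    rcases Nat.lt_or_ge l 4 with hl4 | hl4
    · have hk3 : k = 3 := by omega
      have hl3 : l = 3 := by omega
      subst hk3
      subst hl3
      rcases Nat.lt_or_ge n 3 with hn3 | hn3
      · have : n = 2 := by omega
        subst this
        exact noLP_3_2 le_rfl h hl
      · have : n = 3 := by omega
        subst this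
        exact a3j_core h h3 hl
    · exact hl.nw (h.Kup (by norm_num) hn1 hK hl4 hl.sw.hy)
  · exact hl.nu (h.Kup (by norm_num) hn1 (hall n hn) hk hl.su.hy)

end ADQ
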