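import Pool.Agent.ADQ.A3s
import Pool.Agent.ADQ.A3i
import Pool.Agent.ADQ.A3j

/-!
# ADQ-ThA3: no leading pairs for `p = 3`
-/

namespace ADQ

open AD ADN ADC

variable {R : ℕ → ℕ → Submodule (ZMod 3) (Z 3)}

theorem ThA3 (h : MS3 3 R) {y : Z 3} (hR : y ∈ R 3 3) (hK : y ∉ K3 3) {n k l : ℕ} {u w : Z 3}
    (hl : LP 3 R (Soc3 3 R) n k l u w) : False := by
  have : Fact (Nat.Prime 3) := ⟨Nat.prime_three⟩
  rcases a3split h hR hK with ht | ⟨h1, h2, h3⟩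
  · exact a3i h ht hl
  · exact a3ii h h1 h2 h3 hl

end ADQ
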