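import Pool.Agent.ADQ.FvC

/-!
# ADQ-FvX: assembly of the three cases
-/

namespace ADQ

open AD ADN ADC

variable {p : ℕ} [Fact p.Prime] {R : ℕ → ℕ → Submodule (ZMod p) (Z p)}

theorem exists_fv (h5 : 5 ≤ p) (h : MS3 p R) {y : Z p} (hR : y ∈ R 3 4) (hK : y ∉ K4 p) :
    ∃ α μ : ZMod p, ¬ (α = 0 ∧ μ = 0) ∧ fv α μ ∈ R 3 4 := by
  obtain ⟨a, b, g, d, hy⟩ := exp34 (h.le 3 4 (by norm_num) hR)
  have hd : ∀ i < 3, ∀ j < 3, i ≠ j → dd i j y ∈ R 3 4 := fun i hi j hj hij =>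
    h.dd 3 4 i j (by norm_num) hi hj hij y hR
  have h1 : (1 : ZMod p) ≠ 0 := one_ne_zero
  by_cases hg : g 0 ≠ 0 ∨ g 1 ≠ 0 ∨ g 2 ≠ 0
  · exact ⟨3, 1, fun hh => h1 hh.2, fvA h (hy ▸ hR) hg⟩
  · push Not at hg
    obtain ⟨g0, g1, g2⟩ := hg
    have hy' : y = E34 a b 0 d := by
      rw [hy]
      simp only [E34, g0, g1, g2, Pi.zero_apply]
    by_cases hs : 3 * a 0 + 2 * b 0 1 + 2 * b 0 2 + d 0 ≠ 0 ∨ 3 * a 1 + 2 * b 1 0 + 2 * b 1 2 + d 1 ≠ 0 ∨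
      3 * a 2 + 2 * b 2 0 + 2 * b 2 1 + d 2 ≠ 0
    · exact ⟨0, 1, fun hh => h1 hh.2, (fvB h hy' hd hs).2.2.2⟩
    · push Not at hs
      exact fvC h5 h hy' hR hK hs.1 hs.2.1 hs.2.2

end ADQ
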