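import Pool.Agent.ADQ.Tool2b
import Pool.Agent.ADQ.Tool2c
import Pool.Agent.ADQ.ExpD
import Pool.Agent.ADQ.P1

/-!
# ADQ-N2

`u = E24 a`, `w = E24 b` (`exp24`), `P = (z_0 - z_1) z_1^3`, `P' = (z_1 - z_0) z_0^3`.  `dd01_E24`, `dd10_E24`: `(3 a_4 + 2 a_3 + a_2) P ∈ R`, `(3 a_0 + 2 a_1 + a_2) P' ∈ R`, the same for `b`; `P ∈ R 2 4 ↔ P' ∈ R 2 4`.  `Soc3.vv`: `a_2 b0 ∈ R`, `b_2 b0 ∈ R` (the coefficient of `z_0^2 z_1^2` of `E24 a` is `a_2`).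
`b0 = z_0^3 z_1 - 2 z_0^2 z_1^2 + z_0 z_1^3`, so `u ≡ a_4 z_0^4 + (a_3 + a_2/2) z_0^3 z_1 + (a_1 + a_2/2) z_0 z_1^3 + a_0 z_1^4`.
If `P ∈ R`: `u ≡ (a'_0 + a'_1) z_1^4 + (a'_3 + a'_4) z_0^4`: `P1`, `e_0 = z_0^4`, `e_1 = z_1^4`.  If `P ∉ R`: `3 a'_4 + 2 a'_3 = 0`, `3 a'_0 + 2 a'_1 = 0`: `u = (a'_4/2) (2 z_0^4 - 3 z_0^3 z_1) + (a'_0/2) (2 z_1^4 - 3 z_1^3 z_0)`, `w` the same: `P1`.
-/

namespace ADQ

open AD ADN ADC

variable {p : ℕ} [Fact p.Prime] {R : ℕ → ℕ → Submodule (ZMod p) (Z p)}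

private theorem n2_coeff (i j : ℕ) :
    MvPolynomial.coeff (Finsupp.single 0 2 + Finsupp.single 1 2) ((z 0 ^ i * z 1 ^ j : Z p)) =
      if i = 2 ∧ j = 2 then 1 else 0 := by
  have e : (z 0 ^ i * z 1 ^ j : Z p) =
      MvPolynomial.monomial (Finsupp.single 0 i + Finsupp.single 1 j) 1 := by
    rw [← mo_single, ← mo_single, ← mo_add]
    rfl
  rw [e, MvPolynomial.coeff_monomial]
  by_cases h : i = 2 ∧ j = 2
  · rw [if_pos h, if_pos (by rw [h.1, h.2])]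
  · rw [if_neg h, if_neg]
    intro hc
    apply h
    have h0 := DFunLike.congr_fun hc 0
    have h1 := DFunLike.congr_fun hc 1
    simp only [Finsupp.add_apply, Finsupp.single_eq_same,
      Finsupp.single_eq_of_ne (show (1 : ℕ) ≠ 0 by norm_num),
      Finsupp.single_eq_of_ne (show (0 : ℕ) ≠ 1 by norm_num)] at h0 h1
    omega

private theorem n2_c (a : ℕ → ZMod p) :
    MvPolynomial.coeff (Finsupp.single 0 2 + Finsupp.single 1 2) (E24 a) = a 2 := by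
  have e : (E24 a : Z p) = a 0 • (z 0 ^ 0 * z 1 ^ 4) + a 1 • (z 0 ^ 1 * z 1 ^ 3) +
      a 2 • (z 0 ^ 2 * z 1 ^ 2) + a 3 • (z 0 ^ 3 * z 1 ^ 1) + a 4 • (z 0 ^ 4 * z 1 ^ 0) := by
    unfold E24
    simp only [pow_zero, pow_one, one_mul, mul_one]
  rw [e]
  simp only [MvPolynomial.coeff_add, MvPolynomial.coeff_smul, n2_coeff]
  norm_num

private theorem n2_P1 {N : Submodule (ZMod p) (Z p)} (hN : Stb p 2 N) {e0 e1 : Z p}
    (h01 : rn (Equiv.swap 0 1) e0 = e1) (h10 : rn (Equiv.swap 0 1) e1 = e0)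
    {u w : Z p} {x0 x1 y0 y1 : ZMod p} (hu : u - (x0 • e0 + x1 • e1) ∈ N)
    (hw : w - (y0 • e0 + y1 • e1) ∈ N) (hl : Lkd p 2 N u w) : u ∈ N := by
  have hT : (rn (Equiv.swap 0 1) : Z p →ₐ[ZMod p] Z p).toLinearMap ∈ GA p 2 := by
    refine GA_rn _ (fun i hi => Equiv.swap_apply_of_ne_of_ne (by omega) (by omega))
  obtain ⟨e, he0, he1⟩ : ∃ e : ℕ → Z p, e 0 = e0 ∧ e 1 = e1 :=
    ⟨fun i => if i = 0 then e0 else e1, if_pos rfl, if_neg one_ne_zero⟩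
  obtain ⟨a, ha0, ha1⟩ : ∃ a : ℕ → ZMod p, a 0 = x0 ∧ a 1 = x1 :=
    ⟨fun i => if i = 0 then x0 else x1, if_pos rfl, if_neg one_ne_zero⟩
  obtain ⟨b, hb0, hb1⟩ : ∃ b : ℕ → ZMod p, b 0 = y0 ∧ b 1 = y1 :=
    ⟨fun i => if i = 0 then y0 else y1, if_pos rfl, if_neg one_ne_zero⟩
  subst he0 he1 ha0 ha1 hb0 hb1
  refine P1 hN (e := e) ?_ (a := a) (b := b) ?_ ?_ hl
  · intro i hi j hj hij
    refine ⟨_, hT, ?_, ?_, ?_⟩
    · have : (i = 0 ∧ j = 1) ∨ (i = 1 ∧ j = 0) := by omega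
      rcases this with ⟨rfl, rfl⟩ | ⟨rfl, rfl⟩
      · rw [AlgHom.toLinearMap_apply, h01, sub_self]
        exact N.zero_mem
      · rw [AlgHom.toLinearMap_apply, h10, sub_self]
        exact N.zero_mem
    · have : (i = 0 ∧ j = 1) ∨ (i = 1 ∧ j = 0) := by omega
      rcases this with ⟨rfl, rfl⟩ | ⟨rfl, rfl⟩
      · rw [AlgHom.toLinearMap_apply, h10, sub_self]
        exact N.zero_mem
      · rw [AlgHom.toLinearMap_apply, h01, sub_self]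
        exact N.zero_mem
    · intro k hk h1 h2
      omega
  · rw [Finset.sum_range_succ, Finset.sum_range_one]
    exact hu
  · rw [Finset.sum_range_succ, Finset.sum_range_one]
    exact hw

private theorem n2_two (h3 : 3 ≤ p) : (2 : ZMod p) ≠ 0 := by
  intro h
  have h1 : ((2 : ℕ) : ZMod p) = 0 := by exact_mod_cast h
  rw [ZMod.natCast_eq_zero_iff] at h1
  have := Nat.le_of_dvd (by norm_num) h1
  omega

/-- `u ≡ E24 a'` -/
private theorem n2_red (h3 : 3 ≤ p) (a : ℕ → ZMod p) (hv : (a 2) • (b0 : Z p) ∈ R 2 4) :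
    E24 a - (a 4 • z 0 ^ 4 + (a 3 + a 2 / 2) • (z 0 ^ 3 * z 1) + (a 1 + a 2 / 2) • (z 0 * z 1 ^ 3) +
      a 0 • z 1 ^ 4) ∈ R 2 4 := by
  have h2 := n2_two (p := p) h3
  have e : E24 a - (a 4 • z 0 ^ 4 + (a 3 + a 2 / 2) • (z 0 ^ 3 * z 1) + (a 1 + a 2 / 2) • (z 0 * z 1 ^ 3) +
      a 0 • z 1 ^ 4) = (-(1 / 2 : ZMod p)) • (a 2 • (b0 : Z p)) := by
    unfold E24 b0
    have e1 : (z 0 ^ 2 * z 1 ^ 2 : Z p) = ((1 : ZMod p) / 2 * 2) • (z 0 ^ 2 * z 1 ^ 2) := by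
      rw [div_mul_cancel₀ _ h2, one_smul]
    have e2 : (z 0 * z 1 * (z 0 - z 1) ^ 2 : Z p) = z 0 ^ 3 * z 1 - (2 : ZMod p) • (z 0 ^ 2 * z 1 ^ 2) +
        z 0 * z 1 ^ 3 := by
      rw [show ((2 : ZMod p) • (z 0 ^ 2 * z 1 ^ 2) : Z p) = 2 * (z 0 ^ 2 * z 1 ^ 2) by
        rw [two_smul, two_mul]]
      ring
    rw [e2]
    generalize hx : (z 0 ^ 2 * z 1 ^ 2 : Z p) = x at e1 ⊢
    generalize (z 0 ^ 3 * z 1 : Z p) = y1
    generalize (z 0 * z 1 ^ 3 : Z p) = y2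
    have e3 : a 2 • x = (a 2 * ((1 : ZMod p) / 2 * 2)) • x := by
      rw [mul_smul, ← e1]
    rw [e3]
    module
  rw [e]
  exact (R 2 4).smul_mem _ hv

theorem noLP_4_2 (h3 : 3 ≤ p) (h : MS3 p R) {u w : Z p} (hl : LP p R (Soc3 p R) 2 4 4 u w) : False := by
  have h2 := n2_two (p := p) h3
  have hS : Stb p 2 (R 2 4) := h.toMS.GAs (by norm_num)
  have hT : (rn (Equiv.swap 0 1) : Z p →ₐ[ZMod p] Z p).toLinearMap ∈ GA p 2 := by
    refine GA_rn _ (fun i hi => Equiv.swap_apply_of_ne_of_ne (by omega) (by omega))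
  have r0 : rn (Equiv.swap 0 1) (z 0 : Z p) = z 1 := by
    rw [rn_z, Equiv.swap_apply_left]
  have r1 : rn (Equiv.swap 0 1) (z 1 : Z p) = z 0 := by
    rw [rn_z, Equiv.swap_apply_right]
  obtain ⟨a, rfl⟩ := exp24 hl.su.hy
  obtain ⟨b, rfl⟩ := exp24 hl.sw.hy
  have va := hl.su.vv rfl rfl
  have vb := hl.sw.vv rfl rfl
  rw [n2_c] at va vb
  have ra := n2_red h3 a va
  have rb := n2_red h3 b vb
  have da := hl.su.dd le_rfl 0 (by norm_num) 1 (by norm_num) (by norm_num)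
  have db := hl.sw.dd le_rfl 0 (by norm_num) 1 (by norm_num) (by norm_num)
  have da' := hl.su.dd le_rfl 1 (by norm_num) 0 (by norm_num) (by norm_num)
  have db' := hl.sw.dd le_rfl 1 (by norm_num) 0 (by norm_num) (by norm_num)
  rw [dd01_E24] at da db
  rw [dd10_E24] at da' db'
  have hPP : ((z 0 - z 1) * z 1 ^ 3 : Z p) ∈ R 2 4 → ((z 1 - z 0) * z 0 ^ 3 : Z p) ∈ R 2 4 := by
    intro hP
    have := hS _ hT _ hP
    rw [AlgHom.toLinearMap_apply, map_mul, map_sub, map_pow, r0, r1] at this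
    exact this
  have hPP' : ((z 1 - z 0) * z 0 ^ 3 : Z p) ∈ R 2 4 → ((z 0 - z 1) * z 1 ^ 3 : Z p) ∈ R 2 4 := by
    intro hP
    have := hS _ hT _ hP
    rw [AlgHom.toLinearMap_apply, map_mul, map_sub, map_pow, r0, r1] at this
    exact this
  have hLk := hl.Lkd
  apply hl.nu
  clear hl
  by_cases hP : ((z 0 - z 1) * z 1 ^ 3 : Z p) ∈ R 2 4
  · have hP' := hPP hP
    have key : ∀ c : ℕ → ZMod p,
        E24 c - (c 4 • z 0 ^ 4 + (c 3 + c 2 / 2) • (z 0 ^ 3 * z 1) + (c 1 + c 2 / 2) • (z 0 * z 1 ^ 3) +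
          c 0 • z 1 ^ 4) ∈ R 2 4 →
        E24 c - ((c 4 + (c 3 + c 2 / 2)) • (z 0 ^ 4 : Z p) + (c 0 + (c 1 + c 2 / 2)) • (z 1 ^ 4 : Z p)) ∈
          R 2 4 := by
      intro c hc
      have h4 := (R 2 4).add_mem hc ((R 2 4).add_mem ((R 2 4).smul_mem (c 3 + c 2 / 2) hP')
        ((R 2 4).smul_mem (c 1 + c 2 / 2) hP))
      have e : E24 c - ((c 4 + (c 3 + c 2 / 2)) • (z 0 ^ 4 : Z p) + (c 0 + (c 1 + c 2 / 2)) •
            (z 1 ^ 4 : Z p)) =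
          E24 c - (c 4 • z 0 ^ 4 + (c 3 + c 2 / 2) • (z 0 ^ 3 * z 1) + (c 1 + c 2 / 2) • (z 0 * z 1 ^ 3) +
          c 0 • z 1 ^ 4) + ((c 3 + c 2 / 2) • ((z 1 - z 0) * z 0 ^ 3) +
            (c 1 + c 2 / 2) • ((z 0 - z 1) * z 1 ^ 3)) := by
        have e1 : ((z 1 - z 0) * z 0 ^ 3 : Z p) = z 0 ^ 3 * z 1 - z 0 ^ 4 := by ring
        have e2 : ((z 0 - z 1) * z 1 ^ 3 : Z p) = z 0 * z 1 ^ 3 - z 1 ^ 4 := by ring
        rw [e1, e2]
        generalize (E24 c : Z p) = y0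
        generalize (z 0 ^ 3 * z 1 : Z p) = y1
        generalize (z 0 * z 1 ^ 3 : Z p) = y2
        generalize (z 0 ^ 4 : Z p) = y3
        generalize (z 1 ^ 4 : Z p) = y4
        module
      rw [e]
      exact h4
    refine n2_P1 hS (e0 := z 0 ^ 4) (e1 := z 1 ^ 4) ?_ ?_ (key a ra) (key b rb) hLk
    · rw [map_pow, r0]
    · rw [map_pow, r1]
  · have hP' : ((z 1 - z 0) * z 0 ^ 3 : Z p) ∉ R 2 4 := fun hc => hP (hPP' hc)
    have key : ∀ c : ℕ → ZMod p,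
        (3 * c 4 + 2 * c 3 + c 2) • ((z 0 - z 1) * z 1 ^ 3 : Z p) ∈ R 2 4 →
        (3 * c 0 + 2 * c 1 + c 2) • ((z 1 - z 0) * z 0 ^ 3 : Z p) ∈ R 2 4 →
        E24 c - (c 4 • z 0 ^ 4 + (c 3 + c 2 / 2) • (z 0 ^ 3 * z 1) + (c 1 + c 2 / 2) • (z 0 * z 1 ^ 3) +
          c 0 • z 1 ^ 4) ∈ R 2 4 →
        E24 c - ((c 4 / 2) • (2 * z 0 ^ 4 - 3 * (z 0 ^ 3 * z 1) : Z p) +
          (c 0 / 2) • (2 * z 1 ^ 4 - 3 * (z 1 ^ 3 * z 0) : Z p)) ∈ R 2 4 := by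
      intro c h5 h6 hc
      have h7 : 3 * c 4 + 2 * c 3 + c 2 = 0 := by
        by_contra hne
        exact hP (((R 2 4).smul_mem_iff hne).1 h5)
      have h8 : 3 * c 0 + 2 * c 1 + c 2 = 0 := by
        by_contra hne
        exact hP' (((R 2 4).smul_mem_iff hne).1 h6)
      have h9 : c 3 + c 2 / 2 = -3 * (c 4 / 2) := by
        field_simp
        linear_combination h7
      have h10 : c 1 + c 2 / 2 = -3 * (c 0 / 2) := by
        field_simp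
        linear_combination h8
      have h11 : c 4 = 2 * (c 4 / 2) := by field_simp
      have h12 : c 0 = 2 * (c 0 / 2) := by field_simp
      have e : (c 4 / 2) • (2 * z 0 ^ 4 - 3 * (z 0 ^ 3 * z 1) : Z p) +
          (c 0 / 2) • (2 * z 1 ^ 4 - 3 * (z 1 ^ 3 * z 0) : Z p) =
          c 4 • z 0 ^ 4 + (c 3 + c 2 / 2) • (z 0 ^ 3 * z 1) + (c 1 + c 2 / 2) • (z 0 * z 1 ^ 3) +
          c 0 • z 1 ^ 4 := by
        rw [h9, h10]
        generalize hs : c 4 / 2 = s at h11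
        generalize ht : c 0 / 2 = t at h12
        rw [h11, h12]
        have e1 : (2 * z 0 ^ 4 - 3 * (z 0 ^ 3 * z 1) : Z p) =
            (2 : ZMod p) • z 0 ^ 4 - (3 : ZMod p) • (z 0 ^ 3 * z 1) := by
          simp only [MvPolynomial.smul_eq_C_mul, map_ofNat]
        have e2 : (2 * z 1 ^ 4 - 3 * (z 1 ^ 3 * z 0) : Z p) =
            (2 : ZMod p) • z 1 ^ 4 - (3 : ZMod p) • (z 0 * z 1 ^ 3) := by
          simp only [MvPolynomial.smul_eq_C_mul, map_ofNat]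
          ring
        rw [e1, e2]
        generalize (z 0 ^ 3 * z 1 : Z p) = y1
        generalize (z 0 * z 1 ^ 3 : Z p) = y2
        generalize (z 0 ^ 4 : Z p) = y3
        generalize (z 1 ^ 4 : Z p) = y4
        module
      rw [e]
      exact hc
    refine n2_P1 hS (e0 := 2 * z 0 ^ 4 - 3 * (z 0 ^ 3 * z 1)) (e1 := 2 * z 1 ^ 4 - 3 * (z 1 ^ 3 * z 0))
      ?_ ?_ (key a da da' ra) (key b db db' rb) hLk
    · rw [map_sub, map_mul, map_mul, map_mul, map_pow, map_pow, r0, r1, map_ofNat, map_ofNat]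
    · rw [map_sub, map_mul, map_mul, map_mul, map_pow, map_pow, r0, r1, map_ofNat, map_ofNat]

end ADQ
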