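import Pool.Agent.ADQ.FvC
import Pool.Agent.ADQ.P1

/-!
# ADQ-N3h (the theorem `n3H`)

`n3P` (`P = (z_0 - z_1) z_1^3 ∈ R 3 4`): `z_i z_j^3 ≡ z_j^4`; `dd 1 2` of `z_0 z_1^3 - z_1^4`: `2 (z_1 - z_2) z_2^2 z_0 - 3 (z_1 - z_2) z_2^3 ≡ 2 z_0 z_1 z_2^2 - 2 z_2^4`: `z_0 z_1 z_2^2 ≡ z_2^4`.  `U_j = z_j^4`, `v_0 = z_1^2 z_2^2`, `v_1 = z_0^2 z_2^2`, `v_2 = z_0^2 z_1^2`.  A socle element `y` is `≡ ∑ a_j U_j + ∑ g_j v_j` (`exp34`);
`dd 0 1 U_0 ≡ 0`, `dd 0 1 v_2 = (z_0 - z_1) z_1^3 ≡ 0`, `dd 0 1 v_1 = z_0 z_1 z_2^2 - z_1^2 z_2^2 ≡ U_2 - v_0`, so `g_1 (U_2 - v_0) ∈ R`, and the same for the other pairs.  If some `g_j ≠ 0` (for `u` or `w`): all `v_k ≡ U_j` (`k ≠ j`), so all monomials are congruent: `LP.rank1` with `E = z_0^4`.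
Otherwise `u ≡ ∑ a_j U_j`, `w ≡ ∑ b_j U_j`: `P1` (`T = rn (swap i j)`).
`n3H` (`P ∉ R 3 4`): `y = E34 a b g d`.  (1) some `g ≠ 0`: `fvA'`: `F4, E4, B_ij = z_i z_j (z_i - z_j)^2 ∈ R`.  `dd 0 1 y = (z_0 - z_1) z_1 (A z_1^2 + B z_1 z_2 + C z_2^2)` and modulo `F4 1 0 2`, `E4 1 2 0`: `(z_0 - z_1) z_1^2 z_2 = P + F4 1 0 2`, `(z_0 - z_1) z_1 z_2^2 ≡ (z_0 - z_1) z_1^2 z_2` [difference
`z_1 z_2 (z_2 - z_1)(z_0 - z_1) = E4 1 2 0`], so `(A + B + C) P ∈ R`, `A + B + C = 0`, i.e. `3 a_0 + 2 b_01 + 2 b_02 + d_0 + g_1 + g_2 = 0`, and the same for the other indices.  `z_j^2 z_i z_k ≡ z_j^3 z_i + z_j^3 z_k - z_j^4`, `z_i^2 z_j^2 ≡ (1/2)(z_i^3 z_j + z_i z_j^3)`: `y ≡ ∑ a'_j z_j^4 + ∑ b'_ji z_j^3 z_i` with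
`a'_j = a_j - d_j`, `b'_ji = b_ji + d_j + g_k/2`, `3 a'_j + 2 b'_ji + 2 b'_jk = 0`; and `h4 j i k ≡ - 4 z_j^4 + 3 z_j^3 (z_i + z_k)` modulo `F4`, so `y ≡ ∑ (- a'_j/4) h_j + ∑ κ_j G_j`, `κ_j = (b'_{j,j+1} - b'_{j,j+2})/2`.
(2) all `g = 0`: by `fvB'` and `P ∉ R` all `s_j = 0`, `fvC1`.
-/

namespace ADQ

open AD ADN ADC

variable {p : ℕ} [Fact p.Prime] {R : ℕ → ℕ → Submodule (ZMod p) (Z p)}

private theorem n3h_ne {m : ℕ} (h5 : 5 ≤ p) (h1 : 1 ≤ m) (h2 : m < p) : ((m : ℕ) : ZMod p) ≠ 0 := by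
  intro h
  rw [ZMod.natCast_eq_zero_iff] at h
  have := Nat.le_of_dvd (by omega) h
  omega

private theorem n3h_sum (hP : (z 0 - z 1) * z 1 ^ 3 ∉ R 3 4) {a : ℕ → ZMod p} {b : ℕ → ℕ → ZMod p}
    {g d : ℕ → ZMod p} (hd : dd 0 1 (E34 a b g d) ∈ R 3 4) (hF : F4 1 0 2 ∈ R 3 4) (hE : E4 1 2 0 ∈ R 3 4) :
    3 * a 0 + 2 * b 0 1 + 2 * b 0 2 + d 0 + g 1 + g 2 = 0 := by
  by_contra hne
  rw [dd01_E34] at hd
  have e : (z 0 - z 1) * z 1 * ((3 * a 0 + 2 * b 0 1 + g 2) • z 1 ^ 2 + (2 * b 0 2 + d 0) • (z 1 * z 2) +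
      g 1 • z 2 ^ 2) = (3 * a 0 + 2 * b 0 1 + 2 * b 0 2 + d 0 + g 1 + g 2) • ((z 0 - z 1) * z 1 ^ 3) +
      (2 * b 0 2 + d 0 + g 1) • F4 1 0 2 - g 1 • (E4 1 2 0 : Z p) := by
    simp only [MvPolynomial.smul_eq_C_mul, map_add, map_mul, map_ofNat]
    unfold F4 E4
    ring
  rw [e] at hd
  have h1 : (3 * a 0 + 2 * b 0 1 + 2 * b 0 2 + d 0 + g 1 + g 2) • ((z 0 - z 1) * z 1 ^ 3) ∈ R 3 4 := by
    have h2 := Submodule.add_mem _ (Submodule.sub_mem _ hd (Submodule.smul_mem _ (2 * b 0 2 + d 0 + g 1) hF))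
      (Submodule.smul_mem _ (g 1) hE)
    convert h2 using 1
    abel
  exact hP ((Submodule.smul_mem_iff _ hne).1 h1)

private theorem n3h_swap (h : MS3 p R) (σ : Equiv.Perm ℕ) (hσ : ∀ i, 3 ≤ i → σ i = i) {i j : ℕ} (hi : σ i = 0)
    (hj : σ j = 1) {y : Z p} (hd : dd i j y ∈ R 3 4) : dd 0 1 (rn σ y) ∈ R 3 4 := by
  rw [← hi, ← hj, dd_rn]
  refine h.ren 3 3 4 σ (by omega) (fun t ht => ?_) (fun s _ t _ hst => σ.injective hst) _ hd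
  by_contra hne
  have h1 := hσ (σ t) (by omega)
  have h2 := σ.injective h1
  omega

theorem n3H (h5 : 5 ≤ p) (h : MS3 p R) (hP : (z 0 - z 1) * z 1 ^ 3 ∉ R 3 4) {y : Z p} (hy : y ∈ Hh p 3 4)
    (hd : ∀ i < 3, ∀ j < 3, i ≠ j → dd i j y ∈ R 3 4) : ∃ α κ : ℕ → ZMod p,
    y - (α 0 • h4 0 1 2 + α 1 • h4 1 0 2 + α 2 • h4 2 0 1) -
      (κ 0 • G4 0 1 2 + κ 1 • G4 1 2 0 + κ 2 • G4 2 0 1) ∈ R 3 4 := by
  obtain ⟨a, b, g, d, he⟩ := exp34 hy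
  by_cases hg : g 0 ≠ 0 ∨ g 1 ≠ 0 ∨ g 2 ≠ 0
  · have hA := fvA' h he hd hg
    have s0 : 3 * a 0 + 2 * b 0 1 + 2 * b 0 2 + d 0 + g 1 + g 2 = 0 := by
      refine n3h_sum (R := R) hP ?_ (hA 1 (by omega) 0 (by omega) 2 (by omega) (by omega) (by omega) (by omega)).1
        (hA 1 (by omega) 2 (by omega) 0 (by omega) (by omega) (by omega) (by omega)).2.1
      rw [← he]
      exact hd 0 (by omega) 1 (by omega) (by omega)
    have s1 : 3 * a 1 + 2 * b 1 0 + 2 * b 1 2 + d 1 + g 0 + g 2 = 0 := by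
      have hσ : ∀ i, 3 ≤ i → Equiv.swap 0 1 i = i := fun i hi =>
        Equiv.swap_apply_of_ne_of_ne (by omega) (by omega)
      have h2 : Equiv.swap 0 1 2 = 2 := Equiv.swap_apply_of_ne_of_ne (by omega) (by omega)
      have h1 := n3h_swap h (Equiv.swap 0 1) hσ (i := 1) (j := 0) (Equiv.swap_apply_right 0 1)
        (Equiv.swap_apply_left 0 1) (hd 1 (by omega) 0 (by omega) (by omega))
      rw [he, rn_E34 _ hσ] at h1
      have h3 := n3h_sum (R := R) hP h1 (hA 1 (by omega) 0 (by omega) 2 (by omega) (by omega) (by omega) (by omega)).1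
        (hA 1 (by omega) 2 (by omega) 0 (by omega) (by omega) (by omega) (by omega)).2.1
      simp only [Equiv.symm_swap, Equiv.swap_apply_left, Equiv.swap_apply_right, h2] at h3
      exact h3
    have s2 : 3 * a 2 + 2 * b 2 1 + 2 * b 2 0 + d 2 + g 1 + g 0 = 0 := by
      have hσ : ∀ i, 3 ≤ i → Equiv.swap 0 2 i = i := fun i hi =>
        Equiv.swap_apply_of_ne_of_ne (by omega) (by omega)
      have h2 : Equiv.swap 0 2 1 = 1 := Equiv.swap_apply_of_ne_of_ne (by omega) (by omega)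
      have h1 := n3h_swap h (Equiv.swap 0 2) hσ (i := 2) (j := 1) (Equiv.swap_apply_right 0 2)
        h2 (hd 2 (by omega) 1 (by omega) (by omega))
      rw [he, rn_E34 _ hσ] at h1
      have h3 := n3h_sum (R := R) hP h1 (hA 1 (by omega) 0 (by omega) 2 (by omega) (by omega) (by omega) (by omega)).1
        (hA 1 (by omega) 2 (by omega) 0 (by omega) (by omega) (by omega) (by omega)).2.1
      simp only [Equiv.symm_swap, Equiv.swap_apply_left, Equiv.swap_apply_right, h2] at h3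
      exact h3
    have n2 : (2 : ZMod p) ≠ 0 := by exact_mod_cast n3h_ne (p := p) (m := 2) h5 (by omega) (by omega)
    have n4 : (4 : ZMod p) ≠ 0 := by exact_mod_cast n3h_ne (p := p) (m := 4) h5 (by omega) (by omega)
    obtain ⟨γ, hγ⟩ : ∃ γ : ℕ → ZMod p, ∀ k, g k = 2 * γ k := ⟨fun k => g k / 2, fun k => by field_simp⟩
    obtain ⟨α, hα⟩ : ∃ α : ℕ → ZMod p, ∀ k, a k = d k - 4 * α k :=
      ⟨fun k => (d k - a k) / 4, fun k => by field_simp; ring⟩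
    obtain ⟨k0, hk0⟩ : ∃ κ : ZMod p, b 0 1 = κ + 3 * α 0 - d 0 - γ 2 := ⟨b 0 1 - 3 * α 0 + d 0 + γ 2, by ring⟩
    obtain ⟨k1, hk1⟩ : ∃ κ : ZMod p, b 1 2 = κ + 3 * α 1 - d 1 - γ 0 := ⟨b 1 2 - 3 * α 1 + d 1 + γ 0, by ring⟩
    obtain ⟨k2, hk2⟩ : ∃ κ : ZMod p, b 2 0 = κ + 3 * α 2 - d 2 - γ 1 := ⟨b 2 0 - 3 * α 2 + d 2 + γ 1, by ring⟩
    have l0 : b 0 2 = -k0 + 3 * α 0 - d 0 - γ 1 := by
      rw [hα, hγ, hγ, hk0] at s0
      have : 2 * (b 0 2 - (-k0 + 3 * α 0 - d 0 - γ 1)) = 0 := by linear_combination s0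
      have := (mul_eq_zero.1 this).resolve_left n2
      linear_combination this
    have l1 : b 1 0 = -k1 + 3 * α 1 - d 1 - γ 2 := by
      rw [hα, hγ, hγ, hk1] at s1
      have : 2 * (b 1 0 - (-k1 + 3 * α 1 - d 1 - γ 2)) = 0 := by linear_combination s1
      have := (mul_eq_zero.1 this).resolve_left n2
      linear_combination this
    have l2 : b 2 1 = -k2 + 3 * α 2 - d 2 - γ 0 := by
      rw [hα, hγ, hγ, hk2] at s2
      have : 2 * (b 2 1 - (-k2 + 3 * α 2 - d 2 - γ 0)) = 0 := by linear_combination s2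
      have := (mul_eq_zero.1 this).resolve_left n2
      linear_combination this
    refine ⟨α, fun t => if t = 0 then k0 else if t = 1 then k1 else k2, ?_⟩
    have e : y - (α 0 • h4 0 1 2 + α 1 • h4 1 0 2 + α 2 • h4 2 0 1) -
        (k0 • G4 0 1 2 + k1 • G4 1 2 0 + k2 • G4 2 0 1) =
        ((d 0 - 6 * α 0) • F4 0 1 2 + (d 1 - 6 * α 1) • F4 1 0 2 + (d 2 - 6 * α 2) • F4 2 0 1) -
        (γ 0 • (z 1 * z 2 * (z 1 - z 2) ^ 2) + γ 1 • (z 0 * z 2 * (z 0 - z 2) ^ 2) +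
          γ 2 • (z 0 * z 1 * (z 0 - z 1) ^ 2)) := by
      rw [he]
      unfold E34
      rw [hα 0, hα 1, hα 2, hγ 0, hγ 1, hγ 2, hk0, hk1, hk2, l0, l1, l2]
      simp only [MvPolynomial.smul_eq_C_mul, map_add, map_sub, map_neg, map_mul, map_ofNat]
      unfold F4 h4 G4
      ring
    have e' : y - (α 0 • h4 0 1 2 + α 1 • h4 1 0 2 + α 2 • h4 2 0 1) -
        ((fun t => if t = 0 then k0 else if t = 1 then k1 else k2) 0 • G4 0 1 2 +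
          (fun t => if t = 0 then k0 else if t = 1 then k1 else k2) 1 • G4 1 2 0 +
          (fun t => if t = 0 then k0 else if t = 1 then k1 else k2) 2 • G4 2 0 1) =
        y - (α 0 • h4 0 1 2 + α 1 • h4 1 0 2 + α 2 • h4 2 0 1) -
        (k0 • G4 0 1 2 + k1 • G4 1 2 0 + k2 • G4 2 0 1) := by
      simp
    have m012 := hA 0 (by omega) 1 (by omega) 2 (by omega) (by omega) (by omega) (by omega)
    have m102 := hA 1 (by omega) 0 (by omega) 2 (by omega) (by omega) (by omega) (by omega)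
    have m201 := hA 2 (by omega) 0 (by omega) 1 (by omega) (by omega) (by omega) (by omega)
    have m120 := hA 1 (by omega) 2 (by omega) 0 (by omega) (by omega) (by omega) (by omega)
    have m021 := hA 0 (by omega) 2 (by omega) 1 (by omega) (by omega) (by omega) (by omega)
    have fin : ((d 0 - 6 * α 0) • F4 0 1 2 + (d 1 - 6 * α 1) • F4 1 0 2 + (d 2 - 6 * α 2) • F4 2 0 1) -
        (γ 0 • (z 1 * z 2 * (z 1 - z 2) ^ 2) + γ 1 • (z 0 * z 2 * (z 0 - z 2) ^ 2) +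
          γ 2 • (z 0 * z 1 * (z 0 - z 1) ^ 2)) ∈ R 3 4 := by
      refine Submodule.sub_mem _ (Submodule.add_mem _ (Submodule.add_mem _ ?_ ?_) ?_)
        (Submodule.add_mem _ (Submodule.add_mem _ ?_ ?_) ?_)
      · exact Submodule.smul_mem _ _ m012.1
      · exact Submodule.smul_mem _ _ m102.1
      · exact Submodule.smul_mem _ _ m201.1
      · exact Submodule.smul_mem _ _ m120.2.2
      · exact Submodule.smul_mem _ _ m021.2.2
      · exact Submodule.smul_mem _ _ m012.2.2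
    rw [← e, ← e'] at fin
    exact fin
  · push Not at hg
    obtain ⟨g0, g1, g2⟩ := hg
    have he' : y = E34 a b 0 d := by
      rw [he]
      unfold E34
      rw [g0, g1, g2]
      rfl
    by_cases hs : 3 * a 0 + 2 * b 0 1 + 2 * b 0 2 + d 0 ≠ 0 ∨ 3 * a 1 + 2 * b 1 0 + 2 * b 1 2 + d 1 ≠ 0 ∨
      3 * a 2 + 2 * b 2 0 + 2 * b 2 1 + d 2 ≠ 0
    · exact absurd (fvB' (by omega) h he' hd hs) hP
    · push Not at hs
      obtain ⟨s0, s1, s2⟩ := hs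
      obtain ⟨φ, α, κ, hyy, f0, f1, f2⟩ := fvC1 (by omega) h he' hd s0 s1 s2
      refine ⟨α, κ, ?_⟩
      have e : y - (α 0 • h4 0 1 2 + α 1 • h4 1 0 2 + α 2 • h4 2 0 1) -
          (κ 0 • G4 0 1 2 + κ 1 • G4 1 2 0 + κ 2 • G4 2 0 1) =
          φ 0 • F4 0 1 2 + φ 1 • F4 1 0 2 + φ 2 • F4 2 0 1 := by
        rw [hyy]
        abel
      rw [e]
      exact Submodule.add_mem _ (Submodule.add_mem _ f0 f1) f2

end ADQ
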