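import Pool.Agent.ADQ.N3a
import Pool.Agent.ADQ.N3h

/-! # ADQ-N3b: `n = 3`, no leading pair -/

namespace ADQ

open AD ADN ADC

variable {p : ℕ} [Fact p.Prime] {R : ℕ → ℕ → Submodule (ZMod p) (Z p)}

private noncomputable def lH (a b c : ZMod p) : Z p := a • h4 0 1 2 + b • h4 1 0 2 + c • h4 2 0 1

private noncomputable def lG (a b c : ZMod p) : Z p := a • G4 0 1 2 + b • G4 1 2 0 + c • G4 2 0 1

private theorem rn_h4 (g : ℕ → ℕ) (i j k : ℕ) : rn g (h4 i j k : Z p) = h4 (g i) (g j) (g k) := by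
  unfold h4
  simp only [map_add, map_sub, map_mul, map_pow, rn_z, map_ofNat]

private theorem rn_G4 (g : ℕ → ℕ) (i j k : ℕ) : rn g (G4 i j k : Z p) = G4 (g i) (g j) (g k) := by
  unfold G4
  simp only [map_sub, map_mul, map_pow, rn_z]

private theorem h4_symm (i j k : ℕ) : (h4 i j k : Z p) = h4 i k j := by
  unfold h4
  ring

private theorem G4_symm (i j k : ℕ) : (G4 i j k : Z p) = -G4 i k j := by
  unfold G4
  ring

private def cy : Equiv.Perm ℕ := Equiv.swap 0 1 * Equiv.swap 1 2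

private theorem cy0 : cy 0 = 1 := by decide
private theorem cy1 : cy 1 = 2 := by decide
private theorem cy2 : cy 2 = 0 := by decide

private theorem cy_fix (i : ℕ) (hi : 3 ≤ i) : cy i = i := by
  have h1 : Equiv.swap 1 2 i = i := Equiv.swap_apply_of_ne_of_ne (by omega) (by omega)
  have h2 : Equiv.swap 0 1 i = i := Equiv.swap_apply_of_ne_of_ne (by omega) (by omega)
  unfold cy
  rw [Equiv.Perm.mul_apply, h1, h2]

private theorem sw_fix {a b : ℕ} (ha : a < 3) (hb : b < 3) (i : ℕ) (hi : 3 ≤ i) : Equiv.swap a b i = i :=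
  Equiv.swap_apply_of_ne_of_ne (by omega) (by omega)

private noncomputable def Ts : Z p →ₗ[ZMod p] Z p := (rn (Equiv.swap 0 1) : Z p →ₐ[ZMod p] Z p).toLinearMap

private noncomputable def Tc : Z p →ₗ[ZMod p] Z p := (rn cy : Z p →ₐ[ZMod p] Z p).toLinearMap

private theorem Ts_GA : (Ts : Z p →ₗ[ZMod p] Z p) ∈ GA p 3 := GA_rn _ (sw_fix (by norm_num) (by norm_num))

private theorem Tc_GA : (Tc : Z p →ₗ[ZMod p] Z p) ∈ GA p 3 := GA_rn _ cy_fix

private theorem Ts_lH (a b c : ZMod p) : Ts (lH a b c) = lH b a c := by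
  have e : Ts (lH a b c) = rn (Equiv.swap 0 1) (lH a b c) := rfl
  rw [e]
  unfold lH
  rw [map_add, map_add, map_smul, map_smul, map_smul, rn_h4, rn_h4, rn_h4]
  have s0 : Equiv.swap 0 1 0 = 1 := by decide
  have s1 : Equiv.swap 0 1 1 = 0 := by decide
  have s2 : Equiv.swap 0 1 2 = 2 := by decide
  rw [s0, s1, s2, h4_symm 2 1 0]
  abel

private theorem Ts_lG (a b c : ZMod p) : Ts (lG a b c) = lG (-b) (-a) (-c) := by
  have e : Ts (lG a b c) = rn (Equiv.swap 0 1) (lG a b c) := rfl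
  rw [e]
  unfold lG
  rw [map_add, map_add, map_smul, map_smul, map_smul, rn_G4, rn_G4, rn_G4]
  have s0 : Equiv.swap 0 1 0 = 1 := by decide
  have s1 : Equiv.swap 0 1 1 = 0 := by decide
  have s2 : Equiv.swap 0 1 2 = 2 := by decide
  rw [s0, s1, s2, G4_symm 1 0 2, G4_symm 0 2 1, G4_symm 2 1 0]
  module

private theorem Tc_lH (a b c : ZMod p) : Tc (lH a b c) = lH c a b := by
  have e : Tc (lH a b c) = rn cy (lH a b c) := rfl
  rw [e]
  unfold lH
  rw [map_add, map_add, map_smul, map_smul, map_smul, rn_h4, rn_h4, rn_h4, cy0, cy1, cy2, h4_symm 1 2 0, h4_symm 2 1 0]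
  abel

private theorem Tc_lG (a b c : ZMod p) : Tc (lG a b c) = lG c a b := by
  have e : Tc (lG a b c) = rn cy (lG a b c) := rfl
  rw [e]
  unfold lG
  rw [map_add, map_add, map_smul, map_smul, map_smul, rn_G4, rn_G4, rn_G4, cy0, cy1, cy2]
  abel

private theorem lH_add (a b c a' b' c' : ZMod p) : (lH a b c + lH a' b' c' : Z p) = lH (a + a') (b + b') (c + c') := by
  unfold lH
  module

private theorem lG_add (a b c a' b' c' : ZMod p) : (lG a b c + lG a' b' c' : Z p) = lG (a + a') (b + b') (c + c') := by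
  unfold lG
  module

private theorem lH_smul (x a b c : ZMod p) : (x • lH a b c : Z p) = lH (x * a) (x * b) (x * c) := by
  unfold lH
  module

private theorem lG_smul (x a b c : ZMod p) : (x • lG a b c : Z p) = lG (x * a) (x * b) (x * c) := by
  unfold lG
  module

/-- `(1 + c + c²)(1 + ε s)` -/
private noncomputable def TT (ε : ZMod p) : Z p →ₗ[ZMod p] Z p :=
  (LinearMap.id + Tc + Tc.comp Tc).comp (LinearMap.id + ε • Ts)

private theorem TT_GA (ε : ZMod p) : (TT ε : Z p →ₗ[ZMod p] Z p) ∈ GA p 3 := by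
  unfold TT
  exact GA_comp (Submodule.add_mem _ (Submodule.add_mem _ (GA_one 3) Tc_GA) (GA_comp Tc_GA Tc_GA))
    (Submodule.add_mem _ (GA_one 3) (Submodule.smul_mem _ _ Ts_GA))

private theorem TT_apply (ε : ZMod p) (F : Z p) : TT ε F =
    (F + ε • Ts F) + Tc (F + ε • Ts F) + Tc (Tc (F + ε • Ts F)) := by
  unfold TT
  simp only [LinearMap.comp_apply, LinearMap.add_apply, LinearMap.smul_apply, LinearMap.id_apply]

private theorem TT_one (a b c a' b' c' : ZMod p) : TT 1 (lH a b c + lG a' b' c') = (2 * (a + b + c)) • lH 1 1 1 := by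
  rw [TT_apply]
  simp only [map_add, map_smul, Ts_lH, Ts_lG, Tc_lH, Tc_lG]
  unfold lH lG
  module

private theorem TT_neg (a b c a' b' c' : ZMod p) :
    TT (-1) (lH a b c + lG a' b' c') = (2 * (a' + b' + c')) • lG 1 1 1 := by
  rw [TT_apply]
  simp only [map_add, map_smul, Ts_lH, Ts_lG, Tc_lH, Tc_lG]
  unfold lH lG
  module

private theorem fv_eq (α μ : ZMod p) : (fv α μ : Z p) = lH α (-α) 0 + lG (-μ) (-μ) (2 * μ) := by
  unfold fv lH lG h4 G4
  simp only [MvPolynomial.smul_eq_C_mul, map_mul, map_sub, map_add, map_neg, map_ofNat, map_zero]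
  ring

private theorem two_ne (h5 : 5 ≤ p) : (2 : ZMod p) ≠ 0 := by
  intro h
  have h1 : ((2 : ℕ) : ZMod p) = 0 := by exact_mod_cast h
  rw [ZMod.natCast_eq_zero_iff] at h1
  have := Nat.le_of_dvd (by norm_num) h1
  omega

private theorem three_ne (h5 : 5 ≤ p) : (3 : ZMod p) ≠ 0 := by
  intro h
  have h1 : ((3 : ℕ) : ZMod p) = 0 := by exact_mod_cast h
  rw [ZMod.natCast_eq_zero_iff] at h1
  have := Nat.le_of_dvd (by norm_num) h1
  omega

private theorem nrm (h5 : 5 ≤ p) {N : Submodule (ZMod p) (Z p)} (hN : Stb p 3 N) {u : Z p} {a b c a' b' c' : ZMod p}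
    (hu : u - (lH a b c + lG a' b' c') ∈ N) (h1 : TT 1 u ∈ N) (h2 : TT (-1) u ∈ N) :
    ∃ x y z x' y' z' : ZMod p, x + y + z = 0 ∧ x' + y' + z' = 0 ∧ u - (lH x y z + lG x' y' z') ∈ N := by
  have e2 := two_ne h5
  have e3 := three_ne h5
  have k1 : (2 * (a + b + c)) • lH 1 1 1 ∈ N := by
    have h3 := hN _ (TT_GA 1) _ hu
    rw [map_sub, TT_one] at h3
    have h4 := N.sub_mem h1 h3
    rwa [sub_sub_cancel] at h4
  have k2 : (2 * (a' + b' + c')) • lG 1 1 1 ∈ N := by
    have h3 := hN _ (TT_GA (-1)) _ hu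
    rw [map_sub, TT_neg] at h3
    have h4 := N.sub_mem h2 h3
    rwa [sub_sub_cancel] at h4
  refine ⟨a - (a + b + c) / 3, b - (a + b + c) / 3, c - (a + b + c) / 3, a' - (a' + b' + c') / 3,
    b' - (a' + b' + c') / 3, c' - (a' + b' + c') / 3, by field_simp; ring, by field_simp; ring, ?_⟩
  have h3 := N.add_mem (N.add_mem hu (N.smul_mem (1 / 6) k1)) (N.smul_mem (1 / 6) k2)
  have e6 : (6 : ZMod p) = 2 * 3 := by norm_num
  have f1 : (1 / 6 : ZMod p) * (2 * (a + b + c)) = (a + b + c) / 3 := by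
    rw [e6]
    field_simp
  have f2 : (1 / 6 : ZMod p) * (2 * (a' + b' + c')) = (a' + b' + c') / 3 := by
    rw [e6]
    field_simp
  rw [smul_smul, smul_smul, f1, f2] at h3
  have e : u - (lH (a - (a + b + c) / 3) (b - (a + b + c) / 3) (c - (a + b + c) / 3) +
      lG (a' - (a' + b' + c') / 3) (b' - (a' + b' + c') / 3) (c' - (a' + b' + c') / 3)) =
      u - (lH a b c + lG a' b' c') + ((a + b + c) / 3) • lH 1 1 1 + ((a' + b' + c') / 3) • lG 1 1 1 := by
    unfold lH lG
    module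
  rw [e]
  exact h3

private noncomputable def eH (j : ℕ) : Z p := if j = 0 then h4 0 1 2 else if j = 1 then h4 1 0 2 else h4 2 0 1

private noncomputable def eG (j : ℕ) : Z p := if j = 0 then G4 0 1 2 else if j = 1 then G4 1 2 0 else G4 2 0 1

private theorem sumH (a b c : ZMod p) :
    ∑ i ∈ Finset.range 3, (if i = 0 then a else if i = 1 then b else c) • (eH i : Z p) = lH a b c := by
  rw [Finset.sum_range_succ, Finset.sum_range_succ, Finset.sum_range_one]
  rfl

private theorem sumG (a b c : ZMod p) :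
    ∑ i ∈ Finset.range 3, (if i = 0 then a else if i = 1 then b else c) • (eG i : Z p) = lG a b c := by
  rw [Finset.sum_range_succ, Finset.sum_range_succ, Finset.sum_range_one]
  rfl

private theorem eH0 : (eH 0 : Z p) = h4 0 1 2 := rfl
private theorem eH1 : (eH 1 : Z p) = h4 1 0 2 := rfl
private theorem eH2 : (eH 2 : Z p) = h4 2 0 1 := rfl
private theorem eG0 : (eG 0 : Z p) = G4 0 1 2 := rfl
private theorem eG1 : (eG 1 : Z p) = G4 1 2 0 := rfl
private theorem eG2 : (eG 2 : Z p) = G4 2 0 1 := rfl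

private theorem actH (a b c : ℕ) (ha : a < 3) (hb : b < 3) (hc : c < 3) (hab : a ≠ b) :
    rn (Equiv.swap a b) (eH c : Z p) = eH (Equiv.swap a b c) := by
  interval_cases a <;> interval_cases b <;> interval_cases c <;>
    first
    | exact absurd rfl hab
    | (simp +decide only [Equiv.swap_apply_def, if_true, if_false, eH0, eH1, eH2, rn_h4]
       done)
    | (simp +decide only [Equiv.swap_apply_def, if_true, if_false, eH0, eH1, eH2, rn_h4]
       unfold h4
       ring)

private theorem actG (a b c : ℕ) (ha : a < 3) (hb : b < 3) (hc : c < 3) (hab : a ≠ b) :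
    rn (Equiv.swap a b) (eG c : Z p) = -eG (Equiv.swap a b c) := by
  interval_cases a <;> interval_cases b <;> interval_cases c <;>
    first
    | exact absurd rfl hab
    | (simp +decide only [Equiv.swap_apply_def, if_true, if_false, eG0, eG1, eG2, rn_G4]
       unfold G4
       ring)

/-- both elements are combinations of the `h_j` -/
private theorem endH {N : Submodule (ZMod p) (Z p)} (hN : Stb p 3 N) {u w : Z p} {a b c a' b' c' : ZMod p}
    (hu : u - lH a b c ∈ N) (hw : w - lH a' b' c' ∈ N) (hl : Lkd p 3 N u w) : u ∈ N := by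
  refine P1 hN (e := eH) (a := fun i => if i = 0 then a else if i = 1 then b else c)
    (b := fun i => if i = 0 then a' else if i = 1 then b' else c') ?_ ?_ ?_ hl
  · intro i hi j hj hij
    have e : ∀ k < 3, (rn (Equiv.swap i j) : Z p →ₐ[ZMod p] Z p).toLinearMap (eH k) = eH (Equiv.swap i j k) :=
      fun k hk => actH i j k hi hj hk hij
    refine ⟨(rn (Equiv.swap i j) : Z p →ₐ[ZMod p] Z p).toLinearMap, GA_rn _ (sw_fix hi hj), ?_, ?_, ?_⟩
    · rw [e i hi, Equiv.swap_apply_left, sub_self]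
      exact N.zero_mem
    · rw [e j hj, Equiv.swap_apply_right, sub_self]
      exact N.zero_mem
    · intro k hk hki hkj
      rw [e k hk, Equiv.swap_apply_of_ne_of_ne hki hkj, sub_self]
      exact N.zero_mem
  · rw [sumH]
    exact hu
  · rw [sumH]
    exact hw

/-- both elements are combinations of the `G_j` -/
private theorem endG {N : Submodule (ZMod p) (Z p)} (hN : Stb p 3 N) {u w : Z p} {a b c a' b' c' : ZMod p}
    (hu : u - lG a b c ∈ N) (hw : w - lG a' b' c' ∈ N) (hl : Lkd p 3 N u w) : u ∈ N := by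
  refine P1 hN (e := eG) (a := fun i => if i = 0 then a else if i = 1 then b else c)
    (b := fun i => if i = 0 then a' else if i = 1 then b' else c') ?_ ?_ ?_ hl
  · intro i hi j hj hij
    have e : ∀ k < 3, (-(rn (Equiv.swap i j) : Z p →ₐ[ZMod p] Z p).toLinearMap) (eG k) = eG (Equiv.swap i j k) :=
      fun k hk => by
        rw [LinearMap.neg_apply]
        have h1 : (rn (Equiv.swap i j) : Z p →ₐ[ZMod p] Z p).toLinearMap (eG k) = -eG (Equiv.swap i j k) :=
          actG i j k hi hj hk hij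
        rw [h1, neg_neg]
    refine ⟨-(rn (Equiv.swap i j) : Z p →ₐ[ZMod p] Z p).toLinearMap,
      Submodule.neg_mem _ (GA_rn _ (sw_fix hi hj)), ?_, ?_, ?_⟩
    · rw [e i hi, Equiv.swap_apply_left, sub_self]
      exact N.zero_mem
    · rw [e j hj, Equiv.swap_apply_right, sub_self]
      exact N.zero_mem
    · intro k hk hki hkj
      rw [e k hk, Equiv.swap_apply_of_ne_of_ne hki hkj, sub_self]
      exact N.zero_mem
  · rw [sumG]
    exact hu
  · rw [sumG]
    exact hw

/-- the relations given by `fv` -/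
private theorem relv {N : Submodule (ZMod p) (Z p)} (hN : Stb p 3 N) {α μ : ZMod p} (hf : fv α μ ∈ N) (a b c : ZMod p)
    (hs : a + b + c = 0) : α • lH a b c + μ • lG (b - c) (c - a) (a - b) ∈ N := by
  have h1 := hN _ Tc_GA _ hf
  rw [fv_eq] at hf
  rw [fv_eq, map_add, Tc_lH, Tc_lG] at h1
  have h2 := N.add_mem (N.smul_mem a hf) (N.smul_mem (a + b) h1)
  have hc : c = -a - b := by linear_combination hs
  have e : α • lH a b c + μ • lG (b - c) (c - a) (a - b) =
      a • (lH α (-α) 0 + lG (-μ) (-μ) (2 * μ)) + (a + b) • (lH 0 α (-α) + lG (2 * μ) (-μ) (-μ)) := by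
    rw [hc]
    unfold lH lG
    module
  rw [e]
  exact h2

theorem noLP_4_3 (h5 : 5 ≤ p) (h : MS3 p R) {α μ : ZMod p} (hv : ¬ (α = 0 ∧ μ = 0)) (hf : fv α μ ∈ R 3 4)
    {u w : Z p} (hl : LP p R (Soc3 p R) 3 4 4 u w) : False := by
  by_cases hP : (z 0 - z 1) * z 1 ^ 3 ∈ R 3 4
  · exact n3P h5 h hP hl
  have hN : Stb p 3 (R 3 4) := h.toMS.GAs (by norm_num)
  have hL : Lkd p 3 (R 3 4) u w := hl.Lkd
  obtain ⟨a, κ, hu⟩ := n3H h5 h hP hl.su.hy (hl.su.dd le_rfl)
  obtain ⟨a', κ', hw⟩ := n3H h5 h hP hl.sw.hy (hl.sw.dd le_rfl)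
  have hu1 : u - (lH (a 0) (a 1) (a 2) + lG (κ 0) (κ 1) (κ 2)) ∈ R 3 4 := by
    rw [← sub_sub]
    exact hu
  have hw1 : w - (lH (a' 0) (a' 1) (a' 2) + lG (κ' 0) (κ' 1) (κ' 2)) ∈ R 3 4 := by
    rw [← sub_sub]
    exact hw
  have r1 := hL.rankT (TT_GA 1) (E := lH 1 1 1) (x := 2 * (a 0 + a 1 + a 2)) (y := 2 * (a' 0 + a' 1 + a' 2)) (by
    have h3 := hN _ (TT_GA 1) _ hu1
    rwa [map_sub, TT_one] at h3) (by
    have h3 := hN _ (TT_GA 1) _ hw1
    rwa [map_sub, TT_one] at h3)
  have r2 := hL.rankT (TT_GA (-1)) (E := lG 1 1 1) (x := 2 * (κ 0 + κ 1 + κ 2)) (y := 2 * (κ' 0 + κ' 1 + κ' 2)) (by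
    have h3 := hN _ (TT_GA (-1)) _ hu1
    rwa [map_sub, TT_neg] at h3) (by
    have h3 := hN _ (TT_GA (-1)) _ hw1
    rwa [map_sub, TT_neg] at h3)
  obtain ⟨x, y, v, x', y', v', hs, hs', hu2⟩ := nrm h5 hN hu1 r1.1 r2.1
  obtain ⟨X, Y, V, X', Y', V', hS, hS', hw2⟩ := nrm h5 hN hw1 r1.2 r2.2
  apply hl.nu
  by_cases hα : α = 0
  · have hμ : μ ≠ 0 := fun h0 => hv ⟨hα, h0⟩
    have key : ∀ k l m : ZMod p, k + l + m = 0 → lG k l m ∈ R 3 4 := by
      intro k l m hk
      have e3 := three_ne h5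
      have h1 := relv hN hf (-(l - m) / 3) (-(m - k) / 3) (-(k - l) / 3) (by ring)
      rw [hα, zero_smul, zero_add] at h1
      have h2 := (R 3 4).smul_mem μ⁻¹ h1
      rw [smul_smul, inv_mul_cancel₀ hμ, one_smul] at h2
      have f0 : -(m - k) / 3 - -(k - l) / 3 = k := by
        field_simp
        linear_combination -hk
      have f1 : -(k - l) / 3 - -(l - m) / 3 = l := by
        field_simp
        linear_combination -hk
      have f2 : -(l - m) / 3 - -(m - k) / 3 = m := by
        field_simp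
        linear_combination -hk
      rwa [f0, f1, f2] at h2
    refine endH hN (a := x) (b := y) (c := v) (a' := X) (b' := Y) (c' := V) (w := w) ?_ ?_ hL
    · have h1 := (R 3 4).add_mem hu2 (key x' y' v' hs')
      have e : u - lH x y v = u - (lH x y v + lG x' y' v') + lG x' y' v' := by abel
      rw [e]
      exact h1
    · have h1 := (R 3 4).add_mem hw2 (key X' Y' V' hS')
      have e : w - lH X Y V = w - (lH X Y V + lG X' Y' V') + lG X' Y' V' := by abel
      rw [e]
      exact h1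
  · have key : ∀ k l m : ZMod p, k + l + m = 0 → lH k l m + (μ / α) • lG (l - m) (m - k) (k - l) ∈ R 3 4 := by
      intro k l m hk
      have h1 := relv hN hf k l m hk
      have h2 := (R 3 4).smul_mem α⁻¹ h1
      rw [smul_add, smul_smul, inv_mul_cancel₀ hα, one_smul, smul_smul] at h2
      have e : μ / α = α⁻¹ * μ := by ring
      rw [e]
      exact h2
    refine endG hN (a := x' - μ / α * (y - v)) (b := y' - μ / α * (v - x)) (c := v' - μ / α * (x - y))
      (a' := X' - μ / α * (Y - V)) (b' := Y' - μ / α * (V - X)) (c' := V' - μ / α * (X - Y)) (w := w) ?_ ?_ hL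
    · have h1 := (R 3 4).add_mem hu2 (key x y v hs)
      have e : u - lG (x' - μ / α * (y - v)) (y' - μ / α * (v - x)) (v' - μ / α * (x - y)) =
          u - (lH x y v + lG x' y' v') + (lH x y v + (μ / α) • lG (y - v) (v - x) (x - y)) := by
        unfold lG
        module
      rw [e]
      exact h1
    · have h1 := (R 3 4).add_mem hw2 (key X Y V hS)
      have e : w - lG (X' - μ / α * (Y - V)) (Y' - μ / α * (V - X)) (V' - μ / α * (X - Y)) =
          w - (lH X Y V + lG X' Y' V') + (lH X Y V + (μ / α) • lG (Y - V) (V - X) (X - Y)) := by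
        unfold lG
        module
      rw [e]
      exact h1

end ADQ
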