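import Pool.Agent.ADQ.N4t
import Pool.Agent.ADQ.ExpN

/-!
# ADQ-N4b

`y = ∑_S g_S z_S^2 + t`, `t ∈ Nt p 4` (`expN4`).  `N4b1` (second alternative of `n4t`): all generators of `Nt p 4` are `≡ e = z_0^4` modulo `R 4 4` (with `ren`), so `y ≡ c e + ∑ g_S z_S^2`.  `e ≡ z_a^4` for every `a`; `dd i j (z_a^4) = 0` for `a ≠ i`, so `dd i j t ≡ 0` in the sense that `dd i j (t - c z_a^4) ∈ R`.
`dd i j (z_i^2 z_j^2) = (z_i - z_j) z_j^3 ∈ R`, `dd i j (z_i^2 z_k^2) = z_i z_j z_k^2 - z_j^2 z_k^2`.  So `∑_{k≠i,j} g{i,k} (z_i z_j z_k^2 - z_j^2 z_k^2) ∈ R`; `dd k i` of it (`k` fixed; the terms with `k' ≠ k` give 0): `g{i,k} ((z_k - z_i) z_i^2 z_j - (z_k - z_i) z_i z_j^2) ≡ g{i,k} (z_i^2 z_j^2 - e)`.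
If some `g{i,k} ≠ 0` then all `z_a^2 z_b^2 ≡ e`, so `y ≡ c' e`; otherwise `y ≡ c e`.
`N4b2` (third alternative): `u_i = z_i^4`, `z_i^3 z_j ≡ (2/3) u_i`, `z_i^2 z_j z_k ≡ (1/3) u_i`, `z_0 z_1 z_2 z_3 ≡ 0`; `y ≡ ∑ a_i u_i + ∑ g_S z_S^2`.  `dd i j u_i = 3 (z_i - z_j) z_j^3 ≡ - u_j`, `dd i j (z_i^2 z_j^2) ≡ - (1/3) u_j`, `dd i j (z_i^2 z_k^2) = z_i z_j z_k^2 - z_j^2 z_k^2 ≡ (1/3) u_k - z_j^2 z_k^2`.
`dd k i` of `dd i j y`: `g{i,k} (- (1/3) u_i - (1/3) u_j + z_i^2 z_j^2) ∈ R` up to sign (`dd k i u_k ≡ - u_i`, `dd k i (z_j^2 z_k^2) ≡ (1/3) u_j - z_i^2 z_j^2`, `dd k i u_j = 0`).  If some `g ≠ 0`: `z_i^2 z_j^2 ≡ (1/3)(u_i + u_j)` for all `i ≠ j`, so `y ≡ ∑ a'_i u_i` in any case, `a'_i u_j ∈ R` for `j ≠ i`: `y ∈ R`.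
-/

namespace ADQ

open AD ADN ADC

variable {p : ℕ} [Fact p.Prime] {R : ℕ → ℕ → Submodule (ZMod p) (Z p)}

private theorem n4b_dec {m : ℕ →₀ ℕ} {k : ℕ} (h : m.degree = k + 1) :
    ∃ (i : ℕ) (m' : ℕ →₀ ℕ), m = Finsupp.single i 1 + m' ∧ m'.degree = k := by
  have h0 : m ≠ 0 := by
    rintro rfl
    rw [map_zero] at h
    omega
  obtain ⟨i, hi⟩ := Finsupp.ne_iff.1 h0
  rw [Finsupp.zero_apply] at hi
  have h1 : Finsupp.single i 1 ≤ m := by
    rw [Finsupp.single_le_iff]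
    omega
  refine ⟨i, m - Finsupp.single i 1, (add_tsub_cancel_of_le h1).symm, ?_⟩
  have h2 : (Finsupp.single i 1 + (m - Finsupp.single i 1)).degree = k + 1 := by
    rw [add_tsub_cancel_of_le h1]
    exact h
  rw [map_add, Finsupp.degree_single] at h2
  omega

/-- monomials of degree 4 -/
private theorem n4b_four {m : ℕ →₀ ℕ} (h : m.degree = 4) : ∃ a b c d : ℕ,
    m = Finsupp.single a 1 + (Finsupp.single b 1 + (Finsupp.single c 1 + Finsupp.single d 1)) := by
  obtain ⟨a, m1, rfl, h1⟩ := n4b_dec (k := 3) h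
  obtain ⟨b, m2, rfl, h2⟩ := n4b_dec (k := 2) h1
  obtain ⟨c, m3, rfl, h3⟩ := n4b_dec (k := 1) h2
  obtain ⟨d, m4, rfl, h4⟩ := n4b_dec (k := 0) h3
  rw [(Finsupp.degree_eq_zero_iff m4).1 h4]
  exact ⟨a, b, c, d, by rw [add_zero]⟩

private theorem n4b_mo4 (a b c d : ℕ) :
    (mo (Finsupp.single a 1 + (Finsupp.single b 1 + (Finsupp.single c 1 + Finsupp.single d 1))) : Z p) =
      z a * z b * z c * z d := by
  have h1 : ∀ i, (mo (Finsupp.single i 1) : Z p) = z i := fun i => by rw [mo_single, pow_one]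
  rw [mo_add, mo_add, mo_add, h1, h1, h1, h1]
  ring

private theorem n4b_key {n a b c d : ℕ}
    (hm : ∀ i, n ≤ i → (Finsupp.single a 1 + (Finsupp.single b 1 + (Finsupp.single c 1 + Finsupp.single d 1)) : ℕ →₀ ℕ) i = 0) :
    a < n ∧ b < n ∧ c < n ∧ d < n := by
  have key : ∀ x : ℕ, x = a ∨ x = b ∨ x = c ∨ x = d → x < n := by
    intro x hx
    by_contra hxn
    have h6 := hm x (not_lt.1 hxn)
    rw [Finsupp.add_apply, Finsupp.add_apply, Finsupp.add_apply] at h6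
    rcases hx with rfl | rfl | rfl | rfl
    · rw [Finsupp.single_eq_same] at h6; omega
    · rw [Finsupp.single_eq_same] at h6; omega
    · rw [Finsupp.single_eq_same] at h6; omega
    · rw [Finsupp.single_eq_same] at h6; omega
  exact ⟨key a (by tauto), key b (by tauto), key c (by tauto), key d (by tauto)⟩

private theorem n4b_22 {a b : ℕ} (hab : a ≠ b) :
    (Finsupp.single a 1 + (Finsupp.single a 1 + (Finsupp.single b 1 + Finsupp.single b 1)) : ℕ →₀ ℕ) a = 2 ∧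
    (Finsupp.single a 1 + (Finsupp.single a 1 + (Finsupp.single b 1 + Finsupp.single b 1)) : ℕ →₀ ℕ) b = 2 := by
  simp only [Finsupp.add_apply, Finsupp.single_eq_same, Finsupp.single_eq_of_ne hab,
    Finsupp.single_eq_of_ne (Ne.symm hab)]
  exact ⟨rfl, rfl⟩

/-- the generators of `Nt` -/
private theorem n4b_gen {n : ℕ} {N : Submodule (ZMod p) (Z p)} {e : Z p}
    (q4 : ∀ i < n, z i ^ 4 - e ∈ N) (q31 : ∀ i < n, ∀ j < n, i ≠ j → z i ^ 3 * z j - e ∈ N)
    (q2 : ∀ i < n, ∀ j < n, ∀ k < n, i ≠ j → i ≠ k → j ≠ k → z i ^ 2 * z j * z k - e ∈ N)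
    (q1 : ∀ i < n, ∀ j < n, ∀ k < n, ∀ l < n, i ≠ j → i ≠ k → i ≠ l → j ≠ k → j ≠ l → k ≠ l →
      z i * z j * z k * z l - e ∈ N) {t : Z p} (ht : t ∈ Nt p n) : ∃ c : ZMod p, t - c • e ∈ N := by
  unfold Nt at ht
  induction ht using Submodule.span_induction with
  | mem x hx =>
    obtain ⟨m, hm, hd, h22, rfl⟩ := hx
    refine ⟨1, ?_⟩
    rw [one_smul]
    obtain ⟨a, b, c, d, rfl⟩ := n4b_four hd
    obtain ⟨ha, hb, hc, hd'⟩ := n4b_key hm
    rw [n4b_mo4]
    by_cases ab : a = b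
    · subst ab
      by_cases ac : a = c
      · subst ac
        by_cases ad : a = d
        · subst ad
          have e : (z a * z a * z a * z a : Z p) = z a ^ 4 := by ring
          rw [e]
          exact q4 a ha
        · have e : (z a * z a * z a * z d : Z p) = z a ^ 3 * z d := by ring
          rw [e]
          exact q31 a ha d hd' ad
      · by_cases ad : a = d
        · subst ad
          have e : (z a * z a * z c * z a : Z p) = z a ^ 3 * z c := by ring
          rw [e]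
          exact q31 a ha c hc ac
        · by_cases cd : c = d
          · subst cd
            exact absurd (n4b_22 ac) (h22 a c ac)
          · have e : (z a * z a * z c * z d : Z p) = z a ^ 2 * z c * z d := by ring
            rw [e]
            exact q2 a ha c hc d hd' ac ad cd
    · by_cases ac : a = c
      · subst ac
        by_cases ad : a = d
        · subst ad
          have e : (z a * z b * z a * z a : Z p) = z a ^ 3 * z b := by ring
          rw [e]
          exact q31 a ha b hb ab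
        · by_cases bd : b = d
          · subst bd
            exfalso
            refine h22 a b ab ?_
            have e : (Finsupp.single a 1 + (Finsupp.single b 1 + (Finsupp.single a 1 + Finsupp.single b 1)) : ℕ →₀ ℕ) =
                Finsupp.single a 1 + (Finsupp.single a 1 + (Finsupp.single b 1 + Finsupp.single b 1)) := by abel
            rw [e]
            exact n4b_22 ab
          · have e : (z a * z b * z a * z d : Z p) = z a ^ 2 * z b * z d := by ring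
            rw [e]
            exact q2 a ha b hb d hd' ab ad bd
      · by_cases ad : a = d
        · subst ad
          by_cases bc : b = c
          · subst bc
            exfalso
            refine h22 a b ab ?_
            have e : (Finsupp.single a 1 + (Finsupp.single b 1 + (Finsupp.single b 1 + Finsupp.single a 1)) : ℕ →₀ ℕ) =
                Finsupp.single a 1 + (Finsupp.single a 1 + (Finsupp.single b 1 + Finsupp.single b 1)) := by abel
            rw [e]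
            exact n4b_22 ab
          · have e : (z a * z b * z c * z a : Z p) = z a ^ 2 * z b * z c := by ring
            rw [e]
            exact q2 a ha b hb c hc ab ac bc
        · by_cases bc : b = c
          · subst bc
            by_cases bd : b = d
            · subst bd
              have e : (z a * z b * z b * z b : Z p) = z b ^ 3 * z a := by ring
              rw [e]
              exact q31 b hb a ha (Ne.symm ab)
            · have e : (z a * z b * z b * z d : Z p) = z b ^ 2 * z a * z d := by ring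
              rw [e]
              exact q2 b hb a ha d hd' (Ne.symm ab) bd ad
          · by_cases bd : b = d
            · subst bd
              have e : (z a * z b * z c * z b : Z p) = z b ^ 2 * z a * z c := by ring
              rw [e]
              exact q2 b hb a ha c hc (Ne.symm ab) bc ac
            · by_cases cd : c = d
              · subst cd
                have e : (z a * z b * z c * z c : Z p) = z c ^ 2 * z a * z b := by ring
                rw [e]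
                exact q2 c hc a ha b hb (Ne.symm ac) (Ne.symm bc) ab
              · exact q1 a ha b hb c hc d hd' ab ac ad bc bd cd
  | zero => exact ⟨0, by rw [zero_smul, sub_zero]; exact Submodule.zero_mem _⟩
  | add x y _ _ hx hy =>
    obtain ⟨c, hc⟩ := hx
    obtain ⟨d, hd⟩ := hy
    refine ⟨c + d, ?_⟩
    have e' : x + y - (c + d) • e = (x - c • e) + (y - d • e) := by
      rw [add_smul]
      abel
    rw [e']
    exact Submodule.add_mem _ hc hd
  | smul a x _ hx =>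
    obtain ⟨c, hc⟩ := hx
    refine ⟨a * c, ?_⟩
    have e' : a • x - (a * c) • e = a • (x - c • e) := by rw [smul_sub, mul_smul]
    rw [e']
    exact Submodule.smul_mem _ _ hc

private def n4b_g (a b c d : ℕ) (t : ℕ) : ℕ := if t = 0 then a else if t = 1 then b else if t = 2 then c else d

private theorem n4b_ren (h : MS3 p R) {a b c d : ℕ} (ha : a < 4) (hb : b < 4) (hc : c < 4) (hd : d < 4)
    (ab : a ≠ b) (ac : a ≠ c) (ad : a ≠ d) (bc : b ≠ c) (bd : b ≠ d) (cd : c ≠ d) {F : Z p} (hF : F ∈ R 4 4) :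
    rn (n4b_g a b c d) F ∈ R 4 4 := by
  refine h.toMS.ren 4 4 4 _ (by norm_num) ?_ ?_ F hF
  · intro i _
    unfold n4b_g
    split_ifs <;> assumption
  · intro i hi j hj
    unfold n4b_g
    interval_cases i <;> interval_cases j <;> simp <;> omega

private theorem n4b_ex2f : ∀ a b : Fin 4, a ≠ b → ∃ c d : Fin 4, a ≠ c ∧ a ≠ d ∧ b ≠ c ∧ b ≠ d ∧ c ≠ d := by
  decide

private theorem n4b_ex3f : ∀ a b c : Fin 4, a ≠ b → a ≠ c → b ≠ c → ∃ d : Fin 4, a ≠ d ∧ b ≠ d ∧ c ≠ d := by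
  decide

private theorem n4b_ex2 (a : ℕ) (ha : a < 4) (b : ℕ) (hb : b < 4) (hab : a ≠ b) :
    ∃ c < 4, ∃ d < 4, a ≠ c ∧ a ≠ d ∧ b ≠ c ∧ b ≠ d ∧ c ≠ d := by
  obtain ⟨c, d, h1, h2, h3, h4, h5⟩ := n4b_ex2f ⟨a, ha⟩ ⟨b, hb⟩ (fun h => hab (congrArg Fin.val h))
  exact ⟨c, c.2, d, d.2, fun h => h1 (Fin.ext h), fun h => h2 (Fin.ext h), fun h => h3 (Fin.ext h),
    fun h => h4 (Fin.ext h), fun h => h5 (Fin.ext h)⟩

private theorem n4b_ex3 (a : ℕ) (ha : a < 4) (b : ℕ) (hb : b < 4) (c : ℕ) (hc : c < 4) (hab : a ≠ b) (hac : a ≠ c)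
    (hbc : b ≠ c) : ∃ d < 4, a ≠ d ∧ b ≠ d ∧ c ≠ d := by
  obtain ⟨d, h1, h2, h3⟩ := n4b_ex3f ⟨a, ha⟩ ⟨b, hb⟩ ⟨c, hc⟩ (fun h => hab (congrArg Fin.val h))
    (fun h => hac (congrArg Fin.val h)) (fun h => hbc (congrArg Fin.val h))
  exact ⟨d, d.2, fun h => h1 (Fin.ext h), fun h => h2 (Fin.ext h), fun h => h3 (Fin.ext h)⟩

private theorem n4b_sq {i j k : ℕ} (hik : k ≠ i) :
    dd i j (z i ^ 2 * z k ^ 2 : Z p) = (z i - z j) * z j * z k ^ 2 :=
  dd_two (pow_mem (z_NV hik) 2)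

private theorem n4b_sq0 {i j a b : ℕ} (ha : a ≠ i) (hb : b ≠ i) : dd i j (z a ^ 2 * z b ^ 2 : Z p) = 0 :=
  dd_NV (mul_mem (pow_mem (z_NV ha) 2) (pow_mem (z_NV hb) 2))

theorem n4b1 (h5 : 5 ≤ p) (h : MS3 p R)
    (h0 : ∀ t ∈ ({z 0 ^ 4, z 1 ^ 4, z 0 ^ 3 * z 1, z 1 ^ 3 * z 0, z 1 ^ 3 * z 2, z 0 ^ 2 * z 1 * z 2, z 1 ^ 2 * z 0 * z 2,
      z 0 * z 1 * z 2 * z 3} : Set (Z p)), t - z 0 ^ 4 ∈ R 4 4)
    {y : Z p} (hy : y ∈ Hh p 4 4) (hd : ∀ i < 4, ∀ j < 4, i ≠ j → dd i j y ∈ R 4 4) :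
    ∃ c : ZMod p, y - c • z 0 ^ 4 ∈ R 4 4 := by
  set e : Z p := z 0 ^ 4 with he
  have q4 : ∀ i < 4, z i ^ 4 - e ∈ R 4 4 := by
    intro i hi
    by_cases h1 : i = 0
    · rw [h1, he, sub_self]
      exact Submodule.zero_mem _
    · obtain ⟨c, hc, d, hd', c1, c2, c3, c4, c5⟩ := n4b_ex2 0 (by norm_num) i hi (Ne.symm h1)
      have h2 := n4b_ren h (by norm_num) hi hc hd' (Ne.symm h1) c1 c2 c3 c4 c5 (h0 (z 1 ^ 4) (by simp))
      rw [he, map_sub, map_pow, map_pow, rn_z, rn_z] at h2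
      exact h2
  have q31 : ∀ i < 4, ∀ j < 4, i ≠ j → z i ^ 3 * z j - e ∈ R 4 4 := by
    intro i hi j hj hij
    obtain ⟨c, hc, d, hd', c1, c2, c3, c4, c5⟩ := n4b_ex2 i hi j hj hij
    have h2 := n4b_ren h hi hj hc hd' hij c1 c2 c3 c4 c5 (h0 (z 0 ^ 3 * z 1) (by simp))
    rw [he, map_sub, map_mul, map_pow, map_pow, rn_z, rn_z] at h2
    have h3 := Submodule.add_mem _ h2 (q4 i hi)
    have e' : (z (n4b_g i j c d 0) ^ 3 * z (n4b_g i j c d 1) - z (n4b_g i j c d 0) ^ 4 + (z i ^ 4 - e) : Z p) =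
        z i ^ 3 * z j - e := by
      show (z i ^ 3 * z j - z i ^ 4 + (z i ^ 4 - e) : Z p) = z i ^ 3 * z j - e
      ring
    rw [e'] at h3
    exact h3
  have q2 : ∀ i < 4, ∀ j < 4, ∀ k < 4, i ≠ j → i ≠ k → j ≠ k → z i ^ 2 * z j * z k - e ∈ R 4 4 := by
    intro i hi j hj k hk hij hik hjk
    obtain ⟨d, hd', c1, c2, c3⟩ := n4b_ex3 i hi j hj k hk hij hik hjk
    have h2 := n4b_ren h hi hj hk hd' hij hik c1 hjk c2 c3 (h0 (z 0 ^ 2 * z 1 * z 2) (by simp))
    rw [he, map_sub, map_mul, map_mul, map_pow, map_pow, rn_z, rn_z, rn_z] at h2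
    have h3 := Submodule.add_mem _ h2 (q4 i hi)
    have e' : (z (n4b_g i j k d 0) ^ 2 * z (n4b_g i j k d 1) * z (n4b_g i j k d 2) - z (n4b_g i j k d 0) ^ 4 +
        (z i ^ 4 - e) : Z p) = z i ^ 2 * z j * z k - e := by
      show (z i ^ 2 * z j * z k - z i ^ 4 + (z i ^ 4 - e) : Z p) = z i ^ 2 * z j * z k - e
      ring
    rw [e'] at h3
    exact h3
  have q1 : ∀ i < 4, ∀ j < 4, ∀ k < 4, ∀ l < 4, i ≠ j → i ≠ k → i ≠ l → j ≠ k → j ≠ l → k ≠ l →
      z i * z j * z k * z l - e ∈ R 4 4 := by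
    intro i hi j hj k hk l hl c1 c2 c3 c4 c5 c6
    have h2 := n4b_ren h hi hj hk hl c1 c2 c3 c4 c5 c6 (h0 (z 0 * z 1 * z 2 * z 3) (by simp))
    rw [he, map_sub, map_mul, map_mul, map_mul, map_pow, rn_z, rn_z, rn_z, rn_z] at h2
    have h3 := Submodule.add_mem _ h2 (q4 i hi)
    have e' : (z (n4b_g i j k l 0) * z (n4b_g i j k l 1) * z (n4b_g i j k l 2) * z (n4b_g i j k l 3) -
        z (n4b_g i j k l 0) ^ 4 + (z i ^ 4 - e) : Z p) = z i * z j * z k * z l - e := by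
      show (z i * z j * z k * z l - z i ^ 4 + (z i ^ 4 - e) : Z p) = z i * z j * z k * z l - e
      ring
    rw [e'] at h3
    exact h3
  have hdt : ∀ t ∈ Nt p 4, ∀ i < 4, ∀ j < 4, i ≠ j → dd i j t ∈ R 4 4 := by
    intro t ht i hi j hj hij
    obtain ⟨c, hc⟩ := n4b_gen q4 q31 q2 q1 ht
    have h1 : t - c • z j ^ 4 ∈ R 4 4 := by
      have e' : t - c • z j ^ 4 = (t - c • e) - c • (z j ^ 4 - e) := by
        rw [smul_sub]
        abel
      rw [e']
      exact Submodule.sub_mem _ hc (Submodule.smul_mem _ _ (q4 j hj))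
    have h2 := h.dd 4 4 i j le_rfl hi hj hij _ h1
    rw [map_sub, map_smul, dd_NV (pow_mem (z_NV (Ne.symm hij)) 4), smul_zero, sub_zero] at h2
    exact h2
  have L : ∀ i < 4, ∀ j < 4, ∀ k < 4, ∀ l < 4, i ≠ j → i ≠ k → i ≠ l → j ≠ k → j ≠ l → k ≠ l →
      ∀ (a b c d f g : ZMod p) (t : Z p), t ∈ Nt p 4 → y = a • (z i ^ 2 * z j ^ 2) + b • (z i ^ 2 * z k ^ 2) +
      c • (z i ^ 2 * z l ^ 2) + d • (z j ^ 2 * z k ^ 2) + f • (z j ^ 2 * z l ^ 2) + g • (z k ^ 2 * z l ^ 2) + t →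
      b • (z i ^ 2 * z j ^ 2 - e) ∈ R 4 4 := by
    intro i hi j hj k hk l hl ij ik il jk jl kl a b c d f g t ht hyt
    have h1 := hd i hi j hj ij
    rw [hyt, map_add, map_add, map_add, map_add, map_add, map_add, map_smul, map_smul, map_smul, map_smul, map_smul,
      map_smul, n4b_sq (Ne.symm ij), n4b_sq (Ne.symm ik), n4b_sq (Ne.symm il), n4b_sq0 (Ne.symm ij) (Ne.symm ik),
      n4b_sq0 (Ne.symm ij) (Ne.symm il), n4b_sq0 (Ne.symm ik) (Ne.symm il), smul_zero, smul_zero, smul_zero,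
      add_zero, add_zero, add_zero] at h1
    have h2 : b • ((z i - z j) * z j * z k ^ 2) + c • ((z i - z j) * z j * z l ^ 2) ∈ R 4 4 := by
      have h3 := Submodule.sub_mem _ (Submodule.sub_mem _ h1 (hdt t ht i hi j hj ij))
        (Submodule.smul_mem _ a (Submodule.sub_mem _ (q31 j hj i hi (Ne.symm ij)) (q4 j hj)))
      have e' : (a • ((z i - z j) * z j * z j ^ 2) + b • ((z i - z j) * z j * z k ^ 2) +
          c • ((z i - z j) * z j * z l ^ 2) + dd i j t - dd i j t - a • (z j ^ 3 * z i - e - (z j ^ 4 - e)) : Z p) =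
          b • ((z i - z j) * z j * z k ^ 2) + c • ((z i - z j) * z j * z l ^ 2) := by
        have e'' : (z j ^ 3 * z i - e - (z j ^ 4 - e) : Z p) = (z i - z j) * z j * z j ^ 2 := by ring
        rw [e'']
        abel
      rw [e'] at h3
      exact h3
    have h4 := h.dd 4 4 k i le_rfl hk hi (Ne.symm ik) _ h2
    have nvi : (z i : Z p) ∈ NV k := z_NV ik
    have nvj : (z j : Z p) ∈ NV k := z_NV jk
    have nvl : (z l : Z p) ∈ NV k := z_NV (Ne.symm kl)
    have e1 : ((z i - z j) * z j * z k ^ 2 : Z p) = z k ^ 2 * ((z i - z j) * z j) := by ring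
    rw [map_add, map_smul, map_smul, e1, dd_two (mul_mem (sub_mem nvi nvj) nvj),
      dd_NV (mul_mem (mul_mem (sub_mem nvi nvj) nvj) (pow_mem nvl 2)), smul_zero, add_zero] at h4
    have h5 := Submodule.sub_mem _ (Submodule.add_mem _ (Submodule.add_mem _ h4
      (Submodule.smul_mem _ b (q2 j hj i hi k hk (Ne.symm ij) jk ik)))
      (Submodule.smul_mem _ b (q31 i hi j hj ij)))
      (Submodule.smul_mem _ b (q2 i hi j hj k hk ij ik jk))
    rw [← smul_add, ← smul_add, ← smul_sub] at h5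
    have e2 : ((z k - z i) * z i * ((z i - z j) * z j) + (z j ^ 2 * z i * z k - e) + (z i ^ 3 * z j - e) -
        (z i ^ 2 * z j * z k - e) : Z p) = z i ^ 2 * z j ^ 2 - e := by ring
    rw [e2] at h5
    exact h5
  have M : ∀ i < 4, ∀ j < 4, i ≠ j → z i ^ 2 * z j ^ 2 - e ∈ R 4 4 →
      ∀ a < 4, ∀ b < 4, a ≠ b → z a ^ 2 * z b ^ 2 - e ∈ R 4 4 := by
    intro i hi j hj hij h1 a ha b hb hab
    have sw : ∀ x < 4, ∀ y < 4, ∀ t < 4, Equiv.swap x y t < 4 := by
      intro x hx y hy t ht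
      rw [Equiv.swap_apply_def]
      split_ifs
      · exact hy
      · exact hx
      · exact ht
    have s1 : Equiv.swap i a j < 4 := sw i hi a ha j hj
    have e1 : Equiv.swap i a i = a := Equiv.swap_apply_left i a
    have s2 : a ≠ Equiv.swap i a j := by
      intro h2
      exact hij ((Equiv.swap i a).injective (e1.trans h2))
    have h2 := h.toMS.ren 4 4 4 (Equiv.swap (Equiv.swap i a j) b * Equiv.swap i a : Equiv.Perm ℕ) (by norm_num)
      (fun t ht => by rw [Equiv.Perm.mul_apply]; exact sw _ s1 _ hb _ (sw i hi a ha t ht))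
      (fun _ _ _ _ e => Equiv.injective _ e) _ h1
    have v1 : (Equiv.swap (Equiv.swap i a j) b * Equiv.swap i a : Equiv.Perm ℕ) i = a := by
      rw [Equiv.Perm.mul_apply, e1]
      exact Equiv.swap_apply_of_ne_of_ne s2 hab
    have v2 : (Equiv.swap (Equiv.swap i a j) b * Equiv.swap i a : Equiv.Perm ℕ) j = b := by
      rw [Equiv.Perm.mul_apply, Equiv.swap_apply_left]
    have v3 : (Equiv.swap (Equiv.swap i a j) b * Equiv.swap i a : Equiv.Perm ℕ) 0 < 4 := by
      rw [Equiv.Perm.mul_apply]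
      exact sw _ s1 _ hb _ (sw i hi a ha 0 (by norm_num))
    rw [map_sub, map_mul, map_pow, map_pow, he, map_pow, rn_z, rn_z, rn_z, v1, v2] at h2
    have h3 := Submodule.add_mem _ h2 (q4 _ v3)
    rw [sub_add_sub_cancel] at h3
    exact h3
  obtain ⟨g, t, ht, hyt⟩ := expN4 hy
  have hps : (Finset.range 4).powersetCard 2 = {{0, 1}, {0, 2}, {0, 3}, {1, 2}, {1, 3}, {2, 3}} := by decide
  have hyy : y = g {0, 1} • (z 0 ^ 2 * z 1 ^ 2) + g {0, 2} • (z 0 ^ 2 * z 2 ^ 2) + g {0, 3} • (z 0 ^ 2 * z 3 ^ 2) +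
      g {1, 2} • (z 1 ^ 2 * z 2 ^ 2) + g {1, 3} • (z 1 ^ 2 * z 3 ^ 2) + g {2, 3} • (z 2 ^ 2 * z 3 ^ 2) + t := by
    rw [hyt, hps, Finset.sum_insert (by decide), Finset.sum_insert (by decide), Finset.sum_insert (by decide),
      Finset.sum_insert (by decide), Finset.sum_insert (by decide), Finset.sum_singleton,
      Finset.prod_pair (by norm_num), Finset.prod_pair (by norm_num), Finset.prod_pair (by norm_num),
      Finset.prod_pair (by norm_num), Finset.prod_pair (by norm_num), Finset.prod_pair (by norm_num)]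
    abel
  obtain ⟨c, hc⟩ := n4b_gen q4 q31 q2 q1 ht
  have fin : (∀ a < 4, ∀ b < 4, a ≠ b → z a ^ 2 * z b ^ 2 - e ∈ R 4 4) → ∃ c : ZMod p, y - c • e ∈ R 4 4 := by
    intro H
    refine ⟨g {0, 1} + g {0, 2} + g {0, 3} + g {1, 2} + g {1, 3} + g {2, 3} + c, ?_⟩
    have e' : y - (g {0, 1} + g {0, 2} + g {0, 3} + g {1, 2} + g {1, 3} + g {2, 3} + c) • e =
        g {0, 1} • (z 0 ^ 2 * z 1 ^ 2 - e) + g {0, 2} • (z 0 ^ 2 * z 2 ^ 2 - e) +
        g {0, 3} • (z 0 ^ 2 * z 3 ^ 2 - e) + g {1, 2} • (z 1 ^ 2 * z 2 ^ 2 - e) +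
        g {1, 3} • (z 1 ^ 2 * z 3 ^ 2 - e) + g {2, 3} • (z 2 ^ 2 * z 3 ^ 2 - e) + (t - c • e) := by
      rw [hyy]
      simp only [add_smul, smul_sub]
      abel
    rw [e']
    refine Submodule.add_mem _ (Submodule.add_mem _ (Submodule.add_mem _ (Submodule.add_mem _
      (Submodule.add_mem _ (Submodule.add_mem _ ?_ ?_) ?_) ?_) ?_) ?_) hc
    · exact Submodule.smul_mem _ _ (H 0 (by norm_num) 1 (by norm_num) (by norm_num))
    · exact Submodule.smul_mem _ _ (H 0 (by norm_num) 2 (by norm_num) (by norm_num))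
    · exact Submodule.smul_mem _ _ (H 0 (by norm_num) 3 (by norm_num) (by norm_num))
    · exact Submodule.smul_mem _ _ (H 1 (by norm_num) 2 (by norm_num) (by norm_num))
    · exact Submodule.smul_mem _ _ (H 1 (by norm_num) 3 (by norm_num) (by norm_num))
    · exact Submodule.smul_mem _ _ (H 2 (by norm_num) 3 (by norm_num) (by norm_num))
  have cond : ∀ {b : ZMod p} {F : Z p}, b • F ∈ R 4 4 → b ≠ 0 → F ∈ R 4 4 := by
    intro b F hb hb0
    have h1 := Submodule.smul_mem _ b⁻¹ hb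
    rw [smul_smul, inv_mul_cancel₀ hb0, one_smul] at h1
    exact h1
  by_cases g01 : g {0, 1} ≠ 0
  · exact fin (M 0 (by norm_num) 2 (by norm_num) (by norm_num) (cond (L 0 (by norm_num) 2 (by norm_num) 1 (by norm_num)
      3 (by norm_num) (by norm_num) (by norm_num) (by norm_num) (by norm_num) (by norm_num) (by norm_num)
      (g {0, 2}) (g {0, 1}) (g {0, 3}) (g {1, 2}) (g {2, 3}) (g {1, 3}) t ht
      (by rw [hyy, mul_comm (z 1 ^ 2) (z 2 ^ 2)]; abel)) g01))
  by_cases g02 : g {0, 2} ≠ 0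
  · exact fin (M 0 (by norm_num) 1 (by norm_num) (by norm_num) (cond (L 0 (by norm_num) 1 (by norm_num) 2 (by norm_num)
      3 (by norm_num) (by norm_num) (by norm_num) (by norm_num) (by norm_num) (by norm_num) (by norm_num)
      (g {0, 1}) (g {0, 2}) (g {0, 3}) (g {1, 2}) (g {1, 3}) (g {2, 3}) t ht hyy) g02))
  by_cases g03 : g {0, 3} ≠ 0
  · exact fin (M 0 (by norm_num) 1 (by norm_num) (by norm_num) (cond (L 0 (by norm_num) 1 (by norm_num) 3 (by norm_num)
      2 (by norm_num) (by norm_num) (by norm_num) (by norm_num) (by norm_num) (by norm_num) (by norm_num)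
      (g {0, 1}) (g {0, 3}) (g {0, 2}) (g {1, 3}) (g {1, 2}) (g {2, 3}) t ht
      (by rw [hyy, mul_comm (z 2 ^ 2) (z 3 ^ 2)]; abel)) g03))
  by_cases g12 : g {1, 2} ≠ 0
  · exact fin (M 1 (by norm_num) 0 (by norm_num) (by norm_num) (cond (L 1 (by norm_num) 0 (by norm_num) 2 (by norm_num)
      3 (by norm_num) (by norm_num) (by norm_num) (by norm_num) (by norm_num) (by norm_num) (by norm_num)
      (g {0, 1}) (g {1, 2}) (g {1, 3}) (g {0, 2}) (g {0, 3}) (g {2, 3}) t ht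
      (by rw [hyy, mul_comm (z 0 ^ 2) (z 1 ^ 2)]; abel)) g12))
  by_cases g13 : g {1, 3} ≠ 0
  · exact fin (M 1 (by norm_num) 0 (by norm_num) (by norm_num) (cond (L 1 (by norm_num) 0 (by norm_num) 3 (by norm_num)
      2 (by norm_num) (by norm_num) (by norm_num) (by norm_num) (by norm_num) (by norm_num) (by norm_num)
      (g {0, 1}) (g {1, 3}) (g {1, 2}) (g {0, 3}) (g {0, 2}) (g {2, 3}) t ht
      (by rw [hyy, mul_comm (z 0 ^ 2) (z 1 ^ 2), mul_comm (z 2 ^ 2) (z 3 ^ 2)]; abel)) g13))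
  by_cases g23 : g {2, 3} ≠ 0
  · exact fin (M 2 (by norm_num) 0 (by norm_num) (by norm_num) (cond (L 2 (by norm_num) 0 (by norm_num) 3 (by norm_num)
      1 (by norm_num) (by norm_num) (by norm_num) (by norm_num) (by norm_num) (by norm_num) (by norm_num)
      (g {0, 2}) (g {2, 3}) (g {1, 2}) (g {0, 3}) (g {0, 1}) (g {1, 3}) t ht
      (by rw [hyy, mul_comm (z 0 ^ 2) (z 2 ^ 2), mul_comm (z 1 ^ 2) (z 2 ^ 2), mul_comm (z 1 ^ 2) (z 3 ^ 2)]; abel)) g23))
  push Not at g01 g02 g03 g12 g13 g23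
  refine ⟨c, ?_⟩
  rw [hyy, g01, g02, g03, g12, g13, g23]
  simp only [zero_smul, zero_add]
  exact hc

end ADQ
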