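import Pool.Agent.ADQ.N4t
import Pool.Agent.ADQ.ExpN

/-!
# ADQ-N4c (the theorem `n4b2`): four variables, degree four, third alternative
-/

namespace ADQ

open AD ADN ADC

variable {p : ℕ} [Fact p.Prime] {R : ℕ → ℕ → Submodule (ZMod p) (Z p)}

private theorem n4c_dd4 (i j : ℕ) : dd i j (z i ^ 4 : Z p) = 3 * ((z i - z j) * z j ^ 3) := by
  have h := dd_four (p := p) (i := i) (j := j) (G := 1) (one_mem _)
  rw [mul_one, mul_one, MvPolynomial.smul_eq_C_mul, map_ofNat] at h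
  exact h

omit [Fact p.Prime] in
private theorem n4c_NV {i k : ℕ} (h : k ≠ i) (a : ℕ) : (z k ^ a : Z p) ∈ NV i := pow_mem (z_NV h) a

omit [Fact p.Prime] in
private theorem n4c_dd0 {i j k : ℕ} (h : k ≠ i) (a : ℕ) : dd i j (z k ^ a : Z p) = 0 :=
  dd_NV (n4c_NV h a)

omit [Fact p.Prime] in
private theorem n4c_dd2 {i j k : ℕ} (h : k ≠ i) :
    dd i j (z i ^ 2 * z k ^ 2 : Z p) = (z i - z j) * z j * z k ^ 2 :=
  dd_two (n4c_NV h 2)

omit [Fact p.Prime] in
private theorem n4c_dd00 {i j k l : ℕ} (h : k ≠ i) (h' : l ≠ i) :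
    dd i j (z k ^ 2 * z l ^ 2 : Z p) = 0 :=
  dd_NV (mul_mem (n4c_NV h 2) (n4c_NV h' 2))

private theorem n4c_three (h5 : 5 ≤ p) : (3 : ZMod p) ≠ 0 := by
  intro h
  have h1 : ((3 : ℕ) : ZMod p) = 0 := by exact_mod_cast h
  rw [ZMod.natCast_eq_zero_iff] at h1
  have := Nat.le_of_dvd (by norm_num) h1
  omega

private theorem n4c_ex2 (i : ℕ) (hi : i < 4) (j : ℕ) (hj : j < 4) (hij : i ≠ j) :
    ∃ k < 4, ∃ l < 4, i ≠ k ∧ i ≠ l ∧ j ≠ k ∧ j ≠ l ∧ k ≠ l := by
  have key : ∀ i j : Fin 4, i ≠ j → ∃ k l : Fin 4, i ≠ k ∧ i ≠ l ∧ j ≠ k ∧ j ≠ l ∧ k ≠ l := by decide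
  obtain ⟨k, l, h1, h2, h3, h4, h5⟩ := key ⟨i, hi⟩ ⟨j, hj⟩ (fun e => hij (congrArg Fin.val e))
  exact ⟨k, k.2, l, l.2, fun e => h1 (Fin.ext e), fun e => h2 (Fin.ext e), fun e => h3 (Fin.ext e),
    fun e => h4 (Fin.ext e), fun e => h5 (Fin.ext e)⟩

private theorem n4c_ex3 (i : ℕ) (hi : i < 4) (j : ℕ) (hj : j < 4) (k : ℕ) (hk : k < 4) (hij : i ≠ j)
    (hik : i ≠ k) (hjk : j ≠ k) : ∃ l < 4, i ≠ l ∧ j ≠ l ∧ k ≠ l := by
  have key : ∀ i j k : Fin 4, i ≠ j → i ≠ k → j ≠ k → ∃ l : Fin 4, i ≠ l ∧ j ≠ l ∧ k ≠ l := by decide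
  obtain ⟨l, h1, h2, h3⟩ := key ⟨i, hi⟩ ⟨j, hj⟩ ⟨k, hk⟩ (fun e => hij (congrArg Fin.val e))
    (fun e => hik (congrArg Fin.val e)) (fun e => hjk (congrArg Fin.val e))
  exact ⟨l, l.2, fun e => h1 (Fin.ext e), fun e => h2 (Fin.ext e), fun e => h3 (Fin.ext e)⟩

private theorem n4c_ren (h : MS3 p R) {i j k l : ℕ} (hi : i < 4) (hj : j < 4) (hk : k < 4) (hl : l < 4)
    (hij : i ≠ j) (hik : i ≠ k) (hil : i ≠ l) (hjk : j ≠ k) (hjl : j ≠ l) (hkl : k ≠ l) :
    ∃ g : ℕ → ℕ, g 0 = i ∧ g 1 = j ∧ g 2 = k ∧ g 3 = l ∧ ∀ F ∈ R 4 4, rn g F ∈ R 4 4 := by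
  refine ⟨fun t => if t = 0 then i else if t = 1 then j else if t = 2 then k else l, by simp, by simp,
    by simp, by simp, ?_⟩
  intro F hF
  refine h.ren 4 4 4 _ (by norm_num) ?_ ?_ F hF
  · intro t ht
    interval_cases t <;> simp [hi, hj, hk, hl]
  · intro t ht s hs
    interval_cases t <;> interval_cases s <;> simp <;> omega

private theorem n4c_A (h : MS3 p R) (h0 : 3 * z 0 ^ 3 * z 1 - 2 * z 0 ^ 4 ∈ R 4 4) {i j : ℕ} (hi : i < 4)
    (hj : j < 4) (hij : i ≠ j) : 3 * z i ^ 3 * z j - 2 * z i ^ 4 ∈ R 4 4 := by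
  obtain ⟨k, hk, l, hl, h1, h2, h3, h4, h5⟩ := n4c_ex2 i hi j hj hij
  obtain ⟨g, g0, g1, g2, g3, hg⟩ := n4c_ren h hi hj hk hl hij h1 h2 h3 h4 h5
  have h6 := hg _ h0
  have e : rn g (3 * z 0 ^ 3 * z 1 - 2 * z 0 ^ 4 : Z p) = 3 * z i ^ 3 * z j - 2 * z i ^ 4 := by
    simp only [map_sub, map_mul, map_pow, rn_z, map_ofNat, g0, g1]
  rw [e] at h6
  exact h6

private theorem n4c_B (h : MS3 p R) (h0 : 3 * z 0 ^ 2 * z 1 * z 2 - z 0 ^ 4 ∈ R 4 4) {i j k : ℕ} (hi : i < 4)
    (hj : j < 4) (hk : k < 4) (hij : i ≠ j) (hik : i ≠ k) (hjk : j ≠ k) :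
    3 * z i ^ 2 * z j * z k - z i ^ 4 ∈ R 4 4 := by
  obtain ⟨l, hl, h1, h2, h3⟩ := n4c_ex3 i hi j hj k hk hij hik hjk
  obtain ⟨g, g0, g1, g2, g3, hg⟩ := n4c_ren h hi hj hk hl hij hik h1 hjk h2 h3
  have h6 := hg _ h0
  have e : rn g (3 * z 0 ^ 2 * z 1 * z 2 - z 0 ^ 4 : Z p) = 3 * z i ^ 2 * z j * z k - z i ^ 4 := by
    simp only [map_sub, map_mul, map_pow, rn_z, map_ofNat, g0, g1, g2]
  rw [e] at h6
  exact h6

private theorem n4c_C (h : MS3 p R) (h0 : z 0 * z 1 * z 2 * z 3 ∈ R 4 4) {i j k l : ℕ} (hi : i < 4)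
    (hj : j < 4) (hk : k < 4) (hl : l < 4) (hij : i ≠ j) (hik : i ≠ k) (hil : i ≠ l) (hjk : j ≠ k)
    (hjl : j ≠ l) (hkl : k ≠ l) : z i * z j * z k * z l ∈ R 4 4 := by
  obtain ⟨g, g0, g1, g2, g3, hg⟩ := n4c_ren h hi hj hk hl hij hik hil hjk hjl hkl
  have h6 := hg _ h0
  have e : rn g (z 0 * z 1 * z 2 * z 3 : Z p) = z i * z j * z k * z l := by
    simp only [map_mul, rn_z, g0, g1, g2, g3]
  rw [e] at h6
  exact h6

private theorem n4c_D (h : MS3 p R) {i' j' : ℕ}
    (h0 : 3 * (z i' ^ 2 * z j' ^ 2) - z i' ^ 4 - z j' ^ 4 ∈ R 4 4) (hi' : i' < 4) (hj' : j' < 4)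
    (hij' : i' ≠ j') {i j : ℕ} (hi : i < 4) (hj : j < 4) (hij : i ≠ j) :
    3 * (z i ^ 2 * z j ^ 2) - z i ^ 4 - z j ^ 4 ∈ R 4 4 := by
  obtain ⟨σ, s1, s2, s3⟩ : ∃ σ : Equiv.Perm ℕ, (∀ t < 4, σ t < 4) ∧ σ i' = i ∧ σ j' = j := by
    refine ⟨Equiv.swap (Equiv.swap i' i j') j * Equiv.swap i' i, ?_, ?_, ?_⟩
    · intro t ht
      rw [Equiv.Perm.mul_apply]
      have q : ∀ a b c : ℕ, a < 4 → b < 4 → c < 4 → Equiv.swap a b c < 4 := by
        intro a b c ha hb hc
        rw [Equiv.swap_apply_def]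
        split_ifs <;> assumption
      exact q _ _ _ (q _ _ _ hi' hi hj') hj (q _ _ _ hi' hi ht)
    · rw [Equiv.Perm.mul_apply, Equiv.swap_apply_left]
      refine Equiv.swap_apply_of_ne_of_ne ?_ hij
      intro e
      have e2 : Equiv.swap i' i i' = Equiv.swap i' i j' := by
        rw [Equiv.swap_apply_left]
        exact e
      exact hij' ((Equiv.swap i' i).injective e2)
    · rw [Equiv.Perm.mul_apply, Equiv.swap_apply_left]
  have h6 := h.ren 4 4 4 σ (by norm_num) s1 (fun _ _ _ _ e => σ.injective e) _ h0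
  have e : rn σ (3 * (z i' ^ 2 * z j' ^ 2) - z i' ^ 4 - z j' ^ 4 : Z p) =
      3 * (z i ^ 2 * z j ^ 2) - z i ^ 4 - z j ^ 4 := by
    simp only [map_sub, map_mul, map_pow, rn_z, map_ofNat, s2, s3]
  rw [e] at h6
  exact h6

private theorem n4c_U (h : MS3 p R) {i' : ℕ} (h0 : z i' ^ 4 ∈ R 4 4) (hi' : i' < 4) {i : ℕ} (hi : i < 4) :
    z i ^ 4 ∈ R 4 4 := by
  have s1 : ∀ t < 4, Equiv.swap i' i t < 4 := by
    intro t ht
    rw [Equiv.swap_apply_def]
    split_ifs <;> assumption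
  have h6 := h.ren 4 4 4 (Equiv.swap i' i) (by norm_num) s1
    (fun _ _ _ _ e => (Equiv.swap i' i).injective e) _ h0
  have e : rn (Equiv.swap i' i) (z i' ^ 4 : Z p) = z i ^ 4 := by
    rw [map_pow, rn_z, Equiv.swap_apply_left]
  rw [e] at h6
  exact h6

private theorem n4c_smC {N : Submodule (ZMod p) (Z p)} (c : ZMod p) {x : Z p} (hx : x ∈ N) :
    MvPolynomial.C c * x ∈ N := by
  rw [← MvPolynomial.smul_eq_C_mul]
  exact N.smul_mem c hx

private theorem n4c_sm3 {N : Submodule (ZMod p) (Z p)} {x : Z p} (hx : x ∈ N) : 3 * x ∈ N := by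
  have h := n4c_smC (3 : ZMod p) hx
  rw [map_ofNat] at h
  exact h

private theorem n4c_C3 : (MvPolynomial.C (3 : ZMod p) : Z p) = 3 := map_ofNat _ 3

/-- if one coefficient of the squares is not zero, then the squares are combinations of the fourth powers -/
private theorem n4c_key (h : MS3 p R)
    (hA : ∀ i < 4, ∀ j < 4, i ≠ j → 3 * z i ^ 3 * z j - 2 * z i ^ 4 ∈ R 4 4)
    (hB : ∀ i < 4, ∀ j < 4, ∀ k < 4, i ≠ j → i ≠ k → j ≠ k → 3 * z i ^ 2 * z j * z k - z i ^ 4 ∈ R 4 4)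
    {i j k l : ℕ} (hi : i < 4) (hj : j < 4) (hk : k < 4) (hl : l < 4)
    (hij : i ≠ j) (hik : i ≠ k) (hil : i ≠ l) (hjk : j ≠ k) (hjl : j ≠ l) (hkl : k ≠ l)
    {a1 a2 a3 a4 g1 g2 g3 g4 g5 g6 : ZMod p} {r y : Z p} (hr : r ∈ R 4 4)
    (hy : y = a1 • z i ^ 4 + a2 • z j ^ 4 + a3 • z k ^ 4 + a4 • z l ^ 4 + g1 • (z i ^ 2 * z j ^ 2) +
      g2 • (z i ^ 2 * z k ^ 2) + g3 • (z i ^ 2 * z l ^ 2) + g4 • (z j ^ 2 * z k ^ 2) +
      g5 • (z j ^ 2 * z l ^ 2) + g6 • (z k ^ 2 * z l ^ 2) + r)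
    (hd : dd i j y ∈ R 4 4) (hg : g2 ≠ 0) :
    3 * (z i ^ 2 * z j ^ 2) - z i ^ 4 - z j ^ 4 ∈ R 4 4 := by
  have hr' : dd i j r ∈ R 4 4 := h.dd 4 4 i j le_rfl hi hj hij r hr
  have e1 : dd i j y = a1 • (3 * ((z i - z j) * z j ^ 3)) + g1 • ((z i - z j) * z j * z j ^ 2) +
      g2 • ((z i - z j) * z j * z k ^ 2) + g3 • ((z i - z j) * z j * z l ^ 2) + dd i j r := by
    rw [hy]
    simp only [map_add, map_smul]
    rw [n4c_dd4, n4c_dd0 hij.symm, n4c_dd0 hik.symm, n4c_dd0 hil.symm, n4c_dd2 hij.symm, n4c_dd2 hik.symm,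
      n4c_dd2 hil.symm, n4c_dd00 hij.symm hik.symm, n4c_dd00 hij.symm hil.symm, n4c_dd00 hik.symm hil.symm]
    simp only [smul_zero, add_zero]
  have hW : (-(3 * a1 + g1)) • z j ^ 4 + g2 • z k ^ 4 + (-(3 * g2)) • (z k ^ 2 * z j ^ 2) + g3 • z l ^ 4 +
      (-(3 * g3)) • (z j ^ 2 * z l ^ 2) ∈ R 4 4 := by
    have e2 : (-(3 * a1 + g1)) • z j ^ 4 + g2 • z k ^ 4 + (-(3 * g2)) • (z k ^ 2 * z j ^ 2) + g3 • z l ^ 4 +
      (-(3 * g3)) • (z j ^ 2 * z l ^ 2) = 3 * dd i j y -
        MvPolynomial.C (3 * a1 + g1) * (3 * z j ^ 3 * z i - 2 * z j ^ 4) -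
        MvPolynomial.C g2 * (3 * z k ^ 2 * z i * z j - z k ^ 4) -
        MvPolynomial.C g3 * (3 * z l ^ 2 * z i * z j - z l ^ 4) - 3 * dd i j r := by
      rw [e1]
      simp only [MvPolynomial.smul_eq_C_mul, map_add, map_mul, map_neg, n4c_C3]
      ring
    rw [e2]
    refine sub_mem (sub_mem (sub_mem (sub_mem (n4c_sm3 hd) ?_) ?_) ?_) (n4c_sm3 hr')
    · exact n4c_smC _ (hA j hj i hi hij.symm)
    · exact n4c_smC _ (hB k hk i hi j hj hik.symm hjk.symm hij)
    · exact n4c_smC _ (hB l hl i hi j hj hil.symm hjl.symm hij)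
  have hV := h.dd 4 4 k i le_rfl hk hi hik.symm _ hW
  have e3 : dd k i ((-(3 * a1 + g1)) • z j ^ 4 + g2 • z k ^ 4 + (-(3 * g2)) • (z k ^ 2 * z j ^ 2) + g3 • z l ^ 4 +
      (-(3 * g3)) • (z j ^ 2 * z l ^ 2) : Z p) = g2 • (3 * ((z k - z i) * z i ^ 3)) +
      (-(3 * g2)) • ((z k - z i) * z i * z j ^ 2) := by
    simp only [map_add, map_smul]
    rw [n4c_dd4, n4c_dd0 hjk, n4c_dd0 hkl.symm, n4c_dd2 hjk, n4c_dd00 hjk hkl.symm]
    simp only [smul_zero, add_zero, zero_add]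
  rw [e3] at hV
  have hG : g2 • (3 * (z i ^ 2 * z j ^ 2) - z i ^ 4 - z j ^ 4) ∈ R 4 4 := by
    have e4 : g2 • (3 * (z i ^ 2 * z j ^ 2) - z i ^ 4 - z j ^ 4 : Z p) =
        (g2 • (3 * ((z k - z i) * z i ^ 3)) + (-(3 * g2)) • ((z k - z i) * z i * z j ^ 2)) -
        MvPolynomial.C g2 * (3 * z i ^ 3 * z k - 2 * z i ^ 4) +
        MvPolynomial.C g2 * (3 * z j ^ 2 * z k * z i - z j ^ 4) := by
      simp only [MvPolynomial.smul_eq_C_mul, map_mul, map_neg, n4c_C3]
      ring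
    rw [e4]
    exact add_mem (sub_mem hV (n4c_smC _ (hA i hi k hk hik)))
      (n4c_smC _ (hB j hj k hk i hi hjk hij.symm hik.symm))
  exact ((R 4 4).smul_mem_iff hg).1 hG

/-- if one coefficient of the fourth powers is not zero, then they are zero -/
private theorem n4c_fin (h : MS3 p R)
    (hA : ∀ i < 4, ∀ j < 4, i ≠ j → 3 * z i ^ 3 * z j - 2 * z i ^ 4 ∈ R 4 4)
    {i j k l : ℕ} (hi : i < 4) (hj : j < 4)
    (hij : i ≠ j) (hik : i ≠ k) (hil : i ≠ l)
    {a1 a2 a3 a4 : ZMod p} {r y : Z p} (hr : r ∈ R 4 4)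
    (hy : y = a1 • z i ^ 4 + a2 • z j ^ 4 + a3 • z k ^ 4 + a4 • z l ^ 4 + r)
    (hd : dd i j y ∈ R 4 4) (ha : a1 ≠ 0) : z j ^ 4 ∈ R 4 4 := by
  have hr' : dd i j r ∈ R 4 4 := h.dd 4 4 i j le_rfl hi hj hij r hr
  have e1 : dd i j y = a1 • (3 * ((z i - z j) * z j ^ 3)) + dd i j r := by
    rw [hy]
    simp only [map_add, map_smul]
    rw [n4c_dd4, n4c_dd0 hij.symm, n4c_dd0 hik.symm, n4c_dd0 hil.symm]
    simp only [smul_zero, add_zero]
  have hG : a1 • z j ^ 4 ∈ R 4 4 := by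
    have e2 : (a1 • z j ^ 4 : Z p) = MvPolynomial.C a1 * (3 * z j ^ 3 * z i - 2 * z j ^ 4) + dd i j r - dd i j y := by
      rw [e1]
      simp only [MvPolynomial.smul_eq_C_mul]
      ring
    rw [e2]
    exact sub_mem (add_mem (n4c_smC _ (hA j hj i hi hij.symm)) hr') hd
  exact ((R 4 4).smul_mem_iff ha).1 hG

private theorem n4c_dec {m : ℕ →₀ ℕ} {k : ℕ} (h : m.degree = k + 1) :
    ∃ (i : ℕ) (m' : ℕ →₀ ℕ), m = Finsupp.single i 1 + m' ∧ m'.degree = k := by
  have h0 : m ≠ 0 := by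
    rintro rfl
    rw [map_zero] at h
    omega
  obtain ⟨i, hi⟩ := Finsupp.ne_iff.1 h0
  rw [Finsupp.zero_apply] at hi
  have h1 : Finsupp.single i 1 ≤ m := by
    rw [Finsupp.single_le_iff]
    omega
  refine ⟨i, m - Finsupp.single i 1, (add_tsub_cancel_of_le h1).symm, ?_⟩
  have h2 : (Finsupp.single i 1 + (m - Finsupp.single i 1)).degree = k + 1 := by
    rw [add_tsub_cancel_of_le h1]
    exact h
  rw [map_add, Finsupp.degree_single] at h2
  omega

private theorem n4c_four {m : ℕ →₀ ℕ} (h : m.degree = 4) : ∃ a b c d : ℕ,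
    m = Finsupp.single a 1 + (Finsupp.single b 1 + (Finsupp.single c 1 + Finsupp.single d 1)) := by
  obtain ⟨a, m1, rfl, h1⟩ := n4c_dec (k := 3) h
  obtain ⟨b, m2, rfl, h2⟩ := n4c_dec (k := 2) h1
  obtain ⟨c, m3, rfl, h3⟩ := n4c_dec (k := 1) h2
  obtain ⟨d, m4, rfl, h4⟩ := n4c_dec (k := 0) h3
  rw [(Finsupp.degree_eq_zero_iff m4).1 h4]
  exact ⟨a, b, c, d, by rw [add_zero]⟩

private theorem n4c_mo4 (a b c d : ℕ) :
    (mo (Finsupp.single a 1 + (Finsupp.single b 1 + (Finsupp.single c 1 + Finsupp.single d 1))) : Z p) =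
      z a * z b * z c * z d := by
  rw [mo_add, mo_add, mo_add, mo_single, mo_single, mo_single, mo_single]
  ring

private theorem n4c_bd {a b c d : ℕ}
    (hm : ∀ i, 4 ≤ i → (Finsupp.single a 1 + (Finsupp.single b 1 + (Finsupp.single c 1 + Finsupp.single d 1)) : ℕ →₀ ℕ) i = 0) :
    a < 4 ∧ b < 4 ∧ c < 4 ∧ d < 4 := by
  have key : ∀ x : ℕ, x = a ∨ x = b ∨ x = c ∨ x = d → x < 4 := by
    intro x hx
    by_contra hxn
    have h6 := hm x (not_lt.1 hxn)
    rw [Finsupp.add_apply, Finsupp.add_apply, Finsupp.add_apply] at h6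
    rcases hx with rfl | rfl | rfl | rfl
    · rw [Finsupp.single_eq_same] at h6; omega
    · rw [Finsupp.single_eq_same] at h6; omega
    · rw [Finsupp.single_eq_same] at h6; omega
    · rw [Finsupp.single_eq_same] at h6; omega
  exact ⟨key a (by tauto), key b (by tauto), key c (by tauto), key d (by tauto)⟩

private theorem n4c_22 {a b : ℕ} (hab : a ≠ b) :
    (Finsupp.single a 1 + (Finsupp.single a 1 + (Finsupp.single b 1 + Finsupp.single b 1)) : ℕ →₀ ℕ) a = 2 ∧
    (Finsupp.single a 1 + (Finsupp.single a 1 + (Finsupp.single b 1 + Finsupp.single b 1)) : ℕ →₀ ℕ) b = 2 := by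
  simp only [Finsupp.add_apply, Finsupp.single_eq_same, Finsupp.single_eq_of_ne hab,
    Finsupp.single_eq_of_ne (Ne.symm hab)]
  exact ⟨rfl, rfl⟩

/-- the generators of `Nt` are in any space that contains the four types of monomials -/
private theorem n4c_Nt {M : Submodule (ZMod p) (Z p)} (q4 : ∀ i < 4, z i ^ 4 ∈ M)
    (q31 : ∀ i < 4, ∀ j < 4, i ≠ j → z i ^ 3 * z j ∈ M)
    (q21 : ∀ i < 4, ∀ j < 4, ∀ k < 4, i ≠ j → i ≠ k → j ≠ k → z i ^ 2 * z j * z k ∈ M)
    (q1 : ∀ i < 4, ∀ j < 4, ∀ k < 4, ∀ l < 4, i ≠ j → i ≠ k → i ≠ l → j ≠ k → j ≠ l → k ≠ l →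
      z i * z j * z k * z l ∈ M) : Nt p 4 ≤ M := by
  refine Submodule.span_le.2 ?_
  rintro F ⟨m, hm, hd, h22, rfl⟩
  obtain ⟨a, b, c, d, rfl⟩ := n4c_four hd
  obtain ⟨ha, hb, hc, hd'⟩ := n4c_bd hm
  rw [SetLike.mem_coe, n4c_mo4]
  by_cases ab : a = b
  · subst ab
    by_cases ac : a = c
    · subst ac
      by_cases ad : a = d
      · subst ad
        have e : (z a * z a * z a * z a : Z p) = z a ^ 4 := by ring
        rw [e]
        exact q4 a ha
      · have e : (z a * z a * z a * z d : Z p) = z a ^ 3 * z d := by ring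
        rw [e]
        exact q31 a ha d hd' ad
    · by_cases ad : a = d
      · subst ad
        have e : (z a * z a * z c * z a : Z p) = z a ^ 3 * z c := by ring
        rw [e]
        exact q31 a ha c hc ac
      · by_cases cd : c = d
        · subst cd
          exact absurd (n4c_22 ac) (h22 a c ac)
        · have e : (z a * z a * z c * z d : Z p) = z a ^ 2 * z c * z d := by ring
          rw [e]
          exact q21 a ha c hc d hd' ac ad cd
  · by_cases ac : a = c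
    · subst ac
      by_cases ad : a = d
      · subst ad
        have e : (z a * z b * z a * z a : Z p) = z a ^ 3 * z b := by ring
        rw [e]
        exact q31 a ha b hb ab
      · by_cases bd : b = d
        · subst bd
          exfalso
          refine h22 a b ab ?_
          have e : (Finsupp.single a 1 + (Finsupp.single b 1 + (Finsupp.single a 1 + Finsupp.single b 1)) : ℕ →₀ ℕ) =
              Finsupp.single a 1 + (Finsupp.single a 1 + (Finsupp.single b 1 + Finsupp.single b 1)) := by abel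
          rw [e]
          exact n4c_22 ab
        · have e : (z a * z b * z a * z d : Z p) = z a ^ 2 * z b * z d := by ring
          rw [e]
          exact q21 a ha b hb d hd' ab ad bd
    · by_cases ad : a = d
      · subst ad
        by_cases bc : b = c
        · subst bc
          exfalso
          refine h22 a b ab ?_
          have e : (Finsupp.single a 1 + (Finsupp.single b 1 + (Finsupp.single b 1 + Finsupp.single a 1)) : ℕ →₀ ℕ) =
              Finsupp.single a 1 + (Finsupp.single a 1 + (Finsupp.single b 1 + Finsupp.single b 1)) := by abel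
          rw [e]
          exact n4c_22 ab
        · have e : (z a * z b * z c * z a : Z p) = z a ^ 2 * z b * z c := by ring
          rw [e]
          exact q21 a ha b hb c hc ab ac bc
      · by_cases bc : b = c
        · subst bc
          by_cases bd : b = d
          · subst bd
            have e : (z a * z b * z b * z b : Z p) = z b ^ 3 * z a := by ring
            rw [e]
            exact q31 b hb a ha (Ne.symm ab)
          · have e : (z a * z b * z b * z d : Z p) = z b ^ 2 * z a * z d := by ring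
            rw [e]
            exact q21 b hb a ha d hd' (Ne.symm ab) bd ad
        · by_cases bd : b = d
          · subst bd
            have e : (z a * z b * z c * z b : Z p) = z b ^ 2 * z a * z c := by ring
            rw [e]
            exact q21 b hb a ha c hc (Ne.symm ab) bc ac
          · by_cases cd : c = d
            · subst cd
              have e : (z a * z b * z c * z c : Z p) = z c ^ 2 * z a * z b := by ring
              rw [e]
              exact q21 c hc a ha b hb (Ne.symm ac) (Ne.symm bc) ab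
            · exact q1 a ha b hb c hc d hd' ab ac ad bc bd cd

/-- the combinations of the fourth powers, modulo `R 4 4` -/
private theorem n4c_form {N : Submodule (ZMod p) (Z p)} {t : Z p}
    (ht : t ∈ N ⊔ Submodule.span (ZMod p) {F | ∃ i < 4, F = z i ^ 4}) :
    ∃ a0 a1 a2 a3 : ZMod p, ∃ r ∈ N,
      t = a0 • z 0 ^ 4 + a1 • z 1 ^ 4 + a2 • z 2 ^ 4 + a3 • z 3 ^ 4 + r := by
  obtain ⟨r, hr, s, hs, hrs⟩ := Submodule.mem_sup.1 ht
  clear ht
  have key : ∃ a0 a1 a2 a3 : ZMod p, s = a0 • z 0 ^ 4 + a1 • z 1 ^ 4 + a2 • z 2 ^ 4 + a3 • z 3 ^ 4 := by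
    clear hrs
    induction hs using Submodule.span_induction with
    | mem x hx =>
      obtain ⟨i, hi, rfl⟩ := hx
      interval_cases i
      · exact ⟨1, 0, 0, 0, by simp⟩
      · exact ⟨0, 1, 0, 0, by simp⟩
      · exact ⟨0, 0, 1, 0, by simp⟩
      · exact ⟨0, 0, 0, 1, by simp⟩
    | zero => exact ⟨0, 0, 0, 0, by simp⟩
    | add x y _ _ hx hy =>
      obtain ⟨a0, a1, a2, a3, rfl⟩ := hx
      obtain ⟨b0, b1, b2, b3, rfl⟩ := hy
      refine ⟨a0 + b0, a1 + b1, a2 + b2, a3 + b3, ?_⟩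
      simp only [add_smul]
      abel
    | smul c x _ hx =>
      obtain ⟨a0, a1, a2, a3, rfl⟩ := hx
      refine ⟨c * a0, c * a1, c * a2, c * a3, ?_⟩
      simp only [mul_smul, smul_add]
  obtain ⟨a0, a1, a2, a3, hs'⟩ := key
  refine ⟨a0, a1, a2, a3, r, hr, ?_⟩
  rw [← hrs, hs']
  abel

private theorem n4c_pc : (Finset.range 4).powersetCard 2 =
    {{0, 1}, {0, 2}, {0, 3}, {1, 2}, {1, 3}, {2, 3}} := by decide

omit [Fact p.Prime] in
private theorem n4c_prod {a b : ℕ} (hab : a ≠ b) : ∏ i ∈ ({a, b} : Finset ℕ), (z i ^ 2 : Z p) = z a ^ 2 * z b ^ 2 :=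
  Finset.prod_pair hab

private theorem n4c_sum (g : Finset ℕ → ZMod p) :
    (∑ S ∈ (Finset.range 4).powersetCard 2, g S • ∏ i ∈ S, z i ^ 2 : Z p) =
      g {0, 1} • (z 0 ^ 2 * z 1 ^ 2) + g {0, 2} • (z 0 ^ 2 * z 2 ^ 2) + g {0, 3} • (z 0 ^ 2 * z 3 ^ 2) +
      g {1, 2} • (z 1 ^ 2 * z 2 ^ 2) + g {1, 3} • (z 1 ^ 2 * z 3 ^ 2) + g {2, 3} • (z 2 ^ 2 * z 3 ^ 2) := by
  rw [n4c_pc]
  rw [Finset.sum_insert (by decide), Finset.sum_insert (by decide), Finset.sum_insert (by decide),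
    Finset.sum_insert (by decide), Finset.sum_insert (by decide), Finset.sum_singleton]
  rw [n4c_prod (by norm_num), n4c_prod (by norm_num), n4c_prod (by norm_num), n4c_prod (by norm_num),
    n4c_prod (by norm_num), n4c_prod (by norm_num)]
  abel

theorem n4b2 (h5 : 5 ≤ p) (h : MS3 p R)
    (h0 : 3 * z 0 ^ 3 * z 1 - 2 * z 0 ^ 4 ∈ R 4 4 ∧ 3 * z 0 ^ 2 * z 1 * z 2 - z 0 ^ 4 ∈ R 4 4 ∧
      z 0 * z 1 * z 2 * z 3 ∈ R 4 4)
    {y : Z p} (hy : y ∈ Hh p 4 4) (hd : ∀ i < 4, ∀ j < 4, i ≠ j → dd i j y ∈ R 4 4) : y ∈ R 4 4 := by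
  obtain ⟨hA0, hB0, hC0⟩ := h0
  have hA : ∀ i < 4, ∀ j < 4, i ≠ j → 3 * z i ^ 3 * z j - 2 * z i ^ 4 ∈ R 4 4 :=
    fun i hi j hj hij => n4c_A h hA0 hi hj hij
  have hB : ∀ i < 4, ∀ j < 4, ∀ k < 4, i ≠ j → i ≠ k → j ≠ k → 3 * z i ^ 2 * z j * z k - z i ^ 4 ∈ R 4 4 :=
    fun i hi j hj k hk hij hik hjk => n4c_B h hB0 hi hj hk hij hik hjk
  have h3 := n4c_three h5
  -- the form of `y`
  have hNt : Nt p 4 ≤ R 4 4 ⊔ Submodule.span (ZMod p) {F | ∃ i < 4, F = z i ^ 4} := by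
    have hu : ∀ i < 4, (z i ^ 4 : Z p) ∈ R 4 4 ⊔ Submodule.span (ZMod p) {F | ∃ i < 4, F = z i ^ 4} :=
      fun i hi => Submodule.mem_sup_right (Submodule.subset_span ⟨i, hi, rfl⟩)
    have div3 : ∀ x : Z p, 3 * x ∈ R 4 4 ⊔ Submodule.span (ZMod p) {F | ∃ i < 4, F = z i ^ 4} →
        x ∈ R 4 4 ⊔ Submodule.span (ZMod p) {F | ∃ i < 4, F = z i ^ 4} := by
      intro x hx
      have e : (3 : ZMod p) • x = 3 * x := by rw [MvPolynomial.smul_eq_C_mul, n4c_C3]
      rw [← e] at hx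
      exact (Submodule.smul_mem_iff _ h3).1 hx
    refine n4c_Nt hu ?_ ?_ ?_
    · intro i hi j hj hij
      apply div3
      have e : (3 * (z i ^ 3 * z j) : Z p) = (3 * z i ^ 3 * z j - 2 * z i ^ 4) + (z i ^ 4 + z i ^ 4) := by ring
      rw [e]
      exact add_mem (Submodule.mem_sup_left (hA i hi j hj hij)) (add_mem (hu i hi) (hu i hi))
    · intro i hi j hj k hk hij hik hjk
      apply div3
      have e : (3 * (z i ^ 2 * z j * z k) : Z p) = (3 * z i ^ 2 * z j * z k - z i ^ 4) + z i ^ 4 := by ring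
      rw [e]
      exact add_mem (Submodule.mem_sup_left (hB i hi j hj k hk hij hik hjk)) (hu i hi)
    · intro i hi j hj k hk l hl hij hik hil hjk hjl hkl
      exact Submodule.mem_sup_left (n4c_C h hC0 hi hj hk hl hij hik hil hjk hjl hkl)
  obtain ⟨g, t, ht, hyt⟩ := expN4 hy
  obtain ⟨a0, a1, a2, a3, r, hr, ht'⟩ := n4c_form (hNt ht)
  rw [n4c_sum, ht'] at hyt
  -- the squares
  have hy2 : ∃ b0 b1 b2 b3 : ZMod p, ∃ s ∈ R 4 4,
      y = b0 • z 0 ^ 4 + b1 • z 1 ^ 4 + b2 • z 2 ^ 4 + b3 • z 3 ^ 4 + s := by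
    by_cases hg : g {0, 1} = 0 ∧ g {0, 2} = 0 ∧ g {0, 3} = 0 ∧ g {1, 2} = 0 ∧ g {1, 3} = 0 ∧ g {2, 3} = 0
    · obtain ⟨q1, q2, q3, q4, q5, q6⟩ := hg
      refine ⟨a0, a1, a2, a3, r, hr, ?_⟩
      rw [hyt, q1, q2, q3, q4, q5, q6]
      simp only [zero_smul, zero_add]
    · have hD : ∀ i < 4, ∀ j < 4, i ≠ j → 3 * (z i ^ 2 * z j ^ 2) - z i ^ 4 - z j ^ 4 ∈ R 4 4 := by
        suffices hs : ∃ i' j' : ℕ, i' < 4 ∧ j' < 4 ∧ i' ≠ j' ∧
            3 * (z i' ^ 2 * z j' ^ 2) - z i' ^ 4 - z j' ^ 4 ∈ R 4 4 by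
          obtain ⟨i', j', hi', hj', hij', hD'⟩ := hs
          intro i hi j hj hij
          exact n4c_D h hD' hi' hj' hij' hi hj hij
        by_cases q1 : g {0, 1} = 0
        · by_cases q2 : g {0, 2} = 0
          · by_cases q3 : g {0, 3} = 0
            · by_cases q4 : g {1, 2} = 0
              · by_cases q5 : g {1, 3} = 0
                · by_cases q6 : g {2, 3} = 0
                  · exact absurd ⟨q1, q2, q3, q4, q5, q6⟩ hg
                  · refine ⟨2, 0, by norm_num, by norm_num, by norm_num, ?_⟩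
                    refine n4c_key (i := 2) (j := 0) (k := 3) (l := 1) h hA hB (by norm_num) (by norm_num)
                      (by norm_num) (by norm_num) (by norm_num) (by norm_num) (by norm_num) (by norm_num)
                      (by norm_num) (by norm_num) (a1 := a2) (a2 := a0) (a3 := a3) (a4 := a1)
                      (g1 := g {0, 2}) (g2 := g {2, 3}) (g3 := g {1, 2}) (g4 := g {0, 3}) (g5 := g {0, 1})
                      (g6 := g {1, 3}) hr ?_ (hd 2 (by norm_num) 0 (by norm_num) (by norm_num)) q6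
                    rw [hyt]
                    simp only [MvPolynomial.smul_eq_C_mul]
                    ring
                · refine ⟨1, 0, by norm_num, by norm_num, by norm_num, ?_⟩
                  refine n4c_key (i := 1) (j := 0) (k := 3) (l := 2) h hA hB (by norm_num) (by norm_num)
                    (by norm_num) (by norm_num) (by norm_num) (by norm_num) (by norm_num) (by norm_num)
                    (by norm_num) (by norm_num) (a1 := a1) (a2 := a0) (a3 := a3) (a4 := a2)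
                    (g1 := g {0, 1}) (g2 := g {1, 3}) (g3 := g {1, 2}) (g4 := g {0, 3}) (g5 := g {0, 2})
                    (g6 := g {2, 3}) hr ?_ (hd 1 (by norm_num) 0 (by norm_num) (by norm_num)) q5
                  rw [hyt]
                  simp only [MvPolynomial.smul_eq_C_mul]
                  ring
              · refine ⟨1, 0, by norm_num, by norm_num, by norm_num, ?_⟩
                refine n4c_key (i := 1) (j := 0) (k := 2) (l := 3) h hA hB (by norm_num) (by norm_num)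
                  (by norm_num) (by norm_num) (by norm_num) (by norm_num) (by norm_num) (by norm_num)
                  (by norm_num) (by norm_num) (a1 := a1) (a2 := a0) (a3 := a2) (a4 := a3)
                  (g1 := g {0, 1}) (g2 := g {1, 2}) (g3 := g {1, 3}) (g4 := g {0, 2}) (g5 := g {0, 3})
                  (g6 := g {2, 3}) hr ?_ (hd 1 (by norm_num) 0 (by norm_num) (by norm_num)) q4
                rw [hyt]
                simp only [MvPolynomial.smul_eq_C_mul]
                ring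
            · refine ⟨0, 1, by norm_num, by norm_num, by norm_num, ?_⟩
              refine n4c_key (i := 0) (j := 1) (k := 3) (l := 2) h hA hB (by norm_num) (by norm_num)
                (by norm_num) (by norm_num) (by norm_num) (by norm_num) (by norm_num) (by norm_num)
                (by norm_num) (by norm_num) (a1 := a0) (a2 := a1) (a3 := a3) (a4 := a2)
                (g1 := g {0, 1}) (g2 := g {0, 3}) (g3 := g {0, 2}) (g4 := g {1, 3}) (g5 := g {1, 2})
                (g6 := g {2, 3}) hr ?_ (hd 0 (by norm_num) 1 (by norm_num) (by norm_num)) q3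
              rw [hyt]
              simp only [MvPolynomial.smul_eq_C_mul]
              ring
          · refine ⟨0, 1, by norm_num, by norm_num, by norm_num, ?_⟩
            refine n4c_key (i := 0) (j := 1) (k := 2) (l := 3) h hA hB (by norm_num) (by norm_num)
              (by norm_num) (by norm_num) (by norm_num) (by norm_num) (by norm_num) (by norm_num)
              (by norm_num) (by norm_num) (a1 := a0) (a2 := a1) (a3 := a2) (a4 := a3)
              (g1 := g {0, 1}) (g2 := g {0, 2}) (g3 := g {0, 3}) (g4 := g {1, 2}) (g5 := g {1, 3})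
              (g6 := g {2, 3}) hr ?_ (hd 0 (by norm_num) 1 (by norm_num) (by norm_num)) q2
            rw [hyt]
            simp only [MvPolynomial.smul_eq_C_mul]
            ring
        · refine ⟨0, 2, by norm_num, by norm_num, by norm_num, ?_⟩
          refine n4c_key (i := 0) (j := 2) (k := 1) (l := 3) h hA hB (by norm_num) (by norm_num)
            (by norm_num) (by norm_num) (by norm_num) (by norm_num) (by norm_num) (by norm_num)
            (by norm_num) (by norm_num) (a1 := a0) (a2 := a2) (a3 := a1) (a4 := a3)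
            (g1 := g {0, 2}) (g2 := g {0, 1}) (g3 := g {0, 3}) (g4 := g {1, 2}) (g5 := g {2, 3})
            (g6 := g {1, 3}) hr ?_ (hd 0 (by norm_num) 2 (by norm_num) (by norm_num)) q1
          rw [hyt]
          simp only [MvPolynomial.smul_eq_C_mul]
          ring
      have hSq : ∀ i < 4, ∀ j < 4, i ≠ j →
          (z i ^ 2 * z j ^ 2 : Z p) ∈ R 4 4 ⊔ Submodule.span (ZMod p) {F | ∃ i < 4, F = z i ^ 4} := by
        intro i hi j hj hij
        have hu : ∀ i < 4, (z i ^ 4 : Z p) ∈ R 4 4 ⊔ Submodule.span (ZMod p) {F | ∃ i < 4, F = z i ^ 4} :=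
          fun i hi => Submodule.mem_sup_right (Submodule.subset_span ⟨i, hi, rfl⟩)
        have e : (3 : ZMod p) • (z i ^ 2 * z j ^ 2 : Z p) =
            (3 * (z i ^ 2 * z j ^ 2) - z i ^ 4 - z j ^ 4) + (z i ^ 4 + z j ^ 4) := by
          rw [MvPolynomial.smul_eq_C_mul, n4c_C3]
          ring
        refine (Submodule.smul_mem_iff _ h3).1 ?_
        rw [e]
        exact add_mem (Submodule.mem_sup_left (hD i hi j hj hij)) (add_mem (hu i hi) (hu j hj))
      have hyM : y ∈ R 4 4 ⊔ Submodule.span (ZMod p) {F | ∃ i < 4, F = z i ^ 4} := by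
        rw [hyt, ← ht']
        refine add_mem (add_mem (add_mem (add_mem (add_mem (add_mem ?_ ?_) ?_) ?_) ?_) ?_) (hNt ht)
        · exact Submodule.smul_mem _ _ (hSq 0 (by norm_num) 1 (by norm_num) (by norm_num))
        · exact Submodule.smul_mem _ _ (hSq 0 (by norm_num) 2 (by norm_num) (by norm_num))
        · exact Submodule.smul_mem _ _ (hSq 0 (by norm_num) 3 (by norm_num) (by norm_num))
        · exact Submodule.smul_mem _ _ (hSq 1 (by norm_num) 2 (by norm_num) (by norm_num))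
        · exact Submodule.smul_mem _ _ (hSq 1 (by norm_num) 3 (by norm_num) (by norm_num))
        · exact Submodule.smul_mem _ _ (hSq 2 (by norm_num) 3 (by norm_num) (by norm_num))
      exact n4c_form hyM
  obtain ⟨b0, b1, b2, b3, s, hs, hys⟩ := hy2
  by_cases hb : b0 = 0 ∧ b1 = 0 ∧ b2 = 0 ∧ b3 = 0
  · obtain ⟨rfl, rfl, rfl, rfl⟩ := hb
    rw [hys]
    simp only [zero_smul, zero_add]
    exact hs
  · have hU : ∀ i < 4, z i ^ 4 ∈ R 4 4 := by
      suffices hs' : ∃ i' : ℕ, i' < 4 ∧ z i' ^ 4 ∈ R 4 4 by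
        obtain ⟨i', hi', hU'⟩ := hs'
        intro i hi
        exact n4c_U h hU' hi' hi
      by_cases q0 : b0 = 0
      · by_cases q1 : b1 = 0
        · by_cases q2 : b2 = 0
          · by_cases q3 : b3 = 0
            · exact absurd ⟨q0, q1, q2, q3⟩ hb
            · refine ⟨0, by norm_num, ?_⟩
              refine n4c_fin (i := 3) (j := 0) (k := 1) (l := 2) h hA (by norm_num) (by norm_num)
                (by norm_num) (by norm_num) (by norm_num) (a1 := b3) (a2 := b0) (a3 := b1) (a4 := b2) hs ?_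
                (hd 3 (by norm_num) 0 (by norm_num) (by norm_num)) q3
              rw [hys]
              abel
          · refine ⟨0, by norm_num, ?_⟩
            refine n4c_fin (i := 2) (j := 0) (k := 1) (l := 3) h hA (by norm_num) (by norm_num)
              (by norm_num) (by norm_num) (by norm_num) (a1 := b2) (a2 := b0) (a3 := b1) (a4 := b3) hs ?_
              (hd 2 (by norm_num) 0 (by norm_num) (by norm_num)) q2
            rw [hys]
            abel
        · refine ⟨0, by norm_num, ?_⟩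
          refine n4c_fin (i := 1) (j := 0) (k := 2) (l := 3) h hA (by norm_num) (by norm_num)
            (by norm_num) (by norm_num) (by norm_num) (a1 := b1) (a2 := b0) (a3 := b2) (a4 := b3) hs ?_
            (hd 1 (by norm_num) 0 (by norm_num) (by norm_num)) q1
          rw [hys]
          abel
      · refine ⟨1, by norm_num, ?_⟩
        exact n4c_fin (i := 0) (j := 1) (k := 2) (l := 3) h hA (by norm_num) (by norm_num)
          (by norm_num) (by norm_num) (by norm_num) (a1 := b0) (a2 := b1) (a3 := b2) (a4 := b3) hs hys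
          (hd 0 (by norm_num) 1 (by norm_num) (by norm_num)) q0
    rw [hys]
    exact add_mem (add_mem (add_mem (add_mem (Submodule.smul_mem _ _ (hU 0 (by norm_num)))
      (Submodule.smul_mem _ _ (hU 1 (by norm_num)))) (Submodule.smul_mem _ _ (hU 2 (by norm_num))))
      (Submodule.smul_mem _ _ (hU 3 (by norm_num)))) hs

end ADQ
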