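import Pool.Agent.ADQ.Tool2b
import Pool.Agent.ADQ.Tool2c
import Pool.Agent.ADQ.ExpN

/-!
# ADQ-Sqt

`s = ∑_{|S| = k} c_S z_S ≠ 0` (`expS`), say `c_A ≠ 0`, `A = {a_1, ..., a_k}`.  Claim: for `t ≤ k`, `t ≥ 1`, the sum `s_t` of the terms `c_S z_S` with `a_1, ..., a_t ∈ S` is in `R (n + t) k`:
`s_1 = s - ev a_1 s ∈ R (n+1) k` (`zer` of `SocB`); `s_{t+1} = s_t - ev a_{t+1} s_t`, `MS.zer` and `MS.up`.  `s_k = c_A z_A`.  Then `ren` moves `A` to `{0, ..., k-1}`.  Instead of the explicit sums one can prove by induction on `t` that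
`s_t` is squarefree and has the same coefficients as `s` at the monomials divisible by `z_{a_1} ... z_{a_t}` and no others.
-/

namespace ADQ

open AD ADN ADC

variable {p : ℕ} [Fact p.Prime] {R : ℕ → ℕ → Submodule (ZMod p) (Z p)}

/-- the part of the sum with `T ⊆ S` -/
private noncomputable def part (n k : ℕ) (c : Finset ℕ → ZMod p) (T : Finset ℕ) : Z p :=
  ∑ S ∈ ((Finset.range n).powersetCard k).filter (fun S => T ⊆ S), c S • ∏ i ∈ S, z i

omit [Fact p.Prime] in
private theorem ev_prod (a : ℕ) (S : Finset ℕ) :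
    ev a (∏ i ∈ S, (z i : Z p)) = if a ∈ S then 0 else ∏ i ∈ S, z i := by
  rw [map_prod]
  split_ifs with h
  · refine Finset.prod_eq_zero h ?_
    rw [ev_z, if_pos rfl]
  · refine Finset.prod_congr rfl fun i hi => ?_
    rw [ev_z, if_neg]
    rintro rfl
    exact h hi

private theorem part_insert (n k : ℕ) (c : Finset ℕ → ZMod p) (T : Finset ℕ) (a : ℕ) :
    part n k c (insert a T) = part n k c T - ev a (part n k c T) := by
  unfold part
  rw [map_sum, ← Finset.sum_sub_distrib]
  have h1 : ∀ S ∈ ((Finset.range n).powersetCard k).filter (fun S => T ⊆ S),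
      (c S • ∏ i ∈ S, (z i : Z p)) - ev a (c S • ∏ i ∈ S, (z i : Z p)) =
        if a ∈ S then c S • ∏ i ∈ S, (z i : Z p) else 0 := by
    intro S _
    rw [map_smul, ev_prod]
    split_ifs with h
    · rw [smul_zero, sub_zero]
    · rw [sub_self]
  rw [Finset.sum_congr rfl h1, ← Finset.sum_filter, Finset.filter_filter]
  refine Finset.sum_congr (Finset.filter_congr fun S _ => ?_) fun _ _ => rfl
  rw [Finset.insert_subset_iff]
  exact and_comm

private theorem part_mem (h : MS p R) {n k : ℕ} (hn : 1 ≤ n) {c : Finset ℕ → ZMod p}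
    (hb : SocB p R n k (part n k c ∅)) (T : Finset ℕ) (hT : ∀ a ∈ T, a < n) (hne : T.Nonempty) :
    part n k c T ∈ R (n + T.card) k := by
  induction T using Finset.induction_on with
  | empty => exact absurd hne Finset.not_nonempty_empty
  | insert a T ha ih =>
    rw [part_insert, Finset.card_insert_of_notMem ha]
    have han : a < n := hT a (Finset.mem_insert_self a T)
    rcases T.eq_empty_or_nonempty with h0 | h0
    · rw [h0, Finset.card_empty, Nat.zero_add]
      exact Submodule.sub_mem _ hb.ext (hb.zer a han)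
    · have h1 := ih (fun b hb' => hT b (Finset.mem_insert_of_mem hb')) h0
      have h2 := h.up (by omega) (Nat.le_succ (n + T.card)) h1
      have h3 := h.zer (n + T.card) k a (by omega) _ h1
      exact Submodule.sub_mem _ h2 h3

private theorem exists_g (n k : ℕ) (A : Finset ℕ) (hA : ∀ a ∈ A, a < n) (hc : A.card = k) :
    ∃ g : ℕ → ℕ, (∀ i < n + k, g i < n + k) ∧ (∀ i < n + k, ∀ j < n + k, g i = g j → i = j) ∧
      A.image g = Finset.range k := by
  classical
  have e1 : Fintype.card {x : Fin (n + k) // (x : ℕ) ∈ A} = Fintype.card {x : Fin (n + k) // (x : ℕ) < k} := by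
    rw [Fintype.card_subtype, Fintype.card_subtype]
    have h1 : (Finset.univ.filter fun x : Fin (n + k) => (x : ℕ) ∈ A).card = A.card := by
      refine Finset.card_bij (fun x _ => (x : ℕ)) (fun x hx => (Finset.mem_filter.1 hx).2)
        (fun x _ y _ hxy => Fin.ext hxy) fun b hb => ?_
      exact ⟨⟨b, by have := hA b hb; omega⟩, Finset.mem_filter.2 ⟨Finset.mem_univ _, hb⟩, rfl⟩
    have h2 : (Finset.univ.filter fun x : Fin (n + k) => (x : ℕ) < k).card = (Finset.range k).card := by
      refine Finset.card_bij (fun x _ => (x : ℕ)) (fun x hx => Finset.mem_range.2 (Finset.mem_filter.1 hx).2)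
        (fun x _ y _ hxy => Fin.ext hxy) fun b hb => ?_
      have := Finset.mem_range.1 hb
      exact ⟨⟨b, by omega⟩, Finset.mem_filter.2 ⟨Finset.mem_univ _, this⟩, rfl⟩
    rw [h1, h2, hc, Finset.card_range]
  set e := Fintype.equivOfCardEq e1
  set σ := e.extendSubtype with hσ
  have hgi : ∀ i (hi : i < n + k), (fun i => if h : i < n + k then (σ ⟨i, h⟩ : ℕ) else i) i = σ ⟨i, hi⟩ :=
    fun i hi => dif_pos hi
  refine ⟨fun i => if h : i < n + k then (σ ⟨i, h⟩ : ℕ) else i, fun i hi => ?_, fun i hi j hj hij => ?_, ?_⟩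
  · rw [hgi i hi]
    exact (σ ⟨i, hi⟩).2
  · rw [hgi i hi, hgi j hj] at hij
    have h1 := σ.injective (Fin.ext hij)
    exact congrArg Fin.val h1
  · refine Finset.eq_of_subset_of_card_le (fun b hb => ?_) ?_
    · obtain ⟨a, ha, hab⟩ := Finset.mem_image.1 hb
      have h1 : a < n + k := by
        have := hA a ha
        omega
      have hab' : ((σ ⟨a, h1⟩ : Fin (n + k)) : ℕ) = b := (hgi a h1).symm.trans hab
      have h2 := e.extendSubtype_mem ⟨a, h1⟩ ha
      rw [Finset.mem_range, ← hab']
      exact h2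
    · rw [Finset.card_range, Finset.card_image_of_injOn, hc]
      intro i hi j hj hij
      have h1 := hA i hi
      have h2 := hA j hj
      have h3 : i < n + k := by omega
      have h4 : j < n + k := by omega
      have h5 := (hgi i h3).symm.trans (hij.trans (hgi j h4))
      exact congrArg Fin.val (σ.injective (Fin.ext h5))

theorem sqt (h : MS p R) {n k : ℕ} (hn : 1 ≤ n) (hk : 1 ≤ k) {s : Z p} (hs : s ∈ Sq p n k) (h0 : s ≠ 0)
    (hb : SocB p R n k s) : ∏ i ∈ Finset.range k, (z i : Z p) ∈ R (n + k) k := by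
  classical
  obtain ⟨c, hc⟩ := expS hs
  have hpe : part n k c ∅ = s := by
    rw [hc]
    unfold part
    rw [Finset.filter_true_of_mem fun S _ => Finset.empty_subset S]
  obtain ⟨A, hA, hcA⟩ : ∃ A ∈ (Finset.range n).powersetCard k, c A ≠ 0 := by
    by_contra hne
    push Not at hne
    apply h0
    rw [hc]
    refine Finset.sum_eq_zero fun S hS => ?_
    rw [hne S hS, zero_smul]
  obtain ⟨hAn, hAk⟩ := Finset.mem_powersetCard.1 hA
  have hAn' : ∀ a ∈ A, a < n := fun a ha => Finset.mem_range.1 (hAn ha)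
  rw [← hpe] at hb
  have h1 := part_mem h hn hb A hAn' (Finset.card_pos.1 (by omega))
  have h2 : part n k c A = c A • ∏ i ∈ A, z i := by
    unfold part
    rw [show ((Finset.range n).powersetCard k).filter (fun S => A ⊆ S) = {A} from ?_,
      Finset.sum_singleton]
    ext S
    rw [Finset.mem_filter, Finset.mem_singleton]
    constructor
    · rintro ⟨h3, h4⟩
      exact (Finset.eq_of_subset_of_card_le h4 (by rw [(Finset.mem_powersetCard.1 h3).2, hAk])).symm
    · rintro rfl
      exact ⟨hA, Finset.Subset.refl _⟩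
  rw [h2, hAk] at h1
  have h3 : ∏ i ∈ A, (z i : Z p) ∈ R (n + k) k := by
    have h4 := Submodule.smul_mem (R (n + k) k) (c A)⁻¹ h1
    rwa [smul_smul, inv_mul_cancel₀ hcA, one_smul] at h4
  obtain ⟨g, hg1, hg2, hg3⟩ := exists_g n k A hAn' hAk
  have h5 := h.ren (n + k) (n + k) k g (by omega) hg1 hg2 _ h3
  rw [map_prod] at h5
  have h6 : ∏ i ∈ A, rn g (z i : Z p) = ∏ i ∈ Finset.range k, (z i : Z p) := by
    rw [← hg3, Finset.prod_image]
    · exact Finset.prod_congr rfl fun i _ => rn_z g i
    · intro i hi j hj hij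
      have h7 := hAn' i hi
      have h8 := hAn' j hj
      exact hg2 i (by omega) j (by omega) hij
  rw [h6] at h5
  exact h5

end ADQ
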