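import Pool.Agent.ADQ.Cub
import Pool.Agent.ADQ.Sq22
import Pool.Agent.ADQ.Sqt
import Pool.Agent.ADQ.NoSq

/-!
# ADQ-NoLP3

`u - s ∈ R n 3`, `s ∈ Sq p n 3` (`cub`), `s ∉ R n 3`, `SocB p R n 3 s` (`SocB.add`), `sqt`: `z_0 z_1 z_2 ∈ R (n+3) 3`, `up` to `n + (p-1)` (`p ≥ 5`), `K3`: `Nt p n ≤ R n 4`; `K5` (`up`, `Nt_le`): `Hh p n 5 ≤ R n 5`, `Kup`.  `l = 3`: `w - s' ∈ R n 3`, `s' ∈ Sq`; `LP.modify`
(with `S' = fun _ _ _ => True`), `NoSq3`.  `l = 4`: `sq22` for `w`.  `l ≥ 5`: `w ∈ R n l`.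
-/

namespace ADQ

open AD ADN ADC

variable {p : ℕ} [Fact p.Prime] {R : ℕ → ℕ → Submodule (ZMod p) (Z p)}

theorem noLP_3_4 (h5 : 5 ≤ p) (h : MS3 p R) {n l : ℕ} (hn : 4 ≤ n) {u w : Z p}
    (hl : LP p R (Soc3 p R) n 3 l u w) : False := by
  have h3 : 3 ≤ p := by omega
  have hm : MS p R := h.toMS
  have hn1 : 1 ≤ n := by omega
  obtain ⟨s, hs, hus⟩ := cub h3 h hn hl.su.hy (hl.su.dd (by omega))
  have hsu : s - u ∈ R n 3 := by
    have := Submodule.neg_mem _ hus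
    rwa [neg_sub] at this
  have hsR : s ∉ R n 3 := fun h1 => hl.nu (by
    have := Submodule.add_mem _ hus h1
    rwa [sub_add_cancel] at this)
  have hs0 : s ≠ 0 := by
    rintro rfl
    exact hsR (Submodule.zero_mem _)
  have hsb : SocB p R n 3 s := by
    have := SocB.add hm hn1 hl.su.toSocB hsu
    rwa [add_sub_cancel] at this
  have h1 := sqt hm hn1 (by omega) hs hs0 hsb
  have h2 : (z 0 * z 1 * z 2 : Z p) ∈ R (n + (p - 1)) 3 := by
    have h4 := hm.up (n' := n + (p - 1)) (by omega) (by omega) h1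
    rwa [Finset.prod_range_succ, Finset.prod_range_succ, Finset.prod_range_one] at h4
  have hN := hm.K3 h3 hn1 h2
  have hK : Hh p n 5 ≤ R n 5 := hm.K5 (by omega) hn1 fun F hF => hm.up hn1 (by omega) (hN hF)
  have hkl := hl.kl
  have hcase : l = 3 ∨ l = 4 ∨ 5 ≤ l := by omega
  rcases hcase with rfl | rfl | h6
  · obtain ⟨s', hs', hws⟩ := cub h3 h hn hl.sw.hy (hl.sw.dd (by omega))
    have hsw : s' - w ∈ R n 3 := by
      have := Submodule.neg_mem _ hws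
      rwa [neg_sub] at this
    have h7 : LP p R (fun _ _ _ => True) n 3 3 s s' := hl.modify hm hsu hsw trivial trivial
    exact hsR (NoSq3 h5 (hm.GAs hn1) hs hs' h7.Lkd)
  · exact hl.nw (sq22 h3 h (by omega) hN hl.sw.hy (hl.sw.dd (by omega)))
  · exact hl.nw (hm.Kup (by omega) hn1 hK h6 hl.sw.hy)

end ADQ
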