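import Pool.Agent.ADQ.Soc33
import Pool.Agent.ADQ.Sq22
import Pool.Agent.ADQ.P1

/-!
# ADQ-NoLP33

`n = 3`, `k = 3`, `p ≥ 5`.  `t = z_0 z_1 z_2`, `G_0 = G3 0 1 2`, `G_1 = G3 1 2 0`, `G_2 = G3 2 0 1`; `rn (swap i j) G_i = - G_j`, `rn (swap i j) G_k = - G_k` for `k ≠ i, j` (`{i,j,k} = {0,1,2}`).  `soc33`: `u ≡ τ t + ∑ a_j G_j`.
`T = ∑ of rn σ` over the six permutations of `0, 1, 2`: `T t = 6 t`, `T G_j = 0`.
`l = 3`: `w ≡ τ' t + ∑ b_j G_j`; `Lkd.rankT` for `T`: `6 τ t ∈ R`, `6 τ' t ∈ R`; so `u ≡ ∑ a_j G_j`, `w ≡ ∑ b_j G_j`: `P1` with the operators `- rn (swap i j)`.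
`l ≥ 4`: (i) `τ t ∉ R 3 3`: `T u ≡ 6 τ t`, `SocB.gact`, `SocB.add`: `t ∈ R 4 3`, `up`, `K3` (`n = 3`): `Nt p 3 ≤ R 3 4`; `l = 4`: `sq22`; `l ≥ 5`: `K5`, `Kup`.  (ii) `τ t ∈ R 3 3`: `u ≡ u' = ∑ a_j G_j`, `SocB p R 3 3 u'`.  If `a_1 ≠ a_2` (or another pair, by symmetry):
`(id + rn (swap 1 2)) u' = (a_1 - a_2) (G_1 - G_2)`, so `ev 1 (G_1 - G_2) = - z_2^2 z_0 ∈ R 4 3`, `z_0^2 z_1 ∈ R 4 3`, `dd 0 1`: `z_1^3 ∈ R 4 3`, `dd 0 2`: `(z_0 - z_2) z_2 z_1`, so `t ∈ R 4 3`: `Hh p 3 3 ⊆ R 4 3`, `K0`, `Kup`.  If all `a_j = a ≠ 0`: `u' = a D3`, `ev 0 D3 = z_1^2 z_2 - z_2^2 z_1 ∈ R 4 3`,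
`dd 1 0`: `(z_1 - z_0) z_0 z_2 ∈ R 4 3`, `ev 1`: `z_0^2 z_2 ∈ R 5 3`, as before `Hh p 3 3 ⊆ R 5 3`, `5 ≤ 3 + (p-1)`, `K0`, `Kup`.
-/

namespace ADQ

open AD ADN ADC

variable {p : ℕ} [Fact p.Prime] {R : ℕ → ℕ → Submodule (ZMod p) (Z p)}

private noncomputable abbrev t3 {p : ℕ} : Z p := z 0 * z 1 * z 2

private noncomputable abbrev sw {p : ℕ} (i j : ℕ) : Z p →ₗ[ZMod p] Z p := (rn (Equiv.swap i j) : Z p →ₐ[ZMod p] Z p).toLinearMap

omit [Fact p.Prime] in
private theorem sw_GA {m i j : ℕ} (hm : 3 ≤ m) (hi : i < 3) (hj : j < 3) : (sw i j : Z p →ₗ[ZMod p] Z p) ∈ GA p m := by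
  refine GA_rn (Equiv.swap i j) fun k hk => ?_
  exact Equiv.swap_apply_of_ne_of_ne (by omega) (by omega)

omit [Fact p.Prime] in
private theorem sw_z (i j k : ℕ) : (rn (Equiv.swap i j)) (z k : Z p) = z (Equiv.swap i j k) := rn_z _ _

omit [Fact p.Prime] in
private theorem sw01_t : (sw 0 1) (t3 : Z p) = t3 := by
  simp only [AlgHom.toLinearMap_apply, map_mul, sw_z]
  rw [show Equiv.swap 0 1 0 = 1 from rfl, show Equiv.swap 0 1 1 = 0 from rfl, show Equiv.swap 0 1 2 = 2 from rfl]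
  ring

omit [Fact p.Prime] in
private theorem sw01_G0 : (sw 0 1) (G3 0 1 2 : Z p) = - G3 1 2 0 := by
  unfold G3
  simp only [AlgHom.toLinearMap_apply, map_mul, map_pow, map_sub, sw_z]
  rw [show Equiv.swap 0 1 0 = 1 from rfl, show Equiv.swap 0 1 1 = 0 from rfl, show Equiv.swap 0 1 2 = 2 from rfl]
  ring

omit [Fact p.Prime] in
private theorem sw01_G1 : (sw 0 1) (G3 1 2 0 : Z p) = - G3 0 1 2 := by
  unfold G3
  simp only [AlgHom.toLinearMap_apply, map_mul, map_pow, map_sub, sw_z]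
  rw [show Equiv.swap 0 1 0 = 1 from rfl, show Equiv.swap 0 1 1 = 0 from rfl, show Equiv.swap 0 1 2 = 2 from rfl]
  ring

omit [Fact p.Prime] in
private theorem sw01_G2 : (sw 0 1) (G3 2 0 1 : Z p) = - G3 2 0 1 := by
  unfold G3
  simp only [AlgHom.toLinearMap_apply, map_mul, map_pow, map_sub, sw_z]
  rw [show Equiv.swap 0 1 0 = 1 from rfl, show Equiv.swap 0 1 1 = 0 from rfl, show Equiv.swap 0 1 2 = 2 from rfl]
  ring

omit [Fact p.Prime] in
private theorem sw01_m01 : (sw 0 1) (z 0 ^ 2 * z 1 : Z p) = z 1 ^ 2 * z 0 := by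
  simp only [AlgHom.toLinearMap_apply, map_mul, map_pow, sw_z]
  rw [show Equiv.swap 0 1 0 = 1 from rfl, show Equiv.swap 0 1 1 = 0 from rfl]

omit [Fact p.Prime] in
private theorem sw01_m02 : (sw 0 1) (z 0 ^ 2 * z 2 : Z p) = z 1 ^ 2 * z 2 := by
  simp only [AlgHom.toLinearMap_apply, map_mul, map_pow, sw_z]
  rw [show Equiv.swap 0 1 0 = 1 from rfl, show Equiv.swap 0 1 2 = 2 from rfl]

omit [Fact p.Prime] in
private theorem sw01_m10 : (sw 0 1) (z 1 ^ 2 * z 0 : Z p) = z 0 ^ 2 * z 1 := by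
  simp only [AlgHom.toLinearMap_apply, map_mul, map_pow, sw_z]
  rw [show Equiv.swap 0 1 1 = 0 from rfl, show Equiv.swap 0 1 0 = 1 from rfl]

omit [Fact p.Prime] in
private theorem sw01_m12 : (sw 0 1) (z 1 ^ 2 * z 2 : Z p) = z 0 ^ 2 * z 2 := by
  simp only [AlgHom.toLinearMap_apply, map_mul, map_pow, sw_z]
  rw [show Equiv.swap 0 1 1 = 0 from rfl, show Equiv.swap 0 1 2 = 2 from rfl]

omit [Fact p.Prime] in
private theorem sw01_m20 : (sw 0 1) (z 2 ^ 2 * z 0 : Z p) = z 2 ^ 2 * z 1 := by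
  simp only [AlgHom.toLinearMap_apply, map_mul, map_pow, sw_z]
  rw [show Equiv.swap 0 1 2 = 2 from rfl, show Equiv.swap 0 1 0 = 1 from rfl]

omit [Fact p.Prime] in
private theorem sw01_m21 : (sw 0 1) (z 2 ^ 2 * z 1 : Z p) = z 2 ^ 2 * z 0 := by
  simp only [AlgHom.toLinearMap_apply, map_mul, map_pow, sw_z]
  rw [show Equiv.swap 0 1 2 = 2 from rfl, show Equiv.swap 0 1 1 = 0 from rfl]

omit [Fact p.Prime] in
private theorem sw12_t : (sw 1 2) (t3 : Z p) = t3 := by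
  simp only [AlgHom.toLinearMap_apply, map_mul, sw_z]
  rw [show Equiv.swap 1 2 0 = 0 from rfl, show Equiv.swap 1 2 1 = 2 from rfl, show Equiv.swap 1 2 2 = 1 from rfl]
  ring

omit [Fact p.Prime] in
private theorem sw12_G0 : (sw 1 2) (G3 0 1 2 : Z p) = - G3 0 1 2 := by
  unfold G3
  simp only [AlgHom.toLinearMap_apply, map_mul, map_pow, map_sub, sw_z]
  rw [show Equiv.swap 1 2 0 = 0 from rfl, show Equiv.swap 1 2 1 = 2 from rfl, show Equiv.swap 1 2 2 = 1 from rfl]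
  ring

omit [Fact p.Prime] in
private theorem sw12_G1 : (sw 1 2) (G3 1 2 0 : Z p) = - G3 2 0 1 := by
  unfold G3
  simp only [AlgHom.toLinearMap_apply, map_mul, map_pow, map_sub, sw_z]
  rw [show Equiv.swap 1 2 0 = 0 from rfl, show Equiv.swap 1 2 1 = 2 from rfl, show Equiv.swap 1 2 2 = 1 from rfl]
  ring

omit [Fact p.Prime] in
private theorem sw12_G2 : (sw 1 2) (G3 2 0 1 : Z p) = - G3 1 2 0 := by
  unfold G3
  simp only [AlgHom.toLinearMap_apply, map_mul, map_pow, map_sub, sw_z]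
  rw [show Equiv.swap 1 2 0 = 0 from rfl, show Equiv.swap 1 2 1 = 2 from rfl, show Equiv.swap 1 2 2 = 1 from rfl]
  ring

omit [Fact p.Prime] in
private theorem sw12_m01 : (sw 1 2) (z 0 ^ 2 * z 1 : Z p) = z 0 ^ 2 * z 2 := by
  simp only [AlgHom.toLinearMap_apply, map_mul, map_pow, sw_z]
  rw [show Equiv.swap 1 2 0 = 0 from rfl, show Equiv.swap 1 2 1 = 2 from rfl]

omit [Fact p.Prime] in
private theorem sw12_m02 : (sw 1 2) (z 0 ^ 2 * z 2 : Z p) = z 0 ^ 2 * z 1 := by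
  simp only [AlgHom.toLinearMap_apply, map_mul, map_pow, sw_z]
  rw [show Equiv.swap 1 2 0 = 0 from rfl, show Equiv.swap 1 2 2 = 1 from rfl]

omit [Fact p.Prime] in
private theorem sw12_m10 : (sw 1 2) (z 1 ^ 2 * z 0 : Z p) = z 2 ^ 2 * z 0 := by
  simp only [AlgHom.toLinearMap_apply, map_mul, map_pow, sw_z]
  rw [show Equiv.swap 1 2 1 = 2 from rfl, show Equiv.swap 1 2 0 = 0 from rfl]

omit [Fact p.Prime] in
private theorem sw12_m12 : (sw 1 2) (z 1 ^ 2 * z 2 : Z p) = z 2 ^ 2 * z 1 := by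
  simp only [AlgHom.toLinearMap_apply, map_mul, map_pow, sw_z]
  rw [show Equiv.swap 1 2 1 = 2 from rfl, show Equiv.swap 1 2 2 = 1 from rfl]

omit [Fact p.Prime] in
private theorem sw12_m20 : (sw 1 2) (z 2 ^ 2 * z 0 : Z p) = z 1 ^ 2 * z 0 := by
  simp only [AlgHom.toLinearMap_apply, map_mul, map_pow, sw_z]
  rw [show Equiv.swap 1 2 2 = 1 from rfl, show Equiv.swap 1 2 0 = 0 from rfl]

omit [Fact p.Prime] in
private theorem sw12_m21 : (sw 1 2) (z 2 ^ 2 * z 1 : Z p) = z 1 ^ 2 * z 2 := by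
  simp only [AlgHom.toLinearMap_apply, map_mul, map_pow, sw_z]
  rw [show Equiv.swap 1 2 2 = 1 from rfl, show Equiv.swap 1 2 1 = 2 from rfl]

omit [Fact p.Prime] in
private theorem sw02_t : (sw 0 2) (t3 : Z p) = t3 := by
  simp only [AlgHom.toLinearMap_apply, map_mul, sw_z]
  rw [show Equiv.swap 0 2 0 = 2 from rfl, show Equiv.swap 0 2 1 = 1 from rfl, show Equiv.swap 0 2 2 = 0 from rfl]
  ring

omit [Fact p.Prime] in
private theorem sw02_G0 : (sw 0 2) (G3 0 1 2 : Z p) = - G3 2 0 1 := by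
  unfold G3
  simp only [AlgHom.toLinearMap_apply, map_mul, map_pow, map_sub, sw_z]
  rw [show Equiv.swap 0 2 0 = 2 from rfl, show Equiv.swap 0 2 1 = 1 from rfl, show Equiv.swap 0 2 2 = 0 from rfl]
  ring

omit [Fact p.Prime] in
private theorem sw02_G1 : (sw 0 2) (G3 1 2 0 : Z p) = - G3 1 2 0 := by
  unfold G3
  simp only [AlgHom.toLinearMap_apply, map_mul, map_pow, map_sub, sw_z]
  rw [show Equiv.swap 0 2 0 = 2 from rfl, show Equiv.swap 0 2 1 = 1 from rfl, show Equiv.swap 0 2 2 = 0 from rfl]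
  ring

omit [Fact p.Prime] in
private theorem sw02_G2 : (sw 0 2) (G3 2 0 1 : Z p) = - G3 0 1 2 := by
  unfold G3
  simp only [AlgHom.toLinearMap_apply, map_mul, map_pow, map_sub, sw_z]
  rw [show Equiv.swap 0 2 0 = 2 from rfl, show Equiv.swap 0 2 1 = 1 from rfl, show Equiv.swap 0 2 2 = 0 from rfl]
  ring

omit [Fact p.Prime] in
private theorem sw02_m01 : (sw 0 2) (z 0 ^ 2 * z 1 : Z p) = z 2 ^ 2 * z 1 := by
  simp only [AlgHom.toLinearMap_apply, map_mul, map_pow, sw_z]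
  rw [show Equiv.swap 0 2 0 = 2 from rfl, show Equiv.swap 0 2 1 = 1 from rfl]

omit [Fact p.Prime] in
private theorem sw02_m02 : (sw 0 2) (z 0 ^ 2 * z 2 : Z p) = z 2 ^ 2 * z 0 := by
  simp only [AlgHom.toLinearMap_apply, map_mul, map_pow, sw_z]
  rw [show Equiv.swap 0 2 0 = 2 from rfl, show Equiv.swap 0 2 2 = 0 from rfl]

omit [Fact p.Prime] in
private theorem sw02_m10 : (sw 0 2) (z 1 ^ 2 * z 0 : Z p) = z 1 ^ 2 * z 2 := by
  simp only [AlgHom.toLinearMap_apply, map_mul, map_pow, sw_z]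
  rw [show Equiv.swap 0 2 1 = 1 from rfl, show Equiv.swap 0 2 0 = 2 from rfl]

omit [Fact p.Prime] in
private theorem sw02_m12 : (sw 0 2) (z 1 ^ 2 * z 2 : Z p) = z 1 ^ 2 * z 0 := by
  simp only [AlgHom.toLinearMap_apply, map_mul, map_pow, sw_z]
  rw [show Equiv.swap 0 2 1 = 1 from rfl, show Equiv.swap 0 2 2 = 0 from rfl]

omit [Fact p.Prime] in
private theorem sw02_m20 : (sw 0 2) (z 2 ^ 2 * z 0 : Z p) = z 0 ^ 2 * z 2 := by
  simp only [AlgHom.toLinearMap_apply, map_mul, map_pow, sw_z]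
  rw [show Equiv.swap 0 2 2 = 0 from rfl, show Equiv.swap 0 2 0 = 2 from rfl]

omit [Fact p.Prime] in
private theorem sw02_m21 : (sw 0 2) (z 2 ^ 2 * z 1 : Z p) = z 0 ^ 2 * z 1 := by
  simp only [AlgHom.toLinearMap_apply, map_mul, map_pow, sw_z]
  rw [show Equiv.swap 0 2 2 = 0 from rfl, show Equiv.swap 0 2 1 = 1 from rfl]

omit [Fact p.Prime] in
private theorem sw01_c1 : (sw 0 1) (z 1 ^ 3 : Z p) = z 0 ^ 3 := by
  simp only [AlgHom.toLinearMap_apply, map_pow, sw_z]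
  rw [show Equiv.swap 0 1 1 = 0 from rfl]

omit [Fact p.Prime] in
private theorem sw12_c1 : (sw 1 2) (z 1 ^ 3 : Z p) = z 2 ^ 3 := by
  simp only [AlgHom.toLinearMap_apply, map_pow, sw_z]
  rw [show Equiv.swap 1 2 1 = 2 from rfl]

/-- all monomials of degree 3 from one of them -/
private theorem allR (h : MS3 p R) {m : ℕ} (hm : 3 ≤ m) (h0 : z 0 ^ 2 * z 1 ∈ R m 3) :
    ∀ F ∈ Hh p 3 3, F ∈ R m 3 := by
  have hs := h.toMS.GAs (n := m) (k := 3) (by omega)
  have g01 := sw_GA (p := p) (m := m) (i := 0) (j := 1) hm (by norm_num) (by norm_num)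
  have g12 := sw_GA (p := p) (m := m) (i := 1) (j := 2) hm (by norm_num) (by norm_num)
  have m01 : z 0 ^ 2 * z 1 ∈ R m 3 := h0
  have m10 : z 1 ^ 2 * z 0 ∈ R m 3 := by
    have := hs _ g01 _ m01
    rwa [sw01_m01] at this
  have m02 : z 0 ^ 2 * z 2 ∈ R m 3 := by
    have := hs _ g12 _ m01
    rwa [sw12_m01] at this
  have m12 : z 1 ^ 2 * z 2 ∈ R m 3 := by
    have := hs _ g01 _ m02
    rwa [sw01_m02] at this
  have m21 : z 2 ^ 2 * z 1 ∈ R m 3 := by
    have := hs _ g12 _ m12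
    rwa [sw12_m12] at this
  have m20 : z 2 ^ 2 * z 0 ∈ R m 3 := by
    have := hs _ g12 _ m10
    rwa [sw12_m10] at this
  have c1 : z 1 ^ 3 ∈ R m 3 := by
    have h1 := h.dd m 3 0 1 (by norm_num) (by omega) (by omega) (by norm_num) _ m01
    rw [dd_two (z_NV (by norm_num))] at h1
    have h2 := (R m 3).sub_mem m10 h1
    rwa [show z 1 ^ 2 * z 0 - (z 0 - z 1) * z 1 * z 1 = (z 1 ^ 3 : Z p) by ring] at h2
  have c0 : z 0 ^ 3 ∈ R m 3 := by
    have := hs _ g01 _ c1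
    rwa [sw01_c1] at this
  have c2 : z 2 ^ 3 ∈ R m 3 := by
    have := hs _ g12 _ c1
    rwa [sw12_c1] at this
  have ct : z 0 * z 1 * z 2 ∈ R m 3 := by
    have h1 := h.dd m 3 0 2 (by norm_num) (by omega) (by omega) (by norm_num) _ m01
    rw [dd_two (z_NV (by norm_num))] at h1
    have h2 := (R m 3).add_mem m21 h1
    rwa [show z 2 ^ 2 * z 1 + (z 0 - z 2) * z 2 * z 1 = (z 0 * z 1 * z 2 : Z p) by ring] at h2
  intro F hF
  obtain ⟨a, b, c, rfl⟩ := exp33 hF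
  unfold E33
  have q := fun (x : ZMod p) (y : Z p) (hy : y ∈ R m 3) => (R m 3).smul_mem x hy
  exact (R m 3).add_mem ((R m 3).add_mem ((R m 3).add_mem ((R m 3).add_mem ((R m 3).add_mem
    ((R m 3).add_mem ((R m 3).add_mem ((R m 3).add_mem ((R m 3).add_mem (q _ _ c0) (q _ _ c1))
    (q _ _ c2)) (q _ _ m01)) (q _ _ m02)) (q _ _ m10)) (q _ _ m12)) (q _ _ m20)) (q _ _ m21)) (q _ _ ct)

private noncomputable def T6 {p : ℕ} : Z p →ₗ[ZMod p] Z p :=
  (LinearMap.id + sw 0 1).comp (LinearMap.id + sw 0 2 + sw 1 2)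

omit [Fact p.Prime] in
private theorem T6_GA : (T6 : Z p →ₗ[ZMod p] Z p) ∈ GA p 3 := by
  refine GA_comp ?_ ?_
  · exact Submodule.add_mem _ (GA_one 3) (sw_GA le_rfl (by norm_num) (by norm_num))
  · exact Submodule.add_mem _ (Submodule.add_mem _ (GA_one 3) (sw_GA le_rfl (by norm_num) (by norm_num)))
      (sw_GA le_rfl (by norm_num) (by norm_num))

private theorem T6_eq (τ a b c : ZMod p) :
    T6 (τ • t3 + (a • G3 0 1 2 + b • G3 1 2 0 + c • G3 2 0 1)) = (6 * τ) • (t3 : Z p) := by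
  have e0 : (LinearMap.id + sw 0 2 + sw 1 2 : Z p →ₗ[ZMod p] Z p) (τ • t3 + (a • G3 0 1 2 + b • G3 1 2 0 + c • G3 2 0 1)) =
      (3 * τ) • (t3 : Z p) - (a + b - c) • G3 2 0 1 - c • G3 0 1 2 - c • G3 1 2 0 := by
    simp only [LinearMap.add_apply, LinearMap.id_apply, map_add, map_smul, sw02_t, sw12_t, sw02_G0, sw02_G1,
      sw02_G2, sw12_G0, sw12_G1, sw12_G2]
    module
  unfold T6
  rw [LinearMap.comp_apply, e0]
  simp only [LinearMap.add_apply, LinearMap.id_apply, map_sub, map_smul, sw01_t, sw01_G0, sw01_G1, sw01_G2]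
  module

/-- three elements -/
private noncomputable def ee {p : ℕ} (i : ℕ) : Z p :=
  if i = 0 then G3 0 1 2 else if i = 1 then G3 1 2 0 else G3 2 0 1

omit [Fact p.Prime] in
private theorem ee0 : (ee 0 : Z p) = G3 0 1 2 := rfl
omit [Fact p.Prime] in
private theorem ee1 : (ee 1 : Z p) = G3 1 2 0 := rfl
omit [Fact p.Prime] in
private theorem ee2 : (ee 2 : Z p) = G3 2 0 1 := rfl

private theorem ee_op (N : Submodule (ZMod p) (Z p)) : ∀ i < 3, ∀ j < 3, i ≠ j → ∃ T ∈ GA p 3,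
    T (ee i) - ee j ∈ N ∧ T (ee j) - ee i ∈ N ∧ ∀ k < 3, k ≠ i → k ≠ j → T (ee k) - ee k ∈ N := by
  have g01 := sw_GA (p := p) (m := 3) (i := 0) (j := 1) le_rfl (by norm_num) (by norm_num)
  have g12 := sw_GA (p := p) (m := 3) (i := 1) (j := 2) le_rfl (by norm_num) (by norm_num)
  have g02 := sw_GA (p := p) (m := 3) (i := 0) (j := 2) le_rfl (by norm_num) (by norm_num)
  have a01 : ((- sw 0 1 : Z p →ₗ[ZMod p] Z p)) ∈ GA p 3 := Submodule.neg_mem _ g01
  have a12 : ((- sw 1 2 : Z p →ₗ[ZMod p] Z p)) ∈ GA p 3 := Submodule.neg_mem _ g12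
  have a02 : ((- sw 0 2 : Z p →ₗ[ZMod p] Z p)) ∈ GA p 3 := Submodule.neg_mem _ g02
  have key : ∀ (T : Z p →ₗ[ZMod p] Z p) (i j k : ℕ), T ∈ GA p 3 → T (ee i) = ee j → T (ee j) = ee i →
      T (ee k) = ee k → (∀ l < 3, l ≠ i → l ≠ j → l = k) → ∃ T ∈ GA p 3,
    T (ee i) - ee j ∈ N ∧ T (ee j) - ee i ∈ N ∧ ∀ k < 3, k ≠ i → k ≠ j → T (ee k) - ee k ∈ N := by
    intro T i j k hT h1 h2 h3 h4
    refine ⟨T, hT, ?_, ?_, ?_⟩
    · rw [h1, sub_self]; exact N.zero_mem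
    · rw [h2, sub_self]; exact N.zero_mem
    · intro l hl h5 h6
      rw [h4 l hl h5 h6, h3, sub_self]; exact N.zero_mem
  intro i hi j hj hij
  have c01 : (- sw 0 1 : Z p →ₗ[ZMod p] Z p) (ee 0) = ee 1 := by
    rw [ee0, ee1, LinearMap.neg_apply, sw01_G0, neg_neg]
  have c10 : (- sw 0 1 : Z p →ₗ[ZMod p] Z p) (ee 1) = ee 0 := by
    rw [ee0, ee1, LinearMap.neg_apply, sw01_G1, neg_neg]
  have c22 : (- sw 0 1 : Z p →ₗ[ZMod p] Z p) (ee 2) = ee 2 := by
    rw [ee2, LinearMap.neg_apply, sw01_G2, neg_neg]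
  have d12 : (- sw 1 2 : Z p →ₗ[ZMod p] Z p) (ee 1) = ee 2 := by
    rw [ee1, ee2, LinearMap.neg_apply, sw12_G1, neg_neg]
  have d21 : (- sw 1 2 : Z p →ₗ[ZMod p] Z p) (ee 2) = ee 1 := by
    rw [ee1, ee2, LinearMap.neg_apply, sw12_G2, neg_neg]
  have d00 : (- sw 1 2 : Z p →ₗ[ZMod p] Z p) (ee 0) = ee 0 := by
    rw [ee0, LinearMap.neg_apply, sw12_G0, neg_neg]
  have f02 : (- sw 0 2 : Z p →ₗ[ZMod p] Z p) (ee 0) = ee 2 := by
    rw [ee0, ee2, LinearMap.neg_apply, sw02_G0, neg_neg]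
  have f20 : (- sw 0 2 : Z p →ₗ[ZMod p] Z p) (ee 2) = ee 0 := by
    rw [ee0, ee2, LinearMap.neg_apply, sw02_G2, neg_neg]
  have f11 : (- sw 0 2 : Z p →ₗ[ZMod p] Z p) (ee 1) = ee 1 := by
    rw [ee1, LinearMap.neg_apply, sw02_G1, neg_neg]
  have hc : (i = 0 ∧ j = 1) ∨ (i = 1 ∧ j = 0) ∨ (i = 1 ∧ j = 2) ∨ (i = 2 ∧ j = 1) ∨ (i = 0 ∧ j = 2) ∨
      (i = 2 ∧ j = 0) := by omega
  rcases hc with ⟨rfl, rfl⟩ | ⟨rfl, rfl⟩ | ⟨rfl, rfl⟩ | ⟨rfl, rfl⟩ | ⟨rfl, rfl⟩ | ⟨rfl, rfl⟩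
  · exact key _ 0 1 2 a01 c01 c10 c22 (by omega)
  · exact key _ 1 0 2 a01 c10 c01 c22 (by omega)
  · exact key _ 1 2 0 a12 d12 d21 d00 (by omega)
  · exact key _ 2 1 0 a12 d21 d12 d00 (by omega)
  · exact key _ 0 2 1 a02 f02 f20 f11 (by omega)
  · exact key _ 2 0 1 a02 f20 f02 f11 (by omega)

private theorem smul_cancel {N : Submodule (ZMod p) (Z p)} {c : ZMod p} (hc : c ≠ 0) {F : Z p} (h : c • F ∈ N) :
    F ∈ N := by
  have := N.smul_mem c⁻¹ h
  rwa [smul_smul, inv_mul_cancel₀ hc, one_smul] at this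

private theorem six_ne (h5 : 5 ≤ p) : (6 : ZMod p) ≠ 0 := by
  intro h
  have hp := (Fact.out : p.Prime)
  have h1 : ((6 : ℕ) : ZMod p) = 0 := by exact_mod_cast h
  rw [ZMod.natCast_eq_zero_iff] at h1
  have h2 : p ≤ 6 := Nat.le_of_dvd (by norm_num) h1
  interval_cases p
  · norm_num at h1
  · norm_num at hp

theorem noLP_3_3 (h5 : 5 ≤ p) (h : MS3 p R) {l : ℕ} {u w : Z p}
    (hl : LP p R (Soc3 p R) 3 3 l u w) : False := by
  have h3 : 3 ≤ p := by omega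
  have h2 : 2 ≤ p := by omega
  have hm := h.toMS
  have hs := hm.GAs (n := 3) (k := 3) (by norm_num)
  obtain ⟨τ, a, hua, -⟩ := soc33 h3 h hl.su.hy (hl.su.dd (by norm_num))
  -- the operator `T6`
  have hT : ∀ (τ : ZMod p) (a : ℕ → ZMod p) (y : Z p),
      y - τ • (z 0 * z 1 * z 2) - (a 0 • G3 0 1 2 + a 1 • G3 1 2 0 + a 2 • G3 2 0 1) ∈ R 3 3 →
      T6 y - (6 * τ) • (z 0 * z 1 * z 2) ∈ R 3 3 := by
    intro τ a y hy
    have h6 := hs _ T6_GA _ hy
    rw [sub_sub, map_sub, T6_eq] at h6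
    exact h6
  rcases Nat.lt_or_ge l 4 with hl4 | hl4
  · -- `l = 3`
    have hl3 : l = 3 := by have := hl.kl; omega
    subst hl3
    obtain ⟨τ', b, hwb, -⟩ := soc33 h3 h hl.sw.hy (hl.sw.dd (by norm_num))
    have hk := hl.Lkd
    have h7 := hk.rankT T6_GA (hT τ a u hua) (hT τ' b w hwb)
    have h8 : ∀ (τ : ZMod p) (y : Z p), T6 y - (6 * τ) • (z 0 * z 1 * z 2) ∈ R 3 3 → T6 y ∈ R 3 3 →
        τ • (z 0 * z 1 * z 2) ∈ R 3 3 := by
      intro τ y h9 h10
      have h11 := (R 3 3).sub_mem h10 h9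
      rw [sub_sub_cancel, mul_smul] at h11
      exact smul_cancel (six_ne h5) h11
    have hu0 := h8 τ u (hT τ a u hua) h7.1
    have hw0 := h8 τ' w (hT τ' b w hwb) h7.2
    have hu1 : u - ∑ i ∈ Finset.range 3, a i • ee i ∈ R 3 3 := by
      have h9 := (R 3 3).add_mem hua hu0
      rw [Finset.sum_range_succ, Finset.sum_range_succ, Finset.sum_range_succ, Finset.sum_range_zero, zero_add,
        ee0, ee1, ee2]
      rwa [show u - τ • (z 0 * z 1 * z 2) - (a 0 • G3 0 1 2 + a 1 • G3 1 2 0 + a 2 • G3 2 0 1) +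
        τ • (z 0 * z 1 * z 2) = u - (a 0 • G3 0 1 2 + a 1 • G3 1 2 0 + a 2 • G3 2 0 1) by abel] at h9
    have hw1 : w - ∑ i ∈ Finset.range 3, b i • ee i ∈ R 3 3 := by
      have h9 := (R 3 3).add_mem hwb hw0
      rw [Finset.sum_range_succ, Finset.sum_range_succ, Finset.sum_range_succ, Finset.sum_range_zero, zero_add,
        ee0, ee1, ee2]
      rwa [show w - τ' • (z 0 * z 1 * z 2) - (b 0 • G3 0 1 2 + b 1 • G3 1 2 0 + b 2 • G3 2 0 1) +
        τ' • (z 0 * z 1 * z 2) = w - (b 0 • G3 0 1 2 + b 1 • G3 1 2 0 + b 2 • G3 2 0 1) by abel] at h9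
    exact hl.nu (P1 hs (ee_op (R 3 3)) hu1 hw1 hk)
  · -- `l ≥ 4`
    -- it is enough that all monomials of degree 3 are in `R m 3` for some `m ≤ 3 + (p - 1)`
    have fin1 : ∀ m, 1 ≤ m → m ≤ 3 + (p - 1) → (∀ F ∈ Hh p 3 3, F ∈ R m 3) → False := by
      intro m hm1 hm2 hF
      have h6 : Hh p 3 (3 + 1) ≤ R 3 (3 + 1) :=
        hm.K0 h2 (by norm_num) fun F hF3 => hm.up hm1 hm2 (hF F hF3)
      exact hl.nw (hm.Kup h2 (by norm_num) h6 hl4 hl.sw.hy)
    by_cases ht : τ • (z 0 * z 1 * z 2) ∈ R 3 3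
    · -- (ii)
      have hsu : SocB p R 3 3 (a 0 • G3 0 1 2 + a 1 • G3 1 2 0 + a 2 • G3 2 0 1) := by
        have h6 := hl.su.toSocB.add hm (by norm_num) ((R 3 3).neg_mem ((R 3 3).add_mem hua ht))
        rwa [show u + -(u - τ • (z 0 * z 1 * z 2) - (a 0 • G3 0 1 2 + a 1 • G3 1 2 0 + a 2 • G3 2 0 1) +
          τ • (z 0 * z 1 * z 2)) = a 0 • G3 0 1 2 + a 1 • G3 1 2 0 + a 2 • G3 2 0 1 by abel] at h6
      have ga : ∀ (c : ZMod p), c ≠ 0 → ∀ i j, i < 3 → j < 3 → ∀ F G : Z p,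
          (LinearMap.id + sw i j : Z p →ₗ[ZMod p] Z p)
            (a 0 • G3 0 1 2 + a 1 • G3 1 2 0 + a 2 • G3 2 0 1) = c • F → ev i F = - G → G ∈ R 4 3 := by
        intro c hc i j hi hj F G e1 e2
        have h6 := hsu.gact hm (by norm_num) (T := LinearMap.id + sw i j)
          (Submodule.add_mem _ (GA_one 3) (sw_GA le_rfl hi hj))
        rw [e1] at h6
        have h7 := h6.zer i hi
        rw [map_smul, e2, smul_neg, ← neg_smul] at h7
        exact smul_cancel (neg_ne_zero.2 hc) h7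
      have g4 := hm.GAs (n := 4) (k := 3) (by norm_num)
      have q12 := sw_GA (p := p) (m := 4) (i := 1) (j := 2) (by norm_num) (by norm_num) (by norm_num)
      have q01 := sw_GA (p := p) (m := 4) (i := 0) (j := 1) (by norm_num) (by norm_num) (by norm_num)
      by_cases h12 : a 1 = a 2
      · by_cases h01 : a 0 = a 1
        · -- all equal
          by_cases ha : a 0 = 0
          · have h6 : u ∈ R 3 3 := by
              have h7 := (R 3 3).add_mem hua ht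
              rw [← h12, ← h01, ha, zero_smul, zero_smul, zero_smul, add_zero, add_zero, sub_zero,
                sub_add_cancel] at h7
              exact h7
            exact hl.nu h6
          · rw [← h12, ← h01] at hsu
            have h6 := hsu.zer 0 (by norm_num)
            have h7 : (ev 0 (a 0 • G3 0 1 2 + a 0 • G3 1 2 0 + a 0 • G3 2 0 1) : Z p) =
                a 0 • (z 1 ^ 2 * z 2 - z 2 ^ 2 * z 1) := by
              unfold G3
              simp only [map_add, map_smul, map_mul, map_pow, map_sub, ev_z]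
              norm_num
              module
            rw [h7] at h6
            have h8 := smul_cancel ha h6
            have h9 := h.dd 4 3 1 0 (by norm_num) (by norm_num) (by norm_num) (by norm_num) _ h8
            rw [map_sub, dd_two (z_NV (by norm_num)), mul_comm (z 2 ^ 2) (z 1),
              dd_one (Subalgebra.pow_mem _ (z_NV (by norm_num)) 2), sub_zero] at h9
            have h10 := hm.zer 4 3 1 (by norm_num) _ h9
            have h11 : (ev 1 ((z 1 - z 0) * z 0 * z 2) : Z p) = - (z 0 ^ 2 * z 2) := by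
              simp only [map_mul, map_sub, ev_z]
              norm_num
              ring
            rw [h11] at h10
            have h12 : z 0 ^ 2 * z 2 ∈ R 5 3 := by
              have := (R (4 + 1) 3).neg_mem h10
              rwa [neg_neg] at this
            have g5 := hm.GAs (n := 5) (k := 3) (by norm_num)
            have q5 := sw_GA (p := p) (m := 5) (i := 1) (j := 2) (by norm_num) (by norm_num) (by norm_num)
            have h13 := g5 _ q5 _ h12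
            rw [sw12_m02] at h13
            exact fin1 5 (by norm_num) (by omega) (allR h (by norm_num) h13)
        · -- `a 0 ≠ a 1`
          have h6 : z 1 ^ 2 * z 2 ∈ R 4 3 := by
            refine ga (a 0 - a 1) (sub_ne_zero.2 h01) 0 1 (by norm_num) (by norm_num) (G3 0 1 2 - G3 1 2 0) _ ?_ ?_
            · simp only [LinearMap.add_apply, LinearMap.id_apply, map_add, map_smul, sw01_G0, sw01_G1, sw01_G2]
              module
            · unfold G3
              simp only [map_mul, map_pow, map_sub, ev_z]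
              norm_num
          have h7 := g4 _ q01 _ h6
          rw [sw01_m12] at h7
          have h8 := g4 _ q12 _ h7
          rw [sw12_m02] at h8
          exact fin1 4 (by norm_num) (by omega) (allR h (by norm_num) h8)
      · -- `a 1 ≠ a 2`
        have h6 : z 2 ^ 2 * z 0 ∈ R 4 3 := by
          refine ga (a 1 - a 2) (sub_ne_zero.2 h12) 1 2 (by norm_num) (by norm_num) (G3 1 2 0 - G3 2 0 1) _ ?_ ?_
          · simp only [LinearMap.add_apply, LinearMap.id_apply, map_add, map_smul, sw12_G0, sw12_G1, sw12_G2]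
            module
          · unfold G3
            simp only [map_mul, map_pow, map_sub, ev_z]
            norm_num
        have h7 := g4 _ q12 _ h6
        rw [sw12_m20] at h7
        have h8 := g4 _ q01 _ h7
        rw [sw01_m10] at h8
        exact fin1 4 (by norm_num) (by omega) (allR h (by norm_num) h8)
    · -- (i)
      have hτ : τ ≠ 0 := by
        rintro rfl
        exact ht (by rw [zero_smul]; exact (R 3 3).zero_mem)
      have h6 := (hl.su.toSocB.gact hm (by norm_num) T6_GA).add hm (by norm_num) ((R 3 3).neg_mem (hT τ a u hua))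
      rw [show T6 u + -(T6 u - (6 * τ) • (z 0 * z 1 * z 2)) = (6 * τ) • (z 0 * z 1 * z 2) by abel] at h6
      have h7 : z 0 * z 1 * z 2 ∈ R 4 3 := smul_cancel (mul_ne_zero (six_ne h5) hτ) h6.ext
      have hN : ∀ n, 1 ≤ n → 4 ≤ n + (p - 1) → Nt p n ≤ R n 4 := fun n hn hn4 =>
        hm.K3 h3 hn (hm.up (by norm_num) hn4 h7)
      rcases Nat.lt_or_ge l 5 with h8 | h8
      · have h9 : l = 4 := by omega
        subst h9
        exact hl.nw (sq22 h3 h le_rfl (hN 3 (by norm_num) (by omega)) hl.sw.hy (hl.sw.dd le_rfl))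
      · have h9 : Nt p 3 ≤ R (3 + (p - 1)) 4 :=
          (Nt_le (by omega)).trans (hN (3 + (p - 1)) (by omega) (by omega))
        have h10 := hm.K5 h2 (n := 3) (by norm_num) h9
        exact hl.nw (hm.Kup h2 (by norm_num) h10 h8 hl.sw.hy)

end ADQ
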