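import Pool.Agent.ADQ.NoLP01
import Pool.Agent.ADQ.NoLP2
import Pool.Agent.ADQ.NoLP3
import Pool.Agent.ADQ.NoLP32
import Pool.Agent.ADQ.NoLP33
import Pool.Agent.ADQ.FvX
import Pool.Agent.ADQ.N4b
import Pool.Agent.ADQ.N4c
import Pool.Agent.ADQ.N3b
import Pool.Agent.ADQ.N2

/-!
# ADQ-ThA5

No leading pairs for `p ≥ 5`: assembly.
-/

namespace ADQ

open AD ADN ADC

variable {p : ℕ} [Fact p.Prime] {R : ℕ → ℕ → Submodule (ZMod p) (Z p)}

theorem ThA5 (h5 : 5 ≤ p) (h : MS3 p R) {y : Z p} (hR : y ∈ R 3 4) (hK : y ∉ K4 p) {n k l : ℕ} {u w : Z p}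
    (hl : LP p R (Soc3 p R) n k l u w) : False := by
  have hp2 : 2 ≤ p := by omega
  have h3 : 3 ≤ p := by omega
  have hlB : LP p R (SocB p R) n k l u w := hl.mono fun _ _ _ hy => hy.toSocB
  have n1 := hl.n1
  have kl := hl.kl
  rcases Nat.lt_or_ge k 4 with hk | hk
  · interval_cases k
    · exact noLP_0 h.toMS hlB
    · exact noLP_1 h.toMS hlB
    · exact noLP_2 h3 h hl
    · rcases Nat.lt_or_ge n 4 with hn | hn
      · interval_cases n
        · exact noLP_n1 h.toMS hlB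
        · exact noLP_3_2 h3 h hl
        · exact noLP_3_3 h5 h hl
      · exact noLP_3_4 h5 h hn hl
  · obtain ⟨α, μ, hv, hf⟩ := exists_fv h5 h hR hK
    have hq := qvR h hf
    have hN5 := nt5 h5 h hv hq
    have hN : ∀ m, 5 ≤ m → Nt p m ≤ R m 4 := fun m hm => MS.NtUp h.toMS hm hN5
    have hH : Hh p n 5 ≤ R n 5 :=
      MS.K5 h.toMS hp2 n1 ((Nt_le (by omega)).trans (hN (n + (p - 1)) (by omega)))
    have hl4 : l ≤ 4 := by
      by_contra hne
      exact hl.nw (MS.Kup h.toMS hp2 n1 hH (by omega) hl.sw.hy)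
    obtain rfl : k = 4 := by omega
    obtain rfl : l = 4 := by omega
    rcases Nat.lt_or_ge n 5 with hn | hn
    · interval_cases n
      · exact noLP_n1 h.toMS hlB
      · exact noLP_4_2 h3 h hl
      · exact noLP_4_3 h5 h hv hf hl
      · rcases n4t h5 h hv hq with h0 | h0 | h0
        · exact hl.nu (sq22 h3 h (by omega) h0 hl.su.hy (hl.su.dd le_rfl))
        · obtain ⟨c, hc⟩ := n4b1 h5 h h0 hl.su.hy (hl.su.dd le_rfl)
          obtain ⟨c', hc'⟩ := n4b1 h5 h h0 hl.sw.hy (hl.sw.dd le_rfl)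
          exact hl.rank1 hc hc'
        · exact hl.nu (n4b2 h5 h h0 hl.su.hy (hl.su.dd le_rfl))
    · exact hl.nu (sq22 h3 h (by omega) (hN n hn) hl.su.hy (hl.su.dd le_rfl))

end ADQ
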