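import Pool.Agent.ADQ.Defs

/-!
# ADQ-TOz: the projection to the words `zw p n` maps T-ideals into themselves

`zw p n` is `qw p n` for `p ≥ 3`; for `p = 2` it says that exactly the letters `< n` occur.
-/

namespace ADQ

open AD ADN ADC

theorem TO_of_TOp {p : ℕ} {Φ : P →ₗ[ℤ] P} (h : TOp p Φ) : TO p Φ :=
  fun D hD hm f hf => h D hD hm.sq f hf

theorem zw_iff_qw {p : ℕ} (h3 : 3 ≤ p) (n : ℕ) (w : List ℕ) : zw p n w ↔ qw p n w := by
  refine and_congr Iff.rfl (forall_congr' fun i => forall_congr' fun _ => ?_)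
  constructor
  · rintro ⟨h1, t, ht⟩
    have h2 : w.count i = 1 + (p - 1) * t := by omega
    rw [h2, Nat.add_mul_mod_self_left, Nat.mod_eq_of_lt (by omega)]
  · intro h
    have h1 := Nat.div_add_mod (w.count i) (p - 1)
    rw [h] at h1
    exact ⟨by omega, w.count i / (p - 1), by omega⟩

theorem TOp_zw {p : ℕ} (hp : p.Prime) (n : ℕ) : TOp p (wp (zw p n)) := by
  by_cases h3 : 3 ≤ p
  · rw [wp_congr (zw_iff_qw h3 n)]
    exact TOp_qw hp h3 n
  · have h2 : p = 2 := by
      have := hp.two_le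
      omega
    subst h2
    have h1 : wp (zw 2 n) = (wp (fun w => ∀ i ∈ w, i < n)).comp (wp (fun w => ∀ i < n, i ∈ w)) := by
      ext f
      rw [LinearMap.comp_apply, wp_wp]
      rw [wp_congr (φ := zw 2 n) (ψ := fun w => (∀ i ∈ w, i < n) ∧ ∀ i < n, i ∈ w)]
      intro w
      refine and_congr Iff.rfl (forall_congr' fun i => forall_congr' fun _ => ?_)
      constructor
      · rintro ⟨h, _⟩
        exact List.count_pos_iff.1 h
      · intro h
        exact ⟨List.count_pos_iff.2 h, one_dvd _⟩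
    rw [h1]
    exact (TOp_lt 2 n).comp (TOp_full 2 n)

theorem TO_zw {p : ℕ} (hp : p.Prime) (n : ℕ) : TO p (wp (zw p n)) := TO_of_TOp (TOp_zw hp n)

theorem ZQ_iff {p n : ℕ} {f : P} : f ∈ ZQ p n ↔ wp (zw p n) f = f :=
  ⟨fun h => wp_id h, fun h => h ▸ wp_mem (zw p n) f⟩

end ADQ
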