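import Pool.Agent.ADQ.OprR
import Pool.Agent.ADQ.TOz
import Pool.Agent.ADQ.Defs2

/-!
# ADQ-ZLead

Let `f ∈ I ∩ ZQ p 3`, `f_k` = the part of `f` of length `3 + (p-1) k`, in `HQ p 3 k`.  For `k < q`: `f_k ∈ I ⊔ Fge (3 + (p-1) q + 1)`, by induction on `k`:
`f - ∑_{j<k} f_j = f_k + (longer words)`, so `f_k ∈ I ⊔ Fge (3 + (p-1) k + 1)`, `zi p 3 f_k ∈ RR p I 3 k` (`zi_mem_RR`) is 0 (`hlow`), and `zi_ker` with `c = (p-1)(q+1)` applies.
For `k = q` the same argument shows `zi p 3 f_q ∈ RR p I 3 q`.
-/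

namespace ADQ

open AD ADN ADC

/-- the part of length `3 + (p-1) k` -/
private noncomputable def zl_F (p k : ℕ) (f : P) : P := wp (fun w => w.length = 3 + (p - 1) * k) f

private theorem zl_HQ {p k : ℕ} {f : P} (hz : f ∈ ZQ p 3) : zl_F p k f ∈ HQ p 3 k := by
  unfold zl_F
  unfold ZQ at hz
  induction hz using Submodule.span_induction with
  | mem x hx =>
    obtain ⟨w, hw, rfl⟩ := hx
    by_cases hl : w.length = 3 + (p - 1) * k
    · rw [wp_pos (φ := fun w : List ℕ => w.length = 3 + (p - 1) * k) hl]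
      exact Submodule.subset_span ⟨w, hw, hl, rfl⟩
    · rw [wp_neg (φ := fun w : List ℕ => w.length = 3 + (p - 1) * k) hl]
      exact Submodule.zero_mem _
  | zero => rw [map_zero]; exact Submodule.zero_mem _
  | add x y _ _ hx hy => rw [map_add]; exact Submodule.add_mem _ hx hy
  | smul c x _ hx => rw [map_smul]; exact Submodule.smul_mem _ _ hx

private theorem zl_sum {p : ℕ} (hp : 2 ≤ p) (K : ℕ) {f : P} (hz : f ∈ ZQ p 3) :
    f - ∑ j ∈ Finset.range K, zl_F p j f ∈ Fge (3 + (p - 1) * K) := by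
  unfold zl_F
  unfold ZQ at hz
  induction hz using Submodule.span_induction with
  | mem x hx =>
    obtain ⟨w, hw, rfl⟩ := hx
    have h1 := zw_length hp hw
    by_cases hd : (zx p 3 w).degree < K
    · have h2 : ∑ j ∈ Finset.range K, wp (fun w => w.length = 3 + (p - 1) * j) (mon w) = mon w := by
        rw [Finset.sum_eq_single (zx p 3 w).degree]
        · exact wp_pos (φ := fun w : List ℕ => w.length = 3 + (p - 1) * (zx p 3 _).degree) h1
        · intro j _ hj
          refine wp_neg (φ := fun w : List ℕ => w.length = 3 + (p - 1) * j) ?_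
          intro h3
          apply hj
          refine Nat.eq_of_mul_eq_mul_left (show 0 < p - 1 by omega) ?_
          omega
        · intro h3
          exact absurd (Finset.mem_range.2 hd) h3
      rw [h2, sub_self]
      exact Submodule.zero_mem _
    · have h2 : ∑ j ∈ Finset.range K, wp (fun w => w.length = 3 + (p - 1) * j) (mon w) = 0 := by
        refine Finset.sum_eq_zero fun j hj => ?_
        refine wp_neg (φ := fun w : List ℕ => w.length = 3 + (p - 1) * j) ?_
        intro h3
        apply hd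
        have h4 : (zx p 3 w).degree = j := by
          refine Nat.eq_of_mul_eq_mul_left (show 0 < p - 1 by omega) ?_
          omega
        rw [h4]
        exact Finset.mem_range.1 hj
      rw [h2, sub_zero]
      refine Submodule.subset_span ⟨w, ?_, rfl⟩
      have h3 : (p - 1) * K ≤ (p - 1) * (zx p 3 w).degree := Nat.mul_le_mul_left _ (by omega)
      omega
  | zero =>
    have h2 : ∑ j ∈ Finset.range K, wp (fun w => w.length = 3 + (p - 1) * j) (0 : P) = 0 :=
      Finset.sum_eq_zero fun j _ => map_zero _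
    rw [h2, sub_zero]
    exact Submodule.zero_mem _
  | add x y _ _ hx hy =>
    have h2 : ∑ j ∈ Finset.range K, wp (fun w => w.length = 3 + (p - 1) * j) (x + y) =
        ∑ j ∈ Finset.range K, wp (fun w => w.length = 3 + (p - 1) * j) x +
          ∑ j ∈ Finset.range K, wp (fun w => w.length = 3 + (p - 1) * j) y := by
      rw [← Finset.sum_add_distrib]
      exact Finset.sum_congr rfl fun j _ => map_add _ _ _
    rw [h2, add_sub_add_comm]
    exact Submodule.add_mem _ hx hy
  | smul c x _ hx =>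
    have h2 : ∑ j ∈ Finset.range K, wp (fun w => w.length = 3 + (p - 1) * j) (c • x) =
        c • ∑ j ∈ Finset.range K, wp (fun w => w.length = 3 + (p - 1) * j) x := by
      rw [Finset.smul_sum]
      exact Finset.sum_congr rfl fun j _ => map_smul _ _ _
    rw [h2, ← smul_sub]
    exact Submodule.smul_mem _ _ hx

/-- one step of the induction -/
private theorem zl_step {p : ℕ} (hp : 2 ≤ p) {I : Submodule ℤ P} {q k : ℕ} (hk : k ≤ q) {f : P} (hf : f ∈ I)
    (hz : f ∈ ZQ p 3) (ih : ∀ j < k, zl_F p j f ∈ I ⊔ Fge (3 + (p - 1) * q + 1)) :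
    zl_F p k f ∈ I ⊔ Fge (3 + (p - 1) * k + 1) := by
  have h1 := zl_sum hp (k + 1) hz
  rw [Finset.sum_range_succ] at h1
  have hqk : (p - 1) * k ≤ (p - 1) * q := Nat.mul_le_mul_left _ hk
  have h2 : f - (∑ j ∈ Finset.range k, zl_F p j f + zl_F p k f) ∈ I ⊔ Fge (3 + (p - 1) * k + 1) := by
    refine Submodule.mem_sup_right (Fge_anti ?_ h1)
    rw [Nat.mul_add]
    omega
  have h3 : ∑ j ∈ Finset.range k, zl_F p j f ∈ I ⊔ Fge (3 + (p - 1) * k + 1) :=
    Submodule.sum_mem _ fun j hj =>
      (sup_le_sup_left (Fge_anti (by omega)) I) (ih j (Finset.mem_range.1 hj))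
  have h4 : f ∈ I ⊔ Fge (3 + (p - 1) * k + 1) := Submodule.mem_sup_left hf
  have h5 := Submodule.sub_mem _ (Submodule.sub_mem _ h4 h3) h2
  have e : f - ∑ j ∈ Finset.range k, zl_F p j f -
      (f - (∑ j ∈ Finset.range k, zl_F p j f + zl_F p k f)) = zl_F p k f := by
    abel
  rwa [e] at h5

theorem zlead {p : ℕ} [Fact p.Prime] (h2 : 2 ≤ p) {I : Submodule ℤ P} (h : NC p I) {q : ℕ}
    (hlow : ∀ k < q, RR p I 3 k ≤ ⊥) (hcom : cm 0 1 ∈ I ⊔ Fge (2 + (p - 1) * (q + 1))) {f : P} (hf : f ∈ I)
    (hz : f ∈ ZQ p 3) : zi p 3 (wp (fun w => w.length = 3 + (p - 1) * q) f) ∈ RR p I 3 q := by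
  have key : ∀ k, k ≤ q → ∀ j < k, zl_F p j f ∈ I ⊔ Fge (3 + (p - 1) * q + 1) := by
    intro k
    induction k with
    | zero => intro _ j hj; omega
    | succ k ih =>
      intro hk j hj
      have ih' := ih (by omega)
      rcases (by omega : j < k ∨ j = k) with h1 | rfl
      · exact ih' j h1
      · have h3 := zl_step h2 (by omega) hf hz ih'
        have h4 := zi_mem_RR (zl_HQ hz) h3
        have h5 := (Submodule.mem_bot _).1 (hlow j (by omega) h4)
        have hcom' : cm 0 1 ∈ I ⊔ Fge ((p - 1) * (q + 1) + 2) := by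
          rw [Nat.add_comm]
          exact hcom
        have h6 := zi_ker h.isT h.mul hcom' (by norm_num) (zl_HQ hz) h5
        refine (sup_le_sup_left (Fge_anti ?_) I) h6
        rw [Nat.mul_add (p - 1) q 1]
        omega
  exact zi_mem_RR (zl_HQ hz) (zl_step h2 le_rfl hf hz (key q le_rfl))

end ADQ
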