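import Pool.Agent.ADQ.HHigh
import Pool.Agent.ADQ.ZLead
import Pool.Agent.ADQ.CzF
import Pool.Agent.ADQ.EpsK
import Pool.Agent.ADQ.TPx
import Pool.Agent.ADQ.SocA
import Pool.Agent.ADQ.LPx
import Pool.Agent.ADQ.ThA5
import Pool.Agent.ADQ.ThA3

/-!
# ADQ-Near3

(1) `hK`: `5 ≤ p → RR p I 3 4 ≤ K4 p`: otherwise there is `y ∈ RR p I 3 4`, `y ∉ K4 p`; `exists_TP`, `TP.LP` with `soc3` for `a` (`A`, `oA`) and for `b` (`B`, `oB`; `Lk` gives `IsT`, and `Mul p` since `I ≤ A, B`), `RR_MS3`, `ThA5`: contradiction.  `p = 3`: `ThA3`.  (2) `comHigh`, `low5`/`low3` (`RR 3 k ≤ ⊥` for `k < qq p`).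
(3) For `g ∈ I`: `f = fCz p g ∈ I ∩ ZQ p 3` (a substitution and `TO_zw`), `zlead`, `epsK4`/`epsK3`, `czf`: `2 cS p g ∈ KW p`, `2 ≠ 0`, `kwc`: `g ∈ ADP.KC p`; `ADP.le_LT`.
-/

namespace ADQ

open AD ADN ADC

private theorem nr_two {p : ℕ} (h3 : 3 ≤ p) : (2 : ZMod p) ≠ 0 := by
  intro h
  have h1 : ((2 : ℕ) : ZMod p) = 0 := by exact_mod_cast h
  have h2 := (ZMod.natCast_eq_zero_iff 2 p).1 h1
  have h4 := Nat.le_of_dvd (by norm_num) h2
  omega

private theorem nr_final {p : ℕ} (hp : p.Prime) (h3 : 3 ≤ p) {I : Submodule ℤ P} (hN : NC p I)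
    (hlow : ∀ k < qq p, RR p I 3 k ≤ ⊥) (hcom : cm 0 1 ∈ I ⊔ Fge (2 + (p - 1) * (qq p + 1)))
    (hK : ∀ F ∈ RR p I 3 (qq p), eps p F ∈ KW p) : I ≤ ADP.CP p := by
  haveI : Fact p.Prime := ⟨hp⟩
  refine ADP.le_LT hN.isT fun g hg => kwc h3 ?_
  have hf : fCz p g ∈ I := by
    refine TO_zw hp 3 I hN.isT hN.mul _ ?_
    refine sb_mem hN.isT (fun i => ?_) hg
    by_cases h0 : i = 0
    · rw [if_pos h0]
      exact Submodule.add_mem _ (X_mem 0) (X_mem 1)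
    · rw [if_neg h0]
      by_cases h1 : i = 1
      · rw [if_pos h1]
        exact X_mem 2
      · rw [if_neg h1]
        exact Submodule.zero_mem _
  have hz : fCz p g ∈ ZQ p 3 := wp_mem (zw p 3) _
  have h1 := hK _ (zlead (by omega) hN hlow hcom hf hz)
  rw [czf hp h3 g] at h1
  have h2 := (KW p).smul_mem (2 : ZMod p)⁻¹ h1
  rwa [smul_smul, inv_mul_cancel₀ (nr_two h3), one_smul] at h2

theorem near3 {p : ℕ} (hp : p.Prime) (h3 : 3 ≤ p) {I : Submodule ℤ P} (hI : AlmDist I) (hm : Mul p I)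
    (hc : cm 0 1 ∈ I ⊔ Fge (p + 1)) : I ≤ ADP.CP p := by
  haveI : Fact p.Prime := ⟨hp⟩
  have hN : NC p I := { pp := hp, isT := hI.1, mul := hm, nil := nil_of_alm hI, com := hc }
  obtain ⟨A, B, C, n, k, l, a, b, f, g, hT⟩ := exists_TP hN hI
  have hmA : Mul p A := fun f hf => hT.lk.IA (hm f hf)
  have hmB : Mul p B := fun f hf => hT.lk.IB (hm f hf)
  have sa := soc3 h3 hN hT.lk.hA hmA hT.n1 hT.oA hT.ln.1 hT.aZ hT.aA hT.hf hT.af
  have sb := soc3 h3 hN hT.lk.hB hmB hT.n1 hT.oB hT.ln.2.1 hT.bZ hT.bA hT.hg hT.bg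
  have hLP := TP.LP hT (S := Soc3 p (RR p I)) sa sb
  have hR := RR_MS3 h3 hN
  have hK5 : 5 ≤ p → RR p I 3 4 ≤ K4 p := by
    intro h5 y hy
    by_contra hyK
    exact ThA5 h5 hR hy hyK hLP
  have hK3 : p = 3 → RR p I 3 3 ≤ K3 p := by
    intro e y hy
    subst e
    by_contra hyK
    exact ThA3 hR hy hyK hLP
  have hcom := comHigh h3 hN hK5 hK3
  by_cases e : p = 3
  · subst e
    refine nr_final hp h3 hN (fun k hk => ?_) hcom (fun F hF => epsK3 (hK3 rfl hF))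
    have hk2 : k < 3 := hk
    exact (low3 hR (hK3 rfl)).2 k (by omega)
  · have hp4 : p ≠ 4 := by
      rintro rfl
      exact absurd hp (by decide)
    have h5 : 5 ≤ p := by omega
    have hq : qq p = 4 := if_neg e
    refine nr_final hp h3 hN (fun k hk => ?_) hcom (fun F hF => ?_)
    · rw [hq] at hk
      exact (low5 h5 hR (hK5 h5)).2 k (by omega)
    · rw [hq] at hF
      exact epsK4 h5 (hK5 h5 hF)

end ADQ
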