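import Pool.Agent.AD.FinRing
import Pool.Agent.AD.Trans
import Pool.Agent.ADC.Bas

/-!
# ADQ-Gen: the ring `P⁺ / J`, `J` the largest ideal contained in an additive subgroup `K`
-/

namespace ADQ

open AD ADN ADC

/-- the free ring without identity -/
def FreeRing : NonUnitalSubring P where
  carrier := {f | aug f = 0}
  add_mem' := fun {a b} ha hb => by
    have h1 : aug a = 0 := ha
    have h2 : aug b = 0 := hb
    show aug (a + b) = 0
    rw [map_add, h1, h2, add_zero]
  zero_mem' := map_zero _
  neg_mem' := fun {a} ha => by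
    have h1 : aug a = 0 := ha
    show aug (-a) = 0
    rw [map_neg, h1, neg_zero]
  mul_mem' := fun {a b} ha _ => by
    have h1 : aug a = 0 := ha
    show aug (a * b) = 0
    rw [map_mul, h1, zero_mul]

/-- `f ~ g` if `u (f - g) v ∈ K` for all polynomials `u`, `v` -/
def syn (K : AddSubgroup P) : RingCon FreeRing where
  r f g := ∀ u v : P, u * ((f : P) - (g : P)) * v ∈ K
  iseqv := ⟨fun a u v => by rw [sub_self, mul_zero, zero_mul]; exact K.zero_mem,
    fun {a b} h u v => by
      rw [← neg_sub, mul_neg, neg_mul]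
      exact K.neg_mem (h u v),
    fun {a b c} h h' u v => by
      have := K.add_mem (h u v) (h' u v)
      rwa [← add_mul, ← mul_add, sub_add_sub_cancel] at this⟩
  add' := fun {a b c d} h h' u v => by
    have := K.add_mem (h u v) (h' u v)
    have e : ((a + c : FreeRing) : P) - ((b + d : FreeRing) : P) = ((a : P) - b) + ((c : P) - d) := by
      push_cast; abel
    rw [e, mul_add, add_mul]
    exact this
  mul' := fun {a b c d} h h' u v => by
    have e : ((a * c : FreeRing) : P) - ((b * d : FreeRing) : P) =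
        ((a : P) - b) * (c : P) + (b : P) * ((c : P) - d) := by
      push_cast; noncomm_ring
    have := K.add_mem (h u ((c : P) * v)) (h' (u * (b : P)) v)
    have e2 : u * (((a : P) - b) * (c : P) + (b : P) * ((c : P) - d)) * v =
        u * ((a : P) - b) * ((c : P) * v) + u * (b : P) * ((c : P) - d) * v := by
      simp only [mul_add, add_mul, mul_assoc]
    rw [e, e2]
    exact this

/-- the quotient of the free ring by the largest ideal contained in `K` -/
def Quo (K : AddSubgroup P) : RingObj := ⟨(syn K).Quotient, inferInstance⟩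

private theorem gn_q0 {K : AddSubgroup P} (s : FreeRing) :
    ((s : (syn K).Quotient) = 0) ↔ ∀ u v : P, u * (s : P) * v ∈ K := by
  have h1 : ((s : (syn K).Quotient) = 0) ↔ ((s : (syn K).Quotient) = ((0 : FreeRing) : (syn K).Quotient)) :=
    Iff.rfl
  rw [h1, RingCon.eq]
  show (∀ u v : P, u * ((s : P) - ((0 : FreeRing) : P)) * v ∈ K) ↔ _
  simp

private theorem gn_surj {K : AddSubgroup P} (x : (syn K).Quotient) : ∃ s : FreeRing, (s : (syn K).Quotient) = x := by
  induction x using Quotient.inductionOn with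
  | _ s => exact ⟨s, rfl⟩

private theorem gn_key {K : AddSubgroup P} (w : ℕ → FreeRing) (f : P) : ∃ u : FreeRing,
    (u : P) = FreeAlgebra.lift ℤ (fun i => (w i : P)) f - algebraMap ℤ P (aug f) ∧
    FreeAlgebra.lift ℤ (fun i => (((w i : FreeRing) : (syn K).Quotient) : Unitization ℤ (syn K).Quotient)) f =
      Unitization.inl (aug f) + (((u : FreeRing) : (syn K).Quotient) : Unitization ℤ (syn K).Quotient) := by
  let q : FreeRing → (syn K).Quotient := fun s => (s : (syn K).Quotient)
  show ∃ u : FreeRing, (u : P) = FreeAlgebra.lift ℤ (fun i => (w i : P)) f - algebraMap ℤ P (aug f) ∧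
    FreeAlgebra.lift ℤ (fun i => ((q (w i) : (syn K).Quotient) : Unitization ℤ (syn K).Quotient)) f =
      Unitization.inl (aug f) + ((q u : (syn K).Quotient) : Unitization ℤ (syn K).Quotient)
  induction f using FreeAlgebra.induction with
  | grade0 r =>
    refine ⟨0, ?_, ?_⟩
    · simp
    · have h0 : q 0 = 0 := rfl
      rw [h0]
      simp only [AlgHom.commutes]
      rw [Unitization.algebraMap_eq_inl]
      simp
  | grade1 i =>
    refine ⟨w i, ?_, ?_⟩
    · simp [aug]
    · simp [aug]
  | mul f g hf hg =>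
    obtain ⟨u, hu, hu'⟩ := hf
    obtain ⟨v, hv, hv'⟩ := hg
    refine ⟨u * v + aug f • v + aug g • u, ?_, ?_⟩
    · have hu2 : FreeAlgebra.lift ℤ (fun i => (w i : P)) f =
          (u : P) + algebraMap ℤ P (aug f) := by rw [hu]; abel
      have hv2 : FreeAlgebra.lift ℤ (fun i => (w i : P)) g =
          (v : P) + algebraMap ℤ P (aug g) := by rw [hv]; abel
      rw [map_mul, map_mul, hu2, hv2, map_mul]
      push_cast
      rw [eq_intCast, eq_intCast, zsmul_eq_mul, zsmul_eq_mul, add_mul, mul_add, mul_add,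
        (Int.cast_commute (aug g) (u : P)).eq]
      abel
    · have e : q (u * v + aug f • v + aug g • u) = q u * q v + aug f • q v + aug g • q u := by
        rfl
      rw [map_mul, hu', hv', e, map_mul]
      rw [add_mul, mul_add, mul_add, ← Unitization.inl_mul, Unitization.inl_mul_inr,
        Unitization.inr_mul_inl, ← Unitization.inr_mul, Unitization.inr_add,
        Unitization.inr_add]
      abel
  | add f g hf hg =>
    obtain ⟨u, hu, hu'⟩ := hf
    obtain ⟨v, hv, hv'⟩ := hg
    refine ⟨u + v, ?_, ?_⟩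
    · push_cast
      rw [hu, hv, map_add, map_add, map_add]
      abel
    · have e : q (u + v) = q u + q v := rfl
      rw [map_add, hu', hv', e, map_add]
      ext <;> simp

/-- the identities of `Quo K` -/
theorem Th_Quo (K : AddSubgroup P) : Th {Quo K} =
    {f | f ∈ Pp ∧ ∀ φ : P →ₐ[ℤ] P, IsSubst φ → ∀ u v : P, u * φ f * v ∈ K} := by
  ext f
  constructor
  · rintro ⟨h0, h⟩
    refine ⟨h0, fun φ hφ => ?_⟩
    have hf0 : aug f = 0 := h0
    have h1 := h (Quo K) rfl
    obtain ⟨u, hu, hu'⟩ := gn_key (K := K) (fun i => ⟨φ (X i), hφ i⟩) f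
    have h2 := h1 (fun i => (((⟨φ (X i), hφ i⟩ : FreeRing)) : (syn K).Quotient))
    have h3 : FreeAlgebra.lift ℤ (fun i => (((((⟨φ (X i), hφ i⟩ : FreeRing)) : (syn K).Quotient)) :
        Unitization ℤ (syn K).Quotient)) f = 0 := h2
    rw [h3, hf0] at hu'
    have h4 : ((u : FreeRing) : (syn K).Quotient) = 0 := by
      have := congrArg (fun x => x.snd) hu'
      simpa using this.symm
    have e : FreeAlgebra.lift ℤ (fun i => φ (X i)) = φ := by
      apply FreeAlgebra.hom_ext
      funext i
      simp
    have h5 : (u : P) = φ f := by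
      rw [hu, hf0, map_zero, sub_zero]
      show FreeAlgebra.lift ℤ (fun i => φ (X i)) f = _
      rw [e]
    rw [← h5]
    exact (gn_q0 u).1 h4
  · rintro ⟨h0, h⟩
    refine ⟨h0, ?_⟩
    rintro R rfl
    have hf0 : aug f = 0 := h0
    intro (a : ℕ → (syn K).Quotient)
    choose w hw using fun i => gn_surj (K := K) (a i)
    obtain ⟨u, hu, hu'⟩ := gn_key (K := K) w f
    have e1 : (fun i => (((w i : FreeRing) : (syn K).Quotient) : Unitization ℤ (syn K).Quotient)) =
        fun i => ((a i : (syn K).Quotient) : Unitization ℤ (syn K).Quotient) := by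
      funext i
      rw [hw i]
    rw [e1] at hu'
    have h2 : ((u : FreeRing) : (syn K).Quotient) = 0 := by
      rw [gn_q0, hu, hf0, map_zero]
      intro x y
      rw [sub_zero]
      refine h _ (fun i => ?_) x y
      rw [FreeAlgebra.lift_ι_apply]
      exact (w i).2
    rw [h2, hf0] at hu'
    have h3 : FreeAlgebra.lift ℤ (fun i => ((a i : (syn K).Quotient) : Unitization ℤ (syn K).Quotient)) f = 0 := by
      rw [hu']
      simp
    exact h3

/-- the quotient map -/
private def gn_pi (K : AddSubgroup P) : Pp →+ (syn K).Quotient where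
  toFun f := (((⟨f.1, f.2⟩ : FreeRing)) : (syn K).Quotient)
  map_zero' := rfl
  map_add' _ _ := rfl

private theorem gn_pi_surj {K : AddSubgroup P} (x : (syn K).Quotient) : ∃ f, gn_pi K f = x := by
  obtain ⟨s, rfl⟩ := gn_surj x
  exact ⟨⟨s.1, s.2⟩, rfl⟩

private theorem gn_pi_zero {K : AddSubgroup P} (f : Pp) : gn_pi K f = 0 ↔ ∀ u v : P, u * (f : P) * v ∈ K :=
  gn_q0 _

/-- a finite ring, if `K` contains the multiples of `M`, the words of length `≥ N`, and those with letters `≥ n` -/
theorem finite_Quo {K : AddSubgroup P} {n N M : ℕ} (hM : M ≠ 0) (hm : ∀ f : P, (M : ℤ) • f ∈ K)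
    (hw : ∀ w : List ℕ, (N ≤ w.length ∨ ∃ i ∈ w, n ≤ i) → mon w ∈ K) : Finite (Quo K).1 := by
  show Finite (syn K).Quotient
  have hexp : ∀ x : (syn K).Quotient, (M : ℤ) • x = 0 := by
    intro x
    obtain ⟨w, rfl⟩ := gn_pi_surj x
    rw [← map_zsmul, gn_pi_zero]
    intro u v
    have e : u * (((M : ℤ) • w : Pp) : P) * v = (M : ℤ) • (u * (w : P) * v) := by
      rw [Submodule.coe_smul, mul_smul_comm, smul_mul_assoc]
    rw [e]
    exact hm _
  -- words in `K` are in the kernel
  have hbad : ∀ w : List ℕ, (N ≤ w.length ∨ ∃ i ∈ w, n ≤ i) → ∀ u v : P, u * mon w * v ∈ K := by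
    intro w h u v
    have h1 : ∀ a b : List ℕ, mon a * mon w * mon b ∈ K := by
      intro a b
      rw [← mon_append, ← mon_append]
      apply hw
      rcases h with h | ⟨i, hi, hn⟩
      · left
        simp only [List.length_append]
        omega
      · right
        exact ⟨i, by simp [hi], hn⟩
    have h2 : ∀ (a : List ℕ) (v : P), mon a * mon w * v ∈ K := by
      intro a v
      refine ind_mon (C := fun v => mon a * mon w * v ∈ K) (by simp [K.zero_mem]) ?_ ?_ (h1 a) v
      · intro f g hf hg
        rw [mul_add]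
        exact K.add_mem hf hg
      · intro c f hf
        rw [mul_smul_comm]
        exact K.zsmul_mem hf c
    refine ind_mon (C := fun u => u * mon w * v ∈ K) (by simp [K.zero_mem]) ?_ ?_ (fun a => h2 a v) u
    · intro f g hf hg
      rw [add_mul, add_mul]
      exact K.add_mem hf hg
    · intro c f hf
      rw [smul_mul_assoc, smul_mul_assoc]
      exact K.zsmul_mem hf c
  have hle : Pnl n N ≤ Pp := (finring_Pnl_le n N).trans (Pn_le_Pp n)
  have hsur : Function.Surjective ((gn_pi K).toIntLinearMap ∘ₗ Submodule.inclusion hle) := by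
    intro x
    obtain ⟨f, rfl⟩ := gn_pi_surj x
    obtain ⟨f, hf⟩ := f
    obtain ⟨m, hmn⟩ := exists_mem_Pn hf
    unfold Pn at hmn
    induction hmn using Submodule.span_induction with
    | mem y hy =>
      obtain ⟨w, hw0, hwm, rfl⟩ := hy
      by_cases hg : N ≤ w.length ∨ ∃ i ∈ w, n ≤ i
      · refine ⟨0, ?_⟩
        rw [map_zero]
        symm
        rw [gn_pi_zero]
        exact hbad w hg
      · push Not at hg
        exact ⟨⟨mon w, Submodule.subset_span ⟨w, hw0, fun a ha => hg.2 a ha, hg.1, rfl⟩⟩, rfl⟩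
    | zero => exact ⟨0, rfl⟩
    | add y y' hy hy' ih ih' =>
      have h1 : y ∈ Pp := (Pn_le_Pp m) hy
      have h2 : y' ∈ Pp := (Pn_le_Pp m) hy'
      obtain ⟨a, ha⟩ := ih h1
      obtain ⟨b, hb⟩ := ih' h2
      refine ⟨a + b, ?_⟩
      rw [map_add, ha, hb, ← map_add]
      rfl
    | smul c y hy ih =>
      have h1 : y ∈ Pp := (Pn_le_Pp m) hy
      obtain ⟨a, ha⟩ := ih h1
      refine ⟨c • a, ?_⟩
      rw [map_zsmul, ha, ← map_zsmul]
      rfl
  have hmodfin : Module.Finite ℤ (syn K).Quotient := by
    have : Module.Finite ℤ (Pnl n N) := Module.Finite.iff_fg.2 (finring_Pnl_fg n N)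
    exact Module.Finite.of_surjective _ hsur
  apply Module.finite_of_fg_torsion
  intro x
  refine ⟨⟨(M : ℤ), ?_⟩, hexp x⟩
  rw [mem_nonZeroDivisors_iff_ne_zero]
  exact_mod_cast hM

end ADQ
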