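import Pool.Agent.ADQ.NoLP01
import Pool.Agent.ADQ.NoLP2
import Pool.Agent.ADQ.NoLP32
import Pool.Agent.ADQ.Soc33
import Pool.Agent.ADQ.Cub
import Pool.Agent.ADQ.Sq22
import Pool.Agent.ADQ.P1

/-!
# ADQ-A3s (the theorem `a3split`)

`p = 3`, `t = z_0 z_1 z_2`, `G_0 = G3 0 1 2`, `G_1 = G3 1 2 0`, `G_2 = G3 2 0 1`.
`a3split`: `y ∈ R 3 3`, `y ∉ K3 3`; `soc33` for `y` (`dd i j y ∈ R`).  More precisely use its proof, or: if `F3 0 1 2 ∉ R 3 3`: `soc33'`: `y = c t`, `c ≠ 0`: `t ∈ R`, (i).  If `F3 0 1 2 ∈ R 3 3` (so all three `F3`): write `y = E33 a b c`, `s_i = 2 a_i + b_ij + b_ik`; if some `s_i ≠ 0` then (header of `Soc33`, Case 1) all `G3 ∈ R`, so (ii) with `τ = 0`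
[`D3 = G_0 + G_1 + G_2`]; if all `s_i = 0`: `y = ∑ a_j G_j + τ t - ∑ φ_j F_j`, so `y' = τ t + ∑ a_j G_j ∈ R`.  `(id + rn (swap 0 1)) y' = 2 τ t + (a_0 - a_1)(G_0 - G_1)`.  If all `a_j` are equal: `2 τ t ∈ R`; `τ = 0` would give `y ∈ K3 3`; so `t ∈ R`: (i).  If (by symmetry) `a_0 ≠ a_1`: `τ' t + G_0 - G_1 ∈ R`,
rotations: `τ' t + G_1 - G_2 ∈ R`, the difference is `G_0 - 2 G_1 + G_2 = D3` (`3 = 0`): (ii).
`a3i` (`t ∈ R 3 3`): `K3` (`n + 2 ≥ 3`, `up`): `Nt 3 n ≤ R n 4` for all `n ≥ 1`, `K5`: `Hh 3 n 5 ≤ R n 5`, `Kup`: `l ≤ 4`.  `n = 1`: `noLP_n1`.  `n ≥ 3`, `l = 4`: `sq22` for `w`.  `n ≥ 4`, `k = l = 3`: `cub`: `u ≡ s ∈ Sq 3 n 3 ≤ R n 3` (`ren`).  `n = 3`, `k = l = 3`: `soc33` for `u`, `w`: `u ≡ ∑ a_j G_j`: `P1` with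
`- rn (swap i j)`.  `n = 2`: `k = 3`: `noLP_3_2`; `k = l = 4`: `u`, `w ≡ c z_0^2 z_1^2`, `LP.rank1`.  `k ≤ 2`: `noLP_0, noLP_1, noLP_2`.
`a3ii`: `ev 2 D3 = z_0^2 z_1 - z_1^2 z_0`, `ev 2 (F3 0 1 2) = z_0^3 - z_0^2 z_1`, `ev 2 (τ t + G_0 - G_1) = z_0^2 z_1 + z_1^2 z_0`, all in `R 4 3`; so `z_0^2 z_1 ∈ R 4 3`, `z_0^3 ∈ R 4 3`, `dd 0 2 (z_0^2 z_1)`: `t ∈ R 4 3`: all monomials of degree 3 in `R m 3` for `m ≥ 4`.  `n ≥ 4`: `Hh 3 n 3 ≤ R n 3`, `Kup`: no pair.  `n = 2, 3`: `n + 2 ≥ 4`: `K0`,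
`Kup`: `l ≤ 3`, `k = l = 3`.  `n = 2`: `noLP_3_2`.  `n = 3`: `soc33`: `u ≡ x t + ∑ a_j G_j ≡ x' t + y G_0` as `G_1 ≡ G_0 + τ t`, `G_2 ≡ G_0 + 2 τ t`; `w ≡ x'' t + y'' G_0`.  `T = id - rn (swap 0 1)`: `t ↦ 0`, `G_0 ↦ G_0 + G_1 ≡ E = 2 G_0 + τ t`: `Lkd.rankT`: `y E, y'' E ∈ R`.  `E ∈ R`: `G_0 ≡ - (τ/2) t`: `LP.rank1` with `t`.
`E ∉ R`: `y = y'' = 0`, `LP.rank1`.
-/

namespace ADQ

open AD ADN ADC

variable {R : ℕ → ℕ → Submodule (ZMod 3) (Z 3)}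

private theorem a3s_rn (h : MS3 3 R) (σ : Equiv.Perm ℕ) (hσ : ∀ i, 3 ≤ i → σ i = i) {F : Z 3}
    (hF : F ∈ R 3 3) : rn σ F ∈ R 3 3 :=
  h.toMS.GAs (by norm_num) _ (GA_rn σ hσ) F hF

private theorem a3s_cancel {S : Submodule (ZMod 3) (Z 3)} {s : ZMod 3} (hs : s ≠ 0) {F : Z 3} (h : s • F ∈ S) : F ∈ S := by
  have h1 := S.smul_mem s⁻¹ h
  rwa [smul_smul, inv_mul_cancel₀ hs, one_smul] at h1

private theorem a3s_B (h : MS3 3 R) {a : ℕ → ZMod 3} {b : ℕ → ℕ → ZMod 3} {c : ZMod 3}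
    (hd : ∀ i < 3, ∀ j < 3, i ≠ j → dd i j (E33 a b c) ∈ R 3 3) (σ : Equiv.Perm ℕ)
    (hσ : ∀ i, 3 ≤ i → σ i = i) (h0 : σ 0 < 3) (h1 : σ 1 < 3) :
    (2 * a (σ 0) + b (σ 0) (σ 1) + b (σ 0) (σ 2)) • ((z 0 - z 1) * z 1 ^ 2 : Z 3) +
      b (σ 0) (σ 2) • F3 1 0 2 ∈ R 3 3 := by
  have hs : ∀ i, 3 ≤ i → σ⁻¹ i = i := fun i hi => by
    rw [Equiv.Perm.inv_eq_iff_eq]
    exact (hσ i hi).symm
  have hne : σ 0 ≠ σ 1 := fun e => by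
    have := σ.injective e
    omega
  have e1 := a3s_rn h σ⁻¹ hs (hd (σ 0) h0 (σ 1) h1 hne)
  have i0 : σ⁻¹ (σ 0) = 0 := σ.symm_apply_apply 0
  have i1 : σ⁻¹ (σ 1) = 1 := σ.symm_apply_apply 1
  rw [← dd_rn, i0, i1, rn_E33 σ⁻¹ hs, dd01_E33] at e1
  have e3 : ∀ i, (σ⁻¹).symm i = σ i := fun i => rfl
  simp only [e3] at e1
  have e2 : (2 * a (σ 0) + b (σ 0) (σ 1) + b (σ 0) (σ 2)) • ((z 0 - z 1) * z 1 ^ 2 : Z 3) +
      b (σ 0) (σ 2) • F3 1 0 2 =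
      (z 0 - z 1) * z 1 * ((2 * a (σ 0) + b (σ 0) (σ 1)) • z 1 + b (σ 0) (σ 2) • z 2) := by
    unfold F3
    simp only [MvPolynomial.smul_eq_C_mul, map_add, map_mul, map_ofNat]
    ring
  rw [e2]
  exact e1

private theorem a3s_fix01 : ∀ i, 3 ≤ i → (Equiv.swap (0 : ℕ) 1) i = i := fun i hi =>
  Equiv.swap_apply_of_ne_of_ne (by omega) (by omega)
private theorem a3s_fix02 : ∀ i, 3 ≤ i → (Equiv.swap (0 : ℕ) 2) i = i := fun i hi =>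
  Equiv.swap_apply_of_ne_of_ne (by omega) (by omega)
private theorem a3s_fix12 : ∀ i, 3 ≤ i → (Equiv.swap (1 : ℕ) 2) i = i := fun i hi =>
  Equiv.swap_apply_of_ne_of_ne (by omega) (by omega)

private theorem a3s_A (h : MS3 3 R) {s β : ZMod 3} (hs : s ≠ 0)
    (h1 : s • ((z 0 - z 1) * z 1 ^ 2 : Z 3) + β • F3 1 0 2 ∈ R 3 3) :
    (G3 1 2 0 : Z 3) ∈ R 3 3 ∧ (F3 1 0 2 : Z 3) ∈ R 3 3 ∧ ((z 0 - z 1) * z 1 ^ 2 : Z 3) ∈ R 3 3 := by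
  have hG : (G3 1 2 0 : Z 3) ∈ R 3 3 := by
    have h2 := a3s_rn h (Equiv.swap 0 2) a3s_fix02 h1
    have h3 := (R 3 3).sub_mem h2 h1
    apply a3s_cancel hs
    have e : rn (Equiv.swap (0 : ℕ) 2) (s • ((z 0 - z 1) * z 1 ^ 2 : Z 3) + β • F3 1 0 2) -
        (s • ((z 0 - z 1) * z 1 ^ 2 : Z 3) + β • F3 1 0 2) = s • G3 1 2 0 := by
      unfold F3 G3
      simp only [map_add, map_smul, map_mul, map_sub, map_pow, rn_z]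
      rw [show (Equiv.swap (0 : ℕ) 2) 0 = 2 from rfl, show (Equiv.swap (0 : ℕ) 2) 1 = 1 from rfl,
        show (Equiv.swap (0 : ℕ) 2) 2 = 0 from rfl]
      simp only [MvPolynomial.smul_eq_C_mul]
      ring
    rwa [e] at h3
  have hF0 : (F3 0 1 2 : Z 3) ∈ R 3 3 := by
    have h2 := h.dd 3 3 1 0 (by norm_num) (by norm_num) (by norm_num) (by norm_num) _ hG
    have e : dd 1 0 (G3 1 2 0 : Z 3) = F3 0 1 2 := by
      unfold G3 F3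
      rw [dd_two (Subalgebra.sub_mem _ (z_NV (by norm_num)) (z_NV (by norm_num)))]
      ring
    rwa [e] at h2
  have hF : (F3 1 0 2 : Z 3) ∈ R 3 3 := by
    have h2 := a3s_rn h (Equiv.swap 0 1) a3s_fix01 hF0
    have e : rn (Equiv.swap (0 : ℕ) 1) (F3 0 1 2 : Z 3) = F3 1 0 2 := by
      unfold F3
      simp only [map_mul, map_sub, rn_z]
      rw [show (Equiv.swap (0 : ℕ) 1) 0 = 1 from rfl, show (Equiv.swap (0 : ℕ) 1) 1 = 0 from rfl,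
        show (Equiv.swap (0 : ℕ) 1) 2 = 2 from rfl]
    rwa [e] at h2
  refine ⟨hG, hF, ?_⟩
  apply a3s_cancel hs
  have h2 := (R 3 3).sub_mem h1 ((R 3 3).smul_mem β hF)
  rwa [add_sub_cancel_right] at h2

private theorem a3s_F0 (h : MS3 3 R) (hF : (F3 1 0 2 : Z 3) ∈ R 3 3) :
    (F3 0 1 2 : Z 3) ∈ R 3 3 ∧ (F3 2 0 1 : Z 3) ∈ R 3 3 := by
  constructor
  · have h2 := a3s_rn h (Equiv.swap 0 1) a3s_fix01 hF
    have e : rn (Equiv.swap (0 : ℕ) 1) (F3 1 0 2 : Z 3) = F3 0 1 2 := by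
      unfold F3
      simp only [map_mul, map_sub, rn_z]
      rw [show (Equiv.swap (0 : ℕ) 1) 0 = 1 from rfl, show (Equiv.swap (0 : ℕ) 1) 1 = 0 from rfl,
        show (Equiv.swap (0 : ℕ) 1) 2 = 2 from rfl]
    rwa [e] at h2
  · have h2 := a3s_rn h (Equiv.swap 1 2) a3s_fix12 hF
    have e : rn (Equiv.swap (1 : ℕ) 2) (F3 1 0 2 : Z 3) = F3 2 0 1 := by
      unfold F3
      simp only [map_mul, map_sub, rn_z]
      rw [show (Equiv.swap (1 : ℕ) 2) 0 = 0 from rfl, show (Equiv.swap (1 : ℕ) 2) 1 = 2 from rfl,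
        show (Equiv.swap (1 : ℕ) 2) 2 = 1 from rfl]
    rwa [e] at h2

private theorem a3s_rot (h : MS3 3 R) {F : Z 3} (hF : F ∈ R 3 3) :
    rn (Equiv.swap (0 : ℕ) 1 * Equiv.swap 1 2 : Equiv.Perm ℕ) F ∈ R 3 3 :=
  a3s_rn h _ (fun i hi => by rw [Equiv.Perm.mul_apply, a3s_fix12 i hi, a3s_fix01 i hi]) hF

private theorem a3s_rG (x α β γ : ZMod 3) : rn (Equiv.swap (0 : ℕ) 1 * Equiv.swap 1 2 : Equiv.Perm ℕ)
    (x • (z 0 * z 1 * z 2) + α • G3 0 1 2 + β • G3 1 2 0 + γ • G3 2 0 1 : Z 3) =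
    x • (z 0 * z 1 * z 2) + γ • G3 0 1 2 + α • G3 1 2 0 + β • G3 2 0 1 := by
  unfold G3
  simp only [map_add, map_smul, map_mul, map_sub, map_pow, rn_z]
  rw [show (Equiv.swap (0 : ℕ) 1 * Equiv.swap 1 2 : Equiv.Perm ℕ) 0 = 1 from rfl,
    show (Equiv.swap (0 : ℕ) 1 * Equiv.swap 1 2 : Equiv.Perm ℕ) 1 = 2 from rfl,
    show (Equiv.swap (0 : ℕ) 1 * Equiv.swap 1 2 : Equiv.Perm ℕ) 2 = 0 from rfl]
  simp only [MvPolynomial.smul_eq_C_mul]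
  ring

private theorem a3s_Q (h : MS3 3 R) {x α β γ : ZMod 3} (hne : α ≠ β)
    (hy : (x • (z 0 * z 1 * z 2) + α • G3 0 1 2 + β • G3 1 2 0 + γ • G3 2 0 1 : Z 3) ∈ R 3 3) :
    (D3 : Z 3) ∈ R 3 3 ∧ ∃ τ : ZMod 3, τ • (z 0 * z 1 * z 2) + G3 0 1 2 - G3 1 2 0 ∈ R 3 3 := by
  have h0 : α - β ≠ 0 := sub_ne_zero.2 hne
  have h1 := (R 3 3).add_mem hy (a3s_rn h (Equiv.swap 0 1) a3s_fix01 hy)
  have e1 : (x • (z 0 * z 1 * z 2) + α • G3 0 1 2 + β • G3 1 2 0 + γ • G3 2 0 1 : Z 3) +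
      rn (Equiv.swap (0 : ℕ) 1) (x • (z 0 * z 1 * z 2) + α • G3 0 1 2 + β • G3 1 2 0 + γ • G3 2 0 1 : Z 3) =
      (2 * x) • (z 0 * z 1 * z 2) + (α - β) • (G3 0 1 2 - G3 1 2 0) := by
    unfold G3
    simp only [map_add, map_smul, map_mul, map_sub, map_pow, rn_z]
    rw [show (Equiv.swap (0 : ℕ) 1) 0 = 1 from rfl, show (Equiv.swap (0 : ℕ) 1) 1 = 0 from rfl,
      show (Equiv.swap (0 : ℕ) 1) 2 = 2 from rfl]
    simp only [MvPolynomial.smul_eq_C_mul, map_mul, map_sub, map_ofNat]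
    ring
  rw [e1] at h1
  have h2 := (R 3 3).smul_mem (α - β)⁻¹ h1
  rw [smul_add, smul_smul, smul_smul, inv_mul_cancel₀ h0, one_smul] at h2
  obtain ⟨τ, hτ⟩ : ∃ τ, τ = (α - β)⁻¹ * (2 * x) := ⟨_, rfl⟩
  rw [← hτ] at h2
  have h3 : (τ • (z 0 * z 1 * z 2) + (1 : ZMod 3) • G3 0 1 2 + (-1 : ZMod 3) • G3 1 2 0 + (0 : ZMod 3) • G3 2 0 1 : Z 3) ∈
      R 3 3 := by
    have e2 : (τ • (z 0 * z 1 * z 2) + (1 : ZMod 3) • G3 0 1 2 + (-1 : ZMod 3) • G3 1 2 0 + (0 : ZMod 3) • G3 2 0 1 : Z 3) =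
        τ • (z 0 * z 1 * z 2) + (G3 0 1 2 - G3 1 2 0) := by
      rw [one_smul, zero_smul, neg_smul, one_smul]
      abel
    rw [e2]
    exact h2
  have h4 := a3s_rot h h3
  rw [a3s_rG] at h4
  refine ⟨?_, τ, ?_⟩
  · have h5 := (R 3 3).sub_mem h3 h4
    have e3 : (τ • (z 0 * z 1 * z 2) + (1 : ZMod 3) • G3 0 1 2 + (-1 : ZMod 3) • G3 1 2 0 + (0 : ZMod 3) • G3 2 0 1 : Z 3) -
        (τ • (z 0 * z 1 * z 2) + (0 : ZMod 3) • G3 0 1 2 + (1 : ZMod 3) • G3 1 2 0 + (-1 : ZMod 3) • G3 2 0 1) =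
        D3 - (3 : ZMod 3) • G3 1 2 0 := by
      unfold G3 D3
      simp only [MvPolynomial.smul_eq_C_mul, map_one, map_neg, map_zero, map_ofNat]
      ring
    rw [e3, show (3 : ZMod 3) = 0 from rfl, zero_smul, sub_zero] at h5
    exact h5
  · have e4 : τ • (z 0 * z 1 * z 2) + G3 0 1 2 - G3 1 2 0 =
        (τ • (z 0 * z 1 * z 2) + (G3 0 1 2 - G3 1 2 0) : Z 3) := by abel
    rw [e4]
    exact h2

theorem a3split (h : MS3 3 R) {y : Z 3} (hR : y ∈ R 3 3) (hK : y ∉ K3 3) :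
    z 0 * z 1 * z 2 ∈ R 3 3 ∨ (F3 0 1 2 ∈ R 3 3 ∧ D3 ∈ R 3 3 ∧
      ∃ τ : ZMod 3, τ • (z 0 * z 1 * z 2) + G3 0 1 2 - G3 1 2 0 ∈ R 3 3) := by
  have hy : y ∈ Hh 3 3 3 := h.le 3 3 (by norm_num) hR
  have hd : ∀ i < 3, ∀ j < 3, i ≠ j → dd i j y ∈ R 3 3 := fun i hi j hj hij =>
    h.dd 3 3 i j (by norm_num) hi hj hij y hR
  by_cases hF0 : (F3 0 1 2 : Z 3) ∈ R 3 3
  swap
  · left
    obtain ⟨c, hc⟩ := soc33' (le_refl 3) h hy hd hF0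
    have hc0 : c ≠ 0 := by
      intro h0
      apply hK
      rw [hc, h0, zero_smul]
      exact Submodule.zero_mem _
    rw [hc] at hR
    exact a3s_cancel hc0 hR
  have hF1 : (F3 1 0 2 : Z 3) ∈ R 3 3 := by
    have h2 := a3s_rn h (Equiv.swap 0 1) a3s_fix01 hF0
    have e : rn (Equiv.swap (0 : ℕ) 1) (F3 0 1 2 : Z 3) = F3 1 0 2 := by
      unfold F3
      simp only [map_mul, map_sub, rn_z]
      rw [show (Equiv.swap (0 : ℕ) 1) 0 = 1 from rfl, show (Equiv.swap (0 : ℕ) 1) 1 = 0 from rfl,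
        show (Equiv.swap (0 : ℕ) 1) 2 = 2 from rfl]
    rwa [e] at h2
  have hF2 := (a3s_F0 h hF1).2
  obtain ⟨a, b, c, rfl⟩ := exp33 hy
  have hG : (G3 1 2 0 : Z 3) ∈ R 3 3 → (D3 : Z 3) ∈ R 3 3 ∧
      ∃ τ : ZMod 3, τ • (z 0 * z 1 * z 2) + G3 0 1 2 - G3 1 2 0 ∈ R 3 3 := by
    intro hG1
    refine a3s_Q h (x := 0) (α := 0) (β := 1) (γ := 0) (by decide) ?_
    simpa only [zero_smul, zero_add, add_zero, one_smul] using hG1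
  have B01 := a3s_B h hd 1 (fun i _ => rfl) (by norm_num) (by norm_num)
  have B10 := a3s_B h hd (Equiv.swap 0 1) a3s_fix01 (by decide) (by decide)
  have B20 := a3s_B h hd (Equiv.swap 1 2 * Equiv.swap 0 1)
    (fun i hi => by rw [Equiv.Perm.mul_apply, a3s_fix01 i hi, a3s_fix12 i hi]) (by decide) (by decide)
  change (2 * a 0 + b 0 1 + b 0 2) • ((z 0 - z 1) * z 1 ^ 2 : Z 3) + b 0 2 • F3 1 0 2 ∈ R 3 3 at B01
  change (2 * a 1 + b 1 0 + b 1 2) • ((z 0 - z 1) * z 1 ^ 2 : Z 3) + b 1 2 • F3 1 0 2 ∈ R 3 3 at B10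
  change (2 * a 2 + b 2 0 + b 2 1) • ((z 0 - z 1) * z 1 ^ 2 : Z 3) + b 2 1 • F3 1 0 2 ∈ R 3 3 at B20
  by_cases s0 : 2 * a 0 + b 0 1 + b 0 2 = 0
  swap
  · exact Or.inr ⟨hF0, hG (a3s_A h s0 B01).1⟩
  by_cases s1 : 2 * a 1 + b 1 0 + b 1 2 = 0
  swap
  · exact Or.inr ⟨hF0, hG (a3s_A h s1 B10).1⟩
  by_cases s2 : 2 * a 2 + b 2 0 + b 2 1 = 0
  swap
  · exact Or.inr ⟨hF0, hG (a3s_A h s2 B20).1⟩
  have a0 : a 0 = b 0 1 + b 0 2 := by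
    have h3 : (3 : ZMod 3) = 0 := rfl
    linear_combination a 0 * h3 - s0
  have a1 : a 1 = b 1 0 + b 1 2 := by
    have h3 : (3 : ZMod 3) = 0 := rfl
    linear_combination a 1 * h3 - s1
  have a2 : a 2 = b 2 0 + b 2 1 := by
    have h3 : (3 : ZMod 3) = 0 := rfl
    linear_combination a 2 * h3 - s2
  obtain ⟨x, hx⟩ : ∃ x, x = c - (b 0 1 + b 0 2) - (b 1 0 + b 1 2) - (b 2 0 + b 2 1) := ⟨_, rfl⟩
  have e : E33 a b c = (x • (z 0 * z 1 * z 2) + (b 0 2 - b 0 1) • G3 0 1 2 + (b 1 0 - b 1 2) • G3 1 2 0 +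
      (b 2 1 - b 2 0) • G3 2 0 1) +
      ((b 0 1 + b 0 2) • F3 0 1 2 + (b 1 0 + b 1 2) • F3 1 0 2 + (b 2 0 + b 2 1) • F3 2 0 1) := by
    have h3 : (3 : Z 3) = 0 := by
      have h4 := congrArg (MvPolynomial.C (σ := ℕ)) (show (3 : ZMod 3) = 0 from rfl)
      rwa [map_ofNat, map_zero] at h4
    unfold E33 G3 F3
    rw [a0, a1, a2, hx]
    simp only [MvPolynomial.smul_eq_C_mul, map_add, map_sub]
    linear_combination (MvPolynomial.C (b 0 1) * (z 0 ^ 2 * z 1) +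
      MvPolynomial.C (b 0 2) * (z 0 ^ 2 * z 2) + MvPolynomial.C (b 1 0) * (z 1 ^ 2 * z 0) +
      MvPolynomial.C (b 1 2) * (z 1 ^ 2 * z 2) + MvPolynomial.C (b 2 0) * (z 2 ^ 2 * z 0) +
      MvPolynomial.C (b 2 1) * (z 2 ^ 2 * z 1)) * h3
  have hFs : ((b 0 1 + b 0 2) • F3 0 1 2 + (b 1 0 + b 1 2) • F3 1 0 2 + (b 2 0 + b 2 1) • F3 2 0 1 : Z 3) ∈ R 3 3 :=
    (R 3 3).add_mem ((R 3 3).add_mem ((R 3 3).smul_mem _ hF0) ((R 3 3).smul_mem _ hF1)) ((R 3 3).smul_mem _ hF2)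
  have hy1 := (R 3 3).sub_mem hR hFs
  rw [e, add_sub_cancel_right] at hy1
  by_cases h01 : b 0 2 - b 0 1 = b 1 0 - b 1 2
  swap
  · exact Or.inr ⟨hF0, a3s_Q h h01 hy1⟩
  by_cases h12 : b 1 0 - b 1 2 = b 2 1 - b 2 0
  swap
  · have h5 := a3s_rot h (a3s_rot h hy1)
    rw [a3s_rG, a3s_rG] at h5
    exact Or.inr ⟨hF0, a3s_Q h h12 h5⟩
  left
  rw [← h12, ← h01] at hy1
  have h6 := (R 3 3).add_mem hy1 (a3s_rn h (Equiv.swap 0 1) a3s_fix01 hy1)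
  obtain ⟨α, hα⟩ : ∃ α, α = b 0 2 - b 0 1 := ⟨_, rfl⟩
  rw [← hα] at h6 h01
  rw [← h01] at h12
  have e1 : (x • (z 0 * z 1 * z 2) + α • G3 0 1 2 + α • G3 1 2 0 + α • G3 2 0 1 : Z 3) +
      rn (Equiv.swap (0 : ℕ) 1) (x • (z 0 * z 1 * z 2) + α • G3 0 1 2 + α • G3 1 2 0 + α • G3 2 0 1 : Z 3) =
      (2 * x) • (z 0 * z 1 * z 2) := by
    unfold G3
    simp only [map_add, map_smul, map_mul, map_sub, map_pow, rn_z]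
    rw [show (Equiv.swap (0 : ℕ) 1) 0 = 1 from rfl, show (Equiv.swap (0 : ℕ) 1) 1 = 0 from rfl,
      show (Equiv.swap (0 : ℕ) 1) 2 = 2 from rfl]
    simp only [MvPolynomial.smul_eq_C_mul, map_mul, map_sub, map_ofNat]
    ring
  rw [e1] at h6
  refine a3s_cancel (fun h0 => hK ?_) h6
  have hx0 : x = 0 := by
    have h3 : (3 : ZMod 3) = 0 := rfl
    linear_combination x * h3 - h0
  rw [e, hx0, ← hα, ← h01, ← h12, zero_smul, zero_add]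
  have e2 : (α • G3 0 1 2 + α • G3 1 2 0 + α • G3 2 0 1 : Z 3) = α • D3 := by
    unfold G3 D3
    simp only [MvPolynomial.smul_eq_C_mul]
    ring
  rw [e2]
  unfold K3
  have m0 : (F3 0 1 2 : Z 3) ∈ ({F3 0 1 2, F3 1 0 2, F3 2 0 1, D3} : Set (Z 3)) := Or.inl rfl
  have m1 : (F3 1 0 2 : Z 3) ∈ ({F3 0 1 2, F3 1 0 2, F3 2 0 1, D3} : Set (Z 3)) := Or.inr (Or.inl rfl)
  have m2 : (F3 2 0 1 : Z 3) ∈ ({F3 0 1 2, F3 1 0 2, F3 2 0 1, D3} : Set (Z 3)) := Or.inr (Or.inr (Or.inl rfl))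
  have m3 : (D3 : Z 3) ∈ ({F3 0 1 2, F3 1 0 2, F3 2 0 1, D3} : Set (Z 3)) := Or.inr (Or.inr (Or.inr rfl))
  exact Submodule.add_mem _ (Submodule.smul_mem _ _ (Submodule.subset_span m3))
    (Submodule.add_mem _ (Submodule.add_mem _ (Submodule.smul_mem _ _ (Submodule.subset_span m0))
      (Submodule.smul_mem _ _ (Submodule.subset_span m1))) (Submodule.smul_mem _ _ (Submodule.subset_span m2)))

end ADQ
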