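import Pool.Agent.ADQ.Tool2

/-!
# ADQ-Tool2b: when all monomials of some degree are in `R n k`
-/

namespace ADQ

open AD ADN ADC

variable {p : ℕ} {R : ℕ → ℕ → Submodule (ZMod p) (Z p)}

private theorem t2b_std {n k i : ℕ} {F : Z p} (hF : F ∈ Hh p n k) :
    rn (fun j => if j < n then j else i) F = F := by
  rw [rn_congr hF (h := id) (fun j hj => by show (if j < n then j else i) = j; rw [if_pos hj]), rn_id]

theorem MS.K0 (h : MS p R) (hp : 2 ≤ p) {n k : ℕ} (hn : 1 ≤ n) (h0 : ∀ F ∈ Hh p n k, F ∈ R (n + (p - 1)) k) :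
    Hh p n (k + 1) ≤ R n (k + 1) := by
  rw [Hh_succ]
  refine Submodule.span_le.2 ?_
  rintro F ⟨i, G, hi, hG, rfl⟩
  have h1 := h.idtS hp hi (h0 G hG)
  rw [t2b_std hG] at h1
  exact h1

theorem MS.Kup (h : MS p R) (hp : 2 ≤ p) {n k l : ℕ} (hn : 1 ≤ n) (h0 : Hh p n k ≤ R n k) (hl : k ≤ l) :
    Hh p n l ≤ R n l := by
  induction l, hl using Nat.le_induction with
  | base => exact h0
  | succ l _ ih =>
    rw [Hh_succ]
    refine Submodule.span_le.2 ?_
    rintro F ⟨i, G, hi, hG, rfl⟩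
    exact h.mulz hp hi (ih hG)

private theorem t2b_dec {m : ℕ →₀ ℕ} {k : ℕ} (h : m.degree = k + 1) :
    ∃ (i : ℕ) (m' : ℕ →₀ ℕ), m = Finsupp.single i 1 + m' ∧ m'.degree = k := by
  have h0 : m ≠ 0 := by
    rintro rfl
    rw [map_zero] at h
    omega
  obtain ⟨i, hi⟩ := Finsupp.ne_iff.1 h0
  rw [Finsupp.zero_apply] at hi
  have h1 : Finsupp.single i 1 ≤ m := by
    rw [Finsupp.single_le_iff]
    omega
  refine ⟨i, m - Finsupp.single i 1, (add_tsub_cancel_of_le h1).symm, ?_⟩
  have h2 : (Finsupp.single i 1 + (m - Finsupp.single i 1)).degree = k + 1 := by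
    rw [add_tsub_cancel_of_le h1]
    exact h
  rw [map_add, Finsupp.degree_single] at h2
  omega

private theorem t2b_zero {m : ℕ →₀ ℕ} (h : m.degree = 0) : m = 0 := (Finsupp.degree_eq_zero_iff m).1 h

/-- monomials of degree 4 -/
private theorem t2b_four {m : ℕ →₀ ℕ} (h : m.degree = 4) : ∃ a b c d : ℕ,
    m = Finsupp.single a 1 + (Finsupp.single b 1 + (Finsupp.single c 1 + Finsupp.single d 1)) := by
  obtain ⟨a, m1, rfl, h1⟩ := t2b_dec (k := 3) h
  obtain ⟨b, m2, rfl, h2⟩ := t2b_dec (k := 2) h1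
  obtain ⟨c, m3, rfl, h3⟩ := t2b_dec (k := 1) h2
  obtain ⟨d, m4, rfl, h4⟩ := t2b_dec (k := 0) h3
  rw [t2b_zero h4]
  exact ⟨a, b, c, d, by rw [add_zero]⟩

private theorem t2b_mo1 (i : ℕ) : (mo (Finsupp.single i 1) : Z p) = z i := by
  rw [mo_single, pow_one]

private theorem t2b_mo4 (a b c d : ℕ) :
    (mo (Finsupp.single a 1 + (Finsupp.single b 1 + (Finsupp.single c 1 + Finsupp.single d 1))) : Z p) =
      z a * z b * z c * z d := by
  rw [mo_add, mo_add, mo_add, t2b_mo1, t2b_mo1, t2b_mo1, t2b_mo1]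
  ring

/-- the spaces of degree 1 -/
private theorem t2b_one {n : ℕ} {N : Submodule (ZMod p) (Z p)} (h : ∀ i < n, z i ∈ N) : Hh p n 1 ≤ N := by
  refine Submodule.span_le.2 ?_
  rintro F ⟨m, hm, hd, rfl⟩
  obtain ⟨i, m', rfl, h1⟩ := t2b_dec (k := 0) hd
  rw [t2b_zero h1, add_zero] at hm ⊢
  rw [t2b_mo1]
  refine h i ?_
  by_contra hi
  have h2 := hm i (not_lt.1 hi)
  rw [Finsupp.single_eq_same] at h2
  exact one_ne_zero h2

private theorem t2b_swap {M a b : ℕ} (ha : a < M) (hb : b < M) {t : ℕ} (ht : t < M) : Equiv.swap a b t < M := by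
  rw [Equiv.swap_apply_def]
  split_ifs
  · exact hb
  · exact ha
  · exact ht

private theorem t2b_perm1 {M i : ℕ} (hi : i < M) : ∃ σ : Equiv.Perm ℕ, (∀ t < M, σ t < M) ∧ σ 0 = i :=
  ⟨Equiv.swap 0 i, fun _ ht => t2b_swap (by omega) hi ht, Equiv.swap_apply_left 0 i⟩

private theorem t2b_perm2 {M i j : ℕ} (hi : i < M) (hj : j < M) (hij : i ≠ j) :
    ∃ σ : Equiv.Perm ℕ, (∀ t < M, σ t < M) ∧ σ 0 = i ∧ σ 1 = j := by
  obtain ⟨σ, h1, h2⟩ := t2b_perm1 hi
  refine ⟨Equiv.swap (σ 1) j * σ, ?_, ?_, ?_⟩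
  · intro t ht
    rw [Equiv.Perm.mul_apply]
    exact t2b_swap (h1 1 (by omega)) hj (h1 t ht)
  · rw [Equiv.Perm.mul_apply, h2]
    refine Equiv.swap_apply_of_ne_of_ne ?_ hij
    rw [← h2]
    exact fun h => absurd (σ.injective h) (by norm_num)
  · rw [Equiv.Perm.mul_apply, Equiv.swap_apply_left]

private theorem t2b_perm3 {M i j k : ℕ} (hi : i < M) (hj : j < M) (hk : k < M) (hij : i ≠ j) (hik : i ≠ k)
    (hjk : j ≠ k) : ∃ σ : Equiv.Perm ℕ, (∀ t < M, σ t < M) ∧ σ 0 = i ∧ σ 1 = j ∧ σ 2 = k := by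
  obtain ⟨σ, h1, h2, h3⟩ := t2b_perm2 hi hj hij
  refine ⟨Equiv.swap (σ 2) k * σ, ?_, ?_, ?_, ?_⟩
  · intro t ht
    rw [Equiv.Perm.mul_apply]
    exact t2b_swap (h1 2 (by omega)) hk (h1 t ht)
  · rw [Equiv.Perm.mul_apply, h2]
    refine Equiv.swap_apply_of_ne_of_ne ?_ hik
    rw [← h2]
    exact fun h => absurd (σ.injective h) (by norm_num)
  · rw [Equiv.Perm.mul_apply, h3]
    refine Equiv.swap_apply_of_ne_of_ne ?_ hjk
    rw [← h3]
    exact fun h => absurd (σ.injective h) (by norm_num)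
  · rw [Equiv.Perm.mul_apply, Equiv.swap_apply_left]

private theorem t2b_rnm {n n' k : ℕ} (h : MS p R) (hn : 1 ≤ n) (σ : Equiv.Perm ℕ) (hσ : ∀ t < n, σ t < n') {F : Z p}
    (hF : F ∈ R n k) : rn σ F ∈ R n' k :=
  h.ren n n' k σ hn hσ (fun _ _ _ _ e => σ.injective e) F hF

theorem MS.K1 (h : MS p R) (hp : 2 ≤ p) {n : ℕ} (hn : 1 ≤ n) (h0 : z 0 ∈ R (n + 1) 1) : Hh p n 2 ≤ R n 2 := by
  refine h.K0 hp hn ?_
  intro F hF
  refine t2b_one (N := R (n + (p - 1)) 1) ?_ hF
  intro i hi
  obtain ⟨σ, h1, h2⟩ := t2b_perm1 (M := n + 1) (i := i) (by omega)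
  have h3 := t2b_rnm h (by omega) σ h1 h0
  rw [rn_z, h2] at h3
  exact h.up (by omega) (by omega) h3

private theorem t2b_e2 {a b c d : ℕ} (g : ℕ → ℕ) (ha : g a = c) (hb : g b = d) :
    rn g (z a * z b : Z p) = z c * z d := by
  rw [map_mul, rn_z, rn_z, ha, hb]

private theorem t2b_e3 {a b c a' b' c' : ℕ} (g : ℕ → ℕ) (ha : g a = a') (hb : g b = b') (hc : g c = c') :
    rn g (z a * z b * z c : Z p) = z a' * z b' * z c' := by
  rw [map_mul, map_mul, rn_z, rn_z, rn_z, ha, hb, hc]

private theorem t2b_lt {n i j : ℕ} (hj : j < n) : (if j < n then j else i) = j := if_pos hj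

private theorem t2b_ge {n i j : ℕ} (hj : n ≤ j) : (if j < n then j else i) = i := if_neg (by omega)

private theorem t2b_s2 {n i a b c d : ℕ} (ha : (if a < n then a else i) = c) (hb : (if b < n then b else i) = d) :
    rn (fun j => if j < n then j else i) (z a * z b : Z p) = z c * z d := t2b_e2 _ ha hb

private theorem t2b_s3 {n i a b c a' b' c' : ℕ} (ha : (if a < n then a else i) = a')
    (hb : (if b < n then b else i) = b') (hc : (if c < n then c else i) = c') :
    rn (fun j => if j < n then j else i) (z a * z b * z c : Z p) = z a' * z b' * z c' := t2b_e3 _ ha hb hc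

theorem MS.K2 (h : MS p R) (hp : 3 ≤ p) {n : ℕ} (hn : 1 ≤ n) (h0 : z 0 * z 1 ∈ R (n + 2) 2) : Hh p n 3 ≤ R n 3 := by
  have h1 : ∀ i j : ℕ, i < n + (p - 1) → j < n + (p - 1) → i ≠ j → (z i * z j : Z p) ∈ R (n + (p - 1)) 2 := by
    intro i j hi hj hij
    have h2 : (z 0 * z 1 : Z p) ∈ R (n + (p - 1)) 2 := h.up (by omega) (by omega) h0
    obtain ⟨σ, h3, h4, h5⟩ := t2b_perm2 hi hj hij
    have h6 := t2b_rnm h (by omega) σ h3 h2
    rw [t2b_e2 (⇑σ) h4 h5] at h6
    exact h6
  have h2 : ∀ i j k : ℕ, i < n → j < n → k < n → (z i * (z j * z k) : Z p) ∈ R n 3 := by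
    intro i j k hi hj hk
    by_cases hjk : j = k
    · subst hjk
      by_cases hij : i = j
      · subst hij
        have h3 := h.idtS (by omega) hi (h1 n (n + 1) (by omega) (by omega) (by omega))
        rw [t2b_s2 (t2b_ge le_rfl) (t2b_ge (Nat.le_succ n))] at h3
        exact h3
      · have h3 := h.idtS (by omega) hj (h1 i j (by omega) (by omega) hij)
        rw [t2b_s2 (t2b_lt hi) (t2b_lt hj)] at h3
        have e : (z i * (z j * z j) : Z p) = z j * (z i * z j) := by ring
        rw [e]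
        exact h3
    · have h3 := h.idtS (by omega) hi (h1 j k (by omega) (by omega) hjk)
      rw [t2b_s2 (t2b_lt hj) (t2b_lt hk)] at h3
      exact h3
  refine Submodule.span_le.2 ?_
  rintro F ⟨m, hm, hd, rfl⟩
  obtain ⟨a, m1, rfl, h3⟩ := t2b_dec (k := 2) hd
  obtain ⟨b, m2, rfl, h4⟩ := t2b_dec (k := 1) h3
  obtain ⟨c, m3, rfl, h5⟩ := t2b_dec (k := 0) h4
  rw [t2b_zero h5, add_zero] at hm ⊢
  rw [SetLike.mem_coe, mo_add, mo_add, t2b_mo1, t2b_mo1, t2b_mo1]
  have key : ∀ x : ℕ, x = a ∨ x = b ∨ x = c → x < n := by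
    intro x hx
    by_contra hxn
    have h6 := hm x (not_lt.1 hxn)
    rw [Finsupp.add_apply, Finsupp.add_apply] at h6
    rcases hx with rfl | rfl | rfl
    · rw [Finsupp.single_eq_same] at h6; omega
    · rw [Finsupp.single_eq_same] at h6; omega
    · rw [Finsupp.single_eq_same] at h6; omega
  exact h2 a b c (key a (by tauto)) (key b (by tauto)) (key c (by tauto))

private theorem t2b_key {n a b c d : ℕ}
    (hm : ∀ i, n ≤ i → (Finsupp.single a 1 + (Finsupp.single b 1 + (Finsupp.single c 1 + Finsupp.single d 1)) : ℕ →₀ ℕ) i = 0) :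
    a < n ∧ b < n ∧ c < n ∧ d < n := by
  have key : ∀ x : ℕ, x = a ∨ x = b ∨ x = c ∨ x = d → x < n := by
    intro x hx
    by_contra hxn
    have h6 := hm x (not_lt.1 hxn)
    rw [Finsupp.add_apply, Finsupp.add_apply, Finsupp.add_apply] at h6
    rcases hx with rfl | rfl | rfl | rfl
    · rw [Finsupp.single_eq_same] at h6; omega
    · rw [Finsupp.single_eq_same] at h6; omega
    · rw [Finsupp.single_eq_same] at h6; omega
    · rw [Finsupp.single_eq_same] at h6; omega
  exact ⟨key a (by tauto), key b (by tauto), key c (by tauto), key d (by tauto)⟩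

private theorem t2b_22 {a b : ℕ} (hab : a ≠ b) :
    (Finsupp.single a 1 + (Finsupp.single a 1 + (Finsupp.single b 1 + Finsupp.single b 1)) : ℕ →₀ ℕ) a = 2 ∧
    (Finsupp.single a 1 + (Finsupp.single a 1 + (Finsupp.single b 1 + Finsupp.single b 1)) : ℕ →₀ ℕ) b = 2 := by
  simp only [Finsupp.add_apply, Finsupp.single_eq_same, Finsupp.single_eq_of_ne hab,
    Finsupp.single_eq_of_ne (Ne.symm hab)]
  exact ⟨rfl, rfl⟩

theorem MS.K3 (h : MS p R) (hp : 3 ≤ p) {n : ℕ} (hn : 1 ≤ n) (h0 : z 0 * z 1 * z 2 ∈ R (n + (p - 1)) 3) :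
    Nt p n ≤ R n 4 := by
  have h1 : ∀ i j k : ℕ, i < n + (p - 1) → j < n + (p - 1) → k < n + (p - 1) → i ≠ j → i ≠ k → j ≠ k →
      (z i * z j * z k : Z p) ∈ R (n + (p - 1)) 3 := by
    intro i j k hi hj hk hij hik hjk
    obtain ⟨σ, h3, h4, h5, h6⟩ := t2b_perm3 hi hj hk hij hik hjk
    have h7 := t2b_rnm h (by omega) σ h3 h0
    rw [t2b_e3 (⇑σ) h4 h5 h6] at h7
    exact h7
  have q4 : ∀ i, i < n → (z i * (z i * z i * z i) : Z p) ∈ R n 4 := by
    intro i hi
    have h3 := h.idtS (by omega) hi (h1 i n (n + 1) (by omega) (by omega) (by omega) (by omega) (by omega) (by omega))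
    rw [t2b_s3 (t2b_lt hi) (t2b_ge le_rfl) (t2b_ge (Nat.le_succ n))] at h3
    exact h3
  have q31 : ∀ i j, i < n → j < n → i ≠ j → (z i * (z i * z i * z j) : Z p) ∈ R n 4 := by
    intro i j hi hj hij
    have h3 := h.idtS (by omega) hi (h1 i n j (by omega) (by omega) (by omega) (by omega) hij (by omega))
    rw [t2b_s3 (t2b_lt hi) (t2b_ge le_rfl) (t2b_lt hj)] at h3
    exact h3
  have q21 : ∀ i j k l, i < n → j < n → k < n → l < n → j ≠ k → j ≠ l → k ≠ l →
      (z i * (z j * z k * z l) : Z p) ∈ R n 4 := by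
    intro i j k l hi hj hk hl hjk hjl hkl
    have h3 := h.idtS (by omega) hi (h1 j k l (by omega) (by omega) (by omega) hjk hjl hkl)
    rw [t2b_s3 (t2b_lt hj) (t2b_lt hk) (t2b_lt hl)] at h3
    exact h3
  refine Submodule.span_le.2 ?_
  rintro F ⟨m, hm, hd, h22, rfl⟩
  obtain ⟨a, b, c, d, rfl⟩ := t2b_four hd
  obtain ⟨ha, hb, hc, hd'⟩ := t2b_key hm
  rw [SetLike.mem_coe, t2b_mo4]
  by_cases ab : a = b
  · subst ab
    by_cases ac : a = c
    · subst ac
      by_cases ad : a = d
      · subst ad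
        have e : (z a * z a * z a * z a : Z p) = z a * (z a * z a * z a) := by ring
        rw [e]
        exact q4 a ha
      · have e : (z a * z a * z a * z d : Z p) = z a * (z a * z a * z d) := by ring
        rw [e]
        exact q31 a d ha hd' ad
    · by_cases ad : a = d
      · subst ad
        have e : (z a * z a * z c * z a : Z p) = z a * (z a * z a * z c) := by ring
        rw [e]
        exact q31 a c ha hc ac
      · by_cases cd : c = d
        · subst cd
          exact absurd (t2b_22 ac) (h22 a c ac)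
        · have e : (z a * z a * z c * z d : Z p) = z a * (z a * z c * z d) := by ring
          rw [e]
          exact q21 a a c d ha ha hc hd' ac ad cd
  · by_cases ac : a = c
    · subst ac
      by_cases ad : a = d
      · subst ad
        have e : (z a * z b * z a * z a : Z p) = z a * (z a * z a * z b) := by ring
        rw [e]
        exact q31 a b ha hb ab
      · by_cases bd : b = d
        · subst bd
          exfalso
          refine h22 a b ab ?_
          have e : (Finsupp.single a 1 + (Finsupp.single b 1 + (Finsupp.single a 1 + Finsupp.single b 1)) : ℕ →₀ ℕ) =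
              Finsupp.single a 1 + (Finsupp.single a 1 + (Finsupp.single b 1 + Finsupp.single b 1)) := by abel
          rw [e]
          exact t2b_22 ab
        · have e : (z a * z b * z a * z d : Z p) = z a * (z a * z b * z d) := by ring
          rw [e]
          exact q21 a a b d ha ha hb hd' ab ad bd
    · by_cases ad : a = d
      · subst ad
        by_cases bc : b = c
        · subst bc
          exfalso
          refine h22 a b ab ?_
          have e : (Finsupp.single a 1 + (Finsupp.single b 1 + (Finsupp.single b 1 + Finsupp.single a 1)) : ℕ →₀ ℕ) =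
              Finsupp.single a 1 + (Finsupp.single a 1 + (Finsupp.single b 1 + Finsupp.single b 1)) := by abel
          rw [e]
          exact t2b_22 ab
        · have e : (z a * z b * z c * z a : Z p) = z a * (z a * z b * z c) := by ring
          rw [e]
          exact q21 a a b c ha ha hb hc ab ac bc
      · by_cases bc : b = c
        · subst bc
          by_cases bd : b = d
          · subst bd
            have e : (z a * z b * z b * z b : Z p) = z b * (z b * z b * z a) := by ring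
            rw [e]
            exact q31 b a hb ha (Ne.symm ab)
          · have e : (z a * z b * z b * z d : Z p) = z b * (z b * z a * z d) := by ring
            rw [e]
            exact q21 b b a d hb hb ha hd' (Ne.symm ab) bd ad
        · by_cases bd : b = d
          · subst bd
            have e : (z a * z b * z c * z b : Z p) = z b * (z b * z a * z c) := by ring
            rw [e]
            exact q21 b b a c hb hb ha hc (Ne.symm ab) bc ac
          · have e : (z a * z b * z c * z d : Z p) = z c * (z a * z b * z d) := by ring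
            rw [e]
            exact q21 c a b d hc ha hb hd' ab ad bd

private theorem t2b_sum3 {m : ℕ →₀ ℕ} {i j y : ℕ} (hij : i ≠ j) (hiy : i ≠ y) (hjy : j ≠ y) :
    m i + m j + m y ≤ m.degree := by
  have h1 : Finsupp.single i (m i) + Finsupp.single j (m j) + Finsupp.single y (m y) ≤ m := by
    intro x
    rw [Finsupp.add_apply, Finsupp.add_apply]
    by_cases h1 : x = i
    · subst h1
      rw [Finsupp.single_eq_same, Finsupp.single_eq_of_ne hij, Finsupp.single_eq_of_ne hiy]
      omega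
    · by_cases h2 : x = j
      · subst h2
        rw [Finsupp.single_eq_same, Finsupp.single_eq_of_ne h1, Finsupp.single_eq_of_ne hjy]
        omega
      · by_cases h3 : x = y
        · subst h3
          rw [Finsupp.single_eq_same, Finsupp.single_eq_of_ne h1, Finsupp.single_eq_of_ne h2]
          omega
        · rw [Finsupp.single_eq_of_ne h1, Finsupp.single_eq_of_ne h2, Finsupp.single_eq_of_ne h3]
          omega
  have h2 := Finsupp.degree_mono h1
  rw [map_add, map_add, Finsupp.degree_single, Finsupp.degree_single, Finsupp.degree_single] at h2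
  exact h2

theorem Nt_Hh {n : ℕ} : Nt p n ≤ Hh p n 4 := by
  refine Submodule.span_mono ?_
  rintro F ⟨m, hm, hd, -, rfl⟩
  exact ⟨m, hm, hd, rfl⟩

theorem MS.K5 (h : MS p R) (hp : 2 ≤ p) {n : ℕ} (hn : 1 ≤ n) (h0 : Nt p n ≤ R (n + (p - 1)) 4) :
    Hh p n 5 ≤ R n 5 := by
  have key : ∀ (x : ℕ) (m : ℕ →₀ ℕ), (∀ i, n ≤ i → (Finsupp.single x 1 + m : ℕ →₀ ℕ) i = 0) → m.degree = 4 →
      (∀ i j, i ≠ j → ¬ (m i = 2 ∧ m j = 2)) → (mo (Finsupp.single x 1 + m) : Z p) ∈ R n 5 := by
    intro x m hm hd h22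
    have hx : x < n := by
      by_contra hx
      have h1 := hm x (not_lt.1 hx)
      rw [Finsupp.add_apply, Finsupp.single_eq_same] at h1
      omega
    have hm' : ∀ i, n ≤ i → m i = 0 := by
      intro i hi
      have h1 := hm i hi
      rw [Finsupp.add_apply] at h1
      omega
    have h1 : (mo m : Z p) ∈ Nt p n := Submodule.subset_span ⟨m, hm', hd, h22, rfl⟩
    have h2 := h.idtS hp hx (h0 h1)
    rw [t2b_std (Nt_Hh h1)] at h2
    rw [mo_add, t2b_mo1]
    exact h2
  refine Submodule.span_le.2 ?_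
  rintro F ⟨m, hm, hd, rfl⟩
  rw [SetLike.mem_coe]
  obtain ⟨x, m', rfl, h1⟩ := t2b_dec (k := 4) hd
  by_cases hT : ∀ i j, i ≠ j → ¬ (m' i = 2 ∧ m' j = 2)
  · exact key x m' hm h1 hT
  · push Not at hT
    obtain ⟨a, b, hab, ha, hb⟩ := hT
    obtain ⟨y, hyx, hy⟩ : ∃ y, y ≠ x ∧ m' y = 2 := by
      by_cases hx : a = x
      · exact ⟨b, fun h => hab (hx.trans h.symm), hb⟩
      · exact ⟨a, hx, ha⟩
    have hs : Finsupp.single y 1 ≤ m' := by
      rw [Finsupp.single_le_iff]
      omega
    obtain ⟨m'', hm''⟩ : ∃ m'', m' = Finsupp.single y 1 + m'' := ⟨m' - Finsupp.single y 1, (add_tsub_cancel_of_le hs).symm⟩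
    subst hm''
    have e : (Finsupp.single x 1 + (Finsupp.single y 1 + m'') : ℕ →₀ ℕ) =
        Finsupp.single y 1 + (Finsupp.single x 1 + m'') := by abel
    rw [map_add, Finsupp.degree_single] at h1
    rw [Finsupp.add_apply, Finsupp.single_eq_same] at hy
    rw [e] at hm ⊢
    have hd' : (Finsupp.single x 1 + m'').degree = 4 := by
      rw [map_add, Finsupp.degree_single]
      omega
    refine key y _ hm hd' ?_
    intro i j hij hcon
    have hy1 : (Finsupp.single x 1 + m'' : ℕ →₀ ℕ) y = 1 := by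
      rw [Finsupp.add_apply, Finsupp.single_eq_of_ne hyx]
      omega
    have hiy : i ≠ y := by
      rintro rfl
      omega
    have hjy : j ≠ y := by
      rintro rfl
      omega
    have h5 := t2b_sum3 (m := Finsupp.single x 1 + m'') hij hiy hjy
    omega

private theorem t2b_cov (n : ℕ) : ∀ k ≤ n, ∀ S : Finset ℕ, (∀ x ∈ S, x < n) → S.card ≤ k →
    ∃ σ : Equiv.Perm ℕ, (∀ t < n, σ t < n) ∧ ∀ x ∈ S, ∃ t < k, σ t = x := by
  intro k
  induction k with
  | zero =>
    intro _ S _ hS
    have h0 : S = ∅ := Finset.card_eq_zero.1 (by omega)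
    refine ⟨1, fun t ht => ht, ?_⟩
    intro x hx
    rw [h0] at hx
    exact absurd hx (Finset.notMem_empty x)
  | succ k ih =>
    intro hk S hSn hS
    by_cases hne : S.Nonempty
    · obtain ⟨x, hx⟩ := hne
      obtain ⟨σ, h1, h2⟩ := ih (by omega) (S.erase x) (fun y hy => hSn y (Finset.mem_of_mem_erase hy))
        (by rw [Finset.card_erase_of_mem hx]; omega)
      by_cases hc : ∃ t < k, σ t = x
      · refine ⟨σ, h1, fun y hy => ?_⟩
        by_cases hyx : y = x
        · obtain ⟨t, ht, e⟩ := hc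
          exact ⟨t, by omega, by rw [e, hyx]⟩
        · obtain ⟨t, ht, e⟩ := h2 y (Finset.mem_erase.2 ⟨hyx, hy⟩)
          exact ⟨t, by omega, e⟩
      · refine ⟨Equiv.swap (σ k) x * σ, fun t ht => ?_, fun y hy => ?_⟩
        · rw [Equiv.Perm.mul_apply]
          exact t2b_swap (h1 k (by omega)) (hSn x hx) (h1 t ht)
        · by_cases hyx : y = x
          · refine ⟨k, by omega, ?_⟩
            rw [Equiv.Perm.mul_apply, Equiv.swap_apply_left, hyx]
          · obtain ⟨t, ht, e⟩ := h2 y (Finset.mem_erase.2 ⟨hyx, hy⟩)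
            refine ⟨t, by omega, ?_⟩
            rw [Equiv.Perm.mul_apply, e]
            refine Equiv.swap_apply_of_ne_of_ne ?_ hyx
            rw [← e]
            intro h3
            have := σ.injective h3
            omega
    · rw [Finset.not_nonempty_iff_eq_empty] at hne
      refine ⟨1, fun t ht => ht, ?_⟩
      intro x hx
      rw [hne] at hx
      exact absurd hx (Finset.notMem_empty x)

theorem MS.NtUp (h : MS p R) {n : ℕ} (hn : 5 ≤ n) (h0 : Nt p 5 ≤ R 5 4) : Nt p n ≤ R n 4 := by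
  refine Submodule.span_le.2 ?_
  rintro F ⟨m, hm, hd, h22, rfl⟩
  rw [SetLike.mem_coe]
  obtain ⟨a, b, c, d, habcd⟩ := t2b_four hd
  have hm' := hm
  rw [habcd] at hm'
  obtain ⟨ha, hb, hc, hd'⟩ := t2b_key hm'
  obtain ⟨σ, h1, h2⟩ := t2b_cov n 5 hn {a, b, c, d} (by
    intro x hx
    simp only [Finset.mem_insert, Finset.mem_singleton] at hx
    rcases hx with rfl | rfl | rfl | rfl <;> assumption) (by
    have := Finset.card_le_four (a := a) (b := b) (c := c) (d := d)
    omega)
  have hs : ∀ x, m x ≠ 0 → x ∈ ({a, b, c, d} : Finset ℕ) := by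
    intro x hx
    by_contra hxx
    simp only [Finset.mem_insert, Finset.mem_singleton, not_or] at hxx
    obtain ⟨x1, x2, x3, x4⟩ := hxx
    refine hx ?_
    rw [habcd, Finsupp.add_apply, Finsupp.add_apply, Finsupp.add_apply, Finsupp.single_eq_of_ne x1,
      Finsupp.single_eq_of_ne x2, Finsupp.single_eq_of_ne x3, Finsupp.single_eq_of_ne x4]
    rfl
  obtain ⟨m0, hm0⟩ : ∃ m0 : ℕ →₀ ℕ, m0 = m.mapDomain σ.symm := ⟨_, rfl⟩
  have hv : ∀ i, m0 i = m (σ i) := by
    intro i
    rw [hm0]
    have h3 := Finsupp.mapDomain_apply σ.symm.injective m (σ i)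
    rw [Equiv.symm_apply_apply] at h3
    exact h3
  have hmm : m0.mapDomain σ = m := by
    rw [hm0, ← Finsupp.mapDomain_comp]
    have e : (⇑σ ∘ ⇑σ.symm : ℕ → ℕ) = id := by
      funext t
      exact σ.apply_symm_apply t
    rw [e, Finsupp.mapDomain_id]
  have h3 : (mo m0 : Z p) ∈ Nt p 5 := by
    refine Submodule.subset_span ⟨m0, ?_, ?_, ?_, rfl⟩
    · intro i hi
      rw [hv]
      by_contra hc
      obtain ⟨t, ht, e⟩ := h2 _ (hs _ hc)
      have := σ.injective e
      omega
    · rw [hm0, Finsupp.degree_mapDomain]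
      exact hd
    · intro i j hij hc
      rw [hv, hv] at hc
      exact h22 (σ i) (σ j) (fun e => hij (σ.injective e)) hc
  have h4 := t2b_rnm h (by norm_num) σ (n := 5) (n' := n) (fun t ht => h1 t (by omega)) (h0 h3)
  rw [rn_mo, hmm] at h4
  exact h4

theorem Nt_le {n n' : ℕ} (h : n ≤ n') : Nt p n ≤ Nt p n' := by
  refine Submodule.span_mono ?_
  rintro F ⟨m, hm, hd, h22, rfl⟩
  exact ⟨m, fun i hi => hm i (h.trans hi), hd, h22, rfl⟩

end ADQ
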