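import Pool.Agent.ADQ.Exp2
import Pool.Agent.ADQ.Tool2b
import Pool.Agent.ADQ.Tool2c

/-! # ADQ-BAlt: the four alternatives for `R 4 2`, `p = 2` -/

namespace ADQ

open AD ADN ADC

variable {R : ℕ → ℕ → Submodule (ZMod 2) (Z 2)}

private noncomputable def Ee (a b c d e f : ZMod 2) : Z 2 :=
  a • (z 0 * z 1) + b • (z 0 * z 2) + c • (z 0 * z 3) + d • (z 1 * z 2) + e • (z 1 * z 3) + f • (z 2 * z 3)

private theorem rn_e (g : ℕ → ℕ) (i j : ℕ) : rn g (z i * z j : Z 2) = z (g i) * z (g j) := by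
  rw [map_mul, rn_z, rn_z]

private theorem rn_Ee (g : ℕ → ℕ) (a b c d e f : ZMod 2) : rn g (Ee a b c d e f) =
    a • (z (g 0) * z (g 1)) + b • (z (g 0) * z (g 2)) + c • (z (g 0) * z (g 3)) + d • (z (g 1) * z (g 2)) +
      e • (z (g 1) * z (g 3)) + f • (z (g 2) * z (g 3)) := by
  unfold Ee
  simp only [map_add, map_smul, rn_e]

private theorem s01 (a b c d e f : ZMod 2) : rn (Equiv.swap 0 1) (Ee a b c d e f) = Ee a d e b c f := by
  rw [rn_Ee]
  have q0 : Equiv.swap 0 1 0 = 1 := by decide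
  have q1 : Equiv.swap 0 1 1 = 0 := by decide
  have q2 : Equiv.swap 0 1 2 = 2 := by decide
  have q3 : Equiv.swap 0 1 3 = 3 := by decide
  rw [q0, q1, q2, q3]
  unfold Ee
  simp only [MvPolynomial.smul_eq_C_mul]
  ring

private theorem s02 (a b c d e f : ZMod 2) : rn (Equiv.swap 0 2) (Ee a b c d e f) = Ee d b f a e c := by
  rw [rn_Ee]
  have q0 : Equiv.swap 0 2 0 = 2 := by decide
  have q1 : Equiv.swap 0 2 1 = 1 := by decide
  have q2 : Equiv.swap 0 2 2 = 0 := by decide
  have q3 : Equiv.swap 0 2 3 = 3 := by decide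
  rw [q0, q1, q2, q3]
  unfold Ee
  simp only [MvPolynomial.smul_eq_C_mul]
  ring

private theorem s03 (a b c d e f : ZMod 2) : rn (Equiv.swap 0 3) (Ee a b c d e f) = Ee e f c d a b := by
  rw [rn_Ee]
  have q0 : Equiv.swap 0 3 0 = 3 := by decide
  have q1 : Equiv.swap 0 3 1 = 1 := by decide
  have q2 : Equiv.swap 0 3 2 = 2 := by decide
  have q3 : Equiv.swap 0 3 3 = 0 := by decide
  rw [q0, q1, q2, q3]
  unfold Ee
  simp only [MvPolynomial.smul_eq_C_mul]
  ring

private theorem s12 (a b c d e f : ZMod 2) : rn (Equiv.swap 1 2) (Ee a b c d e f) = Ee b a c d f e := by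
  rw [rn_Ee]
  have q0 : Equiv.swap 1 2 0 = 0 := by decide
  have q1 : Equiv.swap 1 2 1 = 2 := by decide
  have q2 : Equiv.swap 1 2 2 = 1 := by decide
  have q3 : Equiv.swap 1 2 3 = 3 := by decide
  rw [q0, q1, q2, q3]
  unfold Ee
  simp only [MvPolynomial.smul_eq_C_mul]
  ring

private theorem s13 (a b c d e f : ZMod 2) : rn (Equiv.swap 1 3) (Ee a b c d e f) = Ee c b a f e d := by
  rw [rn_Ee]
  have q0 : Equiv.swap 1 3 0 = 0 := by decide
  have q1 : Equiv.swap 1 3 1 = 3 := by decide
  have q2 : Equiv.swap 1 3 2 = 2 := by decide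
  have q3 : Equiv.swap 1 3 3 = 1 := by decide
  rw [q0, q1, q2, q3]
  unfold Ee
  simp only [MvPolynomial.smul_eq_C_mul]
  ring

private theorem s23 (a b c d e f : ZMod 2) : rn (Equiv.swap 2 3) (Ee a b c d e f) = Ee a c b e d f := by
  rw [rn_Ee]
  have q0 : Equiv.swap 2 3 0 = 0 := by decide
  have q1 : Equiv.swap 2 3 1 = 1 := by decide
  have q2 : Equiv.swap 2 3 2 = 3 := by decide
  have q3 : Equiv.swap 2 3 3 = 2 := by decide
  rw [q0, q1, q2, q3]
  unfold Ee
  simp only [MvPolynomial.smul_eq_C_mul]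
  ring

private theorem Ee_add (a b c d e f a' b' c' d' e' f' : ZMod 2) : Ee a b c d e f + Ee a' b' c' d' e' f' =
    Ee (a + a') (b + b') (c + c') (d + d') (e + e') (f + f') := by
  unfold Ee
  module

private theorem gM_eq : gM = Ee 1 0 0 0 0 1 := by
  unfold gM Ee
  simp only [one_smul, zero_smul, add_zero]

private theorem gT_eq : gT = Ee 1 1 0 1 0 0 := by
  unfold gT Ee
  simp only [one_smul, zero_smul, add_zero]

private theorem gS_eq : gS = Ee 1 1 1 0 0 0 := by
  unfold gS Ee
  simp only [one_smul, zero_smul, add_zero]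

private theorem gJ_eq : gJ = Ee 1 1 1 1 1 1 := by
  unfold gJ Ee
  simp only [one_smul]

private theorem Ee_zero : Ee 0 0 0 0 0 0 = 0 := by
  unfold Ee
  simp only [zero_smul, add_zero]

private theorem c1_eq : (z 0 + z 1) * (z 2 + z 3) = Ee 0 1 1 1 1 0 := by
  unfold Ee
  simp only [one_smul, zero_smul, add_zero, zero_add]
  ring

private theorem c2_eq : (z 0 + z 2) * (z 1 + z 3) = Ee 1 0 1 1 0 1 := by
  unfold Ee
  simp only [one_smul, zero_smul, add_zero]
  ring

private theorem two_cases (x : ZMod 2) : x = 0 ∨ x = 1 := by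
  revert x
  decide

private theorem ne_cases (x y : ZMod 2) (h : x ≠ y) : x = 1 ∧ y = 0 ∨ x = 0 ∧ y = 1 := by
  revert x y
  decide

private theorem dbl (x : ZMod 2) : x + x = 0 := by
  revert x
  decide

private theorem rel_aux (a b c d e f : ZMod 2) (h1 : b + d = c + e) (h2 : a + d = c + f) :
    (d = c ∧ e = b ∧ f = a) ∨ (d = c + 1 ∧ e = b + 1 ∧ f = a + 1) := by
  revert a b c d e f
  decide

private theorem swN (h : MS2 R) {i j : ℕ} (hi : i < 4) (hj : j < 4) {F : Z 2} (hF : F ∈ R 4 2) :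
    rn (Equiv.swap i j) F ∈ R 4 2 := by
  refine h.ren 4 4 2 (Equiv.swap i j) (by norm_num) (fun k hk => ?_) (fun k _ l _ hkl => (Equiv.swap i j).injective hkl) F hF
  rw [Equiv.swap_apply_def]
  split_ifs <;> omega

/-- a path gives a matching -/
private theorem path (h : MS2 R) (hF : Ee 0 1 0 1 0 0 ∈ R 4 2) : gM ∈ R 4 2 := by
  -- edges 02, 12; swap 0 2: edges 02, 01
  have h1 := swN h (i := 0) (j := 2) (by norm_num) (by norm_num) hF
  rw [s02] at h1
  -- edges 01, 02; swap 1 3 of 02, 12: 02, 23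
  have h2 := swN h (i := 1) (j := 3) (by norm_num) (by norm_num) hF
  rw [s13] at h2
  have h3 := (R 4 2).add_mem h1 h2
  rw [Ee_add] at h3
  rw [gM_eq]
  simpa only [add_zero, zero_add, dbl] using h3

private theorem xx_path (h : MS2 R) {i : ℕ} (hi : i < 4) (h1 : z i + z 4 ∈ R 5 1) : gM ∈ R 4 2 := by
  apply path h
  have h2 : z 0 + z 1 ∈ R 5 1 := by
    have h3 : z 0 + z 4 ∈ R 5 1 := by
      have h4 := h.ren 5 5 1 (Equiv.swap 0 i) (by norm_num) (fun k hk => by
        rw [Equiv.swap_apply_def]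
        split_ifs <;> omega) (fun k _ l _ hkl => (Equiv.swap 0 i).injective hkl) _ h1
      rw [map_add, rn_z, rn_z, Equiv.swap_apply_right, Equiv.swap_apply_of_ne_of_ne (by norm_num) (by omega)] at h4
      exact h4
    have h4 := h.ren 5 5 1 (Equiv.swap 1 4) (by norm_num) (fun k hk => by
        rw [Equiv.swap_apply_def]
        split_ifs <;> omega) (fun k _ l _ hkl => (Equiv.swap 1 4).injective hkl) _ h3
    rw [map_add, rn_z, rn_z, Equiv.swap_apply_right, Equiv.swap_apply_of_ne_of_ne (by norm_num) (by norm_num)] at h4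
    exact h4
  have h5 := h.toMS.idtS (le_refl 2) (n := 4) (k := 1) (i := 2) (by norm_num) (F := z 0 + z 1) h2
  rw [map_add, rn_z, rn_z, if_pos (by norm_num), if_pos (by norm_num)] at h5
  have e : Ee 0 1 0 1 0 0 = z 2 * (z 0 + z 1) := by
    unfold Ee
    simp only [one_smul, zero_smul, add_zero, zero_add]
    ring
  rw [e]
  exact h5

theorem balt (h : MS2 R) {F : Z 2} (hF : F ∈ R 4 2) (hY : F ∉ Y4) : Alt (R 4 2) := by
  by_cases hM : gM ∈ R 4 2
  · exact Or.inr (Or.inl hM)
  by_cases hT : gT ∈ R 4 2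
  · exact Or.inr (Or.inr (Or.inl hT))
  by_cases hS : gS ∈ R 4 2
  · exact Or.inr (Or.inr (Or.inr hS))
  -- all elements are of the form `Ee`
  have form : ∀ G ∈ R 4 2, ∃ a b c d e f, G = Ee a b c d e f := by
    intro G hG
    obtain ⟨d, c, hG'⟩ := exp42 (h.le 4 2 (by norm_num) hG)
    obtain ⟨x0, x1, x2, x3⟩ := xx_E42 d c
    have k : ∀ i < 4, xx i 4 G = d i • (z i + z 4) → d i = 0 := by
      intro i hi hx
      rcases two_cases (d i) with h0 | h0
      · exact h0
      · exfalso
        have h1 := h.xx 4 1 i hi G hG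
        rw [hx, h0, one_smul] at h1
        exact hM (xx_path h hi h1)
    have k0 := k 0 (by norm_num) (by rw [hG']; exact x0)
    have k1 := k 1 (by norm_num) (by rw [hG']; exact x1)
    have k2 := k 2 (by norm_num) (by rw [hG']; exact x2)
    have k3 := k 3 (by norm_num) (by rw [hG']; exact x3)
    refine ⟨c 0 1, c 0 2, c 0 3, c 1 2, c 1 3, c 2 3, ?_⟩
    rw [hG']
    unfold E42 Ee
    rw [k0, k1, k2, k3]
    simp only [zero_smul, zero_add]
  have np : Ee 0 1 0 1 0 0 ∉ R 4 2 := fun h1 => hM (path h h1)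
  -- the relations
  have rel : ∀ a b c d e f, Ee a b c d e f ∈ R 4 2 →
      (d = c ∧ e = b ∧ f = a) ∨ (d = c + 1 ∧ e = b + 1 ∧ f = a + 1) := by
    intro a b c d e f hG
    refine rel_aux a b c d e f ?_ ?_
    · by_contra hne
      have h1 := (R 4 2).add_mem hG (swN h (i := 0) (j := 1) (by norm_num) (by norm_num) hG)
      rw [s01, Ee_add, dbl, dbl, add_comm d b, add_comm e c] at h1
      rcases ne_cases _ _ hne with ⟨e1, e2⟩ | ⟨e1, e2⟩
      · rw [e1, e2] at h1
        exact np h1
      · rw [e1, e2] at h1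
        have h2 := swN h (i := 2) (j := 3) (by norm_num) (by norm_num) h1
        rw [s23] at h2
        exact np h2
    · by_contra hne
      have h1 := (R 4 2).add_mem hG (swN h (i := 0) (j := 2) (by norm_num) (by norm_num) hG)
      rw [s02, Ee_add, dbl, dbl, add_comm d a, add_comm f c] at h1
      rcases ne_cases _ _ hne with ⟨e1, e2⟩ | ⟨e1, e2⟩
      · rw [e1, e2] at h1
        -- edges 01, 12
        have h2 := swN h (i := 1) (j := 2) (by norm_num) (by norm_num) h1
        rw [s12] at h2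
        exact np h2
      · rw [e1, e2] at h1
        -- edges 03, 23
        have h2 := swN h (i := 2) (j := 3) (by norm_num) (by norm_num) h1
        rw [s23] at h2
        -- edges 02, 23
        have h3 := swN h (i := 1) (j := 3) (by norm_num) (by norm_num) h2
        rw [s13] at h3
        exact np h3
  -- the case s = 1
  have one : ∀ a b c : ZMod 2, Ee a b c (c + 1) (b + 1) (a + 1) ∉ R 4 2 := by
    intro a b c hG
    have t11 : (1 : ZMod 2) + 1 = 0 := by decide
    rw [gT_eq] at hT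
    rw [gS_eq] at hS
    rcases two_cases a with rfl | rfl <;> rcases two_cases b with rfl | rfl <;> rcases two_cases c with rfl | rfl <;>
      simp only [t11, zero_add] at hG
    · have h1 := swN h (i := 0) (j := 3) (by norm_num) (by norm_num) hG
      rw [s03] at h1
      exact hT h1
    · have h1 := swN h (i := 0) (j := 3) (by norm_num) (by norm_num) hG
      rw [s03] at h1
      exact hS h1
    · have h1 := swN h (i := 0) (j := 2) (by norm_num) (by norm_num) hG
      rw [s02] at h1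
      exact hS h1
    · have h1 := swN h (i := 1) (j := 3) (by norm_num) (by norm_num) hG
      rw [s13] at h1
      exact hT h1
    · have h1 := swN h (i := 0) (j := 1) (by norm_num) (by norm_num) hG
      rw [s01] at h1
      exact hS h1
    · have h1 := swN h (i := 2) (j := 3) (by norm_num) (by norm_num) hG
      rw [s23] at h1
      exact hT h1
    · exact hT hG
    · exact hS hG
  -- no matchings
  have m1 : Ee 1 0 0 0 0 1 ∉ R 4 2 := by rwa [← gM_eq]
  have m2 : Ee 0 1 0 0 1 0 ∉ R 4 2 := fun h1 => m1 (by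
    have h2 := swN h (i := 1) (j := 2) (by norm_num) (by norm_num) h1
    rwa [s12] at h2)
  have m3 : Ee 0 0 1 1 0 0 ∉ R 4 2 := fun h1 => m1 (by
    have h2 := swN h (i := 1) (j := 3) (by norm_num) (by norm_num) h1
    rwa [s13] at h2)
  have c1Y : Ee 0 1 1 1 1 0 ∈ Y4 := by
    rw [← c1_eq]
    exact Submodule.subset_span (Or.inl rfl)
  have c2Y : Ee 1 0 1 1 0 1 ∈ Y4 := by
    rw [← c2_eq]
    exact Submodule.subset_span (Or.inr rfl)
  have c3Y : Ee 1 1 0 0 1 1 ∈ Y4 := by
    have h1 := Y4.add_mem c1Y c2Y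
    rw [Ee_add] at h1
    simpa only [add_zero, zero_add, dbl] using h1
  have five : ∀ G ∈ R 4 2, G = 0 ∨ G = Ee 1 1 1 1 1 1 ∨ G = Ee 0 1 1 1 1 0 ∨ G = Ee 1 0 1 1 0 1 ∨
      G = Ee 1 1 0 0 1 1 := by
    intro G hG
    obtain ⟨a, b, c, d, e, f, rfl⟩ := form G hG
    rcases rel a b c d e f hG with ⟨rfl, rfl, rfl⟩ | ⟨rfl, rfl, rfl⟩
    · rcases two_cases f with rfl | rfl <;> rcases two_cases e with rfl | rfl <;> rcases two_cases d with rfl | rfl
      · exact Or.inl Ee_zero
      · exact absurd hG m3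
      · exact absurd hG m2
      · exact Or.inr (Or.inr (Or.inl rfl))
      · exact absurd hG m1
      · exact Or.inr (Or.inr (Or.inr (Or.inl rfl)))
      · exact Or.inr (Or.inr (Or.inr (Or.inr rfl)))
      · exact Or.inr (Or.inl rfl)
    · exact absurd hG (one a b c)
  have hFJ : F = Ee 1 1 1 1 1 1 := by
    rcases five F hF with rfl | rfl | rfl | rfl | rfl
    · exact absurd Y4.zero_mem hY
    · rfl
    · exact absurd c1Y hY
    · exact absurd c2Y hY
    · exact absurd c3Y hY
  have hJ : Ee 1 1 1 1 1 1 ∈ R 4 2 := hFJ ▸ hF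
  refine Or.inl ⟨by rw [gJ_eq]; exact hJ, fun G hG => ?_⟩
  rcases five G hG with rfl | rfl | rfl | rfl | rfl
  · exact Submodule.zero_mem _
  · rw [← gJ_eq]
    exact Submodule.mem_span_singleton_self _
  · exfalso
    have h1 := (R 4 2).add_mem hJ hG
    rw [Ee_add] at h1
    simp only [add_zero, dbl] at h1
    exact m1 h1
  · exfalso
    have h1 := (R 4 2).add_mem hJ hG
    rw [Ee_add] at h1
    simp only [add_zero, dbl] at h1
    exact m2 h1
  · exfalso
    have h1 := (R 4 2).add_mem hJ hG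
    rw [Ee_add] at h1
    simp only [add_zero, dbl] at h1
    exact m3 h1

end ADQ
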