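import Pool.Agent.ADQ.Tool2b
import Pool.Agent.ADQ.Tool2c
import Pool.Agent.ADQ.NoSq
import Pool.Agent.ADQ.ExpD

/-!
# ADQ-NoLP01

There are no leading pairs of degree 0, in one variable, or of degree 1.
-/

namespace ADQ

open AD ADN ADC

variable {p : ℕ} [Fact p.Prime] {R : ℕ → ℕ → Submodule (ZMod p) (Z p)}

private theorem noLP01_Hh1 {n : ℕ} (h1 : ∀ i < n, (z i : Z p) ∈ R n 1) : Hh p n 1 ≤ R n 1 := by
  intro F hF
  obtain ⟨c, hc⟩ := expN1 hF
  rw [hc]
  exact Submodule.sum_mem _ fun i hi => Submodule.smul_mem _ _ (h1 i (Finset.mem_range.mp hi))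

private theorem noLP01_inv {N : Submodule (ZMod p) (Z p)} {c : ZMod p} (hc : c ≠ 0) {F : Z p}
    (hF : c • F ∈ N) : F ∈ N := by
  have h := N.smul_mem c⁻¹ hF
  rwa [smul_smul, inv_mul_cancel₀ hc, one_smul] at h

private theorem noLP01_ev {n i : ℕ} (hi : i < n) (c : ℕ → ZMod p) :
    (∑ j ∈ Finset.range n, c j • (z j : Z p)) - ev i (∑ j ∈ Finset.range n, c j • (z j : Z p)) = c i • z i := by
  rw [map_sum, ← Finset.sum_sub_distrib, Finset.sum_eq_single i]
  · rw [map_smul, ev_z, if_pos rfl, smul_zero, sub_zero]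
  · intro j _ hj
    rw [map_smul, ev_z, if_neg hj, sub_self]
  · intro hn
    exact absurd (Finset.mem_range.mpr hi) hn

theorem noLP_0 (h : MS p R) {n l : ℕ} {u w : Z p} (hl : LP p R (SocB p R) n 0 l u w) : False := by
  have hp2 : 2 ≤ p := (Fact.out : p.Prime).two_le
  obtain ⟨c, hc⟩ := exp0 hl.su.hy
  have hc0 : c ≠ 0 := by
    intro h0
    apply hl.nu
    rw [hc, h0, zero_smul]
    exact Submodule.zero_mem _
  have h1 : ∀ i < n, (z i : Z p) ∈ R n 1 := by
    intro i hi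
    have h2 := SocB.mulz h hp2 hi hl.su
    rw [hc, mul_smul_comm, mul_one] at h2
    exact noLP01_inv hc0 h2
  have hH : Hh p n 1 ≤ R n 1 := noLP01_Hh1 h1
  have hl0 : l = 0 := by
    by_contra hne
    exact hl.nw (h.Kup hp2 hl.n1 hH (by omega) hl.sw.hy)
  subst hl0
  obtain ⟨c', hc'⟩ := exp0 hl.sw.hy
  refine hl.rank1 (E := 1) (x := c) (y := c') ?_ ?_
  · rw [hc, sub_self]
    exact Submodule.zero_mem _
  · rw [hc', sub_self]
    exact Submodule.zero_mem _

theorem noLP_n1 (h : MS p R) {k l : ℕ} {u w : Z p} (hl : LP p R (SocB p R) 1 k l u w) : False := by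
  have hp2 : 2 ≤ p := (Fact.out : p.Prime).two_le
  obtain ⟨c, hc⟩ := exp1k hl.su.hy
  obtain ⟨c', hc'⟩ := exp1k hl.sw.hy
  have hc0 : c ≠ 0 := by
    intro h0
    apply hl.nu
    rw [hc, h0, zero_smul]
    exact Submodule.zero_mem _
  rcases Nat.eq_or_lt_of_le hl.kl with hkl | hkl
  · subst hkl
    refine hl.rank1 (E := z 0 ^ k) (x := c) (y := c') ?_ ?_
    · rw [hc, sub_self]
      exact Submodule.zero_mem _
    · rw [hc', sub_self]
      exact Submodule.zero_mem _
  · have h1 : (z 0 : Z p) ^ (k + 1) ∈ R 1 (k + 1) := by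
      have h2 := SocB.mulz h hp2 Nat.one_pos hl.su
      rw [hc, mul_smul_comm, ← pow_succ'] at h2
      exact noLP01_inv hc0 h2
    have hH : Hh p 1 (k + 1) ≤ R 1 (k + 1) := by
      intro F hF
      obtain ⟨a, ha⟩ := exp1k hF
      rw [ha]
      exact Submodule.smul_mem _ _ h1
    exact hl.nw (h.Kup hp2 le_rfl hH hkl hl.sw.hy)

theorem noLP_1 (h : MS p R) {n l : ℕ} {u w : Z p} (hl : LP p R (SocB p R) n 1 l u w) : False := by
  have hp2 : 2 ≤ p := (Fact.out : p.Prime).two_le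
  obtain ⟨c, hc⟩ := expN1 hl.su.hy
  obtain ⟨i, hi, hci⟩ : ∃ i, i < n ∧ c i ≠ 0 := by
    by_contra hcon
    push Not at hcon
    apply hl.nu
    rw [hc]
    refine Submodule.sum_mem _ fun i hi => ?_
    rw [hcon i (Finset.mem_range.mp hi), zero_smul]
    exact Submodule.zero_mem _
  have h1 : (z i : Z p) ∈ R (n + 1) 1 := by
    have h2 := Submodule.sub_mem _ hl.su.ext (hl.su.zer i hi)
    rw [hc, noLP01_ev hi] at h2
    exact noLP01_inv hci h2
  have h0 : (z 0 : Z p) ∈ R (n + 1) 1 := by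
    have h2 := h.ren (n + 1) (n + 1) 1 (Equiv.swap i 0) (by omega) ?_ ?_ (z i) h1
    · rwa [rn_z, Equiv.swap_apply_left] at h2
    · intro j hj
      rcases eq_or_ne j i with e | e
      · rw [e, Equiv.swap_apply_left]
        omega
      · rcases eq_or_ne j 0 with e' | e'
        · rw [e', Equiv.swap_apply_right]
          omega
        · rw [Equiv.swap_apply_of_ne_of_ne e e']
          exact hj
    · intro a _ b _ hab
      exact (Equiv.swap i 0).injective hab
  have hH : Hh p n 2 ≤ R n 2 := h.K1 hp2 hl.n1 h0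
  have hl1 : l = 1 := by
    have := hl.kl
    by_contra hne
    exact hl.nw (h.Kup hp2 hl.n1 hH (by omega) hl.sw.hy)
  subst hl1
  exact hl.nu (NoLin (h.GAs hl.n1) hl.su.hy hl.sw.hy hl.Lkd)

end ADQ
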