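import Pool.Agent.ADQ.B51
import Pool.Agent.ADQ.BAlt
import Pool.Agent.ADQ.NoSq
import Pool.Agent.ADQ.NoLP01
import Pool.Agent.ADQ.ExpD

/-!
# ADQ-B2a

`n = 2`, `k = 2`.  `b51`, `b53`: `Hh 2 2 5 ≤ R 2 5`, `Kup`: `l ≤ 4`.
`k = 2`: `u = a_0 z_1^2 + a_1 z_0 z_1 + a_2 z_0^2` (`exp22`); `xx 0 2 u = a_2 (z_0 + z_2)`, `xx 1 2 u = a_0 (z_1 + z_2)` in `R 3 1`.  If `a_2 ≠ 0` or `a_0 ≠ 0` (for `u`, or `w` if `l = 2`): `z_a + z_b ∈ R 3 1`, `idtS` (`n = 2`, base 0, `F = z_2 + z_1` or `z_0 + z_1`): `z_0 (z_0 + z_1) ∈ R 2 2`: all congruent; `l = 2`: `rank1`;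
`l ≥ 3`: `ev 1 (z_0+z_1) = z_0 ∈ R 4 1`, `K1` (`n = 3`), `K0` (`n = 2`): `Hh 2 2 3 ≤ R 2 3`.  Otherwise `u = z_0 z_1`, `ext`: `z_0 z_1 ∈ R 3 2`, `b52`: `Hh 2 2 3 ≤ R 2 3`, `l = 2`, `rank1`.
-/

namespace ADQ

open AD ADN ADC

variable {R : ℕ → ℕ → Submodule (ZMod 2) (Z 2)}

private theorem b2a_xx (a : ℕ → ZMod 2) :
    xx 0 2 (a 0 • z 1 ^ 2 + a 1 • (z 0 * z 1) + a 2 • z 0 ^ 2) = a 2 • (z 0 + z 2) ∧
    xx 1 2 (a 0 • z 1 ^ 2 + a 1 • (z 0 * z 1) + a 2 • z 0 ^ 2) = a 0 • (z 1 + z 2) := by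
  have n01 : (z 1 : Z 2) ∈ NV 0 := z_NV (by omega)
  have n10 : (z 0 : Z 2) ∈ NV 1 := z_NV (by omega)
  have t0 : xx 0 2 (z 0 ^ 2) = z 0 + z 2 := by
    have h := xx_two (i := 0) (n := 2) (Subalgebra.one_mem (NV 0))
    rwa [mul_one, mul_one] at h
  have t1 : xx 1 2 (z 1 ^ 2) = z 1 + z 2 := by
    have h := xx_two (i := 1) (n := 2) (Subalgebra.one_mem (NV 1))
    rwa [mul_one, mul_one] at h
  have e : (z 0 * z 1 : Z 2) = z 1 * z 0 := mul_comm _ _
  constructor
  · rw [map_add, map_add, map_smul, map_smul, map_smul, xx_NV (Subalgebra.pow_mem _ n01 2), xx_one n01, t0,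
      smul_zero, smul_zero, zero_add, zero_add]
  · rw [map_add, map_add, map_smul, map_smul, map_smul, xx_NV (Subalgebra.pow_mem _ n10 2), e, xx_one n10, t1,
      smul_zero, smul_zero, add_zero, add_zero]

private theorem b2a_two (x : ZMod 2) : x = 0 ∨ x = 1 := by
  revert x
  decide

/-- renaming of a sum of two variables -/
private theorem b2a_ren (h : MS2 R) {a b : ℕ} (ha : a < 3) (hb : b < 3) (hab : a ≠ b) (h1 : z a + z b ∈ R 3 1)
    {c d : ℕ} (hc : c < 3) (hd : d < 3) (hcd : c ≠ d) : z c + z d ∈ R 3 1 := by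
  have h2 := h.ren 3 3 1 (fun i => if i = a then c else if i = b then d else 3 - c - d) (by omega)
    (fun i hi => by split_ifs <;> omega) (fun i hi j hj hij => by split_ifs at hij <;> omega) _ h1
  rw [map_add, rn_z, rn_z, if_pos rfl, if_neg (Ne.symm hab), if_pos rfl] at h2
  exact h2

private theorem b2a_soc (h : MS2 R) {y : Z 2} (hy : Soc2 R 2 2 y) :
    z 0 + z 1 ∈ R 3 1 ∨ ∃ c : ZMod 2, y = c • (z 0 * z 1) := by
  obtain ⟨a, ha⟩ := exp22 hy.hy
  obtain ⟨x0, x1⟩ := b2a_xx a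
  rw [← ha] at x0 x1
  have h0 := hy.xx (by omega) 0 (by omega)
  have h1 := hy.xx (by omega) 1 (by omega)
  rw [x0] at h0
  rw [x1] at h1
  rcases b2a_two (a 2) with e2 | e2
  · rcases b2a_two (a 0) with e0 | e0
    · right
      refine ⟨a 1, ?_⟩
      rw [ha, e2, e0, zero_smul, zero_smul, zero_add, add_zero]
    · left
      rw [e0, one_smul] at h1
      exact b2a_ren h (by omega) (by omega) (by omega) h1 (by omega) (by omega) (by omega)
  · left
    rw [e2, one_smul] at h0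
    exact b2a_ren h (by omega) (by omega) (by omega) h0 (by omega) (by omega) (by omega)

theorem bTwo2 (h : MS2 R) {F : Z 2} (hF : F ∈ R 4 2) (hY : F ∉ Y4) {l : ℕ} {u w : Z 2}
    (hl : LP 2 R (Soc2 R) 2 2 l u w) : False := by
  have hnw := hl.nw
  by_cases hP : z 0 + z 1 ∈ R 3 1
  · rcases Nat.lt_or_ge l 3 with h3 | h3
    · have h2 : l = 2 := le_antisymm (by omega) hl.kl
      subst h2
      have h4 := h.toMS.idtS (le_refl 2) (n := 2) (k := 1) (i := 0) (by omega) (F := z 2 + z 1)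
        (b2a_ren h (by omega) (by omega) (by omega) hP (by omega) (by omega) (by omega))
      have h5 := h.toMS.idtS (le_refl 2) (n := 2) (k := 1) (i := 1) (by omega) (F := z 0 + z 2)
        (b2a_ren h (by omega) (by omega) (by omega) hP (by omega) (by omega) (by omega))
      rw [map_add, rn_z, rn_z, if_neg (by omega), if_pos (by omega)] at h4
      rw [map_add, rn_z, rn_z, if_pos (by omega), if_neg (by omega)] at h5
      have key : ∀ y : Z 2, y ∈ Hh 2 2 2 → ∃ x : ZMod 2, y - x • (z 0 * z 1) ∈ R 2 2 := by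
        intro y hy
        obtain ⟨a, ha⟩ := exp22 hy
        refine ⟨a 0 + a 1 + a 2, ?_⟩
        have e : y - (a 0 + a 1 + a 2) • (z 0 * z 1) =
            a 2 • (z 0 * (z 0 + z 1)) + a 0 • (z 1 * (z 0 + z 1)) -
              (2 : ZMod 2) • (a 0 • (z 0 * z 1) + a 2 • (z 0 * z 1)) := by
          rw [ha]
          simp only [MvPolynomial.smul_eq_C_mul, map_add, map_ofNat]
          ring
        have e2 : (2 : ZMod 2) = 0 := by decide
        rw [e, e2, zero_smul, sub_zero]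
        exact (R 2 2).add_mem ((R 2 2).smul_mem _ h4) ((R 2 2).smul_mem _ h5)
      obtain ⟨x, hx⟩ := key u hl.su.hy
      obtain ⟨x', hx'⟩ := key w hl.sw.hy
      exact hl.rank1 hx hx'
    · have h4 := h.zer 3 1 1 (by omega) _ hP
      rw [map_add, ev_z, ev_z, if_neg (by omega), if_pos rfl, add_zero] at h4
      have h5 : Hh 2 3 2 ≤ R 3 2 := h.toMS.K1 (le_refl 2) (by omega) h4
      have h6 : Hh 2 2 3 ≤ R 2 3 := h.toMS.K0 (le_refl 2) (by omega) fun G hG => h5 (Hh_mono (by omega) hG)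
      exact hnw (h.toMS.Kup (le_refl 2) (by omega) h6 h3 hl.sw.hy)
  · obtain ⟨c, hc⟩ := (b2a_soc h hl.su).resolve_left hP
    rcases b2a_two c with e | e
    · apply hl.nu
      rw [hc, e, zero_smul]
      exact Submodule.zero_mem _
    · have h4 : z 0 * z 1 ∈ R 3 2 := by
        have h5 := hl.su.ext
        rwa [hc, e, one_smul] at h5
      have h6 : Hh 2 2 3 ≤ R 2 3 := b52 h (by omega) h4
      rcases Nat.lt_or_ge l 3 with h3 | h3
      · have h2 : l = 2 := le_antisymm (by omega) hl.kl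
        subst h2
        obtain ⟨c', hc'⟩ := (b2a_soc h hl.sw).resolve_left hP
        refine hl.rank1 (E := z 0 * z 1) (x := c) (y := c') ?_ ?_
        · rw [hc, sub_self]
          exact Submodule.zero_mem _
        · rw [hc', sub_self]
          exact Submodule.zero_mem _
      · exact hnw (h.toMS.Kup (le_refl 2) (by omega) h6 h3 hl.sw.hy)

end ADQ
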