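import Pool.Agent.ADQ.B51
import Pool.Agent.ADQ.BAlt
import Pool.Agent.ADQ.NoSq
import Pool.Agent.ADQ.NoLP01
import Pool.Agent.ADQ.ExpD

/-!
# ADQ-B2b

`n = 2`, `k = 3`.  `b51`, `b53`: `Hh 2 2 5 ≤ R 2 5`, `Kup`: `l ≤ 4`.
`k = 3`: `u = E23 a`; `xx_E23`.  If `a_1 ≠ 0` or `a_2 ≠ 0` (`u`, or `w` if `l = 3`): `(z_0 + z_2) z_1 ∈ R 3 2`, `ev 2`: `z_0 z_1 ∈ R 4 2`, `b52` (`n = 3`), `K0`: `Hh 2 2 4 ≤ R 2 4`: `l = 3`; `idtS` (base 0, `F = (z_1 + z_2) z_0`): `z_0^2 (z_1 + z_0) ∈ R 2 3`: `u ≡ (a_2 + a_3) z_0^3 + (a_0 + a_1) z_1^3`, `w` the same: `P1`.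
Otherwise `u = a_0 z_1^3 + a_3 z_0^3`; `l = 3`: `w` too: `P1`.  `l = 4`: `ev 0 u = a_0 z_1^3`, `ev 1 u = a_3 z_0^3` in `R 3 3`: `z_0^3 ∈ R 3 3`, `idtS` (`n = 2`): `z_0^4`, `z_0 z_1^3 ∈ R 2 4`, so all monomials except `z_0^2 z_1^2`, which is not in `R 2 4` as `w ∉ R`: `b1`.  `b2`: `F = E23 c ∈ R 2 3`: `c22_zE23`, `b1`: `c_1 = c_2 = 0`; if
`c_0 ≠ c_3` then `z_0^3, z_1^3 ∈ R 2 3`, `u ∈ R`.  `b3`: `z_0^3 ≡ z_1^3`, so `u ≡ (a_0 + a_3) z_0^3`, `a_0 + a_3 ≠ 0`; `w ≡ z_0^2 z_1^2`.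
-/

namespace ADQ

open AD ADN ADC

variable {R : ℕ → ℕ → Submodule (ZMod 2) (Z 2)}

private theorem b2b_bit (x : ZMod 2) : x = 0 ∨ x = 1 := by
  revert x
  decide

private theorem b2b_add (X : Z 2) : X + X = 0 := by
  have h1 : X + X = ((1 : ZMod 2) + 1) • X := by rw [add_smul, one_smul]
  have h2 : (1 : ZMod 2) + 1 = 0 := by decide
  rw [h1, h2, zero_smul]

private theorem b2b_swi {n : ℕ} (hn : 2 ≤ n) : ∀ i, n ≤ i → (Equiv.swap (0 : ℕ) 1) i = i := by
  intro i hi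
  exact Equiv.swap_apply_of_ne_of_ne (by omega) (by omega)

private theorem b2b_sw (h : MS2 R) {n k : ℕ} (hn : 2 ≤ n) {F : Z 2} (hF : F ∈ R n k) :
    rn (Equiv.swap (0 : ℕ) 1) F ∈ R n k := by
  refine h.toMS.ren n n k (Equiv.swap (0 : ℕ) 1) (by omega) ?_ (fun i _ j _ e => (Equiv.swap (0 : ℕ) 1).injective e) F hF
  intro i hi
  by_contra hc
  have h1 := b2b_swi hn _ (not_lt.1 hc)
  have h2 := (Equiv.swap (0 : ℕ) 1).injective h1
  omega

private theorem b2b_s0 : (Equiv.swap (0 : ℕ) 1) 0 = 1 := by decide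
private theorem b2b_s1 : (Equiv.swap (0 : ℕ) 1) 1 = 0 := by decide
private theorem b2b_s2 : (Equiv.swap (0 : ℕ) 1) 2 = 2 := by decide

/-- two combinations of the cubes -/
private theorem b2b_P1 (h : MS2 R) {u w : Z 2} (hl : LP 2 R (Soc2 R) 2 3 3 u w) {a b : ℕ → ZMod 2}
    (hu : u - (a 0 • z 0 ^ 3 + a 1 • z 1 ^ 3) ∈ R 2 3) (hw : w - (b 0 • z 0 ^ 3 + b 1 • z 1 ^ 3) ∈ R 2 3) : False := by
  have : Fact (Nat.Prime 2) := ⟨Nat.prime_two⟩
  apply hl.nu
  refine P1 (n := 2) (N := R 2 3) (h.toMS.GAs (by norm_num)) (e := fun i => z i ^ 3) ?_ (a := a) (b := b) ?_ ?_ hl.Lkd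
  · intro i hi j hj hij
    refine ⟨(rn (Equiv.swap (0 : ℕ) 1) : Z 2 →ₐ[ZMod 2] Z 2).toLinearMap, GA_rn _ (b2b_swi le_rfl), ?_, ?_, ?_⟩
    · rw [AlgHom.toLinearMap_apply, map_pow, rn_z]
      interval_cases i <;> interval_cases j
      · exact absurd rfl hij
      · rw [b2b_s0, sub_self]; exact Submodule.zero_mem _
      · rw [b2b_s1, sub_self]; exact Submodule.zero_mem _
      · exact absurd rfl hij
    · rw [AlgHom.toLinearMap_apply, map_pow, rn_z]
      interval_cases i <;> interval_cases j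
      · exact absurd rfl hij
      · rw [b2b_s1, sub_self]; exact Submodule.zero_mem _
      · rw [b2b_s0, sub_self]; exact Submodule.zero_mem _
      · exact absurd rfl hij
    · intro k hk hki hkj
      omega
  · rw [Finset.sum_range_succ, Finset.sum_range_one]
    exact hu
  · rw [Finset.sum_range_succ, Finset.sum_range_one]
    exact hw

/-- the case `(z_0 + z_2) z_1 ∈ R 3 2` -/
private theorem b2b_A (h : MS2 R) {l : ℕ} {u w : Z 2} (hl : LP 2 R (Soc2 R) 2 3 l u w)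
    (h4 : l ≤ 4) (hX : (z 0 + z 2) * z 1 ∈ R 3 2) : False := by
  have hX' : (z 1 + z 2) * z 0 ∈ R 3 2 := by
    have h1 := b2b_sw h (by norm_num) hX
    rwa [map_mul, map_add, rn_z, rn_z, rn_z, b2b_s0, b2b_s1, b2b_s2] at h1
  have h01 : z 0 * z 1 ∈ R 4 2 := by
    have h1 := h.toMS.zer 3 2 2 (by norm_num) _ hX
    rw [map_mul, map_add, ev_z, ev_z, ev_z, if_neg (by norm_num), if_pos rfl, if_neg (by norm_num), add_zero] at h1
    exact h1
  have h33 : Hh 2 3 3 ≤ R 3 3 := b52 h (by norm_num) h01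
  have h24 : Hh 2 2 4 ≤ R 2 4 :=
    h.toMS.K0 le_rfl (by norm_num) fun F hF => h33 (Hh_mono (by norm_num) hF)
  have hl3 : l = 3 := by
    have h5 := hl.kl
    by_contra hne
    have e : l = 4 := by omega
    subst e
    exact hl.nw (h24 hl.sw.hy)
  subst hl3
  have m0 : z 0 ^ 2 * z 1 - z 0 ^ 3 ∈ R 2 3 := by
    have h1 := h.toMS.idtS le_rfl (n := 2) (k := 2) (i := 0) (by norm_num) hX'
    rw [map_mul, map_add, rn_z, rn_z, rn_z, if_pos (by norm_num), if_neg (by norm_num), if_pos (by norm_num)] at h1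
    have e : z 0 ^ 2 * z 1 - z 0 ^ 3 = z 0 * ((z 1 + z 0) * z 0) - (z 0 ^ 3 + z 0 ^ 3 : Z 2) := by ring
    rw [e, b2b_add, sub_zero]
    exact h1
  have m1 : z 0 * z 1 ^ 2 - z 1 ^ 3 ∈ R 2 3 := by
    have h1 := b2b_sw h le_rfl m0
    rw [map_sub, map_mul, map_pow, map_pow, rn_z, rn_z, b2b_s0, b2b_s1] at h1
    have e : z 0 * z 1 ^ 2 - z 1 ^ 3 = (z 1 ^ 2 * z 0 - z 1 ^ 3 : Z 2) := by ring
    rw [e]
    exact h1
  have key : ∀ c : ℕ → ZMod 2, E23 c - ((fun i => if i = 0 then c 2 + c 3 else c 0 + c 1) 0 • z 0 ^ 3 +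
      (fun i => if i = 0 then c 2 + c 3 else c 0 + c 1) 1 • z 1 ^ 3) ∈ R 2 3 := by
    intro c
    have e : (E23 c - ((fun i => if i = 0 then c 2 + c 3 else c 0 + c 1) 0 • z 0 ^ 3 +
      (fun i => if i = 0 then c 2 + c 3 else c 0 + c 1) 1 • z 1 ^ 3) : Z 2) =
      c 1 • (z 0 * z 1 ^ 2 - z 1 ^ 3) + c 2 • (z 0 ^ 2 * z 1 - z 0 ^ 3) := by
      show E23 c - ((c 2 + c 3) • z 0 ^ 3 + (c 0 + c 1) • z 1 ^ 3) = _
      unfold E23
      module
    rw [e]
    exact Submodule.add_mem _ (Submodule.smul_mem _ _ m1) (Submodule.smul_mem _ _ m0)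
  obtain ⟨a, ha⟩ := exp23 hl.su.hy
  obtain ⟨b, hb⟩ := exp23 hl.sw.hy
  refine b2b_P1 h hl (a := fun i => if i = 0 then a 2 + a 3 else a 0 + a 1)
    (b := fun i => if i = 0 then b 2 + b 3 else b 0 + b 1) ?_ ?_
  · rw [ha]
    exact key a
  · rw [hb]
    exact key b

/-- the coefficients `1`, `2` vanish -/
private theorem b2b_B (h : MS2 R) {l : ℕ} {u w : Z 2} (hl : LP 2 R (Soc2 R) 2 3 l u w)
    (h4 : l ≤ 4) {y : Z 2} (hy : Soc2 R 2 3 y) {a : ℕ → ZMod 2} (ha : y = E23 a) : a 1 = 0 ∧ a 2 = 0 := by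
  have x0 := hy.xx (by norm_num) 0 (by norm_num)
  have x1 := hy.xx (by norm_num) 1 (by norm_num)
  rw [ha, (xx_E23 a).1] at x0
  rw [ha, (xx_E23 a).2] at x1
  constructor
  · rcases b2b_bit (a 1) with h1 | h1
    · exact h1
    · rw [h1, one_smul] at x1
      have h2 := b2b_sw h (by norm_num) x1
      rw [map_mul, map_add, rn_z, rn_z, rn_z, b2b_s0, b2b_s1, b2b_s2] at h2
      exact (b2b_A h hl h4 h2).elim
  · rcases b2b_bit (a 2) with h1 | h1
    · exact h1
    · rw [h1, one_smul] at x0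
      exact (b2b_A h hl h4 x0).elim

theorem bTwo3 (h : MS2 R) {F : Z 2} (hF : F ∈ R 4 2) (hY : F ∉ Y4) {l : ℕ} {u w : Z 2}
    (hl : LP 2 R (Soc2 R) 2 3 l u w) : PB R 3 l u w := by
  have hb := b53 h (b51 h hF hY)
  have hl3 := hl.kl
  have hl4 : l ≤ 4 := by
    by_contra hc
    exact hl.nw (h.toMS.Kup le_rfl (by omega) hb.2.2.1 (by omega) hl.sw.hy)
  obtain ⟨a, ha⟩ := exp23 hl.su.hy
  obtain ⟨a1, a2⟩ := b2b_B h hl hl4 hl.su ha
  have hu : u = a 0 • z 1 ^ 3 + a 3 • z 0 ^ 3 := by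
    rw [ha]
    unfold E23
    rw [a1, a2, zero_smul, zero_smul, add_zero, add_zero]
  rcases Nat.lt_or_ge l 4 with h3 | h3
  · exfalso
    have e : l = 3 := by omega
    subst e
    obtain ⟨b, hb'⟩ := exp23 hl.sw.hy
    obtain ⟨b1, b2⟩ := b2b_B h hl hl4 hl.sw hb'
    refine b2b_P1 h hl (a := fun i => if i = 0 then a 3 else a 0) (b := fun i => if i = 0 then b 3 else b 0) ?_ ?_
    · have e : (u - ((fun i => if i = 0 then a 3 else a 0) 0 • z 0 ^ 3 +
          (fun i => if i = 0 then a 3 else a 0) 1 • z 1 ^ 3) : Z 2) = 0 := by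
        show u - (a 3 • z 0 ^ 3 + a 0 • z 1 ^ 3) = 0
        rw [hu]
        module
      rw [e]
      exact Submodule.zero_mem _
    · have e : (w - ((fun i => if i = 0 then b 3 else b 0) 0 • z 0 ^ 3 +
          (fun i => if i = 0 then b 3 else b 0) 1 • z 1 ^ 3) : Z 2) = 0 := by
        show w - (b 3 • z 0 ^ 3 + b 0 • z 1 ^ 3) = 0
        rw [hb']
        unfold E23
        rw [b1, b2]
        module
      rw [e]
      exact Submodule.zero_mem _
  have e4 : l = 4 := by omega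
  subst e4
  -- the cubes in `R 3 3`
  have c3 : z 0 ^ 3 ∈ R 3 3 := by
    have z0 := hl.su.zer 0 (by norm_num)
    have z1 := hl.su.zer 1 (by norm_num)
    rw [hu, map_add, map_smul, map_smul, map_pow, map_pow, ev_z, ev_z, if_neg (by norm_num), if_pos rfl] at z0
    rw [hu, map_add, map_smul, map_smul, map_pow, map_pow, ev_z, ev_z, if_pos rfl, if_neg (by norm_num)] at z1
    rcases b2b_bit (a 3) with h5 | h5
    · rcases b2b_bit (a 0) with h6 | h6
      · exfalso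
        apply hl.nu
        rw [hu, h5, h6, zero_smul, zero_smul, add_zero]
        exact Submodule.zero_mem _
      · rw [h6, one_smul, h5, zero_smul, add_zero] at z0
        have h7 := b2b_sw h (by norm_num) z0
        rwa [map_pow, rn_z, b2b_s1] at h7
    · rw [h5, one_smul, zero_pow (by norm_num), smul_zero, zero_add] at z1
      exact z1
  have c3' : z 1 ^ 3 ∈ R 3 3 := by
    have h7 := b2b_sw h (by norm_num) c3
    rwa [map_pow, rn_z, b2b_s0] at h7
  have q0 : z 0 ^ 4 ∈ R 2 4 := by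
    have h1 := h.toMS.idtS le_rfl (n := 2) (k := 3) (i := 0) (by norm_num) c3
    rw [map_pow, rn_z, if_pos (by norm_num)] at h1
    have e : (z 0 ^ 4 : Z 2) = z 0 * z 0 ^ 3 := by ring
    rw [e]
    exact h1
  have q1 : z 0 ^ 3 * z 1 ∈ R 2 4 := by
    have h1 := h.toMS.idtS le_rfl (n := 2) (k := 3) (i := 1) (by norm_num) c3
    rw [map_pow, rn_z, if_pos (by norm_num)] at h1
    rw [mul_comm]
    exact h1
  have q2 : z 0 * z 1 ^ 3 ∈ R 2 4 := by
    have h1 := h.toMS.idtS le_rfl (n := 2) (k := 3) (i := 0) (by norm_num) c3'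
    rw [map_pow, rn_z, if_pos (by norm_num)] at h1
    exact h1
  have q3 : z 1 ^ 4 ∈ R 2 4 := by
    have h1 := h.toMS.idtS le_rfl (n := 2) (k := 3) (i := 1) (by norm_num) c3'
    rw [map_pow, rn_z, if_pos (by norm_num)] at h1
    have e : (z 1 ^ 4 : Z 2) = z 1 * z 1 ^ 3 := by ring
    rw [e]
    exact h1
  have rest : ∀ c : ℕ → ZMod 2, E24 c - c 2 • (z 0 ^ 2 * z 1 ^ 2) ∈ R 2 4 := by
    intro c
    have e : (E24 c - c 2 • (z 0 ^ 2 * z 1 ^ 2) : Z 2) =
        c 0 • z 1 ^ 4 + c 1 • (z 0 * z 1 ^ 3) + c 3 • (z 0 ^ 3 * z 1) + c 4 • z 0 ^ 4 := by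
      unfold E24
      module
    rw [e]
    exact Submodule.add_mem _ (Submodule.add_mem _ (Submodule.add_mem _ (Submodule.smul_mem _ _ q3)
      (Submodule.smul_mem _ _ q2)) (Submodule.smul_mem _ _ q1)) (Submodule.smul_mem _ _ q0)
  obtain ⟨b, hb'⟩ := exp24 hl.sw.hy
  have n22 : z 0 ^ 2 * z 1 ^ 2 ∉ R 2 4 := by
    intro hc
    apply hl.nw
    have h1 := Submodule.add_mem _ (rest b) (Submodule.smul_mem _ (b 2) hc)
    rw [sub_add_cancel] at h1
    rw [hb']
    exact h1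
  have pb1 : ∀ G ∈ R 2 4, c22 G = 0 := by
    intro G hG
    obtain ⟨c, hc⟩ := exp24 (h.toMS.le 2 4 (by norm_num) hG)
    rw [hc, c22_E24]
    rcases b2b_bit (c 2) with h5 | h5
    · exact h5
    · exfalso
      apply n22
      have h1 := Submodule.sub_mem _ hG (rest c)
      rw [hc, sub_sub_cancel, h5, one_smul] at h1
      exact h1
  have n0 : z 0 ^ 3 ∉ R 2 3 := by
    intro hc
    have h7 := b2b_sw h le_rfl hc
    rw [map_pow, rn_z, b2b_s0] at h7
    apply hl.nu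
    rw [hu]
    exact Submodule.add_mem _ (Submodule.smul_mem _ _ h7) (Submodule.smul_mem _ _ hc)
  refine ⟨pb1, ?_, ?_⟩
  · intro G hG
    obtain ⟨c, hc⟩ := exp23 (h.toMS.le 2 3 (by norm_num) hG)
    have z0 := pb1 _ (h.toMS.mulz le_rfl (i := 0) (by norm_num) hG)
    have z1 := pb1 _ (h.toMS.mulz le_rfl (i := 1) (by norm_num) hG)
    rw [hc, (c22_zE23 c).1] at z0
    rw [hc, (c22_zE23 c).2] at z1
    have e : G = c 0 • z 1 ^ 3 + c 3 • z 0 ^ 3 := by
      rw [hc]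
      unfold E23
      rw [z0, z1, zero_smul, zero_smul, add_zero, add_zero]
    rcases b2b_bit (c 0) with h5 | h5
    · rcases b2b_bit (c 3) with h6 | h6
      · rw [e, h5, h6, zero_smul, zero_smul, add_zero]
        exact Submodule.zero_mem _
      · exfalso
        rw [h5, h6, zero_smul, one_smul, zero_add] at e
        rw [e] at hG
        exact n0 hG
    · rcases b2b_bit (c 3) with h6 | h6
      · exfalso
        rw [h5, h6, zero_smul, one_smul, add_zero] at e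
        rw [e] at hG
        have h7 := b2b_sw h le_rfl hG
        rw [map_pow, rn_z, b2b_s1] at h7
        exact n0 h7
      · rw [e, h5, h6, one_smul, one_smul, add_comm]
        exact Submodule.mem_span_singleton_self _
  · intro hS
    refine ⟨rfl, rfl, ?_, ?_⟩
    · rcases b2b_bit (a 0) with h5 | h5
      · rcases b2b_bit (a 3) with h6 | h6
        · exfalso
          apply hl.nu
          rw [hu, h5, h6, zero_smul, zero_smul, add_zero]
          exact Submodule.zero_mem _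
        · rw [hu, h5, h6, zero_smul, one_smul, zero_add, sub_self]
          exact Submodule.zero_mem _
      · rcases b2b_bit (a 3) with h6 | h6
        · have e : (u - z 0 ^ 3 : Z 2) = (z 0 ^ 3 + z 1 ^ 3) - (z 0 ^ 3 + z 0 ^ 3) := by
            rw [hu, h5, h6, zero_smul, one_smul]
            abel
          rw [e, b2b_add, sub_zero]
          exact hS
        · exfalso
          apply hl.nu
          rw [hu, h5, h6, one_smul, one_smul, add_comm]
          exact hS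
    · have h1 := rest b
      rcases b2b_bit (b 2) with h5 | h5
      · exfalso
        rw [h5, zero_smul, sub_zero] at h1
        apply hl.nw
        rw [hb']
        exact h1
      · rw [h5, one_smul] at h1
        rw [hb']
        exact h1

end ADQ
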