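import Pool.Agent.ADQ.B51
import Pool.Agent.ADQ.BAlt
import Pool.Agent.ADQ.NoSq
import Pool.Agent.ADQ.NoLP01
import Pool.Agent.ADQ.ExpD

/-!
# ADQ-B2c

`n = 2`, `k = l = 4`.
`k = l = 4`: `u = E24 a`, `w = E24 b`; `xx_E24` in `R 3 3`; `idtS`: `D_01 = (a_4 + a_2) z_1^4 + a_4 z_0^3 z_1 + a_2 z_0 z_1^3`, `D_10 = (a_0 + a_2) z_0^4 + a_0 z_0 z_1^3 + a_2 z_0^3 z_1` in `R 2 4`; `xx 1 3` of `xx 0 2 u`: `a_2 (z_0 + z_2)(z_1 + z_3) ∈ R 4 2`.  `balt`:
(J) `a_2 = b_2 = 0` (a 4-cycle is not in `span {gJ}`); `gJ ∈ R 4 2` gives `z_0^3 + z_0 z_1 z_2 ∈ R 3 3` (`idtS`, `n = 3`, base 0), then (`n = 2`, bases 0, 1) `z_0^4 + z_0^3 z_1`, `z_0^3 z_1 + z_0 z_1^3 ∈ R 2 4`: `rank1`.  (M) the matching `z_0 z_3 + z_1 z_2` gives the same elements: `e := z_0^4 ≡ z_0^3 z_1 ≡ z_0 z_1^3 ≡ z_1^4`,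
`u ≡ x e + a_2 f`, `w ≡ y e + b_2 f`, `f = z_0^2 z_1^2`.  `b1`: `F ∈ R 2 4` with `c22 F = 1`: `f ≡ s e`: `rank1`.  `b2`: `c_1 = c_2 = 0` by `b1`, `z_0 F ≡ (c_0 + c_3) e ∈ R`; `c_0 ≠ c_3` gives `e ∈ R`, `rank1` with `f`.  `b3`: `z_0^3 + z_1^3 ∈ R 2 3`: `ev 0`: `z_1^3 ∈ R 3 3`, `idtS` (base 0): `z_0 z_1^3 ∈ R 2 4`, `e ∈ R`: `rank1`.
(T) the triangle `{0,1,3}` gives `z_0^3 ∈ R 3 3` (base 0), so `z_0^4, z_0 z_1^3 ∈ R 2 4` and the symmetric ones: `rank1` with `f`.  (S) the star at 1, base 0: `z_0 z_1 z_2 ∈ R 3 3`, so `z_0^3 z_1`, `z_0 z_1^3 ∈ R 2 4`; `D_01 ≡ (a_4 + a_2) z_1^4`, `D_10 ≡ (a_0 + a_2) z_0^4`; `z_0^4 ∈ R`: `rank1` with `f`; otherwise `a_0 = a_2 = a_4`,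
`b_0 = b_2 = b_4`: `rank1` with `z_0^4 + f + z_1^4`.
-/

namespace ADQ

open AD ADN ADC

variable {R : ℕ → ℕ → Submodule (ZMod 2) (Z 2)}

private theorem b2c_two : (2 : Z 2) = 0 := by
  have h : (2 : ZMod 2) = 0 := by decide
  have h1 := congrArg (MvPolynomial.C (σ := ℕ)) h
  rw [map_ofNat, map_zero] at h1
  exact h1

private theorem b2c_idt (h : MS2 R) {n k i : ℕ} (hi : i < n) {F : Z 2} (hF : F ∈ R (n + 1) k) :
    z i * rn (fun j => if j < n then j else i) F ∈ R n (k + 1) :=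
  h.toMS.idtS le_rfl hi hF

private theorem b2c_swap (h : MS2 R) {n k a b : ℕ} (ha : a < n) (hb : b < n) {F : Z 2} (hF : F ∈ R n k) :
    rn (Equiv.swap a b) F ∈ R n k := by
  refine h.toMS.ren n n k (Equiv.swap a b) (by omega) ?_ ?_ F hF
  · intro t ht
    rw [Equiv.swap_apply_def]
    split_ifs
    · exact hb
    · exact ha
    · exact ht
  · intro i _ j _ e
    exact (Equiv.swap a b).injective e

private theorem b2c_zmod {x : ZMod 2} (hx : x ≠ 0) : x = 1 := by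
  revert x
  decide

private theorem b2c_eq {x y : ZMod 2} (h : x + y = 0) : x = y := by
  revert x y
  decide

private theorem b2c_01 : ¬ (0 : ZMod 2) = 1 := by decide

/-- `z_0^4`, `z_0^3 z_1`, `z_0 z_1^3`, `z_1^4` in `R 2 4` -/
private theorem b2c_mono {a : ℕ → ZMod 2} (h1 : z 0 ^ 4 ∈ R 2 4) (h2 : z 0 ^ 3 * z 1 ∈ R 2 4)
    (h3 : z 0 * z 1 ^ 3 ∈ R 2 4) (h4 : z 1 ^ 4 ∈ R 2 4) : E24 a - a 2 • (z 0 ^ 2 * z 1 ^ 2) ∈ R 2 4 := by
  have e : (E24 a - a 2 • (z 0 ^ 2 * z 1 ^ 2) : Z 2) =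
      a 0 • z 1 ^ 4 + a 1 • (z 0 * z 1 ^ 3) + a 3 • (z 0 ^ 3 * z 1) + a 4 • z 0 ^ 4 := by
    unfold E24
    module
  rw [e]
  exact Submodule.add_mem _ (Submodule.add_mem _ (Submodule.add_mem _ (Submodule.smul_mem _ _ h4)
    (Submodule.smul_mem _ _ h3)) (Submodule.smul_mem _ _ h2)) (Submodule.smul_mem _ _ h1)

/-- the congruences from `z_0^3 + z_0 z_1 z_2` -/
private theorem b2c_cube (h : MS2 R) (h0 : z 0 ^ 3 + z 0 * z 1 * z 2 ∈ R 3 3) :
    z 0 ^ 4 + z 0 ^ 3 * z 1 ∈ R 2 4 ∧ z 0 ^ 3 * z 1 + z 0 * z 1 ^ 3 ∈ R 2 4 ∧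
      z 1 ^ 4 + z 0 * z 1 ^ 3 ∈ R 2 4 := by
  have h1 := b2c_idt (n := 2) (i := 0) h (by norm_num) h0
  have h2 := b2c_idt (n := 2) (i := 1) h (by norm_num) h0
  have e1 : z 0 * rn (fun j => if j < 2 then j else 0) (z 0 ^ 3 + z 0 * z 1 * z 2 : Z 2) = z 0 ^ 4 + z 0 ^ 3 * z 1 := by
    simp only [map_add, map_mul, map_pow, rn_z]
    norm_num
    ring
  have e2 : z 1 * rn (fun j => if j < 2 then j else 1) (z 0 ^ 3 + z 0 * z 1 * z 2 : Z 2) =
      z 0 ^ 3 * z 1 + z 0 * z 1 ^ 3 := by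
    simp only [map_add, map_mul, map_pow, rn_z]
    norm_num
    ring
  rw [e1] at h1
  rw [e2] at h2
  refine ⟨h1, h2, ?_⟩
  have h3 := b2c_swap (n := 2) (a := 0) (b := 1) h (by norm_num) (by norm_num) h1
  have e3 : rn (Equiv.swap 0 1) (z 0 ^ 4 + z 0 ^ 3 * z 1 : Z 2) = z 1 ^ 4 + z 0 * z 1 ^ 3 := by
    simp only [map_add, map_mul, map_pow, rn_z, Equiv.swap_apply_left, Equiv.swap_apply_right]
    ring
  rw [e3] at h3
  exact h3

private theorem b2c_red {r1 : z 0 ^ 4 + z 0 ^ 3 * z 1 ∈ R 2 4} {r2 : z 0 ^ 3 * z 1 + z 0 * z 1 ^ 3 ∈ R 2 4}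
    {r3 : z 1 ^ 4 + z 0 * z 1 ^ 3 ∈ R 2 4} (a : ℕ → ZMod 2) :
    E24 a - (a 4 - a 3 + a 1 - a 0) • z 0 ^ 4 - a 2 • (z 0 ^ 2 * z 1 ^ 2) ∈ R 2 4 := by
  have e : (E24 a - (a 4 - a 3 + a 1 - a 0) • z 0 ^ 4 - a 2 • (z 0 ^ 2 * z 1 ^ 2) : Z 2) =
      (a 3 - a 1 + a 0) • (z 0 ^ 4 + z 0 ^ 3 * z 1) + (a 1 - a 0) • (z 0 ^ 3 * z 1 + z 0 * z 1 ^ 3) +
      a 0 • (z 1 ^ 4 + z 0 * z 1 ^ 3) := by
    unfold E24
    module
  rw [e]
  exact Submodule.add_mem _ (Submodule.add_mem _ (Submodule.smul_mem _ _ r1) (Submodule.smul_mem _ _ r2))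
    (Submodule.smul_mem _ _ r3)

theorem bTwo4 (h : MS2 R) {F : Z 2} (hF : F ∈ R 4 2) (hY : F ∉ Y4) {u w : Z 2}
    (hl : LP 2 R (Soc2 R) 2 4 4 u w) : PB R 4 4 u w := by
  have : Fact (Nat.Prime 2) := ⟨Nat.prime_two⟩
  obtain ⟨a, ha⟩ := exp24 hl.su.hy
  obtain ⟨b, hb⟩ := exp24 hl.sw.hy
  -- consequences of the socle conditions
  have hD : ∀ (c : ℕ → ZMod 2), Soc2 R 2 4 (E24 c) →
      (c 4 + c 2) • z 1 ^ 4 + c 4 • (z 0 ^ 3 * z 1) + c 2 • (z 0 * z 1 ^ 3) ∈ R 2 4 ∧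
      (c 0 + c 2) • z 0 ^ 4 + c 0 • (z 0 * z 1 ^ 3) + c 2 • (z 0 ^ 3 * z 1) ∈ R 2 4 ∧
      c 2 • ((z 0 + z 2) * (z 1 + z 3)) ∈ R 4 2 := by
    intro c hc
    have h0 := hc.xx (by norm_num) 0 (by norm_num)
    have h1 := hc.xx (by norm_num) 1 (by norm_num)
    rw [(xx_E24 c).1] at h0
    rw [(xx_E24 c).2] at h1
    have h2 := b2c_idt (n := 2) (i := 1) h (by norm_num) h0
    have h3 := b2c_idt (n := 2) (i := 0) h (by norm_num) h1
    refine ⟨?_, ?_, ?_⟩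
    · have e : z 1 * rn (fun j => if j < 2 then j else 1) (c 4 • (z 0 ^ 3 + z 2 ^ 3) + c 2 • ((z 0 + z 2) * z 1 ^ 2) : Z 2) =
          (c 4 + c 2) • z 1 ^ 4 + c 4 • (z 0 ^ 3 * z 1) + c 2 • (z 0 * z 1 ^ 3) := by
        simp only [map_add, map_mul, map_pow, map_smul, rn_z]
        norm_num
        simp only [MvPolynomial.smul_eq_C_mul, map_add]
        ring
      rw [e] at h2
      exact h2
    · have e : z 0 * rn (fun j => if j < 2 then j else 0) (c 0 • (z 1 ^ 3 + z 2 ^ 3) + c 2 • ((z 1 + z 2) * z 0 ^ 2) : Z 2) =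
          (c 0 + c 2) • z 0 ^ 4 + c 0 • (z 0 * z 1 ^ 3) + c 2 • (z 0 ^ 3 * z 1) := by
        simp only [map_add, map_mul, map_pow, map_smul, rn_z]
        norm_num
        simp only [MvPolynomial.smul_eq_C_mul, map_add]
        ring
      rw [e] at h3
      exact h3
    · have h4 := h.xx 3 2 1 (by norm_num) _ h0
      have n0 : (z 0 : Z 2) ∈ NV 1 := z_NV (by norm_num)
      have n2 : (z 2 : Z 2) ∈ NV 1 := z_NV (by norm_num)
      have e : (c 4 • (z 0 ^ 3 + z 2 ^ 3) + c 2 • ((z 0 + z 2) * z 1 ^ 2) : Z 2) =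
          z 1 ^ 2 * (c 2 • (z 0 + z 2)) + c 4 • (z 0 ^ 3 + z 2 ^ 3) := by
        simp only [MvPolynomial.smul_eq_C_mul]
        ring
      rw [e, map_add, xx_two (Subalgebra.smul_mem _ (Subalgebra.add_mem _ n0 n2) _),
        xx_NV (Subalgebra.smul_mem _ (Subalgebra.add_mem _ (Subalgebra.pow_mem _ n0 _)
          (Subalgebra.pow_mem _ n2 _)) _), add_zero] at h4
      have e2 : ((z 1 + z 3) * (c 2 • (z 0 + z 2)) : Z 2) = c 2 • ((z 0 + z 2) * (z 1 + z 3)) := by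
        simp only [MvPolynomial.smul_eq_C_mul]
        ring
      rw [e2] at h4
      exact h4
  have ua := hD a (ha ▸ hl.su)
  have ub := hD b (hb ▸ hl.sw)
  -- `u`, `w` are not multiples of the same element
  have hrank : ∀ (E : Z 2) (x y : ZMod 2), E24 a - x • E ∈ R 2 4 → E24 b - y • E ∈ R 2 4 → False := by
    intro E x y h1 h2
    rw [← ha] at h1
    rw [← hb] at h2
    exact hl.rank1 h1 h2
  have hmono : z 0 ^ 4 ∈ R 2 4 → z 0 ^ 3 * z 1 ∈ R 2 4 → z 0 * z 1 ^ 3 ∈ R 2 4 → z 1 ^ 4 ∈ R 2 4 → False :=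
    fun h1 h2 h3 h4 => hrank _ _ _ (b2c_mono h1 h2 h3 h4) (b2c_mono h1 h2 h3 h4)
  have hsw4 : z 0 ^ 4 ∈ R 2 4 → z 1 ^ 4 ∈ R 2 4 := by
    intro h1
    have h3 := b2c_swap (n := 2) (a := 0) (b := 1) h (by norm_num) (by norm_num) h1
    rwa [map_pow, rn_z, Equiv.swap_apply_left] at h3
  rcases balt h hF hY with ⟨hJ, hJ'⟩ | hM | hT | hS
  · exfalso
    have hz : ∀ c : ZMod 2, c • ((z 0 + z 2) * (z 1 + z 3)) ∈ R 4 2 → c = 0 := by
      intro c hc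
      by_contra hne
      rw [b2c_zmod hne, one_smul] at hc
      obtain ⟨d, hd⟩ := Submodule.mem_span_singleton.1 (hJ' hc)
      have h1 := congrArg (MvPolynomial.eval (fun i : ℕ => if i = 0 ∨ i = 2 then (1 : ZMod 2) else 0)) hd
      have h2 := congrArg (MvPolynomial.eval (fun i : ℕ => if i = 0 ∨ i = 1 then (1 : ZMod 2) else 0)) hd
      simp only [gJ, MvPolynomial.smul_eval, map_add, map_mul, MvPolynomial.eval_X] at h1 h2
      norm_num at h1 h2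
      rw [h1] at h2
      exact b2c_01 h2
    have h0 := b2c_idt (n := 3) (i := 0) h (by norm_num) hJ
    have e : z 0 * rn (fun j => if j < 3 then j else 0) (gJ : Z 2) = z 0 ^ 3 + z 0 * z 1 * z 2 := by
      simp only [gJ, map_add, map_mul, map_pow, rn_z]
      norm_num
      linear_combination (z 0 ^ 2 * z 1 + z 0 ^ 2 * z 2) * b2c_two
    rw [e] at h0
    obtain ⟨r1, r2, r3⟩ := b2c_cube h h0
    have q1 := b2c_red (r1 := r1) (r2 := r2) (r3 := r3) a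
    have q2 := b2c_red (r1 := r1) (r2 := r2) (r3 := r3) b
    rw [hz _ ua.2.2, zero_smul, sub_zero] at q1
    rw [hz _ ub.2.2, zero_smul, sub_zero] at q2
    exact hrank _ _ _ q1 q2
  · have h0 : z 0 ^ 3 + z 0 * z 1 * z 2 ∈ R 3 3 := by
      have h1 := b2c_swap (n := 4) (a := 1) (b := 3) h (by norm_num) (by norm_num) hM
      have h0 := b2c_idt (n := 3) (i := 0) h (by norm_num) h1
      have e : z 0 * rn (fun j => if j < 3 then j else 0) (rn (Equiv.swap 1 3) (gM : Z 2)) =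
          z 0 ^ 3 + z 0 * z 1 * z 2 := by
        have s0 : Equiv.swap (1 : ℕ) 3 0 = 0 := by decide
        have s2 : Equiv.swap (1 : ℕ) 3 2 = 2 := by decide
        have s1 : Equiv.swap (1 : ℕ) 3 1 = 3 := by decide
        have s3 : Equiv.swap (1 : ℕ) 3 3 = 1 := by decide
        simp only [gM, map_add, map_mul, map_pow, rn_z, s0, s1, s2, s3]
        norm_num
        ring
      rw [e] at h0
      exact h0
    obtain ⟨r1, r2, r3⟩ := b2c_cube h h0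
    have q : ∀ c : ℕ → ZMod 2, E24 c - (c 4 - c 3 + c 1 - c 0) • z 0 ^ 4 - c 2 • (z 0 ^ 2 * z 1 ^ 2) ∈ R 2 4 :=
      fun c => b2c_red (r1 := r1) (r2 := r2) (r3 := r3) c
    have he : z 0 ^ 4 ∉ R 2 4 := by
      intro h4
      have m1 := Submodule.sub_mem _ r1 h4
      have m2 := Submodule.sub_mem _ r2 m1
      have m3 := Submodule.sub_mem _ r3 m2
      refine hmono h4 ?_ ?_ ?_
      · have e : (z 0 ^ 4 + z 0 ^ 3 * z 1 - z 0 ^ 4 : Z 2) = z 0 ^ 3 * z 1 := by ring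
        rwa [e] at m1
      · have e : (z 0 ^ 3 * z 1 + z 0 * z 1 ^ 3 - (z 0 ^ 4 + z 0 ^ 3 * z 1 - z 0 ^ 4) : Z 2) = z 0 * z 1 ^ 3 := by ring
        rwa [e] at m2
      · exact hsw4 h4
    have hb1 : ∀ G ∈ R 2 4, c22 G = 0 := by
      intro G hG
      obtain ⟨c, hc⟩ := exp24 (h.toMS.le 2 4 (by norm_num) hG)
      rw [hc, c22_E24]
      by_contra hne
      have hc2 := b2c_zmod hne
      have h1 := q c
      rw [hc2, one_smul, ← hc] at h1
      have h2 : z 0 ^ 2 * z 1 ^ 2 + (c 4 - c 3 + c 1 - c 0) • z 0 ^ 4 ∈ R 2 4 := by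
        have h3 := Submodule.sub_mem _ hG h1
        have e : (G - (G - (c 4 - c 3 + c 1 - c 0) • z 0 ^ 4 - z 0 ^ 2 * z 1 ^ 2) : Z 2) =
            z 0 ^ 2 * z 1 ^ 2 + (c 4 - c 3 + c 1 - c 0) • z 0 ^ 4 := by abel
        rwa [e] at h3
      generalize c 4 - c 3 + c 1 - c 0 = s at h2
      have h4 : ∀ d : ℕ → ZMod 2, E24 d - (d 4 - d 3 + d 1 - d 0 - d 2 * s) • z 0 ^ 4 ∈ R 2 4 := by
        intro d
        have h5 := Submodule.add_mem _ (q d) (Submodule.smul_mem _ (d 2) h2)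
        have e : (E24 d - (d 4 - d 3 + d 1 - d 0) • z 0 ^ 4 - d 2 • (z 0 ^ 2 * z 1 ^ 2) +
            d 2 • (z 0 ^ 2 * z 1 ^ 2 + s • z 0 ^ 4) : Z 2) = E24 d - (d 4 - d 3 + d 1 - d 0 - d 2 * s) • z 0 ^ 4 := by
          module
        rwa [e] at h5
      exact hrank _ _ _ (h4 a) (h4 b)
    refine ⟨hb1, ?_, ?_⟩
    · intro G hG
      obtain ⟨c, hc⟩ := exp23 (h.toMS.le 2 3 (by norm_num) hG)
      have m0 := h.toMS.mulz (p := 2) le_rfl (i := 0) (by norm_num) hG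
      have m1 := h.toMS.mulz (p := 2) le_rfl (i := 1) (by norm_num) hG
      have c1 := hb1 _ m0
      have c2 := hb1 _ m1
      rw [hc, (c22_zE23 c).1] at c1
      rw [hc, (c22_zE23 c).2] at c2
      have h1 : (c 3 + c 0) • z 0 ^ 4 ∈ R 2 4 := by
        have h2 := Submodule.add_mem _ m0 (Submodule.smul_mem _ (c 0) (Submodule.sub_mem _ r1 r2))
        have e : (z 0 * G + c 0 • (z 0 ^ 4 + z 0 ^ 3 * z 1 - (z 0 ^ 3 * z 1 + z 0 * z 1 ^ 3)) : Z 2) =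
            (c 3 + c 0) • z 0 ^ 4 := by
          rw [hc]
          unfold E23
          rw [c1, c2]
          simp only [MvPolynomial.smul_eq_C_mul, map_add, map_zero]
          ring
        rwa [e] at h2
      have h2 : c 3 + c 0 = 0 := by
        by_contra hne
        rw [b2c_zmod hne, one_smul] at h1
        exact he h1
      have h3 : c 3 = c 0 := b2c_eq h2
      rw [hc, Submodule.mem_span_singleton]
      refine ⟨c 0, ?_⟩
      unfold E23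
      rw [c1, c2, h3]
      simp only [MvPolynomial.smul_eq_C_mul, map_zero]
      ring
    · intro h3
      exfalso
      have h4 := h.toMS.zer 2 3 0 (by norm_num) _ h3
      have e : ev 0 (z 0 ^ 3 + z 1 ^ 3 : Z 2) = z 1 ^ 3 := by
        rw [map_add, map_pow, map_pow, ev_z, ev_z]
        norm_num
      rw [e] at h4
      have h5 := b2c_idt (n := 2) (i := 0) h (by norm_num) h4
      rw [map_pow, rn_z] at h5
      norm_num at h5
      have m1 := Submodule.add_mem _ (Submodule.sub_mem _ r1 r2) h5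
      have e2 : (z 0 ^ 4 + z 0 ^ 3 * z 1 - (z 0 ^ 3 * z 1 + z 0 * z 1 ^ 3) + z 0 * z 1 ^ 3 : Z 2) = z 0 ^ 4 := by ring
      rw [e2] at m1
      exact he m1
  · exfalso
    have h1 := b2c_swap (n := 4) (a := 2) (b := 3) h (by norm_num) (by norm_num) hT
    have h0 := b2c_idt (n := 3) (i := 0) h (by norm_num) h1
    have e : z 0 * rn (fun j => if j < 3 then j else 0) (rn (Equiv.swap 2 3) (gT : Z 2)) = z 0 ^ 3 := by
      have s0 : Equiv.swap (2 : ℕ) 3 0 = 0 := by decide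
      have s2 : Equiv.swap (2 : ℕ) 3 2 = 3 := by decide
      have s1 : Equiv.swap (2 : ℕ) 3 1 = 1 := by decide
      simp only [gT, map_add, map_mul, map_pow, rn_z, s0, s1, s2]
      norm_num
      linear_combination (z 0 ^ 2 * z 1) * b2c_two
    rw [e] at h0
    have k1 := b2c_idt (n := 2) (i := 0) h (by norm_num) h0
    have k2 := b2c_idt (n := 2) (i := 1) h (by norm_num) h0
    have e1 : z 0 * rn (fun j => if j < 2 then j else 0) (z 0 ^ 3 : Z 2) = z 0 ^ 4 := by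
      rw [map_pow, rn_z]
      norm_num
      ring
    have e2 : z 1 * rn (fun j => if j < 2 then j else 1) (z 0 ^ 3 : Z 2) = z 0 ^ 3 * z 1 := by
      rw [map_pow, rn_z]
      norm_num
      ring
    rw [e1] at k1
    rw [e2] at k2
    have k3 := b2c_swap (n := 2) (a := 0) (b := 1) h (by norm_num) (by norm_num) k2
    have e3 : rn (Equiv.swap 0 1) (z 0 ^ 3 * z 1 : Z 2) = z 0 * z 1 ^ 3 := by
      simp only [map_mul, map_pow, rn_z, Equiv.swap_apply_left, Equiv.swap_apply_right]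
      ring
    rw [e3] at k3
    exact hmono k1 k2 k3 (hsw4 k1)
  · exfalso
    have h1 := b2c_swap (n := 4) (a := 0) (b := 1) h (by norm_num) (by norm_num) hS
    have h0 := b2c_idt (n := 3) (i := 0) h (by norm_num) h1
    have e : z 0 * rn (fun j => if j < 3 then j else 0) (rn (Equiv.swap 0 1) (gS : Z 2)) = z 0 * z 1 * z 2 := by
      have s0 : Equiv.swap (0 : ℕ) 1 0 = 1 := by decide
      have s2 : Equiv.swap (0 : ℕ) 1 2 = 2 := by decide
      have s1 : Equiv.swap (0 : ℕ) 1 1 = 0 := by decide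
      have s3 : Equiv.swap (0 : ℕ) 1 3 = 3 := by decide
      simp only [gS, map_add, map_mul, map_pow, rn_z, s0, s1, s2, s3]
      norm_num
      linear_combination (z 0 ^ 2 * z 1) * b2c_two
    rw [e] at h0
    have k1 := b2c_idt (n := 2) (i := 0) h (by norm_num) h0
    have k2 := b2c_idt (n := 2) (i := 1) h (by norm_num) h0
    have e1 : z 0 * rn (fun j => if j < 2 then j else 0) (z 0 * z 1 * z 2 : Z 2) = z 0 ^ 3 * z 1 := by
      simp only [map_mul, rn_z]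
      norm_num
      ring
    have e2 : z 1 * rn (fun j => if j < 2 then j else 1) (z 0 * z 1 * z 2 : Z 2) = z 0 * z 1 ^ 3 := by
      simp only [map_mul, rn_z]
      norm_num
      ring
    rw [e1] at k1
    rw [e2] at k2
    by_cases h4 : z 0 ^ 4 ∈ R 2 4
    · exact hmono h4 k1 k2 (hsw4 h4)
    · have h4' : z 1 ^ 4 ∉ R 2 4 := by
        intro h5
        have h3 := b2c_swap (n := 2) (a := 0) (b := 1) h (by norm_num) (by norm_num) h5
        rw [map_pow, rn_z, Equiv.swap_apply_right] at h3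
        exact h4 h3
      have hc : ∀ c : ℕ → ZMod 2,
          (c 4 + c 2) • z 1 ^ 4 + c 4 • (z 0 ^ 3 * z 1) + c 2 • (z 0 * z 1 ^ 3) ∈ R 2 4 →
          (c 0 + c 2) • z 0 ^ 4 + c 0 • (z 0 * z 1 ^ 3) + c 2 • (z 0 ^ 3 * z 1) ∈ R 2 4 →
          E24 c - c 2 • (z 0 ^ 4 + z 0 ^ 2 * z 1 ^ 2 + z 1 ^ 4) ∈ R 2 4 := by
        intro c d1 d2
        have q1 : (c 4 + c 2) • z 1 ^ 4 ∈ R 2 4 := by
          have h5 := Submodule.sub_mem _ (Submodule.sub_mem _ d1 (Submodule.smul_mem _ (c 2) k2))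
            (Submodule.smul_mem _ (c 4) k1)
          have e : ((c 4 + c 2) • z 1 ^ 4 + c 4 • (z 0 ^ 3 * z 1) + c 2 • (z 0 * z 1 ^ 3) - c 2 • (z 0 * z 1 ^ 3) -
              c 4 • (z 0 ^ 3 * z 1) : Z 2) = (c 4 + c 2) • z 1 ^ 4 := by abel
          rwa [e] at h5
        have q2 : (c 0 + c 2) • z 0 ^ 4 ∈ R 2 4 := by
          have h5 := Submodule.sub_mem _ (Submodule.sub_mem _ d2 (Submodule.smul_mem _ (c 2) k1))
            (Submodule.smul_mem _ (c 0) k2)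
          have e : ((c 0 + c 2) • z 0 ^ 4 + c 0 • (z 0 * z 1 ^ 3) + c 2 • (z 0 ^ 3 * z 1) - c 2 • (z 0 ^ 3 * z 1) -
              c 0 • (z 0 * z 1 ^ 3) : Z 2) = (c 0 + c 2) • z 0 ^ 4 := by abel
          rwa [e] at h5
        have p1 : c 4 = c 2 := by
          apply b2c_eq
          by_contra hne
          rw [b2c_zmod hne, one_smul] at q1
          exact h4' q1
        have p2 : c 0 = c 2 := by
          apply b2c_eq
          by_contra hne
          rw [b2c_zmod hne, one_smul] at q2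
          exact h4 q2
        have e : (E24 c - c 2 • (z 0 ^ 4 + z 0 ^ 2 * z 1 ^ 2 + z 1 ^ 4) : Z 2) =
            c 1 • (z 0 * z 1 ^ 3) + c 3 • (z 0 ^ 3 * z 1) := by
          unfold E24
          rw [p1, p2]
          module
        rw [e]
        exact Submodule.add_mem _ (Submodule.smul_mem _ _ k2) (Submodule.smul_mem _ _ k1)
      exact hrank _ _ _ (hc a ua.1 ua.2.1) (hc b ub.1 ub.2.1)

end ADQ
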