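import Pool.Agent.ADQ.B51
import Pool.Agent.ADQ.BAlt
import Pool.Agent.ADQ.NoSq
import Pool.Agent.ADQ.NoLP01
import Pool.Agent.ADQ.ExpD
import Pool.Agent.ADQ.P1

/-!
# ADQ-B3b

`n = 3`, `k = l = 3`.
`k = l = 3`: `u = E33 a b c`, `w = E33 a' b' c'`, `t = z_0 z_1 z_2`.  `xx_E33`: `(z_0 + z_3)(b_01 z_1 + b_02 z_2) ∈ R 4 2`, `idtS` (`n = 3`, base 1): `D_01 = z_1 (z_0 + z_1)(b_01 z_1 + b_02 z_2) ∈ R 3 3`, and so on for all pairs.  `balt`: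
(J) `xx_E33` in `span {gJ}`: all `b = 0` (`(z_0+z_3)(b_01 z_1 + b_02 z_2)` is 0 or has at most 4 terms); `gJ`, base 0: `z_0 (z_0^2 + z_1 z_2) = z_0^3 + t ∈ R 3 3`; so `u ≡ (∑ a + c) t`: `LP.rank1`.
(M) matchings `z_0 z_1 + z_2 z_3`, `z_0 z_3 + z_1 z_2`, base 0: `z_0^2 (z_1 + z_2)`, `z_0^3 + t ∈ R 3 3`.  `D_01 ≡ (b_01 + b_02)(z_1^2 z_0 + t)`; if some `b_ij + b_ik ≠ 0` (for `u` or `w`): `z_j^2 z_i ≡ t`, all monomials congruent: `rank1`; otherwise `u ≡ x t`, `w ≡ y t`.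
(T) triangles `{0,1,2}`, `{0,1,3}`, base 0: `z_0^2 z_1 + z_0^2 z_2 + t`, `z_0^3 ∈ R 3 3`.  `D_01 ≡ (b_01 + b_02) z_1^2 z_0`; if nonzero: everything is in `R 3 3`, contradiction to `nu`; otherwise `u ≡ x t`, `w ≡ y t`: `rank1`.
(S) stars at 0 and 1, base 0: `z_0^3 + z_0^2 z_1 + z_0^2 z_2`, `t ∈ R 3 3`.  `D_01 ≡ (b_01 + b_02) z_1^2 z_2`; if nonzero: everything is in `R 3 3`; otherwise `b_ij = b_ik = b_i`, `u ≡ ∑ (a_i + b_i) z_i^3`, `w` the same: `P1`.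
-/

namespace ADQ

open AD ADN ADC

variable {R : ℕ → ℕ → Submodule (ZMod 2) (Z 2)}

private theorem two0 : (2 : Z 2) = 0 := by
  have h : ((2 : ℕ) : Z 2) = 0 := CharP.cast_eq_zero (Z 2) 2
  exact_mod_cast h

private def g3 (i j k : ℕ) : ℕ → ℕ := fun t => if t = 0 then i else if t = 1 then j else k

private theorem perm3 (h : MS2 R) {i j k m : ℕ} (hi : i < 3) (hj : j < 3) (hk : k < 3) (hij : i ≠ j)
    (hik : i ≠ k) (hjk : j ≠ k) {F : Z 2} (hF : F ∈ R 3 m) : rn (g3 i j k) F ∈ R 3 m := by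
  refine h.ren 3 3 m (g3 i j k) (by norm_num) ?_ ?_ F hF
  · intro t ht
    interval_cases t
    · exact hi
    · exact hj
    · exact hk
  · intro s hs t ht e
    interval_cases s <;> interval_cases t <;> first | rfl | (exfalso; simp only [g3] at e; norm_num at e; omega)

private def g4 (i j k l : ℕ) : ℕ → ℕ := fun t => if t = 0 then i else if t = 1 then j else if t = 2 then k else l

private theorem perm4 (h : MS2 R) {i j k l m : ℕ} (hi : i < 4) (hj : j < 4) (hk : k < 4) (hl : l < 4) (hij : i ≠ j)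
    (hik : i ≠ k) (hil : i ≠ l) (hjk : j ≠ k) (hjl : j ≠ l) (hkl : k ≠ l) {F : Z 2} (hF : F ∈ R 4 m) :
    rn (g4 i j k l) F ∈ R 4 m := by
  refine h.ren 4 4 m (g4 i j k l) (by norm_num) ?_ ?_ F hF
  · intro t ht
    interval_cases t
    · exact hi
    · exact hj
    · exact hk
    · exact hl
  · intro s hs t ht e
    interval_cases s <;> interval_cases t <;> first | rfl | (exfalso; simp only [g4] at e; norm_num at e; omega)

/-- the three exponent vectors -/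
private theorem gen1 {N : Submodule (ZMod 2) (Z 2)} {α β : ZMod 2} (a : ℕ → ZMod 2) (b : ℕ → ℕ → ZMod 2) (c : ZMod 2)
    (h0 : z 0 ^ 3 + α • (z 0 * z 1 * z 2) ∈ N) (h1 : z 1 ^ 3 + α • (z 0 * z 1 * z 2) ∈ N)
    (h2 : z 2 ^ 3 + α • (z 0 * z 1 * z 2) ∈ N)
    (k01 : b 0 1 • (z 0 ^ 2 * z 1 + β • (z 0 * z 1 * z 2)) ∈ N) (k02 : b 0 2 • (z 0 ^ 2 * z 2 + β • (z 0 * z 1 * z 2)) ∈ N)
    (k10 : b 1 0 • (z 1 ^ 2 * z 0 + β • (z 0 * z 1 * z 2)) ∈ N) (k12 : b 1 2 • (z 1 ^ 2 * z 2 + β • (z 0 * z 1 * z 2)) ∈ N)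
    (k20 : b 2 0 • (z 2 ^ 2 * z 0 + β • (z 0 * z 1 * z 2)) ∈ N) (k21 : b 2 1 • (z 2 ^ 2 * z 1 + β • (z 0 * z 1 * z 2)) ∈ N) :
    ∃ x : ZMod 2, E33 a b c - x • (z 0 * z 1 * z 2) ∈ N := by
  refine ⟨c - α * (a 0 + a 1 + a 2) - β * (b 0 1 + b 0 2 + b 1 0 + b 1 2 + b 2 0 + b 2 1), ?_⟩
  have s1 := N.add_mem (N.add_mem (N.smul_mem (a 0) h0) (N.smul_mem (a 1) h1)) (N.smul_mem (a 2) h2)
  have s2 := N.add_mem (N.add_mem (N.add_mem k01 k02) (N.add_mem k10 k12)) (N.add_mem k20 k21)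
  have s3 := N.add_mem s1 s2
  have e : E33 a b c - (c - α * (a 0 + a 1 + a 2) - β * (b 0 1 + b 0 2 + b 1 0 + b 1 2 + b 2 0 + b 2 1)) •
      (z 0 * z 1 * z 2) = (a 0 • (z 0 ^ 3 + α • (z 0 * z 1 * z 2)) + a 1 • (z 1 ^ 3 + α • (z 0 * z 1 * z 2)) +
      a 2 • (z 2 ^ 3 + α • (z 0 * z 1 * z 2))) + (b 0 1 • (z 0 ^ 2 * z 1 + β • (z 0 * z 1 * z 2)) +
      b 0 2 • (z 0 ^ 2 * z 2 + β • (z 0 * z 1 * z 2)) + (b 1 0 • (z 1 ^ 2 * z 0 + β • (z 0 * z 1 * z 2)) +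
      b 1 2 • (z 1 ^ 2 * z 2 + β • (z 0 * z 1 * z 2))) + (b 2 0 • (z 2 ^ 2 * z 0 + β • (z 0 * z 1 * z 2)) +
      b 2 1 • (z 2 ^ 2 * z 1 + β • (z 0 * z 1 * z 2)))) := by
    simp only [E33, MvPolynomial.smul_eq_C_mul, map_sub, map_mul, map_add]
    ring
  rw [e]
  exact s3

private theorem gen2 {N : Submodule (ZMod 2) (Z 2)} {α β : ZMod 2} (a : ℕ → ZMod 2) (b : ℕ → ℕ → ZMod 2) (c : ZMod 2)
    (h0 : z 0 ^ 3 + α • (z 0 * z 1 * z 2) ∈ N) (h1 : z 1 ^ 3 + α • (z 0 * z 1 * z 2) ∈ N)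
    (h2 : z 2 ^ 3 + α • (z 0 * z 1 * z 2) ∈ N)
    (k0 : z 0 ^ 2 * z 1 + z 0 ^ 2 * z 2 + β • (z 0 * z 1 * z 2) ∈ N)
    (k1 : z 1 ^ 2 * z 0 + z 1 ^ 2 * z 2 + β • (z 0 * z 1 * z 2) ∈ N)
    (k2 : z 2 ^ 2 * z 0 + z 2 ^ 2 * z 1 + β • (z 0 * z 1 * z 2) ∈ N)
    (b0 : b 0 1 = b 0 2) (b1 : b 1 0 = b 1 2) (b2 : b 2 0 = b 2 1) :
    ∃ x : ZMod 2, E33 a b c - x • (z 0 * z 1 * z 2) ∈ N := by
  refine ⟨c - α * (a 0 + a 1 + a 2) - β * (b 0 2 + b 1 2 + b 2 1), ?_⟩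
  have s1 := N.add_mem (N.add_mem (N.smul_mem (a 0) h0) (N.smul_mem (a 1) h1)) (N.smul_mem (a 2) h2)
  have s2 := N.add_mem (N.add_mem (N.smul_mem (b 0 2) k0) (N.smul_mem (b 1 2) k1)) (N.smul_mem (b 2 1) k2)
  have s3 := N.add_mem s1 s2
  have e : E33 a b c - (c - α * (a 0 + a 1 + a 2) - β * (b 0 2 + b 1 2 + b 2 1)) •
      (z 0 * z 1 * z 2) = (a 0 • (z 0 ^ 3 + α • (z 0 * z 1 * z 2)) + a 1 • (z 1 ^ 3 + α • (z 0 * z 1 * z 2)) +
      a 2 • (z 2 ^ 3 + α • (z 0 * z 1 * z 2))) +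
      (b 0 2 • (z 0 ^ 2 * z 1 + z 0 ^ 2 * z 2 + β • (z 0 * z 1 * z 2)) +
      b 1 2 • (z 1 ^ 2 * z 0 + z 1 ^ 2 * z 2 + β • (z 0 * z 1 * z 2)) +
      b 2 1 • (z 2 ^ 2 * z 0 + z 2 ^ 2 * z 1 + β • (z 0 * z 1 * z 2))) := by
    simp only [E33, MvPolynomial.smul_eq_C_mul, map_sub, map_mul, map_add, b0, b1, b2]
    ring
  rw [e]
  exact s3

private theorem base (h : MS2 R) {i : ℕ} (hi : i < 3) {F : Z 2} (hF : F ∈ R 4 2) :
    z i * rn (g4 0 1 2 i) F ∈ R 3 3 := by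
  have h1 := h.toMS.idtS (n := 3) (k := 2) (by norm_num) hi hF
  have h2 : rn (fun j => if j < 3 then j else i) F = rn (g4 0 1 2 i) F := by
    refine rn_congr (h.le 4 2 (by norm_num) hF) ?_
    intro j hj
    interval_cases j <;> simp [g4]
  rw [h2] at h1
  exact h1

private theorem Dform (h : MS2 R) {a : ℕ → ZMod 2} {b : ℕ → ℕ → ZMod 2} {c : ZMod 2}
    (hs : Soc2 R 3 3 (E33 a b c)) :
    z 1 * (z 0 + z 1) * (b 0 1 • z 1 + b 0 2 • z 2) ∈ R 3 3 ∧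
    z 0 * (z 1 + z 0) * (b 1 0 • z 0 + b 1 2 • z 2) ∈ R 3 3 ∧
    z 0 * (z 2 + z 0) * (b 2 0 • z 0 + b 2 1 • z 1) ∈ R 3 3 := by
  have hx := xx_E33 a b c
  refine ⟨?_, ?_, ?_⟩
  · have h1 := hs.xx (by norm_num) 0 (by norm_num)
    rw [hx.1] at h1
    have h2 := base h (i := 1) (by norm_num) h1
    have e : z 1 * rn (g4 0 1 2 1) ((z 0 + z 3) * (b 0 1 • z 1 + b 0 2 • z 2) : Z 2) =
        z 1 * (z 0 + z 1) * (b 0 1 • z 1 + b 0 2 • z 2) := by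
      simp only [map_mul, map_add, map_smul, rn_z, g4]
      norm_num
      ring
    rwa [e] at h2
  · have h1 := hs.xx (by norm_num) 1 (by norm_num)
    rw [hx.2.1] at h1
    have h2 := base h (i := 0) (by norm_num) h1
    have e : z 0 * rn (g4 0 1 2 0) ((z 1 + z 3) * (b 1 0 • z 0 + b 1 2 • z 2) : Z 2) =
        z 0 * (z 1 + z 0) * (b 1 0 • z 0 + b 1 2 • z 2) := by
      simp only [map_mul, map_add, map_smul, rn_z, g4]
      norm_num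
      ring
    rwa [e] at h2
  · have h1 := hs.xx (by norm_num) 2 (by norm_num)
    rw [hx.2.2] at h1
    have h2 := base h (i := 0) (by norm_num) h1
    have e : z 0 * rn (g4 0 1 2 0) ((z 2 + z 3) * (b 2 0 • z 0 + b 2 1 • z 1) : Z 2) =
        z 0 * (z 2 + z 0) * (b 2 0 • z 0 + b 2 1 • z 1) := by
      simp only [map_mul, map_add, map_smul, rn_z, g4]
      norm_num
      ring
    rwa [e] at h2

private theorem allX (h : MS2 R) {κ : ZMod 2} (hQ : z 0 ^ 2 * z 1 + κ • (z 0 * z 1 * z 2) ∈ R 3 3) :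
    z 0 ^ 2 * z 2 + κ • (z 0 * z 1 * z 2) ∈ R 3 3 ∧ z 1 ^ 2 * z 0 + κ • (z 0 * z 1 * z 2) ∈ R 3 3 ∧
    z 1 ^ 2 * z 2 + κ • (z 0 * z 1 * z 2) ∈ R 3 3 ∧ z 2 ^ 2 * z 0 + κ • (z 0 * z 1 * z 2) ∈ R 3 3 ∧
    z 2 ^ 2 * z 1 + κ • (z 0 * z 1 * z 2) ∈ R 3 3 := by
  have key : ∀ i j k : ℕ, i < 3 → j < 3 → k < 3 → i ≠ j → i ≠ k → j ≠ k →
      z i ^ 2 * z j + κ • (z i * z j * z k) ∈ R 3 3 := by
    intro i j k hi hj hk hij hik hjk
    have h1 := perm3 h hi hj hk hij hik hjk hQ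
    have e : rn (g3 i j k) (z 0 ^ 2 * z 1 + κ • (z 0 * z 1 * z 2) : Z 2) = z i ^ 2 * z j + κ • (z i * z j * z k) := by
      simp only [map_mul, map_add, map_smul, map_pow, rn_z, g3]
      norm_num
    rwa [e] at h1
  refine ⟨?_, ?_, ?_, ?_, ?_⟩
  · have h1 := key 0 2 1 (by norm_num) (by norm_num) (by norm_num) (by norm_num) (by norm_num) (by norm_num)
    have e : (z 0 * z 1 * z 2 : Z 2) = z 0 * z 2 * z 1 := by ring
    rwa [e]
  · have h1 := key 1 0 2 (by norm_num) (by norm_num) (by norm_num) (by norm_num) (by norm_num) (by norm_num)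
    have e : (z 0 * z 1 * z 2 : Z 2) = z 1 * z 0 * z 2 := by ring
    rwa [e]
  · have h1 := key 1 2 0 (by norm_num) (by norm_num) (by norm_num) (by norm_num) (by norm_num) (by norm_num)
    have e : (z 0 * z 1 * z 2 : Z 2) = z 1 * z 2 * z 0 := by ring
    rwa [e]
  · have h1 := key 2 0 1 (by norm_num) (by norm_num) (by norm_num) (by norm_num) (by norm_num) (by norm_num)
    have e : (z 0 * z 1 * z 2 : Z 2) = z 2 * z 0 * z 1 := by ring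
    rwa [e]
  · have h1 := key 2 1 0 (by norm_num) (by norm_num) (by norm_num) (by norm_num) (by norm_num) (by norm_num)
    have e : (z 0 * z 1 * z 2 : Z 2) = z 2 * z 1 * z 0 := by ring
    rwa [e]

private theorem fromX (h : MS2 R) {κ : ZMod 2} :
    (z 1 ^ 2 * z 0 + κ • (z 0 * z 1 * z 2) ∈ R 3 3 → z 0 ^ 2 * z 1 + κ • (z 0 * z 1 * z 2) ∈ R 3 3) ∧
    (z 0 ^ 2 * z 2 + κ • (z 0 * z 1 * z 2) ∈ R 3 3 → z 0 ^ 2 * z 1 + κ • (z 0 * z 1 * z 2) ∈ R 3 3) ∧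
    (z 1 ^ 2 * z 2 + κ • (z 0 * z 1 * z 2) ∈ R 3 3 → z 0 ^ 2 * z 1 + κ • (z 0 * z 1 * z 2) ∈ R 3 3) := by
  refine ⟨fun hQ => ?_, fun hQ => ?_, fun hQ => ?_⟩
  · have h1 := perm3 h (i := 1) (j := 0) (k := 2) (by norm_num) (by norm_num) (by norm_num) (by norm_num)
      (by norm_num) (by norm_num) hQ
    have e : rn (g3 1 0 2) (z 1 ^ 2 * z 0 + κ • (z 0 * z 1 * z 2) : Z 2) =
        z 0 ^ 2 * z 1 + κ • (z 0 * z 1 * z 2) := by
      have e1 : (z 0 * z 1 * z 2 : Z 2) = z 1 * z 0 * z 2 := by ring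
      simp only [map_mul, map_add, map_smul, map_pow, rn_z, g3]
      norm_num
      rw [e1]
    rwa [e] at h1
  · have h1 := perm3 h (i := 0) (j := 2) (k := 1) (by norm_num) (by norm_num) (by norm_num) (by norm_num)
      (by norm_num) (by norm_num) hQ
    have e : rn (g3 0 2 1) (z 0 ^ 2 * z 2 + κ • (z 0 * z 1 * z 2) : Z 2) =
        z 0 ^ 2 * z 1 + κ • (z 0 * z 1 * z 2) := by
      have e1 : (z 0 * z 1 * z 2 : Z 2) = z 0 * z 2 * z 1 := by ring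
      simp only [map_mul, map_add, map_smul, map_pow, rn_z, g3]
      norm_num
      rw [e1]
    rwa [e] at h1
  · have h1 := perm3 h (i := 2) (j := 0) (k := 1) (by norm_num) (by norm_num) (by norm_num) (by norm_num)
      (by norm_num) (by norm_num) hQ
    have e : rn (g3 2 0 1) (z 1 ^ 2 * z 2 + κ • (z 0 * z 1 * z 2) : Z 2) =
        z 0 ^ 2 * z 1 + κ • (z 0 * z 1 * z 2) := by
      have e1 : (z 0 * z 1 * z 2 : Z 2) = z 2 * z 0 * z 1 := by ring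
      simp only [map_mul, map_add, map_smul, map_pow, rn_z, g3]
      norm_num
      rw [e1]
    rwa [e] at h1

private theorem eq_of_smul {N : Submodule (ZMod 2) (Z 2)} {x y : ZMod 2} {G : Z 2} (h : (x + y) • G ∈ N)
    (hG : G ∉ N) : x = y := by
  have h1 : ∀ x y : ZMod 2, x + y = 1 ∨ x = y := by decide
  rcases h1 x y with h2 | h2
  · rw [h2, one_smul] at h
    exact absurd h hG
  · exact h2

/-- matchings and triangles -/
private theorem caseMT (h : MS2 R) {α : ZMod 2}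
    (h0 : z 0 ^ 3 + α • (z 0 * z 1 * z 2) ∈ R 3 3) (h1 : z 1 ^ 3 + α • (z 0 * z 1 * z 2) ∈ R 3 3)
    (h2 : z 2 ^ 3 + α • (z 0 * z 1 * z 2) ∈ R 3 3)
    (k0 : z 0 ^ 2 * z 1 + z 0 ^ 2 * z 2 + (1 + α) • (z 0 * z 1 * z 2) ∈ R 3 3)
    (k1 : z 1 ^ 2 * z 0 + z 1 ^ 2 * z 2 + (1 + α) • (z 0 * z 1 * z 2) ∈ R 3 3)
    (k2 : z 2 ^ 2 * z 0 + z 2 ^ 2 * z 1 + (1 + α) • (z 0 * z 1 * z 2) ∈ R 3 3)
    {a : ℕ → ZMod 2} {b : ℕ → ℕ → ZMod 2} {c : ZMod 2}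
    (hs : Soc2 R 3 3 (E33 a b c)) : ∃ x : ZMod 2, E33 a b c - x • (z 0 * z 1 * z 2) ∈ R 3 3 := by
  by_cases hQ : z 0 ^ 2 * z 1 + α • (z 0 * z 1 * z 2) ∈ R 3 3
  · obtain ⟨q1, q2, q3, q4, q5⟩ := allX h hQ
    exact gen1 a b c h0 h1 h2 ((R 3 3).smul_mem _ hQ) ((R 3 3).smul_mem _ q1) ((R 3 3).smul_mem _ q2)
      ((R 3 3).smul_mem _ q3) ((R 3 3).smul_mem _ q4) ((R 3 3).smul_mem _ q5)
  · obtain ⟨d1, d2, d3⟩ := Dform h hs
    obtain ⟨f1, f2, f3⟩ := fromX (R := R) h (κ := α)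
    refine gen2 a b c h0 h1 h2 k0 k1 k2 ?_ ?_ ?_
    · refine eq_of_smul (N := R 3 3) (G := z 1 ^ 2 * z 0 + α • (z 0 * z 1 * z 2)) ?_ (fun hc => hQ (f1 hc))
      have s1 := (R 3 3).sub_mem d1 ((R 3 3).add_mem ((R 3 3).smul_mem (b 0 1) h1) ((R 3 3).smul_mem (b 0 2) k1))
      have e : (z 1 * (z 0 + z 1) * (b 0 1 • z 1 + b 0 2 • z 2) : Z 2) - (b 0 1 • (z 1 ^ 3 + α • (z 0 * z 1 * z 2)) +
          b 0 2 • (z 1 ^ 2 * z 0 + z 1 ^ 2 * z 2 + (1 + α) • (z 0 * z 1 * z 2))) =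
          (b 0 1 + b 0 2) • (z 1 ^ 2 * z 0 + α • (z 0 * z 1 * z 2)) := by
        simp only [MvPolynomial.smul_eq_C_mul, map_add, map_one]
        linear_combination (-(MvPolynomial.C (b 0 1) * MvPolynomial.C α * z 0 * z 1 * z 2) -
          MvPolynomial.C (b 0 2) * MvPolynomial.C α * z 0 * z 1 * z 2 - MvPolynomial.C (b 0 2) * z 1 ^ 2 * z 0) * two0
      rwa [e] at s1
    · refine eq_of_smul (N := R 3 3) (G := z 0 ^ 2 * z 1 + α • (z 0 * z 1 * z 2)) ?_ hQ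
      have s1 := (R 3 3).sub_mem d2 ((R 3 3).add_mem ((R 3 3).smul_mem (b 1 0) h0) ((R 3 3).smul_mem (b 1 2) k0))
      have e : (z 0 * (z 1 + z 0) * (b 1 0 • z 0 + b 1 2 • z 2) : Z 2) - (b 1 0 • (z 0 ^ 3 + α • (z 0 * z 1 * z 2)) +
          b 1 2 • (z 0 ^ 2 * z 1 + z 0 ^ 2 * z 2 + (1 + α) • (z 0 * z 1 * z 2))) =
          (b 1 0 + b 1 2) • (z 0 ^ 2 * z 1 + α • (z 0 * z 1 * z 2)) := by
        simp only [MvPolynomial.smul_eq_C_mul, map_add, map_one]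
        linear_combination (-(MvPolynomial.C (b 1 0) * MvPolynomial.C α * z 0 * z 1 * z 2) -
          MvPolynomial.C (b 1 2) * MvPolynomial.C α * z 0 * z 1 * z 2 - MvPolynomial.C (b 1 2) * z 0 ^ 2 * z 1) * two0
      rwa [e] at s1
    · refine eq_of_smul (N := R 3 3) (G := z 0 ^ 2 * z 2 + α • (z 0 * z 1 * z 2)) ?_ (fun hc => hQ (f2 hc))
      have s1 := (R 3 3).sub_mem d3 ((R 3 3).add_mem ((R 3 3).smul_mem (b 2 0) h0) ((R 3 3).smul_mem (b 2 1) k0))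
      have e : (z 0 * (z 2 + z 0) * (b 2 0 • z 0 + b 2 1 • z 1) : Z 2) - (b 2 0 • (z 0 ^ 3 + α • (z 0 * z 1 * z 2)) +
          b 2 1 • (z 0 ^ 2 * z 1 + z 0 ^ 2 * z 2 + (1 + α) • (z 0 * z 1 * z 2))) =
          (b 2 0 + b 2 1) • (z 0 ^ 2 * z 2 + α • (z 0 * z 1 * z 2)) := by
        simp only [MvPolynomial.smul_eq_C_mul, map_add, map_one]
        linear_combination (-(MvPolynomial.C (b 2 0) * MvPolynomial.C α * z 0 * z 1 * z 2) -
          MvPolynomial.C (b 2 1) * MvPolynomial.C α * z 0 * z 1 * z 2 - MvPolynomial.C (b 2 1) * z 0 ^ 2 * z 2) * two0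
      rwa [e] at s1

/-- from base 0 to all bases -/
private theorem cube3 (h : MS2 R) {α : ZMod 2} (h0 : z 0 ^ 3 + α • (z 0 * z 1 * z 2) ∈ R 3 3) :
    z 1 ^ 3 + α • (z 0 * z 1 * z 2) ∈ R 3 3 ∧ z 2 ^ 3 + α • (z 0 * z 1 * z 2) ∈ R 3 3 := by
  constructor
  · have h1 := perm3 h (i := 1) (j := 0) (k := 2) (by norm_num) (by norm_num) (by norm_num) (by norm_num)
      (by norm_num) (by norm_num) h0
    have e : rn (g3 1 0 2) (z 0 ^ 3 + α • (z 0 * z 1 * z 2) : Z 2) = z 1 ^ 3 + α • (z 0 * z 1 * z 2) := by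
      have e1 : (z 0 * z 1 * z 2 : Z 2) = z 1 * z 0 * z 2 := by ring
      simp only [map_mul, map_add, map_smul, map_pow, rn_z, g3]
      norm_num
      rw [e1]
    rwa [e] at h1
  · have h1 := perm3 h (i := 2) (j := 0) (k := 1) (by norm_num) (by norm_num) (by norm_num) (by norm_num)
      (by norm_num) (by norm_num) h0
    have e : rn (g3 2 0 1) (z 0 ^ 3 + α • (z 0 * z 1 * z 2) : Z 2) = z 2 ^ 3 + α • (z 0 * z 1 * z 2) := by
      have e1 : (z 0 * z 1 * z 2 : Z 2) = z 2 * z 0 * z 1 := by ring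
      simp only [map_mul, map_add, map_smul, map_pow, rn_z, g3]
      norm_num
      rw [e1]
    rwa [e] at h1

private theorem pair3 (h : MS2 R) {α β : ZMod 2}
    (h0 : α • z 0 ^ 3 + z 0 ^ 2 * z 1 + z 0 ^ 2 * z 2 + β • (z 0 * z 1 * z 2) ∈ R 3 3) :
    α • z 1 ^ 3 + z 1 ^ 2 * z 0 + z 1 ^ 2 * z 2 + β • (z 0 * z 1 * z 2) ∈ R 3 3 ∧
    α • z 2 ^ 3 + z 2 ^ 2 * z 0 + z 2 ^ 2 * z 1 + β • (z 0 * z 1 * z 2) ∈ R 3 3 := by
  constructor
  · have h1 := perm3 h (i := 1) (j := 0) (k := 2) (by norm_num) (by norm_num) (by norm_num) (by norm_num)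
      (by norm_num) (by norm_num) h0
    have e : rn (g3 1 0 2) (α • z 0 ^ 3 + z 0 ^ 2 * z 1 + z 0 ^ 2 * z 2 + β • (z 0 * z 1 * z 2) : Z 2) =
        α • z 1 ^ 3 + z 1 ^ 2 * z 0 + z 1 ^ 2 * z 2 + β • (z 0 * z 1 * z 2) := by
      have e1 : (z 0 * z 1 * z 2 : Z 2) = z 1 * z 0 * z 2 := by ring
      simp only [map_mul, map_add, map_smul, map_pow, rn_z, g3]
      norm_num
      rw [e1]
    rwa [e] at h1
  · have h1 := perm3 h (i := 2) (j := 0) (k := 1) (by norm_num) (by norm_num) (by norm_num) (by norm_num)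
      (by norm_num) (by norm_num) h0
    have e : rn (g3 2 0 1) (α • z 0 ^ 3 + z 0 ^ 2 * z 1 + z 0 ^ 2 * z 2 + β • (z 0 * z 1 * z 2) : Z 2) =
        α • z 2 ^ 3 + z 2 ^ 2 * z 0 + z 2 ^ 2 * z 1 + β • (z 0 * z 1 * z 2) := by
      have e1 : (z 0 * z 1 * z 2 : Z 2) = z 2 * z 0 * z 1 := by ring
      simp only [map_mul, map_add, map_smul, map_pow, rn_z, g3]
      norm_num
      rw [e1]
    rwa [e] at h1

private theorem jj0 {p q x : ZMod 2} (e : x • gJ = (z 0 + z 3) * (p • z 1 + q • z 2)) : p = 0 ∧ q = 0 := by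
  have e1 := congrArg (MvPolynomial.eval (fun t => if t = 1 ∨ t = 2 then (1 : ZMod 2) else 0)) e
  have e2 := congrArg (MvPolynomial.eval (fun t => if t = 0 ∨ t = 1 then (1 : ZMod 2) else 0)) e
  have e3 := congrArg (MvPolynomial.eval (fun t => if t = 0 ∨ t = 2 then (1 : ZMod 2) else 0)) e
  simp [gJ, MvPolynomial.smul_eval] at e1 e2 e3
  rw [e1] at e2 e3
  exact ⟨e2.symm, e3.symm⟩

private theorem jj1 {p q x : ZMod 2} (e : x • gJ = (z 1 + z 3) * (p • z 0 + q • z 2)) : p = 0 ∧ q = 0 := by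
  have e1 := congrArg (MvPolynomial.eval (fun t => if t = 0 ∨ t = 2 then (1 : ZMod 2) else 0)) e
  have e2 := congrArg (MvPolynomial.eval (fun t => if t = 0 ∨ t = 1 then (1 : ZMod 2) else 0)) e
  have e3 := congrArg (MvPolynomial.eval (fun t => if t = 1 ∨ t = 2 then (1 : ZMod 2) else 0)) e
  simp [gJ, MvPolynomial.smul_eval] at e1 e2 e3
  rw [e1] at e2 e3
  exact ⟨e2.symm, e3.symm⟩

private theorem jj2 {p q x : ZMod 2} (e : x • gJ = (z 2 + z 3) * (p • z 0 + q • z 1)) : p = 0 ∧ q = 0 := by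
  have e1 := congrArg (MvPolynomial.eval (fun t => if t = 0 ∨ t = 1 then (1 : ZMod 2) else 0)) e
  have e2 := congrArg (MvPolynomial.eval (fun t => if t = 0 ∨ t = 2 then (1 : ZMod 2) else 0)) e
  have e3 := congrArg (MvPolynomial.eval (fun t => if t = 1 ∨ t = 2 then (1 : ZMod 2) else 0)) e
  simp [gJ, MvPolynomial.smul_eval] at e1 e2 e3
  rw [e1] at e2 e3
  exact ⟨e2.symm, e3.symm⟩

/-- the complete graph -/
private theorem caseJ (h : MS2 R) (hJ : gJ ∈ R 4 2) (hJ' : R 4 2 ≤ Submodule.span (ZMod 2) {gJ})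
    {a : ℕ → ZMod 2} {b : ℕ → ℕ → ZMod 2} {c : ZMod 2}
    (hs : Soc2 R 3 3 (E33 a b c)) : ∃ x : ZMod 2, E33 a b c - x • (z 0 * z 1 * z 2) ∈ R 3 3 := by
  have h0 : z 0 ^ 3 + (1 : ZMod 2) • (z 0 * z 1 * z 2) ∈ R 3 3 := by
    have h2 := base h (i := 0) (by norm_num) hJ
    have e : z 0 * rn (g4 0 1 2 0) gJ = z 0 ^ 3 + (1 : ZMod 2) • (z 0 * z 1 * z 2) := by
      simp only [gJ, map_mul, map_add, rn_z, g4]
      norm_num
      linear_combination (z 0 ^ 2 * z 1 + z 0 ^ 2 * z 2) * two0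
    rwa [e] at h2
  obtain ⟨h1, h2⟩ := cube3 h h0
  obtain ⟨x0, x1, x2⟩ := xx_E33 a b c
  have m0 := hs.xx (by norm_num) 0 (by norm_num)
  have m1 := hs.xx (by norm_num) 1 (by norm_num)
  have m2 := hs.xx (by norm_num) 2 (by norm_num)
  rw [x0] at m0
  rw [x1] at m1
  rw [x2] at m2
  obtain ⟨y0, e0⟩ := Submodule.mem_span_singleton.1 (hJ' m0)
  obtain ⟨y1, e1⟩ := Submodule.mem_span_singleton.1 (hJ' m1)
  obtain ⟨y2, e2⟩ := Submodule.mem_span_singleton.1 (hJ' m2)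
  obtain ⟨b01, b02⟩ := jj0 e0
  obtain ⟨b10, b12⟩ := jj1 e1
  obtain ⟨b20, b21⟩ := jj2 e2
  refine gen1 (β := 0) a b c h0 h1 h2 ?_ ?_ ?_ ?_ ?_ ?_
  · rw [b01, zero_smul]; exact (R 3 3).zero_mem
  · rw [b02, zero_smul]; exact (R 3 3).zero_mem
  · rw [b10, zero_smul]; exact (R 3 3).zero_mem
  · rw [b12, zero_smul]; exact (R 3 3).zero_mem
  · rw [b20, zero_smul]; exact (R 3 3).zero_mem
  · rw [b21, zero_smul]; exact (R 3 3).zero_mem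

/-- matchings -/
private theorem caseM (h : MS2 R) (hM : gM ∈ R 4 2)
    {a : ℕ → ZMod 2} {b : ℕ → ℕ → ZMod 2} {c : ZMod 2}
    (hs : Soc2 R 3 3 (E33 a b c)) : ∃ x : ZMod 2, E33 a b c - x • (z 0 * z 1 * z 2) ∈ R 3 3 := by
  have h0 : z 0 ^ 3 + (1 : ZMod 2) • (z 0 * z 1 * z 2) ∈ R 3 3 := by
    have h1 := perm4 h (i := 0) (j := 3) (k := 1) (l := 2) (by norm_num) (by norm_num) (by norm_num) (by norm_num)
      (by norm_num) (by norm_num) (by norm_num) (by norm_num) (by norm_num) (by norm_num) hM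
    have e1 : rn (g4 0 3 1 2) gM = z 0 * z 3 + z 1 * z 2 := by
      simp only [gM, map_mul, map_add, rn_z, g4]
      norm_num
    rw [e1] at h1
    have h2 := base h (i := 0) (by norm_num) h1
    have e : z 0 * rn (g4 0 1 2 0) (z 0 * z 3 + z 1 * z 2 : Z 2) = z 0 ^ 3 + (1 : ZMod 2) • (z 0 * z 1 * z 2) := by
      simp only [map_mul, map_add, rn_z, g4]
      norm_num
      ring
    rwa [e] at h2
  have k0 : (0 : ZMod 2) • z 0 ^ 3 + z 0 ^ 2 * z 1 + z 0 ^ 2 * z 2 + (0 : ZMod 2) • (z 0 * z 1 * z 2) ∈ R 3 3 := by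
    have h2 := base h (i := 0) (by norm_num) hM
    have e : z 0 * rn (g4 0 1 2 0) gM = (0 : ZMod 2) • z 0 ^ 3 + z 0 ^ 2 * z 1 + z 0 ^ 2 * z 2 +
        (0 : ZMod 2) • (z 0 * z 1 * z 2) := by
      simp only [gM, map_mul, map_add, rn_z, g4, zero_smul]
      norm_num
      ring
    rwa [e] at h2
  obtain ⟨h1, h2⟩ := cube3 h h0
  obtain ⟨k1, k2⟩ := pair3 h k0
  rw [zero_smul, zero_add] at k0 k1 k2
  have e1 : (1 + 1 : ZMod 2) = 0 := by decide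
  exact caseMT h h0 h1 h2 (by rwa [e1]) (by rwa [e1]) (by rwa [e1]) hs

/-- triangles -/
private theorem caseT (h : MS2 R) (hT : gT ∈ R 4 2)
    {a : ℕ → ZMod 2} {b : ℕ → ℕ → ZMod 2} {c : ZMod 2}
    (hs : Soc2 R 3 3 (E33 a b c)) : ∃ x : ZMod 2, E33 a b c - x • (z 0 * z 1 * z 2) ∈ R 3 3 := by
  have h0 : z 0 ^ 3 + (0 : ZMod 2) • (z 0 * z 1 * z 2) ∈ R 3 3 := by
    have h1 := perm4 h (i := 0) (j := 1) (k := 3) (l := 2) (by norm_num) (by norm_num) (by norm_num) (by norm_num)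
      (by norm_num) (by norm_num) (by norm_num) (by norm_num) (by norm_num) (by norm_num) hT
    have e1 : rn (g4 0 1 3 2) gT = z 0 * z 1 + z 0 * z 3 + z 1 * z 3 := by
      simp only [gT, map_mul, map_add, rn_z, g4]
      norm_num
    rw [e1] at h1
    have h2 := base h (i := 0) (by norm_num) h1
    have e : z 0 * rn (g4 0 1 2 0) (z 0 * z 1 + z 0 * z 3 + z 1 * z 3 : Z 2) =
        z 0 ^ 3 + (0 : ZMod 2) • (z 0 * z 1 * z 2) := by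
      simp only [map_mul, map_add, rn_z, g4, zero_smul]
      norm_num
      linear_combination (z 0 ^ 2 * z 1) * two0
    rwa [e] at h2
  have k0 : (0 : ZMod 2) • z 0 ^ 3 + z 0 ^ 2 * z 1 + z 0 ^ 2 * z 2 + (1 + 0 : ZMod 2) • (z 0 * z 1 * z 2) ∈ R 3 3 := by
    have h2 := base h (i := 0) (by norm_num) hT
    have e : z 0 * rn (g4 0 1 2 0) gT = (0 : ZMod 2) • z 0 ^ 3 + z 0 ^ 2 * z 1 + z 0 ^ 2 * z 2 +
        (1 + 0 : ZMod 2) • (z 0 * z 1 * z 2) := by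
      simp only [gT, map_mul, map_add, rn_z, g4, zero_smul, add_zero, one_smul]
      norm_num
      ring
    rwa [e] at h2
  obtain ⟨h1, h2⟩ := cube3 h h0
  obtain ⟨k1, k2⟩ := pair3 h k0
  rw [zero_smul, zero_add] at k0 k1 k2
  exact caseMT h h0 h1 h2 k0 k1 k2 hs

/-- stars -/
private theorem caseS (h : MS2 R) (hS : gS ∈ R 4 2)
    {a : ℕ → ZMod 2} {b : ℕ → ℕ → ZMod 2} {c : ZMod 2}
    (hs : Soc2 R 3 3 (E33 a b c)) :
    ∃ x : ℕ → ZMod 2, E33 a b c - ∑ i ∈ Finset.range 3, x i • z i ^ 3 ∈ R 3 3 := by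
  have t0 : z 0 * z 1 * z 2 ∈ R 3 3 := by
    have h1 := perm4 h (i := 1) (j := 0) (k := 2) (l := 3) (by norm_num) (by norm_num) (by norm_num) (by norm_num)
      (by norm_num) (by norm_num) (by norm_num) (by norm_num) (by norm_num) (by norm_num) hS
    have e1 : rn (g4 1 0 2 3) gS = z 1 * z 0 + z 1 * z 2 + z 1 * z 3 := by
      simp only [gS, map_mul, map_add, rn_z, g4]
      norm_num
    rw [e1] at h1
    have h2 := base h (i := 0) (by norm_num) h1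
    have e : z 0 * rn (g4 0 1 2 0) (z 1 * z 0 + z 1 * z 2 + z 1 * z 3 : Z 2) = z 0 * z 1 * z 2 := by
      simp only [map_mul, map_add, rn_z, g4]
      norm_num
      linear_combination (z 0 ^ 2 * z 1) * two0
    rwa [e] at h2
  have k0 : (1 : ZMod 2) • z 0 ^ 3 + z 0 ^ 2 * z 1 + z 0 ^ 2 * z 2 + (0 : ZMod 2) • (z 0 * z 1 * z 2) ∈ R 3 3 := by
    have h2 := base h (i := 0) (by norm_num) hS
    have e : z 0 * rn (g4 0 1 2 0) gS = (1 : ZMod 2) • z 0 ^ 3 + z 0 ^ 2 * z 1 + z 0 ^ 2 * z 2 +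
        (0 : ZMod 2) • (z 0 * z 1 * z 2) := by
      simp only [gS, map_mul, map_add, rn_z, g4, zero_smul, one_smul]
      norm_num
      ring
    rwa [e] at h2
  obtain ⟨k1, k2⟩ := pair3 h k0
  rw [zero_smul, one_smul, add_zero] at k0 k1 k2
  by_cases hQ : z 0 ^ 2 * z 1 + (0 : ZMod 2) • (z 0 * z 1 * z 2) ∈ R 3 3
  · obtain ⟨q1, q2, q3, q4, q5⟩ := allX h hQ
    rw [zero_smul, add_zero] at hQ q1 q2 q3 q4 q5
    refine ⟨a, ?_⟩
    have s1 := (R 3 3).add_mem ((R 3 3).add_mem ((R 3 3).smul_mem (b 0 1) hQ) ((R 3 3).smul_mem (b 0 2) q1))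
      ((R 3 3).add_mem ((R 3 3).smul_mem (b 1 0) q2) ((R 3 3).smul_mem (b 1 2) q3))
    have s2 := (R 3 3).add_mem ((R 3 3).add_mem ((R 3 3).smul_mem (b 2 0) q4) ((R 3 3).smul_mem (b 2 1) q5))
      ((R 3 3).smul_mem c t0)
    have s3 := (R 3 3).add_mem s1 s2
    have e : E33 a b c - ∑ i ∈ Finset.range 3, a i • z i ^ 3 =
        (b 0 1 • (z 0 ^ 2 * z 1) + b 0 2 • (z 0 ^ 2 * z 2) + (b 1 0 • (z 1 ^ 2 * z 0) + b 1 2 • (z 1 ^ 2 * z 2))) +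
        (b 2 0 • (z 2 ^ 2 * z 0) + b 2 1 • (z 2 ^ 2 * z 1) + c • (z 0 * z 1 * z 2)) := by
      simp only [E33, Finset.sum_range_succ, Finset.sum_range_zero]
      abel
    rw [e]
    exact s3
  · obtain ⟨d1, d2, d3⟩ := Dform h hs
    obtain ⟨f1, f2, f3⟩ := fromX (R := R) h (κ := 0)
    have b01 : b 0 1 = b 0 2 := by
      refine eq_of_smul (N := R 3 3) (G := z 1 ^ 2 * z 2 + (0 : ZMod 2) • (z 0 * z 1 * z 2)) ?_ (fun hc => hQ (f3 hc))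
      have s1 := (R 3 3).sub_mem d1 ((R 3 3).add_mem ((R 3 3).smul_mem (b 0 1) k1) ((R 3 3).smul_mem (b 0 2) t0))
      have e : (z 1 * (z 0 + z 1) * (b 0 1 • z 1 + b 0 2 • z 2) : Z 2) -
          (b 0 1 • (z 1 ^ 3 + z 1 ^ 2 * z 0 + z 1 ^ 2 * z 2) + b 0 2 • (z 0 * z 1 * z 2)) =
          (b 0 1 + b 0 2) • (z 1 ^ 2 * z 2 + (0 : ZMod 2) • (z 0 * z 1 * z 2)) := by
        simp only [MvPolynomial.smul_eq_C_mul, map_add, map_zero]
        linear_combination (-(MvPolynomial.C (b 0 1) * z 1 ^ 2 * z 2)) * two0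
      rwa [e] at s1
    have b10 : b 1 0 = b 1 2 := by
      refine eq_of_smul (N := R 3 3) (G := z 0 ^ 2 * z 2 + (0 : ZMod 2) • (z 0 * z 1 * z 2)) ?_ (fun hc => hQ (f2 hc))
      have s1 := (R 3 3).sub_mem d2 ((R 3 3).add_mem ((R 3 3).smul_mem (b 1 0) k0) ((R 3 3).smul_mem (b 1 2) t0))
      have e : (z 0 * (z 1 + z 0) * (b 1 0 • z 0 + b 1 2 • z 2) : Z 2) -
          (b 1 0 • (z 0 ^ 3 + z 0 ^ 2 * z 1 + z 0 ^ 2 * z 2) + b 1 2 • (z 0 * z 1 * z 2)) =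
          (b 1 0 + b 1 2) • (z 0 ^ 2 * z 2 + (0 : ZMod 2) • (z 0 * z 1 * z 2)) := by
        simp only [MvPolynomial.smul_eq_C_mul, map_add, map_zero]
        linear_combination (-(MvPolynomial.C (b 1 0) * z 0 ^ 2 * z 2)) * two0
      rwa [e] at s1
    have b20 : b 2 0 = b 2 1 := by
      refine eq_of_smul (N := R 3 3) (G := z 0 ^ 2 * z 1 + (0 : ZMod 2) • (z 0 * z 1 * z 2)) ?_ hQ
      have s1 := (R 3 3).sub_mem d3 ((R 3 3).add_mem ((R 3 3).smul_mem (b 2 0) k0) ((R 3 3).smul_mem (b 2 1) t0))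
      have e : (z 0 * (z 2 + z 0) * (b 2 0 • z 0 + b 2 1 • z 1) : Z 2) -
          (b 2 0 • (z 0 ^ 3 + z 0 ^ 2 * z 1 + z 0 ^ 2 * z 2) + b 2 1 • (z 0 * z 1 * z 2)) =
          (b 2 0 + b 2 1) • (z 0 ^ 2 * z 1 + (0 : ZMod 2) • (z 0 * z 1 * z 2)) := by
        simp only [MvPolynomial.smul_eq_C_mul, map_add, map_zero]
        linear_combination (-(MvPolynomial.C (b 2 0) * z 0 ^ 2 * z 1)) * two0
      rwa [e] at s1
    refine ⟨fun i => if i = 0 then a 0 - b 0 2 else if i = 1 then a 1 - b 1 2 else a 2 - b 2 1, ?_⟩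
    have s1 := (R 3 3).add_mem ((R 3 3).add_mem ((R 3 3).smul_mem (b 0 2) k0) ((R 3 3).smul_mem (b 1 2) k1))
      ((R 3 3).add_mem ((R 3 3).smul_mem (b 2 1) k2) ((R 3 3).smul_mem c t0))
    have e : E33 a b c - ∑ i ∈ Finset.range 3, (fun i => if i = 0 then a 0 - b 0 2 else if i = 1 then a 1 - b 1 2
        else a 2 - b 2 1) i • z i ^ 3 =
        (b 0 2 • (z 0 ^ 3 + z 0 ^ 2 * z 1 + z 0 ^ 2 * z 2) + b 1 2 • (z 1 ^ 3 + z 1 ^ 2 * z 0 + z 1 ^ 2 * z 2)) +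
        (b 2 1 • (z 2 ^ 3 + z 2 ^ 2 * z 0 + z 2 ^ 2 * z 1) + c • (z 0 * z 1 * z 2)) := by
      have r0 : (fun i => if i = 0 then a 0 - b 0 2 else if i = 1 then a 1 - b 1 2 else a 2 - b 2 1) 0 =
        a 0 - b 0 2 := rfl
      have r1 : (fun i => if i = 0 then a 0 - b 0 2 else if i = 1 then a 1 - b 1 2 else a 2 - b 2 1) 1 =
        a 1 - b 1 2 := rfl
      have r2 : (fun i => if i = 0 then a 0 - b 0 2 else if i = 1 then a 1 - b 1 2 else a 2 - b 2 1) 2 =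
        a 2 - b 2 1 := rfl
      rw [Finset.sum_range_succ, Finset.sum_range_succ, Finset.sum_range_succ, Finset.sum_range_zero, r0, r1, r2]
      simp only [E33, b01, b10, b20, MvPolynomial.smul_eq_C_mul, map_sub]
      ring
    rw [e]
    exact s1

theorem noB3b (h : MS2 R) {F : Z 2} (hF : F ∈ R 4 2) (hY : F ∉ Y4) {u w : Z 2}
    (hl : LP 2 R (Soc2 R) 3 3 3 u w) : False := by
  obtain ⟨a, b, c, rfl⟩ := exp33 hl.su.hy
  obtain ⟨a', b', c', rfl⟩ := exp33 hl.sw.hy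
  rcases balt h hF hY with ⟨hJ, hJ'⟩ | hM | hT | hS
  · obtain ⟨x, hx⟩ := caseJ h hJ hJ' hl.su
    obtain ⟨y, hy⟩ := caseJ h hJ hJ' hl.sw
    exact hl.rank1 hx hy
  · obtain ⟨x, hx⟩ := caseM h hM hl.su
    obtain ⟨y, hy⟩ := caseM h hM hl.sw
    exact hl.rank1 hx hy
  · obtain ⟨x, hx⟩ := caseT h hT hl.su
    obtain ⟨y, hy⟩ := caseT h hT hl.sw
    exact hl.rank1 hx hy
  · obtain ⟨x, hx⟩ := caseS h hS hl.su
    obtain ⟨y, hy⟩ := caseS h hS hl.sw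
    refine hl.nu (P1 (h.toMS.GAs (by norm_num)) (e := fun i => z i ^ 3) ?_ hx hy hl.Lkd)
    intro i hi j hj hij
    refine ⟨(rn (Equiv.swap i j) : Z 2 →ₐ[ZMod 2] Z 2).toLinearMap, GA_rn _ ?_, ?_, ?_, ?_⟩
    · intro t ht
      exact Equiv.swap_apply_of_ne_of_ne (by omega) (by omega)
    · have e : (rn (Equiv.swap i j) : Z 2 →ₐ[ZMod 2] Z 2).toLinearMap (z i ^ 3) - z j ^ 3 = 0 := by
        show rn (Equiv.swap i j) (z i ^ 3) - z j ^ 3 = 0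
        rw [map_pow, rn_z, Equiv.swap_apply_left, sub_self]
      show (rn (Equiv.swap i j) : Z 2 →ₐ[ZMod 2] Z 2).toLinearMap (z i ^ 3) - z j ^ 3 ∈ R 3 3
      rw [e]
      exact (R 3 3).zero_mem
    · have e : (rn (Equiv.swap i j) : Z 2 →ₐ[ZMod 2] Z 2).toLinearMap (z j ^ 3) - z i ^ 3 = 0 := by
        show rn (Equiv.swap i j) (z j ^ 3) - z i ^ 3 = 0
        rw [map_pow, rn_z, Equiv.swap_apply_right, sub_self]
      show (rn (Equiv.swap i j) : Z 2 →ₐ[ZMod 2] Z 2).toLinearMap (z j ^ 3) - z i ^ 3 ∈ R 3 3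
      rw [e]
      exact (R 3 3).zero_mem
    · intro k _ hki hkj
      have e : (rn (Equiv.swap i j) : Z 2 →ₐ[ZMod 2] Z 2).toLinearMap (z k ^ 3) - z k ^ 3 = 0 := by
        show rn (Equiv.swap i j) (z k ^ 3) - z k ^ 3 = 0
        rw [map_pow, rn_z, Equiv.swap_apply_of_ne_of_ne hki hkj, sub_self]
      show (rn (Equiv.swap i j) : Z 2 →ₐ[ZMod 2] Z 2).toLinearMap (z k ^ 3) - z k ^ 3 ∈ R 3 3
      rw [e]
      exact (R 3 3).zero_mem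

end ADQ
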