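import Pool.Agent.ADQ.B3a
import Pool.Agent.ADQ.B3b
import Pool.Agent.ADQ.B2a
import Pool.Agent.ADQ.B2b
import Pool.Agent.ADQ.B2c

/-!
# ADQ-B23n
-/

namespace ADQ

open AD ADN ADC

variable {R : ℕ → ℕ → Submodule (ZMod 2) (Z 2)}

theorem noB3 (h : MS2 R) {F : Z 2} (hF : F ∈ R 4 2) (hY : F ∉ Y4) {k l : ℕ} {u w : Z 2}
    (hl : LP 2 R (Soc2 R) 3 k l u w) : False := by
  have : Fact (Nat.Prime 2) := ⟨Nat.prime_two⟩
  have hm := hl.mono fun _ _ _ hy => hy.toSocB
  have hb := b53 h (b51 h hF hY)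
  have hkl := hl.kl
  have h0 : k ≠ 0 := by
    rintro rfl
    exact noLP_0 h.toMS hm
  have h1 : k ≠ 1 := by
    rintro rfl
    exact noLP_1 h.toMS hm
  have hl3 : l ≤ 3 := by
    by_contra hc
    exact hl.nw (h.toMS.Kup le_rfl (by omega) hb.2.1 (by omega) hl.sw.hy)
  rcases Nat.lt_or_ge k 3 with h3 | h3
  · have e : k = 2 := by omega
    subst e
    exact noB3a h hF hY hl
  · have e : k = 3 := by omega
    have e2 : l = 3 := by omega
    subst e e2
    exact noB3b h hF hY hl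

theorem bTwo (h : MS2 R) {F : Z 2} (hF : F ∈ R 4 2) (hY : F ∉ Y4) {k l : ℕ} {u w : Z 2}
    (hl : LP 2 R (Soc2 R) 2 k l u w) : PB R k l u w := by
  have : Fact (Nat.Prime 2) := ⟨Nat.prime_two⟩
  have hm := hl.mono fun _ _ _ hy => hy.toSocB
  have hb := b53 h (b51 h hF hY)
  have hkl := hl.kl
  have h0 : k ≠ 0 := by
    rintro rfl
    exact noLP_0 h.toMS hm
  have h1 : k ≠ 1 := by
    rintro rfl
    exact noLP_1 h.toMS hm
  have hl3 : l ≤ 4 := by
    by_contra hc
    exact hl.nw (h.toMS.Kup le_rfl (by omega) hb.2.2.1 (by omega) hl.sw.hy)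
  rcases Nat.lt_or_ge k 3 with h3 | h3
  · have e : k = 2 := by omega
    subst e
    exact (bTwo2 h hF hY hl).elim
  rcases Nat.lt_or_ge k 4 with h4 | h4
  · have e : k = 3 := by omega
    subst e
    exact bTwo3 h hF hY hl
  · have e : k = 4 := by omega
    have e2 : l = 4 := by omega
    subst e e2
    exact bTwo4 h hF hY hl

end ADQ
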