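import Pool.Agent.ADQ.B51
import Pool.Agent.ADQ.BAlt
import Pool.Agent.ADQ.NoSq
import Pool.Agent.ADQ.NoLP01
import Pool.Agent.ADQ.ExpD

/-!
# ADQ-B3a

`n = 3`, `k = 2`.  `b51`, `b53`: `Hh 2 3 4 ≤ R 3 4`, `Kup`: `l ≤ 3`.
`k = 2`: `u = E32 d c`, `xx i 3 u = d_i (z_i + z_3) ∈ R 4 1`.  If some `d_i ≠ 0` (for `u`, or for `w` if `l = 2`): `z_a + z_b ∈ R 4 1`; `idtS` (`n = 3`): `z_0 (z_0 + z_1)`, `z_2 (z_0 + z_1) ∈ R 3 2`: all monomials of degree 2 congruent; `l = 2`: `LP.rank1`; `l = 3`: `ev 1 (z_0 + z_1) = z_0 ∈ R 5 1`, `K1` (`n = 4`), `K0` (`n = 3`):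
`Hh 2 3 3 ≤ R 3 3`.  If `d = 0` for `u`: some `c_ab ≠ 0`, `ev e u = c_ab z_a z_b ∈ R 4 2` (`{a,b,e} = {0,1,2}`), `b52` (`n = 3`): `Hh 2 3 3 ≤ R 3 3`: `l = 2`; `w` also without squares: `P1` with `e_i = ` the product of the other two variables.
-/

namespace ADQ

open AD ADN ADC

variable {R : ℕ → ℕ → Submodule (ZMod 2) (Z 2)}

private theorem a3two : (2 : Z 2) = 0 := by
  have h : ((2 : ℕ) : Z 2) = 0 := CharP.cast_eq_zero (Z 2) 2
  exact_mod_cast h

private theorem a3swap {M a b : ℕ} (ha : a < M) (hb : b < M) {t : ℕ} (ht : t < M) : Equiv.swap a b t < M := by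
  rw [Equiv.swap_apply_def]
  split_ifs
  · exact hb
  · exact ha
  · exact ht

private theorem a3perm2 {M x y a b : ℕ} (hx : x < M) (hy : y < M) (ha : a < M) (hb : b < M) (hxy : x ≠ y)
    (hab : a ≠ b) : ∃ σ : Equiv.Perm ℕ, (∀ t < M, σ t < M) ∧ σ x = a ∧ σ y = b := by
  refine ⟨Equiv.swap (Equiv.swap x a y) b * Equiv.swap x a, ?_, ?_, ?_⟩
  · intro t ht
    rw [Equiv.Perm.mul_apply]
    exact a3swap (a3swap hx ha hy) hb (a3swap hx ha ht)
  · rw [Equiv.Perm.mul_apply, Equiv.swap_apply_left]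
    refine Equiv.swap_apply_of_ne_of_ne ?_ hab
    intro e
    apply hxy
    apply (Equiv.swap x a).injective
    rw [Equiv.swap_apply_left]
    exact e
  · rw [Equiv.Perm.mul_apply, Equiv.swap_apply_left]

private theorem a3rnm {n k : ℕ} (h : MS 2 R) (hn : 1 ≤ n) (σ : Equiv.Perm ℕ) (hσ : ∀ t < n, σ t < n) {F : Z 2}
    (hF : F ∈ R n k) : rn σ F ∈ R n k :=
  h.ren n n k σ hn hσ (fun _ _ _ _ e => σ.injective e) F hF

private theorem a3smul {N : Submodule (ZMod 2) (Z 2)} {x : ZMod 2} (hx : x ≠ 0) {G : Z 2} (h : x • G ∈ N) : G ∈ N := by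
  have h0 : ∀ y : ZMod 2, y ≠ 0 → y = 1 := by decide
  rw [h0 x hx, one_smul] at h
  exact h

private theorem a3lin (h : MS2 R) {i : ℕ} (hi : i < 3) (h1 : z i + z 3 ∈ R 4 1) :
    ∀ a b : ℕ, a < 4 → b < 4 → a ≠ b → z a + z b ∈ R 4 1 := by
  intro a b ha hb hab
  obtain ⟨σ, hσ, e1, e2⟩ := a3perm2 (M := 4) (x := i) (y := 3) (a := a) (b := b) (by omega) (by omega) ha hb
    (by omega) hab
  have h2 := a3rnm h.toMS (by norm_num) σ hσ h1
  rw [map_add, rn_z, rn_z, e1, e2] at h2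
  exact h2

private theorem a3f (h : MS2 R) (h1 : ∀ a b : ℕ, a < 4 → b < 4 → a ≠ b → z a + z b ∈ R 4 1) {i a : ℕ} (hi : i < 3)
    (ha : a < 3) : z i * (z a + z i) ∈ R 3 2 := by
  have h2 := h.idtS (by norm_num) hi (h1 a 3 (by omega) (by omega) (by omega))
  rw [map_add, rn_z, rn_z, if_pos ha, if_neg (by norm_num)] at h2
  exact h2

private theorem a3E (h : MS2 R) (h1 : ∀ a b : ℕ, a < 4 → b < 4 → a ≠ b → z a + z b ∈ R 4 1) (d : ℕ → ZMod 2)
    (c : ℕ → ℕ → ZMod 2) : E32 d c - (d 0 + d 1 + d 2 + c 0 1 + c 0 2 + c 1 2) • z 0 ^ 2 ∈ R 3 2 := by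
  have f01 : z 0 * (z 1 + z 0) ∈ R 3 2 := a3f h h1 (by norm_num) (by norm_num)
  have f10 : z 1 * (z 0 + z 1) ∈ R 3 2 := a3f h h1 (by norm_num) (by norm_num)
  have f02 : z 0 * (z 2 + z 0) ∈ R 3 2 := a3f h h1 (by norm_num) (by norm_num)
  have f20 : z 2 * (z 0 + z 2) ∈ R 3 2 := a3f h h1 (by norm_num) (by norm_num)
  have f12 : z 1 * (z 2 + z 1) ∈ R 3 2 := a3f h h1 (by norm_num) (by norm_num)
  have g1 := (R 3 2).sub_mem f10 f01
  have g2 := (R 3 2).sub_mem f20 f02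
  have g3 := (R 3 2).add_mem f12 g1
  have s := (R 3 2).add_mem ((R 3 2).add_mem ((R 3 2).add_mem ((R 3 2).add_mem ((R 3 2).smul_mem (d 1) g1)
    ((R 3 2).smul_mem (d 2) g2)) ((R 3 2).smul_mem (c 0 1) f01)) ((R 3 2).smul_mem (c 0 2) f02))
    ((R 3 2).smul_mem (c 1 2) g3)
  have e : E32 d c - (d 0 + d 1 + d 2 + c 0 1 + c 0 2 + c 1 2) • z 0 ^ 2 =
      d 1 • (z 1 * (z 0 + z 1) - z 0 * (z 1 + z 0)) + d 2 • (z 2 * (z 0 + z 2) - z 0 * (z 2 + z 0)) +
      c 0 1 • (z 0 * (z 1 + z 0)) + c 0 2 • (z 0 * (z 2 + z 0)) +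
      c 1 2 • (z 1 * (z 2 + z 1) + (z 1 * (z 0 + z 1) - z 0 * (z 1 + z 0))) := by
    simp only [E32, MvPolynomial.smul_eq_C_mul, map_add]
    linear_combination (- MvPolynomial.C (c 0 1) * z 0 ^ 2 - MvPolynomial.C (c 0 2) * z 0 ^ 2 -
      MvPolynomial.C (c 1 2) * z 1 ^ 2) * a3two
  rw [e]
  exact s

private theorem a3K (h : MS2 R) (h1 : ∀ a b : ℕ, a < 4 → b < 4 → a ≠ b → z a + z b ∈ R 4 1) :
    Hh 2 3 3 ≤ R 3 3 := by
  have h3 := h.zer 4 1 1 (by norm_num) _ (h1 0 1 (by norm_num) (by norm_num) (by norm_num))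
  rw [map_add, ev_z, ev_z, if_neg (by norm_num), if_pos rfl, add_zero] at h3
  have h4 := h.K1 (n := 4) le_rfl (by norm_num) h3
  exact h.K0 (k := 2) le_rfl (by norm_num) (fun F hF => h4 (Hh_mono (by norm_num) hF))

private noncomputable def a3e : ℕ → Z 2 := fun i => if i = 0 then z 1 * z 2 else if i = 1 then z 0 * z 2 else z 0 * z 1

private theorem a3eSum (c : ℕ → ℕ → ZMod 2) :
    ∑ i ∈ Finset.range 3, (![c 1 2, c 0 2, c 0 1] : Fin 3 → ZMod 2) (Fin.ofNat 3 i) • a3e i =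
      c 0 1 • (z 0 * z 1) + c 0 2 • (z 0 * z 2) + c 1 2 • (z 1 * z 2) := by
  rw [Finset.sum_range_succ, Finset.sum_range_succ, Finset.sum_range_succ, Finset.sum_range_zero]
  simp [a3e, Fin.ofNat]
  ring

private theorem a3eR {i j k : ℕ} (hi : i < 3) (hj : j < 3) (hk : k < 3) (hij : i ≠ j) :
    rn (Equiv.swap i j) (a3e k) = a3e (Equiv.swap i j k) := by
  interval_cases i <;> interval_cases j <;> first | exact absurd rfl hij | skip
  all_goals interval_cases k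
  all_goals
    simp only [a3e, Equiv.swap_apply_def]
    norm_num
    simp only [rn_z, Equiv.swap_apply_def]
    norm_num
  all_goals ring

theorem noB3a (h : MS2 R) {F : Z 2} (hF : F ∈ R 4 2) (hY : F ∉ Y4) {l : ℕ} {u w : Z 2}
    (hl : LP 2 R (Soc2 R) 3 2 l u w) : False := by
  have h0 := b51 h hF hY
  obtain ⟨-, h34, -, -⟩ := b53 h h0
  have hwH : w ∈ Hh 2 3 l := hl.sw.hy
  have hnw : w ∉ R 3 l := hl.nw
  have hl3 : l = 2 ∨ l = 3 := by
    have h1 := hl.kl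
    by_contra hc
    have h4 : 4 ≤ l := by omega
    exact hnw (h.Kup (by norm_num) (by norm_num) h34 h4 hwH)
  obtain ⟨d, c, eu⟩ := exp32 hl.su.hy
  have key : (∀ a b : ℕ, a < 4 → b < 4 → a ≠ b → z a + z b ∈ R 4 1) → False := by
    intro h1
    rcases hl3 with rfl | rfl
    · obtain ⟨d', c', ew⟩ := exp32 hwH
      have hu := a3E h h1 d c
      have hw := a3E h h1 d' c'
      rw [← eu] at hu
      rw [← ew] at hw
      exact hl.rank1 hu hw
    · exact hnw (a3K h h1 hwH)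
  have hdz : ∀ {y : Z 2} {k : ℕ}, Soc2 R 3 (k + 1) y → k = 1 → ∀ d c, y = E32 d c → d 0 = 0 ∧ d 1 = 0 ∧ d 2 = 0 := by
    intro y k hy hk d c ey
    subst hk
    obtain ⟨x0, x1, x2⟩ := xx_E32 d c
    refine ⟨?_, ?_, ?_⟩
    · by_contra hd
      have h1 := hy.xx (by norm_num) 0 (by norm_num)
      rw [ey, x0] at h1
      exact key (a3lin h (by norm_num) (a3smul hd h1))
    · by_contra hd
      have h1 := hy.xx (by norm_num) 1 (by norm_num)
      rw [ey, x1] at h1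
      exact key (a3lin h (by norm_num) (a3smul hd h1))
    · by_contra hd
      have h1 := hy.xx (by norm_num) 2 (by norm_num)
      rw [ey, x2] at h1
      exact key (a3lin h (by norm_num) (a3smul hd h1))
  obtain ⟨d0, d1, d2⟩ := hdz (k := 1) hl.su rfl d c eu
  have eu' : u = c 0 1 • (z 0 * z 1) + c 0 2 • (z 0 * z 2) + c 1 2 • (z 1 * z 2) := by
    rw [eu, E32, d0, d1, d2]
    simp
  have hz : z 0 * z 1 ∈ R 4 2 := by
    have hp : ∀ a b : ℕ, a < 4 → b < 4 → a ≠ b → z a * z b ∈ R 4 2 → z 0 * z 1 ∈ R 4 2 := by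
      intro a b ha hb hab hab2
      obtain ⟨σ, hσ, e1, e2⟩ := a3perm2 (M := 4) (x := a) (y := b) (a := 0) (b := 1) ha hb (by norm_num)
        (by norm_num) hab (by norm_num)
      have h2 := a3rnm h.toMS (by norm_num) σ hσ hab2
      rw [map_mul, rn_z, rn_z, e1, e2] at h2
      exact h2
    by_cases h01 : c 0 1 = 0
    · by_cases h02 : c 0 2 = 0
      · by_cases h12 : c 1 2 = 0
        · exfalso
          apply hl.nu
          rw [eu', h01, h02, h12]
          simp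
        · have h1 := hl.su.zer 0 (by norm_num)
          rw [eu'] at h1
          simp only [map_add, map_smul, map_mul, ev_z] at h1
          norm_num at h1
          exact hp 1 2 (by norm_num) (by norm_num) (by norm_num) (a3smul h12 h1)
      · have h1 := hl.su.zer 1 (by norm_num)
        rw [eu'] at h1
        simp only [map_add, map_smul, map_mul, ev_z] at h1
        norm_num at h1
        exact hp 0 2 (by norm_num) (by norm_num) (by norm_num) (a3smul h02 h1)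
    · have h1 := hl.su.zer 2 (by norm_num)
      rw [eu'] at h1
      simp only [map_add, map_smul, map_mul, ev_z] at h1
      norm_num at h1
      exact hp 0 1 (by norm_num) (by norm_num) (by norm_num) (a3smul h01 h1)
  have h33 : Hh 2 3 3 ≤ R 3 3 := b52 h (by norm_num) hz
  rcases hl3 with rfl | rfl
  · obtain ⟨d', c', ew⟩ := exp32 hwH
    obtain ⟨d0', d1', d2'⟩ := hdz (k := 1) hl.sw rfl d' c' ew
    have ew' : w = c' 0 1 • (z 0 * z 1) + c' 0 2 • (z 0 * z 2) + c' 1 2 • (z 1 * z 2) := by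
      rw [ew, E32, d0', d1', d2']
      simp
    apply hl.nu
    refine P1 (N := R 3 2) (h.toMS.GAs (by norm_num)) (e := a3e) ?_
      (a := fun i => (![c 1 2, c 0 2, c 0 1] : Fin 3 → ZMod 2) (Fin.ofNat 3 i))
      (b := fun i => (![c' 1 2, c' 0 2, c' 0 1] : Fin 3 → ZMod 2) (Fin.ofNat 3 i)) ?_ ?_ hl.Lkd
    · intro i hi j hj hij
      refine ⟨(rn (Equiv.swap i j)).toLinearMap, GA_rn _ ?_, ?_, ?_, ?_⟩
      · intro k hk
        exact Equiv.swap_apply_of_ne_of_ne (by omega) (by omega)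
      · rw [AlgHom.toLinearMap_apply, a3eR hi hj hi hij, Equiv.swap_apply_left, sub_self]
        exact zero_mem _
      · rw [AlgHom.toLinearMap_apply, a3eR hi hj hj hij, Equiv.swap_apply_right, sub_self]
        exact zero_mem _
      · intro k hk hki hkj
        rw [AlgHom.toLinearMap_apply, a3eR hi hj hk hij, Equiv.swap_apply_of_ne_of_ne hki hkj, sub_self]
        exact zero_mem _
    · rw [a3eSum, ← eu', sub_self]
      exact zero_mem _
    · rw [a3eSum, ← ew', sub_self]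
      exact zero_mem _
  · exact hnw (h33 hwH)

end ADQ
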