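import Pool.Agent.ADQ.B51
import Pool.Agent.ADQ.BAlt
import Pool.Agent.ADQ.NoSq
import Pool.Agent.ADQ.NoLP01
import Pool.Agent.ADQ.ExpN

/-!
# ADQ-B4n

`noB5`: `noLP_0`, `noLP_1` (`LP.mono` to `SocB`); `b51`, `b53`: `Hh 2 4 3 ≤ R 4 3`, `Kup`: `l ≤ 2`, `k = l = 2`.
`noB4` (`n = 4`): again `k = l = 2`.  `u = E42 d c`, `w = E42 d' c'`.  If some `d_i ≠ 0` or `d'_i ≠ 0`: `Soc2.xx`: `z_a + z_b ∈ R 5 1`; `idtS` (`n = 4`): `z_0 (z_0 + z_1)`, `z_2 (z_0 + z_1) ∈ R 4 2`: all monomials of degree 2 are congruent: `LP.rank1` with `E = z_0^2`.  Otherwise `u = E42 0 c`, `w = E42 0 c'`; `N = R 4 2`.  `C = (z_0+z_1)(z_2+z_3)`.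
`T = (1 + (0 1)) (1 + (2 3))`: `T u = (c_02 + c_12 + c_03 + c_13) C`: `Lkd.rankT`.  (i) `C ∉ N`: `c_02 + c_12 = c_03 + c_13`, so `(1 + (0 1)) u = (c_02 + c_12) C` and the same for `w`, `rankT`: `c_02 = c_12`; all pairs: `u = c gJ`, `w = c' gJ`: `LP.rank1`.
(ii) `C ∈ N`, so all 4-cycles: `(1 + (0 1)) u ≡ (v_0 + v_1)(z_0 z_2 + z_1 z_2)` with `v_i = ∑_j c_ij`; `rankT`: `(v_0 + v_1)(z_0 z_2 + z_1 z_2) ∈ N`.  If `v_i(u) ≠ v_j(u)` or `v_i(w) ≠ v_j(w)` for some pair: all paths are in `N`, all `z_a z_b` are congruent: `LP.rank1`.  Otherwise `v(u)`, `v(w)` are constant; then `u ≡ x gM + y gT`,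
`w ≡ x' gM + y' gT` modulo `Y4` (`v = 0`: even graph: `0`, 4-cycles, triangles; `v = 1`: `u + gM` has `v = 0`).  `F ∈ N`, `F ∉ Y4`: if `F` has some `d_i ≠ 0` (then, `MS2.xx`, as before all monomials congruent) or nonconstant `v(F)` (then a path is in `N`): `LP.rank1`.  Otherwise `F ≡ x'' gM + y'' gT ≠ 0` is in `N`: `gM ∈ N` or `gT ∈ N` or
`gM + gT ∈ N`; so `u`, `w` are congruent to multiples of one element: `LP.rank1`.
-/

namespace ADQ

open AD ADN ADC

variable {R : ℕ → ℕ → Submodule (ZMod 2) (Z 2)}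

/-- a graph on four vertices -/
private noncomputable def bQ (a b c d e f : ZMod 2) : Z 2 :=
  a • (z 0 * z 1) + b • (z 0 * z 2) + c • (z 0 * z 3) + d • (z 1 * z 2) + e • (z 1 * z 3) +
    f • (z 2 * z 3)

private theorem bQ_add (a b c d e f a' b' c' d' e' f' : ZMod 2) :
    bQ a b c d e f + bQ a' b' c' d' e' f' = bQ (a + a') (b + b') (c + c') (d + d') (e + e') (f + f') := by
  unfold bQ
  module

private theorem bQ_sub (a b c d e f a' b' c' d' e' f' : ZMod 2) :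
    bQ a b c d e f - bQ a' b' c' d' e' f' = bQ (a + a') (b + b') (c + c') (d + d') (e + e') (f + f') := by
  have h : ∀ x y : ZMod 2, x + y = x - y := by decide
  rw [h a, h b, h c, h d, h e, h f]
  unfold bQ
  module

private theorem bQ_smul (x a b c d e f : ZMod 2) :
    x • bQ a b c d e f = bQ (x * a) (x * b) (x * c) (x * d) (x * e) (x * f) := by
  unfold bQ
  module

private theorem bQ_congr {a b c d e f a' b' c' d' e' f' : ZMod 2} (h1 : a = a') (h2 : b = b')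
    (h3 : c = c') (h4 : d = d') (h5 : e = e') (h6 : f = f') :
    bQ a b c d e f = bQ a' b' c' d' e' f' := by
  rw [h1, h2, h3, h4, h5, h6]

private theorem bQ_01 (a b c d e f : ZMod 2) :
    rn (Equiv.swap 0 1 : Equiv.Perm ℕ) (bQ a b c d e f) = bQ a d e b c f := by
  have s0 : (Equiv.swap 0 1 : Equiv.Perm ℕ) 0 = 1 := by decide
  have s1 : (Equiv.swap 0 1 : Equiv.Perm ℕ) 1 = 0 := by decide
  have s2 : (Equiv.swap 0 1 : Equiv.Perm ℕ) 2 = 2 := by decide
  have s3 : (Equiv.swap 0 1 : Equiv.Perm ℕ) 3 = 3 := by decide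
  unfold bQ
  simp only [map_add, map_smul, map_mul, rn_z, s0, s1, s2, s3]
  simp only [MvPolynomial.smul_eq_C_mul]
  ring

private theorem bQ_12 (a b c d e f : ZMod 2) :
    rn (Equiv.swap 1 2 : Equiv.Perm ℕ) (bQ a b c d e f) = bQ b a c d f e := by
  have s0 : (Equiv.swap 1 2 : Equiv.Perm ℕ) 0 = 0 := by decide
  have s1 : (Equiv.swap 1 2 : Equiv.Perm ℕ) 1 = 2 := by decide
  have s2 : (Equiv.swap 1 2 : Equiv.Perm ℕ) 2 = 1 := by decide
  have s3 : (Equiv.swap 1 2 : Equiv.Perm ℕ) 3 = 3 := by decide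
  unfold bQ
  simp only [map_add, map_smul, map_mul, rn_z, s0, s1, s2, s3]
  simp only [MvPolynomial.smul_eq_C_mul]
  ring

private theorem bQ_23 (a b c d e f : ZMod 2) :
    rn (Equiv.swap 2 3 : Equiv.Perm ℕ) (bQ a b c d e f) = bQ a c b e d f := by
  have s0 : (Equiv.swap 2 3 : Equiv.Perm ℕ) 0 = 0 := by decide
  have s1 : (Equiv.swap 2 3 : Equiv.Perm ℕ) 1 = 1 := by decide
  have s2 : (Equiv.swap 2 3 : Equiv.Perm ℕ) 2 = 3 := by decide
  have s3 : (Equiv.swap 2 3 : Equiv.Perm ℕ) 3 = 2 := by decide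
  unfold bQ
  simp only [map_add, map_smul, map_mul, rn_z, s0, s1, s2, s3]
  simp only [MvPolynomial.smul_eq_C_mul]
  ring

private theorem bQ_03 (a b c d e f : ZMod 2) :
    rn (Equiv.swap 0 3 : Equiv.Perm ℕ) (bQ a b c d e f) = bQ e f c d a b := by
  have s0 : (Equiv.swap 0 3 : Equiv.Perm ℕ) 0 = 3 := by decide
  have s1 : (Equiv.swap 0 3 : Equiv.Perm ℕ) 1 = 1 := by decide
  have s2 : (Equiv.swap 0 3 : Equiv.Perm ℕ) 2 = 2 := by decide
  have s3 : (Equiv.swap 0 3 : Equiv.Perm ℕ) 3 = 0 := by decide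
  unfold bQ
  simp only [map_add, map_smul, map_mul, rn_z, s0, s1, s2, s3]
  simp only [MvPolynomial.smul_eq_C_mul]
  ring

private theorem b4_sw {m a b : ℕ} (ha : a < m) (hb : b < m) : ∀ i, m ≤ i → Equiv.swap a b i = i := by
  intro i hi
  exact Equiv.swap_apply_of_ne_of_ne (by omega) (by omega)

/-- all paths are in `N` -/
private theorem b4_P {N : Submodule (ZMod 2) (Z 2)} (hN : Stb 2 4 N) (hP : bQ 0 1 0 1 0 0 ∈ N)
    (a b c d e f : ZMod 2) : bQ a b c d e f - (a + b + c + d + e + f) • bQ 1 0 0 0 0 0 ∈ N := by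
  have h01 : ∀ F ∈ N, rn (Equiv.swap 0 1 : Equiv.Perm ℕ) F ∈ N := fun F hF =>
    hN _ (GA_rn _ (b4_sw (by norm_num) (by norm_num))) F hF
  have h12 : ∀ F ∈ N, rn (Equiv.swap 1 2 : Equiv.Perm ℕ) F ∈ N := fun F hF =>
    hN _ (GA_rn _ (b4_sw (by norm_num) (by norm_num))) F hF
  have h23 : ∀ F ∈ N, rn (Equiv.swap 2 3 : Equiv.Perm ℕ) F ∈ N := fun F hF =>
    hN _ (GA_rn _ (b4_sw (by norm_num) (by norm_num))) F hF
  have w3 : bQ 1 0 0 1 0 0 ∈ N := by
    have := h12 _ hP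
    rwa [bQ_12] at this
  have w4 : bQ 0 0 1 0 1 0 ∈ N := by
    have := h23 _ hP
    rwa [bQ_23] at this
  have w1 : bQ 1 1 0 0 0 0 ∈ N := by
    have := h01 _ w3
    rwa [bQ_01] at this
  have w2 : bQ 1 0 1 0 0 0 ∈ N := by
    have := h23 _ w1
    rwa [bQ_23] at this
  have w5 : bQ 0 0 1 0 0 1 ∈ N := by
    have := h12 _ w4
    rwa [bQ_12] at this
  have h := N.add_mem (N.add_mem (N.add_mem (N.add_mem (N.smul_mem b w1) (N.smul_mem (c + e + f) w2))
    (N.smul_mem d w3)) (N.smul_mem e w4)) (N.smul_mem f w5)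
  rw [bQ_smul, bQ_smul, bQ_smul, bQ_smul, bQ_smul, bQ_add, bQ_add, bQ_add, bQ_add] at h
  rw [bQ_smul, bQ_sub]
  have e1 : ∀ a b c d e f : ZMod 2, a + (a + b + c + d + e + f) * 1 =
      b * 1 + (c + e + f) * 1 + d * 1 + e * 0 + f * 0 := by decide
  have e2 : ∀ a b c d e f : ZMod 2, b + (a + b + c + d + e + f) * 0 =
      b * 1 + (c + e + f) * 0 + d * 0 + e * 0 + f * 0 := by decide
  have e3 : ∀ a b c d e f : ZMod 2, c + (a + b + c + d + e + f) * 0 =
      b * 0 + (c + e + f) * 1 + d * 0 + e * 1 + f * 1 := by decide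
  have e4 : ∀ a b c d e f : ZMod 2, d + (a + b + c + d + e + f) * 0 =
      b * 0 + (c + e + f) * 0 + d * 1 + e * 0 + f * 0 := by decide
  have e5 : ∀ a b c d e f : ZMod 2, e + (a + b + c + d + e + f) * 0 =
      b * 0 + (c + e + f) * 0 + d * 0 + e * 1 + f * 0 := by decide
  have e6 : ∀ a b c d e f : ZMod 2, f + (a + b + c + d + e + f) * 0 =
      b * 0 + (c + e + f) * 0 + d * 0 + e * 0 + f * 1 := by decide
  rw [bQ_congr (e1 a b c d e f) (e2 a b c d e f) (e3 a b c d e f) (e4 a b c d e f)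
    (e5 a b c d e f) (e6 a b c d e f)]
  exact h

private noncomputable def bT (i j : ℕ) : Z 2 →ₗ[ZMod 2] Z 2 :=
  LinearMap.id + (rn (Equiv.swap i j : Equiv.Perm ℕ) : Z 2 →ₐ[ZMod 2] Z 2).toLinearMap

private theorem bT_GA {i j : ℕ} (hi : i < 4) (hj : j < 4) : bT i j ∈ GA 2 4 :=
  (GA 2 4).add_mem (GA_one 4) (GA_rn _ (b4_sw hi hj))

private theorem b4_dbl : ∀ x : ZMod 2, x + x = 0 := by decide

private theorem bT_01 (a b c d e f : ZMod 2) :
    bT 0 1 (bQ a b c d e f) = bQ 0 (b + d) (c + e) (b + d) (c + e) 0 := by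
  have h : bT 0 1 (bQ a b c d e f) = bQ a b c d e f + rn (Equiv.swap 0 1 : Equiv.Perm ℕ)
    (bQ a b c d e f) := rfl
  rw [h, bQ_01, bQ_add, b4_dbl, b4_dbl, add_comm d b, add_comm e c]

private theorem bT_12 (a b c d e f : ZMod 2) :
    bT 1 2 (bQ a b c d e f) = bQ (a + b) (a + b) 0 0 (e + f) (e + f) := by
  have h : bT 1 2 (bQ a b c d e f) = bQ a b c d e f + rn (Equiv.swap 1 2 : Equiv.Perm ℕ)
    (bQ a b c d e f) := rfl
  rw [h, bQ_12, bQ_add, b4_dbl, b4_dbl, add_comm b a, add_comm f e]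

private theorem bT_23 (a b c d e f : ZMod 2) :
    bT 2 3 (bQ a b c d e f) = bQ 0 (b + c) (b + c) (d + e) (d + e) 0 := by
  have h : bT 2 3 (bQ a b c d e f) = bQ a b c d e f + rn (Equiv.swap 2 3 : Equiv.Perm ℕ)
    (bQ a b c d e f) := rfl
  rw [h, bQ_23, bQ_add, b4_dbl, b4_dbl, add_comm c b, add_comm e d]

private theorem bT_03 (a b c d e f : ZMod 2) :
    bT 0 3 (bQ a b c d e f) = bQ (a + e) (b + f) 0 0 (a + e) (b + f) := by
  have h : bT 0 3 (bQ a b c d e f) = bQ a b c d e f + rn (Equiv.swap 0 3 : Equiv.Perm ℕ)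
    (bQ a b c d e f) := rfl
  rw [h, bQ_03, bQ_add, b4_dbl, b4_dbl, add_comm e a, add_comm f b]

private theorem b4_zero {N : Submodule (ZMod 2) (Z 2)} {E : Z 2} (hE : E ∉ N) {x : ZMod 2}
    (h : x • E ∈ N) : x = 0 := by
  have hx0 : ∀ x : ZMod 2, x = 0 ∨ x = 1 := by decide
  have hx := hx0 x
  rcases hx with rfl | rfl
  · rfl
  · rw [one_smul] at h
    exact absurd h hE

private theorem b4_core {N : Submodule (ZMod 2) (Z 2)} (hN : Stb 2 4 N)
    {a b c d e f a' b' c' d' e' f' g1 g2 g3 g4 g5 g6 : ZMod 2}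
    (hl : Lkd 2 4 N (bQ a b c d e f) (bQ a' b' c' d' e' f')) (hF : bQ g1 g2 g3 g4 g5 g6 ∈ N)
    (hY : bQ g1 g2 g3 g4 g5 g6 ∉ Y4) : bQ a b c d e f ∈ N := by
  have h01 : ∀ F ∈ N, rn (Equiv.swap 0 1 : Equiv.Perm ℕ) F ∈ N := fun F hF =>
    hN _ (GA_rn _ (b4_sw (by norm_num) (by norm_num))) F hF
  have h12 : ∀ F ∈ N, rn (Equiv.swap 1 2 : Equiv.Perm ℕ) F ∈ N := fun F hF =>
    hN _ (GA_rn _ (b4_sw (by norm_num) (by norm_num))) F hF
  have h23 : ∀ F ∈ N, rn (Equiv.swap 2 3 : Equiv.Perm ℕ) F ∈ N := fun F hF =>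
    hN _ (GA_rn _ (b4_sw (by norm_num) (by norm_num))) F hF
  have g01 : bT 0 1 ∈ GA 2 4 := bT_GA (by norm_num) (by norm_num)
  have g12 : bT 1 2 ∈ GA 2 4 := bT_GA (by norm_num) (by norm_num)
  have g23 : bT 2 3 ∈ GA 2 4 := bT_GA (by norm_num) (by norm_num)
  have z0 : ∀ F : Z 2, F - F ∈ N := fun F => by rw [sub_self]; exact N.zero_mem
  by_cases hC : bQ 0 1 1 1 1 0 ∈ N
  · have hC2 : bQ 1 0 1 1 0 1 ∈ N := by
      have := h12 _ hC
      rwa [bQ_12] at this
    have hC3 : bQ 1 1 0 0 1 1 ∈ N := by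
      have := N.add_mem hC hC2
      rwa [bQ_add] at this
    by_cases hP : bQ 0 1 0 1 0 0 ∈ N
    · exact hl.rank1 (b4_P hN hP a b c d e f) (b4_P hN hP a' b' c' d' e' f')
    · have hP' : bQ 1 1 0 0 0 0 ∉ N := by
        intro h
        have h1 := h01 _ h
        rw [bQ_01] at h1
        have h2 := h12 _ h1
        rw [bQ_12] at h2
        exact hP h2
      have k1 : ∀ a b c d e f : ZMod 2, bT 0 1 (bQ a b c d e f) -
          (b + c + d + e) • bQ 0 1 0 1 0 0 ∈ N := by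
        intro a b c d e f
        have h := N.smul_mem (c + e) hC
        rw [bQ_smul] at h
        rw [bT_01, bQ_smul, bQ_sub]
        have e1 : ∀ b c d e : ZMod 2, b + d + (b + c + d + e) * 1 = (c + e) * 1 := by decide
        have e2 : ∀ b c d e : ZMod 2, c + e + (b + c + d + e) * 0 = (c + e) * 1 := by decide
        have e3 : ∀ b c d e : ZMod 2, 0 + (b + c + d + e) * 0 = (c + e) * 0 := by decide
        rw [bQ_congr (e3 b c d e) (e1 b c d e) (e2 b c d e) (e1 b c d e) (e2 b c d e) (e3 b c d e)]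
        exact h
      have k2 : ∀ a b c d e f : ZMod 2, bT 1 2 (bQ a b c d e f) -
          (a + b + e + f) • bQ 1 1 0 0 0 0 ∈ N := by
        intro a b c d e f
        have h := N.smul_mem (e + f) hC3
        rw [bQ_smul] at h
        rw [bT_12, bQ_smul, bQ_sub]
        have e1 : ∀ a b e f : ZMod 2, a + b + (a + b + e + f) * 1 = (e + f) * 1 := by decide
        have e2 : ∀ a b e f : ZMod 2, e + f + (a + b + e + f) * 0 = (e + f) * 1 := by decide
        have e3 : ∀ a b e f : ZMod 2, 0 + (a + b + e + f) * 0 = (e + f) * 0 := by decide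
        rw [bQ_congr (e1 a b e f) (e1 a b e f) (e3 a b e f) (e3 a b e f) (e2 a b e f) (e2 a b e f)]
        exact h
      have q1 : ∀ a b c d e f : ZMod 2, bT 0 1 (bQ a b c d e f) ∈ N → b + c + d + e = 0 := by
        intro a b c d e f h
        have h1 := N.sub_mem h (k1 a b c d e f)
        rw [sub_sub_cancel] at h1
        exact b4_zero hP h1
      have q2 : ∀ a b c d e f : ZMod 2, bT 1 2 (bQ a b c d e f) ∈ N → a + b + e + f = 0 := by
        intro a b c d e f h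
        have h1 := N.sub_mem h (k2 a b c d e f)
        rw [sub_sub_cancel] at h1
        exact b4_zero hP' h1
      have r1 := hl.rankT g01 (k1 a b c d e f) (k1 a' b' c' d' e' f')
      have r2 := hl.rankT g12 (k2 a b c d e f) (k2 a' b' c' d' e' f')
      have u1 := q1 _ _ _ _ _ _ r1.1
      have u2 := q2 _ _ _ _ _ _ r2.1
      have v1 := q1 _ _ _ _ _ _ r1.2
      have v2 := q2 _ _ _ _ _ _ r2.2
      have f1 := q1 _ _ _ _ _ _ (hN _ g01 _ hF)
      have f2 := q2 _ _ _ _ _ _ (hN _ g12 _ hF)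
      -- normal form modulo `Y4`
      have nf : ∀ a b c d e f : ZMod 2, b + c + d + e = 0 → a + b + e + f = 0 →
          bQ a b c d e f - ((f + c + e) • bQ 1 0 0 0 0 1 + (b + e) • bQ 1 1 0 1 0 0) =
            e • bQ 0 1 1 1 1 0 + (c + e) • bQ 1 0 1 1 0 1 := by
        intro a b c d e f h1 h2
        rw [bQ_smul, bQ_smul, bQ_smul, bQ_smul, bQ_add, bQ_add, bQ_sub]
        have e1 : ∀ a b c d e f : ZMod 2, b + c + d + e = 0 → a + b + e + f = 0 →
          a + ((f + c + e) * 1 + (b + e) * 1) = e * 0 + (c + e) * 1 := by decide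
        have e2 : ∀ a b c d e f : ZMod 2, b + c + d + e = 0 → a + b + e + f = 0 →
          b + ((f + c + e) * 0 + (b + e) * 1) = e * 1 + (c + e) * 0 := by decide
        have e3 : ∀ a b c d e f : ZMod 2, b + c + d + e = 0 → a + b + e + f = 0 →
          c + ((f + c + e) * 0 + (b + e) * 0) = e * 1 + (c + e) * 1 := by decide
        have e4 : ∀ a b c d e f : ZMod 2, b + c + d + e = 0 → a + b + e + f = 0 →
          d + ((f + c + e) * 0 + (b + e) * 1) = e * 1 + (c + e) * 1 := by decide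
        have e5 : ∀ a b c d e f : ZMod 2, b + c + d + e = 0 → a + b + e + f = 0 →
          e + ((f + c + e) * 0 + (b + e) * 0) = e * 1 + (c + e) * 0 := by decide
        have e6 : ∀ a b c d e f : ZMod 2, b + c + d + e = 0 → a + b + e + f = 0 →
          f + ((f + c + e) * 1 + (b + e) * 0) = e * 0 + (c + e) * 1 := by decide
        exact bQ_congr (e1 a b c d e f h1 h2) (e2 a b c d e f h1 h2) (e3 a b c d e f h1 h2)
          (e4 a b c d e f h1 h2) (e5 a b c d e f h1 h2) (e6 a b c d e f h1 h2)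
      have hmem : ∀ x y : ZMod 2, x • bQ 0 1 1 1 1 0 + y • bQ 1 0 1 1 0 1 ∈ N := fun x y =>
        N.add_mem (N.smul_mem _ hC) (N.smul_mem _ hC2)
      have hY1 : bQ 0 1 1 1 1 0 = (z 0 + z 1) * (z 2 + z 3) := by
        unfold bQ
        simp only [zero_smul, one_smul]
        ring
      have hY2 : bQ 1 0 1 1 0 1 = (z 0 + z 2) * (z 1 + z 3) := by
        unfold bQ
        simp only [zero_smul, one_smul]
        ring
      have hmemY : ∀ x y : ZMod 2, x • bQ 0 1 1 1 1 0 + y • bQ 1 0 1 1 0 1 ∈ Y4 := fun x y => by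
        rw [hY1, hY2]
        exact Y4.add_mem (Y4.smul_mem _ (Submodule.subset_span (by simp)))
          (Y4.smul_mem _ (Submodule.subset_span (by simp)))
      have nu := nf a b c d e f u1 u2
      have nw := nf a' b' c' d' e' f' v1 v2
      have nF := nf g1 g2 g3 g4 g5 g6 f1 f2
      have mu := hmem e (c + e)
      have mw := hmem e' (c' + e')
      rw [← nu] at mu
      rw [← nw] at mw
      generalize f + c + e = x at mu
      generalize b + e = y at mu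
      generalize f' + c' + e' = x' at mw
      generalize b' + e' = y' at mw
      have mF : (g6 + g3 + g5) • bQ 1 0 0 0 0 1 + (g2 + g5) • bQ 1 1 0 1 0 0 ∈ N := by
        have h1 := N.sub_mem hF (hmem g5 (g3 + g5))
        rw [← nF, sub_sub_cancel] at h1
        exact h1
      have mY : ¬ (g6 + g3 + g5 = 0 ∧ g2 + g5 = 0) := by
        rintro ⟨h1, h2⟩
        rw [h1, h2, zero_smul, zero_smul, add_zero, sub_zero] at nF
        apply hY
        rw [nF]
        exact hmemY _ _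
      generalize g6 + g3 + g5 = X at mF mY
      generalize g2 + g5 = Y at mF mY
      have hXY0 : ∀ X Y : ZMod 2, ¬ (X = 0 ∧ Y = 0) →
          (X = 1 ∧ Y = 0) ∨ (X = 0 ∧ Y = 1) ∨ (X = 1 ∧ Y = 1) := by decide
      rcases hXY0 X Y mY with ⟨hX, hY'⟩ | ⟨hX, hY'⟩ | ⟨hX, hY'⟩
      · rw [hX, hY', one_smul, zero_smul, add_zero] at mF
        refine hl.rank1 (x := y) (y := y') (E := bQ 1 1 0 1 0 0) ?_ ?_
        · have h1 := N.add_mem mu (N.smul_mem x mF)
          rwa [sub_add_eq_sub_sub_swap, sub_add_cancel] at h1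
        · have h1 := N.add_mem mw (N.smul_mem x' mF)
          rwa [sub_add_eq_sub_sub_swap, sub_add_cancel] at h1
      · rw [hX, hY', one_smul, zero_smul, zero_add] at mF
        refine hl.rank1 (x := x) (y := x') (E := bQ 1 0 0 0 0 1) ?_ ?_
        · have h1 := N.add_mem mu (N.smul_mem y mF)
          rwa [sub_add_eq_sub_sub, sub_add_cancel] at h1
        · have h1 := N.add_mem mw (N.smul_mem y' mF)
          rwa [sub_add_eq_sub_sub, sub_add_cancel] at h1
      · rw [hX, hY', one_smul, one_smul] at mF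
        refine hl.rank1 (x := x - y) (y := x' - y') (E := bQ 1 0 0 0 0 1) ?_ ?_
        · have h1 := N.add_mem mu (N.smul_mem y mF)
          have h2 : ∀ (G A B : Z 2) (x y : ZMod 2), G - (x • A + y • B) + y • (A + B) =
            G - (x - y) • A := by
            intro G A B x y
            module
          rwa [h2] at h1
        · have h1 := N.add_mem mw (N.smul_mem y' mF)
          have h2 : ∀ (G A B : Z 2) (x y : ZMod 2), G - (x • A + y • B) + y • (A + B) =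
            G - (x - y) • A := by
            intro G A B x y
            module
          rwa [h2] at h1
  · have hC2 : bQ 1 0 1 1 0 1 ∉ N := by
      intro h
      have h1 := h12 _ h
      rw [bQ_12] at h1
      exact hC h1
    have hC3 : bQ 1 1 0 0 1 1 ∉ N := by
      intro h
      have h1 := h01 _ h
      rw [bQ_01] at h1
      exact hC2 h1
    have g03 : bT 0 3 ∈ GA 2 4 := bT_GA (by norm_num) (by norm_num)
    -- the two double operators
    have t1 : ∀ a b c d e f : ZMod 2, ((bT 0 1).comp (bT 2 3)) (bQ a b c d e f) =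
        (b + c + d + e) • bQ 0 1 1 1 1 0 := by
      intro a b c d e f
      rw [LinearMap.comp_apply, bT_23, bT_01, bQ_smul]
      refine bQ_congr ?_ ?_ ?_ ?_ ?_ ?_ <;> ring
    have t2 : ∀ a b c d e f : ZMod 2, ((bT 1 2).comp (bT 0 3)) (bQ a b c d e f) =
        (a + b + e + f) • bQ 1 1 0 0 1 1 := by
      intro a b c d e f
      rw [LinearMap.comp_apply, bT_03, bT_12, bQ_smul]
      refine bQ_congr ?_ ?_ ?_ ?_ ?_ ?_ <;> ring
    have zz : ∀ {A B : Z 2}, A = B → A - B ∈ N := fun h => by rw [h, sub_self]; exact N.zero_mem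
    have s1 := hl.rankT (GA_comp g01 g23) (zz (t1 a b c d e f)) (zz (t1 a' b' c' d' e' f'))
    have s2 := hl.rankT (GA_comp g12 g03) (zz (t2 a b c d e f)) (zz (t2 a' b' c' d' e' f'))
    rw [t1, t1] at s1
    rw [t2, t2] at s2
    have u1 := b4_zero hC s1.1
    have v1 := b4_zero hC s1.2
    have u2 := b4_zero hC3 s2.1
    have v2 := b4_zero hC3 s2.2
    -- single operators
    have r1 : ∀ a b c d e f : ZMod 2, b + c + d + e = 0 → bT 0 1 (bQ a b c d e f) =
        (b + d) • bQ 0 1 1 1 1 0 := by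
      intro a b c d e f h
      rw [bT_01, bQ_smul]
      have e1 : ∀ b c d e : ZMod 2, b + c + d + e = 0 → c + e = b + d := by decide
      rw [e1 b c d e h]
      refine bQ_congr ?_ ?_ ?_ ?_ ?_ ?_ <;> ring
    have r2 : ∀ a b c d e f : ZMod 2, b + c + d + e = 0 → bT 2 3 (bQ a b c d e f) =
        (b + c) • bQ 0 1 1 1 1 0 := by
      intro a b c d e f h
      rw [bT_23, bQ_smul]
      have e1 : ∀ b c d e : ZMod 2, b + c + d + e = 0 → d + e = b + c := by decide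
      rw [e1 b c d e h]
      refine bQ_congr ?_ ?_ ?_ ?_ ?_ ?_ <;> ring
    have r3 : ∀ a b c d e f : ZMod 2, a + b + e + f = 0 → bT 1 2 (bQ a b c d e f) =
        (a + b) • bQ 1 1 0 0 1 1 := by
      intro a b c d e f h
      rw [bT_12, bQ_smul]
      have e1 : ∀ a b e f : ZMod 2, a + b + e + f = 0 → e + f = a + b := by decide
      rw [e1 a b e f h]
      refine bQ_congr ?_ ?_ ?_ ?_ ?_ ?_ <;> ring
    have q1 := hl.rankT g01 (zz (r1 a b c d e f u1)) (zz (r1 a' b' c' d' e' f' v1))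
    have q2 := hl.rankT g23 (zz (r2 a b c d e f u1)) (zz (r2 a' b' c' d' e' f' v1))
    have q3 := hl.rankT g12 (zz (r3 a b c d e f u2)) (zz (r3 a' b' c' d' e' f' v2))
    rw [r1 _ _ _ _ _ _ u1, r1 _ _ _ _ _ _ v1] at q1
    rw [r2 _ _ _ _ _ _ u1, r2 _ _ _ _ _ _ v1] at q2
    rw [r3 _ _ _ _ _ _ u2, r3 _ _ _ _ _ _ v2] at q3
    have fin : ∀ a b c d e f : ZMod 2, b + c + d + e = 0 → a + b + e + f = 0 → b + d = 0 →
        b + c = 0 → a + b = 0 → bQ a b c d e f = a • bQ 1 1 1 1 1 1 := by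
      intro a b c d e f h1 h2 h3 h4 h5
      rw [bQ_smul]
      have e1 : ∀ a b c d e f : ZMod 2, b + c + d + e = 0 → a + b + e + f = 0 → b + d = 0 →
        b + c = 0 → a + b = 0 → b = a ∧ c = a ∧ d = a ∧ e = a ∧ f = a := by decide
      obtain ⟨k1, k2, k3, k4, k5⟩ := e1 a b c d e f h1 h2 h3 h4 h5
      rw [k1, k2, k3, k4, k5, mul_one]
    exact hl.rank1
      (zz (fin a b c d e f u1 u2 (b4_zero hC q1.1) (b4_zero hC q2.1) (b4_zero hC3 q3.1)))
      (zz (fin a' b' c' d' e' f' v1 v2 (b4_zero hC q1.2) (b4_zero hC q2.2) (b4_zero hC3 q3.2)))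

/-- the part without squares -/
private noncomputable def bE (c : ℕ → ℕ → ZMod 2) : Z 2 := bQ (c 0 1) (c 0 2) (c 0 3) (c 1 2) (c 1 3) (c 2 3)

private theorem bE_E42 {d : ℕ → ZMod 2} {c : ℕ → ℕ → ZMod 2} (h0 : d 0 = 0) (h1 : d 1 = 0) (h2 : d 2 = 0)
    (h3 : d 3 = 0) : E42 d c = bE c := by
  unfold E42 bE bQ
  rw [h0, h1, h2, h3, zero_smul, zero_smul, zero_smul, zero_smul, add_zero, add_zero, add_zero, zero_add]

/-- if `z_i + z_4` is in `R 5 1` then all monomials of degree 2 are congruent -/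
private theorem b4_A (h : MS2 R) {i : ℕ} (hi : i < 4) (h0 : z i + z 4 ∈ R 5 1) (d : ℕ → ZMod 2)
    (c : ℕ → ℕ → ZMod 2) : ∃ x : ZMod 2, E42 d c - x • (bQ 1 0 0 0 0 0) ∈ R 4 2 := by
  have hm : MS 2 R := h.toMS
  have hN5 : Stb 2 5 (R 5 1) := hm.GAs (by norm_num)
  have hN : Stb 2 4 (R 4 2) := hm.GAs (by norm_num)
  have h1 : (z 0 + z 4 : Z 2) ∈ R 5 1 := by
    have h2 := hN5 _ (GA_rn (Equiv.swap 0 i) (b4_sw (by norm_num) (by omega))) _ h0
    have h3 : (rn (Equiv.swap 0 i : Equiv.Perm ℕ) : Z 2 →ₐ[ZMod 2] Z 2).toLinearMap (z i + z 4) =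
        z 0 + z 4 := by
      show rn (Equiv.swap 0 i : Equiv.Perm ℕ) (z i + z 4 : Z 2) = z 0 + z 4
      rw [map_add, rn_z, rn_z, Equiv.swap_apply_right, Equiv.swap_apply_of_ne_of_ne (by norm_num) (by omega)]
    rwa [h3] at h2
  have h2 : (z 0 + z 1 : Z 2) ∈ R 5 1 := by
    have h2 := hN5 _ (GA_rn (Equiv.swap 1 4) (b4_sw (by norm_num) (by norm_num))) _ h1
    have h3 : (rn (Equiv.swap 1 4 : Equiv.Perm ℕ) : Z 2 →ₐ[ZMod 2] Z 2).toLinearMap (z 0 + z 4) =
        z 0 + z 1 := by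
      show rn (Equiv.swap 1 4 : Equiv.Perm ℕ) (z 0 + z 4 : Z 2) = z 0 + z 1
      rw [map_add, rn_z, rn_z, Equiv.swap_apply_right, Equiv.swap_apply_of_ne_of_ne (by norm_num) (by norm_num)]
    rwa [h3] at h2
  have h3 : ∀ i < 4, (z i * (z 0 + z 1) : Z 2) ∈ R 4 2 := by
    intro i hi
    have h4 := hm.idtS (le_refl 2) (n := 4) (k := 1) hi h2
    rw [map_add, rn_z, rn_z, if_pos (by norm_num), if_pos (by norm_num)] at h4
    exact h4
  have hP : bQ 0 1 0 1 0 0 ∈ R 4 2 := by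
    have h4 := h3 2 (by norm_num)
    have h5 : (z 2 * (z 0 + z 1) : Z 2) = bQ 0 1 0 1 0 0 := by
      unfold bQ
      simp only [zero_smul, one_smul]
      ring
    rwa [h5] at h4
  have hsq : ∀ j < 4, j ≠ 1 → (z j * (z j + z 1) : Z 2) ∈ R 4 2 := by
    intro j hj hj1
    have h4 := hN _ (GA_rn (Equiv.swap 0 j) (b4_sw (by norm_num) (by omega))) _ (h3 0 (by norm_num))
    have h5 : (rn (Equiv.swap 0 j : Equiv.Perm ℕ) : Z 2 →ₐ[ZMod 2] Z 2).toLinearMap (z 0 * (z 0 + z 1)) =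
        z j * (z j + z 1) := by
      show rn (Equiv.swap 0 j : Equiv.Perm ℕ) (z 0 * (z 0 + z 1) : Z 2) = _
      rw [map_mul, map_add, rn_z, rn_z, Equiv.swap_apply_left, Equiv.swap_apply_of_ne_of_ne (by norm_num) (by omega)]
    rwa [h5] at h4
  have hsum := (R 4 2).add_mem ((R 4 2).add_mem ((R 4 2).add_mem ((R 4 2).smul_mem (d 0) (h3 0 (by norm_num)))
    ((R 4 2).smul_mem (d 1) (h3 1 (by norm_num)))) ((R 4 2).smul_mem (d 2) (hsq 2 (by norm_num) (by norm_num))))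
    ((R 4 2).smul_mem (d 3) (hsq 3 (by norm_num) (by norm_num)))
  have hb := b4_P hN hP (c 0 1 + d 0 + d 1) (c 0 2) (c 0 3) (c 1 2 + d 2) (c 1 3 + d 3) (c 2 3)
  refine ⟨c 0 1 + d 0 + d 1 + c 0 2 + c 0 3 + (c 1 2 + d 2) + (c 1 3 + d 3) + c 2 3, ?_⟩
  have h6 := (R 4 2).add_mem hsum hb
  have h7 : d 0 • (z 0 * (z 0 + z 1)) + d 1 • (z 1 * (z 0 + z 1)) + d 2 • (z 2 * (z 2 + z 1)) +
      d 3 • (z 3 * (z 3 + z 1)) + (bQ (c 0 1 + d 0 + d 1) (c 0 2) (c 0 3) (c 1 2 + d 2) (c 1 3 + d 3) (c 2 3) -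
      (c 0 1 + d 0 + d 1 + c 0 2 + c 0 3 + (c 1 2 + d 2) + (c 1 3 + d 3) + c 2 3) • bQ 1 0 0 0 0 0) =
      E42 d c - (c 0 1 + d 0 + d 1 + c 0 2 + c 0 3 + (c 1 2 + d 2) + (c 1 3 + d 3) + c 2 3) • bQ 1 0 0 0 0 0 := by
    rw [add_sub, sub_left_inj]
    have h8 : (2 : Z 2) = 0 := CharTwo.two_eq_zero
    unfold E42 bQ
    simp only [MvPolynomial.smul_eq_C_mul, map_add]
    linear_combination (MvPolynomial.C (d 0) * (z 0 * z 1) + MvPolynomial.C (d 1) * (z 0 * z 1) +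
      MvPolynomial.C (d 2) * (z 1 * z 2) + MvPolynomial.C (d 3) * (z 1 * z 3)) * h8
  rw [h7] at h6
  exact h6

private theorem b4_split {d : ℕ → ZMod 2} {c : ℕ → ℕ → ZMod 2} {G : Z 2} (hG : G = E42 d c)
    (hx : ∀ i < 4, xx i 4 G ∈ R 5 1) : (∃ i < 4, (z i + z 4 : Z 2) ∈ R 5 1) ∨ G = bE c := by
  have hx0 : ∀ x : ZMod 2, x = 0 ∨ x = 1 := by decide
  obtain ⟨e0, e1, e2, e3⟩ := xx_E42 d c
  have f0 := hx 0 (by norm_num)
  have f1 := hx 1 (by norm_num)
  have f2 := hx 2 (by norm_num)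
  have f3 := hx 3 (by norm_num)
  rw [hG, e0] at f0
  rw [hG, e1] at f1
  rw [hG, e2] at f2
  rw [hG, e3] at f3
  rcases hx0 (d 0) with h0 | h0
  · rcases hx0 (d 1) with h1 | h1
    · rcases hx0 (d 2) with h2 | h2
      · rcases hx0 (d 3) with h3 | h3
        · right
          rw [hG, bE_E42 h0 h1 h2 h3]
        · rw [h3, one_smul] at f3
          exact Or.inl ⟨3, by norm_num, f3⟩
      · rw [h2, one_smul] at f2
        exact Or.inl ⟨2, by norm_num, f2⟩
    · rw [h1, one_smul] at f1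
      exact Or.inl ⟨1, by norm_num, f1⟩
  · rw [h0, one_smul] at f0
    exact Or.inl ⟨0, by norm_num, f0⟩

theorem noB4 (h : MS2 R) {F : Z 2} (hF : F ∈ R 4 2) (hY : F ∉ Y4) {k l : ℕ} {u w : Z 2}
    (hl : LP 2 R (Soc2 R) 4 k l u w) : False := by
  have hm : MS 2 R := h.toMS
  have hk0 : k ≠ 0 := by
    rintro rfl
    exact noLP_0 hm (hl.mono (fun n k y hy => hy.toSocB))
  have hk1 : k ≠ 1 := by
    rintro rfl
    exact noLP_1 hm (hl.mono (fun n k y hy => hy.toSocB))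
  have hK := (b53 h (b51 h hF hY)).1 4 le_rfl
  have hl2 : l ≤ 2 := by
    by_contra hc
    exact hl.nw (hm.Kup (le_refl 2) (by norm_num) hK (by omega) hl.sw.hy)
  have hkl := hl.kl
  obtain rfl : k = 2 := by omega
  obtain rfl : l = 2 := by omega
  obtain ⟨d, c, hu⟩ := exp42 hl.su.hy
  obtain ⟨d', c', hw⟩ := exp42 hl.sw.hy
  obtain ⟨d'', c'', hFe⟩ := exp42 (hm.le 4 2 (by norm_num) hF)
  have hA : ¬ ∃ i < 4, (z i + z 4 : Z 2) ∈ R 5 1 := by
    rintro ⟨i, hi, h0⟩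
    obtain ⟨x, hx⟩ := b4_A h hi h0 d c
    obtain ⟨y, hy⟩ := b4_A h hi h0 d' c'
    rw [← hu] at hx
    rw [← hw] at hy
    exact hl.rank1 hx hy
  have hu' : u = bE c := (b4_split hu (fun i hi => hl.su.xx (by norm_num) i hi)).resolve_left hA
  have hw' : w = bE c' := (b4_split hw (fun i hi => hl.sw.xx (by norm_num) i hi)).resolve_left hA
  have hF' : F = bE c'' := (b4_split hFe (fun i hi => h.xx 4 1 i hi F hF)).resolve_left hA
  have hlk := hl.Lkd
  rw [hu', hw'] at hlk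
  rw [hF'] at hF hY
  apply hl.nu
  rw [hu']
  exact b4_core (hm.GAs (by norm_num)) hlk hF hY

end ADQ
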