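import Pool.Agent.ADQ.Exp2
import Pool.Agent.ADQ.Tool2b
import Pool.Agent.ADQ.Tool2c

/-!
# ADQ-B51

`b51`: `F = E42 d c` (`exp42`).  (i) some `d_i ≠ 0`: `xx i 4 F = d_i (z_i + z_4) ∈ R 5 1`, so (`ren`) `z_a + z_b ∈ R m 1` for `m ≥ 5`; `zer`: `z_0 ∈ R 6 1` (`ev 1 (z_0 + z_1)`), `K1` (`n = 5`): `Hh 2 5 2 ≤ R 5 2`.  (ii) all `d_i = 0`: in `R 5 2`: `F - ev i F = z_i ∑_j c_ij z_j`
(`up`, `zer`); subtract the image under `(j 4)`: `c_ij z_i (z_j + z_4) ∈ R 5 2`.  `F ≠ 0`, so some `c_ij ≠ 0`: all `z_a z_b`, `a ≠ b < 5`, are congruent modulo `R 5 2`, and `(∑_{j≠i} c_ij) z_0 z_1 ∈ R 5 2` for every `i`.  If this sum is not 0 for some `i < 4` we are done.  Otherwise `c` is an even graph on 4 vertices: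
`0`, a triangle, or a 4-cycle; the 4-cycles and `0` are in `Y4` (`c_01 = c_23`, `c_02 = c_13`, `c_03 = c_12`, sum 0: `F = c_02' ...`); for a triangle, e.g. `F = z_0 z_1 + z_0 z_2 + z_1 z_2`, `ev 0 F = z_1 z_2 ∈ R 5 2`.  (`decide`-style case distinction on the six coefficients in `ZMod 2` is fine.)
`b52`: `p = 2`, `n ≥ 1`, `z_0 z_1 ∈ R (n+1) 2`: `z_i^3 = z_i * (image of z_i z_n)`, `z_i^2 z_j = z_i * (image of z_i z_j)`, `z_i z_j z_k = z_i * (image of z_j z_k)` (`idtS`, `n + (2-1) = n + 1`).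
`b53`: `b51`, `up`, `b52` for `n ≥ 4`; `K0`, `Kup`.
-/

namespace ADQ

open AD ADN ADC

variable {R : ℕ → ℕ → Submodule (ZMod 2) (Z 2)}

private theorem b5_dec {m : ℕ →₀ ℕ} {k : ℕ} (h : m.degree = k + 1) :
    ∃ (i : ℕ) (m' : ℕ →₀ ℕ), m = Finsupp.single i 1 + m' ∧ m'.degree = k := by
  have h0 : m ≠ 0 := by
    rintro rfl
    rw [map_zero] at h
    omega
  obtain ⟨i, hi⟩ := Finsupp.ne_iff.1 h0
  rw [Finsupp.zero_apply] at hi
  have h1 : Finsupp.single i 1 ≤ m := by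
    rw [Finsupp.single_le_iff]
    omega
  refine ⟨i, m - Finsupp.single i 1, (add_tsub_cancel_of_le h1).symm, ?_⟩
  have h2 : (Finsupp.single i 1 + (m - Finsupp.single i 1)).degree = k + 1 := by
    rw [add_tsub_cancel_of_le h1]
    exact h
  rw [map_add, Finsupp.degree_single] at h2
  omega

private theorem b5_zero {m : ℕ →₀ ℕ} (h : m.degree = 0) : m = 0 := (Finsupp.degree_eq_zero_iff m).1 h

private theorem b5_mo1 (i : ℕ) : (mo (Finsupp.single i 1) : Z 2) = z i := by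
  rw [mo_single, pow_one]

private theorem b5_swap {M a b : ℕ} (ha : a < M) (hb : b < M) {t : ℕ} (ht : t < M) : Equiv.swap a b t < M := by
  rw [Equiv.swap_apply_def]
  split_ifs
  · exact hb
  · exact ha
  · exact ht

/-- a permutation of the first `M` numbers with one prescribed value -/
private theorem b5_perm1 {M x a : ℕ} (hx : x < M) (ha : a < M) :
    ∃ σ : Equiv.Perm ℕ, (∀ t < M, σ t < M) ∧ σ x = a :=
  ⟨Equiv.swap x a, fun _ ht => b5_swap hx ha ht, Equiv.swap_apply_left x a⟩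

private theorem b5_perm2 {M x y a b : ℕ} (hx : x < M) (hy : y < M) (ha : a < M) (hb : b < M) (hxy : x ≠ y)
    (hab : a ≠ b) : ∃ σ : Equiv.Perm ℕ, (∀ t < M, σ t < M) ∧ σ x = a ∧ σ y = b := by
  obtain ⟨σ, h1, h2⟩ := b5_perm1 hx ha
  refine ⟨Equiv.swap (σ y) b * σ, ?_, ?_, ?_⟩
  · intro t ht
    rw [Equiv.Perm.mul_apply]
    exact b5_swap (h1 y hy) hb (h1 t ht)
  · rw [Equiv.Perm.mul_apply, h2]
    refine Equiv.swap_apply_of_ne_of_ne ?_ hab
    rw [← h2]
    exact fun h => hxy (σ.injective h)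
  · rw [Equiv.Perm.mul_apply, Equiv.swap_apply_left]

private theorem b5_perm3 {M x y w a b c : ℕ} (hx : x < M) (hy : y < M) (hw : w < M) (ha : a < M) (hb : b < M)
    (hc : c < M) (hxy : x ≠ y) (hxw : x ≠ w) (hyw : y ≠ w) (hab : a ≠ b) (hac : a ≠ c) (hbc : b ≠ c) :
    ∃ σ : Equiv.Perm ℕ, (∀ t < M, σ t < M) ∧ σ x = a ∧ σ y = b ∧ σ w = c := by
  obtain ⟨σ, h1, h2, h3⟩ := b5_perm2 hx hy ha hb hxy hab
  refine ⟨Equiv.swap (σ w) c * σ, ?_, ?_, ?_, ?_⟩
  · intro t ht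
    rw [Equiv.Perm.mul_apply]
    exact b5_swap (h1 w hw) hc (h1 t ht)
  · rw [Equiv.Perm.mul_apply, h2]
    refine Equiv.swap_apply_of_ne_of_ne ?_ hac
    rw [← h2]
    exact fun h => hxw (σ.injective h)
  · rw [Equiv.Perm.mul_apply, h3]
    refine Equiv.swap_apply_of_ne_of_ne ?_ hbc
    rw [← h3]
    exact fun h => hyw (σ.injective h)
  · rw [Equiv.Perm.mul_apply, Equiv.swap_apply_left]

private theorem b5_rnm {n k : ℕ} (h : MS 2 R) (hn : 1 ≤ n) (σ : Equiv.Perm ℕ) (hσ : ∀ t < n, σ t < n) {F : Z 2}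
    (hF : F ∈ R n k) : rn σ F ∈ R n k :=
  h.ren n n k σ hn hσ (fun _ _ _ _ e => σ.injective e) F hF

private theorem b5_one (x : ZMod 2) (hx : x ≠ 0) : x = 1 := by
  revert x
  decide

private theorem b5_smul {N : Submodule (ZMod 2) (Z 2)} {x : ZMod 2} (hx : x ≠ 0) {G : Z 2} (h : x • G ∈ N) : G ∈ N := by
  rw [b5_one x hx, one_smul] at h
  exact h

private theorem b5_smul0 {N : Submodule (ZMod 2) (Z 2)} {x : ZMod 2} {G : Z 2} (h : x • G ∈ N) (hG : G ∉ N) : x = 0 := by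
  by_contra hx
  exact hG (b5_smul hx h)

/-- a linear element -/
private theorem b5_lin (h : MS2 R) {i : ℕ} (hi : i < 4) (h1 : z i + z 4 ∈ R 5 1) : z 0 * z 1 ∈ R 5 2 := by
  obtain ⟨σ, hσ, e1, e2⟩ := b5_perm2 (M := 5) (x := i) (y := 4) (a := 0) (b := 1) (by omega) (by omega) (by omega)
    (by omega) (by omega) (by omega)
  have h2 := b5_rnm h.toMS (by norm_num) σ hσ h1
  rw [map_add, rn_z, rn_z, e1, e2] at h2
  have h3 := h.zer 5 1 1 (by norm_num) _ h2
  rw [map_add, ev_z, ev_z, if_neg (by norm_num), if_pos rfl, add_zero] at h3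
  have h4 := h.K1 (n := 5) le_rfl (by norm_num) h3
  have h5 : (z 0 * z 1 : Z 2) ∈ Hh 2 5 (1 + 1) := Hh_mul (z_Hh (by norm_num)) (z_Hh (by norm_num))
  exact h4 h5

/-- all products of two different variables are congruent -/
private theorem b5_diff (h : MS2 R) {i j : ℕ} (hi : i < 4) (hj : j < 4) (hij : i ≠ j)
    (h1 : z i * z j - z i * z 4 ∈ R 5 2) :
    ∀ a b : ℕ, a < 5 → b < 5 → a ≠ b → z a * z b - z 0 * z 1 ∈ R 5 2 := by
  have hd : ∀ a b c : ℕ, a < 5 → b < 5 → c < 5 → a ≠ b → a ≠ c → b ≠ c → z a * z b - z a * z c ∈ R 5 2 := by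
    intro a b c ha hb hc hab hac hbc
    obtain ⟨σ, hσ, e1, e2, e3⟩ := b5_perm3 (M := 5) (x := i) (y := j) (w := 4) (a := a) (b := b) (c := c)
      (by omega) (by omega) (by omega) ha hb hc hij (by omega) (by omega) hab hac hbc
    have h2 := b5_rnm h.toMS (by norm_num) σ hσ h1
    rw [map_sub, map_mul, map_mul, rn_z, rn_z, rn_z, e1, e2, e3] at h2
    exact h2
  have h0 : ∀ b : ℕ, b < 5 → 0 ≠ b → z 0 * z b - z 0 * z 1 ∈ R 5 2 := by
    intro b hb h0b
    by_cases hb1 : b = 1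
    · subst hb1
      rw [sub_self]
      exact Submodule.zero_mem _
    · exact hd 0 b 1 (by norm_num) hb (by norm_num) h0b (by norm_num) hb1
  intro a b ha hb hab
  by_cases ha0 : a = 0
  · subst ha0
    exact h0 b hb hab
  · by_cases hb0 : b = 0
    · subst hb0
      rw [mul_comm (z a) (z 0)]
      exact h0 a ha (Ne.symm ha0)
    · have h2 := hd a b 0 ha hb (by norm_num) hab ha0 hb0
      have h3 := h0 a ha (Ne.symm ha0)
      have e : (z a * z b - z 0 * z 1 : Z 2) = (z a * z b - z a * z 0) + (z 0 * z a - z 0 * z 1) := by ring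
      rw [e]
      exact Submodule.add_mem _ h2 h3

/-- the general element without squares -/
private noncomputable def Q (x : Fin 6 → ZMod 2) : Z 2 :=
  x 0 • (z 0 * z 1) + x 1 • (z 0 * z 2) + x 2 • (z 0 * z 3) +
  x 3 • (z 1 * z 2) + x 4 • (z 1 * z 3) + x 5 • (z 2 * z 3)

private theorem b5_ev (x : Fin 6 → ZMod 2) :
    ev 0 (Q x) = x 3 • (z 1 * z 2) + x 4 • (z 1 * z 3) + x 5 • (z 2 * z 3) ∧
    ev 1 (Q x) = x 1 • (z 0 * z 2) + x 2 • (z 0 * z 3) + x 5 • (z 2 * z 3) ∧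
    ev 2 (Q x) = x 0 • (z 0 * z 1) + x 2 • (z 0 * z 3) + x 4 • (z 1 * z 3) ∧
    ev 3 (Q x) = x 0 • (z 0 * z 1) + x 1 • (z 0 * z 2) + x 3 • (z 1 * z 2) := by
  unfold Q
  refine ⟨?_, ?_, ?_, ?_⟩
  all_goals
    simp only [map_add, map_smul, map_mul, ev_z]
    norm_num

private theorem b5_rn (σ : Equiv.Perm ℕ) (x : Fin 6 → ZMod 2) : rn σ (Q x) =
    x 0 • (z (σ 0) * z (σ 1)) + x 1 • (z (σ 0) * z (σ 2)) + x 2 • (z (σ 0) * z (σ 3)) +
    x 3 • (z (σ 1) * z (σ 2)) + x 4 • (z (σ 1) * z (σ 3)) + x 5 • (z (σ 2) * z (σ 3)) := by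
  unfold Q
  simp only [map_add, map_smul, map_mul, rn_z]

private theorem b5_G (h : MS2 R) {i a b c : ℕ} (hi : i < 4) (ha : a < 4) (hb : b < 4) (hc : c < 4) (hia : i ≠ a)
    (hab : a ≠ b) (hac : a ≠ c) {α β γ : ZMod 2}
    (hG : α • (z i * z a) + β • (z i * z b) + γ • (z i * z c) ∈ R 5 2) (hα : α ≠ 0) :
    ∀ x y : ℕ, x < 5 → y < 5 → x ≠ y → z x * z y - z 0 * z 1 ∈ R 5 2 := by
  have h1 := b5_rnm h.toMS (by norm_num) (Equiv.swap a 4) (fun t ht => b5_swap (by omega) (by omega) ht) hG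
  have e1 : Equiv.swap a 4 i = i := Equiv.swap_apply_of_ne_of_ne hia (by omega)
  have e2 : Equiv.swap a 4 a = 4 := Equiv.swap_apply_left a 4
  have e3 : Equiv.swap a 4 b = b := Equiv.swap_apply_of_ne_of_ne (Ne.symm hab) (by omega)
  have e4 : Equiv.swap a 4 c = c := Equiv.swap_apply_of_ne_of_ne (Ne.symm hac) (by omega)
  simp only [map_add, map_smul, map_mul, rn_z, e1, e2, e3, e4] at h1
  have h2 := Submodule.sub_mem _ hG h1
  have e5 : α • (z i * z a) + β • (z i * z b) + γ • (z i * z c) -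
      (α • (z i * z 4) + β • (z i * z b) + γ • (z i * z c)) = α • (z i * z a - z i * z 4 : Z 2) := by
    rw [smul_sub]
    abel
  rw [e5] at h2
  exact b5_diff h hi ha hia (b5_smul hα h2)

private theorem b5_sum (hall : ∀ x y : ℕ, x < 5 → y < 5 → x ≠ y → z x * z y - z 0 * z 1 ∈ R 5 2)
    {i a b c : ℕ} (hi : i < 4) (ha : a < 4) (hb : b < 4) (hc : c < 4) (hia : i ≠ a) (hib : i ≠ b) (hic : i ≠ c)
    {α β γ : ZMod 2} (hG : α • (z i * z a) + β • (z i * z b) + γ • (z i * z c) ∈ R 5 2) :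
    (α + β + γ) • (z 0 * z 1) ∈ R 5 2 := by
  have h1 := Submodule.smul_mem _ α (hall i a (by omega) (by omega) hia)
  have h2 := Submodule.smul_mem _ β (hall i b (by omega) (by omega) hib)
  have h3 := Submodule.smul_mem _ γ (hall i c (by omega) (by omega) hic)
  have h4 := Submodule.sub_mem _ hG (Submodule.add_mem _ (Submodule.add_mem _ h1 h2) h3)
  have e : (α + β + γ) • (z 0 * z 1 : Z 2) = α • (z i * z a) + β • (z i * z b) + γ • (z i * z c) -
      (α • (z i * z a - z 0 * z 1) + β • (z i * z b - z 0 * z 1) + γ • (z i * z c - z 0 * z 1)) := by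
    rw [add_smul, add_smul, smul_sub, smul_sub, smul_sub]
    abel
  rw [e]
  exact h4

private theorem b5_Y4 (a b : ZMod 2) :
    a • (z 0 * z 1) + b • (z 0 * z 2) + (a + b) • (z 0 * z 3) + (a + b) • (z 1 * z 2) + b • (z 1 * z 3) +
      a • (z 2 * z 3) ∈ Y4 := by
  have h1 : ((z 0 + z 1) * (z 2 + z 3) : Z 2) ∈ Y4 := Submodule.subset_span (Set.mem_insert _ _)
  have h2 : ((z 0 + z 2) * (z 1 + z 3) : Z 2) ∈ Y4 :=
    Submodule.subset_span (Set.mem_insert_of_mem _ (Set.mem_singleton _))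
  have e : a • (z 0 * z 1) + b • (z 0 * z 2) + (a + b) • (z 0 * z 3) + (a + b) • (z 1 * z 2) + b • (z 1 * z 3) +
      a • (z 2 * z 3) = b • ((z 0 + z 1) * (z 2 + z 3)) + a • ((z 0 + z 2) * (z 1 + z 3) : Z 2) := by
    simp only [MvPolynomial.smul_eq_C_mul, map_add]
    ring
  rw [e]
  exact Submodule.add_mem _ (Submodule.smul_mem _ _ h1) (Submodule.smul_mem _ _ h2)

private theorem b5_F2 : ∀ x0 x1 x2 x3 x4 x5 : ZMod 2, x0 + x1 + x2 = 0 → x0 + x3 + x4 = 0 → x1 + x3 + x5 = 0 →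
    x2 + x4 + x5 = 0 → x0 + x1 + x2 + x3 + x4 + x5 = 0 → x5 = x0 ∧ x4 = x1 ∧ x3 = x0 + x1 ∧ x2 = x0 + x1 := by
  decide

private theorem b5_main (h : MS2 R) (x : Fin 6 → ZMod 2) (hF : Q x ∈ R 4 2) (hY : Q x ∉ Y4) : z 0 * z 1 ∈ R 5 2 := by
  by_contra hz
  obtain ⟨v0, v1, v2, v3⟩ := b5_ev x
  have hF5 : Q x ∈ R 5 2 := h.up (by norm_num) (by norm_num) hF
  have g0 := Submodule.sub_mem _ hF5 (h.zer 4 2 0 (by norm_num) _ hF)
  have g1 := Submodule.sub_mem _ hF5 (h.zer 4 2 1 (by norm_num) _ hF)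
  have g2 := Submodule.sub_mem _ hF5 (h.zer 4 2 2 (by norm_num) _ hF)
  have g3 := Submodule.sub_mem _ hF5 (h.zer 4 2 3 (by norm_num) _ hF)
  rw [v0] at g0
  rw [v1] at g1
  rw [v2] at g2
  rw [v3] at g3
  have e0 : Q x - (x 3 • (z 1 * z 2) + x 4 • (z 1 * z 3) + x 5 • (z 2 * z 3)) =
      x 0 • (z 0 * z 1) + x 1 • (z 0 * z 2) + x 2 • (z 0 * z 3) := by
    unfold Q
    abel
  have e1 : Q x - (x 1 • (z 0 * z 2) + x 2 • (z 0 * z 3) + x 5 • (z 2 * z 3)) =
      x 0 • (z 1 * z 0) + x 3 • (z 1 * z 2) + x 4 • (z 1 * z 3) := by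
    unfold Q
    rw [mul_comm (z 1) (z 0)]
    abel
  have e2 : Q x - (x 0 • (z 0 * z 1) + x 2 • (z 0 * z 3) + x 4 • (z 1 * z 3)) =
      x 1 • (z 2 * z 0) + x 3 • (z 2 * z 1) + x 5 • (z 2 * z 3) := by
    unfold Q
    rw [mul_comm (z 2) (z 0), mul_comm (z 2) (z 1)]
    abel
  have e3 : Q x - (x 0 • (z 0 * z 1) + x 1 • (z 0 * z 2) + x 3 • (z 1 * z 2)) =
      x 2 • (z 3 * z 0) + x 4 • (z 3 * z 1) + x 5 • (z 3 * z 2) := by
    unfold Q
    rw [mul_comm (z 3) (z 0), mul_comm (z 3) (z 1), mul_comm (z 3) (z 2)]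
    abel
  rw [e0] at g0
  rw [e1] at g1
  rw [e2] at g2
  rw [e3] at g3
  have hne : x 0 ≠ 0 ∨ x 1 ≠ 0 ∨ x 2 ≠ 0 ∨ x 3 ≠ 0 ∨ x 4 ≠ 0 ∨ x 5 ≠ 0 := by
    by_contra hcon
    push Not at hcon
    obtain ⟨c0, c1, c2, c3, c4, c5⟩ := hcon
    apply hY
    unfold Q
    rw [c0, c1, c2, c3, c4, c5]
    simp only [zero_smul, add_zero]
    exact Submodule.zero_mem _
  have hall : ∀ x y : ℕ, x < 5 → y < 5 → x ≠ y → z x * z y - z 0 * z 1 ∈ R 5 2 := by
    rcases hne with c | c | c | c | c | c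
    · exact b5_G h (i := 0) (a := 1) (b := 2) (c := 3) (by norm_num) (by norm_num) (by norm_num) (by norm_num)
        (by norm_num) (by norm_num) (by norm_num) g0 c
    · refine b5_G h (i := 0) (a := 2) (b := 1) (c := 3) (by norm_num) (by norm_num) (by norm_num) (by norm_num)
        (by norm_num) (by norm_num) (by norm_num) (β := x 0) (γ := x 2) ?_ c
      rw [add_comm (x 1 • (z 0 * z 2 : Z 2)) (x 0 • (z 0 * z 1))]
      exact g0
    · refine b5_G h (i := 0) (a := 3) (b := 1) (c := 2) (by norm_num) (by norm_num) (by norm_num) (by norm_num)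
        (by norm_num) (by norm_num) (by norm_num) (β := x 0) (γ := x 1) ?_ c
      rw [add_assoc, add_comm (x 2 • (z 0 * z 3 : Z 2))]
      exact g0
    · refine b5_G h (i := 1) (a := 2) (b := 0) (c := 3) (by norm_num) (by norm_num) (by norm_num) (by norm_num)
        (by norm_num) (by norm_num) (by norm_num) (β := x 0) (γ := x 4) ?_ c
      rw [add_comm (x 3 • (z 1 * z 2 : Z 2)) (x 0 • (z 1 * z 0))]
      exact g1
    · refine b5_G h (i := 1) (a := 3) (b := 0) (c := 2) (by norm_num) (by norm_num) (by norm_num) (by norm_num)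
        (by norm_num) (by norm_num) (by norm_num) (β := x 0) (γ := x 3) ?_ c
      rw [add_assoc, add_comm (x 4 • (z 1 * z 3 : Z 2))]
      exact g1
    · refine b5_G h (i := 2) (a := 3) (b := 0) (c := 1) (by norm_num) (by norm_num) (by norm_num) (by norm_num)
        (by norm_num) (by norm_num) (by norm_num) (β := x 1) (γ := x 3) ?_ c
      rw [add_assoc, add_comm (x 5 • (z 2 * z 3 : Z 2))]
      exact g2
  have s0 := b5_smul0 (b5_sum hall (i := 0) (a := 1) (b := 2) (c := 3) (by norm_num) (by norm_num) (by norm_num)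
    (by norm_num) (by norm_num) (by norm_num) (by norm_num) g0) hz
  have s1 := b5_smul0 (b5_sum hall (i := 1) (a := 0) (b := 2) (c := 3) (by norm_num) (by norm_num) (by norm_num)
    (by norm_num) (by norm_num) (by norm_num) (by norm_num) g1) hz
  have s2 := b5_smul0 (b5_sum hall (i := 2) (a := 0) (b := 1) (c := 3) (by norm_num) (by norm_num) (by norm_num)
    (by norm_num) (by norm_num) (by norm_num) (by norm_num) g2) hz
  have s3 := b5_smul0 (b5_sum hall (i := 3) (a := 0) (b := 1) (c := 2) (by norm_num) (by norm_num) (by norm_num)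
    (by norm_num) (by norm_num) (by norm_num) (by norm_num) g3) hz
  have s4 : x 0 + x 1 + x 2 + x 3 + x 4 + x 5 = 0 := by
    refine b5_smul0 ?_ hz
    have t0 := Submodule.smul_mem _ (x 0) (hall 0 1 (by norm_num) (by norm_num) (by norm_num))
    have t1 := Submodule.smul_mem _ (x 1) (hall 0 2 (by norm_num) (by norm_num) (by norm_num))
    have t2 := Submodule.smul_mem _ (x 2) (hall 0 3 (by norm_num) (by norm_num) (by norm_num))
    have t3 := Submodule.smul_mem _ (x 3) (hall 1 2 (by norm_num) (by norm_num) (by norm_num))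
    have t4 := Submodule.smul_mem _ (x 4) (hall 1 3 (by norm_num) (by norm_num) (by norm_num))
    have t5 := Submodule.smul_mem _ (x 5) (hall 2 3 (by norm_num) (by norm_num) (by norm_num))
    have t6 := Submodule.sub_mem _ hF5 (Submodule.add_mem _ (Submodule.add_mem _ (Submodule.add_mem _
      (Submodule.add_mem _ (Submodule.add_mem _ t0 t1) t2) t3) t4) t5)
    have e : (x 0 + x 1 + x 2 + x 3 + x 4 + x 5) • (z 0 * z 1 : Z 2) = Q x -
        (x 0 • (z 0 * z 1 - z 0 * z 1) + x 1 • (z 0 * z 2 - z 0 * z 1) + x 2 • (z 0 * z 3 - z 0 * z 1) +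
        x 3 • (z 1 * z 2 - z 0 * z 1) + x 4 • (z 1 * z 3 - z 0 * z 1) + x 5 • (z 2 * z 3 - z 0 * z 1)) := by
      unfold Q
      simp only [add_smul, smul_sub]
      abel
    rw [e]
    exact t6
  obtain ⟨q5, q4, q3, q2⟩ := b5_F2 _ _ _ _ _ _ s0 s1 s2 s3 s4
  apply hY
  unfold Q
  rw [q5, q4, q3, q2]
  exact b5_Y4 (x 0) (x 1)

theorem b51 (h : MS2 R) {F : Z 2} (hF : F ∈ R 4 2) (hY : F ∉ Y4) : z 0 * z 1 ∈ R 5 2 := by
  obtain ⟨d, c, e⟩ := exp42 (h.le 4 2 (by norm_num) hF)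
  subst e
  obtain ⟨x0, x1, x2, x3⟩ := xx_E42 d c
  by_cases d0 : d 0 = 0
  · by_cases d1 : d 1 = 0
    · by_cases d2 : d 2 = 0
      · by_cases d3 : d 3 = 0
        · have e : E42 d c = Q ![c 0 1, c 0 2, c 0 3, c 1 2, c 1 3, c 2 3] := by
            unfold E42 Q
            rw [d0, d1, d2, d3]
            simp only [zero_smul, zero_add]
            rfl
          rw [e] at hF hY
          exact b5_main h _ hF hY
        · have h1 := h.xx 4 1 3 (by norm_num) _ hF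
          rw [x3] at h1
          exact b5_lin h (by norm_num) (b5_smul d3 h1)
      · have h1 := h.xx 4 1 2 (by norm_num) _ hF
        rw [x2] at h1
        exact b5_lin h (by norm_num) (b5_smul d2 h1)
    · have h1 := h.xx 4 1 1 (by norm_num) _ hF
      rw [x1] at h1
      exact b5_lin h (by norm_num) (b5_smul d1 h1)
  · have h1 := h.xx 4 1 0 (by norm_num) _ hF
    rw [x0] at h1
    exact b5_lin h (by norm_num) (b5_smul d0 h1)

theorem b52 (h : MS2 R) {n : ℕ} (hn : 1 ≤ n) (h0 : z 0 * z 1 ∈ R (n + 1) 2) : Hh 2 n 3 ≤ R n 3 := by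
  have h1 : ∀ i j : ℕ, i < n + 1 → j < n + 1 → i ≠ j → (z i * z j : Z 2) ∈ R (n + 1) 2 := by
    intro i j hi hj hij
    obtain ⟨σ, h3, h4, h5⟩ := b5_perm2 (M := n + 1) (x := 0) (y := 1) (a := i) (b := j) (by omega) (by omega) hi hj
      (by norm_num) hij
    have h6 := b5_rnm h.toMS (by omega) σ h3 h0
    rw [map_mul, rn_z, rn_z, h4, h5] at h6
    exact h6
  have hl : ∀ i j : ℕ, j < n → (if j < n then j else i) = j := fun i j hj => if_pos hj
  have hg : ∀ i : ℕ, (if n < n then n else i) = i := fun i => if_neg (lt_irrefl n)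
  have h2 : ∀ i j k : ℕ, i < n → j < n → k < n → (z i * (z j * z k) : Z 2) ∈ R n 3 := by
    intro i j k hi hj hk
    by_cases hjk : j = k
    · subst hjk
      by_cases hij : i = j
      · subst hij
        have h3 := h.idtS (by norm_num) hi (h1 i n (by omega) (by omega) (by omega))
        rw [map_mul, rn_z, rn_z, hl i i hi, hg i] at h3
        exact h3
      · have h3 := h.idtS (by norm_num) hj (h1 i j (by omega) (by omega) hij)
        rw [map_mul, rn_z, rn_z, hl j i hi, hl j j hj] at h3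
        have e : (z i * (z j * z j) : Z 2) = z j * (z i * z j) := by ring
        rw [e]
        exact h3
    · have h3 := h.idtS (by norm_num) hi (h1 j k (by omega) (by omega) hjk)
      rw [map_mul, rn_z, rn_z, hl i j hj, hl i k hk] at h3
      exact h3
  refine Submodule.span_le.2 ?_
  rintro F ⟨m, hm, hd, rfl⟩
  obtain ⟨a, m1, rfl, h3⟩ := b5_dec (k := 2) hd
  obtain ⟨b, m2, rfl, h4⟩ := b5_dec (k := 1) h3
  obtain ⟨c, m3, rfl, h5⟩ := b5_dec (k := 0) h4
  rw [b5_zero h5, add_zero] at hm ⊢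
  rw [SetLike.mem_coe, mo_add, mo_add, b5_mo1, b5_mo1, b5_mo1]
  have key : ∀ x : ℕ, x = a ∨ x = b ∨ x = c → x < n := by
    intro x hx
    by_contra hxn
    have h6 := hm x (not_lt.1 hxn)
    rw [Finsupp.add_apply, Finsupp.add_apply] at h6
    rcases hx with rfl | rfl | rfl
    · rw [Finsupp.single_eq_same] at h6; omega
    · rw [Finsupp.single_eq_same] at h6; omega
    · rw [Finsupp.single_eq_same] at h6; omega
  exact h2 a b c (key a (by tauto)) (key b (by tauto)) (key c (by tauto))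

theorem b53 (h : MS2 R) (h0 : z 0 * z 1 ∈ R 5 2) : (∀ n, 4 ≤ n → Hh 2 n 3 ≤ R n 3) ∧ Hh 2 3 4 ≤ R 3 4 ∧
    Hh 2 2 5 ≤ R 2 5 ∧ Hh 2 1 6 ≤ R 1 6 := by
  have h1 : ∀ n, 4 ≤ n → Hh 2 n 3 ≤ R n 3 := fun n hn =>
    b52 h (by omega) (h.up (by norm_num) (by omega) h0)
  have h2 : Hh 2 3 4 ≤ R 3 4 := h.K0 (k := 3) le_rfl (by norm_num) (fun F hF => h1 4 le_rfl (Hh_mono (by norm_num) hF))
  have h3 : Hh 2 2 5 ≤ R 2 5 := h.K0 (k := 4) le_rfl (by norm_num) (fun F hF => h2 (Hh_mono (by norm_num) hF))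
  have h4 : Hh 2 1 6 ≤ R 1 6 := h.K0 (k := 5) le_rfl (by norm_num) (fun F hF => h3 (Hh_mono (by norm_num) hF))
  exact ⟨h1, h2, h3, h4⟩

end ADQ
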