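import Pool.Agent.ADQ.B51
import Pool.Agent.ADQ.BAlt
import Pool.Agent.ADQ.NoSq
import Pool.Agent.ADQ.NoLP01
import Pool.Agent.ADQ.ExpN

/-!
# ADQ-B5n
-/

namespace ADQ

open AD ADN ADC

variable {R : ℕ → ℕ → Submodule (ZMod 2) (Z 2)}

private theorem b5n_swap {M a b : ℕ} (ha : a < M) (hb : b < M) {t : ℕ} (ht : t < M) : Equiv.swap a b t < M := by
  rw [Equiv.swap_apply_def]
  split_ifs
  · exact hb
  · exact ha
  · exact ht

private theorem b5n_perm {M i j : ℕ} (hi : i < M) (hj : j < M) (hij : i ≠ j) :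
    ∃ σ : Equiv.Perm ℕ, (∀ t < M, σ t < M) ∧ σ 0 = i ∧ σ 1 = j := by
  have h2 : Equiv.swap 0 i 0 = i := Equiv.swap_apply_left 0 i
  refine ⟨Equiv.swap (Equiv.swap 0 i 1) j * Equiv.swap 0 i, ?_, ?_, ?_⟩
  · intro t ht
    rw [Equiv.Perm.mul_apply]
    exact b5n_swap (b5n_swap (by omega) hi (by omega)) hj (b5n_swap (by omega) hi ht)
  · rw [Equiv.Perm.mul_apply, h2]
    refine Equiv.swap_apply_of_ne_of_ne ?_ hij
    intro h
    have h3 : Equiv.swap 0 i 0 = Equiv.swap 0 i 1 := h2.trans h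
    exact absurd ((Equiv.swap 0 i).injective h3) (by norm_num)
  · rw [Equiv.Perm.mul_apply, Equiv.swap_apply_left]

private theorem b5n_zz (h : MS2 R) (h0 : z 0 * z 1 ∈ R 5 2) {n a b : ℕ} (hn : 5 ≤ n) (ha : a < n) (hb : b < n)
    (hab : a ≠ b) : z a * z b ∈ R n 2 := by
  obtain ⟨σ, h1, h2, h3⟩ := b5n_perm ha hb hab
  have h4 := h.toMS.ren n n 2 σ (by omega) h1 (fun _ _ _ _ e => σ.injective e) _
    (h.toMS.up (by norm_num) hn h0)
  rw [map_mul, rn_z, rn_z, h2, h3] at h4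
  exact h4

private theorem b5n_Sq (h : MS2 R) (h0 : z 0 * z 1 ∈ R 5 2) {n : ℕ} (hn : 5 ≤ n) : Sq 2 n 2 ≤ R n 2 := by
  intro F hF
  obtain ⟨c, rfl⟩ := expS hF
  refine Submodule.sum_mem _ fun S hS => Submodule.smul_mem _ _ ?_
  obtain ⟨hS1, hS2⟩ := Finset.mem_powersetCard.1 hS
  obtain ⟨a, b, hab, rfl⟩ := Finset.card_eq_two.1 hS2
  rw [Finset.prod_pair hab]
  exact b5n_zz h h0 hn (Finset.mem_range.1 (hS1 (Finset.mem_insert_self _ _)))
    (Finset.mem_range.1 (hS1 (Finset.mem_insert_of_mem (Finset.mem_singleton_self _)))) hab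

theorem noB5 (h : MS2 R) (h0 : z 0 * z 1 ∈ R 5 2) {n k l : ℕ} (hn : 5 ≤ n) {u w : Z 2}
    (hl : LP 2 R (Soc2 R) n k l u w) : False := by
  have : Fact (Nat.Prime 2) := ⟨Nat.prime_two⟩
  have hm := h.toMS
  have hl' : LP 2 R (SocB 2 R) n k l u w := hl.mono (fun _ _ _ hs => hs.toSocB)
  have hk0 : k ≠ 0 := by
    rintro rfl
    exact noLP_0 hm hl'
  have hk1 : k ≠ 1 := by
    rintro rfl
    exact noLP_1 hm hl'
  have h3 := (b53 h h0).1 n (by omega)
  have hl2 : l ≤ 2 := by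
    by_contra hc
    exact hl'.nw (hm.Kup le_rfl (by omega) h3 (by omega) hl'.sw.hy)
  have hkl := hl.kl
  obtain rfl : k = 2 := by omega
  obtain rfl : l = 2 := by omega
  obtain ⟨d, s, hs, hu⟩ := expN2 hl'.su.hy
  obtain ⟨d', s', hs', hw⟩ := expN2 hl'.sw.hy
  refine hl.nu (P1 (n := n) (N := R n 2) (hm.GAs (by omega)) (e := fun i => z i ^ 2) ?_ (a := d) (b := d') ?_ ?_
    hl'.Lkd)
  · intro i hi j hj hij
    refine ⟨(rn (Equiv.swap i j) : Z 2 →ₐ[ZMod 2] Z 2).toLinearMap, GA_rn _ ?_, ?_, ?_, ?_⟩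
    · intro t ht
      exact Equiv.swap_apply_of_ne_of_ne (by omega) (by omega)
    · rw [AlgHom.toLinearMap_apply, map_pow, rn_z, Equiv.swap_apply_left, sub_self]
      exact Submodule.zero_mem _
    · rw [AlgHom.toLinearMap_apply, map_pow, rn_z, Equiv.swap_apply_right, sub_self]
      exact Submodule.zero_mem _
    · intro t _ h1 h2
      rw [AlgHom.toLinearMap_apply, map_pow, rn_z, Equiv.swap_apply_of_ne_of_ne h1 h2, sub_self]
      exact Submodule.zero_mem _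
  · rw [hu, add_sub_cancel_left]
    exact b5n_Sq h h0 hn hs
  · rw [hw, add_sub_cancel_left]
    exact b5n_Sq h h0 hn hs'

end ADQ
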