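import Pool.Agent.ADQ.Defs
import Pool.Agent.ADC.Lkb

/-!
# ADQ-Line: another line in the diamond

`D = {a + y b | Lnk A B C a b}` (`Lnk A B C a b`: `a ∈ A`, `b ∈ B`, `a + b ∈ C`); `Lnk` is closed under sums, integer multiples, multiplication by polynomials and
substitutions, so `D` is a T-ideal.  `I ≤ D`: `i = i + y • 0`.  `A ⊓ D ≤ I`: `a + y b ∈ A` gives `y b ∈ A ⊓ B ≤ I`, `p b ∈ I` (`hm`), so `b ∈ I` (`y`, `p`
coprime, `ADC.cancel`), `a ∈ I` (`Lk.iff`).  `D ⊓ B ≤ I`: `a ∈ B`, so `a ∈ I`, `b ∈ I`.  `A ⊓ B ≤ I` is `h.AB`.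
`A ≤ D ⊔ B`: for `a ∈ A` there is a linked `b` (`Lk.ex`), `a = (a + y b) - y b`.  `D ≤ A ⊔ B`: clear.  [`Lk p I A D B` needs `cA : A ≤ D ⊔ B`,
`cB : D ≤ A ⊔ B`.]  `mA`: `h.mA`.  `mB` for `D`: let `E` be a T-ideal, `I ≤ E ≤ D`; `E' = {a ∈ A | ∃ b, Lnk a b ∧ a + y b ∈ E}` is a T-ideal between `I` and `A`.
`E' = I`: then `E ≤ I` (`a ∈ I` gives `b ∈ I`).  `E' = A`: for `a + y b ∈ D` there is `b'` with `Lnk a b'`, `a + y b' ∈ E`; `Lnk 0 (b - b')`, so `b - b' ∈ I ≤ E`.
`ess`: `A ⊔ D` contains `y b` for every `b ∈ B` (the linked `a` exists by symmetry), and `p b ∈ I`, so `b ∈ A ⊔ D`: `A ⊔ B ≤ A ⊔ D`.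
-/

namespace ADQ

open AD ADN ADC

private theorem ln_zero (A B C : Submodule ℤ P) : Lnk A B C 0 0 :=
  ⟨A.zero_mem, B.zero_mem, by rw [add_zero]; exact C.zero_mem⟩

private theorem ln_add {A B C : Submodule ℤ P} {a b a' b' : P} (h : Lnk A B C a b)
    (h' : Lnk A B C a' b') : Lnk A B C (a + a') (b + b') := by
  refine ⟨A.add_mem h.1 h'.1, B.add_mem h.2.1 h'.2.1, ?_⟩
  have e : a + a' + (b + b') = (a + b) + (a' + b') := by abel
  rw [e]
  exact C.add_mem h.2.2 h'.2.2

private theorem ln_smul {A B C : Submodule ℤ P} {a b : P} (h : Lnk A B C a b) (c : ℤ) :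
    Lnk A B C (c • a) (c • b) := by
  refine ⟨A.smul_mem _ h.1, B.smul_mem _ h.2.1, ?_⟩
  rw [← smul_add]
  exact C.smul_mem _ h.2.2

private theorem ln_mulr {A B C : Submodule ℤ P} (hA : IsT A) (hB : IsT B) (hC : IsT C) {a b : P}
    (h : Lnk A B C a b) (g : P) : Lnk A B C (a * g) (b * g) := by
  refine ⟨hA.mul_right _ h.1 _, hB.mul_right _ h.2.1 _, ?_⟩
  rw [← add_mul]
  exact hC.mul_right _ h.2.2 _

private theorem ln_mull {A B C : Submodule ℤ P} (hA : IsT A) (hB : IsT B) (hC : IsT C) {a b : P}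
    (h : Lnk A B C a b) (g : P) : Lnk A B C (g * a) (g * b) := by
  refine ⟨hA.mul_left _ h.1 _, hB.mul_left _ h.2.1 _, ?_⟩
  rw [← mul_add]
  exact hC.mul_left _ h.2.2 _

private theorem ln_subst {A B C : Submodule ℤ P} (hA : IsT A) (hB : IsT B) (hC : IsT C) {a b : P}
    (h : Lnk A B C a b) {φ : P →ₐ[ℤ] P} (hφ : IsSubst φ) : Lnk A B C (φ a) (φ b) := by
  refine ⟨hA.subst _ hφ _ h.1, hB.subst _ hφ _ h.2.1, ?_⟩
  rw [← map_add]
  exact hC.subst _ hφ _ h.2.2

/-- the polynomials `a + y b`, `a`, `b` linked -/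
private def ln_D (A B C : Submodule ℤ P) (y : ℤ) : Submodule ℤ P where
  carrier := {d | ∃ a b, Lnk A B C a b ∧ d = a + y • b}
  zero_mem' := ⟨0, 0, ln_zero A B C, by rw [smul_zero, add_zero]⟩
  add_mem' := by
    rintro _ _ ⟨a, b, h, rfl⟩ ⟨a', b', h', rfl⟩
    refine ⟨a + a', b + b', ln_add h h', ?_⟩
    rw [smul_add]
    abel
  smul_mem' := by
    rintro c _ ⟨a, b, h, rfl⟩
    refine ⟨c • a, c • b, ln_smul h c, ?_⟩
    rw [smul_add, smul_comm]

private theorem ln_isD {A B C : Submodule ℤ P} (hA : IsT A) (hB : IsT B) (hC : IsT C) (y : ℤ) :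
    IsT (ln_D A B C y) where
  le := by
    rintro _ ⟨a, b, h, rfl⟩
    exact Pp.add_mem (hA.le h.1) (Pp.smul_mem _ (hB.le h.2.1))
  mul_right := by
    rintro _ ⟨a, b, h, rfl⟩ g
    refine ⟨a * g, b * g, ln_mulr hA hB hC h g, ?_⟩
    rw [add_mul, smul_mul_assoc]
  mul_left := by
    rintro _ ⟨a, b, h, rfl⟩ g
    refine ⟨g * a, g * b, ln_mull hA hB hC h g, ?_⟩
    rw [mul_add, mul_smul_comm]
  subst := by
    rintro φ hφ _ ⟨a, b, h, rfl⟩
    refine ⟨φ a, φ b, ln_subst hA hB hC h hφ, ?_⟩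
    rw [map_add, map_zsmul]

/-- the elements `a` of `A` with a linked `b`, `a + y b` in `E` -/
private def ln_E (A B C : Submodule ℤ P) (y : ℤ) (E : Submodule ℤ P) : Submodule ℤ P where
  carrier := {a | ∃ b, Lnk A B C a b ∧ a + y • b ∈ E}
  zero_mem' := ⟨0, ln_zero A B C, by rw [smul_zero, add_zero]; exact E.zero_mem⟩
  add_mem' := by
    rintro a a' ⟨b, h, hE⟩ ⟨b', h', hE'⟩
    refine ⟨b + b', ln_add h h', ?_⟩
    have e : a + a' + y • (b + b') = (a + y • b) + (a' + y • b') := by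
      rw [smul_add]
      abel
    rw [e]
    exact E.add_mem hE hE'
  smul_mem' := by
    rintro c a ⟨b, h, hE⟩
    refine ⟨c • b, ln_smul h c, ?_⟩
    have e : c • a + y • (c • b) = c • (a + y • b) := by
      rw [smul_add, smul_comm]
    rw [e]
    exact E.smul_mem _ hE

private theorem ln_isE {A B C E : Submodule ℤ P} (hA : IsT A) (hB : IsT B) (hC : IsT C) (hE : IsT E)
    (y : ℤ) : IsT (ln_E A B C y E) where
  le := by
    rintro a ⟨b, h, h'⟩
    exact hA.le h.1
  mul_right := by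
    rintro a ⟨b, h, h'⟩ g
    refine ⟨b * g, ln_mulr hA hB hC h g, ?_⟩
    rw [← smul_mul_assoc, ← add_mul]
    exact hE.mul_right _ h' _
  mul_left := by
    rintro a ⟨b, h, h'⟩ g
    refine ⟨g * b, ln_mull hA hB hC h g, ?_⟩
    rw [← mul_smul_comm, ← mul_add]
    exact hE.mul_left _ h' _
  subst := by
    rintro φ hφ a ⟨b, h, h'⟩
    refine ⟨φ b, ln_subst hA hB hC h hφ, ?_⟩
    rw [← map_zsmul, ← map_add]
    exact hE.subst _ hφ _ h'

theorem lk_line {p : ℕ} (hp : p.Prime) {I A B C : Submodule ℤ P} (h : Lk p I A B C) (hm : Mul p I) {y : ℤ}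
    (hy : ¬ (p : ℤ) ∣ y) : ∃ D, Lk p I A D B ∧ ∀ a b, Lnk A B C a b → a + y • b ∈ D := by
  have hmem : ∀ a b, Lnk A B C a b → a + y • b ∈ ln_D A B C y := fun a b hl => ⟨a, b, hl, rfl⟩
  have hID : I ≤ ln_D A B C y := by
    intro i hi
    refine ⟨i, 0, ⟨h.IA hi, B.zero_mem, ?_⟩, ?_⟩
    · rw [add_zero]
      exact h.IC hi
    · rw [smul_zero, add_zero]
  refine ⟨ln_D A B C y, ?_, hmem⟩
  exact
    { hI := h.hI
      hA := h.hA
      hB := ln_isD h.hA h.hB h.hC y
      hC := h.hB
      neA := h.neA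
      IA := h.IA
      IB := hID
      IC := h.IB
      AB := by
        rintro x ⟨hx, a, b, hl, rfl⟩
        have h1 : y • b ∈ A := by
          have e : y • b = (a + y • b) - a := by abel
          rw [e]
          exact A.sub_mem hx hl.1
        have h2 : y • b ∈ I := h.AB ⟨h1, B.smul_mem _ hl.2.1⟩
        have h3 : b ∈ I := cancel hp h.p2 hy (h.hB.le hl.2.1) h2
        exact I.add_mem ((h.iff hl).2 h3) h2
      AC := h.AB
      BC := by
        rintro x ⟨⟨a, b, hl, rfl⟩, hx⟩
        have h1 : a ∈ B := by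
          have e : a = (a + y • b) - y • b := by abel
          rw [e]
          exact B.sub_mem hx (B.smul_mem _ hl.2.1)
        have h2 : a ∈ I := h.AB ⟨hl.1, h1⟩
        exact I.add_mem h2 (I.smul_mem _ ((h.iff hl).1 h2))
      cA := by
        intro a ha
        obtain ⟨b, hl⟩ := h.ex ha
        have e : a = (a + y • b) - y • b := by abel
        rw [e]
        exact Submodule.sub_mem _ ((le_sup_left : ln_D A B C y ≤ _) (hmem a b hl))
          ((le_sup_right : B ≤ _) (B.smul_mem _ hl.2.1))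
      cB := by
        rintro _ ⟨a, b, hl, rfl⟩
        exact Submodule.add_mem _ ((le_sup_left : A ≤ _) hl.1)
          ((le_sup_right : B ≤ _) (B.smul_mem _ hl.2.1))
      mA := h.mA
      mB := by
        intro E hE hIE hED
        have hIE' : I ≤ ln_E A B C y E := by
          intro i hi
          refine ⟨0, ⟨h.IA hi, B.zero_mem, ?_⟩, ?_⟩
          · rw [add_zero]
            exact h.IC hi
          · rw [smul_zero, add_zero]
            exact hIE hi
        have hE'A : ln_E A B C y E ≤ A := by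
          rintro a ⟨b, hl, -⟩
          exact hl.1
        rcases h.mA _ (ln_isE h.hA h.hB h.hC hE y) hIE' hE'A with h1 | h1
        · left
          refine le_antisymm ?_ hIE
          intro e he
          obtain ⟨a, b, hl, rfl⟩ := hED he
          have h2 : a ∈ ln_E A B C y E := ⟨b, hl, he⟩
          rw [h1] at h2
          exact I.add_mem h2 (I.smul_mem _ ((h.iff hl).1 h2))
        · right
          refine le_antisymm hED ?_
          rintro _ ⟨a, b, hl, rfl⟩
          have h2 : a ∈ ln_E A B C y E := by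
            rw [h1]
            exact hl.1
          obtain ⟨b', hl', hE'⟩ := h2
          have h3 : b - b' ∈ I := by
            have h4 : Lnk A B C (a - a) (b - b') := by
              refine ⟨A.sub_mem hl.1 hl.1, B.sub_mem hl.2.1 hl'.2.1, ?_⟩
              have e : a - a + (b - b') = (a + b) - (a + b') := by abel
              rw [e]
              exact C.sub_mem hl.2.2 hl'.2.2
            refine (h.iff h4).1 ?_
            rw [sub_self]
            exact I.zero_mem
          have e : a + y • b = (a + y • b') + y • (b - b') := by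
            rw [smul_sub]
            abel
          rw [e]
          exact E.add_mem hE' (E.smul_mem _ (hIE h3))
      ess := by
        intro E hE hIE hx
        refine h.ess E hE hIE (le_trans (inf_le_inf le_rfl (sup_le le_sup_left ?_)) hx)
        intro b hb
        obtain ⟨a, hl'⟩ := h.symm.ex hb
        have hl : Lnk A B C a b := hl'.symm
        have h1 : y • b ∈ A ⊔ ln_D A B C y := by
          have e : y • b = (a + y • b) - a := by abel
          rw [e]
          exact Submodule.sub_mem _ ((le_sup_right : ln_D A B C y ≤ _) (hmem a b hl))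
            ((le_sup_left : A ≤ _) hl.1)
        exact cancel hp (h.p2.mono (h.IA.trans le_sup_left)) hy (h.hB.le hb) h1
      p2 := h.p2
      nil := h.nil }

end ADQ
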