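import Pool.Agent.ADQ.Ord
import Pool.Agent.ADQ.Line

/-!
# ADQ-Best: the line of maximal order
-/

namespace ADQ

open AD ADN ADC

/-- a bounded nonempty set of natural numbers has a largest element -/
private theorem bst_max {Q : ℕ → Prop} {N : ℕ} (hN : ∀ d, Q d → d ≤ N) (h : ∃ d, Q d) :
    ∃ d, Q d ∧ ∀ e, Q e → e ≤ d := by
  classical
  obtain ⟨d, hd⟩ := h
  exact ⟨Nat.findGreatest Q N, Nat.findGreatest_spec (hN d hd) hd,
    fun e he => Nat.le_findGreatest (hN e he) he⟩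

private theorem bst_dvd {p : ℕ} {I : Submodule ℤ P} (hm : Mul p I) {y : ℤ} (hy : (p : ℤ) ∣ y) {b : P}
    (hb : b ∈ Pp) : y • b ∈ I := by
  obtain ⟨k, rfl⟩ := hy
  rw [mul_comm, mul_smul]
  exact I.smul_mem _ (hm b hb)

private theorem bst_anti {I : Submodule ℤ P} {d e : ℕ} (h : d ≤ e) : I ⊔ Fge (e + 1) ≤ I ⊔ Fge (d + 1) :=
  sup_le_sup le_rfl (Fge_anti (Nat.succ_le_succ h))

private theorem bst_inv {p : ℕ} (hp : p.Prime) {x y : ℤ} (hx : ¬ (p : ℤ) ∣ x) (hy : ¬ (p : ℤ) ∣ y) :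
    ∃ t : ℤ, ¬ (p : ℤ) ∣ t ∧ (p : ℤ) ∣ x * t - y := by
  have hc : IsCoprime x (p : ℤ) := ((Nat.prime_iff_prime_int.1 hp).coprime_iff_not_dvd.2 hx).symm
  obtain ⟨u, v, huv⟩ := hc
  have e : x * (u * y) - y = (p : ℤ) * (-(v * y)) := by
    have e1 : u * x = 1 - v * p := by linarith
    calc x * (u * y) - y = (u * x) * y - y := by ring
      _ = (1 - v * p) * y - y := by rw [e1]
      _ = (p : ℤ) * (-(v * y)) := by ring
  refine ⟨u * y, ?_, ⟨_, e⟩⟩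
  intro h
  apply hy
  have h2 : y = x * (u * y) - (p : ℤ) * (-(v * y)) := by linarith
  rw [h2]
  exact dvd_sub (h.mul_left _) (dvd_mul_right _ _)

theorem exists_best {p : ℕ} (hp : p.Prime) {I : Submodule ℤ P} (hm : Mul p I)
    (h : ∃ A B C, Lk p I A B C) : ∃ (A B C : Submodule ℤ P) (dA dB : ℕ), Lk p I A B C ∧ Od I A dA ∧ Od I B dB ∧
    dA ≤ dB ∧ ∀ a' b', Lnk A B C a' b' → ∀ x y : ℤ, ¬ ((p : ℤ) ∣ x ∧ (p : ℤ) ∣ y) →
      x • a' + y • b' ∈ I ⊔ Fge (dB + 1) → a' ∈ I := by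
  obtain ⟨A₀, B₀, C₀, h₀⟩ := h
  obtain ⟨N, hN⟩ := h₀.nil
  obtain ⟨dB, ⟨A, B, C, hl, hB⟩, hmax⟩ :
      ∃ d, (∃ A B C, Lk p I A B C ∧ Od I B d) ∧ ∀ e, (∃ A B C, Lk p I A B C ∧ Od I B e) → e ≤ d := by
    refine bst_max (N := N) ?_ ?_
    · rintro d ⟨A, B, C, h1, h2⟩
      exact (Od_lt h1.symm hN h2).le
    · obtain ⟨d, -, hd⟩ := exists_Od h₀.symm
      exact ⟨d, A₀, B₀, C₀, h₀, hd⟩
  obtain ⟨dA, -, hA⟩ := exists_Od hl
  have hAB : dA ≤ dB := hmax dA ⟨B, A, C, hl.symm, hA⟩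
  refine ⟨A, B, C, dA, dB, hl, hA, hB, hAB, ?_⟩
  intro a' b' hL x y hxy hmem
  have ha' : a' ∈ Pp := hl.hA.le hL.1
  have hb' : b' ∈ Pp := hl.hB.le hL.2.1
  have hp2 : Mul ((p : ℤ) ^ 2) (I ⊔ Fge (dB + 1)) := hl.p2.mono le_sup_left
  by_cases hy : (p : ℤ) ∣ y
  · have hx : ¬ (p : ℤ) ∣ x := fun h => hxy ⟨h, hy⟩
    have h1 : x • a' ∈ I ⊔ Fge (dB + 1) := by
      have e : x • a' = (x • a' + y • b') - y • b' := by abel
      rw [e]
      exact Submodule.sub_mem _ hmem ((le_sup_left : I ≤ _) (bst_dvd hm hy hb'))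
    exact hA.2 ⟨hL.1, bst_anti hAB (cancel hp hp2 hx ha' h1)⟩
  · by_cases hx : (p : ℤ) ∣ x
    · have h1 : y • b' ∈ I ⊔ Fge (dB + 1) := by
        have e : y • b' = (x • a' + y • b') - x • a' := by abel
        rw [e]
        exact Submodule.sub_mem _ hmem ((le_sup_left : I ≤ _) (bst_dvd hm hx ha'))
      exact (hl.iff hL).2 (hB.2 ⟨hL.2.1, cancel hp hp2 hy hb' h1⟩)
    · obtain ⟨t, ht, hxt⟩ := bst_inv hp hx hy
      obtain ⟨D, hD, hDm⟩ := lk_line hp hl hm ht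
      obtain ⟨dD, -, hdD⟩ := exists_Od hD.symm
      have hle : dD ≤ dB := hmax dD ⟨A, D, B, hD, hdD⟩
      have h1 : x • (a' + t • b') ∈ I ⊔ Fge (dB + 1) := by
        have e : x • (a' + t • b') = (x • a' + y • b') + (x * t - y) • b' := by
          rw [smul_add, sub_smul, mul_smul]
          abel
        rw [e]
        exact Submodule.add_mem _ hmem ((le_sup_left : I ≤ _) (bst_dvd hm hxt hb'))
      have hDa : a' + t • b' ∈ D := hDm a' b' hL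
      have h2 : a' + t • b' ∈ I :=
        hdD.2 ⟨hDa, bst_anti hle (cancel hp hp2 hx (hD.hB.le hDa) h1)⟩
      have h3 : a' ∈ B := by
        have e : a' = (a' + t • b') - t • b' := by abel
        rw [e]
        exact B.sub_mem (hl.IB h2) (B.smul_mem _ hL.2.1)
      exact hl.AB ⟨hL.1, h3⟩

end ADQ
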