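import Pool.Agent.ADC.Nf
import Pool.Agent.ADC.ExLk
import Pool.Agent.ADC.TOpW

/-!
# ADQ: the near-commutative almost distributive varieties of rings of exponent `p`

Definitions.  The words in which exactly the letters `0, ..., n-1` occur, each `≡ 1` modulo `p - 1` times, are described
(up to the order of the letters) by monomials in `z_0, ..., z_{n-1}`, `z_i = x_i ^ (p-1)`.
-/

namespace ADQ

open AD ADN ADC

/-- polynomials over `𝔽_p` in the variables `z_0, z_1, ...` -/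
abbrev Z (p : ℕ) : Type := MvPolynomial ℕ (ZMod p)

/-- the variable `z_i` -/
noncomputable abbrev z {p : ℕ} (i : ℕ) : Z p := MvPolynomial.X i

/-- a monomial -/
noncomputable def mo {p : ℕ} (m : ℕ →₀ ℕ) : Z p := MvPolynomial.monomial m 1

/-- the linear map with given values on the monomials -/
noncomputable def lz {p : ℕ} (φ : (ℕ →₀ ℕ) → Z p) : Z p →ₗ[ZMod p] Z p :=
  (MvPolynomial.basisMonomials ℕ (ZMod p)).constr (ZMod p) φ

/-- the polynomials in `z_0, ..., z_{n-1}`, homogeneous of degree `k` -/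
noncomputable def Hh (p n k : ℕ) : Submodule (ZMod p) (Z p) :=
  Submodule.span (ZMod p) {F | ∃ m : ℕ →₀ ℕ, (∀ i, n ≤ i → m i = 0) ∧ m.degree = k ∧ F = mo m}

/-- the squarefree ones -/
noncomputable def Sq (p n k : ℕ) : Submodule (ZMod p) (Z p) :=
  Submodule.span (ZMod p) {F | ∃ m : ℕ →₀ ℕ, (∀ i, n ≤ i → m i = 0) ∧ m.degree = k ∧ (∀ i, m i ≤ 1) ∧ F = mo m}

/-- the ones of degree 4 spanned by all monomials except `z_i ^ 2 * z_j ^ 2` -/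
noncomputable def Nt (p n : ℕ) : Submodule (ZMod p) (Z p) :=
  Submodule.span (ZMod p) {F | ∃ m : ℕ →₀ ℕ, (∀ i, n ≤ i → m i = 0) ∧ m.degree = 4 ∧
    (∀ i j, i ≠ j → ¬ (m i = 2 ∧ m j = 2)) ∧ F = mo m}

/-- `z_i ↦ 0` -/
noncomputable def ev {p : ℕ} (i : ℕ) : Z p →ₐ[ZMod p] Z p :=
  MvPolynomial.aeval (fun j => if j = i then 0 else z j)

/-- renaming of the variables -/
noncomputable def rn {p : ℕ} (g : ℕ → ℕ) : Z p →ₐ[ZMod p] Z p := MvPolynomial.rename g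

/-- `x_i ↦ x_i + x_j`, minus the identity, `p ≥ 3` -/
noncomputable def dd {p : ℕ} (i j : ℕ) : Z p →ₗ[ZMod p] Z p :=
  lz (fun m => if m i = 0 then 0 else
    ((m i : ZMod p) - 1) • ((z i - z j) * z j ^ (m i - 1) * mo (m.erase i)))

/-- `x_i ↦ x_i + x_n`, the part in which both occur, `p = 2` -/
noncomputable def xx (i n : ℕ) : Z 2 →ₗ[ZMod 2] Z 2 :=
  lz (fun m => ∑ t ∈ Finset.Icc 1 (m i),
    ((m i + 1).choose t : ZMod 2) • (z i ^ (t - 1) * z n ^ (m i - t) * mo (m.erase i)))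

/-- `z_0 z_1 (z_0 - z_1) ^ 2` -/
noncomputable def b0 {p : ℕ} : Z p := z 0 * z 1 * (z 0 - z 1) ^ 2

/-- the permutations of the variables `z_0, ..., z_{n-1}`, as operators, and their linear combinations -/
noncomputable def GA (p n : ℕ) : Submodule (ZMod p) (Z p →ₗ[ZMod p] Z p) :=
  Submodule.span (ZMod p) {T | ∃ σ : Equiv.Perm ℕ, (∀ i, n ≤ i → σ i = i) ∧ T = (rn σ).toLinearMap}

/-- a system of spaces `R n k` of polynomials in `z_0, ..., z_{n-1}`, homogeneous of degree `k`, closed under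
the operations that all T-ideals allow -/
structure MS (p : ℕ) (R : ℕ → ℕ → Submodule (ZMod p) (Z p)) : Prop where
  le : ∀ n k, 1 ≤ n → R n k ≤ Hh p n k
  ren : ∀ n n' k (g : ℕ → ℕ), 1 ≤ n → (∀ i < n, g i < n') → (∀ i < n, ∀ j < n, g i = g j → i = j) →
    ∀ F ∈ R n k, rn g F ∈ R n' k
  idt : ∀ n k i (g : ℕ → ℕ), i < n → (∀ j < n + (p - 1), g j < n) →
    (∀ j < n, ((Finset.range (n + (p - 1))).filter (fun t => g t = j)).card = if j = i then p else 1) →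
    ∀ F ∈ R (n + (p - 1)) k, z i * rn g F ∈ R n (k + 1)
  zer : ∀ n k i, i < n → ∀ F ∈ R n k, ev i F ∈ R (n + 1) k

/-- the same for `p ≥ 3`, with `x_i ↦ x_i + x_j` -/
structure MS3 (p : ℕ) (R : ℕ → ℕ → Submodule (ZMod p) (Z p)) : Prop extends MS p R where
  dd : ∀ n k i j, k ≤ 4 → i < n → j < n → i ≠ j → ∀ F ∈ R n k, dd i j F ∈ R n k

/-- the same for `p = 2` -/
structure MS2 (R : ℕ → ℕ → Submodule (ZMod 2) (Z 2)) : Prop extends MS 2 R where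
  xx : ∀ n k i, i < n → ∀ F ∈ R n (k + 1), xx i n F ∈ R (n + 1) k

/-- `y ∈ Hh p n k` is annihilated modulo `R` by the operations that raise the degree -/
structure SocB (p : ℕ) (R : ℕ → ℕ → Submodule (ZMod p) (Z p)) (n k : ℕ) (y : Z p) : Prop where
  hy : y ∈ Hh p n k
  ext : y ∈ R (n + 1) k
  zer : ∀ i < n, ev i y ∈ R (n + 1) k

/-- `y ∈ Hh p n k` is annihilated modulo `R` by all operations that raise the degree or the number of variables, `p ≥ 3` -/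
structure Soc3 (p : ℕ) (R : ℕ → ℕ → Submodule (ZMod p) (Z p)) (n k : ℕ) (y : Z p) : Prop
    extends SocB p R n k y where
  dd : k ≤ 4 → ∀ i < n, ∀ j < n, i ≠ j → dd i j y ∈ R n k
  vv : n = 2 → k = 4 → (MvPolynomial.coeff (Finsupp.single 0 2 + Finsupp.single 1 2) y) • b0 ∈ R 2 4

/-- the same for `p = 2` -/
structure Soc2 (R : ℕ → ℕ → Submodule (ZMod 2) (Z 2)) (n k : ℕ) (y : Z 2) : Prop
    extends SocB 2 R n k y where
  xx : 1 ≤ k → ∀ i < n, xx i n y ∈ R (n + 1) (k - 1)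

/-- the polynomials that do not involve `z_i` -/
noncomputable def NV {p : ℕ} (i : ℕ) : Subalgebra (ZMod p) (Z p) := MvPolynomial.supported (ZMod p) {i}ᶜ

/-- a leading pair `u`, `w` of degrees `k ≤ l` in `n` variables; `S n k y` are its socle conditions -/
structure LP (p : ℕ) (R : ℕ → ℕ → Submodule (ZMod p) (Z p)) (S : ℕ → ℕ → Z p → Prop) (n k l : ℕ)
    (u w : Z p) : Prop where
  n1 : 1 ≤ n
  kl : k ≤ l
  su : S n k u
  sw : S n l w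
  nu : u ∉ R n k
  lk : ∀ T ∈ GA p n, T u ∈ R n k ↔ T w ∈ R n l
  lk2 : k = l → ∀ T ∈ GA p n, ∀ x y : ZMod p, ¬ (x = 0 ∧ y = 0) → T (x • u + y • w) ∈ R n k →
    T u ∈ R n k ∧ T w ∈ R n k

/-- `u`, `w` are linked modulo `N` -/
def Lkd (p n : ℕ) (N : Submodule (ZMod p) (Z p)) (u w : Z p) : Prop :=
  ∀ T ∈ GA p n, ∀ x y : ZMod p, ¬ (x = 0 ∧ y = 0) → T (x • u + y • w) ∈ N → T u ∈ N ∧ T w ∈ N

/-- `N` is stable under the permutations of `z_0, ..., z_{n-1}` -/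
def Stb (p n : ℕ) (N : Submodule (ZMod p) (Z p)) : Prop := ∀ T ∈ GA p n, ∀ F ∈ N, T F ∈ N

/-- `F_i = z_i^2 (z_j - z_i) (z_k - z_i)` -/
noncomputable def F4 {p : ℕ} (i j k : ℕ) : Z p := z i ^ 2 * (z j - z i) * (z k - z i)

/-- `2 z_i^4 - 3 z_i^3 (z_j + z_k) + 6 z_i^2 z_j z_k` -/
noncomputable def h4 {p : ℕ} (i j k : ℕ) : Z p :=
  2 * z i ^ 4 - 3 * z i ^ 3 * (z j + z k) + 6 * z i ^ 2 * z j * z k

/-- `∑ z_j^3 (z_{j+1} - z_{j+2})` -/
noncomputable def D4 {p : ℕ} : Z p :=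
  z 0 ^ 3 * (z 1 - z 2) + z 1 ^ 3 * (z 2 - z 0) + z 2 ^ 3 * (z 0 - z 1)

noncomputable def K4 (p : ℕ) : Submodule (ZMod p) (Z p) :=
  Submodule.span (ZMod p) {F4 0 1 2, F4 1 0 2, F4 2 0 1, D4, h4 0 1 2 + h4 1 0 2 + h4 2 0 1}

/-- `z_i (z_j - z_i) (z_k - z_i)` -/
noncomputable def F3 {p : ℕ} (i j k : ℕ) : Z p := z i * (z j - z i) * (z k - z i)

/-- `∑ z_j^2 (z_{j+1} - z_{j+2})` -/
noncomputable def D3 {p : ℕ} : Z p :=
  z 0 ^ 2 * (z 1 - z 2) + z 1 ^ 2 * (z 2 - z 0) + z 2 ^ 2 * (z 0 - z 1)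

noncomputable def K3 (p : ℕ) : Submodule (ZMod p) (Z p) :=
  Submodule.span (ZMod p) {F3 0 1 2, F3 1 0 2, F3 2 0 1, D3}

/-- `z_i^2 (z_j - z_k)` and `z_i^3 (z_j - z_k)`, used for `(i,j,k) = (0,1,2), (1,2,0), (2,0,1)` -/
noncomputable def G3 {p : ℕ} (i j k : ℕ) : Z p := z i ^ 2 * (z j - z k)
noncomputable def G4 {p : ℕ} (i j k : ℕ) : Z p := z i ^ 3 * (z j - z k)

/-- `z_i z_j (z_i - z_j) (z_k - z_i)` -/
noncomputable def E4 {p : ℕ} (i j k : ℕ) : Z p := z i * z j * (z i - z j) * (z k - z i)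

/-- the general element of `Hh p 3 4` -/
noncomputable def E34 {p : ℕ} (a : ℕ → ZMod p) (b : ℕ → ℕ → ZMod p) (g d : ℕ → ZMod p) : Z p :=
  a 0 • z 0 ^ 4 + a 1 • z 1 ^ 4 + a 2 • z 2 ^ 4 +
  b 0 1 • (z 0 ^ 3 * z 1) + b 0 2 • (z 0 ^ 3 * z 2) + b 1 0 • (z 1 ^ 3 * z 0) +
  b 1 2 • (z 1 ^ 3 * z 2) + b 2 0 • (z 2 ^ 3 * z 0) + b 2 1 • (z 2 ^ 3 * z 1) +
  g 0 • (z 1 ^ 2 * z 2 ^ 2) + g 1 • (z 0 ^ 2 * z 2 ^ 2) + g 2 • (z 0 ^ 2 * z 1 ^ 2) +
  d 0 • (z 0 ^ 2 * z 1 * z 2) + d 1 • (z 1 ^ 2 * z 0 * z 2) + d 2 • (z 2 ^ 2 * z 0 * z 1)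

/-- the general element of `Hh p 3 3` -/
noncomputable def E33 {p : ℕ} (a : ℕ → ZMod p) (b : ℕ → ℕ → ZMod p) (c : ZMod p) : Z p :=
  a 0 • z 0 ^ 3 + a 1 • z 1 ^ 3 + a 2 • z 2 ^ 3 +
  b 0 1 • (z 0 ^ 2 * z 1) + b 0 2 • (z 0 ^ 2 * z 2) + b 1 0 • (z 1 ^ 2 * z 0) +
  b 1 2 • (z 1 ^ 2 * z 2) + b 2 0 • (z 2 ^ 2 * z 0) + b 2 1 • (z 2 ^ 2 * z 1) + c • (z 0 * z 1 * z 2)

/-- the general elements of `Hh p 2 4` and `Hh p 2 3` -/
noncomputable def E24 {p : ℕ} (a : ℕ → ZMod p) : Z p :=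
  a 0 • z 1 ^ 4 + a 1 • (z 0 * z 1 ^ 3) + a 2 • (z 0 ^ 2 * z 1 ^ 2) + a 3 • (z 0 ^ 3 * z 1) + a 4 • z 0 ^ 4

noncomputable def E23 {p : ℕ} (a : ℕ → ZMod p) : Z p :=
  a 0 • z 1 ^ 3 + a 1 • (z 0 * z 1 ^ 2) + a 2 • (z 0 ^ 2 * z 1) + a 3 • z 0 ^ 3

/-- twice the element `f_v(a)` for `v = (α, μ)`, `a = (1, -1, 0)` -/
noncomputable def fv {p : ℕ} (α μ : ZMod p) : Z p :=
  (2 * α) • (z 0 ^ 4 - z 1 ^ 4) + (μ - 3 * α - 2 * μ) • (z 0 ^ 3 * z 1 - z 1 ^ 3 * z 0) +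
  (μ - 3 * α) • (z 0 ^ 3 * z 2 - z 1 ^ 3 * z 2) + (2 * μ) • (z 2 ^ 3 * z 0 - z 2 ^ 3 * z 1) +
  (6 * α) • (z 0 ^ 2 * z 1 * z 2 - z 1 ^ 2 * z 0 * z 2)

/-- its restriction, in the variables `z_0, z_1` -/
noncomputable def qv {p : ℕ} (α μ : ZMod p) : Z p :=
  (2 * α) • z 0 ^ 4 + (μ - 3 * α) • (z 0 ^ 3 * z 1) + (2 * μ) • (z 1 ^ 3 * z 0)

/-- `p = 2`: the 4-cycles -/
noncomputable def Y4 : Submodule (ZMod 2) (Z 2) :=
  Submodule.span (ZMod 2) {(z 0 + z 1) * (z 2 + z 3), (z 0 + z 2) * (z 1 + z 3)}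

/-- linear maps that map every T-ideal containing `p P⁺` into itself -/
def TO (p : ℕ) (Φ : P →ₗ[ℤ] P) : Prop := ∀ D, IsT D → Mul p D → ∀ f ∈ D, Φ f ∈ D

/-- the words with the letters `0, ..., n-1`, each occurring `≥ 1` and `≡ 1` modulo `p - 1` times -/
def zw (p n : ℕ) (w : List ℕ) : Prop :=
  (∀ i ∈ w, i < n) ∧ ∀ i < n, 1 ≤ w.count i ∧ (p - 1) ∣ (w.count i - 1)

/-- the exponents of the monomial in `z_0, ..., z_{n-1}` that describes the word `w` -/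
noncomputable def zx (p n : ℕ) (w : List ℕ) : ℕ →₀ ℕ :=
  ∑ i ∈ Finset.range n, Finsupp.single i ((w.count i - 1) / (p - 1))

/-- the image of a polynomial in `𝔽_p[z_0, ..., z_{n-1}]`; words without the property `zw` are omitted -/
noncomputable def zi (p n : ℕ) : P →ₗ[ℤ] Z p :=
  open Classical in lm (fun w => if zw p n w then mo (zx p n w) else 0)

/-- the span of the words `zw p n` -/
noncomputable def ZQ (p n : ℕ) : Submodule ℤ P := Submodule.span ℤ {f | ∃ w, zw p n w ∧ f = mon w}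

/-- the span of the words `zw p n` of length `n + (p-1) k` -/
noncomputable def HQ (p n k : ℕ) : Submodule ℤ P :=
  Submodule.span ℤ {f | ∃ w : List ℕ, zw p n w ∧ w.length = n + (p - 1) * k ∧ f = mon w}

/-- near-commutative T-ideals -/
structure NC (p : ℕ) (I : Submodule ℤ P) : Prop where
  pp : p.Prime
  isT : IsT I
  mul : Mul p I
  nil : ∃ N, NilAt I N
  com : cm 0 1 ∈ I ⊔ Fge (p + 1)

/-- a linear map `Φ` that induces `φ` on the leading forms -/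
structure Opr (p n k n' k' : ℕ) (Φ : P →ₗ[ℤ] P) (φ : Z p →ₗ[ZMod p] Z p) : Prop where
  tO : TO p Φ
  up : ∀ f ∈ Fge (n + (p - 1) * k + 1), Φ f ∈ Fge (n' + (p - 1) * k' + 1)
  val : ∀ w, zw p n w → w.length = n + (p - 1) * k →
    ∃ g ∈ HQ p n' k', Φ (mon w) - g ∈ Fge (n' + (p - 1) * k' + 1) ∧ zi p n' g = φ (mo (zx p n w))

/-- `f ↦ f(x_{g 0}, ..., x_{g (n-1)})` times the missing variables among `x_0, ..., x_{n'-1}` -/
noncomputable def fRen (n n' : ℕ) (g : ℕ → ℕ) : P →ₗ[ℤ] P :=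
  (LinearMap.mulRight ℤ (mon ((List.range n').filter (fun j => decide (∀ i < n, g i ≠ j))))).comp
    (tl (sb (fun i => X (g i))))

/-- `x_i ↦ x_i x_n` -/
noncomputable def fZer (p n i : ℕ) : P →ₗ[ℤ] P :=
  (wp (zw p (n + 1))).comp (tl (sb (fun j => if j = i then X i * X n else X j)))

/-- renaming -/
noncomputable def fIdt (g : ℕ → ℕ) : P →ₗ[ℤ] P := tl (sb (fun i => X (g i)))

/-- `x_i ↦ x_i + x_j`, minus the identity -/
noncomputable def fDd (p n i j : ℕ) : P →ₗ[ℤ] P :=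
  (wp (zw p n)).comp (tl (sb (fun t => if t = i then X i + X j else X t))) - wp (zw p n)

/-- `x_i ↦ x_i + x_n` -/
noncomputable def fXx (p n i : ℕ) : P →ₗ[ℤ] P :=
  (wp (zw p (n + 1))).comp (tl (sb (fun t => if t = i then X i + X n else X t)))

/-- the words in `x_0, x_1, x_2`, numbers of the letters `≡ 1, 1, 0` modulo `p - 1`, `x_2` occurs -/
def w110 (p : ℕ) (w : List ℕ) : Prop :=
  (∀ i ∈ w, i < 3) ∧ w.count 0 % (p - 1) = 1 ∧ w.count 1 % (p - 1) = 1 ∧ w.count 2 % (p - 1) = 0 ∧ 2 ∈ w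

/-- `x_0 ↦ x_0 + x_2`, then `x_1 ↦ x_1 + x_0` minus the identity, then `x_2 ↦ x_1` -/
noncomputable def fVv (p : ℕ) : P →ₗ[ℤ] P :=
  ((tl (sb (fun t => if t = 2 then X 1 else X t))).comp
    ((wp (w110 p)).comp (tl (sb (fun t => if t = 1 then X 1 + X 0 else X t))) - LinearMap.id)).comp
    ((wp (w110 p)).comp (tl (sb (fun t => if t = 0 then X 0 + X 2 else X t))))

/-- the elements of `A` have order exactly `d` modulo `I` -/
def Od (I A : Submodule ℤ P) (d : ℕ) : Prop := A ≤ I ⊔ Fge d ∧ A ⊓ (I ⊔ Fge (d + 1)) ≤ I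

/-- a linked pair with leading terms `f`, `g` -/
structure TP (p : ℕ) (I A B C : Submodule ℤ P) (n k l : ℕ) (a b f g : P) : Prop where
  nc : NC p I
  lk : Lk p I A B C
  ln : Lnk A B C a b
  n1 : 1 ≤ n
  kl : k ≤ l
  na : a ∉ I
  aZ : a ∈ ZQ p n
  bZ : b ∈ ZQ p n
  aA : Ad I n a
  bA : Ad I n b
  hf : f ∈ HQ p n k
  hg : g ∈ HQ p n l
  af : a - f ∈ I ⊔ Fge (n + (p - 1) * k + 1)
  bg : b - g ∈ I ⊔ Fge (n + (p - 1) * l + 1)
  oA : Od I A (n + (p - 1) * k)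
  oB : Od I B (n + (p - 1) * l)
  best : ∀ a' b', Lnk A B C a' b' → ∀ x y : ℤ, ¬ ((p : ℤ) ∣ x ∧ (p : ℤ) ∣ y) →
    x • a' + y • b' ∈ I ⊔ Fge (n + (p - 1) * l + 1) → a' ∈ I

/-- the leading forms of the elements of `I` -/
noncomputable def RR (p : ℕ) (I : Submodule ℤ P) (n k : ℕ) : Submodule (ZMod p) (Z p) :=
  Submodule.span (ZMod p) {F | ∃ f ∈ HQ p n k, f ∈ I ⊔ Fge (n + (p - 1) * k + 1) ∧ F = zi p n f}

end ADQ
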