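import Pool.Agent.ADQ.Defs

/-!
# ADQ: definitions for `p = 2`
-/

namespace ADQ

open AD ADN ADC

/-- the general element of `Hh 2 4 2` -/
noncomputable def E42 (d : ℕ → ZMod 2) (c : ℕ → ℕ → ZMod 2) : Z 2 :=
  d 0 • z 0 ^ 2 + d 1 • z 1 ^ 2 + d 2 • z 2 ^ 2 + d 3 • z 3 ^ 2 +
  c 0 1 • (z 0 * z 1) + c 0 2 • (z 0 * z 2) + c 0 3 • (z 0 * z 3) +
  c 1 2 • (z 1 * z 2) + c 1 3 • (z 1 * z 3) + c 2 3 • (z 2 * z 3)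

/-- the general element of `Hh 2 3 2` -/
noncomputable def E32 (d : ℕ → ZMod 2) (c : ℕ → ℕ → ZMod 2) : Z 2 :=
  d 0 • z 0 ^ 2 + d 1 • z 1 ^ 2 + d 2 • z 2 ^ 2 +
  c 0 1 • (z 0 * z 1) + c 0 2 • (z 0 * z 2) + c 1 2 • (z 1 * z 2)

/-- the complete graph, the matching, the triangle, the star on four vertices -/
noncomputable def gJ : Z 2 := z 0 * z 1 + z 0 * z 2 + z 0 * z 3 + z 1 * z 2 + z 1 * z 3 + z 2 * z 3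
noncomputable def gM : Z 2 := z 0 * z 1 + z 2 * z 3
noncomputable def gT : Z 2 := z 0 * z 1 + z 0 * z 2 + z 1 * z 2
noncomputable def gS : Z 2 := z 0 * z 1 + z 0 * z 2 + z 0 * z 3

/-- the alternatives for `R 4 2` -/
def Alt (N : Submodule (ZMod 2) (Z 2)) : Prop :=
  (gJ ∈ N ∧ N ≤ Submodule.span (ZMod 2) {gJ}) ∨ gM ∈ N ∨ gT ∈ N ∨ gS ∈ N

/-- the coefficient of `z_0^2 z_1^2` -/
noncomputable def c22 : Z 2 →ₗ[ZMod 2] ZMod 2 :=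
  MvPolynomial.lcoeff (ZMod 2) (Finsupp.single 0 2 + Finsupp.single 1 2)

/-- the second possibility for `p = 2` -/
structure PB (R : ℕ → ℕ → Submodule (ZMod 2) (Z 2)) (k l : ℕ) (u w : Z 2) : Prop where
  b1 : ∀ F ∈ R 2 4, c22 F = 0
  b2 : R 2 3 ≤ Submodule.span (ZMod 2) {z 0 ^ 3 + z 1 ^ 3}
  b3 : z 0 ^ 3 + z 1 ^ 3 ∈ R 2 3 → k = 3 ∧ l = 4 ∧ u - z 0 ^ 3 ∈ R 2 3 ∧ w - z 0 ^ 2 * z 1 ^ 2 ∈ R 2 4

end ADQ
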