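import Pool.Agent.ADQ.Defs3
import Pool.Agent.ADP.Near

/-!
# ADQ: definitions for the step from `R` to `I`, `p = 2`
-/

namespace ADQ

open AD ADN ADC

/-- the part of length `n + (p-1) k` -/
noncomputable def pt (p n k : ℕ) : P →ₗ[ℤ] P := wp (fun w => w.length = n + (p - 1) * k)

end ADQ
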