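import Pool.Agent.ADQ.Tool1

/-!
# ADQ-Tool1b: the operators `dd` and `xx`

`dd_pow`: write `G` as a combination of monomials `mo m` with `m i = 0` (`MvPolynomial.supported`, e.g.
`G = ∑ m ∈ G.support, coeff m G • mo m`, `i ∉ G.vars`); `z i ^ a * mo m = mo (single i a + m)`, `(single i a + m).erase i = m`, `lz_mo`.  The special cases follow.
`dd_rn`: both sides are linear, compare on monomials (`lz_ext`, `rn_mo`, `Finsupp.mapDomain` for an equivalence; `(m.mapDomain σ) (σ i) = m i`).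
`xx` in the same way, the binomials `C(a+1, t)` modulo 2 by `decide`.
-/

namespace ADQ

open AD ADN ADC

variable {p : ℕ}

private theorem NV_ind {i : ℕ} {G : Z p} (hG : G ∈ NV i) (A B : Z p →ₗ[ZMod p] Z p)
    (h : ∀ m : ℕ →₀ ℕ, m i = 0 → A (mo m) = B (mo m)) : A G = B G := by
  have hv : (↑G.vars : Set ℕ) ⊆ {i}ᶜ := MvPolynomial.mem_supported.1 hG
  rw [MvPolynomial.as_sum G, map_sum, map_sum]
  refine Finset.sum_congr rfl fun m hm => ?_
  have h0 : m i = 0 := by
    by_contra hne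
    have : i ∈ G.vars := (MvPolynomial.mem_vars_iff_mem_support i).2 ⟨m, hm, Finsupp.mem_support_iff.2 hne⟩
    exact hv this rfl
  have e : (MvPolynomial.monomial m (MvPolynomial.coeff m G) : Z p) = MvPolynomial.coeff m G • mo m := by
    unfold mo
    rw [MvPolynomial.smul_monomial, smul_eq_mul, mul_one]
  rw [e, map_smul, map_smul, h m h0]

private theorem sa_i {i a : ℕ} {m : ℕ →₀ ℕ} (h : m i = 0) : (Finsupp.single i a + m) i = a := by
  rw [Finsupp.add_apply, Finsupp.single_eq_same, h, add_zero]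

private theorem sa_erase {i a : ℕ} {m : ℕ →₀ ℕ} (h : m i = 0) : (Finsupp.single i a + m).erase i = m := by
  ext j
  by_cases hj : j = i
  · subst hj
    rw [Finsupp.erase_same, h]
  · rw [Finsupp.erase_ne hj, Finsupp.add_apply, Finsupp.single_apply, if_neg (fun e => hj e.symm), zero_add]

private theorem zmo (i a : ℕ) (m : ℕ →₀ ℕ) : z i ^ a * (mo m : Z p) = mo (Finsupp.single i a + m) := by
  rw [mo_add, mo_single]

theorem z_NV {i j : ℕ} (h : j ≠ i) : (z j : Z p) ∈ NV i := by
  unfold NV MvPolynomial.supported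
  exact Algebra.subset_adjoin ⟨j, fun e => h e, rfl⟩

theorem dd_NV {i j : ℕ} {G : Z p} (hG : G ∈ NV i) : dd i j G = 0 := by
  have := NV_ind hG (dd i j) 0 (fun m hm => by
    unfold dd
    rw [lz_mo, if_pos hm, LinearMap.zero_apply])
  rw [this, LinearMap.zero_apply]

theorem dd_pow {i j a : ℕ} (ha : 1 ≤ a) {G : Z p} (hG : G ∈ NV i) :
    dd i j (z i ^ a * G) = ((a : ZMod p) - 1) • ((z i - z j) * z j ^ (a - 1) * G) := by
  have := NV_ind hG ((dd i j).comp (LinearMap.mulLeft (ZMod p) (z i ^ a)))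
    (((a : ZMod p) - 1) • LinearMap.mulLeft (ZMod p) ((z i - z j) * z j ^ (a - 1))) (fun m hm => by
    rw [LinearMap.comp_apply, LinearMap.mulLeft_apply, LinearMap.smul_apply, LinearMap.mulLeft_apply, zmo]
    unfold dd
    rw [lz_mo, sa_i hm, sa_erase hm, if_neg (by omega)])
  rwa [LinearMap.comp_apply, LinearMap.mulLeft_apply, LinearMap.smul_apply, LinearMap.mulLeft_apply] at this

theorem dd_one {i j : ℕ} {G : Z p} (hG : G ∈ NV i) : dd i j (z i * G) = 0 := by
  have := dd_pow (i := i) (j := j) (le_refl 1) hG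
  rw [pow_one, Nat.cast_one, sub_self, zero_smul] at this
  exact this

theorem dd_two {i j : ℕ} {G : Z p} (hG : G ∈ NV i) : dd i j (z i ^ 2 * G) = (z i - z j) * z j * G := by
  have := dd_pow (i := i) (j := j) (a := 2) (by norm_num) hG
  have e : ((2 : ℕ) : ZMod p) - 1 = 1 := by push_cast; ring
  rw [e, one_smul] at this
  rw [this, show 2 - 1 = 1 from rfl, pow_one]

theorem dd_three {i j : ℕ} {G : Z p} (hG : G ∈ NV i) :
    dd i j (z i ^ 3 * G) = (2 : ZMod p) • ((z i - z j) * z j ^ 2 * G) := by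
  have := dd_pow (i := i) (j := j) (a := 3) (by norm_num) hG
  have e : ((3 : ℕ) : ZMod p) - 1 = 2 := by push_cast; ring
  rw [e] at this
  exact this

theorem dd_four {i j : ℕ} {G : Z p} (hG : G ∈ NV i) :
    dd i j (z i ^ 4 * G) = (3 : ZMod p) • ((z i - z j) * z j ^ 3 * G) := by
  have := dd_pow (i := i) (j := j) (a := 4) (by norm_num) hG
  have e : ((4 : ℕ) : ZMod p) - 1 = 3 := by push_cast; ring
  rw [e] at this
  exact this

theorem dd_rn (σ : Equiv.Perm ℕ) (i j : ℕ) (F : Z p) : dd (σ i) (σ j) (rn σ F) = rn σ (dd i j F) := by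
  have key : (dd (σ i) (σ j)).comp (rn (p := p) σ).toLinearMap = (rn (p := p) σ).toLinearMap.comp (dd i j) := by
    refine lz_ext fun m => ?_
    rw [LinearMap.comp_apply, LinearMap.comp_apply, AlgHom.toLinearMap_apply, AlgHom.toLinearMap_apply, rn_mo]
    unfold dd
    have h1 : (m.mapDomain σ) (σ i) = m i := Finsupp.mapDomain_apply σ.injective m i
    have h2 : (m.mapDomain σ).erase (σ i) = (m.erase i).mapDomain σ := by
      ext k
      obtain ⟨l, rfl⟩ := σ.surjective k
      rw [Finsupp.mapDomain_apply σ.injective]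
      by_cases hl : l = i
      · subst hl
        rw [Finsupp.erase_same, Finsupp.erase_same]
      · rw [Finsupp.erase_ne (fun e => hl (σ.injective e)), Finsupp.erase_ne hl, Finsupp.mapDomain_apply σ.injective]
    rw [lz_mo, lz_mo, h1, h2]
    by_cases h0 : m i = 0
    · rw [if_pos h0, if_pos h0, map_zero]
    · rw [if_neg h0, if_neg h0, map_smul, map_mul, map_mul, map_sub, map_pow, rn_z, rn_z, rn_mo]
  exact LinearMap.congr_fun key F

private theorem xx_pow {i n a : ℕ} {G : Z 2} (hG : G ∈ NV i) : xx i n (z i ^ a * G) =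
    ∑ t ∈ Finset.Icc 1 a, ((a + 1).choose t : ZMod 2) • (z i ^ (t - 1) * z n ^ (a - t) * G) := by
  have := NV_ind hG ((xx i n).comp (LinearMap.mulLeft (ZMod 2) (z i ^ a)))
    (∑ t ∈ Finset.Icc 1 a, ((a + 1).choose t : ZMod 2) • LinearMap.mulLeft (ZMod 2) (z i ^ (t - 1) * z n ^ (a - t)))
    (fun m hm => by
    rw [LinearMap.comp_apply, LinearMap.mulLeft_apply, LinearMap.sum_apply, zmo]
    unfold xx
    rw [lz_mo, sa_i hm, sa_erase hm]
    rfl)
  rw [LinearMap.comp_apply, LinearMap.mulLeft_apply, LinearMap.sum_apply] at this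
  exact this

theorem xx_NV {i n : ℕ} {G : Z 2} (hG : G ∈ NV i) : xx i n G = 0 := by
  have := xx_pow (i := i) (n := n) (a := 0) hG
  rw [pow_zero, one_mul] at this
  rw [this]
  exact Finset.sum_empty

theorem xx_one {i n : ℕ} {G : Z 2} (hG : G ∈ NV i) : xx i n (z i * G) = 0 := by
  have := xx_pow (i := i) (n := n) (a := 1) hG
  rw [pow_one] at this
  rw [this]
  have e : ((1 + 1 : ℕ).choose 1 : ZMod 2) = 0 := by decide
  rw [Finset.Icc_self, Finset.sum_singleton, e, zero_smul]

theorem xx_two {i n : ℕ} {G : Z 2} (hG : G ∈ NV i) : xx i n (z i ^ 2 * G) = (z i + z n) * G := by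
  rw [xx_pow hG]
  have e : Finset.Icc 1 2 = ({1, 2} : Finset ℕ) := by decide
  have c1 : ((2 + 1 : ℕ).choose 1 : ZMod 2) = 1 := by decide
  have c2 : ((2 + 1 : ℕ).choose 2 : ZMod 2) = 1 := by decide
  rw [e, Finset.sum_insert (by decide), Finset.sum_singleton, c1, c2]
  norm_num
  ring

theorem xx_three {i n : ℕ} {G : Z 2} (hG : G ∈ NV i) : xx i n (z i ^ 3 * G) = 0 := by
  rw [xx_pow hG]
  have e : Finset.Icc 1 3 = ({1, 2, 3} : Finset ℕ) := by decide
  have c1 : ((3 + 1 : ℕ).choose 1 : ZMod 2) = 0 := by decide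
  have c2 : ((3 + 1 : ℕ).choose 2 : ZMod 2) = 0 := by decide
  have c3 : ((3 + 1 : ℕ).choose 3 : ZMod 2) = 0 := by decide
  rw [e, Finset.sum_insert (by decide), Finset.sum_insert (by decide), Finset.sum_singleton, c1, c2, c3,
    zero_smul, zero_smul, zero_smul, add_zero, add_zero]

theorem xx_four {i n : ℕ} {G : Z 2} (hG : G ∈ NV i) : xx i n (z i ^ 4 * G) = (z i ^ 3 + z n ^ 3) * G := by
  rw [xx_pow hG]
  have e : Finset.Icc 1 4 = ({1, 2, 3, 4} : Finset ℕ) := by decide
  have c1 : ((4 + 1 : ℕ).choose 1 : ZMod 2) = 1 := by decide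
  have c2 : ((4 + 1 : ℕ).choose 2 : ZMod 2) = 0 := by decide
  have c3 : ((4 + 1 : ℕ).choose 3 : ZMod 2) = 0 := by decide
  have c4 : ((4 + 1 : ℕ).choose 4 : ZMod 2) = 1 := by decide
  rw [e, Finset.sum_insert (by decide), Finset.sum_insert (by decide), Finset.sum_insert (by decide),
    Finset.sum_singleton, c1, c2, c3, c4, zero_smul, zero_smul]
  norm_num
  ring

end ADQ
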