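import Pool.Agent.ADQ.Defs3
import Pool.Agent.ADQ.Tool1b

/-!
# ADQ-Exp2: general elements of small degree, `p = 2`, and the operators `xx`
-/

namespace ADQ

open AD ADN ADC

private theorem ex2_zero {p n : ℕ} {F : Z p} (hF : F ∈ Hh p n 0) : ∃ c : ZMod p, F = c • (1 : Z p) := by
  unfold Hh at hF
  induction hF using Submodule.span_induction with
  | mem x hx =>
    obtain ⟨m, hm, hk, rfl⟩ := hx
    have h0 : m = 0 := (Finsupp.degree_eq_zero_iff m).mp hk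
    exact ⟨1, by rw [h0, mo_zero, one_smul]⟩
  | zero => exact ⟨0, by rw [zero_smul]⟩
  | add x y _ _ hx hy =>
    obtain ⟨a, rfl⟩ := hx
    obtain ⟨b, rfl⟩ := hy
    exact ⟨a + b, by rw [add_smul]⟩
  | smul c x _ hx =>
    obtain ⟨a, rfl⟩ := hx
    exact ⟨c * a, by rw [mul_smul]⟩

private theorem ex2_one {p n : ℕ} {F : Z p} (hF : F ∈ Hh p n 1) :
    ∃ a : ℕ → ZMod p, F = ∑ i ∈ Finset.range n, a i • z i := by
  have h1 : Hh p n 1 = Submodule.span (ZMod p) {F | ∃ i G, i < n ∧ G ∈ Hh p n 0 ∧ F = z i * G} := Hh_succ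
  rw [h1] at hF
  induction hF using Submodule.span_induction with
  | mem x hx =>
    obtain ⟨i, G, hi, hG, rfl⟩ := hx
    obtain ⟨c, rfl⟩ := ex2_zero hG
    refine ⟨fun j => if j = i then c else 0, ?_⟩
    rw [Finset.sum_eq_single i]
    · show z i * c • (1 : Z p) = (if i = i then c else 0) • z i
      rw [if_pos rfl, mul_smul_comm, mul_one]
    · intro j _ hj
      show (if j = i then c else 0) • (z j : Z p) = 0
      rw [if_neg hj, zero_smul]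
    · intro h
      exact absurd (Finset.mem_range.mpr hi) h
  | zero => exact ⟨fun _ => 0, by simp⟩
  | add x y _ _ hx hy =>
    obtain ⟨a, rfl⟩ := hx
    obtain ⟨b, rfl⟩ := hy
    exact ⟨fun i => a i + b i, by rw [← Finset.sum_add_distrib]; exact Finset.sum_congr rfl fun i _ => (add_smul _ _ _).symm⟩
  | smul c x _ hx =>
    obtain ⟨a, rfl⟩ := hx
    exact ⟨fun i => c * a i, by rw [Finset.smul_sum]; exact Finset.sum_congr rfl fun i _ => (mul_smul _ _ _).symm⟩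

private theorem ex2_pow {i j : ℕ} (h : j ≠ i) (k : ℕ) : (z j ^ k : Z 2) ∈ NV i := pow_mem (z_NV h) k

private theorem ex2_one_NV (i : ℕ) : (1 : Z 2) ∈ NV i := one_mem _

private theorem x2_0 {i n : ℕ} {j k : ℕ} (h : j ≠ i) : xx i n (z j ^ k) = 0 := xx_NV (ex2_pow h k)

private theorem x2_00 {i n : ℕ} {j k : ℕ} (h : j ≠ i) (h' : k ≠ i) : xx i n (z j * z k) = 0 :=
  xx_NV (mul_mem (z_NV h) (z_NV h'))

private theorem x2_01 {i n : ℕ} {j : ℕ} (h : j ≠ i) : xx i n (z i * z j) = 0 := xx_one (z_NV h)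

private theorem x2_10 {i n : ℕ} {j : ℕ} (h : j ≠ i) : xx i n (z j * z i) = 0 := by
  rw [mul_comm]
  exact xx_one (z_NV h)

private theorem x2_sq {i n : ℕ} : xx i n (z i ^ 2) = z i + z n := by
  have h := xx_two (n := n) (ex2_one_NV i)
  rw [mul_one, mul_one] at h
  exact h

private theorem x2_cb {i n : ℕ} : xx i n (z i ^ 3) = 0 := by
  have h := xx_three (n := n) (ex2_one_NV i)
  rw [mul_one] at h
  exact h

private theorem x2_fo {i n : ℕ} : xx i n (z i ^ 4) = z i ^ 3 + z n ^ 3 := by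
  have h := xx_four (n := n) (ex2_one_NV i)
  rw [mul_one, mul_one] at h
  exact h

private theorem x2_pp {i n : ℕ} {j k a b : ℕ} (h : j ≠ i) (h' : k ≠ i) : xx i n (z j ^ a * z k ^ b) = 0 :=
  xx_NV (mul_mem (ex2_pow h a) (ex2_pow h' b))

private theorem x2_pq {i n : ℕ} {j k a : ℕ} (h : j ≠ i) (h' : k ≠ i) : xx i n (z j ^ a * z k) = 0 :=
  xx_NV (mul_mem (ex2_pow h a) (z_NV h'))

private theorem x2_21 {i n : ℕ} {j : ℕ} (h : j ≠ i) : xx i n (z i ^ 2 * z j) = (z i + z n) * z j := xx_two (z_NV h)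

private theorem x2_31 {i n : ℕ} {j : ℕ} (h : j ≠ i) : xx i n (z i ^ 3 * z j) = 0 := xx_three (z_NV h)

private theorem x2_22 {i n : ℕ} {j k : ℕ} (h : j ≠ i) : xx i n (z i ^ 2 * z j ^ k) = (z i + z n) * z j ^ k :=
  xx_two (ex2_pow h k)

private theorem x2_1k {i n : ℕ} {j k : ℕ} (h : j ≠ i) : xx i n (z i * z j ^ k) = 0 := xx_one (ex2_pow h k)

private theorem x2_k1 {i n : ℕ} {j k : ℕ} (h : j ≠ i) : xx i n (z j ^ k * z i) = 0 := by
  rw [mul_comm]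
  exact xx_one (ex2_pow h k)

private theorem x2_k2 {i n : ℕ} {j k : ℕ} (h : j ≠ i) : xx i n (z j ^ k * z i ^ 2) = (z i + z n) * z j ^ k := by
  rw [mul_comm]
  exact xx_two (ex2_pow h k)

private theorem x2_j2 {i n : ℕ} {j : ℕ} (h : j ≠ i) : xx i n (z j * z i ^ 2) = (z i + z n) * z j := by
  rw [mul_comm]
  exact xx_two (z_NV h)

private theorem x2_j3 {i n : ℕ} {j : ℕ} (h : j ≠ i) : xx i n (z j * z i ^ 3) = 0 := by
  rw [mul_comm]
  exact xx_three (z_NV h)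

private theorem x2_111 {i n : ℕ} {j k : ℕ} (h : j ≠ i) (h' : k ≠ i) : xx i n (z i * z j * z k) = 0 := by
  rw [mul_assoc]
  exact xx_one (mul_mem (z_NV h) (z_NV h'))

private theorem ex2_coeff (i j a b : ℕ) :
    MvPolynomial.coeff (Finsupp.single 0 a + Finsupp.single 1 b) (z 0 ^ i * z 1 ^ j : Z 2) =
      if i = a ∧ j = b then 1 else 0 := by
  rw [← mo_single, ← mo_single, ← mo_add]
  unfold mo
  rw [MvPolynomial.coeff_monomial]
  by_cases h : i = a ∧ j = b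
  · rw [if_pos h, if_pos (by rw [h.1, h.2])]
  · rw [if_neg h, if_neg]
    intro e
    apply h
    have e0 := congrArg (fun m : ℕ →₀ ℕ => m 0) e
    have e1 := congrArg (fun m : ℕ →₀ ℕ => m 1) e
    simp only [Finsupp.add_apply, Finsupp.single_apply] at e0 e1
    simp at e0 e1
    exact ⟨e0, e1⟩

private theorem ex2_c22 (i j : ℕ) : c22 (z 0 ^ i * z 1 ^ j) = if i = 2 ∧ j = 2 then 1 else 0 :=
  ex2_coeff i j 2 2

theorem exp42 {F : Z 2} (hF : F ∈ Hh 2 4 2) : ∃ d c, F = E42 d c := by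
  have h1 : Hh 2 4 2 = Submodule.span (ZMod 2) {F | ∃ i G, i < 4 ∧ G ∈ Hh 2 4 1 ∧ F = z i * G} := Hh_succ
  rw [h1] at hF
  induction hF using Submodule.span_induction with
  | mem x hx =>
    obtain ⟨i, G, hi, hG, rfl⟩ := hx
    obtain ⟨a, rfl⟩ := ex2_one hG
    refine ⟨fun j => if j = i then a i else 0, fun s t => if s = i then a t else if t = i then a s else 0, ?_⟩
    unfold E42
    simp only [Finset.sum_range_succ, Finset.sum_range_zero, zero_add]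
    interval_cases i <;> simp [MvPolynomial.smul_eq_C_mul] <;> ring
  | zero => exact ⟨fun _ => 0, fun _ _ => 0, by unfold E42; simp⟩
  | add x y _ _ hx hy =>
    obtain ⟨d, c, rfl⟩ := hx
    obtain ⟨d', c', rfl⟩ := hy
    refine ⟨fun i => d i + d' i, fun i j => c i j + c' i j, ?_⟩
    unfold E42
    simp only [add_smul]
    ring
  | smul r x _ hx =>
    obtain ⟨d, c, rfl⟩ := hx
    refine ⟨fun i => r * d i, fun i j => r * c i j, ?_⟩
    unfold E42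
    simp only [smul_add, mul_smul]

theorem exp32 {F : Z 2} (hF : F ∈ Hh 2 3 2) : ∃ d c, F = E32 d c := by
  have h1 : Hh 2 3 2 = Submodule.span (ZMod 2) {F | ∃ i G, i < 3 ∧ G ∈ Hh 2 3 1 ∧ F = z i * G} := Hh_succ
  rw [h1] at hF
  induction hF using Submodule.span_induction with
  | mem x hx =>
    obtain ⟨i, G, hi, hG, rfl⟩ := hx
    obtain ⟨a, rfl⟩ := ex2_one hG
    refine ⟨fun j => if j = i then a i else 0, fun s t => if s = i then a t else if t = i then a s else 0, ?_⟩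
    unfold E32
    simp only [Finset.sum_range_succ, Finset.sum_range_zero, zero_add]
    interval_cases i <;> simp [MvPolynomial.smul_eq_C_mul] <;> ring
  | zero => exact ⟨fun _ => 0, fun _ _ => 0, by unfold E32; simp⟩
  | add x y _ _ hx hy =>
    obtain ⟨d, c, rfl⟩ := hx
    obtain ⟨d', c', rfl⟩ := hy
    refine ⟨fun i => d i + d' i, fun i j => c i j + c' i j, ?_⟩
    unfold E32
    simp only [add_smul]
    ring
  | smul r x _ hx =>
    obtain ⟨d, c, rfl⟩ := hx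
    refine ⟨fun i => r * d i, fun i j => r * c i j, ?_⟩
    unfold E32
    simp only [smul_add, mul_smul]

theorem xx_E42 (d : ℕ → ZMod 2) (c : ℕ → ℕ → ZMod 2) : xx 0 4 (E42 d c) = d 0 • (z 0 + z 4) ∧
    xx 1 4 (E42 d c) = d 1 • (z 1 + z 4) ∧ xx 2 4 (E42 d c) = d 2 • (z 2 + z 4) ∧
    xx 3 4 (E42 d c) = d 3 • (z 3 + z 4) := by
  unfold E42
  refine ⟨?_, ?_, ?_, ?_⟩ <;> simp [x2_0, x2_00, x2_01, x2_10, x2_sq, x2_cb, x2_fo, x2_pp, x2_pq, x2_21, x2_31, x2_22, x2_1k, x2_k1, x2_k2, x2_j2, x2_j3, x2_111]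

theorem xx_E32 (d : ℕ → ZMod 2) (c : ℕ → ℕ → ZMod 2) : xx 0 3 (E32 d c) = d 0 • (z 0 + z 3) ∧
    xx 1 3 (E32 d c) = d 1 • (z 1 + z 3) ∧ xx 2 3 (E32 d c) = d 2 • (z 2 + z 3) := by
  unfold E32
  refine ⟨?_, ?_, ?_⟩ <;> simp [x2_0, x2_00, x2_01, x2_10, x2_sq, x2_cb, x2_fo, x2_pp, x2_pq, x2_21, x2_31, x2_22, x2_1k, x2_k1, x2_k2, x2_j2, x2_j3, x2_111]

theorem xx_E33 (a : ℕ → ZMod 2) (b : ℕ → ℕ → ZMod 2) (c : ZMod 2) :
    xx 0 3 (E33 a b c) = (z 0 + z 3) * (b 0 1 • z 1 + b 0 2 • z 2) ∧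
    xx 1 3 (E33 a b c) = (z 1 + z 3) * (b 1 0 • z 0 + b 1 2 • z 2) ∧
    xx 2 3 (E33 a b c) = (z 2 + z 3) * (b 2 0 • z 0 + b 2 1 • z 1) := by
  have e1 : (z 0 * z 1 * z 2 : Z 2) = z 1 * z 0 * z 2 := by ring
  have e2 : (z 0 * z 1 * z 2 : Z 2) = z 2 * z 0 * z 1 := by ring
  unfold E33
  refine ⟨?_, ?_, ?_⟩
  · simp [x2_0, x2_00, x2_01, x2_10, x2_sq, x2_cb, x2_fo, x2_pp, x2_pq, x2_21, x2_31, x2_22, x2_1k, x2_k1, x2_k2, x2_j2, x2_j3, x2_111]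
    simp only [MvPolynomial.smul_eq_C_mul]
    ring
  · rw [e1]
    simp [x2_0, x2_00, x2_01, x2_10, x2_sq, x2_cb, x2_fo, x2_pp, x2_pq, x2_21, x2_31, x2_22, x2_1k, x2_k1, x2_k2, x2_j2, x2_j3, x2_111]
    simp only [MvPolynomial.smul_eq_C_mul]
    ring
  · rw [e2]
    simp [x2_0, x2_00, x2_01, x2_10, x2_sq, x2_cb, x2_fo, x2_pp, x2_pq, x2_21, x2_31, x2_22, x2_1k, x2_k1, x2_k2, x2_j2, x2_j3, x2_111]
    simp only [MvPolynomial.smul_eq_C_mul]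
    ring

theorem xx_E23 (a : ℕ → ZMod 2) : xx 0 2 (E23 a) = a 2 • ((z 0 + z 2) * z 1) ∧
    xx 1 2 (E23 a) = a 1 • ((z 1 + z 2) * z 0) := by
  unfold E23
  refine ⟨?_, ?_⟩ <;> simp [x2_0, x2_00, x2_01, x2_10, x2_sq, x2_cb, x2_fo, x2_pp, x2_pq, x2_21, x2_31, x2_22, x2_1k, x2_k1, x2_k2, x2_j2, x2_j3, x2_111]

theorem xx_E24 (a : ℕ → ZMod 2) :
    xx 0 2 (E24 a) = a 4 • (z 0 ^ 3 + z 2 ^ 3) + a 2 • ((z 0 + z 2) * z 1 ^ 2) ∧
    xx 1 2 (E24 a) = a 0 • (z 1 ^ 3 + z 2 ^ 3) + a 2 • ((z 1 + z 2) * z 0 ^ 2) := by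
  unfold E24
  refine ⟨?_, ?_⟩
  · simp [x2_0, x2_00, x2_01, x2_10, x2_sq, x2_cb, x2_fo, x2_pp, x2_pq, x2_21, x2_31, x2_22, x2_1k, x2_k1, x2_k2, x2_j2, x2_j3, x2_111]
    ring
  · simp [x2_0, x2_00, x2_01, x2_10, x2_sq, x2_cb, x2_fo, x2_pp, x2_pq, x2_21, x2_31, x2_22, x2_1k, x2_k1, x2_k2, x2_j2, x2_j3, x2_111]

theorem c22_E24 (a : ℕ → ZMod 2) : c22 (E24 a) = a 2 := by
  have e : E24 a = a 0 • (z 0 ^ 0 * z 1 ^ 4) + a 1 • (z 0 ^ 1 * z 1 ^ 3) + a 2 • (z 0 ^ 2 * z 1 ^ 2) +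
      a 3 • (z 0 ^ 3 * z 1 ^ 1) + a 4 • (z 0 ^ 4 * z 1 ^ 0) := by
    unfold E24
    rw [pow_zero, pow_zero, pow_one, pow_one, one_mul, mul_one]
  rw [e]
  simp only [map_add, map_smul, ex2_c22]
  simp

theorem c22_zE23 (a : ℕ → ZMod 2) : c22 (z 0 * E23 a) = a 1 ∧ c22 (z 1 * E23 a) = a 2 := by
  have e : z 0 * E23 a = a 0 • (z 0 ^ 1 * z 1 ^ 3) + a 1 • (z 0 ^ 2 * z 1 ^ 2) + a 2 • (z 0 ^ 3 * z 1 ^ 1) +
      a 3 • (z 0 ^ 4 * z 1 ^ 0) := by
    unfold E23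
    simp only [MvPolynomial.smul_eq_C_mul]
    ring
  have e' : z 1 * E23 a = a 0 • (z 0 ^ 0 * z 1 ^ 4) + a 1 • (z 0 ^ 1 * z 1 ^ 3) + a 2 • (z 0 ^ 2 * z 1 ^ 2) +
      a 3 • (z 0 ^ 3 * z 1 ^ 1) := by
    unfold E23
    simp only [MvPolynomial.smul_eq_C_mul]
    ring
  rw [e, e']
  constructor
  · simp only [map_add, map_smul, ex2_c22]
    simp
  · simp only [map_add, map_smul, ex2_c22]
    simp

end ADQ
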