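import Pool.Agent.ADQ.Tool2b
import Pool.Agent.ADQ.Tool2c
import Pool.Agent.ADQ.ExpD
import Pool.Agent.ADQ.ExpR

/-!
# ADQ-FvAB

`fvA`: by `rn_E34` (a permutation moves the nonzero `g` to index 1) we may assume `g 1 ≠ 0`.  `dd01_E34`: `Y = (z_0 - z_1) z_1 (A z_1^2 + B z_1 z_2 + g_1 z_2^2) ∈ R 3 4`.  `dd 2 1 Y = g_1 (z_2 - z_1) z_1 (z_0 - z_1) z_1 = g_1 F4 1 0 2`
and `dd 2 0 Y = g_1 (z_2 - z_0) z_0 (z_0 - z_1) z_1 = g_1 E4 0 1 2` (the other terms of `Y` have degree `≤ 1` in `z_2`).  So all `F4 i j k`, `E4 i j k` are in `R 3 4` (`ren`), and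
`fv 3 1 = 6 F4 0 1 2 - 6 F4 1 0 2 + 4 E4 0 1 2 + 2 E4 0 2 1 - 4 E4 1 0 2 - 2 E4 1 2 0 - 2 E4 2 0 1 + 2 E4 2 1 0` (`ring` after unfolding; checked by computer).  The theorem `fvA'` records the elements for later use.
`fvB`: by symmetry `s_0 ≠ 0`; `dd 0 1 F = (z_0 - z_1) z_1^2 (A z_1 + B z_2) ∈ R`, `A + B = s_0`; minus its image under the transposition `(0 2)`: `(A + B) z_1^3 (z_0 - z_2) ∈ R 3 4`.  So all `G4 ∈ R 3 4`, and `fv 0 1 = - G4 0 1 2 - G4 1 2 0 + 2 G4 2 0 1`.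
`fvB'`: put `q = z_0 z_1 z_2^2 - z_0 z_2^3`, `c = z_1 z_2^3 - z_2^4`.  `dd 1 2` of `Y = (z_0 - z_1) z_1^2 (A z_1 + B z_2)` is `(z_1 - z_2) z_2^2 ((2A+B) z_0 - (3A+2B) z_2)`, modulo the `G4`: `(2A+B) q - (3A+2B) c ∈ R`; the image of `Y` under
`0 → 1 → 2 → 0` is `(z_1 - z_2) z_2^2 (A z_2 + B z_0)`: `A c + B q ∈ R`; the determinant `(2A+B) A + (3A+2B) B = 2 (A+B)^2 ≠ 0`: `c ∈ R`, i.e. `(z_0 - z_1) z_1^3 ∈ R`.
-/

namespace ADQ

open AD ADN ADC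

variable {p : ℕ} [Fact p.Prime] {R : ℕ → ℕ → Submodule (ZMod p) (Z p)}

private theorem fab_lt (σ : Equiv.Perm ℕ) (hσ : ∀ i, 3 ≤ i → σ i = i) {i : ℕ} (hi : i < 3) : σ i < 3 := by
  by_contra hc
  have h1 := hσ (σ i) (by omega)
  have h2 := σ.injective h1
  omega

private theorem fab_lt' (σ : Equiv.Perm ℕ) (hσ : ∀ i, 3 ≤ i → σ i = i) {i : ℕ} (hi : i < 3) : σ.symm i < 3 := by
  by_contra hc
  have h1 := hσ (σ.symm i) (by omega)
  rw [Equiv.apply_symm_apply] at h1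
  omega

private theorem fab_rn (h : MS3 p R) (σ : Equiv.Perm ℕ) (hσ : ∀ i, 3 ≤ i → σ i = i) {F : Z p} (hF : F ∈ R 3 4) :
    rn σ F ∈ R 3 4 :=
  h.ren 3 3 4 σ (by omega) (fun i hi => fab_lt σ hσ hi) (fun i _ j _ e => σ.injective e) F hF

private theorem fab_dd (h : MS3 p R) (σ : Equiv.Perm ℕ) (hσ : ∀ i, 3 ≤ i → σ i = i) {y : Z p}
    (hd : ∀ i < 3, ∀ j < 3, i ≠ j → dd i j y ∈ R 3 4) : ∀ i < 3, ∀ j < 3, i ≠ j → dd i j (rn σ y) ∈ R 3 4 := by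
  intro i hi j hj hij
  have h1 := dd_rn σ (σ.symm i) (σ.symm j) y
  rw [Equiv.apply_symm_apply, Equiv.apply_symm_apply] at h1
  rw [h1]
  exact fab_rn h σ hσ (hd _ (fab_lt' σ hσ hi) _ (fab_lt' σ hσ hj) (fun e => hij (σ.symm.injective e)))

/-- renaming by a map that permutes `0, 1, 2` -/
private theorem fab_ren (h : MS3 p R) (g : ℕ → ℕ) (h0 : g 0 < 3) (h1 : g 1 < 3) (h2 : g 2 < 3)
    (h01 : g 0 ≠ g 1) (h02 : g 0 ≠ g 2) (h12 : g 1 ≠ g 2) {F : Z p} (hF : F ∈ R 3 4) : rn g F ∈ R 3 4 := by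
  refine h.ren 3 3 4 g (by omega) (fun i hi => ?_) (fun i hi j hj e => ?_) F hF
  · interval_cases i <;> assumption
  · interval_cases i <;> interval_cases j <;> first | rfl | exact absurd e (by assumption) | exact absurd e.symm (by assumption)

/-- the map `0 ↦ i`, `1 ↦ j`, `2 ↦ k` -/
private def fabg (i j k t : ℕ) : ℕ := if t = 0 then i else if t = 1 then j else k

private theorem fab_g (h : MS3 p R) {i j k : ℕ} (hi : i < 3) (hj : j < 3) (hk : k < 3) (hij : i ≠ j) (hik : i ≠ k)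
    (hjk : j ≠ k) {F : Z p} (hF : F ∈ R 3 4) : rn (fabg i j k) F ∈ R 3 4 :=
  fab_ren h (fabg i j k) hi hj hk hij hik hjk hF

private theorem fab_A (h : MS3 p R) {y : Z p} {a : ℕ → ZMod p} {b : ℕ → ℕ → ZMod p}
    {g d : ℕ → ZMod p} (hy : y = E34 a b g d) (hd : ∀ i < 3, ∀ j < 3, i ≠ j → dd i j y ∈ R 3 4)
    (hg : g 1 ≠ 0) : F4 1 0 2 ∈ R 3 4 ∧ E4 0 1 2 ∈ R 3 4 := by
  have hY := hd 0 (by omega) 1 (by omega) (by omega)
  rw [hy, dd01_E34] at hY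
  have e : ((z 0 - z 1) * z 1 * ((3 * a 0 + 2 * b 0 1 + g 2) • z 1 ^ 2 + (2 * b 0 2 + d 0) • (z 1 * z 2) +
      g 1 • z 2 ^ 2) : Z p) = z 2 ^ 2 * (g 1 • ((z 0 - z 1) * z 1)) +
      z 2 * ((2 * b 0 2 + d 0) • ((z 0 - z 1) * z 1 ^ 2)) +
      (3 * a 0 + 2 * b 0 1 + g 2) • ((z 0 - z 1) * z 1 ^ 3) := by
    simp only [MvPolynomial.smul_eq_C_mul]
    ring
  rw [e] at hY
  have n0 : (z 0 : Z p) ∈ NV 2 := z_NV (by omega)
  have n1 : (z 1 : Z p) ∈ NV 2 := z_NV (by omega)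
  have m1 : (g 1 • ((z 0 - z 1) * z 1) : Z p) ∈ NV 2 :=
    Subalgebra.smul_mem _ (mul_mem (sub_mem n0 n1) n1) _
  have m2 : ((2 * b 0 2 + d 0) • ((z 0 - z 1) * z 1 ^ 2) : Z p) ∈ NV 2 :=
    Subalgebra.smul_mem _ (mul_mem (sub_mem n0 n1) (pow_mem n1 2)) _
  have m3 : ((3 * a 0 + 2 * b 0 1 + g 2) • ((z 0 - z 1) * z 1 ^ 3) : Z p) ∈ NV 2 :=
    Subalgebra.smul_mem _ (mul_mem (sub_mem n0 n1) (pow_mem n1 3)) _
  have k1 := h.dd 3 4 2 1 (by omega) (by omega) (by omega) (by omega) _ hY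
  have k0 := h.dd 3 4 2 0 (by omega) (by omega) (by omega) (by omega) _ hY
  rw [map_add, map_add, dd_two m1, dd_one m2, dd_NV m3] at k1 k0
  refine ⟨?_, ?_⟩
  · have e1 : (F4 1 0 2 : Z p) = (g 1)⁻¹ • ((z 2 - z 1) * z 1 * (g 1 • ((z 0 - z 1) * z 1)) + 0 + 0) := by
      rw [mul_smul_comm, add_zero, add_zero, smul_smul, inv_mul_cancel₀ hg, one_smul, F4]
      ring
    rw [e1]
    exact Submodule.smul_mem _ _ k1
  · have e1 : (E4 0 1 2 : Z p) = (g 1)⁻¹ • ((z 2 - z 0) * z 0 * (g 1 • ((z 0 - z 1) * z 1)) + 0 + 0) := by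
      rw [mul_smul_comm, add_zero, add_zero, smul_smul, inv_mul_cancel₀ hg, one_smul, E4]
      ring
    rw [e1]
    exact Submodule.smul_mem _ _ k0

private theorem fab_swap (i j : ℕ) (hi : i < 3) (hj : j < 3) (t : ℕ) (ht : 3 ≤ t) : Equiv.swap i j t = t :=
  Equiv.swap_apply_of_ne_of_ne (by omega) (by omega)

/-- the elements of `R 3 4` that exist if some `z_i^2 z_j^2` occurs -/
theorem fvA' (h : MS3 p R) {y : Z p} {a : ℕ → ZMod p} {b : ℕ → ℕ → ZMod p}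
    {g d : ℕ → ZMod p} (hy : y = E34 a b g d) (hd : ∀ i < 3, ∀ j < 3, i ≠ j → dd i j y ∈ R 3 4)
    (hg : g 0 ≠ 0 ∨ g 1 ≠ 0 ∨ g 2 ≠ 0) : (∀ i < 3, ∀ j < 3, ∀ k < 3, i ≠ j → i ≠ k → j ≠ k →
      (F4 i j k ∈ R 3 4 ∧ E4 i j k ∈ R 3 4 ∧ z i * z j * (z i - z j) ^ 2 ∈ R 3 4)) := by
  have key : F4 1 0 2 ∈ R 3 4 ∧ E4 0 1 2 ∈ R 3 4 := by
    rcases hg with hg | hg | hg
    · have hs := fab_swap 0 1 (by omega) (by omega)
      refine fab_A h (y := rn (Equiv.swap 0 1) y) (a := fun i => a ((Equiv.swap 0 1).symm i))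
        (b := fun i j => b ((Equiv.swap 0 1).symm i) ((Equiv.swap 0 1).symm j))
        (g := fun i => g ((Equiv.swap 0 1).symm i)) (d := fun i => d ((Equiv.swap 0 1).symm i))
        ?_ (fab_dd h (Equiv.swap 0 1) hs hd) ?_
      · rw [hy]; exact rn_E34 _ hs a b g d
      · simpa using hg
    · exact fab_A h hy hd hg
    · have hs := fab_swap 1 2 (by omega) (by omega)
      refine fab_A h (y := rn (Equiv.swap 1 2) y) (a := fun i => a ((Equiv.swap 1 2).symm i))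
        (b := fun i j => b ((Equiv.swap 1 2).symm i) ((Equiv.swap 1 2).symm j))
        (g := fun i => g ((Equiv.swap 1 2).symm i)) (d := fun i => d ((Equiv.swap 1 2).symm i))
        ?_ (fab_dd h (Equiv.swap 1 2) hs hd) ?_
      · rw [hy]; exact rn_E34 _ hs a b g d
      · simpa using hg
  intro i hi j hj k hk hij hik hjk
  have kE : ∀ i < 3, ∀ j < 3, ∀ k < 3, i ≠ j → i ≠ k → j ≠ k → (E4 i j k : Z p) ∈ R 3 4 := by
    intro i hi j hj k hk hij hik hjk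
    have k1 := fab_g h hi hj hk hij hik hjk key.2
    have e : rn (fabg i j k) (E4 0 1 2 : Z p) = E4 i j k := by
      simp only [E4, map_mul, map_sub, rn_z, fabg, if_true, one_ne_zero, if_false, OfNat.ofNat_ne_zero, OfNat.ofNat_ne_one]
    rw [← e]
    exact k1
  refine ⟨?_, kE i hi j hj k hk hij hik hjk, ?_⟩
  · have k1 := fab_g h hj hi hk (Ne.symm hij) hjk hik key.1
    have e : rn (fabg j i k) (F4 1 0 2 : Z p) = F4 i j k := by
      simp only [F4, map_mul, map_sub, map_pow, rn_z, fabg, if_true, one_ne_zero, if_false, OfNat.ofNat_ne_zero, OfNat.ofNat_ne_one]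
    rw [← e]
    exact k1
  · have e : (z i * z j * (z i - z j) ^ 2 : Z p) = - (E4 i j k + E4 j i k) := by
      simp only [E4]; ring
    rw [e]
    exact Submodule.neg_mem _ (Submodule.add_mem _ (kE i hi j hj k hk hij hik hjk) (kE j hj i hi k hk (Ne.symm hij) hjk hik))

theorem fvA (h : MS3 p R) {a : ℕ → ZMod p} {b : ℕ → ℕ → ZMod p} {g d : ℕ → ZMod p}
    (hF : E34 a b g d ∈ R 3 4) (hg : g 0 ≠ 0 ∨ g 1 ≠ 0 ∨ g 2 ≠ 0) : fv 3 1 ∈ R 3 4 := by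
  have k := fvA' h rfl (fun i hi j hj hij => h.dd 3 4 i j (by omega) hi hj hij _ hF) hg
  have F0 := (k 0 (by omega) 1 (by omega) 2 (by omega) (by omega) (by omega) (by omega)).1
  have F1 := (k 1 (by omega) 0 (by omega) 2 (by omega) (by omega) (by omega) (by omega)).1
  have E012 := (k 0 (by omega) 1 (by omega) 2 (by omega) (by omega) (by omega) (by omega)).2.1
  have E021 := (k 0 (by omega) 2 (by omega) 1 (by omega) (by omega) (by omega) (by omega)).2.1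
  have E102 := (k 1 (by omega) 0 (by omega) 2 (by omega) (by omega) (by omega) (by omega)).2.1
  have E120 := (k 1 (by omega) 2 (by omega) 0 (by omega) (by omega) (by omega) (by omega)).2.1
  have E201 := (k 2 (by omega) 0 (by omega) 1 (by omega) (by omega) (by omega) (by omega)).2.1
  have E210 := (k 2 (by omega) 1 (by omega) 0 (by omega) (by omega) (by omega) (by omega)).2.1
  have e : (fv 3 1 : Z p) = (6 : ZMod p) • F4 0 1 2 - (6 : ZMod p) • F4 1 0 2 + (4 : ZMod p) • E4 0 1 2 +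
      (2 : ZMod p) • E4 0 2 1 - (4 : ZMod p) • E4 1 0 2 - (2 : ZMod p) • E4 1 2 0 - (2 : ZMod p) • E4 2 0 1 +
      (2 : ZMod p) • E4 2 1 0 := by
    simp only [fv, F4, E4, MvPolynomial.smul_eq_C_mul, map_sub, map_mul, map_ofNat, map_one]
    ring
  rw [e]
  exact Submodule.add_mem _ (Submodule.sub_mem _ (Submodule.sub_mem _ (Submodule.sub_mem _ (Submodule.add_mem _
    (Submodule.add_mem _ (Submodule.sub_mem _ (Submodule.smul_mem _ _ F0) (Submodule.smul_mem _ _ F1))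
    (Submodule.smul_mem _ _ E012)) (Submodule.smul_mem _ _ E021)) (Submodule.smul_mem _ _ E102))
    (Submodule.smul_mem _ _ E120)) (Submodule.smul_mem _ _ E201)) (Submodule.smul_mem _ _ E210)

/-- the element `(z_0 - z_1) z_1^2 (A z_1 + B z_2)` with `A + B ≠ 0` -/
private theorem fab_B1 {y : Z p} {a : ℕ → ZMod p} {b : ℕ → ℕ → ZMod p}
    {d : ℕ → ZMod p} (hy : y = E34 a b 0 d) (hd : ∀ i < 3, ∀ j < 3, i ≠ j → dd i j y ∈ R 3 4)
    (hs : 3 * a 0 + 2 * b 0 1 + 2 * b 0 2 + d 0 ≠ 0) :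
    ∃ A B : ZMod p, A + B ≠ 0 ∧ (z 0 - z 1) * z 1 ^ 2 * (A • z 1 + B • z 2) ∈ R 3 4 := by
  refine ⟨3 * a 0 + 2 * b 0 1, 2 * b 0 2 + d 0, ?_, ?_⟩
  · intro e
    apply hs
    rw [← e]
    ring
  · have hY := hd 0 (by omega) 1 (by omega) (by omega)
    rw [hy, dd01_E34] at hY
    have e : ((z 0 - z 1) * z 1 ^ 2 * ((3 * a 0 + 2 * b 0 1) • z 1 + (2 * b 0 2 + d 0) • z 2) : Z p) =
        (z 0 - z 1) * z 1 * ((3 * a 0 + 2 * b 0 1 + (0 : ℕ → ZMod p) 2) • z 1 ^ 2 +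
        (2 * b 0 2 + d 0) • (z 1 * z 2) + (0 : ℕ → ZMod p) 1 • z 2 ^ 2) := by
      simp only [MvPolynomial.smul_eq_C_mul, Pi.zero_apply, map_add, map_zero]
      ring
    rw [e]
    exact hY

private theorem fab_B (h : MS3 p R) {y : Z p} {a : ℕ → ZMod p} {b : ℕ → ℕ → ZMod p}
    {d : ℕ → ZMod p} (hy : y = E34 a b 0 d) (hd : ∀ i < 3, ∀ j < 3, i ≠ j → dd i j y ∈ R 3 4)
    (hs : 3 * a 0 + 2 * b 0 1 + 2 * b 0 2 + d 0 ≠ 0 ∨ 3 * a 1 + 2 * b 1 0 + 2 * b 1 2 + d 1 ≠ 0 ∨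
      3 * a 2 + 2 * b 2 0 + 2 * b 2 1 + d 2 ≠ 0) :
    ∃ A B : ZMod p, A + B ≠ 0 ∧ (z 0 - z 1) * z 1 ^ 2 * (A • z 1 + B • z 2) ∈ R 3 4 := by
  rcases hs with hs | hs | hs
  · exact fab_B1 hy hd hs
  · have hσ := fab_swap 0 1 (by omega) (by omega)
    refine fab_B1 (y := rn (Equiv.swap 0 1) y) (a := fun i => a ((Equiv.swap 0 1).symm i))
      (b := fun i j => b ((Equiv.swap 0 1).symm i) ((Equiv.swap 0 1).symm j))
      (d := fun i => d ((Equiv.swap 0 1).symm i)) ?_ (fab_dd h (Equiv.swap 0 1) hσ hd) ?_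
    · rw [hy]; exact rn_E34 _ hσ a b 0 d
    · have h2 : Equiv.swap 0 1 2 = 2 := Equiv.swap_apply_of_ne_of_ne (by omega) (by omega)
      simpa [h2] using hs
  · have hσ := fab_swap 0 2 (by omega) (by omega)
    refine fab_B1 (y := rn (Equiv.swap 0 2) y) (a := fun i => a ((Equiv.swap 0 2).symm i))
      (b := fun i j => b ((Equiv.swap 0 2).symm i) ((Equiv.swap 0 2).symm j))
      (d := fun i => d ((Equiv.swap 0 2).symm i)) ?_ (fab_dd h (Equiv.swap 0 2) hσ hd) ?_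
    · rw [hy]; exact rn_E34 _ hσ a b 0 d
    · have h2 : Equiv.swap 0 2 1 = 1 := Equiv.swap_apply_of_ne_of_ne (by omega) (by omega)
      have h3 : 3 * a 2 + 2 * b 2 1 + 2 * b 2 0 + d 2 ≠ 0 := by
        intro e
        apply hs
        rw [← e]
        ring
      simpa [h2] using h3

theorem fvB (h : MS3 p R) {y : Z p} {a : ℕ → ZMod p} {b : ℕ → ℕ → ZMod p}
    {d : ℕ → ZMod p} (hy : y = E34 a b 0 d) (hd : ∀ i < 3, ∀ j < 3, i ≠ j → dd i j y ∈ R 3 4)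
    (hs : 3 * a 0 + 2 * b 0 1 + 2 * b 0 2 + d 0 ≠ 0 ∨ 3 * a 1 + 2 * b 1 0 + 2 * b 1 2 + d 1 ≠ 0 ∨
      3 * a 2 + 2 * b 2 0 + 2 * b 2 1 + d 2 ≠ 0) :
    G4 0 1 2 ∈ R 3 4 ∧ G4 1 2 0 ∈ R 3 4 ∧ G4 2 0 1 ∈ R 3 4 ∧ fv 0 1 ∈ R 3 4 := by
  obtain ⟨A, B, hAB, hY⟩ := fab_B h hy hd hs
  have hY' := fab_g h (i := 2) (j := 1) (k := 0) (by omega) (by omega) (by omega) (by omega) (by omega) (by omega) hY
  have e : rn (fabg 2 1 0) ((z 0 - z 1) * z 1 ^ 2 * (A • z 1 + B • z 2) : Z p) =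
      (z 2 - z 1) * z 1 ^ 2 * (A • z 1 + B • z 0) := by
    simp only [map_mul, map_sub, map_pow, map_add, map_smul, rn_z, fabg, if_true, one_ne_zero, if_false,
      OfNat.ofNat_ne_zero, OfNat.ofNat_ne_one]
  rw [e] at hY'
  have hG : (z 1 ^ 3 * (z 0 - z 2) : Z p) ∈ R 3 4 := by
    have e2 : (z 1 ^ 3 * (z 0 - z 2) : Z p) = (A + B)⁻¹ • ((z 0 - z 1) * z 1 ^ 2 * (A • z 1 + B • z 2) -
        (z 2 - z 1) * z 1 ^ 2 * (A • z 1 + B • z 0)) := by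
      have e3 : ((z 0 - z 1) * z 1 ^ 2 * (A • z 1 + B • z 2) - (z 2 - z 1) * z 1 ^ 2 * (A • z 1 + B • z 0) : Z p) =
          (A + B) • (z 1 ^ 3 * (z 0 - z 2)) := by
        simp only [MvPolynomial.smul_eq_C_mul, map_add]
        ring
      rw [e3, smul_smul, inv_mul_cancel₀ hAB, one_smul]
    rw [e2]
    exact Submodule.smul_mem _ _ (Submodule.sub_mem _ hY hY')
  have g0 : (G4 0 1 2 : Z p) ∈ R 3 4 := by
    have k := fab_g h (i := 1) (j := 0) (k := 2) (by omega) (by omega) (by omega) (by omega) (by omega) (by omega) hG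
    simpa only [G4, map_mul, map_sub, map_pow, rn_z, fabg, if_true, one_ne_zero, if_false,
      OfNat.ofNat_ne_zero, OfNat.ofNat_ne_one] using k
  have g1 : (G4 1 2 0 : Z p) ∈ R 3 4 := by
    have k := fab_g h (i := 2) (j := 1) (k := 0) (by omega) (by omega) (by omega) (by omega) (by omega) (by omega) hG
    simpa only [G4, map_mul, map_sub, map_pow, rn_z, fabg, if_true, one_ne_zero, if_false,
      OfNat.ofNat_ne_zero, OfNat.ofNat_ne_one] using k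
  have g2 : (G4 2 0 1 : Z p) ∈ R 3 4 := by
    have k := fab_g h (i := 0) (j := 2) (k := 1) (by omega) (by omega) (by omega) (by omega) (by omega) (by omega) hG
    simpa only [G4, map_mul, map_sub, map_pow, rn_z, fabg, if_true, one_ne_zero, if_false,
      OfNat.ofNat_ne_zero, OfNat.ofNat_ne_one] using k
  refine ⟨g0, g1, g2, ?_⟩
  have e4 : (fv 0 1 : Z p) = - G4 0 1 2 - G4 1 2 0 + (2 : ZMod p) • G4 2 0 1 := by
    simp only [fv, G4, MvPolynomial.smul_eq_C_mul, map_sub, map_mul, map_ofNat, map_one, map_zero]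
    ring
  rw [e4]
  exact Submodule.add_mem _ (Submodule.sub_mem _ (Submodule.neg_mem _ g0) g1) (Submodule.smul_mem _ _ g2)

theorem fvB' (h3 : 3 ≤ p) (h : MS3 p R) {y : Z p} {a : ℕ → ZMod p} {b : ℕ → ℕ → ZMod p}
    {d : ℕ → ZMod p} (hy : y = E34 a b 0 d) (hd : ∀ i < 3, ∀ j < 3, i ≠ j → dd i j y ∈ R 3 4)
    (hs : 3 * a 0 + 2 * b 0 1 + 2 * b 0 2 + d 0 ≠ 0 ∨ 3 * a 1 + 2 * b 1 0 + 2 * b 1 2 + d 1 ≠ 0 ∨
      3 * a 2 + 2 * b 2 0 + 2 * b 2 1 + d 2 ≠ 0) : (z 0 - z 1) * z 1 ^ 3 ∈ R 3 4 := by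
  obtain ⟨A, B, hAB, hY⟩ := fab_B h hy hd hs
  have h2 : (2 : ZMod p) ≠ 0 := by
    intro e
    have e1 : ((2 : ℕ) : ZMod p) = 0 := by exact_mod_cast e
    rw [ZMod.natCast_eq_zero_iff] at e1
    have := Nat.le_of_dvd (by omega) e1
    omega
  have n0 : (z 0 : Z p) ∈ NV 1 := z_NV (by omega)
  have n2 : (z 2 : Z p) ∈ NV 1 := z_NV (by omega)
  have hY' := fab_g h (i := 1) (j := 2) (k := 0) (by omega) (by omega) (by omega) (by omega) (by omega) (by omega) hY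
  have e : rn (fabg 1 2 0) ((z 0 - z 1) * z 1 ^ 2 * (A • z 1 + B • z 2) : Z p) =
      (z 1 - z 2) * z 2 ^ 2 * (A • z 2 + B • z 0) := by
    simp only [map_mul, map_sub, map_pow, map_add, map_smul, rn_z, fabg, if_true, one_ne_zero, if_false,
      OfNat.ofNat_ne_zero, OfNat.ofNat_ne_one]
  rw [e] at hY'
  have e1 : ((z 0 - z 1) * z 1 ^ 2 * (A • z 1 + B • z 2) : Z p) = z 1 ^ 4 * ((-A) • 1) +
      z 1 ^ 3 * (A • z 0 - B • z 2) + z 1 ^ 2 * (B • (z 0 * z 2)) := by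
    simp only [MvPolynomial.smul_eq_C_mul, map_neg]
    ring
  rw [e1] at hY
  have k := h.dd 3 4 1 2 (by omega) (by omega) (by omega) (by omega) _ hY
  have m1 : ((-A) • 1 : Z p) ∈ NV 1 := Subalgebra.smul_mem _ (one_mem _) _
  have m2 : (A • z 0 - B • z 2 : Z p) ∈ NV 1 :=
    sub_mem (Subalgebra.smul_mem _ n0 _) (Subalgebra.smul_mem _ n2 _)
  have m3 : (B • (z 0 * z 2) : Z p) ∈ NV 1 := Subalgebra.smul_mem _ (mul_mem n0 n2) _
  rw [map_add, map_add, dd_four m1, dd_three m2, dd_two m3] at k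
  have hc : ((z 1 - z 2) * z 2 ^ 3 : Z p) ∈ R 3 4 := by
    have e3 : (B • ((3 : ZMod p) • ((z 1 - z 2) * z 2 ^ 3 * ((-A) • 1)) +
        (2 : ZMod p) • ((z 1 - z 2) * z 2 ^ 2 * (A • z 0 - B • z 2)) + (z 1 - z 2) * z 2 * (B • (z 0 * z 2))) -
        (2 * A + B) • ((z 1 - z 2) * z 2 ^ 2 * (A • z 2 + B • z 0)) : Z p) =
        (- (2 * (A + B) ^ 2)) • ((z 1 - z 2) * z 2 ^ 3) := by
      simp only [MvPolynomial.smul_eq_C_mul, map_neg, map_mul, map_add, map_pow, map_ofNat]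
      ring
    have hn : (- (2 * (A + B) ^ 2)) ≠ 0 := neg_ne_zero.2 (mul_ne_zero h2 (pow_ne_zero _ hAB))
    have e4 : ((z 1 - z 2) * z 2 ^ 3 : Z p) = (- (2 * (A + B) ^ 2))⁻¹ • ((- (2 * (A + B) ^ 2)) •
        ((z 1 - z 2) * z 2 ^ 3)) := by
      rw [smul_smul, inv_mul_cancel₀ hn, one_smul]
    rw [e4, ← e3]
    exact Submodule.smul_mem _ _ (Submodule.sub_mem _ (Submodule.smul_mem _ _ k) (Submodule.smul_mem _ _ hY'))
  have k2 := fab_g h (i := 2) (j := 0) (k := 1) (by omega) (by omega) (by omega) (by omega) (by omega) (by omega) hc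
  simpa only [map_mul, map_sub, map_pow, rn_z, fabg, if_true, one_ne_zero, if_false,
      OfNat.ofNat_ne_zero, OfNat.ofNat_ne_one] using k2

end ADQ
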