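import Pool.Agent.ADQ.FvAB

/-!
# ADQ-FvC

`y = E34 a b 0 d`, `s_j = 3 a_j + 2 b_ji + 2 b_jk + d_j = 0` for `j = 0, 1, 2`.  `fvC1`: `dd01_E34`: `dd 0 1 y = A_01 (z_0 - z_1) z_1^2 (z_1 - z_2) = - A_01 F4 1 0 2`, `A_ij = 3 a_i + 2 b_ij` (`2 b_02 + d_0 = - A_01`), in general `dd i j y = - A_ij F_j ∈ R 3 4`.
If some `A_ij ≠ 0` then all `F4 ∈ R 3 4`; put `φ_j = (3 a_j - d_j)/2`, `α_j = (d_j - a_j)/2`, `κ_j = (b_{j,j+1} - b_{j,j+2})/2` (indices modulo 3); then `y = ∑ φ_j F_j + ∑ (α_j/2) h_j + ∑ κ_j G_j` where `h_j = h4 j _ _`, `G_0 = G4 0 1 2`, `G_1 = G4 1 2 0`, `G_2 = G4 2 0 1`.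
If all `A_ij = 0`: `b_ij = - (3/2) a_i`, `d_i = 3 a_i`, `y = ∑ (a_i/2) h_i`.  In the statement the coefficient `α_j` is that of `h_j` (so `α_j/2` here).
`fvC`: `y ∈ R 3 4`, `y' = ∑ α_j h_j + ∑ κ_j G_j ∈ R 3 4`, and not (all `α_j` equal and all `κ_j` equal), otherwise `y ∈ K4 p` [`y - y'` is a combination of the `F4 i j k`, see the statement of `fvC1`].  `y' - c y'`, `c` the 3-cycle `z_j ↦ z_{j+1}`: coefficients `α'_j = α_j - α_{j-1}`,
`κ'_j = κ_j - κ_{j-1}`, sums 0, not all zero.  Minus its image under `(0 1)` [`h_0 ↔ h_1`, `G_0 ↦ - G_1`, `G_1 ↦ - G_0`, `G_2 ↦ - G_2`]: `(α'_0 - α'_1) (h_0 - h_1) + (κ'_0 + κ'_1)(G_0 + G_1) + 2 κ'_2 G_2 = fv (α'_0 - α'_1) κ'_2`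
[`fv α μ = α (h_0 - h_1) + μ (- G_0 - G_1 + 2 G_2)`, `κ'_0 + κ'_1 = - κ'_2`].  In the same way with `(1 2)`, `(2 0)`: rotated copies of `fv (α'_1 - α'_2) κ'_0`, `fv (α'_2 - α'_0) κ'_1`, which are in `R 3 4` iff `fv` itself is (`ren`).  Not all of these pairs are 0: `κ' = 0` and `α'_0 = α'_1 = α'_2`, sum 0, `3 ≠ 0` would give all 0.
-/

namespace ADQ

open AD ADN ADC

variable {p : ℕ} [Fact p.Prime] {R : ℕ → ℕ → Submodule (ZMod p) (Z p)}

/-- the permutations of `0, 1, 2` -/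
private theorem fvc_perm {i j k : ℕ} (hi : i < 3) (hj : j < 3) (hk : k < 3) (hij : i ≠ j) (hik : i ≠ k) (hjk : j ≠ k) :
    ∃ σ : Equiv.Perm ℕ, (∀ t, 3 ≤ t → σ t = t) ∧ σ 0 = i ∧ σ 1 = j ∧ σ 2 = k := by
  have sw : ∀ x y : ℕ, x < 3 → y < 3 → ∀ t, 3 ≤ t → Equiv.swap x y t = t := by
    intro x y hx hy t ht
    exact Equiv.swap_apply_of_ne_of_ne (by omega) (by omega)
  interval_cases i <;> interval_cases j <;> interval_cases k <;> first
    | exact absurd rfl hij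
    | exact absurd rfl hik
    | exact absurd rfl hjk
    | exact ⟨1, fun t _ => rfl, rfl, rfl, rfl⟩
    | exact ⟨Equiv.swap 1 2, sw 1 2 (by norm_num) (by norm_num), by decide, by decide, by decide⟩
    | exact ⟨Equiv.swap 0 1, sw 0 1 (by norm_num) (by norm_num), by decide, by decide, by decide⟩
    | exact ⟨Equiv.swap 0 2, sw 0 2 (by norm_num) (by norm_num), by decide, by decide, by decide⟩
    | exact ⟨Equiv.swap 0 1 * Equiv.swap 1 2, fun t ht => by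
        rw [Equiv.Perm.mul_apply, sw 1 2 (by norm_num) (by norm_num) t ht, sw 0 1 (by norm_num) (by norm_num) t ht],
        by decide, by decide, by decide⟩
    | exact ⟨Equiv.swap 1 2 * Equiv.swap 0 1, fun t ht => by
        rw [Equiv.Perm.mul_apply, sw 0 1 (by norm_num) (by norm_num) t ht, sw 1 2 (by norm_num) (by norm_num) t ht],
        by decide, by decide, by decide⟩

private theorem fvc_ren (h : MS3 p R) (σ : Equiv.Perm ℕ) (hσ : ∀ t, 3 ≤ t → σ t = t) {F : Z p} (hF : F ∈ R 3 4) :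
    rn σ F ∈ R 3 4 := by
  refine h.ren 3 3 4 σ (by norm_num) ?_ (fun i _ j _ e => σ.injective e) F hF
  intro i hi
  by_contra hn
  have h1 := hσ (σ i) (by omega)
  have h2 := σ.injective h1
  omega

private theorem fvc_F4 (σ : Equiv.Perm ℕ) (i j k : ℕ) : rn σ (F4 i j k : Z p) = F4 (σ i) (σ j) (σ k) := by
  unfold F4
  rw [map_mul, map_mul, map_sub, map_sub, map_pow, rn_z, rn_z, rn_z]

private theorem fvc_allF (h : MS3 p R) {i j k : ℕ} (hi : i < 3) (hj : j < 3) (hk : k < 3) (hij : i ≠ j) (hik : i ≠ k)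
    (hjk : j ≠ k) (hF : F4 i j k ∈ R 3 4) {i' j' k' : ℕ} (hi' : i' < 3) (hj' : j' < 3) (hk' : k' < 3)
    (hij' : i' ≠ j') (hik' : i' ≠ k') (hjk' : j' ≠ k') : F4 i' j' k' ∈ R 3 4 := by
  obtain ⟨σ, s3, s0, s1, s2⟩ := fvc_perm hi hj hk hij hik hjk
  obtain ⟨τ, t3, t0, t1, t2⟩ := fvc_perm hi' hj' hk' hij' hik' hjk'
  have e0 : σ.symm i = 0 := by rw [Equiv.symm_apply_eq, s0]
  have e1 : σ.symm j = 1 := by rw [Equiv.symm_apply_eq, s1]
  have e2 : σ.symm k = 2 := by rw [Equiv.symm_apply_eq, s2]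
  have h1 := fvc_ren h σ.symm (fun t ht => by rw [Equiv.symm_apply_eq, s3 t ht]) hF
  rw [fvc_F4, e0, e1, e2] at h1
  have h2 := fvc_ren h τ t3 h1
  rw [fvc_F4, t0, t1, t2] at h2
  exact h2

/-- the action of `dd i j` -/
private theorem fvc_dd {y : Z p} {a : ℕ → ZMod p} {b : ℕ → ℕ → ZMod p} {d : ℕ → ZMod p} (hy : y = E34 a b 0 d)
    {i j k : ℕ} (hi : i < 3) (hj : j < 3) (hk : k < 3) (hij : i ≠ j) (hik : i ≠ k) (hjk : j ≠ k)
    (hs : 3 * a i + 2 * b i j + 2 * b i k + d i = 0) :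
    dd i j y = (-(3 * a i + 2 * b i j)) • F4 j i k := by
  obtain ⟨σ, s3, s0, s1, s2⟩ := fvc_perm hi hj hk hij hik hjk
  have h1 : rn σ.symm y = E34 (fun i => a (σ i)) (fun i j => b (σ i) (σ j)) 0 (fun i => d (σ i)) := by
    rw [hy, rn_E34 σ.symm (fun t ht => by rw [Equiv.symm_apply_eq, s3 t ht])]
    rfl
  have h2 := dd_rn σ 0 1 (rn σ.symm y)
  rw [rn_rn] at h2
  have h3 : (⇑σ ∘ ⇑σ.symm : ℕ → ℕ) = id := by
    funext t
    exact σ.apply_symm_apply t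
  rw [h3, rn_id, s0, s1, h1, dd01_E34] at h2
  rw [h2, map_mul, map_mul, map_sub, map_add, map_add, map_smul, map_smul, map_smul, map_pow, map_mul, map_pow,
    rn_z, rn_z, rn_z, s0, s1, s2]
  have e : 2 * b i k + d i = -(3 * a i + 2 * b i j) := by linear_combination hs
  rw [e]
  unfold F4
  simp only [MvPolynomial.smul_eq_C_mul, Pi.zero_apply, map_zero, zero_mul, add_zero, map_neg, map_add, map_mul]
  ring

theorem fvC1 (h3 : 3 ≤ p) (h : MS3 p R) {y : Z p} {a : ℕ → ZMod p} {b : ℕ → ℕ → ZMod p}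
    {d : ℕ → ZMod p} (hy : y = E34 a b 0 d) (hd : ∀ i < 3, ∀ j < 3, i ≠ j → dd i j y ∈ R 3 4)
    (h0 : 3 * a 0 + 2 * b 0 1 + 2 * b 0 2 + d 0 = 0) (h1 : 3 * a 1 + 2 * b 1 0 + 2 * b 1 2 + d 1 = 0)
    (h2 : 3 * a 2 + 2 * b 2 0 + 2 * b 2 1 + d 2 = 0) : ∃ (φ α κ : ℕ → ZMod p),
    y = (φ 0 • F4 0 1 2 + φ 1 • F4 1 0 2 + φ 2 • F4 2 0 1) + (α 0 • h4 0 1 2 + α 1 • h4 1 0 2 + α 2 • h4 2 0 1) +
      (κ 0 • G4 0 1 2 + κ 1 • G4 1 2 0 + κ 2 • G4 2 0 1) ∧
    φ 0 • F4 0 1 2 ∈ R 3 4 ∧ φ 1 • F4 1 0 2 ∈ R 3 4 ∧ φ 2 • F4 2 0 1 ∈ R 3 4 := by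
  have h2' : (2 : ZMod p) ≠ 0 := by
    intro hz
    have h4 : ((2 : ℕ) : ZMod p) = 0 := by exact_mod_cast hz
    rw [ZMod.natCast_eq_zero_iff] at h4
    have := Nat.le_of_dvd (by norm_num) h4
    omega
  have h4' : (4 : ZMod p) ≠ 0 := by
    have e : (4 : ZMod p) = 2 * 2 := by norm_num
    rw [e]
    exact mul_ne_zero h2' h2'
  obtain ⟨c, hc⟩ : ∃ c : ℕ → ZMod p, ∀ j, 4 * c j = d j - a j :=
    ⟨fun j => (d j - a j) / 4, fun j => mul_div_cancel₀ _ h4'⟩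
  have pz : ∀ j, 3 * a j - d j = 0 → (a j - 2 * c j) = 0 := by
    intro j hj
    have h5 : 2 * (a j - 2 * c j) = 0 := by linear_combination hj - hc j
    exact (mul_eq_zero.1 h5).resolve_left h2'
  obtain ⟨κ, k0, k1, k2⟩ : ∃ κ : ℕ → ZMod p, 2 * κ 0 = b 0 1 - b 0 2 ∧ 2 * κ 1 = b 1 2 - b 1 0 ∧
      2 * κ 2 = b 2 0 - b 2 1 := by
    refine ⟨fun j => if j = 0 then (b 0 1 - b 0 2) / 2 else if j = 1 then (b 1 2 - b 1 0) / 2 else
      (b 2 0 - b 2 1) / 2, ?_, ?_, ?_⟩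
    · exact mul_div_cancel₀ _ h2'
    · exact mul_div_cancel₀ _ h2'
    · exact mul_div_cancel₀ _ h2'
  have mem : ∀ i j k, i < 3 → j < 3 → k < 3 → i ≠ j → i ≠ k → j ≠ k → (a i - 2 * c i) • F4 i j k ∈ R 3 4 := by
    intro i j k hi hj hk hij hik hjk
    by_cases hA : ∃ i' j' k', i' < 3 ∧ j' < 3 ∧ k' < 3 ∧ i' ≠ j' ∧ i' ≠ k' ∧ j' ≠ k' ∧
        3 * a i' + 2 * b i' j' ≠ 0
    · obtain ⟨i', j', k', hi', hj', hk', hij', hik', hjk', hne⟩ := hA
      have hs : 3 * a i' + 2 * b i' j' + 2 * b i' k' + d i' = 0 := by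
        interval_cases i' <;> interval_cases j' <;> interval_cases k' <;> first
          | exact absurd rfl hij'
          | exact absurd rfl hik'
          | exact absurd rfl hjk'
          | exact h0
          | exact h1
          | exact h2
          | linear_combination h0
          | linear_combination h1
          | linear_combination h2
      have h5 := hd i' hi' j' hj' hij'
      rw [fvc_dd hy hi' hj' hk' hij' hik' hjk' hs] at h5
      have h6 : F4 j' i' k' ∈ R 3 4 := by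
        have h7 := (R 3 4).smul_mem (-(3 * a i' + 2 * b i' j'))⁻¹ h5
        rwa [smul_smul, inv_mul_cancel₀ (neg_ne_zero.2 hne), one_smul] at h7
      exact (R 3 4).smul_mem _ (fvc_allF h hj' hi' hk' (Ne.symm hij') hjk' hik' h6 hi hj hk hij hik hjk)
    · push Not at hA
      have e1 := hA i j k hi hj hk hij hik hjk
      have e2 := hA i k j hi hk hj hik hij (Ne.symm hjk)
      have hs : 3 * a i + 2 * b i j + 2 * b i k + d i = 0 := by
        interval_cases i <;> interval_cases j <;> interval_cases k <;> first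
          | exact absurd rfl hij
          | exact absurd rfl hik
          | exact absurd rfl hjk
          | exact h0
          | exact h1
          | exact h2
          | linear_combination h0
          | linear_combination h1
          | linear_combination h2
      rw [pz i (by linear_combination e1 + e2 - hs), zero_smul]
      exact (R 3 4).zero_mem
  refine ⟨fun j => a j - 2 * c j, c, κ, ?_, mem 0 1 2 (by norm_num) (by norm_num) (by norm_num) (by norm_num)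
    (by norm_num) (by norm_num), mem 1 0 2 (by norm_num) (by norm_num) (by norm_num) (by norm_num)
    (by norm_num) (by norm_num), mem 2 0 1 (by norm_num) (by norm_num) (by norm_num) (by norm_num)
    (by norm_num) (by norm_num)⟩
  have d0 : d 0 = a 0 + 4 * c 0 := by linear_combination -(hc 0)
  have d1 : d 1 = a 1 + 4 * c 1 := by linear_combination -(hc 1)
  have d2 : d 2 = a 2 + 4 * c 2 := by linear_combination -(hc 2)
  have half : ∀ x y : ZMod p, 2 * x = 2 * y → x = y := fun x y e => mul_left_cancel₀ h2' e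
  have b01 : b 0 1 = -(a 0 - 2 * c 0) - 3 * c 0 + κ 0 := by
    apply half; apply half; linear_combination h0 - d0 - 2 * k0
  have b02 : b 0 2 = -(a 0 - 2 * c 0) - 3 * c 0 - κ 0 := by
    apply half; apply half; linear_combination h0 - d0 + 2 * k0
  have b12 : b 1 2 = -(a 1 - 2 * c 1) - 3 * c 1 + κ 1 := by
    apply half; apply half; linear_combination h1 - d1 - 2 * k1
  have b10 : b 1 0 = -(a 1 - 2 * c 1) - 3 * c 1 - κ 1 := by
    apply half; apply half; linear_combination h1 - d1 + 2 * k1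
  have b20 : b 2 0 = -(a 2 - 2 * c 2) - 3 * c 2 + κ 2 := by
    apply half; apply half; linear_combination h2 - d2 - 2 * k2
  have b21 : b 2 1 = -(a 2 - 2 * c 2) - 3 * c 2 - κ 2 := by
    apply half; apply half; linear_combination h2 - d2 + 2 * k2
  rw [hy]
  unfold E34 F4 h4 G4
  rw [b01, b02, b10, b12, b20, b21, d0, d1, d2]
  simp only [MvPolynomial.smul_eq_C_mul, Pi.zero_apply, map_zero, zero_mul, add_zero, map_neg, map_add, map_mul,
    map_sub, map_ofNat]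
  ring


private noncomputable def fvE (a0 a1 a2 k0 k1 k2 : ZMod p) : Z p :=
  (a0 • h4 0 1 2 + a1 • h4 1 0 2 + a2 • h4 2 0 1) + (k0 • G4 0 1 2 + k1 • G4 1 2 0 + k2 • G4 2 0 1)

private theorem fvc_rot (h : MS3 p R) {a0 a1 a2 k0 k1 k2 : ZMod p} (hE : fvE a0 a1 a2 k0 k1 k2 ∈ R 3 4) :
    fvE a2 a0 a1 k2 k0 k1 ∈ R 3 4 := by
  obtain ⟨σ, s3, s0, s1, s2⟩ := fvc_perm (i := 1) (j := 2) (k := 0) (by norm_num) (by norm_num) (by norm_num)
    (by norm_num) (by norm_num) (by norm_num)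
  have h1 := fvc_ren h σ s3 hE
  have e : rn σ (fvE a0 a1 a2 k0 k1 k2 : Z p) = fvE a2 a0 a1 k2 k0 k1 := by
    unfold fvE h4 G4
    simp only [map_add, map_smul, map_mul, map_sub, map_pow, rn_z, s0, s1, s2, map_ofNat]
    simp only [MvPolynomial.smul_eq_C_mul]
    ring
  rwa [e] at h1

private theorem fvc_fv (h : MS3 p R) {a0 a1 a2 k0 k1 k2 : ZMod p} (hE : fvE a0 a1 a2 k0 k1 k2 ∈ R 3 4) :
    fv ((a0 - a2) - (a1 - a0)) (k2 - k1) ∈ R 3 4 := by
  have h1 := (R 3 4).sub_mem hE (fvc_rot h hE)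
  obtain ⟨σ, s3, s0, s1, s2⟩ := fvc_perm (i := 1) (j := 0) (k := 2) (by norm_num) (by norm_num) (by norm_num)
    (by norm_num) (by norm_num) (by norm_num)
  have h2 := (R 3 4).sub_mem h1 (fvc_ren h σ s3 h1)
  have e : (fvE a0 a1 a2 k0 k1 k2 - fvE a2 a0 a1 k2 k0 k1 -
      rn σ (fvE a0 a1 a2 k0 k1 k2 - fvE a2 a0 a1 k2 k0 k1) : Z p) =
      fv ((a0 - a2) - (a1 - a0)) (k2 - k1) := by
    unfold fvE h4 G4 fv
    simp only [map_add, map_smul, map_mul, map_sub, map_pow, rn_z, s0, s1, s2, map_ofNat]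
    simp only [MvPolynomial.smul_eq_C_mul, map_add, map_mul, map_sub, map_ofNat]
    ring
  rwa [e] at h2

theorem fvC (h5 : 5 ≤ p) (h : MS3 p R) {y : Z p} {a : ℕ → ZMod p} {b : ℕ → ℕ → ZMod p}
    {d : ℕ → ZMod p} (hy : y = E34 a b 0 d) (hR : y ∈ R 3 4) (hK : y ∉ K4 p)
    (h0 : 3 * a 0 + 2 * b 0 1 + 2 * b 0 2 + d 0 = 0) (h1 : 3 * a 1 + 2 * b 1 0 + 2 * b 1 2 + d 1 = 0)
    (h2 : 3 * a 2 + 2 * b 2 0 + 2 * b 2 1 + d 2 = 0) :
    ∃ α μ : ZMod p, ¬ (α = 0 ∧ μ = 0) ∧ fv α μ ∈ R 3 4 := by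
  have hn : ∀ q : ℕ, 1 ≤ q → q < 5 → ((q : ℕ) : ZMod p) ≠ 0 := by
    intro q hq1 hq2 hz
    rw [ZMod.natCast_eq_zero_iff] at hz
    have := Nat.le_of_dvd (by omega) hz
    omega
  have h3' : (3 : ZMod p) ≠ 0 := by
    have := hn 3 (by norm_num) (by norm_num)
    exact_mod_cast this
  obtain ⟨φ, α, κ, hyy, f0, f1, f2⟩ := fvC1 (by omega) h hy
    (fun i hi j hj hij => h.dd 3 4 i j le_rfl hi hj hij y hR) h0 h1 h2
  have hE : fvE (α 0) (α 1) (α 2) (κ 0) (κ 1) (κ 2) ∈ R 3 4 := by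
    have e : (fvE (α 0) (α 1) (α 2) (κ 0) (κ 1) (κ 2) : Z p) =
        y - (φ 0 • F4 0 1 2 + φ 1 • F4 1 0 2 + φ 2 • F4 2 0 1) := by
      rw [hyy]
      unfold fvE
      abel
    rw [e]
    exact (R 3 4).sub_mem hR ((R 3 4).add_mem ((R 3 4).add_mem f0 f1) f2)
  have hE1 := fvc_rot h hE
  have hE2 := fvc_rot h hE1
  have g0 := fvc_fv h hE
  have g1 := fvc_fv h hE1
  have g2 := fvc_fv h hE2
  by_contra hcon
  push Not at hcon
  have n0 : (α 0 - α 2) - (α 1 - α 0) = 0 ∧ κ 2 - κ 1 = 0 := by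
    by_contra hc
    exact hcon _ _ (by tauto) g0
  have n1 : (α 2 - α 1) - (α 0 - α 2) = 0 ∧ κ 1 - κ 0 = 0 := by
    by_contra hc
    exact hcon _ _ (by tauto) g1
  have a02 : α 2 = α 0 := by
    have e : 3 * (α 2 - α 0) = 0 := by linear_combination n1.1 - n0.1
    exact sub_eq_zero.1 ((mul_eq_zero.1 e).resolve_left h3')
  have a01 : α 1 = α 0 := by linear_combination -n0.1 - a02
  have k1 : κ 1 = κ 0 := by linear_combination n1.2
  have k2 : κ 2 = κ 0 := by linear_combination n0.2 + k1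
  apply hK
  rw [hyy, a01, a02, k1, k2]
  unfold K4
  have m : ∀ x ∈ ({F4 0 1 2, F4 1 0 2, F4 2 0 1, D4, h4 0 1 2 + h4 1 0 2 + h4 2 0 1} : Set (Z p)), ∀ c : ZMod p,
      c • x ∈ Submodule.span (ZMod p) ({F4 0 1 2, F4 1 0 2, F4 2 0 1, D4, h4 0 1 2 + h4 1 0 2 + h4 2 0 1} : Set (Z p)) :=
    fun x hx c => Submodule.smul_mem _ _ (Submodule.subset_span hx)
  have e : (κ 0 • G4 0 1 2 + κ 0 • G4 1 2 0 + κ 0 • G4 2 0 1 : Z p) = κ 0 • D4 := by
    unfold G4 D4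
    rw [← smul_add, ← smul_add]
  have e' : (α 0 • h4 0 1 2 + α 0 • h4 1 0 2 + α 0 • h4 2 0 1 : Z p) = α 0 • (h4 0 1 2 + h4 1 0 2 + h4 2 0 1) := by
    rw [← smul_add, ← smul_add]
  rw [e, e']
  exact Submodule.add_mem _ (Submodule.add_mem _ (Submodule.add_mem _ (Submodule.add_mem _ (m _ (by simp) _)
    (m _ (by simp) _)) (m _ (by simp) _)) (m _ (by simp) _)) (m _ (by simp) _)

end ADQ
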