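import Pool.Agent.ADQ.OprR
import Pool.Agent.ADQ.TOz

/-!
# ADQ-GAop: the linear combinations of permutations as operators

`σ : Equiv.Perm ℕ` with `σ i = i` for `i ≥ n`: `Φ = tl (sb (fun i => X (σ i)))`, `mon w ↦ mon (w.map σ)`; `TOp.subst`; lengths are preserved;
`zw p n w → zw p n (w.map σ)` and `zx p n (w.map σ) = (zx p n w).mapDomain σ`.  Span induction over `GA`: sums and scalars (`c : ZMod p` is the image of an integer).
-/

namespace ADQ

open AD ADN ADC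

/-- the conditions of `GA_op` for one operator -/
private def GaP (p n : ℕ) (Φ : P →ₗ[ℤ] P) (T : Z p →ₗ[ZMod p] Z p) : Prop :=
  TOp p Φ ∧ (∀ k, Opr p n k n k Φ T) ∧ (∀ m, ∀ f ∈ Fge m, Φ f ∈ Fge m) ∧
    (∀ f ∈ ZQ p n, Φ f ∈ ZQ p n) ∧ (∀ k, ∀ f ∈ HQ p n k, Φ f ∈ HQ p n k ∧ zi p n (Φ f) = T (zi p n f))

/-- it is enough to know the operator on the words -/
private theorem ga_mk {p n : ℕ} {Φ : P →ₗ[ℤ] P} {T : Z p →ₗ[ZMod p] Z p} (h1 : TOp p Φ)
    (h2 : ∀ m, ∀ f ∈ Fge m, Φ f ∈ Fge m)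
    (h3 : ∀ w, zw p n w → Φ (mon w) ∈ ZQ p n)
    (h4 : ∀ k, ∀ w, zw p n w → w.length = n + (p - 1) * k →
      Φ (mon w) ∈ HQ p n k ∧ zi p n (Φ (mon w)) = T (mo (zx p n w))) : GaP p n Φ T := by
  refine ⟨h1, fun k => ⟨TO_of_TOp h1, fun f hf => h2 _ f hf, fun w hw hl => ?_⟩, h2, ?_, ?_⟩
  · refine ⟨Φ (mon w), (h4 k w hw hl).1, ?_, (h4 k w hw hl).2⟩
    rw [sub_self]
    exact Submodule.zero_mem _
  · intro f hf
    unfold ZQ at hf
    induction hf using Submodule.span_induction with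
    | mem x hx =>
      obtain ⟨w, hw, rfl⟩ := hx
      exact h3 w hw
    | zero => rw [map_zero]; exact Submodule.zero_mem _
    | add x y _ _ hx hy => rw [map_add]; exact Submodule.add_mem _ hx hy
    | smul c x _ hx => rw [map_smul]; exact Submodule.smul_mem _ _ hx
  · intro k f hf
    unfold HQ at hf
    induction hf using Submodule.span_induction with
    | mem x hx =>
      obtain ⟨w, hw, hl, rfl⟩ := hx
      rw [zi_mon hw]
      exact h4 k w hw hl
    | zero =>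
      refine ⟨?_, ?_⟩
      · rw [map_zero]; exact Submodule.zero_mem _
      · rw [map_zero, map_zero, map_zero]
    | add x y _ _ hx hy =>
      refine ⟨?_, ?_⟩
      · rw [map_add]; exact Submodule.add_mem _ hx.1 hy.1
      · rw [map_add, map_add, map_add, map_add, hx.2, hy.2]
    | smul c x _ hx =>
      refine ⟨?_, ?_⟩
      · rw [map_smul]; exact Submodule.smul_mem _ _ hx.1
      · rw [map_smul, map_smul, map_smul, map_zsmul, hx.2]

private theorem ga_map (g : ℕ → ℕ) (w : List ℕ) : sb (fun i => X (g i)) (mon w) = mon (w.map g) := by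
  rw [sb_mon]
  unfold mon
  rw [List.map_map]
  rfl

private theorem ga_lt {n : ℕ} {σ : Equiv.Perm ℕ} (hσ : ∀ i, n ≤ i → σ i = i) (i : ℕ) : σ i < n ↔ i < n := by
  constructor
  · intro h
    by_contra h'
    rw [hσ i (by omega)] at h
    exact h' h
  · intro h
    by_contra h'
    have h1 := hσ (σ i) (by omega)
    have h2 := σ.injective h1
    rw [h2] at h'
    exact h' h

private theorem ga_zw {p n : ℕ} {σ : Equiv.Perm ℕ} (hσ : ∀ i, n ≤ i → σ i = i) {w : List ℕ} (hw : zw p n w) :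
    zw p n (w.map σ) := by
  refine ⟨fun i hi => ?_, fun i hi => ?_⟩
  · obtain ⟨j, hj, rfl⟩ := List.mem_map.1 hi
    exact (ga_lt hσ j).2 (hw.1 j hj)
  · obtain ⟨j, rfl⟩ := σ.surjective i
    rw [List.count_map_of_injective w σ σ.injective j]
    exact hw.2 j ((ga_lt hσ j).1 hi)

private theorem ga_zx {p n : ℕ} {σ : Equiv.Perm ℕ} (hσ : ∀ i, n ≤ i → σ i = i) (w : List ℕ) :
    zx p n (w.map σ) = (zx p n w).mapDomain σ := by
  ext i
  obtain ⟨j, rfl⟩ := σ.surjective i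
  rw [Finsupp.mapDomain_apply σ.injective, zx_apply, zx_apply, List.count_map_of_injective w σ σ.injective j]
  by_cases h : j < n
  · rw [if_pos h, if_pos ((ga_lt hσ j).2 h)]
  · rw [if_neg h, if_neg (fun h' => h ((ga_lt hσ j).1 h'))]

private theorem ga_perm (p : ℕ) {n : ℕ} {σ : Equiv.Perm ℕ} (hσ : ∀ i, n ≤ i → σ i = i) :
    GaP p n (tl (sb (fun i => X (σ i)))) (rn (p := p) σ).toLinearMap := by
  refine ga_mk (TOp.subst p (sb_isSubst fun i => X_mem _)) ?_ ?_ ?_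
  · intro m f hf
    unfold Fge at hf
    induction hf using Submodule.span_induction with
    | mem x hx =>
      obtain ⟨w, hw, rfl⟩ := hx
      rw [tl_apply, ga_map]
      exact Submodule.subset_span ⟨w.map σ, by rw [List.length_map]; exact hw, rfl⟩
    | zero => rw [map_zero]; exact Submodule.zero_mem _
    | add x y _ _ hx hy => rw [map_add]; exact Submodule.add_mem _ hx hy
    | smul c x _ hx => rw [map_smul]; exact Submodule.smul_mem _ _ hx
  · intro w hw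
    rw [tl_apply, ga_map]
    exact Submodule.subset_span ⟨w.map σ, ga_zw hσ hw, rfl⟩
  · intro k w hw hl
    rw [tl_apply, ga_map]
    refine ⟨Submodule.subset_span ⟨w.map σ, ga_zw hσ hw, by rw [List.length_map]; exact hl, rfl⟩, ?_⟩
    rw [zi_mon (ga_zw hσ hw), ga_zx hσ]
    show _ = rn σ (mo (zx p n w))
    unfold rn mo
    rw [MvPolynomial.rename_monomial]

theorem GA_op {p : ℕ} [Fact p.Prime] {n : ℕ} {T : Z p →ₗ[ZMod p] Z p} (hT : T ∈ GA p n) :
    ∃ Φ : P →ₗ[ℤ] P, TOp p Φ ∧ (∀ k, Opr p n k n k Φ T) ∧ (∀ m, ∀ f ∈ Fge m, Φ f ∈ Fge m) ∧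
      (∀ f ∈ ZQ p n, Φ f ∈ ZQ p n) ∧ (∀ k, ∀ f ∈ HQ p n k, Φ f ∈ HQ p n k ∧ zi p n (Φ f) = T (zi p n f)) := by
  show ∃ Φ : P →ₗ[ℤ] P, GaP p n Φ T
  unfold GA at hT
  induction hT using Submodule.span_induction with
  | mem x hx =>
    obtain ⟨σ, hσ, rfl⟩ := hx
    exact ⟨_, ga_perm p hσ⟩
  | zero =>
    refine ⟨0, ga_mk ?_ ?_ ?_ ?_⟩
    · intro D _ _ f _
      exact Submodule.zero_mem _
    · intro m f _
      exact Submodule.zero_mem _
    · intro w _
      exact Submodule.zero_mem _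
    · intro k w _ _
      exact ⟨Submodule.zero_mem _, map_zero _⟩
  | add x y _ _ hx hy =>
    obtain ⟨Φ, h1, -, h3, h4, h5⟩ := hx
    obtain ⟨Ψ, g1, -, g3, g4, g5⟩ := hy
    refine ⟨Φ + Ψ, ga_mk (h1.add g1) ?_ ?_ ?_⟩
    · intro m f hf
      exact Submodule.add_mem _ (h3 m f hf) (g3 m f hf)
    · intro w hw
      have hz : mon w ∈ ZQ p n := Submodule.subset_span ⟨w, hw, rfl⟩
      exact Submodule.add_mem _ (h4 _ hz) (g4 _ hz)
    · intro k w hw hl
      have hz : mon w ∈ HQ p n k := Submodule.subset_span ⟨w, hw, hl, rfl⟩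
      refine ⟨Submodule.add_mem _ (h5 k _ hz).1 (g5 k _ hz).1, ?_⟩
      rw [LinearMap.add_apply, map_add, (h5 k _ hz).2, (g5 k _ hz).2, zi_mon hw, LinearMap.add_apply]
  | smul c x _ hx =>
    obtain ⟨Φ, h1, -, h3, h4, h5⟩ := hx
    refine ⟨(c.val : ℤ) • Φ, ga_mk (h1.smul _) ?_ ?_ ?_⟩
    · intro m f hf
      exact Submodule.smul_mem _ _ (h3 m f hf)
    · intro w hw
      have hz : mon w ∈ ZQ p n := Submodule.subset_span ⟨w, hw, rfl⟩
      exact Submodule.smul_mem _ _ (h4 _ hz)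
    · intro k w hw hl
      have hz : mon w ∈ HQ p n k := Submodule.subset_span ⟨w, hw, hl, rfl⟩
      refine ⟨Submodule.smul_mem _ _ (h5 k _ hz).1, ?_⟩
      rw [LinearMap.smul_apply, map_smul, (h5 k _ hz).2, zi_mon hw, LinearMap.smul_apply,
        ← Int.cast_smul_eq_zsmul (ZMod p), Int.cast_natCast, ZMod.natCast_zmod_val]

theorem RR_GA {p : ℕ} [Fact p.Prime] {I : Submodule ℤ P} (hI : NC p I) {n k : ℕ} (hn : 1 ≤ n)
    {T : Z p →ₗ[ZMod p] Z p} (hT : T ∈ GA p n) {F : Z p} (hF : F ∈ RR p I n k) : T F ∈ RR p I n k := by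
  obtain ⟨Φ, -, h, -⟩ := GA_op hT
  exact RR_op hI hn (h k) hF

end ADQ
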