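import Pool.Agent.ADQ.GAop
import Pool.Agent.ADQ.ORen
import Pool.Agent.ADQ.OZer
import Pool.Agent.ADQ.ODd

/-!
# ADQ-HCom

`cm 0 1 = i + r`, `i ∈ I`, `r ∈ Fge (2 + (p-1) m)`; `wp (zw p 2) (cm 0 1) = cm 0 1` (`X 0 * X 1`, `X 1 * X 0` are words `zw p 2`), so we may take `r ∈ ZQ p 2`; `f` = the part of `r` of length exactly `2 + (p-1) m`, in `HQ p 2 m`, `H = zi p 2 f`, `a = cm 0 1`,
`a - f ∈ I ⊔ Fge (2 + (p-1) m + 1)`.  Each relation is `RR_soc` for an operator `Φ` with `Φ a = 0`:
(1) `fDd p 2 0 1`: `sb (x_0 ↦ x_0 + x_1) (cm 0 1) = cm 0 1`, so `Φ a = 0` (`odd`).  (2) `fDd p 2 1 0` in the same way.  (3) `Φ = id + tl (sb (X ∘ swap 0 1))`: `cm 0 1 + cm 1 0 = 0` (`Opr` of a sum, `GA_op` or directly).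
(4) `Φ f = fZer p 2 1 f - f * X 2 - X 1 * sb (x_1 ↦ x_2) f`: `Φ (cm 0 1) = [x_0, x_1 x_2] - [x_0, x_1] x_2 - x_1 [x_0, x_2] = 0` (the words `0 1 2`, `1 2 0` are `zw p 3`).  `Opr p 2 m 3 m` of the three summands: `ozer` (`ev 1`), `oren` with `g = id` (the identity), and
for the last one: `mon w ↦ mon (1 :: w.map (1 ↦ 2))`, which has the same `zx` as `fRen 2 3 (0 ↦ 0, 1 ↦ 2)`: `rn (swap 1 2)` on polynomials in `z_0, z_1`.  For the sum of operators prove `Opr.add`, `Opr.neg` (private).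
-/

namespace ADQ

open AD ADN ADC

private theorem opr_add {p n k n' k' : ℕ} {Φ Ψ : P →ₗ[ℤ] P} {φ ψ : Z p →ₗ[ZMod p] Z p}
    (h1 : Opr p n k n' k' Φ φ) (h2 : Opr p n k n' k' Ψ ψ) : Opr p n k n' k' (Φ + Ψ) (φ + ψ) := by
  refine ⟨fun D hD hm f hf => ?_, fun f hf => ?_, fun w hw hl => ?_⟩
  · rw [LinearMap.add_apply]
    exact Submodule.add_mem _ (h1.tO D hD hm f hf) (h2.tO D hD hm f hf)
  · rw [LinearMap.add_apply]
    exact Submodule.add_mem _ (h1.up f hf) (h2.up f hf)
  · obtain ⟨g1, hg1, ha, hb⟩ := h1.val w hw hl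
    obtain ⟨g2, hg2, hc, hd⟩ := h2.val w hw hl
    refine ⟨g1 + g2, Submodule.add_mem _ hg1 hg2, ?_, ?_⟩
    · rw [LinearMap.add_apply, add_sub_add_comm]
      exact Submodule.add_mem _ ha hc
    · rw [map_add, hb, hd, LinearMap.add_apply]

private theorem opr_sub {p n k n' k' : ℕ} {Φ Ψ : P →ₗ[ℤ] P} {φ ψ : Z p →ₗ[ZMod p] Z p}
    (h1 : Opr p n k n' k' Φ φ) (h2 : Opr p n k n' k' Ψ ψ) : Opr p n k n' k' (Φ - Ψ) (φ - ψ) := by
  refine ⟨fun D hD hm f hf => ?_, fun f hf => ?_, fun w hw hl => ?_⟩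
  · rw [LinearMap.sub_apply]
    exact Submodule.sub_mem _ (h1.tO D hD hm f hf) (h2.tO D hD hm f hf)
  · rw [LinearMap.sub_apply]
    exact Submodule.sub_mem _ (h1.up f hf) (h2.up f hf)
  · obtain ⟨g1, hg1, ha, hb⟩ := h1.val w hw hl
    obtain ⟨g2, hg2, hc, hd⟩ := h2.val w hw hl
    refine ⟨g1 - g2, Submodule.sub_mem _ hg1 hg2, ?_, ?_⟩
    · rw [LinearMap.sub_apply, sub_sub_sub_comm]
      exact Submodule.sub_mem _ ha hc
    · rw [map_sub, hb, hd, LinearMap.sub_apply]

/-- the part of lowest length -/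
private theorem low_part {p n k : ℕ} {r : P} (hr : r ∈ Fge (n + (p - 1) * k)) :
    ∃ f ∈ HQ p n k, wp (zw p n) r - f ∈ Fge (n + (p - 1) * k + 1) := by
  unfold Fge at hr
  induction hr using Submodule.span_induction with
  | mem x hx =>
    obtain ⟨w, hw, rfl⟩ := hx
    by_cases h : zw p n w
    · rw [wp_pos h]
      by_cases hl : w.length = n + (p - 1) * k
      · refine ⟨mon w, Submodule.subset_span ⟨w, h, hl, rfl⟩, ?_⟩
        rw [sub_self]
        exact Submodule.zero_mem _
      · refine ⟨0, Submodule.zero_mem _, ?_⟩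
        rw [sub_zero]
        exact Submodule.subset_span ⟨w, by omega, rfl⟩
    · refine ⟨0, Submodule.zero_mem _, ?_⟩
      rw [wp_neg h, sub_zero]
      exact Submodule.zero_mem _
  | zero => exact ⟨0, Submodule.zero_mem _, by rw [map_zero, sub_zero]; exact Submodule.zero_mem _⟩
  | add x y _ _ hx hy =>
    obtain ⟨f, hf, hf'⟩ := hx
    obtain ⟨g, hg, hg'⟩ := hy
    refine ⟨f + g, Submodule.add_mem _ hf hg, ?_⟩
    rw [map_add, add_sub_add_comm]
    exact Submodule.add_mem _ hf' hg'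
  | smul c x _ hx =>
    obtain ⟨f, hf, hf'⟩ := hx
    refine ⟨c • f, Submodule.smul_mem _ _ hf, ?_⟩
    rw [map_smul, ← smul_sub]
    exact Submodule.smul_mem _ _ hf'

private theorem cm_mon (i j : ℕ) : cm i j = mon [i, j] - mon [j, i] := by
  unfold cm
  rw [mon_cons, mon_cons, mon_cons, mon_cons, mon_nil, mul_one, mul_one]

private theorem zw_pair {p : ℕ} (i j : ℕ) (hi : i < 2) (hj : j < 2) (hij : i ≠ j) : zw p 2 [i, j] := by
  refine ⟨?_, ?_⟩
  · intro t ht
    rcases List.mem_cons.1 ht with rfl | ht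
    · exact hi
    · rw [List.mem_singleton] at ht
      rw [ht]
      exact hj
  · intro t ht
    have h1 : List.count t [i, j] = 1 := by
      have hi' : i = 0 ∨ i = 1 := by omega
      have hj' : j = 0 ∨ j = 1 := by omega
      have ht' : t = 0 ∨ t = 1 := by omega
      rcases hi' with rfl | rfl <;> rcases hj' with rfl | rfl <;> rcases ht' with rfl | rfl <;>
        first | rfl | exact absurd rfl hij
    rw [h1]
    exact ⟨le_refl 1, ⟨0, by simp⟩⟩

private theorem wp_cm {p : ℕ} : wp (zw p 2) (cm 0 1) = cm 0 1 := by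
  rw [cm_mon, map_sub, wp_pos (zw_pair 0 1 (by norm_num) (by norm_num) (by norm_num)),
    wp_pos (zw_pair 1 0 (by norm_num) (by norm_num) (by norm_num))]

private theorem zw_triple {p : ℕ} (w : List ℕ) (hw : w.Perm [0, 1, 2]) : zw p 3 w := by
  refine ⟨?_, ?_⟩
  · intro t ht
    have h := hw.mem_iff.1 ht
    simp only [List.mem_cons, List.not_mem_nil, or_false] at h
    omega
  · intro t ht
    have h1 : List.count t w = 1 := by
      rw [hw.count_eq]
      have ht' : t = 0 ∨ t = 1 ∨ t = 2 := by omega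
      rcases ht' with rfl | rfl | rfl <;> rfl
    rw [h1]
    exact ⟨le_refl 1, ⟨0, by simp⟩⟩

private theorem sw_cnt (w : List ℕ) (i : ℕ) :
    (w.map (Equiv.swap 1 2)).count (Equiv.swap 1 2 i) = w.count i :=
  List.count_map_of_injective w _ (Equiv.swap 1 2).injective i

private theorem sw0 : (Equiv.swap 1 2 : Equiv.Perm ℕ) 0 = 0 :=
  Equiv.swap_apply_of_ne_of_ne (by norm_num) (by norm_num)

private theorem sw1 : (Equiv.swap 1 2 : Equiv.Perm ℕ) 1 = 2 := Equiv.swap_apply_left 1 2

private theorem sw2 : (Equiv.swap 1 2 : Equiv.Perm ℕ) 2 = 1 := Equiv.swap_apply_right 1 2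

private theorem c0 (w : List ℕ) : (1 :: w.map (Equiv.swap 1 2)).count 0 = w.count 0 := by
  rw [List.count_cons_of_ne (by norm_num)]
  conv_lhs => rw [← sw0]
  exact sw_cnt w 0

private theorem c1 (w : List ℕ) : (1 :: w.map (Equiv.swap 1 2)).count 1 = w.count 2 + 1 := by
  rw [List.count_cons_self]
  have h := sw_cnt w 2
  rw [sw2] at h
  rw [h]

private theorem c2 (w : List ℕ) : (1 :: w.map (Equiv.swap 1 2)).count 2 = w.count 1 := by
  rw [List.count_cons_of_ne (by norm_num)]
  have h := sw_cnt w 1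
  rw [sw1] at h
  exact h

private theorem zw_sw {p : ℕ} {w : List ℕ} (hw : zw p 2 w) : zw p 3 (1 :: w.map (Equiv.swap 1 2)) := by
  have h2 : w.count 2 = 0 := List.count_eq_zero_of_not_mem (fun h => absurd (hw.1 2 h) (by omega))
  refine ⟨?_, ?_⟩
  · intro t ht
    rcases List.mem_cons.1 ht with rfl | ht
    · norm_num
    · obtain ⟨a, ha, rfl⟩ := List.mem_map.1 ht
      have ha2 := hw.1 a ha
      have ha' : a = 0 ∨ a = 1 := by omega
      rcases ha' with rfl | rfl
      · rw [sw0]; norm_num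
      · rw [sw1]; norm_num
  · intro t ht
    have ht' : t = 0 ∨ t = 1 ∨ t = 2 := by omega
    rcases ht' with rfl | rfl | rfl
    · rw [c0]
      exact hw.2 0 (by norm_num)
    · rw [c1, h2]
      exact ⟨le_refl 1, ⟨0, by simp⟩⟩
    · rw [c2]
      exact hw.2 1 (by norm_num)

private theorem zx_sw {p : ℕ} {w : List ℕ} (hw : zw p 2 w) :
    zx p 3 (1 :: w.map (Equiv.swap 1 2)) = Finsupp.mapDomain (Equiv.swap 1 2) (zx p 2 w) := by
  have h2 : w.count 2 = 0 := List.count_eq_zero_of_not_mem (fun h => absurd (hw.1 2 h) (by omega))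
  have h3 : Finsupp.mapDomain (Equiv.swap 1 2) (zx p 2 w) =
      Finsupp.single 0 ((w.count 0 - 1) / (p - 1)) + Finsupp.single 2 ((w.count 1 - 1) / (p - 1)) := by
    unfold zx
    rw [Finset.sum_range_succ, Finset.sum_range_one, Finsupp.mapDomain_add, Finsupp.mapDomain_single,
      Finsupp.mapDomain_single, sw0, sw1]
  rw [h3]
  unfold zx
  rw [Finset.sum_range_succ, Finset.sum_range_succ, Finset.sum_range_one, c0, c1, c2, h2]
  simp

/-- multiplication by `x_1` from the left and `x_1 ↦ x_2` -/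
private noncomputable def lf : P →ₗ[ℤ] P :=
  (LinearMap.mulLeft ℤ (X 1)).comp (tl (sb (fun i => X (Equiv.swap 1 2 i))))

private theorem lf_mon (w : List ℕ) : lf (mon w) = mon (1 :: w.map (Equiv.swap 1 2)) := by
  unfold lf
  rw [LinearMap.comp_apply, tl_apply, LinearMap.mulLeft_apply, mon_cons, sb_mon]
  unfold mon
  rw [List.map_map]
  rfl

private theorem opr_lf {p m : ℕ} : Opr p 2 m 3 m lf (rn (Equiv.swap 1 2)).toLinearMap := by
  refine ⟨?_, ?_, ?_⟩
  · intro D hD _ f hf
    unfold lf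
    rw [LinearMap.comp_apply, tl_apply, LinearMap.mulLeft_apply]
    exact hD.mul_left _ (sb_mem hD (fun i => X_mem _) hf) _
  · intro f hf
    unfold Fge at hf
    induction hf using Submodule.span_induction with
    | mem f hf =>
      obtain ⟨w, hw, rfl⟩ := hf
      rw [lf_mon]
      refine Submodule.subset_span ⟨_, ?_, rfl⟩
      rw [List.length_cons, List.length_map]
      omega
    | zero => rw [map_zero]; exact Submodule.zero_mem _
    | add x y _ _ hx hy => rw [map_add]; exact Submodule.add_mem _ hx hy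
    | smul c x _ hx => rw [map_smul]; exact Submodule.smul_mem _ _ hx
  · intro w hw hl
    refine ⟨mon (1 :: w.map (Equiv.swap 1 2)), Submodule.subset_span ⟨_, zw_sw hw, ?_, rfl⟩, ?_, ?_⟩
    · rw [List.length_cons, List.length_map]
      omega
    · rw [lf_mon, sub_self]
      exact Submodule.zero_mem _
    · rw [zi_mon (zw_sw hw), zx_sw hw]
      unfold mo rn
      rw [AlgHom.toLinearMap_apply, MvPolynomial.rename_monomial]

private theorem fRen_app (n n' : ℕ) (g : ℕ → ℕ) (l : List ℕ)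
    (hg : (List.range n').filter (fun j => decide (∀ i < n, g i ≠ j)) = l) (f : P) :
    fRen n n' g f = sb (fun i => X (g i)) f * mon l := by
  unfold fRen
  rw [LinearMap.comp_apply, tl_apply, LinearMap.mulRight_apply, hg]

theorem comForm {p : ℕ} [Fact p.Prime] (h3 : 3 ≤ p) {I : Submodule ℤ P} (h : NC p I) {m : ℕ} (hm : 1 ≤ m)
    (hc : cm 0 1 ∈ I ⊔ Fge (2 + (p - 1) * m)) : ∃ H ∈ Hh p 2 m,
    (∃ f ∈ HQ p 2 m, zi p 2 f = H ∧ cm 0 1 - f ∈ I ⊔ Fge (2 + (p - 1) * m + 1)) ∧
    (m ≤ 4 → dd 0 1 H ∈ RR p I 2 m ∧ dd 1 0 H ∈ RR p I 2 m) ∧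
    H + rn (Equiv.swap 0 1) H ∈ RR p I 2 m ∧
    ev 1 H - H - rn (Equiv.swap 1 2) H ∈ RR p I 3 m := by
  have hp : p.Prime := Fact.out
  obtain ⟨i, hi, r, hr, hir⟩ := Submodule.mem_sup.1 hc
  obtain ⟨f, hf, hf'⟩ := low_part hr
  have ha : cm 0 1 - f ∈ I ⊔ Fge (2 + (p - 1) * m + 1) := by
    have h1 : cm 0 1 - f = wp (zw p 2) i + (wp (zw p 2) r - f) := by
      have h2 : wp (zw p 2) (i + r) = cm 0 1 := by rw [hir, wp_cm]
      rw [map_add] at h2
      rw [← h2]
      abel
    rw [h1]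
    exact Submodule.add_mem_sup (TO_zw hp 2 I h.isT h.mul i hi) hf'
  refine ⟨zi p 2 f, zi_mem hp.two_le hf, ⟨f, hf, rfl, ha⟩, ?_, ?_, ?_⟩
  · intro hm4
    constructor
    · refine RR_soc h (odd hp h3 hm4 (by norm_num) (by norm_num) (by norm_num)) hf ha ?_
      have h1 : fDd p 2 0 1 (cm 0 1) = 0 := by
        unfold fDd
        rw [LinearMap.sub_apply, LinearMap.comp_apply, tl_apply]
        have h2 : sb (fun t => if t = 0 then X 0 + X 1 else X t) (cm 0 1) = cm 0 1 := by
          unfold cm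
          rw [map_sub, map_mul, map_mul, sb_X, sb_X, if_pos rfl, if_neg (by norm_num)]
          noncomm_ring
        rw [h2, sub_self]
      rw [h1]
      exact Submodule.zero_mem _
    · refine RR_soc h (odd hp h3 hm4 (by norm_num) (by norm_num) (by norm_num)) hf ha ?_
      have h1 : fDd p 2 1 0 (cm 0 1) = 0 := by
        unfold fDd
        rw [LinearMap.sub_apply, LinearMap.comp_apply, tl_apply]
        have h2 : sb (fun t => if t = 1 then X 1 + X 0 else X t) (cm 0 1) = cm 0 1 := by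
          unfold cm
          rw [map_sub, map_mul, map_mul, sb_X, sb_X, if_pos rfl, if_neg (by norm_num)]
          noncomm_ring
        rw [h2, sub_self]
      rw [h1]
      exact Submodule.zero_mem _
  · have e1 : Opr p 2 m 2 m (fRen 2 2 id) (rn id).toLinearMap :=
      oren hp (by norm_num) (fun i hi => hi) (fun i _ j _ hij => hij)
    have e2 : Opr p 2 m 2 m (fRen 2 2 (Equiv.swap 0 1)) (rn (Equiv.swap 0 1)).toLinearMap := by
      refine oren hp (by norm_num) (fun i hi => ?_) (fun i _ j _ hij => (Equiv.swap 0 1).injective hij)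
      have hi' : i = 0 ∨ i = 1 := by omega
      rcases hi' with rfl | rfl
      · rw [Equiv.swap_apply_left]; norm_num
      · rw [Equiv.swap_apply_right]; norm_num
    have h4 := RR_soc h (opr_add e1 e2) hf ha (by
      have h1 : (fRen 2 2 id + fRen 2 2 (Equiv.swap 0 1)) (cm 0 1) = 0 := by
        rw [LinearMap.add_apply, fRen_app 2 2 id [] (by decide), fRen_app 2 2 (Equiv.swap 0 1) [] (by decide),
          mon_nil, mul_one, mul_one]
        unfold cm
        rw [map_sub, map_mul, map_mul, sb_X, sb_X, map_sub, map_mul, map_mul, sb_X, sb_X,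
          Equiv.swap_apply_left, Equiv.swap_apply_right, id, id]
        abel
      rw [h1]
      exact Submodule.zero_mem _)
    have h5 : ((rn id).toLinearMap + (rn (Equiv.swap 0 1)).toLinearMap : Z p →ₗ[ZMod p] Z p) (zi p 2 f) =
        zi p 2 f + rn (Equiv.swap 0 1) (zi p 2 f) := by
      rw [LinearMap.add_apply, AlgHom.toLinearMap_apply, AlgHom.toLinearMap_apply]
      congr 1
      unfold rn
      exact MvPolynomial.rename_id_apply _
    rwa [h5] at h4
  · have e1 : Opr p 2 m 3 m (fZer p 2 1) (ev 1).toLinearMap := ozer hp (by norm_num)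
    have e2 : Opr p 2 m 3 m (fRen 2 3 id) (rn id).toLinearMap :=
      oren hp (by norm_num) (fun i hi => by show i < 3; omega) (fun i _ j _ hij => hij)
    have h4 := RR_soc h (opr_sub (opr_sub e1 e2) opr_lf) hf ha (by
      have h1 : (fZer p 2 1 - fRen 2 3 id - lf) (cm 0 1) = 0 := by
        have a1 : fZer p 2 1 (cm 0 1) = X 0 * X 1 * X 2 - X 1 * X 2 * X 0 := by
          unfold fZer
          rw [LinearMap.comp_apply, tl_apply]
          have h2 : sb (fun j => if j = 1 then X 1 * X 2 else X j) (cm 0 1) =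
              mon [0, 1, 2] - mon [1, 2, 0] := by
            unfold cm
            rw [map_sub, map_mul, map_mul, sb_X, sb_X, if_pos rfl, if_neg (by norm_num)]
            simp only [mon_cons, mon_nil, mul_one, mul_assoc]
          rw [h2, map_sub, wp_pos (zw_triple _ (List.Perm.refl _)), wp_pos (zw_triple _ (by decide))]
          simp only [mon_cons, mon_nil, mul_one, mul_assoc]
        have a2 : fRen 2 3 id (cm 0 1) = (X 0 * X 1 - X 1 * X 0) * X 2 := by
          rw [fRen_app 2 3 id [2] (by decide), mon_cons, mon_nil, mul_one]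
          unfold cm
          rw [map_sub, map_mul, map_mul, sb_X, sb_X, id, id]
        have a3 : lf (cm 0 1) = X 1 * (X 0 * X 2 - X 2 * X 0) := by
          unfold lf cm
          rw [LinearMap.comp_apply, tl_apply, LinearMap.mulLeft_apply, map_sub, map_mul, map_mul, sb_X,
            sb_X, sw0, sw1]
        rw [LinearMap.sub_apply, LinearMap.sub_apply, a1, a2, a3]
        noncomm_ring
      rw [h1]
      exact Submodule.zero_mem _)
    have h5 : ((ev 1).toLinearMap - (rn id).toLinearMap - (rn (Equiv.swap 1 2)).toLinearMap :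
        Z p →ₗ[ZMod p] Z p) (zi p 2 f) =
        ev 1 (zi p 2 f) - zi p 2 f - rn (Equiv.swap 1 2) (zi p 2 f) := by
      rw [LinearMap.sub_apply, LinearMap.sub_apply, AlgHom.toLinearMap_apply, AlgHom.toLinearMap_apply,
        AlgHom.toLinearMap_apply]
      congr 2
      unfold rn
      exact MvPolynomial.rename_id_apply _
    rwa [h5] at h4

end ADQ
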