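import Pool.Agent.ADQ.Tool2b
import Pool.Agent.ADQ.Tool2c
import Pool.Agent.ADQ.ExpD

/-!
# ADQ-HLow: the spaces of low degree vanish if `R 3 4 ≤ K4 p`

An element of `K4 p` without `z_2` is 0; `z_0 F, z_1 F ∈ K4 p` only for `F = 0`.  Coefficients are compared
with the general element `E34` of `Hh p 3 4`.
-/

namespace ADQ

open AD ADN ADC

variable {p : ℕ}

private noncomputable def hl_c (a b c : ℕ) : Z p →ₗ[ZMod p] ZMod p :=
  MvPolynomial.lcoeff (ZMod p) (Finsupp.single 0 a + Finsupp.single 1 b + Finsupp.single 2 c)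

private theorem hl_fs (a b c a' b' c' : ℕ)
    (h : (Finsupp.single 0 a' + Finsupp.single 1 b' + Finsupp.single 2 c' : ℕ →₀ ℕ) =
      Finsupp.single 0 a + Finsupp.single 1 b + Finsupp.single 2 c) : a = a' ∧ b = b' ∧ c = c' := by
  have h0 := DFunLike.congr_fun h 0
  have h1 := DFunLike.congr_fun h 1
  have h2 := DFunLike.congr_fun h 2
  simp at h0 h1 h2
  exact ⟨h0.symm, h1.symm, h2.symm⟩

private theorem hl_cm (a b c a' b' c' : ℕ) : hl_c a b c (z 0 ^ a' * z 1 ^ b' * z 2 ^ c' : Z p) =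
    if a = a' ∧ b = b' ∧ c = c' then 1 else 0 := by
  have e : (z 0 ^ a' * z 1 ^ b' * z 2 ^ c' : Z p) =
      mo (Finsupp.single 0 a' + Finsupp.single 1 b' + Finsupp.single 2 c') := by
    rw [mo_add, mo_add, mo_single, mo_single, mo_single]
  rw [e]
  show MvPolynomial.coeff (Finsupp.single 0 a + Finsupp.single 1 b + Finsupp.single 2 c)
    (mo (Finsupp.single 0 a' + Finsupp.single 1 b' + Finsupp.single 2 c') : Z p) = _
  unfold mo
  rw [MvPolynomial.coeff_monomial]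
  by_cases h : a = a' ∧ b = b' ∧ c = c'
  · obtain ⟨rfl, rfl, rfl⟩ := h
    rw [if_pos rfl, if_pos ⟨rfl, rfl, rfl⟩]
  · rw [if_neg h, if_neg (fun e => h (hl_fs _ _ _ _ _ _ e))]

private theorem hl_E34 (a : ℕ → ZMod p) (b : ℕ → ℕ → ZMod p) (g d : ℕ → ZMod p) : E34 a b g d =
    a 0 • (z 0 ^ 4 * z 1 ^ 0 * z 2 ^ 0) + a 1 • (z 0 ^ 0 * z 1 ^ 4 * z 2 ^ 0) + a 2 • (z 0 ^ 0 * z 1 ^ 0 * z 2 ^ 4) +
    b 0 1 • (z 0 ^ 3 * z 1 ^ 1 * z 2 ^ 0) + b 0 2 • (z 0 ^ 3 * z 1 ^ 0 * z 2 ^ 1) +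
    b 1 0 • (z 0 ^ 1 * z 1 ^ 3 * z 2 ^ 0) + b 1 2 • (z 0 ^ 0 * z 1 ^ 3 * z 2 ^ 1) +
    b 2 0 • (z 0 ^ 1 * z 1 ^ 0 * z 2 ^ 3) + b 2 1 • (z 0 ^ 0 * z 1 ^ 1 * z 2 ^ 3) +
    g 0 • (z 0 ^ 0 * z 1 ^ 2 * z 2 ^ 2) + g 1 • (z 0 ^ 2 * z 1 ^ 0 * z 2 ^ 2) + g 2 • (z 0 ^ 2 * z 1 ^ 2 * z 2 ^ 0) +
    d 0 • (z 0 ^ 2 * z 1 ^ 1 * z 2 ^ 1) + d 1 • (z 0 ^ 1 * z 1 ^ 2 * z 2 ^ 1) + d 2 • (z 0 ^ 1 * z 1 ^ 1 * z 2 ^ 2) := by
  unfold E34
  simp only [MvPolynomial.smul_eq_C_mul]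
  ring

private theorem hl_zero {a : ℕ → ZMod p} {b : ℕ → ℕ → ZMod p} {g d : ℕ → ZMod p} (h : E34 a b g d = 0) :
    (a 0 = 0 ∧ a 1 = 0 ∧ a 2 = 0) ∧ (b 0 1 = 0 ∧ b 0 2 = 0 ∧ b 1 0 = 0 ∧ b 1 2 = 0 ∧ b 2 0 = 0 ∧ b 2 1 = 0) ∧
    (g 0 = 0 ∧ g 1 = 0 ∧ g 2 = 0) ∧ (d 0 = 0 ∧ d 1 = 0 ∧ d 2 = 0) := by
  rw [hl_E34] at h
  have key : ∀ x y w : ℕ, hl_c x y w (E34 a b g d) = 0 := by
    intro x y w
    rw [hl_E34, h, map_zero]
  simp only [hl_E34, map_add, map_smul, hl_cm] at key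
  refine ⟨⟨?_, ?_, ?_⟩, ⟨?_, ?_, ?_, ?_, ?_, ?_⟩, ⟨?_, ?_, ?_⟩, ⟨?_, ?_, ?_⟩⟩
  · simpa using key 4 0 0
  · simpa using key 0 4 0
  · simpa using key 0 0 4
  · simpa using key 3 1 0
  · simpa using key 3 0 1
  · simpa using key 1 3 0
  · simpa using key 0 3 1
  · simpa using key 1 0 3
  · simpa using key 0 1 3
  · simpa using key 0 2 2
  · simpa using key 2 0 2
  · simpa using key 2 2 0
  · simpa using key 2 1 1
  · simpa using key 1 2 1
  · simpa using key 1 1 2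

private theorem hl_K4 {a : ℕ → ZMod p} {b : ℕ → ℕ → ZMod p} {g d : ℕ → ZMod p} (h : E34 a b g d ∈ K4 p) :
    ∃ x y w t e : ZMod p, (a 0 = x + 2 * e ∧ a 1 = y + 2 * e ∧ a 2 = w + 2 * e) ∧
      (b 0 1 = -x - 3 * e + t ∧ b 0 2 = -x - 3 * e - t ∧ b 1 0 = -y - 3 * e - t ∧ b 1 2 = -y - 3 * e + t ∧
        b 2 0 = -w - 3 * e + t ∧ b 2 1 = -w - 3 * e - t) ∧
      (g 0 = 0 ∧ g 1 = 0 ∧ g 2 = 0) ∧ (d 0 = x + 6 * e ∧ d 1 = y + 6 * e ∧ d 2 = w + 6 * e) := by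
  unfold K4 at h
  obtain ⟨x, W1, q1, e1⟩ := Submodule.mem_span_insert.1 h
  obtain ⟨y, W2, q2, e2⟩ := Submodule.mem_span_insert.1 q1
  obtain ⟨w, W3, q3, e3⟩ := Submodule.mem_span_insert.1 q2
  obtain ⟨t, W4, q4, e4⟩ := Submodule.mem_span_insert.1 q3
  obtain ⟨e, e5⟩ := Submodule.mem_span_singleton.1 q4
  rw [e2, e3, e4, ← e5] at e1
  obtain ⟨f0, f1, f2, f3⟩ : ∃ (a' : ℕ → ZMod p) (b' : ℕ → ℕ → ZMod p) (g' d' : ℕ → ZMod p),
      (a' 0 = a 0 - (x + 2 * e) ∧ a' 1 = a 1 - (y + 2 * e) ∧ a' 2 = a 2 - (w + 2 * e)) ∧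
      (b' 0 1 = b 0 1 - (-x - 3 * e + t) ∧ b' 0 2 = b 0 2 - (-x - 3 * e - t) ∧ b' 1 0 = b 1 0 - (-y - 3 * e - t) ∧
        b' 1 2 = b 1 2 - (-y - 3 * e + t) ∧ b' 2 0 = b 2 0 - (-w - 3 * e + t) ∧ b' 2 1 = b 2 1 - (-w - 3 * e - t)) ∧
      (g' 0 = g 0 ∧ g' 1 = g 1 ∧ g' 2 = g 2) ∧
      (d' 0 = d 0 - (x + 6 * e) ∧ d' 1 = d 1 - (y + 6 * e) ∧ d' 2 = d 2 - (w + 6 * e)) := by
    refine ⟨fun i => if i = 0 then a 0 - (x + 2 * e) else if i = 1 then a 1 - (y + 2 * e) else a 2 - (w + 2 * e),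
      fun i j => if i = 0 then (if j = 1 then b 0 1 - (-x - 3 * e + t) else b 0 2 - (-x - 3 * e - t)) else
        if i = 1 then (if j = 0 then b 1 0 - (-y - 3 * e - t) else b 1 2 - (-y - 3 * e + t)) else
        (if j = 0 then b 2 0 - (-w - 3 * e + t) else b 2 1 - (-w - 3 * e - t)),
      g, fun i => if i = 0 then d 0 - (x + 6 * e) else if i = 1 then d 1 - (y + 6 * e) else d 2 - (w + 6 * e),
      ⟨rfl, rfl, rfl⟩, ⟨rfl, rfl, rfl, rfl, rfl, rfl⟩, ⟨rfl, rfl, rfl⟩, ⟨rfl, rfl, rfl⟩⟩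
  obtain ⟨d', ⟨a0, a1, a2⟩, ⟨b01, b02, b10, b12, b20, b21⟩, ⟨g0, g1, g2⟩, ⟨d0, d1, d2⟩⟩ := f3
  have hz : E34 f0 f1 f2 d' = 0 := by
    have e6 : E34 f0 f1 f2 d' = E34 a b g d - (x • F4 0 1 2 + (y • F4 1 0 2 + (w • F4 2 0 1 +
        (t • D4 + e • (h4 0 1 2 + h4 1 0 2 + h4 2 0 1))))) := by
      unfold E34 F4 D4 h4
      rw [a0, a1, a2, b01, b02, b10, b12, b20, b21, g0, g1, g2, d0, d1, d2]
      simp only [MvPolynomial.smul_eq_C_mul, map_add, map_sub, map_neg, map_mul, map_ofNat]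
      ring
    rw [e6, e1, sub_self]
  obtain ⟨⟨k1, k2, k3⟩, ⟨k4, k5, k6, k7, k8, k9⟩, ⟨k10, k11, k12⟩, ⟨k13, k14, k15⟩⟩ := hl_zero hz
  rw [a0] at k1
  rw [a1] at k2
  rw [a2] at k3
  rw [b01] at k4
  rw [b02] at k5
  rw [b10] at k6
  rw [b12] at k7
  rw [b20] at k8
  rw [b21] at k9
  rw [g0] at k10
  rw [g1] at k11
  rw [g2] at k12
  rw [d0] at k13
  rw [d1] at k14
  rw [d2] at k15
  exact ⟨x, y, w, t, e, ⟨sub_eq_zero.1 k1, sub_eq_zero.1 k2, sub_eq_zero.1 k3⟩,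
    ⟨sub_eq_zero.1 k4, sub_eq_zero.1 k5, sub_eq_zero.1 k6, sub_eq_zero.1 k7, sub_eq_zero.1 k8, sub_eq_zero.1 k9⟩,
    ⟨k10, k11, k12⟩, ⟨sub_eq_zero.1 k13, sub_eq_zero.1 k14, sub_eq_zero.1 k15⟩⟩

private theorem hl_ne [Fact p.Prime] (h5 : 5 ≤ p) {m : ℕ} (h1 : 1 ≤ m) (h2 : m < 5) : ((m : ℕ) : ZMod p) ≠ 0 := by
  intro h
  rw [ZMod.natCast_eq_zero_iff] at h
  have := Nat.le_of_dvd (by omega) h
  omega

private theorem hl_two [Fact p.Prime] (h5 : 5 ≤ p) {x : ZMod p} (h : 2 * x = 0) : x = 0 :=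
  (mul_eq_zero.1 h).resolve_left (by exact_mod_cast hl_ne (p := p) (m := 2) h5 (by norm_num) (by norm_num))

private theorem hl_four [Fact p.Prime] (h5 : 5 ≤ p) {x : ZMod p} (h : 4 * x = 0) : x = 0 :=
  (mul_eq_zero.1 h).resolve_left (by exact_mod_cast hl_ne (p := p) (m := 4) h5 (by norm_num) (by norm_num))

/-- an element of `K4` without `z_2` is 0 -/
private theorem hl_no2 [Fact p.Prime] (h5 : 5 ≤ p) {a : ℕ → ZMod p} (h : E24 a ∈ K4 p) : (E24 a : Z p) = 0 := by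
  have e : (E24 a : Z p) = E34 (fun i => if i = 0 then a 4 else if i = 1 then a 0 else 0)
      (fun i j => if i = 0 ∧ j = 1 then a 3 else if i = 1 ∧ j = 0 then a 1 else 0)
      (fun i => if i = 2 then a 2 else 0) (fun _ => 0) := by
    unfold E24 E34
    simp [MvPolynomial.smul_eq_C_mul]
    ring
  rw [e] at h
  obtain ⟨x, y, w, t, e', ⟨k1, k2, k3⟩, ⟨k4, k5, k6, k7, k8, k9⟩, ⟨k10, k11, k12⟩, ⟨k13, k14, k15⟩⟩ := hl_K4 h
  change a 4 = _ at k1
  change a 0 = _ at k2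
  change (0 : ZMod p) = _ at k3
  change a 3 = _ at k4
  change (0 : ZMod p) = _ at k5
  change a 1 = _ at k6
  change (0 : ZMod p) = _ at k7
  change (0 : ZMod p) = _ at k8
  change (0 : ZMod p) = _ at k9
  change a 2 = 0 at k12
  change (0 : ZMod p) = _ at k13
  change (0 : ZMod p) = _ at k14
  change (0 : ZMod p) = _ at k15
  have he : e' = 0 := hl_four h5 (by linear_combination k3 - k15)
  subst he
  have hw : w = 0 := by linear_combination -k3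
  have hx : x = 0 := by linear_combination -k13
  have hy : y = 0 := by linear_combination -k14
  subst hw hx hy
  have ht : t = 0 := by linear_combination -k8
  subst ht
  have a4 : a 4 = 0 := by linear_combination k1
  have a0 : a 0 = 0 := by linear_combination k2
  have a3 : a 3 = 0 := by linear_combination k4
  have a1 : a 1 = 0 := by linear_combination k6
  unfold E24
  rw [a4, a0, a3, a1, k12]
  simp only [zero_smul, add_zero]

/-- the coefficient of `z_0 ^ 3` and all coefficients of `F` if `z_0 F` and `z_1 F` are in `K4` -/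
private theorem hl_div [Fact p.Prime] (h5 : 5 ≤ p) {a : ℕ → ZMod p} {b : ℕ → ℕ → ZMod p} {c : ZMod p}
    (h0 : z 0 * E33 a b c ∈ K4 p) (h1 : z 1 * E33 a b c ∈ K4 p) : (E33 a b c : Z p) = 0 := by
  have e0 : (z 0 * E33 a b c : Z p) = E34 (fun i => if i = 0 then a 0 else 0)
      (fun i j => if i = 0 then b 0 j else if j = 0 then a i else 0)
      (fun i => if i = 2 then b 1 0 else if i = 1 then b 2 0 else 0)
      (fun i => if i = 0 then c else if i = 1 then b 1 2 else b 2 1) := by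
    unfold E33 E34
    simp [MvPolynomial.smul_eq_C_mul]
    ring
  have e1 : (z 1 * E33 a b c : Z p) = E34 (fun i => if i = 1 then a 1 else 0)
      (fun i j => if i = 1 then b 1 j else if j = 1 then a i else 0)
      (fun i => if i = 2 then b 0 1 else if i = 0 then b 2 1 else 0)
      (fun i => if i = 1 then c else if i = 0 then b 0 2 else b 2 0) := by
    unfold E33 E34
    simp [MvPolynomial.smul_eq_C_mul]
    ring
  rw [e0] at h0
  rw [e1] at h1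
  obtain ⟨x, y, w, t, e, ⟨k1, k2, k3⟩, ⟨k4, k5, k6, k7, k8, k9⟩, ⟨k10, k11, k12⟩, ⟨k13, k14, k15⟩⟩ := hl_K4 h0
  obtain ⟨x', y', w', t', e', ⟨l1, l2, l3⟩, ⟨l4, l5, l6, l7, l8, l9⟩, ⟨l10, l11, l12⟩, ⟨l13, l14, l15⟩⟩ := hl_K4 h1
  change a 0 = _ at k1
  change (0 : ZMod p) = _ at k2
  change (0 : ZMod p) = _ at k3
  change b 0 1 = _ at k4
  change b 0 2 = _ at k5
  change a 1 = _ at k6
  change (0 : ZMod p) = _ at k7
  change a 2 = _ at k8
  change (0 : ZMod p) = _ at k9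
  change b 2 0 = _ at k11
  change b 1 0 = _ at k12
  change c = _ at k13
  change b 1 2 = _ at k14
  change b 2 1 = _ at k15
  change (0 : ZMod p) = _ at l1
  change (0 : ZMod p) = _ at l3
  change a 0 = _ at l4
  change (0 : ZMod p) = _ at l5
  change (0 : ZMod p) = _ at l8
  have he' : e' = 0 := hl_two h5 (by linear_combination l1 + l5 + l3 + l8)
  have he : e = 0 := hl_two h5 (by linear_combination k2 + k7 + k3 + k9)
  subst he he'
  have hx' : x' = 0 := by linear_combination -l1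
  have hw' : w' = 0 := by linear_combination -l3
  subst hx' hw'
  have ht' : t' = 0 := by linear_combination -l8
  subst ht'
  have a0 : a 0 = 0 := by linear_combination l4
  have hx : x = 0 := by linear_combination a0 - k1
  have hy : y = 0 := by linear_combination -k2
  have hw : w = 0 := by linear_combination -k3
  subst hx hy hw
  have ht : t = 0 := by linear_combination -k7
  subst ht
  have b01 : b 0 1 = 0 := by linear_combination k4
  have b02 : b 0 2 = 0 := by linear_combination k5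
  have a1 : a 1 = 0 := by linear_combination k6
  have a2 : a 2 = 0 := by linear_combination k8
  have hc : c = 0 := by linear_combination k13
  have b12 : b 1 2 = 0 := by linear_combination k14
  have b21 : b 2 1 = 0 := by linear_combination k15
  unfold E33
  rw [a0, a1, a2, b01, b02, b12, b21, hc, k11, k12]
  simp only [zero_smul, add_zero]

/-- two algebra homomorphisms that agree on the variables -/
private theorem hl_alg {n : ℕ} {f g : Z p →ₐ[ZMod p] Z p} (hfg : ∀ i < n, f (z i) = g (z i)) :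
    ∀ k, ∀ F ∈ Hh p n k, f F = g F := by
  intro k
  induction k with
  | zero =>
    intro F hF
    obtain ⟨c, rfl⟩ := exp0 hF
    rw [map_smul, map_smul, map_one, map_one]
  | succ k ih =>
    intro F hF
    rw [Hh_succ] at hF
    induction hF using Submodule.span_induction with
    | mem x hx =>
      obtain ⟨i, G, hi, hG, rfl⟩ := hx
      rw [map_mul, map_mul, hfg i hi, ih G hG]
    | zero => rw [map_zero, map_zero]
    | add x y _ _ hx hy => rw [map_add, map_add, hx, hy]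
    | smul c x _ hx => rw [map_smul, map_smul, hx]

private theorem hl_zpow {n i : ℕ} (hi : i < n) (k : ℕ) : (z i ^ k : Z p) ∈ Hh p n k := by
  induction k with
  | zero =>
    rw [pow_zero]
    exact one_Hh n
  | succ k ih =>
    rw [pow_succ]
    exact Hh_mul ih (z_Hh hi)

private theorem hl_zne [Fact p.Prime] (i k : ℕ) : (z i ^ k : Z p) ≠ 0 := pow_ne_zero k (MvPolynomial.X_ne_zero i)

private theorem hl_q [Fact p.Prime] {m : ℕ} {H : Z p} (hH : H ∈ Hh p 2 m)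
    (hq : ev 1 H - H - rn (Equiv.swap 1 2) H = 0) : H = 0 := by
  have e1 : ev 2 H = H := by
    have h1 := hl_alg (n := 2) (f := ev 2) (g := AlgHom.id (ZMod p) (Z p)) (fun i hi => by
      rw [ev_z, if_neg (by omega)]
      rfl) m H hH
    exact h1
  have e2 : ev 2 (ev 1 H) = ev 1 H := by
    have h1 := hl_alg (n := 2) (f := (ev 2 : Z p →ₐ[ZMod p] Z p).comp (ev 1)) (g := ev 1) (fun i hi => by
      rw [AlgHom.comp_apply, ev_z]
      split_ifs with h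
      · rw [map_zero]
      · rw [ev_z, if_neg (by omega)]) m H hH
    exact h1
  have e3 : ev 2 (rn (Equiv.swap 1 2) H) = ev 1 H := by
    have h1 := hl_alg (n := 2) (f := (ev 2 : Z p →ₐ[ZMod p] Z p).comp (rn (Equiv.swap 1 2))) (g := ev 1) (fun i hi => by
      rw [AlgHom.comp_apply, rn_z, ev_z, ev_z]
      obtain rfl | rfl : i = 0 ∨ i = 1 := by omega
      · rw [show (Equiv.swap (1 : ℕ) 2) 0 = 0 from rfl]
        rfl
      · rw [show (Equiv.swap (1 : ℕ) 2) 1 = 2 from rfl, if_pos rfl, if_pos rfl]) m H hH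
    exact h1
  have h1 := congrArg (ev 2) hq
  rw [map_sub, map_sub, e1, e2, e3, map_zero] at h1
  have e : H = -(ev 1 H - H - ev 1 H) := by ring
  rw [e, h1, neg_zero]

private theorem hl_24 [Fact p.Prime] (h5 : 5 ≤ p) {a : ℕ → ZMod p} (hd : dd 0 1 (E24 a) = 0)
    (ha : E24 a + rn (Equiv.swap 0 1) (E24 a) = 0)
    (hq : ev 1 (E24 a) - E24 a - rn (Equiv.swap 1 2) (E24 a) ∈ K4 p) : (E24 a : Z p) = 0 := by
  have s1 : (E24 a + rn (Equiv.swap 0 1) (E24 a) : Z p) =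
      E34 (fun i => if i = 2 then 0 else a 0 + a 4) (fun i j => if i = 2 ∨ j = 2 then 0 else a 1 + a 3)
        (fun i => if i = 2 then 2 * a 2 else 0) (fun _ => 0) := by
    unfold E24 E34
    simp only [map_add, map_smul, map_mul, map_pow, rn_z]
    rw [show (Equiv.swap (0 : ℕ) 1) 0 = 1 from rfl, show (Equiv.swap (0 : ℕ) 1) 1 = 0 from rfl]
    simp [MvPolynomial.smul_eq_C_mul, map_ofNat]
    ring
  have s2 : (ev 1 (E24 a) - E24 a - rn (Equiv.swap 1 2) (E24 a) : Z p) =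
      E34 (fun i => if i = 0 then -a 4 else -a 0)
        (fun i j => if i = 0 then -a 3 else if j = 0 then -a 1 else 0)
        (fun i => if i = 0 then 0 else -a 2) (fun _ => 0) := by
    unfold E24 E34
    simp only [map_add, map_smul, map_mul, map_pow, rn_z, ev_z]
    rw [show (Equiv.swap (1 : ℕ) 2) 0 = 0 from rfl, show (Equiv.swap (1 : ℕ) 2) 1 = 2 from rfl]
    simp [MvPolynomial.smul_eq_C_mul]
    ring
  rw [s1] at ha
  rw [s2] at hq
  obtain ⟨⟨m1, m2, m3⟩, ⟨m4, m5, m6, m7, m8, m9⟩, ⟨m10, m11, m12⟩, ⟨m13, m14, m15⟩⟩ := hl_zero ha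
  obtain ⟨x, y, w, t, e, ⟨k1, k2, k3⟩, ⟨k4, k5, k6, k7, k8, k9⟩, ⟨k10, k11, k12⟩, ⟨k13, k14, k15⟩⟩ := hl_K4 hq
  change a 0 + a 4 = 0 at m1
  change a 1 + a 3 = 0 at m4
  change 2 * a 2 = 0 at m12
  change -a 4 = _ at k1
  change -a 0 = _ at k2
  change (0 : ZMod p) = _ at k13
  change (0 : ZMod p) = _ at k14
  have a4 : a 4 = 0 := hl_two h5 (by linear_combination -k1 + k2 + k13 - k14 + m1)
  have a0 : a 0 = 0 := by linear_combination m1 - a4
  have a2 : a 2 = 0 := hl_two h5 m12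
  rw [dd01_E24] at hd
  have hs : 3 * a 4 + 2 * a 3 + a 2 = 0 := by
    by_contra hne
    have h1 := (smul_eq_zero.1 hd).resolve_left hne
    have h2 : (z 0 - z 1 : Z p) ≠ 0 := by
      intro h3
      have h4 : (z 0 : Z p) = z 1 := sub_eq_zero.1 h3
      exact absurd (MvPolynomial.X_injective h4) (by norm_num)
    exact (mul_ne_zero h2 (hl_zne 1 3)) h1
  have a3 : a 3 = 0 := hl_two h5 (by linear_combination hs - 3 * a4 - a2)
  have a1 : a 1 = 0 := by linear_combination m4 - a3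
  unfold E24
  rw [a4, a0, a3, a1, a2]
  simp only [zero_smul, add_zero]

theorem low5 {p : ℕ} [Fact p.Prime] (h5 : 5 ≤ p) {R : ℕ → ℕ → Submodule (ZMod p) (Z p)} (h : MS3 p R)
    (hK : R 3 4 ≤ K4 p) : (∀ k ≤ 4, R 2 k ≤ ⊥) ∧ ∀ k ≤ 3, R 3 k ≤ ⊥ := by
  have hp2 : 2 ≤ p := by omega
  constructor
  · intro k hk F hF
    have h1 := h.toMS.mulH hp2 (l := 4 - k) (by norm_num) hF (hl_zpow (p := p) (n := 2) (i := 0) (by norm_num) (4 - k))
    rw [show k + (4 - k) = 4 by omega] at h1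
    obtain ⟨a, ha⟩ := exp24 (h.le 2 4 (by norm_num) h1)
    have h2 := hK (h.toMS.up (n := 2) (n' := 3) (by norm_num) (by norm_num) h1)
    rw [ha] at h2
    rw [hl_no2 h5 h2] at ha
    exact (mul_eq_zero.1 ha).resolve_left (hl_zne 0 (4 - k))
  · have h3 : ∀ F ∈ R 3 3, F = 0 := by
      intro F hF
      obtain ⟨a, b, c, rfl⟩ := exp33 (h.le 3 3 (by norm_num) hF)
      exact hl_div h5 (hK (h.toMS.mulz hp2 (i := 0) (by norm_num) hF)) (hK (h.toMS.mulz hp2 (i := 1) (by norm_num) hF))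
    intro k hk F hF
    have h1 := h.toMS.mulH hp2 (l := 3 - k) (by norm_num) hF (hl_zpow (p := p) (n := 3) (i := 0) (by norm_num) (3 - k))
    rw [show k + (3 - k) = 3 by omega] at h1
    exact (mul_eq_zero.1 (h3 _ h1)).resolve_left (hl_zne 0 (3 - k))

theorem hk5 {p : ℕ} [Fact p.Prime] (h5 : 5 ≤ p) {R : ℕ → ℕ → Submodule (ZMod p) (Z p)} (h : MS3 p R)
    (hK : R 3 4 ≤ K4 p) {m : ℕ} (h1 : 1 ≤ m) (h4 : m ≤ 4) {H : Z p} (hH : H ∈ Hh p 2 m)
    (hd : dd 0 1 H ∈ R 2 m) (hd' : dd 1 0 H ∈ R 2 m) (ha : H + rn (Equiv.swap 0 1) H ∈ R 2 m)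
    (hq : ev 1 H - H - rn (Equiv.swap 1 2) H ∈ R 3 m) : H = 0 := by
  obtain ⟨l2, l3⟩ := low5 h5 h hK
  rcases Nat.lt_or_ge m 4 with hm | hm
  · exact hl_q hH (l3 m (by omega) hq)
  · obtain rfl : m = 4 := by omega
    obtain ⟨a, rfl⟩ := exp24 hH
    exact hl_24 h5 (l2 4 le_rfl hd) (l2 4 le_rfl ha) (hK hq)

end ADQ
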