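import Pool.Agent.ADQ.Tool2b
import Pool.Agent.ADQ.Tool2c
import Pool.Agent.ADQ.ExpD

/-!
# ADQ-HLow3 (the theorems `low3`, `hk3`)
-/

namespace ADQ

open AD ADN ADC

private noncomputable def c3 (i j k : ℕ) (F : Z 3) : ZMod 3 :=
  MvPolynomial.coeff (Finsupp.single 0 i + Finsupp.single 1 j + Finsupp.single 2 k) F

private noncomputable def m3 (i j k : ℕ) : Z 3 := z 0 ^ i * z 1 ^ j * z 2 ^ k

private theorem c3_add (i j k : ℕ) (F G : Z 3) : c3 i j k (F + G) = c3 i j k F + c3 i j k G :=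
  MvPolynomial.coeff_add _ _ _

private theorem c3_sub (i j k : ℕ) (F G : Z 3) : c3 i j k (F - G) = c3 i j k F - c3 i j k G :=
  MvPolynomial.coeff_sub _ _ _ _

private theorem c3_smul (i j k : ℕ) (a : ZMod 3) (F : Z 3) : c3 i j k (a • F) = a * c3 i j k F := by
  unfold c3
  rw [MvPolynomial.coeff_smul, smul_eq_mul]

private theorem c3_zero (i j k : ℕ) : c3 i j k 0 = 0 := MvPolynomial.coeff_zero _

private theorem c3_inj {i j k i' j' k' : ℕ} :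
    (Finsupp.single 0 i' + Finsupp.single 1 j' + Finsupp.single 2 k' : ℕ →₀ ℕ) =
      Finsupp.single 0 i + Finsupp.single 1 j + Finsupp.single 2 k ↔ i' = i ∧ j' = j ∧ k' = k := by
  constructor
  · intro h
    have h0 := DFunLike.congr_fun h 0
    have h1 := DFunLike.congr_fun h 1
    have h2 := DFunLike.congr_fun h 2
    simp at h0 h1 h2
    exact ⟨h0, h1, h2⟩
  · rintro ⟨rfl, rfl, rfl⟩
    rfl

private theorem c3_m3 (i j k i' j' k' : ℕ) :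
    c3 i j k (m3 i' j' k') = if i' = i ∧ j' = j ∧ k' = k then 1 else 0 := by
  classical
  have e : m3 i' j' k' = mo (Finsupp.single 0 i' + Finsupp.single 1 j' + Finsupp.single 2 k') := by
    unfold m3
    rw [mo_add, mo_add, mo_single, mo_single, mo_single]
  rw [e]
  unfold c3 mo
  rw [MvPolynomial.coeff_monomial]
  by_cases h : i' = i ∧ j' = j ∧ k' = k
  · rw [if_pos h, if_pos (c3_inj.2 h)]
  · rw [if_neg h, if_neg (fun h' => h (c3_inj.1 h'))]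

private theorem c3_z0 (i j k : ℕ) (F : Z 3) : c3 (i + 1) j k (z 0 * F) = c3 i j k F := by
  unfold c3
  have e : (Finsupp.single 0 (i + 1) + Finsupp.single 1 j + Finsupp.single 2 k : ℕ →₀ ℕ) =
      Finsupp.single 0 1 + (Finsupp.single 0 i + Finsupp.single 1 j + Finsupp.single 2 k) := by
    rw [add_comm i 1, Finsupp.single_add]
    abel
  rw [e]
  exact MvPolynomial.coeff_X_mul _ _ _

private theorem c3_z0' (j k : ℕ) (F : Z 3) : c3 0 j k (z 0 * F) = 0 := by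
  unfold c3
  rw [MvPolynomial.coeff_X_mul', if_neg]
  simp

private theorem c3_z1 (i j k : ℕ) (F : Z 3) : c3 i (j + 1) k (z 1 * F) = c3 i j k F := by
  unfold c3
  have e : (Finsupp.single 0 i + Finsupp.single 1 (j + 1) + Finsupp.single 2 k : ℕ →₀ ℕ) =
      Finsupp.single 1 1 + (Finsupp.single 0 i + Finsupp.single 1 j + Finsupp.single 2 k) := by
    rw [add_comm j 1, Finsupp.single_add]
    abel
  rw [e]
  exact MvPolynomial.coeff_X_mul _ _ _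

private theorem c3_z1' (i k : ℕ) (F : Z 3) : c3 i 0 k (z 1 * F) = 0 := by
  unfold c3
  rw [MvPolynomial.coeff_X_mul', if_neg]
  simp

private theorem c3_no {m : ℕ} {F : Z 3} (hF : F ∈ Hh 3 2 m) (i j k : ℕ) : c3 i j (k + 1) F = 0 := by
  classical
  unfold Hh at hF
  induction hF using Submodule.span_induction with
  | mem x hx =>
    obtain ⟨m', hm, -, rfl⟩ := hx
    unfold c3 mo
    rw [MvPolynomial.coeff_monomial, if_neg]
    intro h
    have h2 := DFunLike.congr_fun h 2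
    rw [hm 2 le_rfl] at h2
    simp at h2
  | zero => exact c3_zero _ _ _
  | add x y _ _ hx hy => rw [c3_add, hx, hy, add_zero]
  | smul c x _ hx => rw [c3_smul, hx, mul_zero]

private theorem e012 : (F3 0 1 2 : Z 3) = m3 3 0 0 - m3 2 1 0 - m3 2 0 1 + m3 1 1 1 := by
  unfold F3 m3
  ring

private theorem e102 : (F3 1 0 2 : Z 3) = m3 0 3 0 - m3 1 2 0 - m3 0 2 1 + m3 1 1 1 := by
  unfold F3 m3
  ring

private theorem e201 : (F3 2 0 1 : Z 3) = m3 0 0 3 - m3 1 0 2 - m3 0 1 2 + m3 1 1 1 := by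
  unfold F3 m3
  ring

private theorem eD3 : (D3 : Z 3) = m3 2 1 0 - m3 2 0 1 + m3 0 2 1 - m3 1 2 0 + m3 1 0 2 - m3 0 1 2 := by
  unfold D3 m3
  ring

/-- the elements of `K3 3` -/
private theorem K3_iff {F : Z 3} (hF : F ∈ K3 3) : ∃ f0 f1 f2 g : ZMod 3,
    c3 3 0 0 F = f0 ∧ c3 0 3 0 F = f1 ∧ c3 0 0 3 F = f2 ∧ c3 2 1 0 F = -f0 + g ∧ c3 2 0 1 F = -f0 - g ∧
    c3 1 2 0 F = -f1 - g ∧ c3 0 2 1 F = -f1 + g ∧ c3 1 0 2 F = -f2 + g ∧ c3 0 1 2 F = -f2 - g ∧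
    c3 1 1 1 F = f0 + f1 + f2 ∧ (f0 = 0 → f1 = 0 → f2 = 0 → g = 0 → F = 0) := by
  unfold K3 at hF
  obtain ⟨f0, F', h0, rfl⟩ := Submodule.mem_span_insert.1 hF
  obtain ⟨f1, F'', h1, rfl⟩ := Submodule.mem_span_insert.1 h0
  obtain ⟨f2, F''', h2, rfl⟩ := Submodule.mem_span_insert.1 h1
  obtain ⟨g, rfl⟩ := Submodule.mem_span_singleton.1 h2
  refine ⟨f0, f1, f2, g, ?_⟩
  rw [e012, e102, e201, eD3]
  simp only [c3_add, c3_sub, c3_smul, c3_m3]
  have hl : f0 = 0 → f1 = 0 → f2 = 0 → g = 0 → f0 • (m3 3 0 0 - m3 2 1 0 - m3 2 0 1 + m3 1 1 1) +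
      (f1 • (m3 0 3 0 - m3 1 2 0 - m3 0 2 1 + m3 1 1 1) +
        (f2 • (m3 0 0 3 - m3 1 0 2 - m3 0 1 2 + m3 1 1 1) +
          g • (m3 2 1 0 - m3 2 0 1 + m3 0 2 1 - m3 1 2 0 + m3 1 0 2 - m3 0 1 2))) = 0 := by
    intro a1 a2 a3 a4
    rw [a1, a2, a3, a4]
    simp
  refine ⟨?_, ?_, ?_, ?_, ?_, ?_, ?_, ?_, ?_, ?_, hl⟩ <;> norm_num <;> ring

private theorem two_ne {g : ZMod 3} (h : 2 * g = 0) : g = 0 := by
  revert g
  decide

private theorem z_ne (i : ℕ) : (z i : Z 3) ≠ 0 := MvPolynomial.X_ne_zero i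

/-- no `z_2` -/
private theorem hl_a {F : Z 3} (hF : F ∈ K3 3) (hF' : F ∈ Hh 3 2 3) : F = 0 := by
  obtain ⟨f0, f1, f2, g, -, -, a3, -, a5, -, a7, a8, -, -, a⟩ := K3_iff hF
  rw [c3_no hF'] at a3 a5 a7 a8
  have h2 : f2 = 0 := a3.symm
  have hg : g = 0 := by linear_combination -a8 + h2
  exact a (by linear_combination a5 - hg) (by linear_combination a7 + hg) h2 hg

private theorem hl_b {F : Z 3} (h0 : z 0 * F ∈ K3 3) (h1 : z 1 * F ∈ K3 3) : F = 0 := by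
  obtain ⟨f0, f1, f2, g, a1, a2, a3, -, -, -, a7, -, -, -, a⟩ := K3_iff h0
  obtain ⟨e0, e1, e2, k, b1, b2, b3, b4, b5, -, -, -, -, -, -⟩ := K3_iff h1
  rw [c3_z0'] at a2 a3 a7
  rw [c3_z1'] at b1 b3 b5
  rw [c3_z0 2 0 0] at a1
  rw [c3_z1 2 0 0] at b4
  have hg : g = 0 := by linear_combination -a7 + (-1 : ZMod 3) * a2
  have hk : k = 0 := by linear_combination b5 + (-1 : ZMod 3) * (-b1)
  have hf0 : f0 = 0 := by
    rw [← a1, b4, hk, ← b1]
    ring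
  have h := a hf0 a2.symm a3.symm hg
  exact (mul_eq_zero.1 h).resolve_left (z_ne 0)

private theorem hl_c {F : Z 3} (h : z 0 * F = 0) : F = 0 := (mul_eq_zero.1 h).resolve_left (z_ne 0)

theorem low3 {R : ℕ → ℕ → Submodule (ZMod 3) (Z 3)} (h : MS3 3 R)
    (hK : R 3 3 ≤ K3 3) : (∀ k ≤ 3, R 2 k ≤ ⊥) ∧ ∀ k ≤ 2, R 3 k ≤ ⊥ := by
  have hm := h.toMS
  have s2 : ∀ k, R 2 (k + 1) ≤ ⊥ → R 2 k ≤ ⊥ := by
    intro k hk F hF
    have h1 := hk (hm.mulz (by norm_num) (i := 0) (by norm_num) hF)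
    rw [Submodule.mem_bot] at h1 ⊢
    exact hl_c h1
  have s3 : ∀ k, R 3 (k + 1) ≤ ⊥ → R 3 k ≤ ⊥ := by
    intro k hk F hF
    have h1 := hk (hm.mulz (by norm_num) (i := 0) (by norm_num) hF)
    rw [Submodule.mem_bot] at h1 ⊢
    exact hl_c h1
  have h23 : R 2 3 ≤ ⊥ := by
    intro F hF
    rw [Submodule.mem_bot]
    exact hl_a (hK (hm.up (by norm_num) (by norm_num) hF)) (hm.le 2 3 (by norm_num) hF)
  have h22 := s2 2 h23
  have h21 := s2 1 h22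
  have h20 := s2 0 h21
  have h32 : R 3 2 ≤ ⊥ := by
    intro F hF
    rw [Submodule.mem_bot]
    exact hl_b (hK (hm.mulz (by norm_num) (i := 0) (by norm_num) hF))
      (hK (hm.mulz (by norm_num) (i := 1) (by norm_num) hF))
  have h31 := s3 1 h32
  have h30 := s3 0 h31
  constructor
  · intro k hk
    interval_cases k <;> assumption
  · intro k hk
    interval_cases k <;> assumption

/-- the elements of degree 1 -/
private theorem exp21 {F : Z 3} (hF : F ∈ Hh 3 2 1) : ∃ a b : ZMod 3, F = a • z 0 + b • z 1 := by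
  rw [Hh_succ] at hF
  induction hF using Submodule.span_induction with
  | mem x hx =>
    obtain ⟨i, G, hi, hG, rfl⟩ := hx
    obtain ⟨c, rfl⟩ := exp0 hG
    interval_cases i
    · exact ⟨c, 0, by simp⟩
    · exact ⟨0, c, by simp⟩
  | zero => exact ⟨0, 0, by simp⟩
  | add x y _ _ hx hy =>
    obtain ⟨a, b, rfl⟩ := hx
    obtain ⟨a', b', rfl⟩ := hy
    exact ⟨a + a', b + b', by module⟩
  | smul c x _ hx =>
    obtain ⟨a, b, rfl⟩ := hx
    exact ⟨c * a, c * b, by module⟩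

private theorem sw0 : Equiv.swap (1 : ℕ) 2 0 = 0 := rfl

private theorem hk_one {H : Z 3} (hH : H ∈ Hh 3 2 1) (hq : ev 1 H - H - rn (Equiv.swap 1 2) H = 0) : H = 0 := by
  obtain ⟨a, b, rfl⟩ := exp21 hH
  have e : ev 1 (a • z 0 + b • z 1 : Z 3) - (a • z 0 + b • z 1) - rn (Equiv.swap 1 2) (a • z 0 + b • z 1) =
      (-a) • m3 1 0 0 + (-b) • m3 0 1 0 + (-b) • m3 0 0 1 := by
    simp only [map_add, map_smul, ev_z, rn_z, m3, sw0]
    simp
    module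
  rw [e] at hq
  have q1 := congrArg (c3 1 0 0) hq
  have q2 := congrArg (c3 0 1 0) hq
  simp only [c3_add, c3_smul, c3_m3, c3_zero] at q1 q2
  norm_num at q1 q2
  rw [q1, q2]
  simp

private theorem hk_two {H : Z 3} (hH : H ∈ Hh 3 2 2) (ha : H + rn (Equiv.swap 0 1) H = 0)
    (hq : ev 1 H - H - rn (Equiv.swap 1 2) H = 0) : H = 0 := by
  obtain ⟨a, rfl⟩ := exp22 hH
  have e1 : (a 0 • z 1 ^ 2 + a 1 • (z 0 * z 1) + a 2 • z 0 ^ 2 : Z 3) +
      rn (Equiv.swap 0 1) (a 0 • z 1 ^ 2 + a 1 • (z 0 * z 1) + a 2 • z 0 ^ 2) =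
      (a 0 + a 2) • m3 0 2 0 + (2 * a 1) • m3 1 1 0 + (a 0 + a 2) • m3 2 0 0 := by
    simp only [map_add, map_smul, map_mul, map_pow, rn_z, m3]
    simp
    rw [mul_comm (z 1 : Z 3) (z 0)]
    module
  have e2 : ev 1 (a 0 • z 1 ^ 2 + a 1 • (z 0 * z 1) + a 2 • z 0 ^ 2 : Z 3) -
      (a 0 • z 1 ^ 2 + a 1 • (z 0 * z 1) + a 2 • z 0 ^ 2) -
      rn (Equiv.swap 1 2) (a 0 • z 1 ^ 2 + a 1 • (z 0 * z 1) + a 2 • z 0 ^ 2) =
      (-a 0) • m3 0 2 0 + (-a 0) • m3 0 0 2 + (-a 1) • m3 1 1 0 + (-a 1) • m3 1 0 1 + (-a 2) • m3 2 0 0 := by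
    simp only [map_add, map_smul, map_mul, map_pow, ev_z, rn_z, m3, sw0]
    simp
    module
  rw [e1] at ha
  rw [e2] at hq
  have q0 := congrArg (c3 0 2 0) hq
  have q1 := congrArg (c3 1 1 0) hq
  have q2 := congrArg (c3 2 0 0) hq
  simp only [c3_add, c3_smul, c3_m3, c3_zero] at q0 q1 q2
  norm_num at q0 q1 q2
  rw [q0, q1, q2]
  simp

private theorem hk_three {H : Z 3} (hH : H ∈ Hh 3 2 3) (ha : H + rn (Equiv.swap 0 1) H = 0)
    (hq : ev 1 H - H - rn (Equiv.swap 1 2) H ∈ K3 3) : H = 0 := by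
  obtain ⟨a, rfl⟩ := exp23 hH
  have e1 : (E23 a : Z 3) + rn (Equiv.swap 0 1) (E23 a) =
      (a 0 + a 3) • m3 0 3 0 + (a 1 + a 2) • m3 1 2 0 + (a 1 + a 2) • m3 2 1 0 + (a 0 + a 3) • m3 3 0 0 := by
    unfold E23
    simp only [map_add, map_smul, map_mul, map_pow, rn_z, m3]
    simp
    rw [mul_comm (z 1 : Z 3) (z 0 ^ 2), mul_comm (z 1 ^ 2 : Z 3) (z 0)]
    module
  have e2 : ev 1 (E23 a : Z 3) - E23 a - rn (Equiv.swap 1 2) (E23 a) =
      (-a 0) • m3 0 3 0 + (-a 0) • m3 0 0 3 + (-a 1) • m3 1 2 0 + (-a 1) • m3 1 0 2 + (-a 2) • m3 2 1 0 +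
        (-a 2) • m3 2 0 1 + (-a 3) • m3 3 0 0 := by
    unfold E23
    simp only [map_add, map_smul, map_mul, map_pow, ev_z, rn_z, m3, sw0]
    simp
    module
  rw [e1] at ha
  rw [e2] at hq
  have q0 := congrArg (c3 0 3 0) ha
  simp only [c3_add, c3_smul, c3_m3, c3_zero] at q0
  norm_num at q0
  obtain ⟨f0, f1, f2, g, a1, a2, a3, a4, a5, a6, -, -, -, a10, -⟩ := K3_iff hq
  simp only [c3_add, c3_smul, c3_m3] at a1 a2 a3 a4 a5 a6 a10
  norm_num at a1 a2 a3 a4 a5 a6 a10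
  have hg : g = 0 := two_ne (by linear_combination a5 - a4)
  have h3 : a 3 = 0 := by linear_combination -a10 + a1 + a2 + a3 + 2 * q0
  have h0 : a 0 = 0 := by linear_combination q0 - h3
  have h2 : a 2 = 0 := by linear_combination -a4 - a1 - hg - h3
  have h1 : a 1 = 0 := by linear_combination -a6 - a2 + hg - h0
  unfold E23
  rw [h0, h1, h2, h3]
  simp

theorem hk3 {R : ℕ → ℕ → Submodule (ZMod 3) (Z 3)} (h : MS3 3 R)
    (hK : R 3 3 ≤ K3 3) {m : ℕ} (h1 : 1 ≤ m) (h4 : m ≤ 3) {H : Z 3} (hH : H ∈ Hh 3 2 m)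
    (hd : dd 0 1 H ∈ R 2 m) (hd' : dd 1 0 H ∈ R 2 m) (ha : H + rn (Equiv.swap 0 1) H ∈ R 2 m)
    (hq : ev 1 H - H - rn (Equiv.swap 1 2) H ∈ R 3 m) : H = 0 := by
  obtain ⟨l2, l3⟩ := low3 h hK
  have ha' := (Submodule.mem_bot _).1 (l2 m h4 ha)
  interval_cases m
  · exact hk_one hH ((Submodule.mem_bot _).1 (l3 1 (by norm_num) hq))
  · exact hk_two hH ha' ((Submodule.mem_bot _).1 (l3 2 le_rfl hq))
  · exact hk_three hH ha' (hK hq)

end ADQ
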