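import Pool.Agent.ADQ.TOz
import Pool.Agent.ADQ.Lif

/-!
# ADQ-OIdt: identification of `p` variables

`Φ = fIdt g = tl (sb (x_j ↦ x_{g j}))`, a word `w` becomes `w.map g`.  `up`: the length does not change and `n + (p-1) + (p-1) k = n + (p-1) (k+1)`.
`val`: for `zw p (n+(p-1)) w`: the count of `j < n` in `w.map g` is the sum of the counts of the `t < n + (p-1)` with `g t = j`: for `j ≠ i` this is one
letter, for `j = i` these are `p` letters, `∑ (1 + (p-1) m_t) = p + (p-1) ∑ m_t = 1 + (p-1) (1 + ∑ m_t)`.  So `zw p n (w.map g)` and
`zx p n (w.map g) = Finsupp.mapDomain g (zx p (n+(p-1)) w) + single i 1`; `z i * rn g (mo m) = mo (single i 1 + m.mapDomain g)`.  (`mapDomain g m j = ∑ t with g t = j, m t`.)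
-/

namespace ADQ

open AD ADN ADC

private theorem oi_map (g : ℕ → ℕ) (w : List ℕ) : fIdt g (mon w) = mon (w.map g) := by
  unfold fIdt
  rw [tl_apply, sb_mon]
  unfold mon
  rw [List.map_map]
  rfl

private theorem oi_cnt (g : ℕ → ℕ) (N j : ℕ) (w : List ℕ) (hw : ∀ a ∈ w, a < N) :
    (w.map g).count j = ∑ t ∈ (Finset.range N).filter (fun t => g t = j), w.count t := by
  induction w with
  | nil => simp
  | cons a w ih =>
    have ih' := ih (fun b hb => hw b (List.mem_cons_of_mem _ hb))
    have ha : a < N := hw a List.mem_cons_self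
    rw [List.map_cons, List.count_cons, ih']
    simp only [List.count_cons, Finset.sum_add_distrib, beq_iff_eq, Finset.sum_ite_eq, Finset.mem_filter,
      Finset.mem_range]
    congr 1
    by_cases h : g a = j
    · rw [if_pos h, if_pos ⟨ha, h⟩]
    · rw [if_neg h, if_neg (fun h' => h h'.2)]

theorem oidt {p n k i : ℕ} (hp : p.Prime) (hi : i < n) {g : ℕ → ℕ} (h1 : ∀ j < n + (p - 1), g j < n)
    (h2 : ∀ j < n, ((Finset.range (n + (p - 1))).filter (fun t => g t = j)).card = if j = i then p else 1) :
    Opr p (n + (p - 1)) k n (k + 1) (fIdt g) ((LinearMap.mulLeft (ZMod p) (z i)).comp (rn g).toLinearMap) := by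
  have hp2 := hp.two_le
  have hN : n + (p - 1) + (p - 1) * k = n + (p - 1) * (k + 1) := by
    rw [Nat.mul_succ]
    omega
  refine ⟨?_, ?_, ?_⟩
  · intro D hD _ f hf
    unfold fIdt
    rw [tl_apply]
    exact sb_mem hD (fun i => X_mem _) hf
  · intro f hf
    rw [hN] at hf
    unfold Fge at hf
    induction hf using Submodule.span_induction with
    | mem f hf =>
      obtain ⟨w, hw, rfl⟩ := hf
      rw [oi_map]
      refine Submodule.subset_span ⟨_, ?_, rfl⟩
      rw [List.length_map]
      exact hw
    | zero => rw [map_zero]; exact Submodule.zero_mem _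
    | add x y _ _ hx hy => rw [map_add]; exact Submodule.add_mem _ hx hy
    | smul c x _ hx => rw [map_smul]; exact Submodule.smul_mem _ _ hx
  · intro w hw hl
    have hS : ∀ j, j < n → (w.map g).count j = (if j = i then p else 1) +
        (p - 1) * ∑ t ∈ (Finset.range (n + (p - 1))).filter (fun t => g t = j), zx p (n + (p - 1)) w t := by
      intro j hj
      rw [oi_cnt g (n + (p - 1)) j w hw.1, Finset.mul_sum, ← h2 j hj, Finset.card_eq_sum_ones,
        ← Finset.sum_add_distrib]
      refine Finset.sum_congr rfl (fun t ht => ?_)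
      exact zw_count hp2 hw (Finset.mem_range.1 (Finset.mem_filter.1 ht).1)
    have hz : zw p n (w.map g) := by
      constructor
      · intro j hj
        obtain ⟨a, ha, rfl⟩ := List.mem_map.1 hj
        exact h1 a (hw.1 a ha)
      · intro j hj
        rw [hS j hj]
        by_cases h : j = i
        · rw [if_pos h]
          refine ⟨by omega, ?_⟩
          have e : p + (p - 1) * ∑ t ∈ (Finset.range (n + (p - 1))).filter (fun t => g t = j),
              zx p (n + (p - 1)) w t - 1 = (p - 1) + (p - 1) *
              ∑ t ∈ (Finset.range (n + (p - 1))).filter (fun t => g t = j), zx p (n + (p - 1)) w t := by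
            omega
          rw [e]
          exact dvd_add dvd_rfl (dvd_mul_right _ _)
        · rw [if_neg h]
          refine ⟨by omega, ?_⟩
          rw [Nat.add_sub_cancel_left]
          exact dvd_mul_right _ _
    refine ⟨mon (w.map g), Submodule.subset_span ⟨_, hz, ?_, rfl⟩, ?_, ?_⟩
    · rw [List.length_map, hl, hN]
    · rw [oi_map, sub_self]
      exact Submodule.zero_mem _
    · rw [zi_mon hz, LinearMap.comp_apply, AlgHom.toLinearMap_apply, LinearMap.mulLeft_apply]
      have key : zx p n (w.map g) = Finsupp.single i 1 + Finsupp.mapDomain g (zx p (n + (p - 1)) w) := ?_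
      · rw [key]
        unfold mo rn z
        rw [MvPolynomial.rename_monomial, MvPolynomial.X, MvPolynomial.monomial_mul, one_mul]
      ext j
      rw [zx_apply, Finsupp.add_apply]
      have e : (Finsupp.mapDomain g (zx p (n + (p - 1)) w)) j =
          ∑ t ∈ (Finset.range (n + (p - 1))).filter (fun t => g t = j), zx p (n + (p - 1)) w t := by
        conv_lhs => unfold zx
        rw [Finsupp.mapDomain_finsetSum, Finsupp.finsetSum_apply, Finset.sum_filter]
        simp only [Finsupp.mapDomain_single]
        refine Finset.sum_congr rfl (fun t ht => ?_)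
        rw [Finsupp.single_apply, zx_apply, if_pos (Finset.mem_range.1 ht)]
      rw [e, Finsupp.single_apply]
      by_cases hj : j < n
      · rw [if_pos hj, hS j hj]
        by_cases h : j = i
        · rw [if_pos h, if_pos h.symm]
          have e2 : p + (p - 1) * ∑ t ∈ (Finset.range (n + (p - 1))).filter (fun t => g t = j),
              zx p (n + (p - 1)) w t - 1 = (p - 1) * (1 +
              ∑ t ∈ (Finset.range (n + (p - 1))).filter (fun t => g t = j), zx p (n + (p - 1)) w t) := by
            rw [Nat.mul_add, Nat.mul_one]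
            omega
          rw [e2, Nat.mul_div_cancel_left _ (by omega)]
        · rw [if_neg h, if_neg (fun h' => h h'.symm), Nat.add_sub_cancel_left,
            Nat.mul_div_cancel_left _ (by omega), zero_add]
      · have hij : i ≠ j := by omega
        rw [if_neg hj, if_neg hij, zero_add, Finset.sum_eq_zero]
        intro t ht
        rw [Finset.mem_filter, Finset.mem_range] at ht
        exact absurd (ht.2 ▸ h1 t ht.1) hj

end ADQ
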