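import Pool.Agent.ADQ.OprR
import Pool.Agent.ADQ.ORen
import Pool.Agent.ADQ.OZer
import Pool.Agent.ADQ.OIdt
import Pool.Agent.ADQ.ODd
import Pool.Agent.ADQ.OXx

/-!
# ADQ-MSR: the leading forms of a near-commutative T-ideal form a system `MS3` or `MS2`

`RR_op` for the operators `oren`, `oidt`, `ozer`, `odd`, `oxx`; `RR_le`.
-/

namespace ADQ

open AD ADN ADC

theorem RR_MS {p : ℕ} [Fact p.Prime] {I : Submodule ℤ P} (h : NC p I) : MS p (RR p I) where
  le n k hn := RR_le h hn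
  ren n n' k g hn h1 h2 F hF := RR_op h hn (oren h.pp hn h1 h2) hF
  idt n k i g hi h1 h2 F hF := RR_op h (by omega) (oidt h.pp hi h1 h2) hF
  zer n k i hi F hF := RR_op h (by omega) (ozer h.pp hi) hF

theorem RR_MS3 {p : ℕ} [Fact p.Prime] (h3 : 3 ≤ p) {I : Submodule ℤ P} (h : NC p I) : MS3 p (RR p I) where
  toMS := RR_MS h
  dd n k i j hk hi hj hij F hF := RR_op h (by omega) (odd h.pp h3 hk hi hj hij) hF

theorem RR_MS2 {I : Submodule ℤ P} (h : NC 2 I) : MS2 (RR 2 I) :=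
  have : Fact (Nat.Prime 2) := ⟨Nat.prime_two⟩
  { toMS := RR_MS h
    xx := fun n k i hi F hF => RR_op h (by omega) (oxx hi) hF }

end ADQ
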