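import Pool.Agent.ADQ.HCom
import Pool.Agent.ADQ.HLow
import Pool.Agent.ADQ.HLow3
import Pool.Agent.ADQ.MSR
import Pool.Agent.ADQ.Defs2

/-!
# ADQ-HHigh

`cm 0 1 ∈ I ⊔ Fge (2 + (p-1) m)` for `m ≤ q + 1`, by induction on `m`: the leading form `H` of degree `m ≤ q` vanishes (`comForm`, `hk5`, `hk3`),
so `cm 0 1 ∈ I ⊔ Fge (2 + (p-1) m + 1)` (`zi_ker`), and `wp (zw p 2)` improves this to `Fge (2 + (p-1) (m+1))` (`zw_length`).
-/

namespace ADQ

open AD ADN ADC

private theorem hh_cm (p : ℕ) : wp (zw p 2) (cm 0 1) = cm 0 1 := by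
  have e : (cm 0 1 : P) = mon [0, 1] - mon [1, 0] := by
    unfold cm
    rw [mon_cons, mon_single, mon_cons, mon_single]
  have h1 : zw p 2 [0, 1] := by
    refine ⟨by decide, fun i hi => ?_⟩
    interval_cases i
    · exact ⟨le_rfl, dvd_zero _⟩
    · exact ⟨le_rfl, dvd_zero _⟩
  have h2 : zw p 2 [1, 0] := by
    refine ⟨by decide, fun i hi => ?_⟩
    interval_cases i
    · exact ⟨le_rfl, dvd_zero _⟩
    · exact ⟨le_rfl, dvd_zero _⟩
  rw [e, map_sub, wp_pos h1, wp_pos h2]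

private theorem hh_Fge {p : ℕ} (hp : 2 ≤ p) {m : ℕ} {r : P} (hr : r ∈ Fge (2 + (p - 1) * m + 1)) :
    wp (zw p 2) r ∈ Fge (2 + (p - 1) * (m + 1)) := by
  unfold Fge at hr
  induction hr using Submodule.span_induction with
  | mem x hx =>
    obtain ⟨w, hw, rfl⟩ := hx
    by_cases hz : zw p 2 w
    · rw [wp_pos hz]
      refine Submodule.subset_span ⟨w, ?_, rfl⟩
      have h1 := zw_length hp hz
      have h2 : m + 1 ≤ (zx p 2 w).degree := by
        by_contra hc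
        have h3 : (p - 1) * (zx p 2 w).degree ≤ (p - 1) * m := Nat.mul_le_mul_left _ (by omega)
        omega
      have h3 : (p - 1) * (m + 1) ≤ (p - 1) * (zx p 2 w).degree := Nat.mul_le_mul_left _ h2
      omega
    · rw [wp_neg hz]
      exact Submodule.zero_mem _
  | zero => rw [map_zero]; exact Submodule.zero_mem _
  | add x y _ _ hx hy => rw [map_add]; exact Submodule.add_mem _ hx hy
  | smul c x _ hx => rw [map_smul]; exact Submodule.smul_mem _ _ hx

private theorem hh_step {p : ℕ} [Fact p.Prime] (h3 : 3 ≤ p) {I : Submodule ℤ P} (h : NC p I) {m : ℕ} (hm : 1 ≤ m)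
    (hc : cm 0 1 ∈ I ⊔ Fge (2 + (p - 1) * m))
    (h0 : ∀ H : Z p, H ∈ Hh p 2 m → dd 0 1 H ∈ RR p I 2 m → dd 1 0 H ∈ RR p I 2 m →
      H + rn (Equiv.swap 0 1) H ∈ RR p I 2 m → ev 1 H - H - rn (Equiv.swap 1 2) H ∈ RR p I 3 m → H = 0)
    (hm4 : m ≤ 4) : cm 0 1 ∈ I ⊔ Fge (2 + (p - 1) * (m + 1)) := by
  obtain ⟨H, hH, ⟨f, hf, hfH, hcf⟩, hd, ha, hq⟩ := comForm h3 h hm hc
  have hH0 := h0 H hH (hd hm4).1 (hd hm4).2 ha hq
  rw [hH0] at hfH
  have hcom : cm 0 1 ∈ I ⊔ Fge (p - 1 + 2) := by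
    have e : p - 1 + 2 = p + 1 := by omega
    rw [e]
    exact h.com
  have h1 := zi_ker h.isT h.mul hcom (by norm_num) hf hfH
  have h2 : f ∈ I ⊔ Fge (2 + (p - 1) * m + 1) :=
    (sup_le_sup_left (Fge_anti (by omega)) I) h1
  have h4 := Submodule.add_mem _ hcf h2
  rw [sub_add_cancel] at h4
  obtain ⟨i, hi, r, hr, hir⟩ := Submodule.mem_sup.1 h4
  have h5 := TO_zw h.pp 2 I h.isT h.mul i hi
  have h6 := hh_Fge (by omega) hr
  rw [← hh_cm p, ← hir, map_add]
  exact Submodule.add_mem_sup h5 h6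

theorem comHigh {p : ℕ} [Fact p.Prime] (h3 : 3 ≤ p) {I : Submodule ℤ P} (h : NC p I)
    (hK5 : 5 ≤ p → RR p I 3 4 ≤ K4 p) (hK3 : p = 3 → RR p I 3 3 ≤ K3 p) :
    cm 0 1 ∈ I ⊔ Fge (2 + (p - 1) * (qq p + 1)) := by
  have key : ∀ m, m ≤ qq p → cm 0 1 ∈ I ⊔ Fge (2 + (p - 1) * (m + 1)) := by
    intro m
    induction m with
    | zero =>
      intro _
      have e : 2 + (p - 1) * (0 + 1) = p + 1 := by omega
      rw [e]
      exact h.com
    | succ m ih =>
      intro hm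
      have h1 := ih (by omega)
      by_cases hp : p = 3
      · subst hp
        have hm3 : m + 1 ≤ 3 := hm
        exact hh_step h3 h (by omega) h1 (fun H hH hd hd' ha hq =>
          hk3 (RR_MS3 h3 h) (hK3 rfl) (by omega) hm3 hH hd hd' ha hq) (by omega)
      · have hm4 : m + 1 ≤ 4 := by
          unfold qq at hm
          rwa [if_neg hp] at hm
        have hp4 : p ≠ 4 := by
          rintro rfl
          exact absurd h.pp (by decide)
        have hp5 : 5 ≤ p := by omega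
        exact hh_step h3 h (by omega) h1 (fun H hH hd hd' ha hq =>
          hk5 hp5 (RR_MS3 h3 h) (hK5 hp5) (by omega) hm4 hH hd hd' ha hq) hm4
  exact key _ le_rfl

end ADQ
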