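import Mathlib

/-!
# ADQ-L23: functions on pairs and triples whose highest differences vanish

All statements are modulo a submodule `N` (we work in the quotient module).
`L2`: `h i := (1/2) (f {i,j} + f {i,k} - f {j,k})` for some `j, k` different from `i` and each other.
`L3`: the differences `f{i,j,k} - f{l,j,k}` are sums `β^{il}_j + β^{il}_k`; then
`g {i,j} := (1/3) (f{i,j,k} - β^{kj}_i - β^{ki}_j)`.
-/

namespace ADQ

variable {K V : Type*} [Field K] [AddCommGroup V] [Module K V]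

private lemma two_others (S : Finset ℕ) (hS : 3 ≤ S.card) (i : ℕ) :
    ∃ a ∈ S, ∃ b ∈ S, a ≠ i ∧ b ≠ i ∧ a ≠ b := by
  have h1 : 1 < (S.erase i).card := by
    have := Finset.pred_card_le_card_erase (s := S) (a := i)
    omega
  obtain ⟨a, ha, b, hb, hab⟩ := Finset.one_lt_card.mp h1
  rw [Finset.mem_erase] at ha hb
  exact ⟨a, ha.2, b, hb.2, ha.1, hb.1, hab⟩

private lemma third_elt (S : Finset ℕ) (hS : 3 ≤ S.card) (i j : ℕ) :
    ∃ k ∈ S, k ≠ i ∧ k ≠ j := by
  obtain ⟨a, ha, b, hb, hai, hbi, hab⟩ := two_others S hS i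
  by_cases h : a = j
  · exact ⟨b, hb, hbi, fun hbj => hab (h.trans hbj.symm)⟩
  · exact ⟨a, ha, hai, h⟩

section gen

variable {W : Type*} [AddCommGroup W] [Module K W]

private lemma gen2_indep (S : Finset ℕ) (F : ℕ → ℕ → W)
    (hsym : ∀ i j, F i j = F j i)
    (hd : ∀ i ∈ S, ∀ j ∈ S, ∀ k ∈ S, ∀ l ∈ S, i ≠ j → i ≠ k → i ≠ l → j ≠ k → j ≠ l → k ≠ l →
      F i k - F j k - F i l + F j l = 0)
    (i : ℕ) (hi : i ∈ S) (a b c d : ℕ) (ha : a ∈ S) (hb : b ∈ S) (hc : c ∈ S) (hd' : d ∈ S)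
    (hai : a ≠ i) (hbi : b ≠ i) (hci : c ≠ i) (hdi : d ≠ i) (hab : a ≠ b) (hcd : c ≠ d) :
    F i a + F i b - F a b = F i c + F i d - F c d := by
  have key : ∀ x ∈ S, ∀ y ∈ S, ∀ z ∈ S, x ≠ i → y ≠ i → z ≠ i → x ≠ y → x ≠ z →
      F i x + F i y - F x y = F i x + F i z - F x z := by
    intro x hx y hy z hz hxi hyi hzi hxy hxz
    by_cases hyz : y = z
    · rw [hyz]
    · have := hd i hi x hx y hy z hz (Ne.symm hxi) (Ne.symm hyi) (Ne.symm hzi) hxy hxz hyz
      rw [← sub_eq_zero, ← this]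
      abel
  have symm3 : ∀ x y, F i x + F i y - F x y = F i y + F i x - F y x := by
    intro x y
    rw [hsym x y]
    abel
  by_cases hac : a = c
  · subst hac
    exact key a ha b hb d hd' hai hbi hdi hab hcd
  · rw [key a ha b hb c hc hai hbi hci hab hac, symm3 a c]
    exact key c hc a ha d hd' hci hai hdi (Ne.symm hac) hcd

private lemma gen2 (h2 : (2 : K) ≠ 0) (S : Finset ℕ) (hS : 3 ≤ S.card) (F : ℕ → ℕ → W)
    (hsym : ∀ i j, F i j = F j i)
    (hd : ∀ i ∈ S, ∀ j ∈ S, ∀ k ∈ S, ∀ l ∈ S, i ≠ j → i ≠ k → i ≠ l → j ≠ k → j ≠ l → k ≠ l →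
      F i k - F j k - F i l + F j l = 0) :
    ∃ h : ℕ → W, ∀ i ∈ S, ∀ j ∈ S, i ≠ j → F i j = h i + h j := by
  choose A hA B hB hAi hBi hAB using fun i => two_others S hS i
  refine ⟨fun i => (2 : K)⁻¹ • (F i (A i) + F i (B i) - F (A i) (B i)), ?_⟩
  intro i hi j hj hij
  obtain ⟨k, hk, hki, hkj⟩ := third_elt S hS i j
  have e1 := gen2_indep S F hsym hd i hi (A i) (B i) j k (hA i) (hB i) hj hk (hAi i) (hBi i)
    (Ne.symm hij) hki (hAB i) (Ne.symm hkj)
  have e2 := gen2_indep S F hsym hd j hj (A j) (B j) i k (hA j) (hB j) hi hk (hAi j) (hBi j)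
    hij hkj (hAB j) (Ne.symm hki)
  simp only [e1, e2]
  rw [← smul_add, hsym j i]
  have e3 : F i j + F i k - F j k + (F i j + F j k - F i k) = (2 : K) • F i j := by
    rw [two_smul]
    abel
  rw [e3, smul_smul, inv_mul_cancel₀ h2, one_smul]

private lemma gen2u (h2 : (2 : K) ≠ 0) (S : Finset ℕ) (hS : 3 ≤ S.card) (h : ℕ → W)
    (hd : ∀ i ∈ S, ∀ j ∈ S, i ≠ j → h i + h j = 0) : ∀ i ∈ S, h i = 0 := by
  intro i hi
  obtain ⟨a, ha, b, hb, hai, hbi, hab⟩ := two_others S hS i
  have e : (2 : K) • h i = (h i + h a) + (h i + h b) - (h a + h b) := by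
    rw [two_smul]
    abel
  rw [hd i hi a ha (Ne.symm hai), hd i hi b hb (Ne.symm hbi), hd a ha b hb hab] at e
  simp only [add_zero, sub_zero] at e
  exact (smul_eq_zero.mp e).resolve_left h2

private lemma card_rest2 {n : ℕ} (hn : 6 ≤ n) (i l : ℕ) :
    3 ≤ (((Finset.range n).erase i).erase l).card := by
  have h1 := Finset.pred_card_le_card_erase (s := Finset.range n) (a := i)
  have h2 := Finset.pred_card_le_card_erase (s := (Finset.range n).erase i) (a := l)
  rw [Finset.card_range] at h1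
  omega

private lemma card_rest3 {n : ℕ} (hn : 6 ≤ n) (i l m : ℕ) :
    3 ≤ ((((Finset.range n).erase i).erase l).erase m).card := by
  have h1 := Finset.pred_card_le_card_erase (s := Finset.range n) (a := i)
  have h2 := Finset.pred_card_le_card_erase (s := (Finset.range n).erase i) (a := l)
  have h3 := Finset.pred_card_le_card_erase (s := ((Finset.range n).erase i).erase l) (a := m)
  rw [Finset.card_range] at h1
  omega

private lemma gen3 (h2 : (2 : K) ≠ 0) (h3 : (3 : K) ≠ 0) {n : ℕ} (hn : 6 ≤ n)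
    (F : Finset ℕ → W)
    (hd : ∀ i l j m k o, i < n → l < n → j < n → m < n → k < n → o < n → [i, l, j, m, k, o].Nodup →
      F {i, j, k} - F {l, j, k} - F {i, m, k} - F {i, j, o} + F {l, m, k} + F {l, j, o} +
        F {i, m, o} - F {l, m, o} = 0) :
    ∃ g : Finset ℕ → W, ∀ i j k, i < n → j < n → k < n → i ≠ j → i ≠ k → j ≠ k →
      F {i, j, k} = g {i, j} + g {i, k} + g {j, k} := by
  have sw1 : ∀ i j k : ℕ, ({i, j, k} : Finset ℕ) = {j, i, k} := by
    intro i j k; ext x; simp only [Finset.mem_insert, Finset.mem_singleton]; tauto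
  have sw2 : ∀ i j k : ℕ, ({i, j, k} : Finset ℕ) = {i, k, j} := by
    intro i j k; ext x; simp only [Finset.mem_insert, Finset.mem_singleton]; tauto
  -- the functions beta
  have hβ : ∀ i l : ℕ, ∃ β : ℕ → W, i < n → l < n → i ≠ l → ∀ j k, j < n → k < n → j ≠ i → j ≠ l →
      k ≠ i → k ≠ l → j ≠ k → F {i, j, k} - F {l, j, k} = β j + β k := by
    intro i l
    by_cases hil : i < n ∧ l < n ∧ i ≠ l
    · obtain ⟨hi, hl, hne⟩ := hil
      obtain ⟨h, hh⟩ := gen2 (K := K) h2 (((Finset.range n).erase i).erase l) (card_rest2 hn i l)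
        (fun j k => F {i, j, k} - F {l, j, k})
        (fun j k => by rw [sw2 i j k, sw2 l j k])
        (by
          intro j hj m hm k hk o ho hjm hjk hjo hmk hmo hko
          simp only [Finset.mem_erase, Finset.mem_range] at hj hm hk ho
          have hnd : [i, l, j, m, k, o].Nodup := by
            simp only [List.nodup_cons, List.mem_cons, List.not_mem_nil, or_false, not_or,
              not_false_iff, List.nodup_nil, and_true]
            exact ⟨⟨hne, hj.2.1.symm, hm.2.1.symm, hk.2.1.symm, ho.2.1.symm⟩,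
              ⟨hj.1.symm, hm.1.symm, hk.1.symm, ho.1.symm⟩, ⟨hjm, hjk, hjo⟩, ⟨hmk, hmo⟩, hko⟩
          have := hd i l j m k o hi hl hj.2.2 hm.2.2 hk.2.2 ho.2.2 hnd
          rw [← this]
          abel)
      refine ⟨h, fun _ _ _ j k hj hk hji hjl hki hkl hjk => ?_⟩
      exact hh j (by simp only [Finset.mem_erase, Finset.mem_range]; exact ⟨hjl, hji, hj⟩) k
        (by simp only [Finset.mem_erase, Finset.mem_range]; exact ⟨hkl, hki, hk⟩) hjk
    · exact ⟨fun _ => 0, fun a b c => absurd ⟨a, b, c⟩ hil⟩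
  choose β hβ using hβ
  -- antisymmetry
  have hanti : ∀ i l j, i < n → l < n → j < n → i ≠ l → j ≠ i → j ≠ l → β i l j + β l i j = 0 := by
    intro i l j hi hl hj hil hji hjl
    have := gen2u (K := K) h2 (((Finset.range n).erase i).erase l) (card_rest2 hn i l)
      (fun x => β i l x + β l i x)
      (by
        intro a ha b hb hab
        simp only [Finset.mem_erase, Finset.mem_range] at ha hb
        have e1 := hβ i l hi hl hil a b ha.2.2 hb.2.2 ha.2.1 ha.1 hb.2.1 hb.1 hab
        have e2 := hβ l i hl hi hil.symm a b ha.2.2 hb.2.2 ha.1 ha.2.1 hb.1 hb.2.1 hab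
        have e3 : β i l a + β l i a + (β i l b + β l i b) =
            (β i l a + β i l b) + (β l i a + β l i b) := by abel
        rw [e3, ← e1, ← e2]
        abel)
    exact this j (by simp only [Finset.mem_erase, Finset.mem_range]; exact ⟨hjl, hji, hj⟩)
  -- cocycle
  have hcoc : ∀ k k' j i, k < n → k' < n → j < n → i < n → k ≠ k' → k ≠ j → k' ≠ j →
      i ≠ k → i ≠ k' → i ≠ j → β k j i = β k k' i + β k' j i := by
    intro k k' j i hk hk' hj hi hkk' hkj hk'j hik hik' hij
    have := gen2u (K := K) h2 ((((Finset.range n).erase k).erase k').erase j)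
      (card_rest3 hn k k' j)
      (fun x => β k j x - β k k' x - β k' j x)
      (by
        intro a ha b hb hab
        simp only [Finset.mem_erase, Finset.mem_range] at ha hb
        have e1 := hβ k j hk hj hkj a b ha.2.2.2 hb.2.2.2 ha.2.2.1 ha.1 hb.2.2.1 hb.1 hab
        have e2 := hβ k k' hk hk' hkk' a b ha.2.2.2 hb.2.2.2 ha.2.2.1 ha.2.1 hb.2.2.1 hb.2.1 hab
        have e3 := hβ k' j hk' hj hk'j a b ha.2.2.2 hb.2.2.2 ha.2.1 ha.1 hb.2.1 hb.1 hab
        have e4 : β k j a - β k k' a - β k' j a + (β k j b - β k k' b - β k' j b) =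
            (β k j a + β k j b) - (β k k' a + β k k' b) - (β k' j a + β k' j b) := by abel
        rw [e4, ← e1, ← e2, ← e3]
        abel)
    have h0 := this i (by
      simp only [Finset.mem_erase, Finset.mem_range]; exact ⟨hij, hik', hik, hi⟩)
    rw [sub_sub, sub_eq_zero] at h0
    exact h0
  -- psi
  let ψ : ℕ → ℕ → ℕ → W := fun i j k => F {i, j, k} - β k j i - β k i j
  have hψs : ∀ i j k, ψ i j k = ψ j i k := by
    intro i j k
    simp only [ψ]
    rw [sw1 i j k]
    abel
  have hψ : ∀ i j k k', i < n → j < n → k < n → k' < n → i ≠ j → k ≠ i → k ≠ j → k' ≠ i → k' ≠ j →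
      ψ i j k = ψ i j k' := by
    intro i j k k' hi hj hk hk' hij hki hkj hk'i hk'j
    by_cases hkk' : k = k'
    · rw [hkk']
    · have e1 := hcoc k k' j i hk hk' hj hi hkk' hkj hk'j hki.symm hk'i.symm hij
      have e2 := hcoc k k' i j hk hk' hi hj hkk' hki hk'i hkj.symm hk'j.symm hij.symm
      have e3 := hβ k k' hk hk' hkk' i j hi hj hki.symm hk'i.symm hkj.symm hk'j.symm hij
      have s1 : ({i, j, k} : Finset ℕ) = {k, i, j} := by rw [sw2 i j k, sw1 i k j]
      have s2 : ({i, j, k'} : Finset ℕ) = {k', i, j} := by rw [sw2 i j k', sw1 i k' j]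
      simp only [ψ]
      rw [e1, e2, s1, s2, ← sub_eq_zero]
      have e5 : F {k, i, j} = F {k', i, j} + (β k k' i + β k k' j) := by
        rw [← e3]; abel
      rw [e5]
      abel
  classical
  let P : Finset ℕ → ℕ × ℕ × ℕ → Prop := fun s t => t.1 < n ∧ t.2.1 < n ∧ t.2.2 < n ∧ t.1 ≠ t.2.1 ∧
    t.2.2 ≠ t.1 ∧ t.2.2 ≠ t.2.1 ∧ s = {t.1, t.2.1}
  let g : Finset ℕ → W := fun s => if h : ∃ t, P s t then
    (3 : K)⁻¹ • ψ h.choose.1 h.choose.2.1 h.choose.2.2 else 0
  have hg : ∀ i j k, i < n → j < n → k < n → i ≠ j → k ≠ i → k ≠ j →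
      g {i, j} = (3 : K)⁻¹ • ψ i j k := by
    intro i j k hi hj hk hij hki hkj
    have hex : ∃ t, P {i, j} t := ⟨(i, j, k), hi, hj, hk, hij, hki, hkj, rfl⟩
    have hgd : g {i, j} = (3 : K)⁻¹ • ψ hex.choose.1 hex.choose.2.1 hex.choose.2.2 := by
      simp only [g, dif_pos hex]
    rw [hgd]
    obtain ⟨p1, p2, p3, p4, p5, p6, p7⟩ := hex.choose_spec
    generalize hex.choose.1 = a at *
    generalize hex.choose.2.1 = b at *
    generalize hex.choose.2.2 = c at *
    congr 1
    have ha : a = i ∨ a = j := by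
      have : a ∈ ({i, j} : Finset ℕ) := by rw [p7]; simp
      simpa using this
    have hb : b = i ∨ b = j := by
      have : b ∈ ({i, j} : Finset ℕ) := by rw [p7]; simp
      simpa using this
    rcases ha with ha | ha
    · rcases hb with hb | hb
      · exact absurd (ha.trans hb.symm) p4
      · subst ha; subst hb
        exact hψ _ _ _ _ p1 p2 p3 hk p4 p5 p6 hki hkj
    · rcases hb with hb | hb
      · subst ha; subst hb
        rw [hψs]
        exact hψ _ _ _ _ p2 p1 p3 hk p4.symm p6 p5 hki hkj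
      · exact absurd (ha.trans hb.symm) p4
  refine ⟨g, ?_⟩
  intro i j k hi hj hk hij hik hjk
  rw [hg i j k hi hj hk hij hik.symm hjk.symm, hg i k j hi hk hj hik hij.symm hjk,
    hg j k i hj hk hi hjk hij hik]
  rw [← smul_add, ← smul_add]
  have a1 := hanti k j i hk hj hi hjk.symm hik hij
  have a2 := hanti k i j hk hi hj hik.symm hjk hij.symm
  have a3 := hanti j i k hj hi hk hij.symm hjk.symm hik.symm
  have e : ψ i j k + ψ i k j + ψ j k i = (3 : K) • F {i, j, k} := by
    simp only [ψ]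
    have s1 : ({i, k, j} : Finset ℕ) = {i, j, k} := (sw2 i j k).symm
    have s2 : ({j, k, i} : Finset ℕ) = {i, j, k} := by rw [sw2 j k i, sw1 j i k]
    rw [s1, s2]
    have h33 : (3 : K) • F {i, j, k} = F {i, j, k} + F {i, j, k} + F {i, j, k} := by
      have : (3 : K) = 1 + 1 + 1 := by norm_num
      rw [this, add_smul, add_smul, one_smul]
    rw [h33]
    have e5 : F {i, j, k} - β k j i - β k i j + (F {i, j, k} - β j k i - β j i k) +
        (F {i, j, k} - β i k j - β i j k) = F {i, j, k} + F {i, j, k} + F {i, j, k} -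
        (β k j i + β j k i) - (β k i j + β i k j) - (β j i k + β i j k) := by abel
    rw [e5, a1, a2, a3]
    simp
  rw [e, smul_smul, inv_mul_cancel₀ h3, one_smul]

private lemma gen3u (h2 : (2 : K) ≠ 0) (h3 : (3 : K) ≠ 0) {n : ℕ} (hn : 5 ≤ n)
    (g : Finset ℕ → W)
    (hd : ∀ i j k, i < n → j < n → k < n → i ≠ j → i ≠ k → j ≠ k →
      g {i, j} + g {i, k} + g {j, k} = 0) :
    ∀ i j, i < n → j < n → i ≠ j → g {i, j} = 0 := by
  have hdis : ∀ i j m o, i < n → j < n → m < n → o < n → i ≠ j → i ≠ m → i ≠ o → j ≠ m → j ≠ o →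
      m ≠ o → g {i, j} = g {m, o} := by
    intro i j m o hi hj hm ho hij him hio hjm hjo hmo
    have e1 := hd i j m hi hj hm hij him hjm
    have e2 := hd i j o hi hj ho hij hio hjo
    have e3 := hd i m o hi hm ho him hio hmo
    have e4 := hd j m o hj hm ho hjm hjo hmo
    have e : (2 : K) • (g {i, j} - g {m, o}) = (g {i, j} + g {i, m} + g {j, m}) +
        (g {i, j} + g {i, o} + g {j, o}) - (g {i, m} + g {i, o} + g {m, o}) -
        (g {j, m} + g {j, o} + g {m, o}) := by
      rw [two_smul]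
      abel
    rw [e1, e2, e3, e4] at e
    simp only [add_zero, sub_zero] at e
    exact sub_eq_zero.mp ((smul_eq_zero.mp e).resolve_left h2)
  have hcom : ∀ i j k, i < n → j < n → k < n → i ≠ j → i ≠ k → j ≠ k → g {i, j} = g {i, k} := by
    intro i j k hi hj hk hij hik hjk
    have hc : 1 < (((((Finset.range n).erase i).erase j)).erase k).card := by
      have h1 := Finset.pred_card_le_card_erase (s := Finset.range n) (a := i)
      have h2 := Finset.pred_card_le_card_erase (s := (Finset.range n).erase i) (a := j)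
      have h3 := Finset.pred_card_le_card_erase (s := ((Finset.range n).erase i).erase j) (a := k)
      rw [Finset.card_range] at h1
      omega
    obtain ⟨m, hm, o, ho, hmo⟩ := Finset.one_lt_card.mp hc
    simp only [Finset.mem_erase, Finset.mem_range] at hm ho
    rw [hdis i j m o hi hj hm.2.2.2 ho.2.2.2 hij hm.2.2.1.symm ho.2.2.1.symm hm.2.1.symm
      ho.2.1.symm hmo]
    exact (hdis i k m o hi hk hm.2.2.2 ho.2.2.2 hik hm.2.2.1.symm ho.2.2.1.symm hm.1.symm
      ho.1.symm hmo).symm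
  intro i j hi hj hij
  obtain ⟨k, hk, hki, hkj⟩ := third_elt (Finset.range n) (by rw [Finset.card_range]; omega) i j
  rw [Finset.mem_range] at hk
  have e0 := hd i j k hi hj hk hij hki.symm hkj.symm
  have e1 := hcom i j k hi hj hk hij hki.symm hkj.symm
  have e2 := hcom j i k hj hi hk hij.symm hkj.symm hki.symm
  rw [Finset.pair_comm j i] at e2
  rw [← e1, ← e2] at e0
  have e : (3 : K) • g {i, j} = g {i, j} + g {i, j} + g {i, j} := by
    have : (3 : K) = 1 + 1 + 1 := by norm_num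
    rw [this, add_smul, add_smul, one_smul]
  rw [e0] at e
  exact (smul_eq_zero.mp e).resolve_left h3

end gen

private lemma mkQ_zero_iff (N : Submodule K V) (x : V) : N.mkQ x = 0 ↔ x ∈ N := by
  rw [Submodule.mkQ_apply, Submodule.Quotient.mk_eq_zero]

theorem L2 (h2 : (2 : K) ≠ 0) {n : ℕ} (hn : 3 ≤ n) (N : Submodule K V) (f : Finset ℕ → V)
    (hd : ∀ i j k l, i < n → j < n → k < n → l < n → i ≠ j → i ≠ k → i ≠ l → j ≠ k → j ≠ l → k ≠ l →
      f {i, k} - f {j, k} - f {i, l} + f {j, l} ∈ N) :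
    ∃ h : ℕ → V, ∀ i j, i < n → j < n → i ≠ j → f {i, j} - h i - h j ∈ N := by
  obtain ⟨h, hh⟩ := gen2 (K := K) h2 (Finset.range n) (by rw [Finset.card_range]; exact hn)
    (fun i j => N.mkQ (f {i, j})) (fun i j => by rw [Finset.pair_comm])
    (by
      intro i hi j hj k hk l hl h1 h2 h3 h4 h5 h6
      rw [Finset.mem_range] at hi hj hk hl
      have := (mkQ_zero_iff N _).mpr (hd i j k l hi hj hk hl h1 h2 h3 h4 h5 h6)
      simpa only [map_add, map_sub] using this)
  choose h' hh' using fun i => N.mkQ_surjective (h i)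
  refine ⟨h', ?_⟩
  intro i j hi hj hij
  rw [← mkQ_zero_iff, map_sub, map_sub, hh', hh',
    hh i (Finset.mem_range.mpr hi) j (Finset.mem_range.mpr hj) hij]
  abel

theorem L2u (h2 : (2 : K) ≠ 0) {n : ℕ} (hn : 3 ≤ n) (N : Submodule K V) (h : ℕ → V)
    (hd : ∀ i j, i < n → j < n → i ≠ j → h i + h j ∈ N) : ∀ i < n, h i ∈ N := by
  intro i hi
  rw [← mkQ_zero_iff]
  exact gen2u (K := K) h2 (Finset.range n) (by rw [Finset.card_range]; exact hn)
    (fun i => N.mkQ (h i))
    (by
      intro a ha b hb hab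
      rw [Finset.mem_range] at ha hb
      have := (mkQ_zero_iff N _).mpr (hd a b ha hb hab)
      simpa only [map_add] using this) i (Finset.mem_range.mpr hi)

theorem L3 (h2 : (2 : K) ≠ 0) (h3 : (3 : K) ≠ 0) {n : ℕ} (hn : 6 ≤ n) (N : Submodule K V) (f : Finset ℕ → V)
    (hd : ∀ i l j m k o, i < n → l < n → j < n → m < n → k < n → o < n → [i, l, j, m, k, o].Nodup →
      f {i, j, k} - f {l, j, k} - f {i, m, k} - f {i, j, o} + f {l, m, k} + f {l, j, o} + f {i, m, o} -
        f {l, m, o} ∈ N) :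
    ∃ g : Finset ℕ → V, ∀ i j k, i < n → j < n → k < n → i ≠ j → i ≠ k → j ≠ k →
      f {i, j, k} - g {i, j} - g {i, k} - g {j, k} ∈ N := by
  obtain ⟨g, hg⟩ := gen3 (K := K) h2 h3 hn (fun s => N.mkQ (f s))
    (by
      intro i l j m k o hi hl hj hm hk ho hnd
      have := (mkQ_zero_iff N _).mpr (hd i l j m k o hi hl hj hm hk ho hnd)
      simpa only [map_add, map_sub] using this)
  choose g' hg' using fun s => N.mkQ_surjective (g s)
  refine ⟨g', ?_⟩
  intro i j k hi hj hk hij hik hjk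
  rw [← mkQ_zero_iff, map_sub, map_sub, map_sub, hg', hg', hg', hg i j k hi hj hk hij hik hjk]
  abel

theorem L3u (h2 : (2 : K) ≠ 0) (h3 : (3 : K) ≠ 0) {n : ℕ} (hn : 5 ≤ n) (N : Submodule K V) (g : Finset ℕ → V)
    (hd : ∀ i j k, i < n → j < n → k < n → i ≠ j → i ≠ k → j ≠ k → g {i, j} + g {i, k} + g {j, k} ∈ N) :
    ∀ i j, i < n → j < n → i ≠ j → g {i, j} ∈ N := by
  intro i j hi hj hij
  rw [← mkQ_zero_iff]
  exact gen3u (K := K) h2 h3 hn (fun s => N.mkQ (g s))
    (by
      intro a b c ha hb hc hab hac hbc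
      have := (mkQ_zero_iff N _).mpr (hd a b c ha hb hc hab hac hbc)
      simpa only [map_add] using this) i j hi hj hij

end ADQ
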