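import Pool.Agent.ADQ.FvC
import Pool.Agent.ADQ.P1

/-!
# ADQ-N3a

`n3P` (`P = (z_0 - z_1) z_1^3 ∈ R 3 4`): `z_i z_j^3 ≡ z_j^4`; `dd 1 2` of `z_0 z_1^3 - z_1^4`: `2 (z_1 - z_2) z_2^2 z_0 - 3 (z_1 - z_2) z_2^3 ≡ 2 z_0 z_1 z_2^2 - 2 z_2^4`: `z_0 z_1 z_2^2 ≡ z_2^4`.  `U_j = z_j^4`, `v_0 = z_1^2 z_2^2`, `v_1 = z_0^2 z_2^2`, `v_2 = z_0^2 z_1^2`.  A socle element `y` is `≡ ∑ a_j U_j + ∑ g_j v_j` (`exp34`);
`dd 0 1 U_0 ≡ 0`, `dd 0 1 v_2 = (z_0 - z_1) z_1^3 ≡ 0`, `dd 0 1 v_1 = z_0 z_1 z_2^2 - z_1^2 z_2^2 ≡ U_2 - v_0`, so `g_1 (U_2 - v_0) ∈ R`, and the same for the other pairs.  If some `g_j ≠ 0` (for `u` or `w`): all `v_k ≡ U_j` (`k ≠ j`), so all monomials are congruent: `LP.rank1` with `E = z_0^4`.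
Otherwise `u ≡ ∑ a_j U_j`, `w ≡ ∑ b_j U_j`: `P1` (`T = rn (swap i j)`).
`n3H` (`P ∉ R 3 4`): `y = E34 a b g d`.  (1) some `g ≠ 0`: `fvA'`: `F4, E4, B_ij = z_i z_j (z_i - z_j)^2 ∈ R`.  `dd 0 1 y = (z_0 - z_1) z_1 (A z_1^2 + B z_1 z_2 + C z_2^2)` and modulo `F4 1 0 2`, `E4 1 2 0`: `(z_0 - z_1) z_1^2 z_2 = P + F4 1 0 2`, `(z_0 - z_1) z_1 z_2^2 ≡ (z_0 - z_1) z_1^2 z_2` [difference
`z_1 z_2 (z_2 - z_1)(z_0 - z_1) = E4 1 2 0`], so `(A + B + C) P ∈ R`, `A + B + C = 0`, i.e. `3 a_0 + 2 b_01 + 2 b_02 + d_0 + g_1 + g_2 = 0`, and the same for the other indices.  `z_j^2 z_i z_k ≡ z_j^3 z_i + z_j^3 z_k - z_j^4`, `z_i^2 z_j^2 ≡ (1/2)(z_i^3 z_j + z_i z_j^3)`: `y ≡ ∑ a'_j z_j^4 + ∑ b'_ji z_j^3 z_i` with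
`a'_j = a_j - d_j`, `b'_ji = b_ji + d_j + g_k/2`, `3 a'_j + 2 b'_ji + 2 b'_jk = 0`; and `h4 j i k ≡ - 4 z_j^4 + 3 z_j^3 (z_i + z_k)` modulo `F4`, so `y ≡ ∑ (- a'_j/4) h_j + ∑ κ_j G_j`, `κ_j = (b'_{j,j+1} - b'_{j,j+2})/2`.
(2) all `g = 0`: by `fvB'` and `P ∉ R` all `s_j = 0`, `fvC1`.
-/

namespace ADQ

open AD ADN ADC

variable {p : ℕ} [Fact p.Prime] {R : ℕ → ℕ → Submodule (ZMod p) (Z p)}

private theorem n3a_g {i j i' j' : ℕ} (hi : i < 3) (hj : j < 3) (hij : i ≠ j) (hi' : i' < 3) (hj' : j' < 3)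
    (hij' : i' ≠ j') : ∃ g : ℕ → ℕ, (∀ t < 3, g t < 3) ∧ (∀ s < 3, ∀ t < 3, g s = g t → s = t) ∧
      g i = i' ∧ g j = j' ∧ ∀ k < 3, k ≠ i → k ≠ j → ∀ k' < 3, k' ≠ i' → k' ≠ j' → g k = k' := by
  refine ⟨fun t => if t = i then i' else if t = j then j' else 3 - i' - j', ?_, ?_, ?_, ?_, ?_⟩
  · intro t ht
    dsimp only
    split_ifs
    · exact hi'
    · exact hj'
    · omega
  · intro s hs t ht
    dsimp only
    split_ifs <;> intro e <;> omega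
  · dsimp only
    rw [if_pos rfl]
  · dsimp only
    rw [if_neg hij.symm, if_pos rfl]
  · intro k hk h1 h2 k' hk' h1' h2'
    dsimp only
    rw [if_neg h1, if_neg h2]
    omega

private theorem n3a_two (h5 : 5 ≤ p) : (2 : ZMod p) ≠ 0 := by
  intro h0
  have h1 : ((2 : ℕ) : ZMod p) = 0 := by exact_mod_cast h0
  rw [ZMod.natCast_eq_zero_iff] at h1
  have h2 := Nat.le_of_dvd (by norm_num) h1
  omega

private theorem n3a_P (h : MS3 p R) (hP : (z 0 - z 1) * z 1 ^ 3 ∈ R 3 4) {i j : ℕ} (hi : i < 3) (hj : j < 3)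
    (hij : i ≠ j) : (z i - z j) * z j ^ 3 ∈ R 3 4 := by
  obtain ⟨g, h1, h2, h3, h4, -⟩ := n3a_g (i := 0) (j := 1) (by norm_num) (by norm_num) (by norm_num) hi hj hij
  have h6 := h.ren 3 3 4 g (by norm_num) h1 h2 _ hP
  rwa [map_mul, map_sub, map_pow, rn_z, rn_z, h3, h4] at h6

private theorem n3a_Z0 (h5 : 5 ≤ p) (h : MS3 p R) (hP : (z 0 - z 1) * z 1 ^ 3 ∈ R 3 4) :
    z 0 * z 1 * z 2 ^ 2 - z 2 ^ 4 ∈ R 3 4 := by
  have h1 := h.dd 3 4 1 2 le_rfl (by norm_num) (by norm_num) (by norm_num) _ hP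
  have e1 : (z 0 - z 1) * z 1 ^ 3 = z 1 ^ 3 * z 0 - z 1 ^ 4 * (1 : Z p) := by ring
  have n0 : (z 0 : Z p) ∈ NV 1 := z_NV (by norm_num)
  have n1 : (1 : Z p) ∈ NV 1 := Subalgebra.one_mem _
  rw [e1, map_sub, dd_three n0, dd_four n1] at h1
  have h2 := n3a_P h hP (i := 0) (j := 2) (by norm_num) (by norm_num) (by norm_num)
  have h3 := n3a_P h hP (i := 1) (j := 2) (by norm_num) (by norm_num) (by norm_num)
  have e2 : (2 : ZMod p) • (z 0 * z 1 * z 2 ^ 2 - z 2 ^ 4 : Z p) =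
      ((2 : ZMod p) • ((z 1 - z 2) * z 2 ^ 2 * z 0) - (3 : ZMod p) • ((z 1 - z 2) * z 2 ^ 3 * 1)) +
      (2 : ZMod p) • ((z 0 - z 2) * z 2 ^ 3) + (3 : ZMod p) • ((z 1 - z 2) * z 2 ^ 3) := by
    simp only [MvPolynomial.smul_eq_C_mul]
    ring
  have h4 : (2 : ZMod p) • (z 0 * z 1 * z 2 ^ 2 - z 2 ^ 4 : Z p) ∈ R 3 4 := by
    rw [e2]
    exact Submodule.add_mem _ (Submodule.add_mem _ h1 (Submodule.smul_mem _ _ h2)) (Submodule.smul_mem _ _ h3)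
  exact (Submodule.smul_mem_iff _ (n3a_two h5)).1 h4

private theorem n3a_Z (h5 : 5 ≤ p) (h : MS3 p R) (hP : (z 0 - z 1) * z 1 ^ 3 ∈ R 3 4) {i j k : ℕ} (hi : i < 3)
    (hj : j < 3) (hk : k < 3) (hij : i ≠ j) (hik : i ≠ k) (hjk : j ≠ k) :
    z i * z j * z k ^ 2 - z k ^ 4 ∈ R 3 4 := by
  obtain ⟨g, h1, h2, h3, h4, h6⟩ := n3a_g (i := 0) (j := 1) (by norm_num) (by norm_num) (by norm_num) hi hj hij
  have h7 := h6 2 (by norm_num) (by norm_num) (by norm_num) k hk hik.symm hjk.symm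
  have h8 := h.ren 3 3 4 g (by norm_num) h1 h2 _ (n3a_Z0 h5 h hP)
  rwa [map_sub, map_mul, map_mul, map_pow, map_pow, rn_z, rn_z, rn_z, h3, h4, h7] at h8

/-- one congruence between the two kinds gives all -/
private theorem n3a_Q (h : MS3 p R) {i j : ℕ} (hi : i < 3) (hj : j < 3) (hij : i ≠ j)
    (hQ : z i ^ 4 - z i ^ 2 * z j ^ 2 ∈ R 3 4) {i' j' : ℕ} (hi' : i' < 3) (hj' : j' < 3) (hij' : i' ≠ j') :
    z i' ^ 4 - z i' ^ 2 * z j' ^ 2 ∈ R 3 4 := by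
  obtain ⟨g, h1, h2, h3, h4, -⟩ := n3a_g hi hj hij hi' hj' hij'
  have h6 := h.ren 3 3 4 g (by norm_num) h1 h2 _ hQ
  rwa [map_sub, map_mul, map_pow, map_pow, map_pow, rn_z, rn_z, h3, h4] at h6

/-- the normal form modulo `R 3 4` -/
private theorem n3a_nf (h5 : 5 ≤ p) (h : MS3 p R) (hP : (z 0 - z 1) * z 1 ^ 3 ∈ R 3 4) {y : Z p}
    (hy : y ∈ Hh p 3 4) : ∃ (a g : ℕ → ZMod p),
      y - (a 0 • z 0 ^ 4 + a 1 • z 1 ^ 4 + a 2 • z 2 ^ 4 +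
        (g 0 • (z 1 ^ 2 * z 2 ^ 2) + g 1 • (z 0 ^ 2 * z 2 ^ 2) + g 2 • (z 0 ^ 2 * z 1 ^ 2))) ∈ R 3 4 := by
  obtain ⟨a, b, g, d, rfl⟩ := exp34 hy
  refine ⟨fun i => if i = 0 then a 0 + b 0 1 + b 0 2 + d 0 else if i = 1 then a 1 + b 1 0 + b 1 2 + d 1 else
    a 2 + b 2 0 + b 2 1 + d 2, g, ?_⟩
  have P01 := n3a_P h hP (i := 0) (j := 1) (by norm_num) (by norm_num) (by norm_num)
  have P02 := n3a_P h hP (i := 0) (j := 2) (by norm_num) (by norm_num) (by norm_num)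
  have P10 := n3a_P h hP (i := 1) (j := 0) (by norm_num) (by norm_num) (by norm_num)
  have P12 := n3a_P h hP (i := 1) (j := 2) (by norm_num) (by norm_num) (by norm_num)
  have P20 := n3a_P h hP (i := 2) (j := 0) (by norm_num) (by norm_num) (by norm_num)
  have P21 := n3a_P h hP (i := 2) (j := 1) (by norm_num) (by norm_num) (by norm_num)
  have Z0 := n3a_Z h5 h hP (i := 1) (j := 2) (k := 0) (by norm_num) (by norm_num) (by norm_num) (by norm_num)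
    (by norm_num) (by norm_num)
  have Z1 := n3a_Z h5 h hP (i := 0) (j := 2) (k := 1) (by norm_num) (by norm_num) (by norm_num) (by norm_num)
    (by norm_num) (by norm_num)
  have Z2 := n3a_Z h5 h hP (i := 0) (j := 1) (k := 2) (by norm_num) (by norm_num) (by norm_num) (by norm_num)
    (by norm_num) (by norm_num)
  have e0 : (if (0 : ℕ) = 0 then a 0 + b 0 1 + b 0 2 + d 0 else if (0 : ℕ) = 1 then a 1 + b 1 0 + b 1 2 + d 1 else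
    a 2 + b 2 0 + b 2 1 + d 2) = a 0 + b 0 1 + b 0 2 + d 0 := if_pos rfl
  have e1 : (if (1 : ℕ) = 0 then a 0 + b 0 1 + b 0 2 + d 0 else if (1 : ℕ) = 1 then a 1 + b 1 0 + b 1 2 + d 1 else
    a 2 + b 2 0 + b 2 1 + d 2) = a 1 + b 1 0 + b 1 2 + d 1 := by
    rw [if_neg (by norm_num), if_pos rfl]
  have e2 : (if (2 : ℕ) = 0 then a 0 + b 0 1 + b 0 2 + d 0 else if (2 : ℕ) = 1 then a 1 + b 1 0 + b 1 2 + d 1 else
    a 2 + b 2 0 + b 2 1 + d 2) = a 2 + b 2 0 + b 2 1 + d 2 := by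
    rw [if_neg (by norm_num), if_neg (by norm_num)]
  dsimp only
  rw [e0, e1, e2]
  have key : E34 a b g d - ((a 0 + b 0 1 + b 0 2 + d 0) • z 0 ^ 4 + (a 1 + b 1 0 + b 1 2 + d 1) • z 1 ^ 4 +
      (a 2 + b 2 0 + b 2 1 + d 2) • z 2 ^ 4 +
        (g 0 • (z 1 ^ 2 * z 2 ^ 2) + g 1 • (z 0 ^ 2 * z 2 ^ 2) + g 2 • (z 0 ^ 2 * z 1 ^ 2))) =
      b 0 1 • ((z 1 - z 0) * z 0 ^ 3) + b 0 2 • ((z 2 - z 0) * z 0 ^ 3) + b 1 0 • ((z 0 - z 1) * z 1 ^ 3) +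
      b 1 2 • ((z 2 - z 1) * z 1 ^ 3) + b 2 0 • ((z 0 - z 2) * z 2 ^ 3) + b 2 1 • ((z 1 - z 2) * z 2 ^ 3) +
      d 0 • (z 1 * z 2 * z 0 ^ 2 - z 0 ^ 4) + d 1 • (z 0 * z 2 * z 1 ^ 2 - z 1 ^ 4) +
      d 2 • (z 0 * z 1 * z 2 ^ 2 - z 2 ^ 4) := by
    unfold E34
    simp only [MvPolynomial.smul_eq_C_mul, map_add]
    ring
  rw [key]
  exact add_mem (add_mem (add_mem (add_mem (add_mem (add_mem (add_mem (add_mem (Submodule.smul_mem _ _ P10)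
    (Submodule.smul_mem _ _ P20)) (Submodule.smul_mem _ _ P01)) (Submodule.smul_mem _ _ P21))
    (Submodule.smul_mem _ _ P02)) (Submodule.smul_mem _ _ P12)) (Submodule.smul_mem _ _ Z0))
    (Submodule.smul_mem _ _ Z1)) (Submodule.smul_mem _ _ Z2)

/-- if a square product occurs in a socle element, then it is congruent to a fourth power -/
private theorem n3a_g1 (h5 : 5 ≤ p) (h : MS3 p R) (hP : (z 0 - z 1) * z 1 ^ 3 ∈ R 3 4) {y : Z p}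
    (hd : ∀ i < 3, ∀ j < 3, i ≠ j → dd i j y ∈ R 3 4) {a g : ℕ → ZMod p}
    (hy : y - (a 0 • z 0 ^ 4 + a 1 • z 1 ^ 4 + a 2 • z 2 ^ 4 +
        (g 0 • (z 1 ^ 2 * z 2 ^ 2) + g 1 • (z 0 ^ 2 * z 2 ^ 2) + g 2 • (z 0 ^ 2 * z 1 ^ 2))) ∈ R 3 4)
    {i j k : ℕ} (hi : i < 3) (hj : j < 3) (hk : k < 3) (hij : i ≠ j) (hik : i ≠ k) (hjk : j ≠ k) :
    g j • (z k ^ 4 - z k ^ 2 * z j ^ 2) ∈ R 3 4 := by
  have h1 := h.dd 3 4 i j le_rfl hi hj hij _ hy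
  have h2 := hd i hi j hj hij
  have n1 : (1 : Z p) ∈ NV i := Subalgebra.one_mem _
  have nj : (z j : Z p) ∈ NV i := z_NV hij.symm
  have nk : (z k : Z p) ∈ NV i := z_NV hik.symm
  have U1 : dd i j (z i ^ 4 : Z p) = (3 : ZMod p) • ((z i - z j) * z j ^ 3 * 1) := by
    rw [← dd_four n1, mul_one]
  have U2 : dd i j (z j ^ 4 : Z p) = 0 := dd_NV (Subalgebra.pow_mem _ nj 4)
  have U3 : dd i j (z k ^ 4 : Z p) = 0 := dd_NV (Subalgebra.pow_mem _ nk 4)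
  have V1 : dd i j (z i ^ 2 * z j ^ 2 : Z p) = (z i - z j) * z j * z j ^ 2 :=
    dd_two (Subalgebra.pow_mem _ nj 2)
  have V1' : dd i j (z j ^ 2 * z i ^ 2 : Z p) = (z i - z j) * z j * z j ^ 2 := by
    rw [mul_comm, V1]
  have V2 : dd i j (z i ^ 2 * z k ^ 2 : Z p) = (z i - z j) * z j * z k ^ 2 :=
    dd_two (Subalgebra.pow_mem _ nk 2)
  have V2' : dd i j (z k ^ 2 * z i ^ 2 : Z p) = (z i - z j) * z j * z k ^ 2 := by
    rw [mul_comm, V2]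
  have V3 : dd i j (z j ^ 2 * z k ^ 2 : Z p) = 0 :=
    dd_NV (Subalgebra.mul_mem _ (Subalgebra.pow_mem _ nj 2) (Subalgebra.pow_mem _ nk 2))
  have V3' : dd i j (z k ^ 2 * z j ^ 2 : Z p) = 0 := by
    rw [mul_comm, V3]
  have P1 := n3a_P h hP hi hj hij
  have Z1 := n3a_Z h5 h hP hi hj hk hij hik hjk
  have key : ∀ (c e : ZMod p), dd i j y - dd i j (y - (a 0 • z 0 ^ 4 + a 1 • z 1 ^ 4 + a 2 • z 2 ^ 4 +
        (g 0 • (z 1 ^ 2 * z 2 ^ 2) + g 1 • (z 0 ^ 2 * z 2 ^ 2) + g 2 • (z 0 ^ 2 * z 1 ^ 2)))) =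
        c • ((z i - z j) * z j ^ 3) + g j • ((z i - z j) * z j * z k ^ 2) →
      g j • (z k ^ 4 - z k ^ 2 * z j ^ 2) ∈ R 3 4 := by
    intro c e he
    have e1 : g j • (z k ^ 4 - z k ^ 2 * z j ^ 2 : Z p) =
        (c • ((z i - z j) * z j ^ 3) + g j • ((z i - z j) * z j * z k ^ 2)) -
        c • ((z i - z j) * z j ^ 3) - g j • (z i * z j * z k ^ 2 - z k ^ 4) := by
      simp only [MvPolynomial.smul_eq_C_mul]
      ring
    rw [e1, ← he]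
    exact sub_mem (sub_mem (sub_mem h2 h1) (Submodule.smul_mem _ _ P1)) (Submodule.smul_mem _ _ Z1)
  have hk3 : k = 3 - i - j := by omega
  subst hk3
  rw [map_sub, sub_sub_cancel] at key
  interval_cases i <;> interval_cases j <;> first | (exact absurd rfl hij) | skip
  all_goals
    simp only [Nat.reduceSub, map_add, map_smul] at *
  · rw [U1, U2, U3, V1, V2, V3] at key
    refine key (3 * a 0 + g 2) 0 ?_
    simp only [MvPolynomial.smul_eq_C_mul, map_add, map_mul]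
    ring
  · rw [U1, U2, U3, V1, V2, V3'] at key
    refine key (3 * a 0 + g 1) 0 ?_
    simp only [MvPolynomial.smul_eq_C_mul, map_add, map_mul]
    ring
  · rw [U1, U2, U3, V1', V2, V3] at key
    refine key (3 * a 1 + g 2) 0 ?_
    simp only [MvPolynomial.smul_eq_C_mul, map_add, map_mul]
    ring
  · rw [U1, U2, U3, V1, V2', V3'] at key
    refine key (3 * a 1 + g 0) 0 ?_
    simp only [MvPolynomial.smul_eq_C_mul, map_add, map_mul]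
    ring
  · rw [U1, U2, U3, V1', V2', V3] at key
    refine key (3 * a 2 + g 1) 0 ?_
    simp only [MvPolynomial.smul_eq_C_mul, map_add, map_mul]
    ring
  · rw [U1, U2, U3, V1', V2', V3'] at key
    refine key (3 * a 2 + g 0) 0 ?_
    simp only [MvPolynomial.smul_eq_C_mul, map_add, map_mul]
    ring

/-- some square product occurs: everything is congruent to a multiple of `z_0^4` -/
private theorem n3a_Qall (h5 : 5 ≤ p) (h : MS3 p R) (hP : (z 0 - z 1) * z 1 ^ 3 ∈ R 3 4) {y : Z p}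
    (hd : ∀ i < 3, ∀ j < 3, i ≠ j → dd i j y ∈ R 3 4) {a g : ℕ → ZMod p}
    (hy : y - (a 0 • z 0 ^ 4 + a 1 • z 1 ^ 4 + a 2 • z 2 ^ 4 +
        (g 0 • (z 1 ^ 2 * z 2 ^ 2) + g 1 • (z 0 ^ 2 * z 2 ^ 2) + g 2 • (z 0 ^ 2 * z 1 ^ 2))) ∈ R 3 4)
    {j : ℕ} (hj : j < 3) (hg : g j ≠ 0) {i' j' : ℕ} (hi' : i' < 3) (hj' : j' < 3) (hij' : i' ≠ j') :
    z i' ^ 4 - z i' ^ 2 * z j' ^ 2 ∈ R 3 4 := by
  obtain ⟨i, k, hi, hk, hij, hik, hjk⟩ : ∃ i k : ℕ, i < 3 ∧ k < 3 ∧ i ≠ j ∧ i ≠ k ∧ j ≠ k := by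
    interval_cases j
    · exact ⟨1, 2, by norm_num, by norm_num, by norm_num, by norm_num, by norm_num⟩
    · exact ⟨0, 2, by norm_num, by norm_num, by norm_num, by norm_num, by norm_num⟩
    · exact ⟨0, 1, by norm_num, by norm_num, by norm_num, by norm_num, by norm_num⟩
  have h1 := n3a_g1 h5 h hP hd hy hi hj hk hij hik hjk
  exact n3a_Q h hk hj hjk.symm ((Submodule.smul_mem_iff _ hg).1 h1) hi' hj' hij'

private theorem n3a_one (h : MS3 p R) (hQ : ∀ i < 3, ∀ j < 3, i ≠ j → z i ^ 4 - z i ^ 2 * z j ^ 2 ∈ R 3 4)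
    {y : Z p} {a g : ℕ → ZMod p}
    (hy : y - (a 0 • z 0 ^ 4 + a 1 • z 1 ^ 4 + a 2 • z 2 ^ 4 +
        (g 0 • (z 1 ^ 2 * z 2 ^ 2) + g 1 • (z 0 ^ 2 * z 2 ^ 2) + g 2 • (z 0 ^ 2 * z 1 ^ 2))) ∈ R 3 4) :
    y - (a 0 + a 1 + a 2 + g 0 + g 1 + g 2) • z 0 ^ 4 ∈ R 3 4 := by
  have q01 := hQ 0 (by norm_num) 1 (by norm_num) (by norm_num)
  have q10 := hQ 1 (by norm_num) 0 (by norm_num) (by norm_num)
  have q02 := hQ 0 (by norm_num) 2 (by norm_num) (by norm_num)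
  have q20 := hQ 2 (by norm_num) 0 (by norm_num) (by norm_num)
  have q12 := hQ 1 (by norm_num) 2 (by norm_num) (by norm_num)
  have e : y - (a 0 + a 1 + a 2 + g 0 + g 1 + g 2) • z 0 ^ 4 =
      (y - (a 0 • z 0 ^ 4 + a 1 • z 1 ^ 4 + a 2 • z 2 ^ 4 +
        (g 0 • (z 1 ^ 2 * z 2 ^ 2) + g 1 • (z 0 ^ 2 * z 2 ^ 2) + g 2 • (z 0 ^ 2 * z 1 ^ 2)))) +
      (a 1 + g 0) • ((z 1 ^ 4 - z 1 ^ 2 * z 0 ^ 2) - (z 0 ^ 4 - z 0 ^ 2 * z 1 ^ 2)) +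
      a 2 • ((z 2 ^ 4 - z 2 ^ 2 * z 0 ^ 2) - (z 0 ^ 4 - z 0 ^ 2 * z 2 ^ 2)) -
      g 0 • (z 1 ^ 4 - z 1 ^ 2 * z 2 ^ 2) - g 1 • (z 0 ^ 4 - z 0 ^ 2 * z 2 ^ 2) -
      g 2 • (z 0 ^ 4 - z 0 ^ 2 * z 1 ^ 2) := by
    simp only [MvPolynomial.smul_eq_C_mul, map_add]
    ring
  rw [e]
  exact sub_mem (sub_mem (sub_mem (add_mem (add_mem hy (Submodule.smul_mem _ _ (sub_mem q10 q01)))
    (Submodule.smul_mem _ _ (sub_mem q20 q02))) (Submodule.smul_mem _ _ q12)) (Submodule.smul_mem _ _ q02))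
    (Submodule.smul_mem _ _ q01)

theorem n3P (h5 : 5 ≤ p) (h : MS3 p R) (hP : (z 0 - z 1) * z 1 ^ 3 ∈ R 3 4) {u w : Z p}
    (hl : LP p R (Soc3 p R) 3 4 4 u w) : False := by
  obtain ⟨a, g, hu⟩ := n3a_nf h5 h hP hl.su.hy
  obtain ⟨b, f, hw⟩ := n3a_nf h5 h hP hl.sw.hy
  have du := hl.su.dd le_rfl
  have dw := hl.sw.dd le_rfl
  by_cases hg : (∃ j < 3, g j ≠ 0) ∨ (∃ j < 3, f j ≠ 0)
  · have hQ : ∀ i < 3, ∀ j < 3, i ≠ j → z i ^ 4 - z i ^ 2 * z j ^ 2 ∈ R 3 4 := by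
      intro i hi j hj hij
      rcases hg with ⟨t, ht, hg⟩ | ⟨t, ht, hg⟩
      · exact n3a_Qall h5 h hP du hu ht hg hi hj hij
      · exact n3a_Qall h5 h hP dw hw ht hg hi hj hij
    exact hl.rank1 (n3a_one h hQ hu) (n3a_one h hQ hw)
  · push Not at hg
    obtain ⟨h1, h2⟩ := hg
    have e1 : u - ∑ i ∈ Finset.range 3, a i • z i ^ 4 ∈ R 3 4 := by
      rw [h1 0 (by norm_num), h1 1 (by norm_num), h1 2 (by norm_num), zero_smul, zero_smul, zero_smul, add_zero,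
        add_zero, add_zero] at hu
      rw [Finset.sum_range_succ, Finset.sum_range_succ, Finset.sum_range_one]
      exact hu
    have e2 : w - ∑ i ∈ Finset.range 3, b i • z i ^ 4 ∈ R 3 4 := by
      rw [h2 0 (by norm_num), h2 1 (by norm_num), h2 2 (by norm_num), zero_smul, zero_smul, zero_smul, add_zero,
        add_zero, add_zero] at hw
      rw [Finset.sum_range_succ, Finset.sum_range_succ, Finset.sum_range_one]
      exact hw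
    refine hl.nu (P1 (n := 3) (N := R 3 4) (h.toMS.GAs (by norm_num)) (e := fun i => z i ^ 4) ?_ e1 e2 hl.Lkd)
    intro i hi j hj hij
    refine ⟨(rn (Equiv.swap i j) : Z p →ₐ[ZMod p] Z p).toLinearMap, GA_rn (Equiv.swap i j) ?_, ?_, ?_, ?_⟩
    · intro t ht
      exact Equiv.swap_apply_of_ne_of_ne (by omega) (by omega)
    · have e3 : (rn (Equiv.swap i j) : Z p →ₐ[ZMod p] Z p).toLinearMap (z i ^ 4) - z j ^ 4 = 0 := by
        rw [AlgHom.toLinearMap_apply, map_pow, rn_z, Equiv.swap_apply_left, sub_self]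
      rw [e3]
      exact Submodule.zero_mem _
    · have e3 : (rn (Equiv.swap i j) : Z p →ₐ[ZMod p] Z p).toLinearMap (z j ^ 4) - z i ^ 4 = 0 := by
        rw [AlgHom.toLinearMap_apply, map_pow, rn_z, Equiv.swap_apply_right, sub_self]
      rw [e3]
      exact Submodule.zero_mem _
    · intro k hk hki hkj
      have e3 : (rn (Equiv.swap i j) : Z p →ₐ[ZMod p] Z p).toLinearMap (z k ^ 4) - z k ^ 4 = 0 := by
        rw [AlgHom.toLinearMap_apply, map_pow, rn_z, Equiv.swap_apply_of_ne_of_ne hki hkj, sub_self]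
      rw [e3]
      exact Submodule.zero_mem _

end ADQ
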