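import Pool.Agent.ADQ.NtF

/-!
# ADQ-N4t

`μ ≠ 0`: `dd 0 1 (qv α μ) = (6 α + 2 (μ - 3 α)) (z_0 - z_1) z_1^3 = 2 μ (z_0 - z_1) z_1^3 ∈ R 4 4`, so `z_i z_j^3 ≡ z_j^4`; `qv ≡ (μ - α) z_0^4 + 2 μ z_1^4`, and with `(0 1)`: `(μ - α) z_1^4 + 2 μ z_0^4 ∈ R 4 4`.  If `(μ - α)^2 ≠ 4 μ^2`: `z_0^4 ∈ R 4 4`, `nt4`.
If `μ - α = 2 μ`: `z_i^4 + z_j^4 ∈ R` for all `i ≠ j < 4`, `2 z_0^4 = (z_0^4 + z_1^4) + (z_0^4 + z_2^4) - (z_1^4 + z_2^4)`, `nt4`.  If `μ - α = - 2 μ`: `z_0^4 ≡ z_1^4`; all `z_i^4`, `z_i^3 z_j` are `≡ e := z_0^4`; `dd 0 2` of `z_0^3 z_1 - z_0^4 ∈ R`: `2 (z_0 - z_2) z_2^2 z_1 - 3 (z_0 - z_2) z_2^3 ≡ 2 z_0 z_1 z_2^2 - 2 e`: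
`z_0 z_1 z_2^2 ≡ e`; `dd 2 3` of `z_2^2 z_0 z_1 - z_0^4`: `(z_2 - z_3) z_3 z_0 z_1 ≡ z_0 z_1 z_2 z_3 - e`.  Second alternative.
`μ = 0`, `α ≠ 0`: `3 z_0^3 z_1 - 2 z_0^4 ∈ R` (`qv = α (2 z_0^4 - 3 z_0^3 z_1)`); `dd 0 2` of it: `6 z_0 z_1 z_2^2 - 6 z_2^3 z_1 - 6 z_0 z_2^3 + 6 z_2^4 ≡ 6 z_0 z_1 z_2^2 - 2 z_2^4`: `3 z_2^2 z_0 z_1 - z_2^4 ∈ R`; `dd 0 3` of `3 z_0^2 z_1 z_2 - z_0^4`:
`3 z_0 z_1 z_2 z_3 - 3 z_3^2 z_1 z_2 - 3 z_0 z_3^3 + 3 z_3^4 ≡ 3 z_0 z_1 z_2 z_3`.  Third alternative.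
-/

namespace ADQ

open AD ADN ADC

variable {p : ℕ} [Fact p.Prime] {R : ℕ → ℕ → Submodule (ZMod p) (Z p)}

private theorem n4t_ne {m : ℕ} (h1 : 1 ≤ m) (h2 : m < p) : ((m : ℕ) : ZMod p) ≠ 0 := by
  intro h
  rw [ZMod.natCast_eq_zero_iff] at h
  have := Nat.le_of_dvd (by omega) h
  omega

private theorem n4t_rn (h : MS3 p R) (g : ℕ → ℕ) (h1 : ∀ i < 4, g i < 4)
    (h2 : ∀ i < 4, ∀ j < 4, g i = g j → i = j) {F : Z p} (hF : F ∈ R 4 4) : rn g F ∈ R 4 4 :=
  h.ren 4 4 4 g (by omega) h1 h2 F hF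

omit [Fact p.Prime] in
private theorem n4t_z {i j : ℕ} (hij : i ≠ j) : (z j : Z p) ∈ NV i := z_NV hij.symm

/-- the transposition of `a` and `b` -/
private theorem n4t_sw (h : MS3 p R) {a b : ℕ} (ha : a < 4) (hb : b < 4) {F : Z p} (hF : F ∈ R 4 4) :
    rn (Equiv.swap a b) F ∈ R 4 4 := by
  refine n4t_rn h _ (fun i hi => ?_) (fun i _ j _ e => (Equiv.swap a b).injective e) hF
  rcases eq_or_ne i a with rfl | h1
  · rwa [Equiv.swap_apply_left]
  · rcases eq_or_ne i b with rfl | h2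
    · rwa [Equiv.swap_apply_right]
    · rwa [Equiv.swap_apply_of_ne_of_ne h1 h2]

private theorem n4t_half (h5 : 5 ≤ p) {m : ℕ} (h1 : 1 ≤ m) (h2 : m ≤ 4) {F : Z p}
    (hF : (m : ZMod p) • F ∈ R 4 4) : F ∈ R 4 4 :=
  (Submodule.smul_mem_iff _ (n4t_ne h1 (by omega))).1 hF

private theorem n4t_A (h5 : 5 ≤ p) (h : MS3 p R) {α μ : ZMod p} (hμ : μ ≠ 0) (h0 : qv α μ ∈ R 4 4) :
    Nt p 4 ≤ R 4 4 ∨ (∀ t ∈ ({z 0 ^ 4, z 1 ^ 4, z 0 ^ 3 * z 1, z 1 ^ 3 * z 0, z 1 ^ 3 * z 2, z 0 ^ 2 * z 1 * z 2, z 1 ^ 2 * z 0 * z 2,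
      z 0 * z 1 * z 2 * z 3} : Set (Z p)), t - z 0 ^ 4 ∈ R 4 4) := by
  have n2 : (2 : ZMod p) ≠ 0 := by exact_mod_cast n4t_ne (p := p) (m := 2) (by omega) (by omega)
  have s2 : ∀ {F : Z p}, 2 * F ∈ R 4 4 → F ∈ R 4 4 := by
    intro F hF
    refine n4t_half (m := 2) h5 (by omega) (by omega) ?_
    rw [MvPolynomial.smul_eq_C_mul, map_natCast]
    exact_mod_cast hF
  -- step 1
  have P0 : ((z 0 - z 1) * z 1 ^ 3 : Z p) ∈ R 4 4 := by
    have h1 := h.dd 4 4 0 1 (by omega) (by omega) (by omega) (by omega) _ h0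
    have e : dd 0 1 (qv α μ) = (2 * μ) • ((z 0 - z 1) * z 1 ^ 3 : Z p) := by
      have e1 : (qv α μ : Z p) = (2 * α) • (z 0 ^ 4 * 1) + (μ - 3 * α) • (z 0 ^ 3 * z 1) +
          (2 * μ) • (z 0 * z 1 ^ 3) := by
        unfold qv
        rw [mul_one, mul_comm (z 1 ^ 3) (z 0)]
      rw [e1, map_add, map_add, map_smul, map_smul, map_smul, dd_four (one_mem _), dd_three (n4t_z (by omega)),
        dd_one (pow_mem (n4t_z (by omega)) 3)]
      simp only [MvPolynomial.smul_eq_C_mul, map_sub, map_mul, map_ofNat]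
      ring
    rw [e] at h1
    exact (Submodule.smul_mem_iff _ (mul_ne_zero n2 hμ)).1 h1
  have P : ∀ i < 4, ∀ j < 4, i ≠ j → ((z i - z j) * z j ^ 3 : Z p) ∈ R 4 4 := by
    intro i hi j hj hij
    have h1 := n4t_rn h (fun t => if t = 0 then i else if t = 1 then j else
      if t = 2 then (if i ≠ 0 ∧ j ≠ 0 then 0 else if i ≠ 1 ∧ j ≠ 1 then 1 else 2) else
      (if i ≠ 3 ∧ j ≠ 3 then 3 else if i ≠ 2 ∧ j ≠ 2 then 2 else 1))
      (by intro t ht; split_ifs <;> omega)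
      (by
        intro s hs t ht
        interval_cases i <;> interval_cases j <;> first
          | exact absurd rfl hij
          | (interval_cases s <;> interval_cases t <;> simp)) P0
    simpa [rn_z] using h1
  -- step 2
  have Q0 : (μ - α) • (z 0 ^ 4 : Z p) + (2 * μ) • z 1 ^ 4 ∈ R 4 4 := by
    have h1 := Submodule.sub_mem _ (Submodule.sub_mem _ h0
      (Submodule.smul_mem _ (μ - 3 * α) (P 1 (by omega) 0 (by omega) (by omega))))
      (Submodule.smul_mem _ (2 * μ) (P 0 (by omega) 1 (by omega) (by omega)))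
    convert h1 using 1
    unfold qv
    simp only [MvPolynomial.smul_eq_C_mul, map_sub, map_mul, map_ofNat]
    ring
  have Q : ∀ i < 4, i ≠ 0 → ((μ - α) • (z 0 ^ 4 : Z p) + (2 * μ) • z i ^ 4 ∈ R 4 4 ∧
      (μ - α) • (z i ^ 4 : Z p) + (2 * μ) • z 0 ^ 4 ∈ R 4 4) := by
    intro i hi hi0
    have h1 := n4t_sw h (a := 1) (b := i) (by omega) hi Q0
    have e0 : Equiv.swap 1 i 0 = 0 := Equiv.swap_apply_of_ne_of_ne (by omega) (by omega)
    simp only [map_add, map_smul, map_pow, rn_z, e0, Equiv.swap_apply_left] at h1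
    have h2 := n4t_sw h (a := 0) (b := i) (by omega) hi h1
    simp only [map_add, map_smul, map_pow, rn_z, Equiv.swap_apply_left, Equiv.swap_apply_right] at h2
    exact ⟨h1, h2⟩
  by_cases hc : (μ - α) ^ 2 - 4 * μ ^ 2 = 0
  · have hc' : (μ - α - 2 * μ) * (μ - α + 2 * μ) = 0 := by linear_combination hc
    rcases mul_eq_zero.1 hc' with h1 | h1
    · left
      refine nt4 h5 h (by omega) ?_
      have h2 : μ - α = 2 * μ := by linear_combination h1
      have h3 : ∀ i < 4, i ≠ 0 → (z 0 ^ 4 + z i ^ 4 : Z p) ∈ R 4 4 := by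
        intro i hi hi0
        have h4 := (Q i hi hi0).1
        rw [h2, ← smul_add] at h4
        exact (Submodule.smul_mem_iff _ (mul_ne_zero n2 hμ)).1 h4
      have h4 := n4t_sw h (a := 0) (b := 2) (by omega) (by omega) (h3 1 (by omega) (by omega))
      have e1 : Equiv.swap 0 2 1 = 1 := Equiv.swap_apply_of_ne_of_ne (by omega) (by omega)
      simp only [map_add, map_pow, rn_z, Equiv.swap_apply_left, e1] at h4
      have h5 := Submodule.sub_mem _ (Submodule.add_mem _ (h3 1 (by omega) (by omega)) (h3 2 (by omega) (by omega))) h4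
      refine s2 ?_
      convert h5 using 1
      ring
    · right
      have h2 : μ - α = -(2 * μ) := by linear_combination h1
      have e4 : ∀ i < 4, (z i ^ 4 - z 0 ^ 4 : Z p) ∈ R 4 4 := by
        intro i hi
        by_cases hi0 : i = 0
        · rw [hi0, sub_self]
          exact Submodule.zero_mem _
        · have h4 := (Q i hi hi0).1
          rw [h2, neg_smul, neg_add_eq_sub, ← smul_sub] at h4
          exact (Submodule.smul_mem_iff _ (mul_ne_zero n2 hμ)).1 h4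
      -- `z_0 z_1 z_2^2`
      have X : (z 2 ^ 2 * (z 0 * z 1) - z 0 ^ 4 : Z p) ∈ R 4 4 := by
        have h3 : (z 0 ^ 3 * z 1 - z 0 ^ 4 * 1 : Z p) ∈ R 4 4 := by
          have := P 1 (by omega) 0 (by omega) (by omega)
          convert this using 1
          ring
        have h4 := h.dd 4 4 0 2 (by omega) (by omega) (by omega) (by omega) _ h3
        rw [map_sub, dd_three (n4t_z (by omega)), dd_four (one_mem _)] at h4
        refine s2 ?_
        have h5 := Submodule.add_mem _ (Submodule.add_mem _ (Submodule.add_mem _ h4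
          (Submodule.smul_mem _ (2 : ZMod p) (P 1 (by omega) 2 (by omega) (by omega))))
          (Submodule.smul_mem _ (3 : ZMod p) (P 0 (by omega) 2 (by omega) (by omega))))
          (Submodule.smul_mem _ (2 : ZMod p) (e4 2 (by omega)))
        convert h5 using 1
        simp only [MvPolynomial.smul_eq_C_mul, map_ofNat]
        ring
      have X02 := n4t_sw h (a := 0) (b := 2) (by omega) (by omega) X
      have X12 := n4t_sw h (a := 1) (b := 2) (by omega) (by omega) X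
      have X23 := n4t_sw h (a := 2) (b := 3) (by omega) (by omega) X
      have e1 : Equiv.swap 0 2 1 = 1 := Equiv.swap_apply_of_ne_of_ne (by omega) (by omega)
      have e2 : Equiv.swap 1 2 0 = 0 := Equiv.swap_apply_of_ne_of_ne (by omega) (by omega)
      have e3 : Equiv.swap 2 3 0 = 0 := Equiv.swap_apply_of_ne_of_ne (by omega) (by omega)
      have e5 : Equiv.swap 2 3 1 = 1 := Equiv.swap_apply_of_ne_of_ne (by omega) (by omega)
      simp only [map_sub, map_mul, map_pow, rn_z, Equiv.swap_apply_left, Equiv.swap_apply_right, e1] at X02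
      simp only [map_sub, map_mul, map_pow, rn_z, Equiv.swap_apply_left, Equiv.swap_apply_right, e2] at X12
      simp only [map_sub, map_mul, map_pow, rn_z, Equiv.swap_apply_left, e3, e5] at X23
      have Y := h.dd 4 4 2 3 (by omega) (by omega) (by omega) (by omega) _ X
      rw [map_sub, dd_two (mul_mem (n4t_z (by omega)) (n4t_z (by omega))),
        dd_NV (pow_mem (n4t_z (by omega)) 4), sub_zero] at Y
      intro t ht
      simp only [Set.mem_insert_iff, Set.mem_singleton_iff] at ht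
      rcases ht with rfl | rfl | rfl | rfl | rfl | rfl | rfl | rfl
      · rw [sub_self]
        exact Submodule.zero_mem _
      · exact e4 1 (by omega)
      · have := P 1 (by omega) 0 (by omega) (by omega)
        convert this using 1
        ring
      · have := Submodule.add_mem _ (P 0 (by omega) 1 (by omega) (by omega)) (e4 1 (by omega))
        convert this using 1
        ring
      · have := Submodule.add_mem _ (P 2 (by omega) 1 (by omega) (by omega)) (e4 1 (by omega))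
        convert this using 1
        ring
      · have := Submodule.add_mem _ X02 (e4 2 (by omega))
        convert this using 1
        ring
      · convert X12 using 1
        ring
      · have := Submodule.add_mem _ Y X23
        convert this using 1
        ring
  · left
    refine nt4 h5 h (by omega) ?_
    have h1 := Submodule.sub_mem _ (Submodule.smul_mem _ (μ - α) (Q 1 (by omega) (by omega)).1)
      (Submodule.smul_mem _ (2 * μ) (Q 1 (by omega) (by omega)).2)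
    have e : (μ - α) • ((μ - α) • (z 0 ^ 4 : Z p) + (2 * μ) • z 1 ^ 4) -
        (2 * μ) • ((μ - α) • (z 1 ^ 4 : Z p) + (2 * μ) • z 0 ^ 4) = ((μ - α) ^ 2 - 4 * μ ^ 2) • z 0 ^ 4 := by
      simp only [MvPolynomial.smul_eq_C_mul, map_sub, map_mul, map_pow, map_ofNat]
      ring
    rw [e] at h1
    exact (Submodule.smul_mem_iff _ hc).1 h1

private theorem n4t_B (h5 : 5 ≤ p) (h : MS3 p R) {α : ZMod p} (hα : α ≠ 0) (h0 : qv α 0 ∈ R 4 4) :
    (3 * z 0 ^ 3 * z 1 - 2 * z 0 ^ 4 ∈ R 4 4 ∧ 3 * z 0 ^ 2 * z 1 * z 2 - z 0 ^ 4 ∈ R 4 4 ∧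
      z 0 * z 1 * z 2 * z 3 ∈ R 4 4) := by
  have s2 : ∀ {F : Z p}, 2 * F ∈ R 4 4 → F ∈ R 4 4 := by
    intro F hF
    refine n4t_half (m := 2) h5 (by omega) (by omega) ?_
    rw [MvPolynomial.smul_eq_C_mul, map_natCast]
    exact_mod_cast hF
  have s3 : ∀ {F : Z p}, 3 * F ∈ R 4 4 → F ∈ R 4 4 := by
    intro F hF
    refine n4t_half (m := 3) h5 (by omega) (by omega) ?_
    rw [MvPolynomial.smul_eq_C_mul, map_natCast]
    exact_mod_cast hF
  have T0 : ((3 : ZMod p) • (z 0 ^ 3 * z 1) - (2 : ZMod p) • (z 0 ^ 4 * 1) : Z p) ∈ R 4 4 := by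
    have e : (qv α 0 : Z p) = (-α) • ((3 : ZMod p) • (z 0 ^ 3 * z 1) - (2 : ZMod p) • (z 0 ^ 4 * 1)) := by
      unfold qv
      simp only [MvPolynomial.smul_eq_C_mul, map_sub, map_mul, map_neg, map_ofNat, map_zero]
      ring
    rw [e] at h0
    exact (Submodule.smul_mem_iff _ (neg_ne_zero.2 hα)).1 h0
  have T : ∀ i < 4, ∀ j < 4, i ≠ j → ((3 : ZMod p) • (z i ^ 3 * z j) - (2 : ZMod p) • (z i ^ 4 * 1) : Z p) ∈ R 4 4 := by
    intro i hi j hj hij
    have h1 := n4t_rn h (fun t => if t = 0 then i else if t = 1 then j else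
      if t = 2 then (if i ≠ 0 ∧ j ≠ 0 then 0 else if i ≠ 1 ∧ j ≠ 1 then 1 else 2) else
      (if i ≠ 3 ∧ j ≠ 3 then 3 else if i ≠ 2 ∧ j ≠ 2 then 2 else 1))
      (by intro t ht; split_ifs <;> omega)
      (by
        intro s hs t ht
        interval_cases i <;> interval_cases j <;> first
          | exact absurd rfl hij
          | (interval_cases s <;> interval_cases t <;> simp)) T0
    simpa [rn_z] using h1
  have X : ((3 : ZMod p) • (z 2 ^ 2 * (z 0 * z 1)) - z 2 ^ 4 : Z p) ∈ R 4 4 := by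
    have h4 := h.dd 4 4 0 2 (by omega) (by omega) (by omega) (by omega) _ T0
    rw [map_sub, map_smul, map_smul, dd_three (n4t_z (by omega)), dd_four (one_mem _)] at h4
    refine s2 ?_
    have h5 := Submodule.add_mem _ (Submodule.add_mem _ h4
      (Submodule.smul_mem _ (2 : ZMod p) (T 2 (by omega) 1 (by omega) (by omega))))
      (Submodule.smul_mem _ (2 : ZMod p) (T 2 (by omega) 0 (by omega) (by omega)))
    convert h5 using 1
    simp only [MvPolynomial.smul_eq_C_mul, map_ofNat]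
    ring
  have X02 := n4t_sw h (a := 0) (b := 2) (by omega) (by omega) X
  have X03 := n4t_sw h (a := 0) (b := 3) (by omega) (by omega) X02
  have e1 : Equiv.swap 0 2 1 = 1 := Equiv.swap_apply_of_ne_of_ne (by omega) (by omega)
  have e2 : Equiv.swap 0 3 1 = 1 := Equiv.swap_apply_of_ne_of_ne (by omega) (by omega)
  have e3 : Equiv.swap 0 3 2 = 2 := Equiv.swap_apply_of_ne_of_ne (by omega) (by omega)
  simp only [map_sub, map_smul, map_mul, map_pow, rn_z, Equiv.swap_apply_left, Equiv.swap_apply_right, e1] at X02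
  simp only [map_sub, map_smul, map_mul, map_pow, rn_z, Equiv.swap_apply_left, Equiv.swap_apply_right, e1, e2, e3] at X03
  have W : ((3 : ZMod p) • (z 0 ^ 2 * (z 1 * z 2)) - z 0 ^ 4 * 1 : Z p) ∈ R 4 4 := by
    convert X02 using 1
    simp only [MvPolynomial.smul_eq_C_mul, map_ofNat]
    ring
  have Y := h.dd 4 4 0 3 (by omega) (by omega) (by omega) (by omega) _ W
  rw [map_sub, map_smul, dd_two (mul_mem (n4t_z (by omega)) (n4t_z (by omega))), dd_four (one_mem _)] at Y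
  refine ⟨?_, ?_, ?_⟩
  · convert T0 using 1
    simp only [MvPolynomial.smul_eq_C_mul, map_ofNat]
    ring
  · convert W using 1
    simp only [MvPolynomial.smul_eq_C_mul, map_ofNat]
    ring
  · refine s3 ?_
    have h6 := Submodule.add_mem _ (Submodule.add_mem _ Y X03) (T 3 (by omega) 0 (by omega) (by omega))
    convert h6 using 1
    simp only [MvPolynomial.smul_eq_C_mul, map_ofNat]
    ring

theorem n4t (h5 : 5 ≤ p) (h : MS3 p R) {α μ : ZMod p} (hv : ¬ (α = 0 ∧ μ = 0)) (h0 : qv α μ ∈ R 4 4) :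
    Nt p 4 ≤ R 4 4 ∨ (∀ t ∈ ({z 0 ^ 4, z 1 ^ 4, z 0 ^ 3 * z 1, z 1 ^ 3 * z 0, z 1 ^ 3 * z 2, z 0 ^ 2 * z 1 * z 2, z 1 ^ 2 * z 0 * z 2,
      z 0 * z 1 * z 2 * z 3} : Set (Z p)), t - z 0 ^ 4 ∈ R 4 4) ∨
    (3 * z 0 ^ 3 * z 1 - 2 * z 0 ^ 4 ∈ R 4 4 ∧ 3 * z 0 ^ 2 * z 1 * z 2 - z 0 ^ 4 ∈ R 4 4 ∧
      z 0 * z 1 * z 2 * z 3 ∈ R 4 4) := by
  by_cases hμ : μ = 0
  · right
    right
    rw [hμ] at h0
    exact n4t_B h5 h (fun hα => hv ⟨hα, hμ⟩) h0
  · rcases n4t_A h5 h hμ h0 with h1 | h1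
    · exact Or.inl h1
    · exact Or.inr (Or.inl h1)

end ADQ
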