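import Pool.Agent.ADQ.NBt
import Pool.Agent.ADQ.ORen
import Pool.Agent.ADQ.OZer
import Pool.Agent.ADQ.OXx

/-!
# ADQ-NBa

`cm 0 1 ∈ ZQ 2 2`; `zsplit`: `f ∈ HQ 2 2 m`, `H = zi 2 2 f` (`zi_mem`).  Each relation is `RR_soc` for an
operator `Φ` with `Φ (cm 0 1) = 0`: `fXx 2 2 0`, `fXx 2 2 1` and
`Φ f = fZer 2 2 1 f - f * X 2 - X 1 * sb (x_1 ↦ x_2) f`.
-/

namespace ADQ

open AD ADN ADC

private theorem nba_sub {p n k n' k' : ℕ} {Φ Ψ : P →ₗ[ℤ] P} {φ ψ : Z p →ₗ[ZMod p] Z p}
    (h : Opr p n k n' k' Φ φ) (h' : Opr p n k n' k' Ψ ψ) : Opr p n k n' k' (Φ - Ψ) (φ - ψ) := by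
  refine ⟨?_, ?_, ?_⟩
  · intro D hD hm f hf
    rw [LinearMap.sub_apply]
    exact D.sub_mem (h.tO D hD hm f hf) (h'.tO D hD hm f hf)
  · intro f hf
    rw [LinearMap.sub_apply]
    exact Submodule.sub_mem _ (h.up f hf) (h'.up f hf)
  · intro w hw hl
    obtain ⟨g, hg, h1, h2⟩ := h.val w hw hl
    obtain ⟨g', hg', h1', h2'⟩ := h'.val w hw hl
    refine ⟨g - g', Submodule.sub_mem _ hg hg', ?_, ?_⟩
    · have e : (Φ - Ψ) (mon w) - (g - g') = (Φ (mon w) - g) - (Ψ (mon w) - g') := by
        rw [LinearMap.sub_apply]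
        abel
      rw [e]
      exact Submodule.sub_mem _ h1 h1'
    · rw [map_sub, h2, h2', LinearMap.sub_apply]

private theorem nba_map (g : ℕ → ℕ) (w : List ℕ) : sb (fun i => X (g i)) (mon w) = mon (w.map g) := by
  rw [sb_mon]
  unfold mon
  rw [List.map_map]
  rfl

/-- `f ↦ x_1 f(x_0, x_2)` -/
private noncomputable def fL : P →ₗ[ℤ] P :=
  (LinearMap.mulLeft ℤ (X 1)).comp (tl (sb (fun i => X (Equiv.swap 1 2 i))))

private theorem fL_apply (f : P) : fL f = X 1 * sb (fun i => X (Equiv.swap 1 2 i)) f := rfl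

private theorem fL_mon (w : List ℕ) : fL (mon w) = mon (1 :: w.map (Equiv.swap 1 2)) := by
  rw [fL_apply, nba_map, mon_cons]

private theorem nba_cnt (w : List ℕ) (j : ℕ) :
    (w.map (Equiv.swap 1 2)).count j = w.count (Equiv.swap 1 2 j) := by
  have h := List.count_map_of_injective w (Equiv.swap 1 2) (Equiv.swap 1 2).injective
    (Equiv.swap 1 2 j)
  rwa [Equiv.swap_apply_self] at h

private theorem fL_opr {k : ℕ} : Opr 2 2 k 3 k fL (rn (Equiv.swap 1 2)).toLinearMap := by
  have s1 : (Equiv.swap 1 2) 1 = (2 : ℕ) := Equiv.swap_apply_left 1 2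
  have s2 : (Equiv.swap 1 2) 2 = (1 : ℕ) := Equiv.swap_apply_right 1 2
  have s3 : ∀ i : ℕ, i ≠ 1 → i ≠ 2 → (Equiv.swap 1 2) i = i := fun i h h' =>
    Equiv.swap_apply_of_ne_of_ne h h'
  refine ⟨?_, ?_, ?_⟩
  · intro D hD _ f hf
    rw [fL_apply]
    exact hD.mul_left _ (sb_mem hD (fun i => X_mem _) hf) _
  · intro f hf
    unfold Fge at hf
    induction hf using Submodule.span_induction with
    | mem f hf =>
      obtain ⟨w, hw, rfl⟩ := hf
      rw [fL_mon]
      refine Submodule.subset_span ⟨_, ?_, rfl⟩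
      rw [List.length_cons, List.length_map]
      omega
    | zero => rw [map_zero]; exact Submodule.zero_mem _
    | add x y _ _ hx hy => rw [map_add]; exact Submodule.add_mem _ hx hy
    | smul c x _ hx => rw [map_smul]; exact Submodule.smul_mem _ _ hx
  · intro w hw hl
    have hw2 : w.count 2 = 0 := List.count_eq_zero.2 fun h => by
      have := hw.1 2 h
      omega
    have hc : ∀ j, (1 :: w.map (Equiv.swap 1 2)).count j =
        w.count (Equiv.swap 1 2 j) + if 1 = j then 1 else 0 := by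
      intro j
      rw [List.count_cons, nba_cnt]
      simp
    have hz : zw 2 3 (1 :: w.map (Equiv.swap 1 2)) := by
      constructor
      · intro j hj
        rcases List.mem_cons.1 hj with h | h
        · omega
        · obtain ⟨a, ha, rfl⟩ := List.mem_map.1 h
          have h2 := hw.1 a ha
          have h3 : a = 0 ∨ a = 1 := by omega
          rcases h3 with rfl | rfl
          · rw [s3 0 (by omega) (by omega)]
            omega
          · rw [s1]
            omega
      · intro j hj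
        refine ⟨?_, by simp⟩
        rw [hc]
        have h3 : j = 0 ∨ j = 1 ∨ j = 2 := by omega
        rcases h3 with rfl | rfl | rfl
        · rw [s3 0 (by omega) (by omega)]
          have := (hw.2 0 (by omega)).1
          omega
        · rw [if_pos rfl]
          omega
        · rw [s2]
          have := (hw.2 1 (by omega)).1
          omega
    refine ⟨mon (1 :: w.map (Equiv.swap 1 2)), Submodule.subset_span ⟨_, hz, ?_, rfl⟩, ?_, ?_⟩
    · rw [List.length_cons, List.length_map, hl]
      omega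
    · rw [fL_mon, sub_self]
      exact Submodule.zero_mem _
    · rw [zi_mon hz, AlgHom.toLinearMap_apply]
      unfold rn mo
      rw [MvPolynomial.rename_monomial]
      have key : zx 2 3 (1 :: w.map (Equiv.swap 1 2)) =
          Finsupp.mapDomain (Equiv.swap 1 2) (zx 2 2 w) := by
        ext j
        rw [Finsupp.mapDomain_equiv_apply, Equiv.symm_swap, zx_apply, zx_apply, hc]
        by_cases h1 : j = 1
        · subst h1
          rw [s1, hw2]
          simp
        · rw [if_neg (Ne.symm h1)]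
          by_cases h2 : j = 2
          · subst h2
            rw [s2, if_pos (by omega), if_pos (by omega)]
            simp
          · rw [s3 j h1 h2]
            by_cases h3 : j < 2
            · rw [if_pos (by omega), if_pos h3]
              simp
            · rw [if_neg (by omega), if_neg h3]
      rw [key]

private theorem nba_m2 (i j : ℕ) : X i * X j = mon [i, j] := by rw [mon_cons, mon_single]

private theorem nba_cm : cm 0 1 = mon [0, 1] - mon [1, 0] := by
  unfold cm
  rw [nba_m2, nba_m2]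

private theorem nba_ZQ : cm 0 1 ∈ ZQ 2 2 := by
  rw [nba_cm]
  refine Submodule.sub_mem _ (Submodule.subset_span ⟨_, ?_, rfl⟩)
    (Submodule.subset_span ⟨_, ?_, rfl⟩)
  · unfold zw; decide
  · unfold zw; decide

private theorem nba_no {w : List ℕ} (h : w.length < 3) : wp (zw 2 3) (mon w) = 0 := by
  refine wp_neg fun hw => ?_
  have := zw_length le_rfl hw
  omega

private theorem nba_xx0 : fXx 2 2 0 (cm 0 1) = 0 := by
  unfold fXx
  rw [LinearMap.comp_apply, tl_apply]
  unfold cm
  simp only [map_sub, map_mul, sb_X, if_true, one_ne_zero, if_false]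
  rw [add_mul, mul_add]
  simp only [map_sub, map_add, nba_m2]
  rw [nba_no (by simp), nba_no (by simp), nba_no (by simp), nba_no (by simp)]
  simp

private theorem nba_xx1 : fXx 2 2 1 (cm 0 1) = 0 := by
  unfold fXx
  rw [LinearMap.comp_apply, tl_apply]
  unfold cm
  simp only [map_sub, map_mul, sb_X, if_true, zero_ne_one, if_false]
  rw [add_mul, mul_add]
  simp only [map_sub, map_add, nba_m2]
  rw [nba_no (by simp), nba_no (by simp), nba_no (by simp), nba_no (by simp)]
  simp

private theorem nba_ren (f : P) : fRen 2 3 id f = f * X 2 := by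
  unfold fRen
  have e : (List.range 3).filter (fun j => decide (∀ i < 2, id i ≠ j)) = [2] := by decide
  rw [LinearMap.comp_apply, tl_apply, e, mon_single]
  have e2 : sb (fun i => X (id i)) = AlgHom.id ℤ P := hom_ext_X fun i => by
    rw [sb_X]
    rfl
  rw [e2]
  rfl

private theorem nba_z0 : (fZer 2 2 1 - fRen 2 3 id - fL) (cm 0 1) = 0 := by
  rw [LinearMap.sub_apply, LinearMap.sub_apply, nba_ren, fL_apply]
  unfold fZer
  rw [LinearMap.comp_apply, tl_apply]
  unfold cm
  simp only [map_sub, map_mul, sb_X, if_true, zero_ne_one, if_false]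
  rw [Equiv.swap_apply_left, Equiv.swap_apply_of_ne_of_ne (by omega) (by omega)]
  have e1 : X 0 * (X 1 * X 2) = mon [0, 1, 2] := by rw [mon_cons, mon_cons, mon_single]
  have e2 : X 1 * X 2 * X 0 = mon [1, 2, 0] := by rw [mon_cons, mon_cons, mon_single, mul_assoc]
  rw [e1, e2, wp_pos, wp_pos, ← e1, ← e2]
  · rw [sub_mul, mul_sub]
    simp only [mul_assoc]
    abel
  · unfold zw; decide
  · unfold zw; decide

theorem comForm2 {I : Submodule ℤ P} (h : NC 2 I) {m : ℕ} (hm : 1 ≤ m)
    (hc : cm 0 1 ∈ I ⊔ Fge (2 + (2 - 1) * m)) : ∃ H ∈ Hh 2 2 m,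
    (∃ f ∈ HQ 2 2 m, zi 2 2 f = H ∧ cm 0 1 - f ∈ I ⊔ Fge (2 + (2 - 1) * m + 1)) ∧
    xx 0 2 H ∈ RR 2 I 3 (m - 1) ∧ xx 1 2 H ∈ RR 2 I 3 (m - 1) ∧
    ev 1 H + H + rn (Equiv.swap 1 2) H ∈ RR 2 I 3 m := by
  obtain ⟨f, hf, hcf⟩ := zsplit Nat.prime_two h.isT h.mul nba_ZQ hc
  obtain ⟨k, rfl⟩ : ∃ k, m = k + 1 := ⟨m - 1, by omega⟩
  refine ⟨zi 2 2 f, zi_mem le_rfl hf, ⟨f, hf, rfl, hcf⟩, ?_, ?_, ?_⟩
  · have h1 := RR_soc h (oxx (n := 2) (k := k) (i := 0) (by omega)) hf hcf (by
      rw [nba_xx0]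
      exact Submodule.zero_mem _)
    exact h1
  · have h1 := RR_soc h (oxx (n := 2) (k := k) (i := 1) (by omega)) hf hcf (by
      rw [nba_xx1]
      exact Submodule.zero_mem _)
    exact h1
  · have h1 := RR_soc h (nba_sub (nba_sub (ozer (n := 2) (k := k + 1) (i := 1) Nat.prime_two (by omega))
      (oren (n := 2) (n' := 3) (k := k + 1) (g := id) Nat.prime_two (by omega)
        (fun i hi => by show i < 3; omega) (fun i _ j _ hij => hij))) fL_opr) hf hcf (by
      rw [nba_z0]
      exact Submodule.zero_mem _)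
    rw [LinearMap.sub_apply, LinearMap.sub_apply, AlgHom.toLinearMap_apply,
      AlgHom.toLinearMap_apply, AlgHom.toLinearMap_apply, CharTwo.sub_eq_add, CharTwo.sub_eq_add] at h1
    have e : rn (p := 2) id (zi 2 2 f) = zi 2 2 f := by
      unfold rn
      rw [MvPolynomial.rename_id]
      rfl
    rw [e] at h1
    exact h1

end ADQ
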