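import Pool.Agent.ADQ.Exp2
import Pool.Agent.ADQ.ExpD
import Pool.Agent.ADQ.Tool2b
import Pool.Agent.ADQ.Tool2c

/-!
# ADQ-NBb: `p = 2`, the vanishing of `R` in low degrees, and of the first leading forms of the commutator
-/

namespace ADQ

open AD ADN ADC

variable {R : ℕ → ℕ → Submodule (ZMod 2) (Z 2)}

/-- the value at the point with coordinates `a, b, c, d, 0, 0, ...` -/
private noncomputable def nbv (a b c d : ZMod 2) : Z 2 →+* ZMod 2 :=
  MvPolynomial.eval (fun i => if i = 0 then a else if i = 1 then b else if i = 2 then c else if i = 3 then d else 0)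

private theorem nbv_0 (a b c d : ZMod 2) : nbv a b c d (z 0) = a := by
  unfold nbv
  rw [MvPolynomial.eval_X]
  rfl

private theorem nbv_1 (a b c d : ZMod 2) : nbv a b c d (z 1) = b := by
  unfold nbv
  rw [MvPolynomial.eval_X]
  rfl

private theorem nbv_2 (a b c d : ZMod 2) : nbv a b c d (z 2) = c := by
  unfold nbv
  rw [MvPolynomial.eval_X]
  rfl

private theorem nbv_3 (a b c d : ZMod 2) : nbv a b c d (z 3) = d := by
  unfold nbv
  rw [MvPolynomial.eval_X]
  rfl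

private theorem nbv_smul (a b c d t : ZMod 2) (F : Z 2) : nbv a b c d (t • F) = t * nbv a b c d F := by
  unfold nbv
  rw [MvPolynomial.smul_eval]

private theorem nb_mul0 {i : ℕ} {F : Z 2} (h : z i * F = 0) : F = 0 :=
  (mul_eq_zero.1 h).resolve_left (MvPolynomial.X_ne_zero i)

/-- the linear polynomials -/
private theorem nb_lin {n : ℕ} {F : Z 2} (hF : F ∈ Hh 2 n 1) :
    ∃ a : ℕ → ZMod 2, F = ∑ i ∈ Finset.range n, a i • z i := by
  have h1 : Hh 2 n 1 = Submodule.span (ZMod 2) {F | ∃ i G, i < n ∧ G ∈ Hh 2 n 0 ∧ F = z i * G} := Hh_succ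
  rw [h1] at hF
  induction hF using Submodule.span_induction with
  | mem x hx =>
    obtain ⟨i, G, hi, hG, rfl⟩ := hx
    obtain ⟨c, rfl⟩ := exp0 hG
    refine ⟨fun j => if j = i then c else 0, ?_⟩
    rw [Finset.sum_eq_single i]
    · show z i * c • (1 : Z 2) = (if i = i then c else 0) • z i
      rw [if_pos rfl, mul_smul_comm, mul_one]
    · intro j _ hj
      show (if j = i then c else 0) • (z j : Z 2) = 0
      rw [if_neg hj, zero_smul]
    · intro h
      exact absurd (Finset.mem_range.mpr hi) h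
  | zero => exact ⟨fun _ => 0, by simp⟩
  | add x y _ _ hx hy =>
    obtain ⟨a, rfl⟩ := hx
    obtain ⟨b, rfl⟩ := hy
    exact ⟨fun i => a i + b i, by rw [← Finset.sum_add_distrib]; exact Finset.sum_congr rfl fun i _ => (add_smul _ _ _).symm⟩
  | smul c x _ hx =>
    obtain ⟨a, rfl⟩ := hx
    exact ⟨fun i => c * a i, by rw [Finset.smul_sum]; exact Finset.sum_congr rfl fun i _ => (mul_smul _ _ _).symm⟩

/-- the elements of `Y4` -/
private theorem nb_Y4 {F : Z 2} (h : F ∈ Y4) : ∃ a b : ZMod 2,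
    F = a • ((z 0 + z 1) * (z 2 + z 3)) + b • ((z 0 + z 2) * (z 1 + z 3)) := by
  obtain ⟨a, b, e⟩ := Submodule.mem_span_pair.1 h
  exact ⟨a, b, e.symm⟩

theorem low2a (h : MS2 R) (hY : R 4 2 ≤ Y4) : (∀ k ≤ 1, R 4 k ≤ ⊥) ∧ (∀ k ≤ 2, R 3 k ≤ ⊥) ∧ ∀ k ≤ 2, R 2 k ≤ ⊥ := by
  have h41 : ∀ F ∈ R 4 1, F = 0 := by
    intro F hF
    obtain ⟨a, rfl⟩ := nb_lin (h.le 4 1 (by norm_num) hF)
    have hm : ∀ i < 4, z i * (∑ i ∈ Finset.range 4, a i • z i) ∈ Y4 := fun i hi =>
      hY (h.toMS.mulz (by norm_num) hi hF)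
    obtain ⟨x0, y0, e0⟩ := nb_Y4 (hm 0 (by norm_num))
    obtain ⟨x1, y1, e1⟩ := nb_Y4 (hm 1 (by norm_num))
    obtain ⟨x2, y2, e2⟩ := nb_Y4 (hm 2 (by norm_num))
    obtain ⟨x3, y3, e3⟩ := nb_Y4 (hm 3 (by norm_num))
    have q0 := congrArg (nbv 1 0 0 0) e0
    have q1 := congrArg (nbv 0 1 0 0) e1
    have q2 := congrArg (nbv 0 0 1 0) e2
    have q3 := congrArg (nbv 0 0 0 1) e3
    simp only [Finset.sum_range_succ, Finset.sum_range_zero, zero_add, map_mul, map_add, nbv_smul, nbv_0, nbv_1,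
      nbv_2, nbv_3, mul_zero, mul_one, add_zero, one_mul, zero_mul] at q0 q1 q2 q3
    simp only [Finset.sum_range_succ, Finset.sum_range_zero, q0, q1, q2, q3, zero_smul, add_zero]
  have h40 : ∀ F ∈ R 4 0, F = 0 := fun F hF =>
    nb_mul0 (h41 _ (h.toMS.mulz (i := 0) (by norm_num) (by norm_num) hF))
  have h4 : ∀ k ≤ 1, R 4 k ≤ ⊥ := by
    intro k hk F hF
    rw [Submodule.mem_bot]
    interval_cases k
    · exact h40 F hF
    · exact h41 F hF
  have h3 : ∀ k ≤ 2, R 3 k ≤ ⊥ := by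
    intro k hk F hF
    rcases Nat.lt_or_ge k 2 with h1 | h1
    · exact h4 k (by omega) (h.toMS.up (by norm_num) (by norm_num) hF)
    · obtain rfl : k = 2 := by omega
      obtain ⟨a, b, e⟩ := nb_Y4 (hY (h.toMS.up (by norm_num) (by norm_num : (3 : ℕ) ≤ 4) hF))
      have e1 := rn_congr (h.le 3 2 (by norm_num) hF) (g := id) (h := fun i => if i < 3 then i else 0)
        (fun i hi => (if_pos hi).symm)
      rw [rn_id, e] at e1
      simp only [map_add, map_mul, map_smul, rn_z] at e1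
      norm_num at e1
      have q1 := congrArg (nbv 1 0 0 0) e1
      have q2 := congrArg (nbv 1 1 0 0) e1
      simp only [map_mul, map_add, nbv_smul, nbv_0, nbv_1, nbv_2, nbv_3, mul_zero, mul_one, add_zero, one_mul,
        zero_mul, zero_add] at q1 q2
      have t2 : (1 + 1 : ZMod 2) = 0 := rfl
      rw [t2] at q2
      simp only [mul_zero, zero_mul, zero_add] at q2
      rw [Submodule.mem_bot, e, q2]
      rw [q2, add_zero] at q1
      rw [← q1, zero_smul, zero_smul, add_zero]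
  exact ⟨h4, h3, fun k hk F hF => h3 k hk (h.toMS.up (by norm_num) (by norm_num) hF)⟩

/-- multiples of `z_i`, `i = 0, 1`, in `R 2 3` -/
private theorem nb_23 {h2 : R 2 3 ≤ Submodule.span (ZMod 2) {z 0 ^ 3 + z 1 ^ 3}} {F : Z 2}
    (hF : z 0 * F ∈ R 2 3) : F = 0 := by
  obtain ⟨c, e⟩ := Submodule.mem_span_singleton.1 (h2 hF)
  have q := congrArg (nbv 0 1 0 0) e
  simp only [map_mul, map_add, map_pow, nbv_smul, nbv_0, nbv_1, one_pow, zero_mul] at q
  rw [zero_pow (by norm_num), zero_add, mul_one] at q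
  rw [q, zero_smul] at e
  exact nb_mul0 e.symm

theorem low2b (h : MS2 R) (h2 : R 2 3 ≤ Submodule.span (ZMod 2) {z 0 ^ 3 + z 1 ^ 3}) :
    (∀ k ≤ 2, R 3 k ≤ ⊥) ∧ ∀ k ≤ 2, R 2 k ≤ ⊥ := by
  have h22 : ∀ F ∈ R 2 2, F = 0 := fun F hF =>
    nb_23 (h2 := h2) (h.toMS.mulz (i := 0) (by norm_num) (by norm_num) hF)
  have h21 : ∀ F ∈ R 2 1, F = 0 := fun F hF =>
    nb_mul0 (h22 _ (h.toMS.mulz (i := 0) (by norm_num) (by norm_num) hF))
  have h20 : ∀ F ∈ R 2 0, F = 0 := fun F hF =>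
    nb_mul0 (h21 _ (h.toMS.mulz (i := 0) (by norm_num) (by norm_num) hF))
  have h32 : ∀ F ∈ R 3 2, F = 0 := by
    intro F hF
    have key : ∀ g : ℕ → ℕ, (∀ j < 2 + (2 - 1), g j < 2) →
        (∀ j < 2, ((Finset.range (2 + (2 - 1))).filter (fun t => g t = j)).card = if j = 0 then 2 else 1) →
        rn g F = 0 := fun g g1 g2 => nb_23 (h2 := h2) (h.idt 2 2 0 g (by norm_num) g1 g2 F hF)
    have k1 := key (fun t => if t = 1 then 1 else 0) (fun j _ => by split_ifs <;> norm_num)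
      (fun j hj => by interval_cases j <;> decide)
    have k2 := key (fun t => if t = 2 then 1 else 0) (fun j _ => by split_ifs <;> norm_num)
      (fun j hj => by interval_cases j <;> decide)
    have k3 := key (fun t => if t = 0 then 1 else 0) (fun j _ => by split_ifs <;> norm_num)
      (fun j hj => by interval_cases j <;> decide)
    obtain ⟨d, c, rfl⟩ := exp32 (h.le 3 2 (by norm_num) hF)
    unfold E32 at k1 k2 k3 ⊢
    simp only [map_add, map_mul, map_smul, map_pow, rn_z] at k1 k2 k3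
    norm_num at k1 k2 k3
    have p1 := congrArg (nbv 1 0 0 0) k1
    have p2 := congrArg (nbv 0 1 0 0) k1
    have p3 := congrArg (nbv 1 0 0 0) k2
    have p4 := congrArg (nbv 0 1 0 0) k2
    have p5 := congrArg (nbv 1 0 0 0) k3
    have p6 := congrArg (nbv 0 1 0 0) k3
    simp only [map_mul, map_add, map_pow, map_zero, nbv_smul, nbv_0, nbv_1, nbv_2, nbv_3, mul_zero, mul_one,
      add_zero, one_mul, zero_mul, zero_add, one_pow, ne_eq, OfNat.ofNat_ne_zero, not_false_eq_true, zero_pow]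
      at p1 p2 p3 p4 p5 p6
    simp only [p2, p4, p6, zero_add, add_zero] at p1 p3 p5
    simp only [p1, p2, p3, p4, p5, p6, zero_smul, add_zero]
  have h31 : ∀ F ∈ R 3 1, F = 0 := fun F hF =>
    nb_mul0 (h32 _ (h.toMS.mulz (i := 0) (by norm_num) (by norm_num) hF))
  have h30 : ∀ F ∈ R 3 0, F = 0 := fun F hF =>
    nb_mul0 (h31 _ (h.toMS.mulz (i := 0) (by norm_num) (by norm_num) hF))
  constructor
  · intro k hk F hF
    rw [Submodule.mem_bot]
    interval_cases k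
    · exact h30 F hF
    · exact h31 F hF
    · exact h32 F hF
  · intro k hk F hF
    rw [Submodule.mem_bot]
    interval_cases k
    · exact h20 F hF
    · exact h21 F hF
    · exact h22 F hF

theorem hk2 (h3 : ∀ k ≤ 2, R 3 k ≤ ⊥) {m : ℕ} (h1 : 1 ≤ m) (hm : m ≤ 2) {H : Z 2} (hH : H ∈ Hh 2 2 m)
    (hx0 : xx 0 2 H ∈ R 3 (m - 1)) (hx1 : xx 1 2 H ∈ R 3 (m - 1))
    (hq : ev 1 H + H + rn (Equiv.swap 1 2) H ∈ R 3 m) : H = 0 := by
  have s0 : (Equiv.swap 1 2 : Equiv.Perm ℕ) 0 = 0 := Equiv.swap_apply_of_ne_of_ne (by norm_num) (by norm_num)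
  have s1 : (Equiv.swap 1 2 : Equiv.Perm ℕ) 1 = 2 := Equiv.swap_apply_left 1 2
  have v0 : ev 1 (z 0 : Z 2) = z 0 := by rw [ev_z, if_neg (by norm_num)]
  have v1 : ev 1 (z 1 : Z 2) = 0 := by rw [ev_z, if_pos rfl]
  have q := (Submodule.mem_bot _).1 (h3 m hm hq)
  have r0 := (Submodule.mem_bot _).1 (h3 (m - 1) (by omega) hx0)
  have r1 := (Submodule.mem_bot _).1 (h3 (m - 1) (by omega) hx1)
  rcases (by omega : m = 1 ∨ m = 2) with rfl | rfl
  · obtain ⟨a, rfl⟩ := nb_lin hH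
    simp only [Finset.sum_range_succ, Finset.sum_range_zero, zero_add] at q ⊢
    simp only [map_add, map_smul, rn_z, s0, s1, v0, v1, smul_zero, add_zero] at q
    have q0 := congrArg (nbv 1 0 0 0) q
    have q1 := congrArg (nbv 0 1 0 0) q
    simp only [map_add, map_zero, nbv_smul, nbv_0, nbv_1, nbv_2, mul_zero, mul_one, add_zero, zero_add] at q0 q1
    have e : a 0 + a 0 = 0 := CharTwo.add_self_eq_zero _
    rw [e, zero_add] at q0
    rw [q0, q1, zero_smul, zero_smul, add_zero]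
  · obtain ⟨a, rfl⟩ := exp22 hH
    have x0 : xx 0 2 (a 0 • z 1 ^ 2 + a 1 • (z 0 * z 1) + a 2 • z 0 ^ 2) = a 2 • (z 0 + z 2) := by
      have y1 : xx 0 2 (z 1 ^ 2) = 0 := xx_NV (Subalgebra.pow_mem _ (z_NV (by norm_num)) 2)
      have y2 : xx 0 2 (z 0 * z 1) = 0 := xx_one (z_NV (by norm_num))
      have y3 : xx 0 2 (z 0 ^ 2) = z 0 + z 2 := by
        have y4 := xx_two (i := 0) (n := 2) (Subalgebra.one_mem (NV 0 : Subalgebra (ZMod 2) (Z 2)))
        rw [mul_one, mul_one] at y4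
        exact y4
      rw [map_add, map_add, map_smul, map_smul, map_smul, y1, y2, y3, smul_zero, smul_zero, zero_add, zero_add]
    have x1 : xx 1 2 (a 0 • z 1 ^ 2 + a 1 • (z 0 * z 1) + a 2 • z 0 ^ 2) = a 0 • (z 1 + z 2) := by
      have y1 : xx 1 2 (z 0 ^ 2) = 0 := xx_NV (Subalgebra.pow_mem _ (z_NV (by norm_num)) 2)
      have y2 : xx 1 2 (z 0 * z 1) = 0 := by
        rw [mul_comm]
        exact xx_one (z_NV (by norm_num))
      have y3 : xx 1 2 (z 1 ^ 2) = z 1 + z 2 := by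
        have y4 := xx_two (i := 1) (n := 2) (Subalgebra.one_mem (NV 1 : Subalgebra (ZMod 2) (Z 2)))
        rw [mul_one, mul_one] at y4
        exact y4
      rw [map_add, map_add, map_smul, map_smul, map_smul, y1, y2, y3, smul_zero, smul_zero, add_zero, add_zero]
    rw [x0] at r0
    rw [x1] at r1
    have q0 := congrArg (nbv 1 0 0 0) r0
    have q1 := congrArg (nbv 0 1 0 0) r1
    simp only [map_add, map_zero, nbv_smul, nbv_0, nbv_1, nbv_2, mul_zero, mul_one, add_zero, zero_add] at q0 q1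
    rw [q0, q1] at q ⊢
    simp only [zero_smul, zero_add, add_zero, map_smul, map_mul, rn_z, s0, s1, v0, v1, mul_zero, smul_zero] at q ⊢
    have q2 := congrArg (nbv 1 1 0 0) q
    simp only [map_add, map_mul, map_zero, nbv_smul, nbv_0, nbv_1, nbv_2, mul_zero, mul_one, add_zero] at q2
    rw [q2, zero_smul]

theorem hk3' (h3 : ∀ k ≤ 2, R 3 k ≤ ⊥) {H : Z 2} (hH : H ∈ Hh 2 2 3)
    (hx0 : xx 0 2 H ∈ R 3 2) (hx1 : xx 1 2 H ∈ R 3 2) : ∃ s t : ZMod 2, H = s • z 1 ^ 3 + t • z 0 ^ 3 := by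
  obtain ⟨a, rfl⟩ := exp23 hH
  have r0 := (Submodule.mem_bot _).1 (h3 2 le_rfl hx0)
  have r1 := (Submodule.mem_bot _).1 (h3 2 le_rfl hx1)
  rw [(xx_E23 a).1] at r0
  rw [(xx_E23 a).2] at r1
  have q0 := congrArg (nbv 1 1 0 0) r0
  have q1 := congrArg (nbv 1 1 0 0) r1
  simp only [map_add, map_mul, map_zero, nbv_smul, nbv_0, nbv_1, nbv_2, mul_one, add_zero] at q0 q1
  refine ⟨a 0, a 3, ?_⟩
  unfold E23
  rw [q0, q1, zero_smul, zero_smul, add_zero, add_zero]

end ADQ
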