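import Pool.Agent.ADQ.NBt
import Pool.Agent.ADQ.Tool1

/-! # ADQ-NBe: `p = 2`: multiplication by a variable, and the words of length 3 -/

namespace ADQ

open AD ADN ADC

private theorem zc_zx {w v : List ℕ} (h : zw 2 2 w) {i : ℕ} (hi : i < 2) (hv : ∀ j, v.count j = w.count j + if j = i then 1 else 0) :
    zx 2 2 v = zx 2 2 w + Finsupp.single i 1 := by
  ext j
  rw [Finsupp.add_apply, zx_apply, zx_apply, Finsupp.single_apply, hv j]
  by_cases hj : j < 2
  · rw [if_pos hj, if_pos hj]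
    have h1 := (h.2 j hj).1
    by_cases hji : j = i
    · rw [if_pos hji, if_pos hji.symm]
      simp only [Nat.add_one_sub_one, Nat.div_one]
      omega
    · rw [if_neg hji, if_neg (Ne.symm hji)]
      simp only [Nat.add_one_sub_one, Nat.div_one]
      omega
  · rw [if_neg hj, if_neg hj, if_neg (by omega), add_zero]

private theorem zc_zw {w v : List ℕ} (h : zw 2 2 w) {i : ℕ} (hi : i < 2) (hm : ∀ j ∈ v, j ∈ w ∨ j = i)
    (hv : ∀ j, v.count j = w.count j + if j = i then 1 else 0) : zw 2 2 v := by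
  refine ⟨fun j hj => ?_, fun j hj => ⟨?_, one_dvd _⟩⟩
  · rcases hm j hj with h1 | h1
    · exact h.1 j h1
    · rw [h1]
      exact hi
  · rw [hv j]
    have := (h.2 j hj).1
    omega

private theorem zc_mo {w v : List ℕ} (h : zw 2 2 w) {i : ℕ} (hi : i < 2) (hm : ∀ j ∈ v, j ∈ w ∨ j = i)
    (hv : ∀ j, v.count j = w.count j + if j = i then 1 else 0) : zi 2 2 (mon v) = z i * zi 2 2 (mon w) := by
  rw [zi_mon (zc_zw h hi hm hv), zi_mon h, zc_zx h hi hv, mo_add, mo_single, pow_one, mul_comm]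

private theorem cnt_cons (i : ℕ) (w : List ℕ) (j : ℕ) : (i :: w).count j = w.count j + if j = i then 1 else 0 := by
  rw [List.count_cons]
  by_cases h : j = i
  · rw [if_pos h, h]
    simp
  · rw [if_neg h]
    simp [Ne.symm h]

private theorem cnt_app (i : ℕ) (w : List ℕ) (j : ℕ) : (w ++ [i]).count j = w.count j + if j = i then 1 else 0 := by
  rw [List.count_append, cnt_cons, List.count_nil, zero_add]

theorem zi_cons {k : ℕ} {f : P} (hf : f ∈ HQ 2 2 k) {i : ℕ} (hi : i < 2) :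
    X i * f ∈ HQ 2 2 (k + 1) ∧ zi 2 2 (X i * f) = z i * zi 2 2 f ∧
    f * X i ∈ HQ 2 2 (k + 1) ∧ zi 2 2 (f * X i) = z i * zi 2 2 f := by
  unfold HQ at hf
  induction hf using Submodule.span_induction with
  | mem x hx =>
    obtain ⟨w, hw, hl, rfl⟩ := hx
    have e1 : X i * mon w = mon (i :: w) := (mon_cons i w).symm
    have e2 : mon w * X i = mon (w ++ [i]) := by
      rw [mon_append, mon_single]
    have m1 : ∀ j ∈ i :: w, j ∈ w ∨ j = i := fun j hj => (List.mem_cons.1 hj).symm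
    have m2 : ∀ j ∈ w ++ [i], j ∈ w ∨ j = i := fun j hj => by
      rcases List.mem_append.1 hj with h | h
      · exact Or.inl h
      · exact Or.inr (List.mem_singleton.1 h)
    refine ⟨?_, ?_, ?_, ?_⟩
    · rw [e1]
      refine Submodule.subset_span ⟨i :: w, zc_zw hw hi m1 (cnt_cons i w), ?_, rfl⟩
      rw [List.length_cons, hl]
      ring
    · rw [e1]
      exact zc_mo hw hi m1 (cnt_cons i w)
    · rw [e2]
      refine Submodule.subset_span ⟨w ++ [i], zc_zw hw hi m2 (cnt_app i w), ?_, rfl⟩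
      rw [List.length_append, hl, List.length_singleton]
      ring
    · rw [e2]
      exact zc_mo hw hi m2 (cnt_app i w)
  | zero =>
    refine ⟨?_, ?_, ?_, ?_⟩
    · rw [mul_zero]; exact Submodule.zero_mem _
    · rw [mul_zero, map_zero, mul_zero]
    · rw [zero_mul]; exact Submodule.zero_mem _
    · rw [zero_mul, map_zero, mul_zero]
  | add x y _ _ hx hy =>
    refine ⟨?_, ?_, ?_, ?_⟩
    · rw [mul_add]; exact Submodule.add_mem _ hx.1 hy.1
    · rw [mul_add, map_add, map_add, hx.2.1, hy.2.1, mul_add]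
    · rw [add_mul]; exact Submodule.add_mem _ hx.2.2.1 hy.2.2.1
    · rw [add_mul, map_add, map_add, hx.2.2.2, hy.2.2.2, mul_add]
  | smul c x _ hx =>
    refine ⟨?_, ?_, ?_, ?_⟩
    · rw [mul_smul_comm]; exact Submodule.smul_mem _ _ hx.1
    · rw [mul_smul_comm, map_smul, map_smul, hx.2.1, mul_smul_comm]
    · rw [smul_mul_assoc]; exact Submodule.smul_mem _ _ hx.2.2.1
    · rw [smul_mul_assoc, map_smul, map_smul, hx.2.2.2, mul_smul_comm]

private theorem fge_mul {a b : ℕ} {f g : P} (hf : f ∈ Fge a) (hg : g ∈ Fge b) : f * g ∈ Fge (a + b) := by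
  induction hf using Submodule.span_induction with
  | mem f hf =>
    obtain ⟨u, hu, rfl⟩ := hf
    induction hg using Submodule.span_induction with
    | mem g hg =>
      obtain ⟨v, hv, rfl⟩ := hg
      rw [← mon_append]
      exact Submodule.subset_span ⟨_, by rw [List.length_append]; omega, rfl⟩
    | zero => rw [mul_zero]; exact Submodule.zero_mem _
    | add x y _ _ hx hy => rw [mul_add]; exact Submodule.add_mem _ hx hy
    | smul c x _ hx => rw [mul_smul_comm]; exact Submodule.smul_mem _ _ hx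
  | zero => rw [zero_mul]; exact Submodule.zero_mem _
  | add x y _ _ hx hy => rw [add_mul]; exact Submodule.add_mem _ hx hy
  | smul c x _ hx => rw [smul_mul_assoc]; exact Submodule.smul_mem _ _ hx

private theorem X_Fge (i : ℕ) : (X i : P) ∈ Fge 1 := by
  rw [← mon_single]
  exact Submodule.subset_span ⟨[i], le_rfl, rfl⟩

private theorem HQ_Fge {k : ℕ} {f : P} (hf : f ∈ HQ 2 2 k) : f ∈ Fge (2 + k) := by
  unfold HQ at hf
  refine Submodule.span_mono ?_ hf
  rintro x ⟨w, _, hl, rfl⟩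
  exact ⟨w, by rw [hl]; omega, rfl⟩

private theorem left_mem {I : Submodule ℤ P} (hI : IsT I) {n : ℕ} (i : ℕ) {f : P} (hf : f ∈ I ⊔ Fge n) :
    X i * f ∈ I ⊔ Fge n := by
  obtain ⟨a, ha, b, hb, rfl⟩ := Submodule.mem_sup.1 hf
  rw [mul_add]
  refine Submodule.add_mem_sup (hI.mul_left a ha _) (Fge_anti ?_ (fge_mul (X_Fge i) hb))
  omega

private theorem right_mem {I : Submodule ℤ P} (hI : IsT I) {n : ℕ} (i : ℕ) {f : P} (hf : f ∈ I ⊔ Fge n) :
    f * X i ∈ I ⊔ Fge n := by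
  obtain ⟨a, ha, b, hb, rfl⟩ := Submodule.mem_sup.1 hf
  rw [add_mul]
  refine Submodule.add_mem_sup (hI.mul_right a ha _) (Fge_anti ?_ (fge_mul hb (X_Fge i)))
  omega

private theorem zi0 {w : List ℕ} (h : zw 2 2 w) {i : ℕ} (hx : zx 2 2 w = Finsupp.single i 1) : zi 2 2 (mon w) = z i := by
  rw [zi_mon h, hx, mo_single, pow_one]

private theorem w6 {w : List ℕ} (hw : zw 2 2 w) (hl : w.length = 3) : w = [0, 0, 1] ∨ w = [0, 1, 0] ∨ w = [1, 0, 0] ∨
    w = [0, 1, 1] ∨ w = [1, 0, 1] ∨ w = [1, 1, 0] := by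
  match w, hl with
  | [a, b, c], _ =>
    have ha : a < 2 := hw.1 a (by simp)
    have hb : b < 2 := hw.1 b (by simp)
    have hc : c < 2 := hw.1 c (by simp)
    have h0 := (hw.2 0 (by norm_num)).1
    have h1 := (hw.2 1 (by norm_num)).1
    interval_cases a <;> interval_cases b <;> interval_cases c <;> simp at h0 h1 ⊢

private theorem zwd {w : List ℕ} (h : (∀ i ∈ w, i < 2) ∧ 1 ≤ w.count 0 ∧ 1 ≤ w.count 1) : zw 2 2 w := by
  refine ⟨h.1, fun i hi => ⟨?_, one_dvd _⟩⟩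
  interval_cases i
  · exact h.2.1
  · exact h.2.2

private theorem zxd {w : List ℕ} {i : ℕ} (h : (w.count 0 - 1 = if i = 0 then 1 else 0) ∧ (w.count 1 - 1 = if i = 1 then 1 else 0))
    (hi : i < 2) : zx 2 2 w = Finsupp.single i 1 := by
  ext j
  rw [zx_apply, Finsupp.single_apply]
  by_cases hj : j < 2
  · rw [if_pos hj]
    simp only [Nat.add_one_sub_one, Nat.div_one]
    interval_cases j
    · exact h.1
    · exact h.2
  · rw [if_neg hj, if_neg (by omega)]

private theorem v001 : zi 2 2 (mon [0, 0, 1]) = z 0 := zi0 (zwd (by decide)) (zxd (by decide) (by norm_num))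
private theorem v010 : zi 2 2 (mon [0, 1, 0]) = z 0 := zi0 (zwd (by decide)) (zxd (by decide) (by norm_num))
private theorem v100 : zi 2 2 (mon [1, 0, 0]) = z 0 := zi0 (zwd (by decide)) (zxd (by decide) (by norm_num))
private theorem v011 : zi 2 2 (mon [0, 1, 1]) = z 1 := zi0 (zwd (by decide)) (zxd (by decide) (by norm_num))
private theorem v101 : zi 2 2 (mon [1, 0, 1]) = z 1 := zi0 (zwd (by decide)) (zxd (by decide) (by norm_num))
private theorem v110 : zi 2 2 (mon [1, 1, 0]) = z 1 := zi0 (zwd (by decide)) (zxd (by decide) (by norm_num))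

private noncomputable def F6 (a b c d e f : ℤ) : P := a • mon [0, 0, 1] + b • mon [0, 1, 0] + c • mon [1, 0, 0] +
  d • mon [0, 1, 1] + e • mon [1, 0, 1] + f • mon [1, 1, 0]

private theorem exp6 {f : P} (hf : f ∈ HQ 2 2 1) : ∃ a b c d e g : ℤ, f = F6 a b c d e g := by
  unfold HQ at hf
  induction hf using Submodule.span_induction with
  | mem x hx =>
    obtain ⟨w, hw, hl, rfl⟩ := hx
    rcases w6 hw hl with rfl | rfl | rfl | rfl | rfl | rfl
    · exact ⟨1, 0, 0, 0, 0, 0, by unfold F6; simp only [one_smul, zero_smul, add_zero]⟩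
    · exact ⟨0, 1, 0, 0, 0, 0, by unfold F6; simp only [one_smul, zero_smul, add_zero, zero_add]⟩
    · exact ⟨0, 0, 1, 0, 0, 0, by unfold F6; simp only [one_smul, zero_smul, add_zero, zero_add]⟩
    · exact ⟨0, 0, 0, 1, 0, 0, by unfold F6; simp only [one_smul, zero_smul, add_zero, zero_add]⟩
    · exact ⟨0, 0, 0, 0, 1, 0, by unfold F6; simp only [one_smul, zero_smul, add_zero, zero_add]⟩
    · exact ⟨0, 0, 0, 0, 0, 1, by unfold F6; simp only [one_smul, zero_smul, zero_add, add_zero]⟩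
  | zero => exact ⟨0, 0, 0, 0, 0, 0, by unfold F6; simp only [zero_smul, add_zero]⟩
  | add x y _ _ hx hy =>
    obtain ⟨a, b, c, d, e, g, rfl⟩ := hx
    obtain ⟨a', b', c', d', e', g', rfl⟩ := hy
    refine ⟨a + a', b + b', c + c', d + d', e + e', g + g', ?_⟩
    unfold F6
    module
  | smul r x _ hx =>
    obtain ⟨a, b, c, d, e, g, rfl⟩ := hx
    refine ⟨r * a, r * b, r * c, r * d, r * e, r * g, ?_⟩
    unfold F6
    module

private theorem zi_F6 (a b c d e f : ℤ) : zi 2 2 (F6 a b c d e f) = (a + b + c) • z 0 + (d + e + f) • z 1 := by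
  unfold F6
  simp only [map_add, map_zsmul, v001, v010, v100, v011, v101, v110]
  module

private theorem even_of {a : ℤ} (h : (a : ZMod 2) = 0) : ∃ b, a = 2 * b := by
  rw [ZMod.intCast_zmod_eq_zero_iff_dvd] at h
  exact_mod_cast h

private theorem cf0 {m : ℕ →₀ ℕ} (h : m ≠ Finsupp.single 0 2 + Finsupp.single 1 2) : c22 (mo m) = 0 := by
  unfold c22 mo
  rw [MvPolynomial.lcoeff_apply, MvPolynomial.coeff_monomial, if_neg h]

private theorem c22_z (i : ℕ) (hi : i < 2) (s t : ZMod 2) : c22 (z i * (s • z 1 ^ 3 + t • z 0 ^ 3)) = 0 := by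
  rw [mul_add, mul_smul_comm, mul_smul_comm, map_add, map_smul, map_smul]
  have e : ∀ j : ℕ, (z i * z j ^ 3 : Z 2) = mo (Finsupp.single i 1 + Finsupp.single j 3) := fun j => by
    rw [mo_add, mo_single, mo_single, pow_one]
  have n : ∀ j : ℕ, (Finsupp.single i 1 + Finsupp.single j 3 : ℕ →₀ ℕ) ≠ Finsupp.single 0 2 + Finsupp.single 1 2 := by
    intro j hj
    have h1 := DFunLike.congr_fun hj j
    simp only [Finsupp.add_apply, Finsupp.single_apply] at h1
    by_cases h0 : j = 0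
    · subst h0
      simp at h1
    · by_cases h1' : j = 1
      · subst h1'
        simp at h1
      · rw [if_neg (Ne.symm h0), if_neg (Ne.symm h1')] at h1
        simp at h1
  rw [e 1, e 0, cf0 (n 1), cf0 (n 0), smul_zero, smul_zero, add_zero]

private theorem sne : (Finsupp.single 1 1 : ℕ →₀ ℕ) ≠ Finsupp.single 0 1 := by
  intro hh
  have := DFunLike.congr_fun hh 1
  simp at this

private theorem key {I : Submodule ℤ P} (h : NC 2 I) {f5 f6 : P} (h6 : f6 ∈ HQ 2 2 4) (hc : cm 0 1 - f5 - f6 ∈ I ⊔ Fge 7)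
    {a1 a2 a3 b1 b2 b3 S S' : ℤ} (hS : a1 + a2 + a3 = 2 * S) (hS' : b1 + b2 + b3 = 2 * S') :
    F6 a1 a2 a3 b1 b2 b3 -
      ((-(a2 + a3)) • (X 0 * f5) - a3 • (f5 * X 0) - (b2 + b3) • (f5 * X 1) - b3 • (X 1 * f5)) ∈ I ⊔ Fge 7 := by
  have k1 : (S : ℤ) • (2 : ℤ) • mon [0, 0, 1] ∈ I ⊔ Fge 7 :=
    Submodule.smul_mem _ _ (Submodule.mem_sup_left (h.mul _ (mon_mem_Pp (by simp))))
  have k2 : (S' : ℤ) • (2 : ℤ) • mon [0, 1, 1] ∈ I ⊔ Fge 7 :=
    Submodule.smul_mem _ _ (Submodule.mem_sup_left (h.mul _ (mon_mem_Pp (by simp))))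
  have g6 : f6 ∈ Fge 6 := HQ_Fge h6
  have A0 : X 0 * (cm 0 1 - f5 - f6) + X 0 * f6 ∈ I ⊔ Fge 7 :=
    Submodule.add_mem _ (left_mem h.isT 0 hc) (Submodule.mem_sup_right (fge_mul (a := 1) (b := 6) (X_Fge 0) g6))
  have A1 : X 1 * (cm 0 1 - f5 - f6) + X 1 * f6 ∈ I ⊔ Fge 7 :=
    Submodule.add_mem _ (left_mem h.isT 1 hc) (Submodule.mem_sup_right (fge_mul (a := 1) (b := 6) (X_Fge 1) g6))
  have B0 : (cm 0 1 - f5 - f6) * X 0 + f6 * X 0 ∈ I ⊔ Fge 7 :=
    Submodule.add_mem _ (right_mem h.isT 0 hc) (Submodule.mem_sup_right (fge_mul (a := 6) (b := 1) g6 (X_Fge 0)))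
  have B1 : (cm 0 1 - f5 - f6) * X 1 + f6 * X 1 ∈ I ⊔ Fge 7 :=
    Submodule.add_mem _ (right_mem h.isT 1 hc) (Submodule.mem_sup_right (fge_mul (a := 6) (b := 1) g6 (X_Fge 1)))
  have A0' := Submodule.smul_mem _ (a2 + a3) A0
  have B0' := Submodule.smul_mem _ a3 B0
  have B1' := Submodule.smul_mem _ (b2 + b3) B1
  have A1' := Submodule.smul_mem _ b3 A1
  have t1 := Submodule.add_mem _ k1 k2
  have t2 := Submodule.sub_mem _ t1 A0'
  have t3 := Submodule.sub_mem _ t2 B0'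
  have t4 := Submodule.sub_mem _ t3 B1'
  have tot := Submodule.sub_mem _ t4 A1'
  have e : F6 a1 a2 a3 b1 b2 b3 -
      ((-(a2 + a3)) • (X 0 * f5) - a3 • (f5 * X 0) - (b2 + b3) • (f5 * X 1) - b3 • (X 1 * f5)) =
      S • (2 : ℤ) • mon [0, 0, 1] + S' • (2 : ℤ) • mon [0, 1, 1] -
        (a2 + a3) • (X 0 * (cm 0 1 - f5 - f6) + X 0 * f6) - a3 • ((cm 0 1 - f5 - f6) * X 0 + f6 * X 0) -
        (b2 + b3) • ((cm 0 1 - f5 - f6) * X 1 + f6 * X 1) - b3 • (X 1 * (cm 0 1 - f5 - f6) + X 1 * f6) := by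
    have ea : a1 = 2 * S - a2 - a3 := by omega
    have eb : b1 = 2 * S' - b2 - b3 := by omega
    unfold F6 cm
    simp only [mon_cons, mon_nil, mul_one, mul_sub, sub_mul, mul_assoc]
    rw [ea, eb]
    module
  rw [e]
  exact tot

theorem deg3 {I : Submodule ℤ P} (h : NC 2 I) {f5 f6 : P} (h5 : f5 ∈ HQ 2 2 3) (h6 : f6 ∈ HQ 2 2 4) {s t : ZMod 2}
    (hz : zi 2 2 f5 = s • z 1 ^ 3 + t • z 0 ^ 3) (hc : cm 0 1 - f5 - f6 ∈ I ⊔ Fge 7) {f : P} (hf : f ∈ HQ 2 2 1)
    (h0 : zi 2 2 f = 0) : ∃ f' ∈ HQ 2 2 4, f - f' ∈ I ⊔ Fge 7 ∧ c22 (zi 2 2 f') = 0 := by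
  obtain ⟨a1, a2, a3, b1, b2, b3, rfl⟩ := exp6 hf
  rw [zi_F6] at h0
  have hz0 : ((a1 + a2 + a3 : ℤ) : ZMod 2) = 0 := by
    have h1 := congrArg (MvPolynomial.coeff (Finsupp.single 0 1)) h0
    rw [MvPolynomial.coeff_add, MvPolynomial.coeff_smul, MvPolynomial.coeff_smul, MvPolynomial.coeff_X,
      MvPolynomial.coeff_X, if_pos rfl, if_neg sne, MvPolynomial.coeff_zero, smul_zero, add_zero, zsmul_eq_mul,
      mul_one] at h1
    exact h1
  have hz1 : ((b1 + b2 + b3 : ℤ) : ZMod 2) = 0 := by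
    have h1 := congrArg (MvPolynomial.coeff (Finsupp.single 1 1)) h0
    rw [MvPolynomial.coeff_add, MvPolynomial.coeff_smul, MvPolynomial.coeff_smul, MvPolynomial.coeff_X,
      MvPolynomial.coeff_X, if_pos rfl, if_neg sne.symm, MvPolynomial.coeff_zero, smul_zero, zero_add, zsmul_eq_mul,
      mul_one] at h1
    exact h1
  obtain ⟨S, hS⟩ := even_of hz0
  obtain ⟨S', hS'⟩ := even_of hz1
  have Z0 := zi_cons h5 (i := 0) (by norm_num)
  have Z1 := zi_cons h5 (i := 1) (by norm_num)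
  have x0 : X 0 * f5 ∈ HQ 2 2 4 := Z0.1
  have x0' : f5 * X 0 ∈ HQ 2 2 4 := Z0.2.2.1
  have x1 : X 1 * f5 ∈ HQ 2 2 4 := Z1.1
  have x1' : f5 * X 1 ∈ HQ 2 2 4 := Z1.2.2.1
  have p0 := Submodule.smul_mem _ (-(a2 + a3)) x0
  have p1 := Submodule.smul_mem _ a3 x0'
  have p2 := Submodule.smul_mem _ (b2 + b3) x1'
  have p3 := Submodule.smul_mem _ b3 x1
  have q1 := Submodule.sub_mem _ p0 p1
  have q2 := Submodule.sub_mem _ q1 p2
  have q3 := Submodule.sub_mem _ q2 p3
  refine ⟨_, q3, key h h6 hc hS hS', ?_⟩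
  have v0 : c22 (zi 2 2 (X 0 * f5)) = 0 := by
    rw [Z0.2.1, hz]
    exact c22_z 0 (by norm_num) s t
  have v0' : c22 (zi 2 2 (f5 * X 0)) = 0 := by
    rw [Z0.2.2.2, hz]
    exact c22_z 0 (by norm_num) s t
  have v1 : c22 (zi 2 2 (X 1 * f5)) = 0 := by
    rw [Z1.2.1, hz]
    exact c22_z 1 (by norm_num) s t
  have v1' : c22 (zi 2 2 (f5 * X 1)) = 0 := by
    rw [Z1.2.2.2, hz]
    exact c22_z 1 (by norm_num) s t
  simp only [map_sub, map_zsmul, v0, v0', v1, v1', smul_zero, sub_zero]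

end ADQ
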