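import Pool.Agent.ADQ.Tool1b

/-!
# ADQ-Tool2: consequences of the rules of a system `MS`

`GA_comp`: span induction twice; `(rn σ).comp (rn τ) = rn (σ * τ)` (`rn_rn`).  `up`: `ren` with `g = id`.  `GAs`: span induction, `ren` with the permutation.
`mulz`: `up` to `n + (p-1)`, then `idt` with `g j = j` for `j < n`, `g j = i` for `n ≤ j`; on `Hh p n k` this `g` is the identity (`rn_congr`).  `idtS`: `idt` for this `g`: the fibre over `i` has
`1 + (p-1) = p` elements, the others 1.  `mulz'`: `up` from `n + 1` to `n + (p-1)`.  `mulH`: `Hh_succ` and induction on `l`.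
-/

namespace ADQ

open AD ADN ADC

variable {p : ℕ} {R : ℕ → ℕ → Submodule (ZMod p) (Z p)}

private theorem perm_lt {n : ℕ} {σ : Equiv.Perm ℕ} (h : ∀ i, n ≤ i → σ i = i) {i : ℕ} (hi : i < n) : σ i < n := by
  by_contra hc
  have h1 := h (σ i) (not_lt.mp hc)
  have h2 : σ i = i := σ.injective h1
  omega

private theorem card_fib {n q i j : ℕ} (hi : i < n) (hj : j < n) :
    ((Finset.range (n + q)).filter (fun t => (if t < n then t else i) = j)).card = if j = i then q + 1 else 1 := by
  by_cases hji : j = i
  · subst hji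
    rw [if_pos rfl]
    have e : (Finset.range (n + q)).filter (fun t => (if t < n then t else j) = j) =
        insert j (Finset.Ico n (n + q)) := by
      ext t
      simp only [Finset.mem_filter, Finset.mem_range, Finset.mem_insert, Finset.mem_Ico]
      constructor
      · rintro ⟨h1, h2⟩
        by_cases ht : t < n
        · rw [if_pos ht] at h2
          exact Or.inl h2
        · exact Or.inr ⟨not_lt.mp ht, h1⟩
      · rintro (h1 | ⟨h1, h2⟩)
        · subst h1
          refine ⟨by omega, ?_⟩
          rw [if_pos hj]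
        · refine ⟨h2, ?_⟩
          rw [if_neg (not_lt.mpr h1)]
    rw [e, Finset.card_insert_of_notMem, Nat.card_Ico]
    · omega
    · rw [Finset.mem_Ico]
      omega
  · rw [if_neg hji]
    have e : (Finset.range (n + q)).filter (fun t => (if t < n then t else i) = j) = {j} := by
      ext t
      simp only [Finset.mem_filter, Finset.mem_range, Finset.mem_singleton]
      constructor
      · rintro ⟨h1, h2⟩
        by_cases ht : t < n
        · rw [if_pos ht] at h2
          exact h2
        · rw [if_neg ht] at h2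
          exact absurd h2.symm hji
      · intro h1
        subst h1
        refine ⟨by omega, ?_⟩
        rw [if_pos hj]
    rw [e, Finset.card_singleton]

private theorem rn_comp_lin (g h : ℕ → ℕ) :
    (rn g : Z p →ₐ[ZMod p] Z p).toLinearMap.comp (rn h : Z p →ₐ[ZMod p] Z p).toLinearMap =
      (rn (g ∘ h) : Z p →ₐ[ZMod p] Z p).toLinearMap := by
  apply LinearMap.ext
  intro F
  exact rn_rn g h F

theorem GA_one (n : ℕ) : (LinearMap.id : Z p →ₗ[ZMod p] Z p) ∈ GA p n := by
  apply Submodule.subset_span
  refine ⟨1, fun i _ => rfl, ?_⟩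
  apply LinearMap.ext
  intro F
  exact (rn_id F).symm

theorem GA_rn {n : ℕ} (σ : Equiv.Perm ℕ) (h : ∀ i, n ≤ i → σ i = i) : (rn σ : Z p →ₐ[ZMod p] Z p).toLinearMap ∈ GA p n :=
  Submodule.subset_span ⟨σ, h, rfl⟩

theorem GA_comp {n : ℕ} {S T : Z p →ₗ[ZMod p] Z p} (hS : S ∈ GA p n) (hT : T ∈ GA p n) : S.comp T ∈ GA p n := by
  unfold GA at hS
  induction hS using Submodule.span_induction with
  | mem S hS =>
    obtain ⟨σ, hσ, rfl⟩ := hS
    unfold GA at hT
    induction hT using Submodule.span_induction with
    | mem T hT =>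
      obtain ⟨τ, hτ, rfl⟩ := hT
      apply Submodule.subset_span
      refine ⟨σ * τ, fun i hi => ?_, ?_⟩
      · rw [Equiv.Perm.mul_apply, hτ i hi, hσ i hi]
      · exact rn_comp_lin σ τ
    | zero =>
      rw [LinearMap.comp_zero]
      exact Submodule.zero_mem _
    | add x y _ _ hx hy =>
      rw [LinearMap.comp_add]
      exact Submodule.add_mem _ hx hy
    | smul c x _ hx =>
      rw [LinearMap.comp_smul]
      exact Submodule.smul_mem _ c hx
  | zero =>
    rw [LinearMap.zero_comp]
    exact Submodule.zero_mem _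
  | add x y _ _ hx hy =>
    rw [LinearMap.add_comp]
    exact Submodule.add_mem _ hx hy
  | smul c x _ hx =>
    rw [LinearMap.smul_comp]
    exact Submodule.smul_mem _ c hx

theorem GA_Hh {n k : ℕ} {T : Z p →ₗ[ZMod p] Z p} (hT : T ∈ GA p n) {F : Z p} (hF : F ∈ Hh p n k) : T F ∈ Hh p n k := by
  unfold GA at hT
  induction hT using Submodule.span_induction with
  | mem T hT =>
    obtain ⟨σ, hσ, rfl⟩ := hT
    exact Hh_rn (fun i hi => perm_lt hσ hi) hF
  | zero => exact Submodule.zero_mem _
  | add x y _ _ hx hy => exact Submodule.add_mem _ hx hy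
  | smul c x _ hx => exact Submodule.smul_mem _ c hx

theorem MS.up (h : MS p R) {n n' k : ℕ} (hn : 1 ≤ n) (hnn : n ≤ n') {F : Z p} (hF : F ∈ R n k) : F ∈ R n' k := by
  have h1 := h.ren n n' k id hn (fun i hi => lt_of_lt_of_le hi hnn) (fun i _ j _ e => e) F hF
  rw [rn_id] at h1
  exact h1

theorem MS.GAs (h : MS p R) {n k : ℕ} (hn : 1 ≤ n) : Stb p n (R n k) := by
  intro T hT F hF
  unfold GA at hT
  induction hT using Submodule.span_induction with
  | mem T hT =>
    obtain ⟨σ, hσ, rfl⟩ := hT
    exact h.ren n n k σ hn (fun i hi => perm_lt hσ hi) (fun i _ j _ e => σ.injective e) F hF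
  | zero => exact Submodule.zero_mem _
  | add x y _ _ hx hy => exact Submodule.add_mem _ hx hy
  | smul c x _ hx => exact Submodule.smul_mem _ c hx

theorem MS.idtS (h : MS p R) (hp : 2 ≤ p) {n k i : ℕ} (hi : i < n) {F : Z p} (hF : F ∈ R (n + (p - 1)) k) :
    z i * rn (fun j => if j < n then j else i) F ∈ R n (k + 1) := by
  refine h.idt n k i (fun j => if j < n then j else i) hi (fun j _ => ?_) (fun j hj => ?_) F hF
  · show (if j < n then j else i) < n
    split_ifs with h1
    · exact h1
    · exact hi
  · have h2 := card_fib (q := p - 1) hi hj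
    have h3 : p - 1 + 1 = p := by omega
    rw [h3] at h2
    exact h2

theorem MS.mulz (h : MS p R) (hp : 2 ≤ p) {n k i : ℕ} (hi : i < n) {F : Z p} (hF : F ∈ R n k) :
    z i * F ∈ R n (k + 1) := by
  have hn : 1 ≤ n := by omega
  have h1 := h.idtS hp hi (h.up hn (Nat.le_add_right n (p - 1)) hF)
  have h2 : rn (fun j => if j < n then j else i) F = F := by
    have h3 := rn_congr (h.le n k hn hF) (g := fun j => if j < n then j else i) (h := id)
      (fun j hj => if_pos hj)
    rw [h3, rn_id]
  rw [h2] at h1
  exact h1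

/-- it is enough that `F` is in `R` for `n + 1` variables -/
theorem MS.mulz' (h : MS p R) (hp : 2 ≤ p) {n k i : ℕ} (hi : i < n) {F : Z p} (hF : F ∈ Hh p n k)
    (hF' : F ∈ R (n + 1) k) : z i * F ∈ R n (k + 1) := by
  have h1 := h.idtS hp hi (h.up (n := n + 1) (n' := n + (p - 1)) (by omega) (by omega) hF')
  have h2 : rn (fun j => if j < n then j else i) F = F := by
    have h3 := rn_congr hF (g := fun j => if j < n then j else i) (h := id)
      (fun j hj => if_pos hj)
    rw [h3, rn_id]
  rw [h2] at h1
  exact h1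

theorem MS.mulH (h : MS p R) (hp : 2 ≤ p) {n k l : ℕ} (hn : 1 ≤ n) {F G : Z p} (hF : F ∈ R n k) (hG : G ∈ Hh p n l) :
    G * F ∈ R n (k + l) := by
  induction l generalizing G with
  | zero =>
    unfold Hh at hG
    induction hG using Submodule.span_induction with
    | mem x hx =>
      obtain ⟨m, _, hm2, rfl⟩ := hx
      have hm : m = 0 := (Finsupp.degree_eq_zero_iff m).mp hm2
      rw [hm, mo_zero, one_mul, Nat.add_zero]
      exact hF
    | zero =>
      rw [zero_mul]
      exact Submodule.zero_mem _
    | add x y _ _ hx hy =>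
      rw [add_mul]
      exact Submodule.add_mem _ hx hy
    | smul c x _ hx =>
      rw [smul_mul_assoc]
      exact Submodule.smul_mem _ c hx
  | succ l ih =>
    rw [Hh_succ] at hG
    induction hG using Submodule.span_induction with
    | mem x hx =>
      obtain ⟨i, G', hi, hG', rfl⟩ := hx
      have h1 := h.mulz hp hi (ih hG')
      rw [mul_assoc]
      exact h1
    | zero =>
      rw [zero_mul]
      exact Submodule.zero_mem _
    | add x y _ _ hx hy =>
      rw [add_mul]
      exact Submodule.add_mem _ hx hy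
    | smul c x _ hx =>
      rw [smul_mul_assoc]
      exact Submodule.smul_mem _ c hx

end ADQ
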