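import Pool.Agent.ADQ.NBt
import Pool.Agent.ADQ.GAop
import Pool.Agent.ADQ.Tool2

/-!
# ADQ-NBf: `p = 2`, the leading pair with `k = 3` and the swap of the two letters
-/

namespace ADQ

open AD ADN ADC

private theorem nbf_sup {I : Submodule ℤ P} {Φ : P →ₗ[ℤ] P} (hI : ∀ f ∈ I, Φ f ∈ I)
    (hF : ∀ m, ∀ f ∈ Fge m, Φ f ∈ Fge m) {m : ℕ} {f : P} (hf : f ∈ I ⊔ Fge m) : Φ f ∈ I ⊔ Fge m := by
  obtain ⟨u, hu, v, hv, rfl⟩ := Submodule.mem_sup.1 hf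
  rw [map_add]
  exact Submodule.add_mem_sup (hI u hu) (hF m v hv)

private theorem nbf_c22 (F : Z 2) : c22 (rn (Equiv.swap 0 1) F) = c22 F := by
  have h1 := MvPolynomial.coeff_rename_mapDomain (Equiv.swap 0 1 : Equiv.Perm ℕ)
    (Equiv.swap 0 1 : Equiv.Perm ℕ).injective F (Finsupp.single 0 2 + Finsupp.single 1 2)
  rw [Finsupp.mapDomain_add, Finsupp.mapDomain_single, Finsupp.mapDomain_single, Equiv.swap_apply_left,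
    Equiv.swap_apply_right, add_comm (Finsupp.single 1 2) (Finsupp.single 0 2)] at h1
  exact h1

theorem nbf {I A B C : Submodule ℤ P} {l : ℕ} {a b f g : P} (h : TP 2 I A B C 2 3 l a b f g)
    (hu : zi 2 2 f - z 0 ^ 3 ∈ RR 2 I 2 3) (hR : RR 2 I 2 3 ≤ Submodule.span (ZMod 2) {z 0 ^ 3 + z 1 ^ 3})
    (hz : z 0 ^ 3 + z 1 ^ 3 ∈ RR 2 I 2 3) : ∃ s5 ∈ HQ 2 2 3, ∃ s6 ∈ HQ 2 2 4,
    zi 2 2 s5 = z 0 ^ 3 + z 1 ^ 3 ∧ c22 (zi 2 2 s6) = 0 ∧ s5 + s6 ∈ I ⊔ Fge 7 := by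
  haveI : Fact (Nat.Prime 2) := ⟨h.nc.pp⟩
  have hT : (rn (Equiv.swap 0 1) : Z 2 →ₐ[ZMod 2] Z 2).toLinearMap ∈ GA 2 2 :=
    GA_rn (Equiv.swap 0 1) (fun i hi => Equiv.swap_apply_of_ne_of_ne (by omega) (by omega))
  obtain ⟨Φ, t1, -, t3, t4, t5⟩ := GA_op hT
  have hΦI : ∀ x ∈ I, Φ x ∈ I := TO_of_TOp t1 I h.nc.isT h.nc.mul
  have hmA : Mul ((2 : ℕ) : ℤ) A := fun x hx => h.lk.IA (h.nc.mul x hx)
  have hΦA : ∀ x ∈ A, Φ x ∈ A := TO_of_TOp t1 A h.lk.hA hmA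
  have s0 : (Equiv.swap 0 1 : Equiv.Perm ℕ) 0 = 1 := Equiv.swap_apply_left 0 1
  have s1 : (Equiv.swap 0 1 : Equiv.Perm ℕ) 1 = 0 := Equiv.swap_apply_right 0 1
  /- the element of length 5 -/
  have hs5 : f + Φ f ∈ HQ 2 2 3 := Submodule.add_mem _ h.hf (t5 3 f h.hf).1
  have hz5 : zi 2 2 (f + Φ f) = z 0 ^ 3 + z 1 ^ 3 := by
    obtain ⟨c, hc⟩ := Submodule.mem_span_singleton.1 (hR hu)
    have e1 : zi 2 2 f = z 0 ^ 3 + c • (z 0 ^ 3 + z 1 ^ 3) := by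
      rw [hc]
      abel
    have e2 : (rn (Equiv.swap 0 1) : Z 2 →ₐ[ZMod 2] Z 2).toLinearMap (zi 2 2 f) =
        z 1 ^ 3 + c • (z 1 ^ 3 + z 0 ^ 3) := by
      rw [e1]
      show rn (Equiv.swap 0 1) (z 0 ^ 3 + c • (z 0 ^ 3 + z 1 ^ 3)) = z 1 ^ 3 + c • (z 1 ^ 3 + z 0 ^ 3)
      rw [map_add, map_smul, map_add, map_pow, map_pow, rn_z, rn_z, s0, s1]
    rw [map_add, (t5 3 f h.hf).2, e2, e1]
    have e3 : z 0 ^ 3 + c • (z 0 ^ 3 + z 1 ^ 3) + (z 1 ^ 3 + c • (z 1 ^ 3 + z 0 ^ 3)) =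
        z 0 ^ 3 + z 1 ^ 3 + (c • (z 0 ^ 3 + z 1 ^ 3) + c • (z 0 ^ 3 + z 1 ^ 3) : Z 2) := by
      rw [add_comm (z 1 ^ 3 : Z 2) (z 0 ^ 3)]
      abel
    rw [e3, CharTwo.add_self_eq_zero, add_zero]
  have h5 : f + Φ f ∈ I ⊔ Fge 6 := ((mem_RR h.nc (by norm_num)).1 hz).2 (f + Φ f) hs5 hz5
  /- the element `a + Φ a` -/
  have haf : a - f ∈ I ⊔ Fge 6 := h.af
  have haI : a + Φ a ∈ I := by
    refine h.oA.2 ⟨Submodule.add_mem _ h.ln.1 (hΦA a h.ln.1), ?_⟩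
    show a + Φ a ∈ I ⊔ Fge 6
    have e : a + Φ a = (a - f) + Φ (a - f) + (f + Φ f) := by
      rw [map_sub]
      abel
    rw [e]
    exact Submodule.add_mem _ (Submodule.add_mem _ haf (nbf_sup hΦI t3 haf)) h5
  obtain ⟨r6, hr6, hr⟩ := zsplit h.nc.pp h.nc.isT h.nc.mul (k := 4)
    (Submodule.sub_mem _ h.aZ (HQ_ZQ h.hf)) (show a - f ∈ I ⊔ Fge (2 + (2 - 1) * 4) from haf)
  have hr' : a - f - r6 ∈ I ⊔ Fge 7 := hr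
  refine ⟨f + Φ f, hs5, r6 + Φ r6, Submodule.add_mem _ hr6 (t5 4 r6 hr6).1, hz5, ?_, ?_⟩
  · rw [map_add, (t5 4 r6 hr6).2, map_add]
    show c22 (zi 2 2 r6) + c22 (rn (Equiv.swap 0 1) (zi 2 2 r6)) = 0
    rw [nbf_c22, CharTwo.add_self_eq_zero]
  · have e : f + Φ f + (r6 + Φ r6) = (a + Φ a) - ((a - f - r6) + Φ (a - f - r6)) := by
      rw [map_sub, map_sub]
      abel
    rw [e]
    exact Submodule.sub_mem _ (Submodule.mem_sup_left haI)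
      (Submodule.add_mem _ hr' (nbf_sup hΦI t3 hr'))

end ADQ
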