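import Pool.Agent.ADQ.NCo2
import Pool.Agent.ADQ.NBe

/-!
# ADQ-NBg

`x := wp (zw 2 2) g ∈ I ∩ ZQ 2 2` (`TO_zw`, `h.isT`, `h.mul`), `f_k := pt 2 2 k x ∈ HQ 2 2 k` (`pt_mem`), `x - ∑_{k<5} f_k ∈ Fge 7` (`pt_sum`).  `β := cf [1,0] g`, `α := cf [0,1] g`.  `cm 0 1 ∈ I ⊔ Fge 5` (`hc`), so `zi_ker` applies with `c = 3`.
(0) `f_0 = (α + β) x_0 x_1 - β cm 0 1` (`co2_0`) is in `I ⊔ Fge 3`, `zi 2 2 f_0 = (α + β) • 1 ∈ RR 2 I 2 0 = 0`: `2 ∣ α + β`, `f_0 ≡ - β cm 0 1 ≡ β (f5 + f6)` modulo `I ⊔ Fge 7` (`2 β f5 ∈ I` and so on, `Mul 2 I`).  (1) `f_1 ∈ I ⊔ Fge 4`: `zi 2 2 f_1 ∈ RR 2 I 2 1 = 0`; `deg3`: `f_1 ≡ f'` modulo `I ⊔ Fge 7`.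
(2) `f_2 ∈ I ⊔ Fge 5`, `zi 2 2 f_2 ∈ RR 2 I 2 2 = 0`, `f_2 ∈ I ⊔ Fge 7` (`zi_ker`).  (3) `y := β f5 + f_3 ∈ I ⊔ Fge 6`, `zi 2 2 y ∈ RR 2 I 2 3`, so it is `ε (z_0^3 + z_1^3)` (`b2`), `ε = 0` or `1`; by `co2_3` `zi 2 2 y = E23 ...`, the sum of the coefficients is 0: `ct 1 4 + ct 2 3 + ct 3 2 + ct 4 1 + β (s + t) = 0` in `ZMod 2`.
(4) `ε = 0`: `y ∈ I ⊔ Fge 7` (`zi_ker`), so `β f6 + f' + f_4 ∈ I ⊔ Fge 7`, `c22` of its `zi` is 0 by `b1` (`zi_mem_RR`): `β c22 (zi f6) + ct 3 3 = 0` (`co2_4`).  `ε = 1`: `hs`: `y - s5` has `zi = 0`: `y ≡ s5 ≡ - s6` modulo `I ⊔ Fge 7`, so `β f6 + f' - s6 + f_4 ∈ I ⊔ Fge 7`, the same conclusion.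
-/

namespace ADQ

open AD ADN ADC

private theorem nbg_anti {a b : ℕ} (h : a ≤ b) : Fge b ≤ Fge a := by
  refine Submodule.span_mono ?_
  rintro x ⟨w, hw, rfl⟩
  exact ⟨w, h.trans hw, rfl⟩

private theorem nbg_HF {k : ℕ} {f : P} (hf : f ∈ HQ 2 2 k) : f ∈ Fge (2 + k) := by
  unfold HQ at hf
  refine Submodule.span_mono ?_ hf
  rintro x ⟨w, -, hw, rfl⟩
  exact ⟨w, by omega, rfl⟩

private theorem nbg_up {I : Submodule ℤ P} {a b : ℕ} (h : a ≤ b) {f : P} (hf : f ∈ I ⊔ Fge b) : f ∈ I ⊔ Fge a :=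
  sup_le_sup_left (nbg_anti h) I hf

private theorem nbg_in {I : Submodule ℤ P} {a k : ℕ} (h : a ≤ 2 + k) {f : P} (hf : f ∈ HQ 2 2 k) : f ∈ I ⊔ Fge a :=
  Submodule.mem_sup_right (nbg_anti h (nbg_HF hf))

private theorem nbg_ker {I : Submodule ℤ P} (h : NC 2 I) (h25 : cm 0 1 ∈ I ⊔ Fge 5) {k : ℕ} {f : P}
    (hf : f ∈ HQ 2 2 k) (h0 : zi 2 2 f = 0) : f ∈ I ⊔ Fge (k + 5) := by
  have h1 := zi_ker h.isT h.mul (c := 3) h25 (by omega) hf h0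
  have e : 2 + (2 - 1) * k + 3 = k + 5 := by omega
  rwa [e] at h1

private theorem nbg_RR {I : Submodule ℤ P} {k : ℕ} {f : P}
    (hf : f ∈ HQ 2 2 k) (hf' : f ∈ I ⊔ Fge (k + 3)) : zi 2 2 f ∈ RR 2 I 2 k := by
  have e : 2 + (2 - 1) * k + 1 = k + 3 := by omega
  refine zi_mem_RR hf ?_
  rwa [e]

private theorem nbg_smul (c : ℤ) (F : Z 2) : c22 (c • F) = (c : ZMod 2) * c22 F := by
  rw [map_zsmul, zsmul_eq_mul]

private theorem nbg_one {e : ZMod 2} (h : e ≠ 0) : e = 1 := by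
  revert e
  decide

private theorem nbg_ev (c : ℤ) (F : Z 2) : MvPolynomial.eval (fun _ => (1 : ZMod 2)) (c • F) =
    (c : ZMod 2) * MvPolynomial.eval (fun _ => (1 : ZMod 2)) F := by
  rw [map_zsmul, zsmul_eq_mul]

private theorem nbg_zi0 : zi 2 2 (mon [0, 1]) = 1 ∧ zi 2 2 (mon [1, 0]) = 1 := by
  have e : ∀ w : List ℕ, zw 2 2 w → (∀ i < 2, w.count i = 1) → zi 2 2 (mon w) = 1 := by
    intro w hw hc
    have h0 : zx 2 2 w = 0 := by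
      ext i
      rw [zx_apply]
      by_cases hi : i < 2
      · rw [if_pos hi, hc i hi]
        rfl
      · rw [if_neg hi]
        rfl
    rw [zi_mon hw, h0, mo_zero]
  constructor
  · exact e _ ⟨by decide, by decide⟩ (by decide)
  · exact e _ ⟨by decide, by decide⟩ (by decide)

theorem kc2 {I : Submodule ℤ P} (h : NC 2 I) (b1 : ∀ F ∈ RR 2 I 2 4, c22 F = 0)
    (b2 : RR 2 I 2 3 ≤ Submodule.span (ZMod 2) {z 0 ^ 3 + z 1 ^ 3}) (h2 : ∀ k ≤ 2, RR 2 I 2 k ≤ ⊥)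
    (h50 : cm 0 1 ∈ I ⊔ Fge 5) {f5 f6 : P} (h5 : f5 ∈ HQ 2 2 3) (h6 : f6 ∈ HQ 2 2 4) {s t : ZMod 2}
    (hz : zi 2 2 f5 = s • z 1 ^ 3 + t • z 0 ^ 3) (hc : cm 0 1 - f5 - f6 ∈ I ⊔ Fge 7)
    (hs : z 0 ^ 3 + z 1 ^ 3 ∈ RR 2 I 2 3 → ∃ s5 ∈ HQ 2 2 3, ∃ s6 ∈ HQ 2 2 4,
      zi 2 2 s5 = z 0 ^ 3 + z 1 ^ 3 ∧ c22 (zi 2 2 s6) = 0 ∧ s5 + s6 ∈ I ⊔ Fge 7)
    {l m : ℤ} (hl : (l : ZMod 2) = s + t) (hm : (m : ZMod 2) = c22 (zi 2 2 f6)) {g : P} (hg : g ∈ I) :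
    g ∈ ADP.KC2 l m := by
  have hp : Nat.Prime 2 := Nat.prime_two
  obtain ⟨x, hx⟩ : ∃ x, x = wp (zw 2 2) g := ⟨_, rfl⟩
  have hxI : x ∈ I := by rw [hx]; exact TO_zw hp 2 I h.isT h.mul g hg
  have hxZ : x ∈ ZQ 2 2 := by rw [hx]; exact wp_mem _ _
  have hH : ∀ k, pt 2 2 k x ∈ HQ 2 2 k := fun k => pt_mem hxZ
  have hsum := pt_sum (p := 2) le_rfl 5 hxZ
  have hsum' : pt 2 2 0 x + pt 2 2 1 x + pt 2 2 2 x + pt 2 2 3 x + pt 2 2 4 x ∈ I ⊔ Fge 7 := by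
    have h1 : x - ∑ j ∈ Finset.range 5, pt 2 2 j x ∈ I ⊔ Fge 7 := Submodule.mem_sup_right hsum
    have h2 := Submodule.sub_mem _ (Submodule.mem_sup_left (T := Fge 7) hxI) h1
    rw [sub_sub_cancel] at h2
    simpa [Finset.sum_range_succ] using h2
  have e0 : pt 2 2 0 x = cf [0, 1] g • mon [0, 1] + cf [1, 0] g • mon [1, 0] := by rw [hx]; exact co2_0 g
  have e3 : zi 2 2 (pt 2 2 3 x) = E23 (fun i => ((ADP.ct (i + 1) (4 - i) g : ℤ) : ZMod 2)) := by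
    rw [hx]; exact co2_3 g
  have e4 : c22 (zi 2 2 (pt 2 2 4 x)) = ((ADP.ct 3 3 g : ℤ) : ZMod 2) := by rw [hx]; exact co2_4 g
  have F0 := hH 0
  have F1 := hH 1
  have F2 := hH 2
  have F3 := hH 3
  have F4 := hH 4
  generalize pt 2 2 0 x = f0 at *
  generalize pt 2 2 1 x = f1 at *
  generalize pt 2 2 2 x = f2 at *
  generalize pt 2 2 3 x = f3 at *
  generalize pt 2 2 4 x = f4 at *
  obtain ⟨α, hα⟩ : ∃ α, α = cf [0, 1] g := ⟨_, rfl⟩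
  obtain ⟨β, hβ⟩ : ∃ β, β = cf [1, 0] g := ⟨_, rfl⟩
  rw [← hα, ← hβ] at e0
  -- degree 2
  have a0 : f0 ∈ I ⊔ Fge 3 := by
    have h1 : f1 + f2 + f3 + f4 ∈ I ⊔ Fge 3 :=
      Submodule.add_mem _ (Submodule.add_mem _ (Submodule.add_mem _ (nbg_in (by omega) F1) (nbg_in (by omega) F2))
        (nbg_in (by omega) F3)) (nbg_in (by omega) F4)
    have h2 := Submodule.sub_mem _ (nbg_up (show 3 ≤ 7 by omega) hsum') h1
    have h3 : f0 + f1 + f2 + f3 + f4 - (f1 + f2 + f3 + f4) = f0 := by abel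
    rwa [h3] at h2
  have z0 : zi 2 2 f0 = 0 := (Submodule.mem_bot _).1 (h2 0 (by omega) (nbg_RR F0 a0))
  have d0 : (2 : ℤ) ∣ α + β := by
    rw [e0, map_add, map_zsmul, map_zsmul, nbg_zi0.1, nbg_zi0.2, ← add_smul] at z0
    have h1 := congrArg (MvPolynomial.eval (fun _ => (1 : ZMod 2))) z0
    rw [nbg_ev, map_one, mul_one, map_zero] at h1
    exact (ZMod.intCast_zmod_eq_zero_iff_dvd _ 2).1 h1
  have b0 : f0 + β • f5 + β • f6 ∈ I ⊔ Fge 7 := by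
    obtain ⟨γ, hγ⟩ := d0
    have h1 : (2 : ℤ) • mon [0, 1] ∈ I := h.mul _ (mon_mem (by simp))
    have h2 : γ • ((2 : ℤ) • mon [0, 1]) ∈ I ⊔ Fge 7 := Submodule.mem_sup_left (I.smul_mem _ h1)
    have h3 := Submodule.smul_mem (I ⊔ Fge 7) β hc
    have h4 := Submodule.sub_mem _ h2 h3
    have h5 : γ • ((2 : ℤ) • mon [0, 1]) - β • (cm 0 1 - f5 - f6) = f0 + β • f5 + β • f6 := by
      have h6 : cm 0 1 = mon [0, 1] - mon [1, 0] := by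
        unfold cm
        simp only [mon_cons, mon_nil, mul_one]
      have h7 : α = 2 * γ - β := by omega
      rw [h6, e0, h7, smul_smul, mul_comm γ 2, sub_smul, smul_sub, smul_sub, smul_sub]
      abel
    rwa [h5] at h4
  have c0 : f0 ∈ I ⊔ Fge 5 := by
    have h1 : β • f5 + β • f6 ∈ I ⊔ Fge 5 :=
      Submodule.add_mem _ (Submodule.smul_mem _ _ (nbg_in (by omega) h5)) (Submodule.smul_mem _ _ (nbg_in (by omega) h6))
    have h2 := Submodule.sub_mem _ (nbg_up (show 5 ≤ 7 by omega) b0) h1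
    have h3 : f0 + β • f5 + β • f6 - (β • f5 + β • f6) = f0 := by abel
    rwa [h3] at h2
  -- degree 3
  have a1 : f1 ∈ I ⊔ Fge 4 := by
    have h1 : f0 + f2 + f3 + f4 ∈ I ⊔ Fge 4 :=
      Submodule.add_mem _ (Submodule.add_mem _ (Submodule.add_mem _ (nbg_up (by omega) c0) (nbg_in (by omega) F2))
        (nbg_in (by omega) F3)) (nbg_in (by omega) F4)
    have h2 := Submodule.sub_mem _ (nbg_up (show 4 ≤ 7 by omega) hsum') h1
    have h3 : f0 + f1 + f2 + f3 + f4 - (f0 + f2 + f3 + f4) = f1 := by abel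
    rwa [h3] at h2
  have z1 : zi 2 2 f1 = 0 := (Submodule.mem_bot _).1 (h2 1 (by omega) (nbg_RR F1 a1))
  obtain ⟨f', F', b1', c1'⟩ := deg3 h h5 h6 hz hc F1 z1
  have c1 : f1 ∈ I ⊔ Fge 6 := by
    have h1 := Submodule.add_mem _ (nbg_up (show 6 ≤ 7 by omega) b1') (nbg_in (I := I) (show 6 ≤ 2 + 4 by omega) F')
    rwa [sub_add_cancel] at h1
  -- degree 4
  have a2 : f2 ∈ I ⊔ Fge 5 := by
    have h1 : f0 + f1 + f3 + f4 ∈ I ⊔ Fge 5 :=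
      Submodule.add_mem _ (Submodule.add_mem _ (Submodule.add_mem _ c0 (nbg_up (by omega) c1))
        (nbg_in (by omega) F3)) (nbg_in (by omega) F4)
    have h2 := Submodule.sub_mem _ (nbg_up (show 5 ≤ 7 by omega) hsum') h1
    have h3 : f0 + f1 + f2 + f3 + f4 - (f0 + f1 + f3 + f4) = f2 := by abel
    rwa [h3] at h2
  have z2 : zi 2 2 f2 = 0 := (Submodule.mem_bot _).1 (h2 2 (by omega) (nbg_RR F2 a2))
  have b2' : f2 ∈ I ⊔ Fge 7 := nbg_ker h h50 F2 z2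
  -- degree 5
  have Y : f3 - β • f5 ∈ HQ 2 2 3 := Submodule.sub_mem _ F3 (Submodule.smul_mem _ _ h5)
  have W : f' + f4 - β • f6 ∈ HQ 2 2 4 := Submodule.sub_mem _ (Submodule.add_mem _ F' F4) (Submodule.smul_mem _ _ h6)
  have YW : (f3 - β • f5) + (f' + f4 - β • f6) ∈ I ⊔ Fge 7 := by
    have h1 := Submodule.sub_mem _ (Submodule.sub_mem _ (Submodule.sub_mem _ hsum' b0) b1') b2'
    have h3 : f0 + f1 + f2 + f3 + f4 - (f0 + β • f5 + β • f6) - (f1 - f') - f2 =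
      (f3 - β • f5) + (f' + f4 - β • f6) := by abel
    rwa [h3] at h1
  have zw' : zi 2 2 (f' + f4 - β • f6) = zi 2 2 f' + zi 2 2 f4 - β • zi 2 2 f6 := by
    rw [map_sub, map_add, map_zsmul]
  have zy : zi 2 2 (f3 - β • f5) = zi 2 2 f3 - β • zi 2 2 f5 := by rw [map_sub, map_zsmul]
  have a3 : f3 - β • f5 ∈ I ⊔ Fge 6 := by
    have h1 := Submodule.sub_mem _ (nbg_up (show 6 ≤ 7 by omega) YW) (nbg_in (I := I) (show 6 ≤ 2 + 4 by omega) W)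
    rwa [add_sub_cancel_right] at h1
  generalize f3 - β • f5 = y at *
  generalize f' + f4 - β • f6 = w at *
  have r3 : zi 2 2 y ∈ RR 2 I 2 3 := nbg_RR Y a3
  obtain ⟨ε, hε⟩ := Submodule.mem_span_singleton.1 (b2 r3)
  have hw0 : c22 (zi 2 2 w) = 0 := by
    by_cases h0 : zi 2 2 y = 0
    · have h1 : y ∈ I ⊔ Fge 8 := nbg_ker h h50 Y h0
      have h2 := Submodule.sub_mem _ YW (nbg_up (show 7 ≤ 8 by omega) h1)
      rw [add_sub_cancel_left] at h2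
      exact b1 _ (nbg_RR W h2)
    · have h1 : ε = 1 := by
        have h2 : ε ≠ 0 := by
          intro h3
          apply h0
          rw [← hε, h3, zero_smul]
        exact nbg_one h2
      rw [h1, one_smul] at hε
      obtain ⟨s5, hs5, s6, hs6, q1, q2, q3⟩ := hs (by rw [hε]; exact r3)
      have h2 : zi 2 2 (y - s5) = 0 := by rw [map_sub, q1, hε, sub_self]
      have h3 : y - s5 ∈ I ⊔ Fge 8 := nbg_ker h h50 (Submodule.sub_mem _ Y hs5) h2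
      have h4 := Submodule.sub_mem _ (Submodule.sub_mem _ YW (nbg_up (show 7 ≤ 8 by omega) h3)) q3
      have h5 : y + w - (y - s5) - (s5 + s6) = w - s6 := by abel
      rw [h5] at h4
      have h6 := b1 _ (nbg_RR (Submodule.sub_mem _ W hs6) h4)
      rw [map_sub, map_sub, q2, sub_zero] at h6
      exact h6
  have hy0 : MvPolynomial.eval (fun _ => (1 : ZMod 2)) (zi 2 2 y) = 0 := by
    rw [← hε, MvPolynomial.smul_eval, map_add, map_pow, map_pow, MvPolynomial.eval_X, MvPolynomial.eval_X]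
    have h1 : (1 : ZMod 2) ^ 3 + 1 ^ 3 = 0 := by decide
    rw [h1, mul_zero]
  refine ⟨?_, ?_⟩
  · rw [zy, map_sub, nbg_ev, e3, hz] at hy0
    unfold E23 at hy0
    simp only [map_add, MvPolynomial.smul_eval, map_pow, map_mul, MvPolynomial.eval_X, one_pow, mul_one] at hy0
    rw [← hl] at hy0
    have hy1 : ((ADP.ct 1 4 g : ℤ) : ZMod 2) + ((ADP.ct 2 3 g : ℤ) : ZMod 2) + ((ADP.ct 3 2 g : ℤ) : ZMod 2) +
        ((ADP.ct 4 1 g : ℤ) : ZMod 2) - (β : ZMod 2) * (l : ZMod 2) = 0 := hy0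
    refine (ZMod.intCast_zmod_eq_zero_iff_dvd _ 2).1 ?_
    rw [← hβ]
    push_cast
    have h2 : (2 : ZMod 2) = 0 := by decide
    linear_combination hy1 + (β : ZMod 2) * (l : ZMod 2) * h2
  · rw [zw', map_sub, map_add, c1', zero_add, e4, nbg_smul, ← hm] at hw0
    refine (ZMod.intCast_zmod_eq_zero_iff_dvd _ 2).1 ?_
    rw [← hβ]
    push_cast
    have h2 : (2 : ZMod 2) = 0 := by decide
    linear_combination hw0 + (β : ZMod 2) * (m : ZMod 2) * h2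

end ADQ
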