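import Pool.Agent.ADQ.OprR
import Pool.Agent.ADQ.TOz
import Pool.Agent.ADQ.Defs4

/-!
# ADQ-NBt: the homogeneous parts
-/

namespace ADQ

open AD ADN ADC

theorem pt_mem {p n k : ℕ} {f : P} (hz : f ∈ ZQ p n) : pt p n k f ∈ HQ p n k := by
  unfold pt
  unfold ZQ at hz
  induction hz using Submodule.span_induction with
  | mem x hx =>
    obtain ⟨w, hw, rfl⟩ := hx
    by_cases hl : w.length = n + (p - 1) * k
    · rw [wp_pos (φ := fun w : List ℕ => w.length = n + (p - 1) * k) hl]
      exact Submodule.subset_span ⟨w, hw, hl, rfl⟩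
    · rw [wp_neg (φ := fun w : List ℕ => w.length = n + (p - 1) * k) hl]
      exact Submodule.zero_mem _
  | zero => rw [map_zero]; exact Submodule.zero_mem _
  | add x y _ _ hx hy => rw [map_add]; exact Submodule.add_mem _ hx hy
  | smul c x _ hx => rw [map_smul]; exact Submodule.smul_mem _ _ hx

theorem pt_sum {p n : ℕ} (hp : 2 ≤ p) (K : ℕ) {f : P} (hz : f ∈ ZQ p n) :
    f - ∑ j ∈ Finset.range K, pt p n j f ∈ Fge (n + (p - 1) * K) := by
  unfold pt
  unfold ZQ at hz
  induction hz using Submodule.span_induction with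
  | mem x hx =>
    obtain ⟨w, hw, rfl⟩ := hx
    have h1 := zw_length hp hw
    by_cases hd : (zx p n w).degree < K
    · have h2 : ∑ j ∈ Finset.range K, wp (fun w => w.length = n + (p - 1) * j) (mon w) = mon w := by
        rw [Finset.sum_eq_single (zx p n w).degree]
        · exact wp_pos (φ := fun w : List ℕ => w.length = n + (p - 1) * (zx p n _).degree) h1
        · intro j _ hj
          refine wp_neg (φ := fun w : List ℕ => w.length = n + (p - 1) * j) ?_
          intro h3
          apply hj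
          refine Nat.eq_of_mul_eq_mul_left (show 0 < p - 1 by omega) ?_
          omega
        · intro h3
          exact absurd (Finset.mem_range.2 hd) h3
      rw [h2, sub_self]
      exact Submodule.zero_mem _
    · have h2 : ∑ j ∈ Finset.range K, wp (fun w => w.length = n + (p - 1) * j) (mon w) = 0 := by
        refine Finset.sum_eq_zero fun j hj => ?_
        refine wp_neg (φ := fun w : List ℕ => w.length = n + (p - 1) * j) ?_
        intro h3
        apply hd
        have h4 : (zx p n w).degree = j := by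
          refine Nat.eq_of_mul_eq_mul_left (show 0 < p - 1 by omega) ?_
          omega
        rw [h4]
        exact Finset.mem_range.1 hj
      rw [h2, sub_zero]
      refine Submodule.subset_span ⟨w, ?_, rfl⟩
      have h3 : (p - 1) * K ≤ (p - 1) * (zx p n w).degree := Nat.mul_le_mul_left _ (by omega)
      omega
  | zero =>
    have h2 : ∑ j ∈ Finset.range K, wp (fun w => w.length = n + (p - 1) * j) (0 : P) = 0 :=
      Finset.sum_eq_zero fun j _ => map_zero _
    rw [h2, sub_zero]
    exact Submodule.zero_mem _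
  | add x y _ _ hx hy =>
    have h2 : ∑ j ∈ Finset.range K, wp (fun w => w.length = n + (p - 1) * j) (x + y) =
        ∑ j ∈ Finset.range K, wp (fun w => w.length = n + (p - 1) * j) x +
          ∑ j ∈ Finset.range K, wp (fun w => w.length = n + (p - 1) * j) y := by
      rw [← Finset.sum_add_distrib]
      exact Finset.sum_congr rfl fun j _ => map_add _ _ _
    rw [h2, add_sub_add_comm]
    exact Submodule.add_mem _ hx hy
  | smul c x _ hx =>
    have h2 : ∑ j ∈ Finset.range K, wp (fun w => w.length = n + (p - 1) * j) (c • x) =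
        c • ∑ j ∈ Finset.range K, wp (fun w => w.length = n + (p - 1) * j) x := by
      rw [Finset.smul_sum]
      exact Finset.sum_congr rfl fun j _ => map_smul _ _ _
    rw [h2, ← smul_sub]
    exact Submodule.smul_mem _ _ hx

/-- one step of the induction -/
private theorem zl_step {p n : ℕ} (hp : 2 ≤ p) {I : Submodule ℤ P} {q k : ℕ} (hk : k ≤ q) {f : P} (hf : f ∈ I)
    (hz : f ∈ ZQ p n) (ih : ∀ j < k, pt p n j f ∈ I ⊔ Fge (n + (p - 1) * q + 1)) :
    pt p n k f ∈ I ⊔ Fge (n + (p - 1) * k + 1) := by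
  have h1 := pt_sum hp (k + 1) hz
  rw [Finset.sum_range_succ] at h1
  have hqk : (p - 1) * k ≤ (p - 1) * q := Nat.mul_le_mul_left _ hk
  have h2 : f - (∑ j ∈ Finset.range k, pt p n j f + pt p n k f) ∈ I ⊔ Fge (n + (p - 1) * k + 1) := by
    refine Submodule.mem_sup_right (Fge_anti ?_ h1)
    rw [Nat.mul_add]
    omega
  have h3 : ∑ j ∈ Finset.range k, pt p n j f ∈ I ⊔ Fge (n + (p - 1) * k + 1) :=
    Submodule.sum_mem _ fun j hj =>
      (sup_le_sup_left (Fge_anti (by omega)) I) (ih j (Finset.mem_range.1 hj))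
  have h4 : f ∈ I ⊔ Fge (n + (p - 1) * k + 1) := Submodule.mem_sup_left hf
  have h5 := Submodule.sub_mem _ (Submodule.sub_mem _ h4 h3) h2
  have e : f - ∑ j ∈ Finset.range k, pt p n j f -
      (f - (∑ j ∈ Finset.range k, pt p n j f + pt p n k f)) = pt p n k f := by
    abel
  rwa [e] at h5

theorem zleadn {p n : ℕ} [Fact p.Prime] (hn : 1 ≤ n) {I : Submodule ℤ P} (h : NC p I) {q : ℕ}
    (hlow : ∀ k < q, RR p I n k ≤ ⊥) (hcom : cm 0 1 ∈ I ⊔ Fge (2 + (p - 1) * (q + 1))) {f : P} (hf : f ∈ I)
    (hz : f ∈ ZQ p n) : zi p n (pt p n q f) ∈ RR p I n q := by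
  have h2 : 2 ≤ p := h.pp.two_le
  have key : ∀ k, k ≤ q → ∀ j < k, pt p n j f ∈ I ⊔ Fge (n + (p - 1) * q + 1) := by
    intro k
    induction k with
    | zero => intro _ j hj; omega
    | succ k ih =>
      intro hk j hj
      have ih' := ih (by omega)
      rcases (by omega : j < k ∨ j = k) with h1 | rfl
      · exact ih' j h1
      · have h3 := zl_step h2 (by omega) hf hz ih'
        have h4 := zi_mem_RR (pt_mem hz) h3
        have h5 := (Submodule.mem_bot _).1 (hlow j (by omega) h4)
        have hcom' : cm 0 1 ∈ I ⊔ Fge ((p - 1) * (q + 1) + 2) := by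
          rw [Nat.add_comm]
          exact hcom
        have h6 := zi_ker h.isT h.mul hcom' hn (pt_mem hz) h5
        refine (sup_le_sup_left (Fge_anti ?_) I) h6
        rw [Nat.mul_add (p - 1) q 1]
        omega
  exact zi_mem_RR (pt_mem hz) (zl_step h2 le_rfl hf hz (key q le_rfl))

theorem HQ_ZQ {p n k : ℕ} {f : P} (hf : f ∈ HQ p n k) : f ∈ ZQ p n := by
  unfold HQ at hf
  unfold ZQ
  refine Submodule.span_mono ?_ hf
  rintro x ⟨w, h1, h2, rfl⟩
  exact ⟨w, h1, rfl⟩

theorem zw_Fge (φ : List ℕ → Prop) {n : ℕ} {f : P} (hf : f ∈ Fge n) : wp φ f ∈ Fge n := by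
  unfold Fge at hf
  induction hf using Submodule.span_induction with
  | mem x hx =>
    obtain ⟨v, hv, rfl⟩ := hx
    by_cases h1 : φ v
    · rw [wp_pos h1]
      exact Submodule.subset_span ⟨v, hv, rfl⟩
    · rw [wp_neg h1]
      exact Submodule.zero_mem _
  | zero => rw [map_zero]; exact Submodule.zero_mem _
  | add x y _ _ hx hy => rw [map_add]; exact Submodule.add_mem _ hx hy
  | smul c x _ hx => rw [map_smul]; exact Submodule.smul_mem _ _ hx

private theorem zs_sub {d : ℕ} {r : P} (hr : r ∈ Fge d) :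
    r - wp (fun w => w.length = d) r ∈ Fge (d + 1) := by
  unfold Fge at hr
  induction hr using Submodule.span_induction with
  | mem x hx =>
    obtain ⟨v, hv, rfl⟩ := hx
    by_cases h1 : v.length = d
    · rw [wp_pos (φ := fun w => w.length = d) h1, sub_self]
      exact Submodule.zero_mem _
    · rw [wp_neg (φ := fun w => w.length = d) h1, sub_zero]
      exact Submodule.subset_span ⟨v, by omega, rfl⟩
  | zero => rw [map_zero, sub_zero]; exact Submodule.zero_mem _
  | add x y _ _ hx hy =>
    rw [map_add, add_sub_add_comm]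
    exact Submodule.add_mem _ hx hy
  | smul c x _ hx =>
    rw [map_smul, ← smul_sub]
    exact Submodule.smul_mem _ _ hx

theorem zsplit {p n k : ℕ} (hp : p.Prime) {I : Submodule ℤ P} (hI : IsT I) (hm : Mul p I) {x : P} (hz : x ∈ ZQ p n)
    (hx : x ∈ I ⊔ Fge (n + (p - 1) * k)) : ∃ f ∈ HQ p n k, x - f ∈ I ⊔ Fge (n + (p - 1) * k + 1) := by
  obtain ⟨i, hi, r, hr, e⟩ := Submodule.mem_sup.1 hx
  have hz' := ZQ_iff.1 hz
  have hi' : wp (zw p n) i ∈ I := TO_zw hp n I hI hm i hi
  have hr' : wp (zw p n) r ∈ Fge (n + (p - 1) * k) := zw_Fge _ hr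
  refine ⟨pt p n k (wp (zw p n) r), pt_mem (wp_mem (zw p n) r), ?_⟩
  have e2 : x - pt p n k (wp (zw p n) r) =
      wp (zw p n) i + (wp (zw p n) r - wp (fun w => w.length = n + (p - 1) * k) (wp (zw p n) r)) := by
    rw [← hz', ← e, map_add]
    unfold pt
    abel
  rw [e2]
  exact Submodule.add_mem_sup hi' (zs_sub hr')

end ADQ
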