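import Pool.Agent.ADQ.NBt

/-!
# ADQ-NCo

The coefficients of the polynomial that describes the words `zw p n` of a given length.
-/

namespace ADQ

open AD ADN ADC

private noncomputable def ncoN (w : List ℕ) : ℕ →₀ ℕ := (w.map fun i => Finsupp.single i 1).sum

private theorem ncoN_cons (a : ℕ) (w : List ℕ) : ncoN (a :: w) = Finsupp.single a 1 + ncoN w := by
  simp [ncoN]

private theorem ncoN_apply (w : List ℕ) (i : ℕ) : ncoN w i = w.count i := by
  induction w with
  | nil => simp [ncoN]
  | cons a w ih =>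
    rw [ncoN_cons, Finsupp.add_apply, ih, List.count_cons, Finsupp.single_apply]
    by_cases h : a = i
    · simp [h, add_comm]
    · simp [h]

private theorem nco_com (w : List ℕ) : com (mon w) = MvPolynomial.monomial (ncoN w) (1 : ℤ) := by
  induction w with
  | nil =>
    rw [mon_nil, map_one]
    rfl
  | cons a w ih =>
    have h1 : com (X a) = MvPolynomial.monomial (Finsupp.single a 1) (1 : ℤ) := by
      have h2 : com (X a) = MvPolynomial.X a := by simp [com]
      rw [h2]
      rfl
    rw [mon_cons, map_mul, h1, ih, MvPolynomial.monomial_mul, mul_one, ncoN_cons]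

private theorem nco_M (p n : ℕ) (m : ℕ →₀ ℕ) (i : ℕ) :
    (∑ j ∈ Finset.range n, Finsupp.single j (1 + (p - 1) * m j)) i =
      if i < n then 1 + (p - 1) * m i else 0 := by
  classical
  rw [Finsupp.finsetSum_apply]
  simp only [Finsupp.single_apply]
  rw [Finset.sum_ite_eq' (Finset.range n) i (fun j => 1 + (p - 1) * m j)]
  simp only [Finset.mem_range]

private theorem nco_iff {p n : ℕ} (hp : 2 ≤ p) {w : List ℕ} {m : ℕ →₀ ℕ} (hm : ∀ i, n ≤ i → m i = 0)
    (hw : zw p n w) : zx p n w = m ↔
      ncoN w = ∑ j ∈ Finset.range n, Finsupp.single j (1 + (p - 1) * m j) := by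
  constructor
  · rintro rfl
    refine Finsupp.ext fun i => ?_
    rw [nco_M, ncoN_apply]
    by_cases h : i < n
    · rw [if_pos h, zw_count hp hw h]
    · rw [if_neg h]
      refine List.count_eq_zero_of_not_mem fun h1 => h (hw.1 i h1)
  · intro h
    refine Finsupp.ext fun i => ?_
    by_cases hi : i < n
    · have h1 := DFunLike.congr_fun h i
      rw [nco_M, ncoN_apply, if_pos hi, zw_count hp hw hi] at h1
      refine Nat.eq_of_mul_eq_mul_left (show 0 < p - 1 by omega) ?_
      omega
    · rw [zx_apply, if_neg hi, hm i (not_lt.1 hi)]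

private theorem nco_zw {p n : ℕ} {w : List ℕ} {m : ℕ →₀ ℕ}
    (h : ncoN w = ∑ j ∈ Finset.range n, Finsupp.single j (1 + (p - 1) * m j)) : zw p n w := by
  refine ⟨fun i hi => ?_, fun i hi => ?_⟩
  · by_contra hc
    have h1 := DFunLike.congr_fun h i
    rw [nco_M, ncoN_apply, if_neg hc] at h1
    exact absurd hi (List.count_eq_zero.1 h1)
  · have h1 := DFunLike.congr_fun h i
    rw [nco_M, ncoN_apply, if_pos hi] at h1
    rw [h1]
    refine ⟨by omega, ?_⟩
    rw [Nat.add_sub_cancel_left]
    exact dvd_mul_right _ _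

private theorem nco_mo {p : ℕ} (m x : ℕ →₀ ℕ) : MvPolynomial.coeff m (mo x : Z p) = if x = m then 1 else 0 := by
  classical
  unfold mo
  rw [MvPolynomial.coeff_monomial]

theorem zcoef {p n k : ℕ} (hp : 2 ≤ p) (g : P) {m : ℕ →₀ ℕ} (hm : ∀ i, n ≤ i → m i = 0) (hd : m.degree = k) :
    MvPolynomial.coeff m (zi p n (pt p n k (wp (zw p n) g))) =
      (((com g).coeff (∑ i ∈ Finset.range n, Finsupp.single i (1 + (p - 1) * m i)) : ℤ) : ZMod p) := by
  classical
  refine ind_mon (C := fun g => MvPolynomial.coeff m (zi p n (pt p n k (wp (zw p n) g))) =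
      (((com g).coeff (∑ i ∈ Finset.range n, Finsupp.single i (1 + (p - 1) * m i)) : ℤ) : ZMod p))
    ?_ ?_ ?_ ?_ g
  · rw [map_zero, map_zero, map_zero, map_zero, MvPolynomial.coeff_zero, MvPolynomial.coeff_zero,
      Int.cast_zero]
  · intro f g hf hg
    rw [map_add, map_add, map_add, map_add, MvPolynomial.coeff_add, MvPolynomial.coeff_add, hf, hg,
      Int.cast_add]
  · intro c f hf
    rw [map_smul, map_smul, map_smul, map_zsmul, zsmul_eq_mul, zsmul_eq_mul]
    have e1 : ((c : ℤ) : Z p) = MvPolynomial.C ((c : ℤ) : ZMod p) := by simp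
    have e2 : ((c : ℤ) : MvPolynomial ℕ ℤ) = MvPolynomial.C c := by simp
    rw [e1, e2, MvPolynomial.coeff_C_mul, MvPolynomial.coeff_C_mul, hf, Int.cast_mul]
  · intro w
    rw [nco_com, MvPolynomial.coeff_monomial]
    by_cases h1 : ncoN w = ∑ j ∈ Finset.range n, Finsupp.single j (1 + (p - 1) * m j)
    · have hw := nco_zw h1
      have hx := (nco_iff hp hm hw).2 h1
      have hl : w.length = n + (p - 1) * k := by
        rw [zw_length hp hw, hx, hd]
      unfold pt
      rw [wp_pos hw, wp_pos (φ := fun w : List ℕ => w.length = n + (p - 1) * k) hl, zi_mon hw, nco_mo,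
        if_pos hx, if_pos h1, Int.cast_one]
    · rw [if_neg h1, Int.cast_zero]
      by_cases hw : zw p n w
      · have hx : ¬ zx p n w = m := fun hx => h1 ((nco_iff hp hm hw).1 hx)
        rw [wp_pos hw]
        unfold pt
        by_cases hl : w.length = n + (p - 1) * k
        · rw [wp_pos (φ := fun w : List ℕ => w.length = n + (p - 1) * k) hl, zi_mon hw, nco_mo,
            if_neg hx]
        · rw [wp_neg (φ := fun w : List ℕ => w.length = n + (p - 1) * k) hl, map_zero,
            MvPolynomial.coeff_zero]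
      · rw [wp_neg hw, map_zero, map_zero, MvPolynomial.coeff_zero]

end ADQ
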