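import Pool.Agent.ADQ.NCo
import Pool.Agent.ADQ.ExpD

/-!
# ADQ-NCo2: `p = 2`, the coefficients needed for the functionals of `C2` and `T4`
-/

namespace ADQ

open AD ADN ADC

private theorem c2_zw {w : List ℕ} (h : zw 2 2 w) (hl : w.length = 2 + (2 - 1) * 0) : w = [0, 1] ∨ w = [1, 0] := by
  obtain ⟨h1, h2⟩ := h
  rcases w with _ | ⟨a, w⟩
  · simp at hl
  · rcases w with _ | ⟨b, w⟩
    · simp at hl
    · rcases w with _ | ⟨c, w⟩
      · have ha := h1 a (by simp)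
        have hb := h1 b (by simp)
        have c0 := (h2 0 (by omega)).1
        have c1 := (h2 1 (by omega)).1
        interval_cases a <;> interval_cases b <;> simp at c0 c1 ⊢
      · simp at hl

private theorem c2_z01 : zw 2 2 [0, 1] := by
  refine ⟨?_, ?_⟩
  · intro i hi
    simp at hi
    omega
  · intro i hi
    interval_cases i <;> simp

private theorem c2_z10 : zw 2 2 [1, 0] := by
  refine ⟨?_, ?_⟩
  · intro i hi
    simp at hi
    omega
  · intro i hi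
    interval_cases i <;> simp

private theorem c2_cf0 (w : List ℕ) : cf w (0 : P) = 0 := by
  have h := cf_smul w 0 0
  rwa [zero_smul, zero_mul] at h

theorem co2_0 (g : P) : pt 2 2 0 (wp (zw 2 2) g) = cf [0, 1] g • mon [0, 1] + cf [1, 0] g • mon [1, 0] := by
  classical
  refine ind_mon (C := fun g => pt 2 2 0 (wp (zw 2 2) g) = cf [0, 1] g • mon [0, 1] + cf [1, 0] g • mon [1, 0])
    ?_ ?_ ?_ ?_ g
  · rw [map_zero, map_zero, c2_cf0, c2_cf0, zero_smul, zero_smul, add_zero]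
  · intro f g hf hg
    rw [map_add, map_add, hf, hg, cf_add, cf_add, add_smul, add_smul]
    abel
  · intro c f hf
    rw [map_smul, map_smul, hf, cf_smul, cf_smul, mul_smul, mul_smul, smul_add]
  · intro w
    rw [cf_mon, cf_mon]
    by_cases hw : zw 2 2 w
    · rw [wp_pos hw]
      unfold pt
      by_cases hl : w.length = 2 + (2 - 1) * 0
      · rw [wp_pos (φ := fun w : List ℕ => w.length = 2 + (2 - 1) * 0) hl]
        rcases c2_zw hw hl with rfl | rfl
        · rw [if_pos rfl, if_neg (by decide), one_smul, zero_smul, add_zero]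
        · rw [if_neg (by decide), if_pos rfl, one_smul, zero_smul, zero_add]
      · rw [wp_neg (φ := fun w : List ℕ => w.length = 2 + (2 - 1) * 0) hl, if_neg, if_neg, zero_smul, zero_smul,
          add_zero]
        · rintro rfl
          exact hl rfl
        · rintro rfl
          exact hl rfl
    · rw [wp_neg hw, map_zero, if_neg, if_neg, zero_smul, zero_smul, add_zero]
      · rintro rfl
        exact hw c2_z10
      · rintro rfl
        exact hw c2_z01

private theorem c2_inj {i j i' j' : ℕ} : (Finsupp.single 0 i + Finsupp.single 1 j : ℕ →₀ ℕ) =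
    Finsupp.single 0 i' + Finsupp.single 1 j' ↔ (i = i' ∧ j = j') := by
  constructor
  · intro h
    have h0 := DFunLike.congr_fun h 0
    have h1 := DFunLike.congr_fun h 1
    simp at h0 h1
    exact ⟨h0, h1⟩
  · rintro ⟨rfl, rfl⟩
    rfl

private theorem c2_mo (i j : ℕ) : (z 0 ^ i * z 1 ^ j : Z 2) = mo (Finsupp.single 0 i + Finsupp.single 1 j) := by
  rw [mo_add, mo_single, mo_single]

private theorem c2_co (i j i' j' : ℕ) :
    MvPolynomial.coeff (Finsupp.single 0 i' + Finsupp.single 1 j') (z 0 ^ i * z 1 ^ j : Z 2) =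
      if (i = i' ∧ j = j') then 1 else 0 := by
  classical
  rw [c2_mo]
  unfold mo
  rw [MvPolynomial.coeff_monomial]
  exact if_congr c2_inj rfl rfl

private theorem c2_E (a : ℕ → ZMod 2) (i j : ℕ) :
    MvPolynomial.coeff (Finsupp.single 0 i + Finsupp.single 1 j) (E23 a) =
      a 0 * (if (0 = i ∧ 3 = j) then 1 else 0) + a 1 * (if (1 = i ∧ 2 = j) then 1 else 0) +
      a 2 * (if (2 = i ∧ 1 = j) then 1 else 0) + a 3 * (if (3 = i ∧ 0 = j) then 1 else 0) := by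
  have e : (E23 a : Z 2) = a 0 • (z 0 ^ 0 * z 1 ^ 3) + a 1 • (z 0 ^ 1 * z 1 ^ 2) + a 2 • (z 0 ^ 2 * z 1 ^ 1) +
      a 3 • (z 0 ^ 3 * z 1 ^ 0) := by
    unfold E23
    rw [pow_zero, pow_zero, pow_one, pow_one, one_mul, mul_one]
  rw [e, MvPolynomial.coeff_add, MvPolynomial.coeff_add, MvPolynomial.coeff_add, MvPolynomial.coeff_smul,
    MvPolynomial.coeff_smul, MvPolynomial.coeff_smul, MvPolynomial.coeff_smul, c2_co, c2_co, c2_co, c2_co]
  rfl

private theorem c2_zc (g : P) (i j : ℕ) :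
    MvPolynomial.coeff (Finsupp.single 0 i + Finsupp.single 1 j) (zi 2 2 (pt 2 2 (i + j) (wp (zw 2 2) g))) =
      ((ADP.ct (i + 1) (j + 1) g : ℤ) : ZMod 2) := by
  rw [zcoef le_rfl g (m := Finsupp.single 0 i + Finsupp.single 1 j)]
  · unfold ADP.ct
    congr 3
    rw [Finset.sum_range_succ, Finset.sum_range_succ, Finset.sum_range_zero, zero_add]
    have h0 : (Finsupp.single 0 i + Finsupp.single 1 j : ℕ →₀ ℕ) 0 = i := by simp
    have h1 : (Finsupp.single 0 i + Finsupp.single 1 j : ℕ →₀ ℕ) 1 = j := by simp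
    rw [h0, h1]
    congr 2
    · omega
    · omega
  · intro t ht
    rw [Finsupp.add_apply, Finsupp.single_eq_of_ne (by omega), Finsupp.single_eq_of_ne (by omega), add_zero]
  · rw [map_add, Finsupp.degree_single, Finsupp.degree_single]

theorem co2_3 (g : P) : zi 2 2 (pt 2 2 3 (wp (zw 2 2) g)) =
    E23 (fun i => ((ADP.ct (i + 1) (4 - i) g : ℤ) : ZMod 2)) := by
  obtain ⟨a, ha⟩ := exp23 (zi_mem le_rfl (pt_mem (k := 3) (wp_mem (zw 2 2) g)))
  have h : ∀ i j : ℕ, i + j = 3 → MvPolynomial.coeff (Finsupp.single 0 i + Finsupp.single 1 j) (E23 a : Z 2) =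
      ((ADP.ct (i + 1) (j + 1) g : ℤ) : ZMod 2) := by
    intro i j hij
    rw [← ha, ← hij]
    exact c2_zc g i j
  have h0 := h 0 3 rfl
  have h1 := h 1 2 rfl
  have h2 := h 2 1 rfl
  have h3 := h 3 0 rfl
  rw [c2_E] at h0 h1 h2 h3
  simp at h0 h1 h2 h3
  rw [ha]
  unfold E23
  rw [h0, h1, h2, h3]

theorem co2_4 (g : P) : c22 (zi 2 2 (pt 2 2 4 (wp (zw 2 2) g))) = ((ADP.ct 3 3 g : ℤ) : ZMod 2) := by
  have h := c2_zc g 2 2
  unfold c22
  rw [MvPolynomial.lcoeff_apply]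
  exact h

private noncomputable def c4m (i j k l : ℕ) : ℕ →₀ ℕ :=
  Finsupp.single 0 i + Finsupp.single 1 j + Finsupp.single 2 k + Finsupp.single 3 l

private theorem c4_0 (i j k l : ℕ) : c4m i j k l 0 = i := by
  simp [c4m]

private theorem c4_1 (i j k l : ℕ) : c4m i j k l 1 = j := by
  simp [c4m]

private theorem c4_2 (i j k l : ℕ) : c4m i j k l 2 = k := by
  simp [c4m]

private theorem c4_3 (i j k l : ℕ) : c4m i j k l 3 = l := by
  simp [c4m]

private theorem c4_inj {i j k l i' j' k' l' : ℕ} :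
    c4m i j k l = c4m i' j' k' l' ↔ (i = i' ∧ j = j' ∧ k = k' ∧ l = l') := by
  constructor
  · intro h
    have h0 := DFunLike.congr_fun h 0
    have h1 := DFunLike.congr_fun h 1
    have h2 := DFunLike.congr_fun h 2
    have h3 := DFunLike.congr_fun h 3
    rw [c4_0, c4_0] at h0
    rw [c4_1, c4_1] at h1
    rw [c4_2, c4_2] at h2
    rw [c4_3, c4_3] at h3
    exact ⟨h0, h1, h2, h3⟩
  · rintro ⟨rfl, rfl, rfl, rfl⟩
    rfl

private theorem c4_zc (g : P) {i j k l : ℕ} (h : i + j + k + l = 2) :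
    MvPolynomial.coeff (c4m i j k l) (zi 2 4 (pt 2 4 2 (wp (zw 2 4) g))) =
      ((ADP.cq (i + 1) (j + 1) (k + 1) (l + 1) g : ℤ) : ZMod 2) := by
  rw [zcoef le_rfl g (m := c4m i j k l)]
  · unfold ADP.cq
    congr 3
    rw [Finset.sum_range_succ, Finset.sum_range_succ, Finset.sum_range_succ, Finset.sum_range_succ,
      Finset.sum_range_zero, zero_add, c4_0, c4_1, c4_2, c4_3]
    have e : ∀ t : ℕ, 1 + (2 - 1) * t = t + 1 := fun t => by omega
    rw [e, e, e, e]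
  · intro t ht
    unfold c4m
    rw [Finsupp.add_apply, Finsupp.add_apply, Finsupp.add_apply, Finsupp.single_eq_of_ne (by omega),
      Finsupp.single_eq_of_ne (by omega), Finsupp.single_eq_of_ne (by omega), Finsupp.single_eq_of_ne (by omega),
      add_zero, add_zero, add_zero]
  · unfold c4m
    rw [map_add, map_add, map_add, Finsupp.degree_single, Finsupp.degree_single, Finsupp.degree_single,
      Finsupp.degree_single, h]

private theorem c4_mo (i j k l i' j' k' l' : ℕ) :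
    MvPolynomial.coeff (c4m i' j' k' l') (z 0 ^ i * z 1 ^ j * z 2 ^ k * z 3 ^ l : Z 2) =
      if (i = i' ∧ j = j' ∧ k = k' ∧ l = l') then 1 else 0 := by
  classical
  have e : (z 0 ^ i * z 1 ^ j * z 2 ^ k * z 3 ^ l : Z 2) = mo (c4m i j k l) := by
    unfold c4m
    rw [mo_add, mo_add, mo_add, mo_single, mo_single, mo_single, mo_single]
  rw [e]
  unfold mo
  rw [MvPolynomial.coeff_monomial]
  exact if_congr c4_inj rfl rfl

theorem co4 {g : P} (h : zi 2 4 (pt 2 4 2 (wp (zw 2 4) g)) ∈ Y4) : g ∈ ADP.KT4 := by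
  unfold Y4 at h
  obtain ⟨a, b, hab⟩ := Submodule.mem_span_pair.1 h
  have e : (a • ((z 0 + z 1) * (z 2 + z 3)) + b • ((z 0 + z 2) * (z 1 + z 3)) : Z 2) =
      a • (z 0 ^ 1 * z 1 ^ 0 * z 2 ^ 1 * z 3 ^ 0) + a • (z 0 ^ 1 * z 1 ^ 0 * z 2 ^ 0 * z 3 ^ 1) +
      a • (z 0 ^ 0 * z 1 ^ 1 * z 2 ^ 1 * z 3 ^ 0) + a • (z 0 ^ 0 * z 1 ^ 1 * z 2 ^ 0 * z 3 ^ 1) +
      b • (z 0 ^ 1 * z 1 ^ 1 * z 2 ^ 0 * z 3 ^ 0) + b • (z 0 ^ 1 * z 1 ^ 0 * z 2 ^ 0 * z 3 ^ 1) +
      b • (z 0 ^ 0 * z 1 ^ 1 * z 2 ^ 1 * z 3 ^ 0) + b • (z 0 ^ 0 * z 1 ^ 0 * z 2 ^ 1 * z 3 ^ 1) := by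
    simp only [MvPolynomial.smul_eq_C_mul]
    ring
  have key : ∀ i j k l : ℕ, i + j + k + l = 2 → ((ADP.cq (i + 1) (j + 1) (k + 1) (l + 1) g : ℤ) : ZMod 2) =
      a * (if (1 = i ∧ 0 = j ∧ 1 = k ∧ 0 = l) then 1 else 0) + a * (if (1 = i ∧ 0 = j ∧ 0 = k ∧ 1 = l) then 1 else 0) +
      a * (if (0 = i ∧ 1 = j ∧ 1 = k ∧ 0 = l) then 1 else 0) + a * (if (0 = i ∧ 1 = j ∧ 0 = k ∧ 1 = l) then 1 else 0) +
      b * (if (1 = i ∧ 1 = j ∧ 0 = k ∧ 0 = l) then 1 else 0) + b * (if (1 = i ∧ 0 = j ∧ 0 = k ∧ 1 = l) then 1 else 0) +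
      b * (if (0 = i ∧ 1 = j ∧ 1 = k ∧ 0 = l) then 1 else 0) + b * (if (0 = i ∧ 0 = j ∧ 1 = k ∧ 1 = l) then 1 else 0) := by
    intro i j k l hs
    rw [← c4_zc g hs, ← hab, e]
    simp only [MvPolynomial.coeff_add, MvPolynomial.coeff_smul, c4_mo, smul_eq_mul]
  have k1 : ((ADP.cq 3 1 1 1 g : ℤ) : ZMod 2) = 0 := by
    have := key 2 0 0 0 rfl
    simpa using this
  have k2 : ((ADP.cq 2 2 1 1 g : ℤ) : ZMod 2) = b := by
    have := key 1 1 0 0 rfl
    simpa using this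
  have k3 : ((ADP.cq 1 1 2 2 g : ℤ) : ZMod 2) = b := by
    have := key 0 0 1 1 rfl
    simpa using this
  have k4 : ((ADP.cq 2 1 2 1 g : ℤ) : ZMod 2) = a := by
    have := key 1 0 1 0 rfl
    simpa using this
  have k5 : ((ADP.cq 2 1 1 2 g : ℤ) : ZMod 2) = a + b := by
    have := key 1 0 0 1 rfl
    simpa using this
  refine ⟨?_, ?_, ?_⟩
  · exact (ZMod.intCast_zmod_eq_zero_iff_dvd _ 2).1 k1
  · refine (ZMod.intCast_zmod_eq_zero_iff_dvd _ 2).1 ?_
    rw [Int.cast_sub, k2, k3, sub_self]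
  · refine (ZMod.intCast_zmod_eq_zero_iff_dvd _ 2).1 ?_
    rw [Int.cast_add, Int.cast_add, k2, k4, k5]
    have e2 : b + a + (a + b) = (a + a) + (b + b) := by ring
    rw [e2, CharTwo.add_self_eq_zero, CharTwo.add_self_eq_zero, add_zero]

end ADQ
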