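import Pool.Agent.ADQ.B4n
import Pool.Agent.ADQ.B5n
import Pool.Agent.ADQ.B23n

/-!
# ADQ-ThB

`n = 1`: `noLP_n1` (`LP.mono`); `n = 2`: `bTwo`; `n = 3`: `noB3`; `n = 4`: `noB4`; `n ≥ 5`: `b51`, `noB5`.
-/

namespace ADQ

open AD ADN ADC

variable {R : ℕ → ℕ → Submodule (ZMod 2) (Z 2)}

theorem ThB (h : MS2 R) {F : Z 2} (hF : F ∈ R 4 2) (hY : F ∉ Y4) {n k l : ℕ} {u w : Z 2}
    (hl : LP 2 R (Soc2 R) n k l u w) : n = 2 ∧ PB R k l u w := by
  have : Fact (Nat.Prime 2) := ⟨Nat.prime_two⟩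
  have h1 := hl.n1
  rcases Nat.lt_or_ge n 2 with h2 | h2
  · have e : n = 1 := by omega
    subst e
    exact (noLP_n1 h.toMS (hl.mono fun _ _ _ hy => hy.toSocB)).elim
  rcases Nat.lt_or_ge n 3 with h3 | h3
  · have e : n = 2 := by omega
    subst e
    exact ⟨rfl, bTwo h hF hY hl⟩
  rcases Nat.lt_or_ge n 4 with h4 | h4
  · have e : n = 3 := by omega
    subst e
    exact (noB3 h hF hY hl).elim
  rcases Nat.lt_or_ge n 5 with h5 | h5
  · have e : n = 4 := by omega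
    subst e
    exact (noB4 h hF hY hl).elim
  exact (noB5 h (b51 h hF hY) h5 hl).elim

end ADQ
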