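import Pool.Agent.ADQ.NBa
import Pool.Agent.ADQ.NBb
import Pool.Agent.ADQ.NBe
import Pool.Agent.ADQ.NBf
import Pool.Agent.ADQ.NBg
import Pool.Agent.ADQ.NCo2
import Pool.Agent.ADQ.TPx
import Pool.Agent.ADQ.SocA
import Pool.Agent.ADQ.LPx
import Pool.Agent.ADQ.MSR
import Pool.Agent.ADQ.ThB

/-!
# ADQ-Near2: the near-commutative T-ideals for `p = 2`
-/

namespace ADQ

open AD ADN ADC

private theorem n2_step {I : Submodule ℤ P} (h : NC 2 I) (h3 : ∀ k ≤ 2, RR 2 I 3 k ≤ ⊥) {m : ℕ} (h1 : 1 ≤ m)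
    (hm : m ≤ 2) (hc : cm 0 1 ∈ I ⊔ Fge (2 + (2 - 1) * m)) : cm 0 1 ∈ I ⊔ Fge (2 + (2 - 1) * m + 1) := by
  have : Fact (Nat.Prime 2) := ⟨Nat.prime_two⟩
  obtain ⟨H, hH, ⟨f, hf, hfH, hfc⟩, hx0, hx1, hq⟩ := comForm2 h h1 hc
  have hH0 := hk2 h3 h1 hm hH hx0 hx1 hq
  have hz : zi 2 2 f = 0 := hfH.trans hH0
  have hm' : Mul ((2 : ℕ) : ℤ) I := h.mul
  have hf' := zi_ker (p := 2) (c := 1) h.isT hm' h.com (n := 2) (k := m) (by norm_num) hf hz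
  have e : cm 0 1 = (cm 0 1 - f) + f := by abel
  rw [e]
  exact Submodule.add_mem _ hfc hf'

private theorem n2_high {I : Submodule ℤ P} (h : NC 2 I) (h3 : ∀ k ≤ 2, RR 2 I 3 k ≤ ⊥) :
    cm 0 1 ∈ I ⊔ Fge 5 := by
  have h1 : cm 0 1 ∈ I ⊔ Fge (2 + (2 - 1) * 1) := h.com
  have h2 : cm 0 1 ∈ I ⊔ Fge (2 + (2 - 1) * 1 + 1) := n2_step (m := 1) h h3 (by norm_num) (by norm_num) h1
  have h2' : cm 0 1 ∈ I ⊔ Fge (2 + (2 - 1) * 2) := h2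
  exact n2_step (m := 2) h h3 (by norm_num) (by norm_num) h2'

private theorem n2_56 {I : Submodule ℤ P} (h : NC 2 I) (h3 : ∀ k ≤ 2, RR 2 I 3 k ≤ ⊥) :
    ∃ f5 ∈ HQ 2 2 3, ∃ f6 ∈ HQ 2 2 4, (∃ s t : ZMod 2, zi 2 2 f5 = s • z 1 ^ 3 + t • z 0 ^ 3) ∧
      cm 0 1 - f5 - f6 ∈ I ⊔ Fge 7 := by
  have : Fact (Nat.Prime 2) := ⟨Nat.prime_two⟩
  obtain ⟨H, hH, ⟨f, hf, hfH, hfc⟩, hx0, hx1, hq⟩ := comForm2 (m := 3) h (by norm_num) (n2_high h h3)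
  obtain ⟨s, t, hst⟩ := hk3' h3 hH hx0 hx1
  have hcz : (cm 0 1 : P) ∈ ZQ 2 2 := by
    have e : (cm 0 1 : P) = mon [0, 1] - mon [1, 0] := by
      unfold cm
      rw [mon_cons, mon_single, mon_cons, mon_single]
    have h1 : zw 2 2 [0, 1] := by
      refine ⟨by decide, fun i hi => ?_⟩
      interval_cases i
      · exact ⟨le_rfl, dvd_zero _⟩
      · exact ⟨le_rfl, dvd_zero _⟩
    have h2 : zw 2 2 [1, 0] := by
      refine ⟨by decide, fun i hi => ?_⟩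
      interval_cases i
      · exact ⟨le_rfl, dvd_zero _⟩
      · exact ⟨le_rfl, dvd_zero _⟩
    rw [e]
    exact Submodule.sub_mem _ (Submodule.subset_span ⟨_, h1, rfl⟩) (Submodule.subset_span ⟨_, h2, rfl⟩)
  have hm' : Mul ((2 : ℕ) : ℤ) I := h.mul
  obtain ⟨f6, hf6, h6⟩ := zsplit (k := 4) Nat.prime_two h.isT hm' (Submodule.sub_mem _ hcz (HQ_ZQ hf)) hfc
  exact ⟨f, hf, f6, hf6, ⟨s, t, hfH.trans hst⟩, h6⟩

private theorem n2_lift (x : ZMod 2) : ∃ l : ℤ, (l = 0 ∨ l = 1) ∧ (l : ZMod 2) = x := by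
  revert x
  have h0 : ∃ l : ℤ, (l = 0 ∨ l = 1) ∧ (l : ZMod 2) = (0 : ZMod 2) := ⟨0, Or.inl rfl, by simp⟩
  have h1 : ∃ l : ℤ, (l = 0 ∨ l = 1) ∧ (l : ZMod 2) = (1 : ZMod 2) := ⟨1, Or.inr rfl, by simp⟩
  intro x
  fin_cases x
  · exact h0
  · exact h1

theorem near2 {I : Submodule ℤ P} (hI : AlmDist I) (hm : Mul 2 I) (hc : cm 0 1 ∈ I ⊔ Fge 3) :
    I ≤ ADP.T4 ∨ ∃ l m : ℤ, (l = 0 ∨ l = 1) ∧ (m = 0 ∨ m = 1) ∧ I ≤ ADP.C2 l m := by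
  haveI : Fact (Nat.Prime 2) := ⟨Nat.prime_two⟩
  have hm' : Mul ((2 : ℕ) : ℤ) I := hm
  have hN : NC 2 I := { pp := Nat.prime_two, isT := hI.1, mul := hm', nil := nil_of_alm hI, com := hc }
  have hR := RR_MS2 hN
  by_cases hY : RR 2 I 4 2 ≤ Y4
  · left
    obtain ⟨l4, l3, l2⟩ := low2a hR hY
    have h5 := n2_high hN l3
    refine ADP.le_LT hN.isT fun g hg => co4 (hY ?_)
    refine zleadn (n := 4) (q := 2) (by norm_num) hN (fun k hk => l4 k (by omega)) h5 ?_ (wp_mem (zw 2 4) g)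
    exact TO_zw Nat.prime_two 4 I hN.isT hN.mul g hg
  · right
    obtain ⟨F, hF, hFY⟩ := SetLike.not_le_iff_exists.1 hY
    obtain ⟨A, B, C, n, k, l, a, b, f, g, hT⟩ := exists_TP hN hI
    have hmA : Mul 2 A := fun f hf => hT.lk.IA (hm f hf)
    have hmB : Mul 2 B := fun f hf => hT.lk.IB (hm f hf)
    have sa := soc2 hN hT.lk.hA hmA hT.n1 hT.oA hT.ln.1 hT.aZ hT.aA hT.hf hT.af
    have sb := soc2 hN hT.lk.hB hmB hT.n1 hT.oB hT.ln.2.1 hT.bZ hT.bA hT.hg hT.bg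
    have hLP := TP.LP hT (S := Soc2 (RR 2 I)) sa sb
    obtain ⟨hn, hP⟩ := ThB hR hF hFY hLP
    subst hn
    obtain ⟨l3, l2⟩ := low2b hR hP.b2
    obtain ⟨f5, h5, f6, h6, ⟨s, t, hst⟩, h56⟩ := n2_56 hN l3
    obtain ⟨x, hx, hx'⟩ := n2_lift (s + t)
    obtain ⟨y, hy, hy'⟩ := n2_lift (c22 (zi 2 2 f6))
    refine ⟨x, y, hx, hy, ADP.le_LT hN.isT fun g' hg' =>
      kc2 hN hP.b1 hP.b2 l2 (n2_high hN l3) h5 h6 hst h56 (fun hz => ?_) hx' hy' hg'⟩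
    obtain ⟨e3, -, hu, -⟩ := hP.b3 hz
    subst e3
    exact nbf hT hu hP.b2 hz

end ADQ
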