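import Pool.Agent.ADQ.Tool2b
import Pool.Agent.ADQ.Tool2c

/-!
# ADQ-NtF

`nt4`: `p ≥ 5`, `z_0^4 ∈ R m 4`: all `z_i^4` (`ren`), then `z_i z_j^3`, `z_i z_j z_k^2`, `z_i z_j z_k z_l` by the operators `dd`.
`qvR`: `ev 0 (fv α μ)`, renamed.  `nt5`: `α ≠ 0`: `ev 1 (qv α μ) = 2 α z_0^4`; `α = 0`: a combination of `qv α μ` and its image under
the exchange of `z_0`, `z_1`, then `dd 0 1`.
-/

namespace ADQ

open AD ADN ADC

variable {p : ℕ} [Fact p.Prime] {R : ℕ → ℕ → Submodule (ZMod p) (Z p)}

private theorem ntf_rnm {n n' k : ℕ} (h : MS p R) (hn : 1 ≤ n) (σ : Equiv.Perm ℕ) (hσ : ∀ t < n, σ t < n') {F : Z p}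
    (hF : F ∈ R n k) : rn σ F ∈ R n' k :=
  h.ren n n' k σ hn hσ (fun _ _ _ _ e => σ.injective e) F hF

private theorem ntf_swap {M a b : ℕ} (ha : a < M) (hb : b < M) {t : ℕ} (ht : t < M) : Equiv.swap a b t < M := by
  rw [Equiv.swap_apply_def]
  split_ifs
  · exact hb
  · exact ha
  · exact ht

private theorem ntf_smul {N : Submodule (ZMod p) (Z p)} {c : ZMod p} (hc : c ≠ 0) {F : Z p} (h : c • F ∈ N) : F ∈ N := by
  have h1 := N.smul_mem c⁻¹ h
  rwa [smul_smul, inv_mul_cancel₀ hc, one_smul] at h1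

private theorem ntf_2 (h5 : 5 ≤ p) : (2 : ZMod p) ≠ 0 := by
  intro h
  have h1 : ((2 : ℕ) : ZMod p) = 0 := by exact_mod_cast h
  rw [ZMod.natCast_eq_zero_iff] at h1
  have := Nat.le_of_dvd (by norm_num) h1
  omega

private theorem ntf_3 (h5 : 5 ≤ p) : (3 : ZMod p) ≠ 0 := by
  intro h
  have h1 : ((3 : ℕ) : ZMod p) = 0 := by exact_mod_cast h
  rw [ZMod.natCast_eq_zero_iff] at h1
  have := Nat.le_of_dvd (by norm_num) h1
  omega

private theorem ntf_dec {m : ℕ →₀ ℕ} {k : ℕ} (h : m.degree = k + 1) :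
    ∃ (i : ℕ) (m' : ℕ →₀ ℕ), m = Finsupp.single i 1 + m' ∧ m'.degree = k := by
  have h0 : m ≠ 0 := by
    rintro rfl
    rw [map_zero] at h
    omega
  obtain ⟨i, hi⟩ := Finsupp.ne_iff.1 h0
  rw [Finsupp.zero_apply] at hi
  have h1 : Finsupp.single i 1 ≤ m := by
    rw [Finsupp.single_le_iff]
    omega
  refine ⟨i, m - Finsupp.single i 1, (add_tsub_cancel_of_le h1).symm, ?_⟩
  have h2 : (Finsupp.single i 1 + (m - Finsupp.single i 1)).degree = k + 1 := by
    rw [add_tsub_cancel_of_le h1]
    exact h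
  rw [map_add, Finsupp.degree_single] at h2
  omega

private theorem ntf_four {m : ℕ →₀ ℕ} (h : m.degree = 4) : ∃ a b c d : ℕ,
    m = Finsupp.single a 1 + (Finsupp.single b 1 + (Finsupp.single c 1 + Finsupp.single d 1)) := by
  obtain ⟨a, m1, rfl, h1⟩ := ntf_dec (k := 3) h
  obtain ⟨b, m2, rfl, h2⟩ := ntf_dec (k := 2) h1
  obtain ⟨c, m3, rfl, h3⟩ := ntf_dec (k := 1) h2
  obtain ⟨d, m4, rfl, h4⟩ := ntf_dec (k := 0) h3
  rw [(Finsupp.degree_eq_zero_iff m4).1 h4]
  exact ⟨a, b, c, d, by rw [add_zero]⟩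

private theorem ntf_mo1 (i : ℕ) : (mo (Finsupp.single i 1) : Z p) = z i := by
  rw [mo_single, pow_one]

private theorem ntf_mo4 (a b c d : ℕ) :
    (mo (Finsupp.single a 1 + (Finsupp.single b 1 + (Finsupp.single c 1 + Finsupp.single d 1))) : Z p) =
      z a * z b * z c * z d := by
  rw [mo_add, mo_add, mo_add, ntf_mo1, ntf_mo1, ntf_mo1, ntf_mo1]
  ring

private theorem ntf_key {n a b c d : ℕ}
    (hm : ∀ i, n ≤ i → (Finsupp.single a 1 + (Finsupp.single b 1 + (Finsupp.single c 1 + Finsupp.single d 1)) : ℕ →₀ ℕ) i = 0) :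
    a < n ∧ b < n ∧ c < n ∧ d < n := by
  have key : ∀ x : ℕ, x = a ∨ x = b ∨ x = c ∨ x = d → x < n := by
    intro x hx
    by_contra hxn
    have h6 := hm x (not_lt.1 hxn)
    rw [Finsupp.add_apply, Finsupp.add_apply, Finsupp.add_apply] at h6
    rcases hx with rfl | rfl | rfl | rfl
    · rw [Finsupp.single_eq_same] at h6; omega
    · rw [Finsupp.single_eq_same] at h6; omega
    · rw [Finsupp.single_eq_same] at h6; omega
    · rw [Finsupp.single_eq_same] at h6; omega
  exact ⟨key a (by tauto), key b (by tauto), key c (by tauto), key d (by tauto)⟩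

private theorem ntf_22 {a b : ℕ} (hab : a ≠ b) :
    (Finsupp.single a 1 + (Finsupp.single a 1 + (Finsupp.single b 1 + Finsupp.single b 1)) : ℕ →₀ ℕ) a = 2 ∧
    (Finsupp.single a 1 + (Finsupp.single a 1 + (Finsupp.single b 1 + Finsupp.single b 1)) : ℕ →₀ ℕ) b = 2 := by
  simp only [Finsupp.add_apply, Finsupp.single_eq_same, Finsupp.single_eq_of_ne hab,
    Finsupp.single_eq_of_ne (Ne.symm hab)]
  exact ⟨rfl, rfl⟩

theorem nt4 (h5 : 5 ≤ p) (h : MS3 p R) {m : ℕ} (hm : 1 ≤ m) (h0 : z 0 ^ 4 ∈ R m 4) : Nt p m ≤ R m 4 := by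
  have two := ntf_2 (p := p) h5
  have three := ntf_3 (p := p) h5
  have a4 : ∀ i, i < m → (z i ^ 4 : Z p) ∈ R m 4 := by
    intro i hi
    have h1 := ntf_rnm h.toMS hm (Equiv.swap 0 i) (fun t ht => ntf_swap (by omega) hi ht) h0
    rwa [map_pow, rn_z, Equiv.swap_apply_left] at h1
  have a31 : ∀ i j, i < m → j < m → i ≠ j → (z i * z j ^ 3 : Z p) ∈ R m 4 := by
    intro i j hi hj hij
    have h1 := h.dd m 4 i j le_rfl hi hj hij _ (a4 i hi)
    have h2 := dd_four (p := p) (i := i) (j := j) (G := 1) (Subalgebra.one_mem _)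
    rw [mul_one] at h2
    rw [h2] at h1
    have h3 := ntf_smul three h1
    have e : (z i * z j ^ 3 : Z p) = (z i - z j) * z j ^ 3 * 1 + z j ^ 4 := by ring
    rw [e]
    exact Submodule.add_mem _ h3 (a4 j hj)
  have a211 : ∀ i j k, i < m → j < m → k < m → i ≠ j → i ≠ k → j ≠ k → (z i * z j * z k ^ 2 : Z p) ∈ R m 4 := by
    intro i j k hi hj hk hij hik hjk
    have h0' : (z i ^ 3 * z j : Z p) ∈ R m 4 := by
      rw [mul_comm]
      exact a31 j i hj hi (Ne.symm hij)
    have h1 := h.dd m 4 i k le_rfl hi hk hik _ h0'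
    rw [dd_three (z_NV (Ne.symm hij))] at h1
    have h3 := ntf_smul two h1
    have e : (z i * z j * z k ^ 2 : Z p) = (z i - z k) * z k ^ 2 * z j + z j * z k ^ 3 := by ring
    rw [e]
    exact Submodule.add_mem _ h3 (a31 j k hj hk hjk)
  have a1111 : ∀ i j k l, i < m → j < m → k < m → l < m → i ≠ j → i ≠ k → i ≠ l → j ≠ k → j ≠ l → k ≠ l →
      (z i * z j * z k * z l : Z p) ∈ R m 4 := by
    intro i j k l hi hj hk hl hij hik hil hjk hjl hkl
    have h0' : (z i ^ 2 * (z j * z k) : Z p) ∈ R m 4 := by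
      rw [mul_comm]
      exact a211 j k i hj hk hi hjk (Ne.symm hij) (Ne.symm hik)
    have h1 := h.dd m 4 i l le_rfl hi hl hil _ h0'
    rw [dd_two (Subalgebra.mul_mem _ (z_NV (Ne.symm hij)) (z_NV (Ne.symm hik)))] at h1
    have e : (z i * z j * z k * z l : Z p) = (z i - z l) * z l * (z j * z k) + z j * z k * z l ^ 2 := by ring
    rw [e]
    exact Submodule.add_mem _ h1 (a211 j k l hj hk hl hjk hjl hkl)
  have q4 : ∀ i, i < m → (z i * (z i * z i * z i) : Z p) ∈ R m 4 := by
    intro i hi
    have e : (z i * (z i * z i * z i) : Z p) = z i ^ 4 := by ring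
    rw [e]
    exact a4 i hi
  have q31 : ∀ i j, i < m → j < m → i ≠ j → (z i * (z i * z i * z j) : Z p) ∈ R m 4 := by
    intro i j hi hj hij
    have e : (z i * (z i * z i * z j) : Z p) = z j * z i ^ 3 := by ring
    rw [e]
    exact a31 j i hj hi (Ne.symm hij)
  have q21 : ∀ i j k l, i < m → j < m → k < m → l < m → j ≠ k → j ≠ l → k ≠ l →
      (z i * (z j * z k * z l) : Z p) ∈ R m 4 := by
    intro i j k l hi hj hk hl hjk hjl hkl
    by_cases ij : i = j
    · subst ij
      have e : (z i * (z i * z k * z l) : Z p) = z k * z l * z i ^ 2 := by ring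
      rw [e]
      exact a211 k l i hk hl hi hkl (Ne.symm hjk) (Ne.symm hjl)
    · by_cases ik : i = k
      · subst ik
        have e : (z i * (z j * z i * z l) : Z p) = z j * z l * z i ^ 2 := by ring
        rw [e]
        exact a211 j l i hj hl hi hjl hjk (Ne.symm hkl)
      · by_cases il : i = l
        · subst il
          have e : (z i * (z j * z k * z i) : Z p) = z j * z k * z i ^ 2 := by ring
          rw [e]
          exact a211 j k i hj hk hi hjk hjl hkl
        · have e : (z i * (z j * z k * z l) : Z p) = z i * z j * z k * z l := by ring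
          rw [e]
          exact a1111 i j k l hi hj hk hl ij ik il hjk hjl hkl
  refine Submodule.span_le.2 ?_
  rintro F ⟨m', hm', hd, h22, rfl⟩
  obtain ⟨a, b, c, d, rfl⟩ := ntf_four hd
  obtain ⟨ha, hb, hc, hd'⟩ := ntf_key hm'
  rw [SetLike.mem_coe, ntf_mo4]
  by_cases ab : a = b
  · subst ab
    by_cases ac : a = c
    · subst ac
      by_cases ad : a = d
      · subst ad
        have e : (z a * z a * z a * z a : Z p) = z a * (z a * z a * z a) := by ring
        rw [e]
        exact q4 a ha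
      · have e : (z a * z a * z a * z d : Z p) = z a * (z a * z a * z d) := by ring
        rw [e]
        exact q31 a d ha hd' ad
    · by_cases ad : a = d
      · subst ad
        have e : (z a * z a * z c * z a : Z p) = z a * (z a * z a * z c) := by ring
        rw [e]
        exact q31 a c ha hc ac
      · by_cases cd : c = d
        · subst cd
          exact absurd (ntf_22 ac) (h22 a c ac)
        · have e : (z a * z a * z c * z d : Z p) = z a * (z a * z c * z d) := by ring
          rw [e]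
          exact q21 a a c d ha ha hc hd' ac ad cd
  · by_cases ac : a = c
    · subst ac
      by_cases ad : a = d
      · subst ad
        have e : (z a * z b * z a * z a : Z p) = z a * (z a * z a * z b) := by ring
        rw [e]
        exact q31 a b ha hb ab
      · by_cases bd : b = d
        · subst bd
          exfalso
          refine h22 a b ab ?_
          have e : (Finsupp.single a 1 + (Finsupp.single b 1 + (Finsupp.single a 1 + Finsupp.single b 1)) : ℕ →₀ ℕ) =
              Finsupp.single a 1 + (Finsupp.single a 1 + (Finsupp.single b 1 + Finsupp.single b 1)) := by abel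
          rw [e]
          exact ntf_22 ab
        · have e : (z a * z b * z a * z d : Z p) = z a * (z a * z b * z d) := by ring
          rw [e]
          exact q21 a a b d ha ha hb hd' ab ad bd
    · by_cases ad : a = d
      · subst ad
        by_cases bc : b = c
        · subst bc
          exfalso
          refine h22 a b ab ?_
          have e : (Finsupp.single a 1 + (Finsupp.single b 1 + (Finsupp.single b 1 + Finsupp.single a 1)) : ℕ →₀ ℕ) =
              Finsupp.single a 1 + (Finsupp.single a 1 + (Finsupp.single b 1 + Finsupp.single b 1)) := by abel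
          rw [e]
          exact ntf_22 ab
        · have e : (z a * z b * z c * z a : Z p) = z a * (z a * z b * z c) := by ring
          rw [e]
          exact q21 a a b c ha ha hb hc ab ac bc
      · by_cases bc : b = c
        · subst bc
          by_cases bd : b = d
          · subst bd
            have e : (z a * z b * z b * z b : Z p) = z b * (z b * z b * z a) := by ring
            rw [e]
            exact q31 b a hb ha (Ne.symm ab)
          · have e : (z a * z b * z b * z d : Z p) = z b * (z b * z a * z d) := by ring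
            rw [e]
            exact q21 b b a d hb hb ha hd' (Ne.symm ab) bd ad
        · by_cases bd : b = d
          · subst bd
            have e : (z a * z b * z c * z b : Z p) = z b * (z b * z a * z c) := by ring
            rw [e]
            exact q21 b b a c hb hb ha hc (Ne.symm ab) bc ac
          · have e : (z a * z b * z c * z d : Z p) = z c * (z a * z b * z d) := by ring
            rw [e]
            exact q21 c a b d hc ha hb hd' ab ad bd

theorem qvR (h : MS3 p R) {α μ : ZMod p} (h0 : fv α μ ∈ R 3 4) : qv α μ ∈ R 4 4 := by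
  have h1 := h.zer 3 4 0 (by norm_num) _ h0
  have e1 : ev 0 (fv α μ : Z p) = -((2 * α) • z 1 ^ 4 + (μ - 3 * α) • (z 1 ^ 3 * z 2) + (2 * μ) • (z 2 ^ 3 * z 1)) := by
    unfold fv
    simp only [map_add, map_sub, map_mul, map_pow, map_smul, ev_z]
    norm_num
    module
  rw [e1] at h1
  have h2 := ntf_rnm h.toMS (by norm_num) (n' := 4) (Equiv.swap 1 2 * Equiv.swap 0 1)
    (fun t ht => by
      rw [Equiv.Perm.mul_apply]
      exact ntf_swap (by norm_num) (by norm_num) (ntf_swap (by norm_num) (by norm_num) ht)) (Submodule.neg_mem _ h1)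
  have s1 : (Equiv.swap 1 2 * Equiv.swap 0 1 : Equiv.Perm ℕ) 1 = 0 := by decide
  have s2 : (Equiv.swap 1 2 * Equiv.swap 0 1 : Equiv.Perm ℕ) 2 = 1 := by decide
  rw [neg_neg] at h2
  simp only [map_add, map_mul, map_pow, map_smul, rn_z, s1, s2] at h2
  exact h2

theorem nt5 (h5 : 5 ≤ p) (h : MS3 p R) {α μ : ZMod p} (hv : ¬ (α = 0 ∧ μ = 0)) (h0 : qv α μ ∈ R 4 4) :
    Nt p 5 ≤ R 5 4 := by
  have two := ntf_2 (p := p) h5
  have three := ntf_3 (p := p) h5
  refine nt4 h5 h (by norm_num) ?_
  by_cases ha : α = 0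
  · subst ha
    have hμ : μ ≠ 0 := fun e => hv ⟨rfl, e⟩
    have h1 := ntf_rnm h.toMS (by norm_num) (n' := 4) (Equiv.swap 0 1)
      (fun t ht => ntf_swap (by norm_num) (by norm_num) ht) h0
    have e1 : rn (Equiv.swap 0 1) (qv 0 μ : Z p) = μ • (z 1 ^ 3 * z 0) + (2 * μ) • (z 0 ^ 3 * z 1) := by
      unfold qv
      simp only [map_add, map_mul, map_pow, map_smul, rn_z, Equiv.swap_apply_left, Equiv.swap_apply_right]
      norm_num
    have h2 : (3 * μ) • (z 0 ^ 3 * z 1 : Z p) ∈ R 4 4 := by
      have e2 : (3 * μ) • (z 0 ^ 3 * z 1 : Z p) = (2 : ZMod p) • rn (Equiv.swap 0 1) (qv 0 μ : Z p) - qv 0 μ := by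
        rw [e1]
        unfold qv
        module
      rw [e2]
      exact Submodule.sub_mem _ (Submodule.smul_mem _ _ h1) h0
    have h3 := ntf_smul (mul_ne_zero three hμ) h2
    have h4 := h.dd 4 4 0 1 le_rfl (by norm_num) (by norm_num) (by norm_num) _ h3
    rw [dd_three (z_NV (by norm_num))] at h4
    have h5' := ntf_smul two h4
    have h6 := ntf_rnm h.toMS (by norm_num) (n' := 4) (Equiv.swap 0 1)
      (fun t ht => ntf_swap (by norm_num) (by norm_num) ht) h3
    simp only [map_mul, map_pow, rn_z, Equiv.swap_apply_left, Equiv.swap_apply_right] at h6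
    have h7 : (z 1 ^ 4 : Z p) ∈ R 4 4 := by
      have e : (z 1 ^ 4 : Z p) = z 1 ^ 3 * z 0 - (z 0 - z 1) * z 1 ^ 2 * z 1 := by ring
      rw [e]
      exact Submodule.sub_mem _ h6 h5'
    have h8 := ntf_rnm h.toMS (by norm_num) (n' := 5) (Equiv.swap 0 1)
      (fun t ht => ntf_swap (by norm_num) (by norm_num) (by omega)) h7
    simp only [map_pow, rn_z, Equiv.swap_apply_right] at h8
    exact h8
  · have h1 := h.zer 4 4 1 (by norm_num) _ h0
    have e1 : ev 1 (qv α μ : Z p) = (2 * α) • z 0 ^ 4 := by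
      unfold qv
      simp only [map_add, map_mul, map_pow, map_smul, ev_z]
      norm_num
    rw [e1] at h1
    exact ntf_smul (mul_ne_zero two ha) h1

end ADQ
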