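import Pool.Agent.ADQ.Lif

/-!
# ADQ-OprR: the spaces `RR p I n k` and the operators

`mem_RR`: let `S` be the set of generators in the definition of `RR`.  If `F = zi f`, `f ∈ HQ`, `f ∈ I ⊔ Fge (d+1)` (`d = n + (p-1) k`) then `F ∈ Hh`
(`zi_mem`) and for every other lift `f'` of `F`: `zi (f' - f) = 0`, so `f' - f ∈ I ⊔ Fge (d + (p-1)) ≤ I ⊔ Fge (d+1)` (`zi_ker` with
`c = p - 1`, `NC.com`, `p ≥ 2`).  The right side of `mem_RR` is closed under sums and scalars (`exists_lift` gives lifts of the summands; a scalar in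
`ZMod p` is an integer `c`, lift `c • f`), so span induction.
`RR_soc`: `Φ a - Φ f = Φ (a - f) ∈ I ⊔ Fge (d'+1)` (`Opr.tO` for `I`, `Opr.up`), so `Φ f ∈ I ⊔ Fge (d'+1)`; by span
induction over `HQ` (`Opr.val`) there is `g ∈ HQ p n' k'` with `Φ f - g ∈ Fge (d'+1)` and `zi p n' g = φ (zi p n f)` (`zi_mon`).  So `g ∈ I ⊔ Fge (d'+1)`.
`RR_op`: `F = zi f`, `a = f`: `f ∈ I ⊔ Fge (d+1)`, so `Φ f ∈ I ⊔ Fge (d'+1)`.
-/

namespace ADQ

open AD ADN ADC

private theorem oprr_key {p : ℕ} [Fact p.Prime] {I : Submodule ℤ P} (h : NC p I) {n k : ℕ} (hn : 1 ≤ n)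
    {f f' : P} (hf : f ∈ HQ p n k) (hf' : f' ∈ HQ p n k) (he : zi p n f = zi p n f')
    (h1 : f' ∈ I ⊔ Fge (n + (p - 1) * k + 1)) : f ∈ I ⊔ Fge (n + (p - 1) * k + 1) := by
  have hp : 2 ≤ p := (Fact.out : p.Prime).two_le
  have hc : cm 0 1 ∈ I ⊔ Fge (p - 1 + 2) := by
    have h2 := h.com
    rwa [show p + 1 = p - 1 + 2 by omega] at h2
  have h3 : f - f' ∈ I ⊔ Fge (n + (p - 1) * k + (p - 1)) := by
    refine zi_ker h.isT h.mul hc hn (Submodule.sub_mem _ hf hf') ?_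
    rw [map_sub, he, sub_self]
  have h4 : f - f' ∈ I ⊔ Fge (n + (p - 1) * k + 1) :=
    sup_le_sup_left (Fge_anti (by omega)) I h3
  have h5 : f = (f - f') + f' := by abel
  rw [h5]
  exact Submodule.add_mem _ h4 h1

theorem mem_RR {p : ℕ} [Fact p.Prime] {I : Submodule ℤ P} (h : NC p I) {n k : ℕ} (hn : 1 ≤ n) {F : Z p} :
    F ∈ RR p I n k ↔ F ∈ Hh p n k ∧
      ∀ f ∈ HQ p n k, zi p n f = F → f ∈ I ⊔ Fge (n + (p - 1) * k + 1) := by
  have hp : 2 ≤ p := (Fact.out : p.Prime).two_le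
  constructor
  · intro hF
    unfold RR at hF
    induction hF using Submodule.span_induction with
    | mem x hx =>
      obtain ⟨f, hf, hf', rfl⟩ := hx
      exact ⟨zi_mem hp hf, fun g hg he => oprr_key h hn hg hf he hf'⟩
    | zero =>
      refine ⟨Submodule.zero_mem _, fun g hg he => oprr_key h hn hg (Submodule.zero_mem _) ?_ (Submodule.zero_mem _)⟩
      rw [he, map_zero]
    | add x y _ _ hx hy =>
      obtain ⟨hx1, hx2⟩ := hx
      obtain ⟨hy1, hy2⟩ := hy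
      obtain ⟨a, ha, ha'⟩ := exists_lift hx1
      obtain ⟨b, hb, hb'⟩ := exists_lift hy1
      refine ⟨Submodule.add_mem _ hx1 hy1, fun g hg he => oprr_key h hn hg (Submodule.add_mem _ ha hb) ?_
        (Submodule.add_mem _ (hx2 a ha ha') (hy2 b hb hb'))⟩
      rw [he, map_add, ha', hb']
    | smul c x _ hx =>
      obtain ⟨hx1, hx2⟩ := hx
      obtain ⟨a, ha, ha'⟩ := exists_lift hx1
      refine ⟨Submodule.smul_mem _ _ hx1, fun g hg he => oprr_key h hn hg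
        (f' := (c.val : ℤ) • a) (Submodule.smul_mem _ _ ha) ?_ (Submodule.smul_mem _ _ (hx2 a ha ha'))⟩
      rw [he, map_smul, ha', ← Int.cast_smul_eq_zsmul (ZMod p), Int.cast_natCast, ZMod.natCast_zmod_val]
  · rintro ⟨h1, h2⟩
    obtain ⟨f, hf, hf'⟩ := exists_lift h1
    exact Submodule.subset_span ⟨f, hf, h2 f hf hf', hf'.symm⟩

theorem zi_mem_RR {p : ℕ} {I : Submodule ℤ P} {n k : ℕ} {f : P} (hf : f ∈ HQ p n k)
    (hf' : f ∈ I ⊔ Fge (n + (p - 1) * k + 1)) : zi p n f ∈ RR p I n k :=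
  Submodule.subset_span ⟨f, hf, hf', rfl⟩

/-- the image of a homogeneous polynomial under an operator -/
theorem Opr.ex {p n k n' k' : ℕ} {Φ : P →ₗ[ℤ] P} {φ : Z p →ₗ[ZMod p] Z p} (h : Opr p n k n' k' Φ φ)
    {f : P} (hf : f ∈ HQ p n k) :
    ∃ g ∈ HQ p n' k', Φ f - g ∈ Fge (n' + (p - 1) * k' + 1) ∧ zi p n' g = φ (zi p n f) := by
  unfold HQ at hf
  induction hf using Submodule.span_induction with
  | mem x hx =>
    obtain ⟨w, hw, hl, rfl⟩ := hx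
    rw [zi_mon hw]
    exact h.val w hw hl
  | zero =>
    refine ⟨0, Submodule.zero_mem _, ?_, ?_⟩
    · rw [map_zero, sub_zero]
      exact Submodule.zero_mem _
    · rw [map_zero, map_zero, map_zero]
  | add x y _ _ hx hy =>
    obtain ⟨a, ha, ha1, ha2⟩ := hx
    obtain ⟨b, hb, hb1, hb2⟩ := hy
    refine ⟨a + b, Submodule.add_mem _ ha hb, ?_, ?_⟩
    · rw [map_add, add_sub_add_comm]
      exact Submodule.add_mem _ ha1 hb1
    · rw [map_add, map_add, map_add, ha2, hb2]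
  | smul c x _ hx =>
    obtain ⟨a, ha, ha1, ha2⟩ := hx
    refine ⟨c • a, Submodule.smul_mem _ _ ha, ?_, ?_⟩
    · rw [map_smul, ← smul_sub]
      exact Submodule.smul_mem _ _ ha1
    · rw [map_smul, map_smul, map_zsmul, ha2]

private theorem oprr_map {p n k n' k' : ℕ} {I : Submodule ℤ P} (hI : NC p I) {Φ : P →ₗ[ℤ] P}
    {φ : Z p →ₗ[ZMod p] Z p} (h : Opr p n k n' k' Φ φ) {f : P} (hf : f ∈ I ⊔ Fge (n + (p - 1) * k + 1)) :
    Φ f ∈ I ⊔ Fge (n' + (p - 1) * k' + 1) := by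
  obtain ⟨u, hu, v, hv, rfl⟩ := Submodule.mem_sup.1 hf
  rw [map_add]
  exact Submodule.add_mem_sup (h.tO I hI.isT hI.mul u hu) (h.up v hv)

theorem RR_soc {p : ℕ} {I : Submodule ℤ P} (hI : NC p I) {n k n' k' : ℕ} {Φ : P →ₗ[ℤ] P}
    {φ : Z p →ₗ[ZMod p] Z p} (h : Opr p n k n' k' Φ φ) {f a : P} (hf : f ∈ HQ p n k)
    (ha : a - f ∈ I ⊔ Fge (n + (p - 1) * k + 1)) (hΦ : Φ a ∈ I ⊔ Fge (n' + (p - 1) * k' + 1)) :
    φ (zi p n f) ∈ RR p I n' k' := by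
  have h1 := oprr_map hI h ha
  obtain ⟨g, hg, hg1, hg2⟩ := h.ex hf
  rw [← hg2]
  refine zi_mem_RR hg ?_
  have h2 : g = Φ a - Φ (a - f) - (Φ f - g) := by
    rw [map_sub]; abel
  rw [h2]
  exact Submodule.sub_mem _ (Submodule.sub_mem _ hΦ h1) (Submodule.mem_sup_right hg1)

theorem RR_op {p : ℕ} [Fact p.Prime] {I : Submodule ℤ P} (hI : NC p I) {n k n' k' : ℕ} (hn : 1 ≤ n)
    {Φ : P →ₗ[ℤ] P} {φ : Z p →ₗ[ZMod p] Z p} (h : Opr p n k n' k' Φ φ) {F : Z p} (hF : F ∈ RR p I n k) :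
    φ F ∈ RR p I n' k' := by
  obtain ⟨h1, h2⟩ := (mem_RR hI hn).1 hF
  obtain ⟨f, hf, rfl⟩ := exists_lift h1
  refine RR_soc hI h hf (a := f) ?_ (oprr_map hI h (h2 f hf rfl))
  rw [sub_self]
  exact Submodule.zero_mem _

theorem RR_le {p : ℕ} [Fact p.Prime] {I : Submodule ℤ P} (h : NC p I) {n k : ℕ} (hn : 1 ≤ n) :
    RR p I n k ≤ Hh p n k := fun _ hF => ((mem_RR h hn).1 hF).1

end ADQ
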