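import Pool.Agent.ADQ.Defs

/-!
# ADQ-Ord: the order of the elements of an atom

`Fge N ≤ I` (`Fge_le`, `h.nil`), `A ≤ Pp ≤ Fge 1`.  Take the largest `d < N` (`Nat.findGreatest`) with `A ≤ I ⊔ Fge d` (true for `d = 1`; false
for `d = N`, since `A ≤ I` is excluded by `neA`).  `A ⊓ (I ⊔ Fge (d+1))` is a T-ideal (`isT_inf`, `isT_sup`, `isT_Fge`) between `I` and `A`, so it is `I`
or `A` (`h.mA`); `A` contradicts the maximality of `d`.  For `B` use `h.symm`.
-/

namespace ADQ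

open AD ADN ADC

private theorem ord_Pp {f : P} (hf : f ∈ Pp) : f ∈ Fge 1 := by
  obtain ⟨n, hn⟩ := exists_mem_Pn hf
  refine (Submodule.span_mono (R := ℤ) ?_ : Pn n ≤ Fge 1) hn
  rintro g ⟨w, hw, _, rfl⟩
  exact ⟨w, List.length_pos_of_ne_nil hw, rfl⟩

private theorem ord_abs {p : ℕ} {I A B C : Submodule ℤ P} (h : Lk p I A B C) {N d : ℕ} (hN : NilAt I N)
    (hd : N ≤ d) (hA : A ≤ I ⊔ Fge d) : False := by
  have h1 : Fge d ≤ I := (Fge_anti hd).trans (Fge_le hN)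
  exact h.neA (hA.trans (sup_le le_rfl h1))

theorem exists_Od {p : ℕ} {I A B C : Submodule ℤ P} (h : Lk p I A B C) : ∃ d, 1 ≤ d ∧ Od I A d := by
  by_contra hc
  obtain ⟨N, hN⟩ := h.nil
  have h1 : ∀ d, A ≤ I ⊔ Fge (d + 1) := by
    intro d
    induction d with
    | zero =>
      intro f hf
      exact Submodule.mem_sup_right (ord_Pp (h.hA.le hf))
    | succ d ih =>
      have h2 : ¬ A ⊓ (I ⊔ Fge (d + 1 + 1)) ≤ I := fun h2 => hc ⟨d + 1, Nat.le_add_left 1 d, ih, h2⟩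
      rcases h.mA (A ⊓ (I ⊔ Fge (d + 1 + 1))) (isT_inf h.hA (isT_sup h.hI (isT_Fge _ (Nat.le_add_left 1 _))))
        (le_inf h.IA le_sup_left) inf_le_left with h3 | h3
      · exact absurd (le_of_eq h3) h2
      · exact inf_eq_left.1 h3
  exact ord_abs h hN (Nat.le_succ N) (h1 N)

theorem Od_lt {p : ℕ} {I A B C : Submodule ℤ P} (h : Lk p I A B C) {d N : ℕ} (hN : NilAt I N) (hd : Od I A d) :
    d < N := by
  by_contra hc
  exact ord_abs h hN (Nat.le_of_not_lt hc) hd.1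

private theorem ord_uniq {p : ℕ} {I A B C : Submodule ℤ P} (h : Lk p I A B C) {d e : ℕ} (hd : Od I A d)
    (he : Od I A e) (hde : d < e) : False := by
  apply h.neA
  have h1 : A ≤ I ⊔ Fge (d + 1) := he.1.trans (sup_le_sup le_rfl (Fge_anti hde))
  exact (le_inf le_rfl h1).trans hd.2

theorem Od_unique {p : ℕ} {I A B C : Submodule ℤ P} (h : Lk p I A B C) {d e : ℕ} (hd : Od I A d) (he : Od I A e) :
    d = e := by
  rcases Nat.lt_trichotomy d e with h1 | h1 | h1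
  · exact (ord_uniq h hd he h1).elim
  · exact h1
  · exact (ord_uniq h he hd h1).elim

end ADQ
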