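import Pool.Agent.ADQ.P1
import Pool.Agent.ADQ.L23

/-!
# ADQ-P2: no linked pairs, pairs of indices

`e {i,j}`, equivariant modulo `N`.  For distinct `i, j, k, l < n` let `T = (1 - (i j)) (1 - (k l)) ∈ GA` (`(i j)` the operator `rn (Equiv.swap i j)`).  `T (e S) ∈ N` if `S` contains both or none of `i, j` (then `(1 - (i j)) e S ∈ N`, the factors
commute), or both or none of `k, l`; the other `S` are `{i,k}, {j,k}, {i,l}, {j,l}`, with `T e{j,k} ≡ - T e{i,k}`, `T e{i,l} ≡ - T e{i,k}`, `T e{j,l} ≡ T e{i,k}`.  So `T u ≡ κ Y`, `Y = T e{i,k}`,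
`κ = a{i,k} - a{j,k} - a{i,l} + a{j,l}`, and `T w ≡ κ' Y`; `Lkd.rankT`: `κ Y ∈ N`, `κ' Y ∈ N`.
Case 1: `Y ∉ N` for some quadruple, so for all quadruples (permutations).  Then all `κ = κ' = 0`, `L2` (`V = K = ZMod p`, `N = ⊥`): `a{i,j} = α_i + α_j`, `b{i,j} = β_i + β_j`, so
`u ≡ ∑ α_i E_i`, `E_i = ∑_{S ∋ i} e S` (sum over the pairs `S ⊆ range n`; `Finset.sum_comm'`), the same for `w`; `P1` for `E_i` with `T = rn (swap i j)`.
Case 2: all `Y ∈ N`: `Y ≡ e{i,k} - e{j,k} - e{i,l} + e{j,l}`, `L2` for `f = e`, `V = Z p`: `e{i,j} ≡ η_i + η_j`; `rn σ (η i) ≡ η (σ i)` by `L2u` (for `h i = rn σ (η (σ⁻¹ i)) - η i`).  `u ≡ ∑_i (∑_{S ∋ i} a S) η_i`, `P1`.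
`(2 : ZMod p) ≠ 0` for `p ≥ 3`.
-/

namespace ADQ

open AD ADN ADC

/-- extending a permutation by one value -/
private theorem ext_step {n : ℕ} {σ : Equiv.Perm ℕ} (hσ : ∀ t, n ≤ t → σ t = t) {y y' : ℕ} (hy : y < n)
    (hy' : y' < n) : ∃ σ' : Equiv.Perm ℕ, (∀ t, n ≤ t → σ' t = t) ∧ σ' y = y' ∧
      ∀ x, x ≠ y → σ x ≠ y' → σ' x = σ x := by
  refine ⟨σ.trans (Equiv.swap (σ y) y'), ?_, ?_, ?_⟩
  · intro t ht
    rw [Equiv.trans_apply, hσ t ht]
    refine Equiv.swap_apply_of_ne_of_ne ?_ (by omega)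
    intro h
    have h1 : σ t = σ y := by rw [hσ t ht]; exact h
    have h2 := σ.injective h1
    omega
  · rw [Equiv.trans_apply, Equiv.swap_apply_left]
  · intro x hx hxy
    rw [Equiv.trans_apply]
    exact Equiv.swap_apply_of_ne_of_ne (fun h => hx (σ.injective h)) hxy

private theorem perm4 {n i j k l i' j' k' l' : ℕ} (hi : i < n) (hj : j < n) (hk : k < n) (hl : l < n)
    (hi' : i' < n) (hj' : j' < n) (hk' : k' < n) (hl' : l' < n)
    (ij : i ≠ j) (ik : i ≠ k) (il : i ≠ l) (jk : j ≠ k) (jl : j ≠ l) (kl : k ≠ l)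
    (ij' : i' ≠ j') (ik' : i' ≠ k') (il' : i' ≠ l') (jk' : j' ≠ k') (jl' : j' ≠ l') (kl' : k' ≠ l') :
    ∃ σ : Equiv.Perm ℕ, (∀ t, n ≤ t → σ t = t) ∧ σ i = i' ∧ σ j = j' ∧ σ k = k' ∧ σ l = l' := by
  obtain ⟨s1, a1, b1, -⟩ := ext_step (n := n) (σ := Equiv.refl ℕ) (fun _ _ => rfl) hi hi'
  obtain ⟨s2, a2, b2, c2⟩ := ext_step a1 hj hj'
  obtain ⟨s3, a3, b3, c3⟩ := ext_step a2 hk hk'
  obtain ⟨s4, a4, b4, c4⟩ := ext_step a3 hl hl'
  have e2 : s2 i = i' := (c2 i ij (by rw [b1]; exact ij')).trans b1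
  have e3 : s3 i = i' := (c3 i ik (by rw [e2]; exact ik')).trans e2
  have f3 : s3 j = j' := (c3 j jk (by rw [b2]; exact jk')).trans b2
  refine ⟨s4, a4, (c4 i il (by rw [e3]; exact il')).trans e3, (c4 j jl (by rw [f3]; exact jl')).trans f3,
    (c4 k kl (by rw [b3]; exact kl')).trans b3, b4⟩

private theorem swap_fix {n i j : ℕ} (hi : i < n) (hj : j < n) : ∀ t, n ≤ t → Equiv.swap i j t = t := by
  intro t ht
  exact Equiv.swap_apply_of_ne_of_ne (by omega) (by omega)

private theorem fix_lt {n : ℕ} {σ : Equiv.Perm ℕ} (hσ : ∀ t, n ≤ t → σ t = t) {x : ℕ} (hx : x < n) : σ x < n := by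
  by_contra h
  have h1 := hσ (σ x) (by omega)
  have h2 := σ.injective h1
  omega

private theorem pair_mem {n i j : ℕ} (hi : i < n) (hj : j < n) (hij : i ≠ j) :
    ({i, j} : Finset ℕ) ∈ (Finset.range n).powersetCard 2 := by
  rw [Finset.mem_powersetCard]
  refine ⟨?_, Finset.card_pair hij⟩
  intro x hx
  rw [Finset.mem_insert, Finset.mem_singleton] at hx
  rw [Finset.mem_range]
  rcases hx with rfl | rfl <;> assumption

private theorem mem_pair {n : ℕ} {S : Finset ℕ} (hS : S ∈ (Finset.range n).powersetCard 2) :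
    ∃ i j, i < n ∧ j < n ∧ i ≠ j ∧ S = {i, j} := by
  obtain ⟨h1, h2⟩ := Finset.mem_powersetCard.1 hS
  obtain ⟨i, j, hij, rfl⟩ := Finset.card_eq_two.1 h2
  exact ⟨i, j, Finset.mem_range.1 (h1 (by simp)), Finset.mem_range.1 (h1 (by simp)), hij, rfl⟩

private theorem img_pair (σ : Equiv.Perm ℕ) (i j : ℕ) : ({i, j} : Finset ℕ).image σ = {σ i, σ j} := by
  rw [Finset.image_insert, Finset.image_singleton]

/-- the value of the operator on one of the elements `e S` -/
private theorem T_e {p n : ℕ} {N : Submodule (ZMod p) (Z p)} (hN : Stb p n N)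
    {e : Finset ℕ → Z p} (he : ∀ σ : Equiv.Perm ℕ, (∀ i, n ≤ i → σ i = i) →
      ∀ S ∈ (Finset.range n).powersetCard 2, rn σ (e S) - e (S.image σ) ∈ N)
    {i j k l : ℕ} (hi : i < n) (hj : j < n) (hk : k < n) (hl : l < n) {S : Finset ℕ}
    (hS : S ∈ (Finset.range n).powersetCard 2) :
    e S - rn (Equiv.swap k l) (e S) - (rn (Equiv.swap i j) (e S) - rn (Equiv.swap i j) (rn (Equiv.swap k l) (e S))) -
      (e S - e (S.image (Equiv.swap k l)) - (e (S.image (Equiv.swap i j)) -
        e ((S.image (Equiv.swap k l)).image (Equiv.swap i j)))) ∈ N := by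
  have h1 := he (Equiv.swap k l) (swap_fix hk hl) S hS
  have h2 := he (Equiv.swap i j) (swap_fix hi hj) S hS
  have hS' : S.image (Equiv.swap k l) ∈ (Finset.range n).powersetCard 2 := by
    obtain ⟨a, b, ha, hb, hab, rfl⟩ := mem_pair hS
    rw [img_pair]
    exact pair_mem (fix_lt (swap_fix hk hl) ha) (fix_lt (swap_fix hk hl) hb) (fun h => hab ((Equiv.swap k l).injective h))
  have h3 := he (Equiv.swap i j) (swap_fix hi hj) _ hS'
  have h4 : rn (Equiv.swap i j) (rn (Equiv.swap k l) (e S) - e (S.image (Equiv.swap k l))) ∈ N :=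
    hN _ (GA_rn (Equiv.swap i j) (swap_fix hi hj)) _ h1
  rw [map_sub] at h4
  have h := N.sub_mem (N.add_mem h4 h3) (N.add_mem h1 h2)
  refine (congrArg (· ∈ N) ?_).mp h
  abel

/-- the operator `(1 - (i j)) (1 - (k l))` -/
private noncomputable def Tq (p i j k l : ℕ) : Z p →ₗ[ZMod p] Z p :=
  (LinearMap.id - (rn (Equiv.swap i j)).toLinearMap).comp (LinearMap.id - (rn (Equiv.swap k l)).toLinearMap)

private theorem Tq_mem {p n i j k l : ℕ} (hi : i < n) (hj : j < n) (hk : k < n) (hl : l < n) :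
    Tq p i j k l ∈ GA p n :=
  GA_comp ((GA p n).sub_mem (GA_one n) (GA_rn _ (swap_fix hi hj)))
    ((GA p n).sub_mem (GA_one n) (GA_rn _ (swap_fix hk hl)))

private theorem Tq_apply {p i j k l : ℕ} (F : Z p) : Tq p i j k l F =
    F - rn (Equiv.swap k l) F - (rn (Equiv.swap i j) F - rn (Equiv.swap i j) (rn (Equiv.swap k l) F)) := by
  show (F - rn (Equiv.swap k l) F) - rn (Equiv.swap i j) (F - rn (Equiv.swap k l) F) = _
  rw [map_sub]

private theorem T_u {p n : ℕ} {N : Submodule (ZMod p) (Z p)} (hN : Stb p n N)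
    {e : Finset ℕ → Z p} (he : ∀ σ : Equiv.Perm ℕ, (∀ i, n ≤ i → σ i = i) →
      ∀ S ∈ (Finset.range n).powersetCard 2, rn σ (e S) - e (S.image σ) ∈ N)
    {i j k l : ℕ} (hi : i < n) (hj : j < n) (hk : k < n) (hl : l < n)
    (ij : i ≠ j) (ik : i ≠ k) (il : i ≠ l) (jk : j ≠ k) (jl : j ≠ l) (kl : k ≠ l)
    {u : Z p} {a : Finset ℕ → ZMod p} (hu : u - ∑ S ∈ (Finset.range n).powersetCard 2, a S • e S ∈ N) :
    Tq p i j k l u - (a {i, k} - a {j, k} - a {i, l} + a {j, l}) • (e {i, k} - e {j, k} - e {i, l} + e {j, l}) ∈ N := by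
  classical
  have h1 := hN _ (Tq_mem hi hj hk hl) _ hu
  rw [map_sub, map_sum] at h1
  set B : Finset ℕ → Z p := fun S => e S - e (S.image (Equiv.swap k l)) - (e (S.image (Equiv.swap i j)) -
        e ((S.image (Equiv.swap k l)).image (Equiv.swap i j))) with hB
  have h2 : (∑ S ∈ (Finset.range n).powersetCard 2, Tq p i j k l (a S • e S)) -
      ∑ S ∈ (Finset.range n).powersetCard 2, a S • B S ∈ N := by
    rw [← Finset.sum_sub_distrib]
    refine N.sum_mem fun S hS => ?_
    rw [map_smul, ← smul_sub]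
    refine N.smul_mem _ ?_
    rw [Tq_apply]
    exact T_e hN he hi hj hk hl hS
  have hB0 : ∀ S ∈ (Finset.range n).powersetCard 2, S ∉ ({{i, k}, {j, k}, {i, l}, {j, l}} : Finset (Finset ℕ)) →
      B S = 0 := by
    intro S hS hne
    obtain ⟨x, y, hx, hy, hxy, rfl⟩ := mem_pair hS
    have key : (({x, y} : Finset ℕ).image (Equiv.swap k l) = {x, y}) ∨
        (({x, y} : Finset ℕ).image (Equiv.swap i j) = {x, y} ∧
          (({x, y} : Finset ℕ).image (Equiv.swap k l)).image (Equiv.swap i j) =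
            ({x, y} : Finset ℕ).image (Equiv.swap k l)) := by
      simp only [img_pair]
      simp only [Finset.mem_insert, Finset.mem_singleton, not_or] at hne
      by_cases hc : (x ≠ k ∧ x ≠ l ∧ y ≠ k ∧ y ≠ l)
      · left
        rw [Equiv.swap_apply_of_ne_of_ne hc.1 hc.2.1, Equiv.swap_apply_of_ne_of_ne hc.2.2.1 hc.2.2.2]
      by_cases hd : (x = k ∧ y = l)
      · left
        rw [hd.1, hd.2, Equiv.swap_apply_left, Equiv.swap_apply_right, Finset.pair_comm]
      by_cases hd' : (x = l ∧ y = k)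
      · left
        rw [hd'.1, hd'.2, Equiv.swap_apply_left, Equiv.swap_apply_right, Finset.pair_comm]
      right
      have hni : x ≠ i ∧ x ≠ j ∧ y ≠ i ∧ y ≠ j := by
        refine ⟨?_, ?_, ?_, ?_⟩
        · rintro rfl
          by_cases h : y = k
          · exact hne.1 (by rw [h])
          · by_cases h' : y = l
            · exact hne.2.2.1 (by rw [h'])
            · exact hc ⟨ik, il, h, h'⟩
        · rintro rfl
          by_cases h : y = k
          · exact hne.2.1 (by rw [h])
          · by_cases h' : y = l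
            · exact hne.2.2.2 (by rw [h'])
            · exact hc ⟨jk, jl, h, h'⟩
        · rintro rfl
          by_cases h : x = k
          · exact hne.1 (by rw [h, Finset.pair_comm])
          · by_cases h' : x = l
            · exact hne.2.2.1 (by rw [h', Finset.pair_comm])
            · exact hc ⟨h, h', ik, il⟩
        · rintro rfl
          by_cases h : x = k
          · exact hne.2.1 (by rw [h, Finset.pair_comm])
          · by_cases h' : x = l
            · exact hne.2.2.2 (by rw [h', Finset.pair_comm])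
            · exact hc ⟨h, h', jk, jl⟩
      have hsw : ∀ t, t ≠ i → t ≠ j → Equiv.swap k l t ≠ i ∧ Equiv.swap k l t ≠ j := by
        intro t ht ht'
        by_cases h : t = k
        · rw [h, Equiv.swap_apply_left]; exact ⟨il.symm, jl.symm⟩
        · by_cases h' : t = l
          · rw [h', Equiv.swap_apply_right]; exact ⟨ik.symm, jk.symm⟩
          · rw [Equiv.swap_apply_of_ne_of_ne h h']; exact ⟨ht, ht'⟩
      constructor
      · rw [Equiv.swap_apply_of_ne_of_ne hni.1 hni.2.1, Equiv.swap_apply_of_ne_of_ne hni.2.2.1 hni.2.2.2]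
      · obtain ⟨q1, q2⟩ := hsw x hni.1 hni.2.1
        obtain ⟨q3, q4⟩ := hsw y hni.2.2.1 hni.2.2.2
        rw [Equiv.swap_apply_of_ne_of_ne q1 q2, Equiv.swap_apply_of_ne_of_ne q3 q4]
    rcases key with h | ⟨h, h'⟩
    · rw [hB]; simp only [h]; abel
    · rw [hB]; simp only [h, h']; abel
  have hsub : ({{i, k}, {j, k}, {i, l}, {j, l}} : Finset (Finset ℕ)) ⊆ (Finset.range n).powersetCard 2 := by
    intro S hS
    simp only [Finset.mem_insert, Finset.mem_singleton] at hS
    rcases hS with rfl | rfl | rfl | rfl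
    · exact pair_mem hi hk ik
    · exact pair_mem hj hk jk
    · exact pair_mem hi hl il
    · exact pair_mem hj hl jl
  have hne1 : ({i, k} : Finset ℕ) ≠ {j, k} := by
    intro h
    have : i ∈ ({j, k} : Finset ℕ) := by rw [← h]; simp
    simp only [Finset.mem_insert, Finset.mem_singleton] at this
    omega
  have hne2 : ({i, k} : Finset ℕ) ≠ {i, l} := by
    intro h
    have : k ∈ ({i, l} : Finset ℕ) := by rw [← h]; simp
    simp only [Finset.mem_insert, Finset.mem_singleton] at this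
    omega
  have hne3 : ({i, k} : Finset ℕ) ≠ {j, l} := by
    intro h
    have : i ∈ ({j, l} : Finset ℕ) := by rw [← h]; simp
    simp only [Finset.mem_insert, Finset.mem_singleton] at this
    omega
  have hne4 : ({j, k} : Finset ℕ) ≠ {i, l} := by
    intro h
    have : j ∈ ({i, l} : Finset ℕ) := by rw [← h]; simp
    simp only [Finset.mem_insert, Finset.mem_singleton] at this
    omega
  have hne5 : ({j, k} : Finset ℕ) ≠ {j, l} := by
    intro h
    have : k ∈ ({j, l} : Finset ℕ) := by rw [← h]; simp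
    simp only [Finset.mem_insert, Finset.mem_singleton] at this
    omega
  have hne6 : ({i, l} : Finset ℕ) ≠ {j, l} := by
    intro h
    have : i ∈ ({j, l} : Finset ℕ) := by rw [← h]; simp
    simp only [Finset.mem_insert, Finset.mem_singleton] at this
    omega
  have h3 : ∑ S ∈ (Finset.range n).powersetCard 2, a S • B S =
      (a {i, k} - a {j, k} - a {i, l} + a {j, l}) • (e {i, k} - e {j, k} - e {i, l} + e {j, l}) := by
    rw [← Finset.sum_subset hsub (fun S hS hS' => by rw [hB0 S hS hS', smul_zero])]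
    rw [Finset.sum_insert (by simp only [Finset.mem_insert, Finset.mem_singleton, not_or]; exact ⟨hne1, hne2, hne3⟩),
      Finset.sum_insert (by simp only [Finset.mem_insert, Finset.mem_singleton, not_or]; exact ⟨hne4, hne5⟩),
      Finset.sum_insert (by rw [Finset.mem_singleton]; exact hne6), Finset.sum_singleton]
    have b1 : B {i, k} = e {i, k} - e {j, k} - e {i, l} + e {j, l} := by
      rw [hB]
      simp only [img_pair, Equiv.swap_apply_left, Equiv.swap_apply_of_ne_of_ne ik il,
        Equiv.swap_apply_of_ne_of_ne ik.symm jk.symm, Equiv.swap_apply_of_ne_of_ne il.symm jl.symm]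
      abel
    have b2 : B {j, k} = -(e {i, k} - e {j, k} - e {i, l} + e {j, l}) := by
      rw [hB]
      simp only [img_pair, Equiv.swap_apply_left, Equiv.swap_apply_right, Equiv.swap_apply_of_ne_of_ne jk jl,
        Equiv.swap_apply_of_ne_of_ne ik.symm jk.symm, Equiv.swap_apply_of_ne_of_ne il.symm jl.symm]
      abel
    have b3 : B {i, l} = -(e {i, k} - e {j, k} - e {i, l} + e {j, l}) := by
      rw [hB]
      simp only [img_pair, Equiv.swap_apply_left, Equiv.swap_apply_right, Equiv.swap_apply_of_ne_of_ne ik il,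
        Equiv.swap_apply_of_ne_of_ne ik.symm jk.symm, Equiv.swap_apply_of_ne_of_ne il.symm jl.symm]
      abel
    have b4 : B {j, l} = e {i, k} - e {j, k} - e {i, l} + e {j, l} := by
      rw [hB]
      simp only [img_pair, Equiv.swap_apply_left, Equiv.swap_apply_right, Equiv.swap_apply_of_ne_of_ne jk jl,
        Equiv.swap_apply_of_ne_of_ne ik.symm jk.symm, Equiv.swap_apply_of_ne_of_ne il.symm jl.symm]
      abel
    rw [b1, b2, b3, b4]
    module
  rw [h3] at h2
  have h := N.add_mem h1 h2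
  rwa [sub_add_sub_cancel] at h

private theorem inv_smul_mem {p : ℕ} [Fact p.Prime] {N : Submodule (ZMod p) (Z p)} {F : Z p} {x : ZMod p}
    (hx : x ≠ 0) (h : x • F ∈ N) : F ∈ N := by
  have h1 := N.smul_mem x⁻¹ h
  rwa [smul_smul, inv_mul_cancel₀ hx, one_smul] at h1

/-- double counting -/
private theorem dcount {p n : ℕ} (f : Finset ℕ → ℕ → Z p) :
    ∑ S ∈ (Finset.range n).powersetCard 2, ∑ i ∈ S, f S i =
      ∑ i ∈ Finset.range n, ∑ S ∈ ((Finset.range n).powersetCard 2).filter (fun S => i ∈ S), f S i := by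
  refine Finset.sum_comm' ?_
  intro S i
  rw [Finset.mem_filter]
  constructor
  · rintro ⟨h1, h2⟩
    exact ⟨⟨h1, h2⟩, (Finset.mem_powersetCard.1 h1).1 h2⟩
  · rintro ⟨⟨h1, h2⟩, -⟩
    exact ⟨h1, h2⟩

theorem P2 {p : ℕ} [Fact p.Prime] (h3 : 3 ≤ p) {n : ℕ} (hn : 4 ≤ n) {N : Submodule (ZMod p) (Z p)} (hN : Stb p n N)
    {e : Finset ℕ → Z p} (he : ∀ σ : Equiv.Perm ℕ, (∀ i, n ≤ i → σ i = i) →
      ∀ S ∈ (Finset.range n).powersetCard 2, rn σ (e S) - e (S.image σ) ∈ N)
    {u w : Z p} {a b : Finset ℕ → ZMod p} (hu : u - ∑ S ∈ (Finset.range n).powersetCard 2, a S • e S ∈ N)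
    (hw : w - ∑ S ∈ (Finset.range n).powersetCard 2, b S • e S ∈ N) (hl : Lkd p n N u w) : u ∈ N := by
  classical
  have h20 : (2 : ZMod p) ≠ 0 := by
    intro h
    have h1 : ((2 : ℕ) : ZMod p) = 0 := by exact_mod_cast h
    rw [ZMod.natCast_eq_zero_iff] at h1
    have := Nat.le_of_dvd (by norm_num) h1
    omega
  have hrn : ∀ σ : Equiv.Perm ℕ, (∀ i, n ≤ i → σ i = i) → ∀ F ∈ N, rn σ F ∈ N := fun σ hσ F hF =>
    hN _ (GA_rn σ hσ) F hF
  have hkey : ∀ i j k l, i < n → j < n → k < n → l < n → i ≠ j → i ≠ k → i ≠ l → j ≠ k → j ≠ l → k ≠ l →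
      (a {i, k} - a {j, k} - a {i, l} + a {j, l}) • (e {i, k} - e {j, k} - e {i, l} + e {j, l}) ∈ N ∧
      (b {i, k} - b {j, k} - b {i, l} + b {j, l}) • (e {i, k} - e {j, k} - e {i, l} + e {j, l}) ∈ N := by
    intro i j k l hi hj hk hl' ij ik il jk jl kl
    have cu := T_u hN he hi hj hk hl' ij ik il jk jl kl hu
    have cw := T_u hN he hi hj hk hl' ij ik il jk jl kl hw
    have hh := hl.rankT (Tq_mem hi hj hk hl') cu cw
    constructor
    · have h := N.sub_mem hh.1 cu
      rwa [sub_sub_cancel] at h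
    · have h := N.sub_mem hh.2 cw
      rwa [sub_sub_cancel] at h
  by_cases hall : ∀ i j k l, i < n → j < n → k < n → l < n → i ≠ j → i ≠ k → i ≠ l → j ≠ k → j ≠ l → k ≠ l →
      e {i, k} - e {j, k} - e {i, l} + e {j, l} ∈ N
  · -- all second differences vanish
    obtain ⟨η, hη⟩ := L2 h20 (by omega : 3 ≤ n) N e hall
    have hequi : ∀ σ : Equiv.Perm ℕ, (∀ i, n ≤ i → σ i = i) → ∀ i < n, rn σ (η i) - η (σ i) ∈ N := by
      intro σ hσ i hi
      have hlt : ∀ x, x < n → σ.symm x < n := by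
        intro x hx
        refine fix_lt (n := n) ?_ hx
        intro t ht
        rw [Equiv.symm_apply_eq]
        exact (hσ t ht).symm
      have h1 := L2u h20 (by omega : 3 ≤ n) N (fun i => rn σ (η (σ.symm i)) - η i) (fun x y hx hy hxy => by
        have hxy' : σ.symm x ≠ σ.symm y := fun h => hxy (σ.symm.injective h)
        have q1 := hrn σ hσ _ (hη (σ.symm x) (σ.symm y) (hlt x hx) (hlt y hy) hxy')
        have q2 := he σ hσ _ (pair_mem (hlt x hx) (hlt y hy) hxy')
        rw [img_pair, Equiv.apply_symm_apply, Equiv.apply_symm_apply] at q2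
        have q3 := hη x y hx hy hxy
        rw [map_sub, map_sub] at q1
        have h := N.add_mem (N.sub_mem q2 q1) q3
        refine (congrArg (· ∈ N) ?_).mp h
        abel) (σ i) (fix_lt hσ hi)
      simp only [Equiv.symm_apply_apply] at h1
      exact h1
    have hexp : ∀ (v : Z p) (c : Finset ℕ → ZMod p),
        v - ∑ S ∈ (Finset.range n).powersetCard 2, c S • e S ∈ N →
        v - ∑ i ∈ Finset.range n, (∑ S ∈ ((Finset.range n).powersetCard 2).filter (fun S => i ∈ S), c S) • η i ∈ N := by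
      intro v c hv
      have h1 : (∑ S ∈ (Finset.range n).powersetCard 2, c S • e S) -
          ∑ S ∈ (Finset.range n).powersetCard 2, ∑ i ∈ S, c S • η i ∈ N := by
        rw [← Finset.sum_sub_distrib]
        refine N.sum_mem fun S hS => ?_
        obtain ⟨x, y, hx, hy, hxy, rfl⟩ := mem_pair hS
        rw [Finset.sum_pair hxy, ← smul_add, ← smul_sub]
        refine N.smul_mem _ ?_
        have h := hη x y hx hy hxy
        rwa [sub_sub] at h
      rw [dcount (fun S i => c S • η i)] at h1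
      have h := N.add_mem hv h1
      rw [sub_add_sub_cancel] at h
      refine (congrArg (· ∈ N) ?_).mp h
      refine congrArg (v - ·) (Finset.sum_congr rfl fun i _ => ?_)
      rw [Finset.sum_smul]
    refine P1 hN (e := η) ?_ (hexp u a hu) (hexp w b hw) hl
    intro i hi j hj hij
    refine ⟨(rn (Equiv.swap i j)).toLinearMap, GA_rn _ (swap_fix hi hj), ?_, ?_, ?_⟩
    · have h := hequi (Equiv.swap i j) (swap_fix hi hj) i hi
      rwa [Equiv.swap_apply_left] at h
    · have h := hequi (Equiv.swap i j) (swap_fix hi hj) j hj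
      rwa [Equiv.swap_apply_right] at h
    · intro k hk hki hkj
      have h := hequi (Equiv.swap i j) (swap_fix hi hj) k hk
      rwa [Equiv.swap_apply_of_ne_of_ne hki hkj] at h
  · push Not at hall
    obtain ⟨i0, j0, k0, l0, hi0, hj0, hk0, hl0, ij0, ik0, il0, jk0, jl0, kl0, hY0⟩ := hall
    have hY : ∀ i j k l, i < n → j < n → k < n → l < n → i ≠ j → i ≠ k → i ≠ l → j ≠ k → j ≠ l → k ≠ l →
        e {i, k} - e {j, k} - e {i, l} + e {j, l} ∉ N := by
      intro i j k l hi hj hk hl' ij ik il jk jl kl hmem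
      apply hY0
      obtain ⟨σ, hσ, e1, e2, e3, e4⟩ := perm4 hi hj hk hl' hi0 hj0 hk0 hl0 ij ik il jk jl kl ij0 ik0 il0 jk0 jl0 kl0
      have h1 := hrn σ hσ _ hmem
      have q1 := he σ hσ _ (pair_mem hi hk ik)
      have q2 := he σ hσ _ (pair_mem hj hk jk)
      have q3 := he σ hσ _ (pair_mem hi hl' il)
      have q4 := he σ hσ _ (pair_mem hj hl' jl)
      rw [img_pair, e1, e3] at q1
      rw [img_pair, e2, e3] at q2
      rw [img_pair, e1, e4] at q3
      rw [img_pair, e2, e4] at q4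
      rw [map_add, map_sub, map_sub] at h1
      have h := N.sub_mem h1 (N.add_mem (N.sub_mem (N.sub_mem q1 q2) q3) q4)
      refine (congrArg (· ∈ N) ?_).mp h
      abel
    have hcoef : ∀ c : Finset ℕ → ZMod p, (∀ i j k l, i < n → j < n → k < n → l < n → i ≠ j → i ≠ k → i ≠ l →
        j ≠ k → j ≠ l → k ≠ l →
        (c {i, k} - c {j, k} - c {i, l} + c {j, l}) • (e {i, k} - e {j, k} - e {i, l} + e {j, l}) ∈ N) →
        ∃ α : ℕ → ZMod p, ∀ i j, i < n → j < n → i ≠ j → c {i, j} = α i + α j := by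
      intro c hc
      obtain ⟨α, hα⟩ := L2 h20 (by omega : 3 ≤ n) (⊥ : Submodule (ZMod p) (ZMod p)) c
        (fun i j k l hi hj hk hl' ij ik il jk jl kl => by
          rw [Submodule.mem_bot]
          by_contra hne
          exact hY i j k l hi hj hk hl' ij ik il jk jl kl (inv_smul_mem hne (hc i j k l hi hj hk hl' ij ik il jk jl kl)))
      refine ⟨α, fun i j hi hj hij => ?_⟩
      have h := (Submodule.mem_bot _).1 (hα i j hi hj hij)
      rw [sub_sub, sub_eq_zero] at h
      exact h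
    obtain ⟨α, hα⟩ := hcoef a (fun i j k l hi hj hk hl' ij ik il jk jl kl =>
      (hkey i j k l hi hj hk hl' ij ik il jk jl kl).1)
    obtain ⟨β, hβ⟩ := hcoef b (fun i j k l hi hj hk hl' ij ik il jk jl kl =>
      (hkey i j k l hi hj hk hl' ij ik il jk jl kl).2)
    set E : ℕ → Z p := fun i => ∑ S ∈ ((Finset.range n).powersetCard 2).filter (fun S => i ∈ S), e S with hE
    have hexp : ∀ (v : Z p) (c : Finset ℕ → ZMod p) (γ : ℕ → ZMod p),
        (∀ i j, i < n → j < n → i ≠ j → c {i, j} = γ i + γ j) →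
        v - ∑ S ∈ (Finset.range n).powersetCard 2, c S • e S ∈ N →
        v - ∑ i ∈ Finset.range n, γ i • E i ∈ N := by
      intro v c γ hγ hv
      refine (congrArg (· ∈ N) ?_).mp hv
      refine congrArg (v - ·) ?_
      have h1 : ∑ S ∈ (Finset.range n).powersetCard 2, c S • e S =
          ∑ S ∈ (Finset.range n).powersetCard 2, ∑ i ∈ S, γ i • e S := by
        refine Finset.sum_congr rfl fun S hS => ?_
        obtain ⟨x, y, hx, hy, hxy, rfl⟩ := mem_pair hS
        rw [Finset.sum_pair hxy, hγ x y hx hy hxy, add_smul]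
      rw [h1, dcount (fun S i => γ i • e S)]
      refine Finset.sum_congr rfl fun i _ => ?_
      rw [hE, Finset.smul_sum]
    have hequi : ∀ σ : Equiv.Perm ℕ, (∀ i, n ≤ i → σ i = i) → ∀ i < n, rn σ (E i) - E (σ i) ∈ N := by
      intro σ hσ i hi
      have hinj : Set.InjOn (fun S : Finset ℕ => S.image σ)
          (((Finset.range n).powersetCard 2).filter (fun S => i ∈ S) : Set (Finset ℕ)) :=
        fun S _ S' _ h => Finset.image_injective σ.injective h
      have h1 : E (σ i) = ∑ S ∈ ((Finset.range n).powersetCard 2).filter (fun S => i ∈ S), e (S.image σ) := by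
        rw [hE]
        symm
        refine Finset.sum_nbij' (fun S => S.image σ) (fun S => S.image σ.symm) ?_ ?_ ?_ ?_ ?_
        · intro S hS
          obtain ⟨hS1, hS2⟩ := Finset.mem_filter.1 hS
          obtain ⟨x, y, hx, hy, hxy, rfl⟩ := mem_pair hS1
          rw [Finset.mem_filter, img_pair]
          refine ⟨pair_mem (fix_lt hσ hx) (fix_lt hσ hy) (fun h => hxy (σ.injective h)), ?_⟩
          rw [← img_pair]
          exact Finset.mem_image_of_mem σ hS2
        · intro S hS
          obtain ⟨hS1, hS2⟩ := Finset.mem_filter.1 hS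
          obtain ⟨x, y, hx, hy, hxy, rfl⟩ := mem_pair hS1
          have hσ' : ∀ t, n ≤ t → σ.symm t = t := fun t ht => by
            rw [Equiv.symm_apply_eq]; exact (hσ t ht).symm
          rw [Finset.mem_filter, img_pair]
          refine ⟨pair_mem (fix_lt hσ' hx) (fix_lt hσ' hy) (fun h => hxy (σ.symm.injective h)), ?_⟩
          rw [← img_pair]
          have h := Finset.mem_image_of_mem σ.symm hS2
          rwa [Equiv.symm_apply_apply] at h
        · intro S _
          rw [Finset.image_image]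
          have : (σ.symm : ℕ → ℕ) ∘ σ = id := by funext x; simp
          rw [this, Finset.image_id]
        · intro S _
          rw [Finset.image_image]
          have : (σ : ℕ → ℕ) ∘ σ.symm = id := by funext x; simp
          rw [this, Finset.image_id]
        · intro S _
          rfl
      rw [h1, hE, map_sum, ← Finset.sum_sub_distrib]
      refine N.sum_mem fun S hS => ?_
      exact he σ hσ S (Finset.mem_filter.1 hS).1
    refine P1 hN (e := E) ?_ (hexp u a α hα hu) (hexp w b β hβ hw) hl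
    intro i hi j hj hij
    refine ⟨(rn (Equiv.swap i j)).toLinearMap, GA_rn _ (swap_fix hi hj), ?_, ?_, ?_⟩
    · have h := hequi (Equiv.swap i j) (swap_fix hi hj) i hi
      rwa [Equiv.swap_apply_left] at h
    · have h := hequi (Equiv.swap i j) (swap_fix hi hj) j hj
      rwa [Equiv.swap_apply_right] at h
    · intro k hk hki hkj
      have h := hequi (Equiv.swap i j) (swap_fix hi hj) k hk
      rwa [Equiv.swap_apply_of_ne_of_ne hki hkj] at h

end ADQ
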