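import Pool.Agent.ADQ.P2

/-!
# ADQ-P3: no linked pairs, triples of indices

As `P2`.  For distinct `i, l, j, m, k, o < n` let `T = (1 - (i l)) (1 - (j m)) (1 - (k o))`; `T u ≡ κ Y` with `Y` the alternating sum
of the eight `e S` and `κ` the alternating sum of the coefficients.
-/

namespace ADQ

open AD ADN ADC

private def P3F {V : Type*} [AddCommGroup V] (f : Finset ℕ → V) (i l j m k o : ℕ) : V :=
  f {i, j, k} - f {l, j, k} - f {i, m, k} - f {i, j, o} + f {l, m, k} + f {l, j, o} + f {i, m, o} - f {l, m, o}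

private def P3A {V : Type*} [AddCommGroup V] (f : Finset ℕ → V) (A B C : Equiv.Perm ℕ) (S : Finset ℕ) : V :=
  f S - f (S.image A) - f (S.image B) - f (S.image C) + f ((S.image B).image A) + f ((S.image C).image A) +
    f ((S.image C).image B) - f (((S.image C).image B).image A)

private theorem P3_sub {i l : ℕ} {S : Finset ℕ} (h : i ∈ S ↔ l ∈ S) : S.image (Equiv.swap i l) = S := by
  have hs : S.image (Equiv.swap i l) ⊆ S := by
    intro x hx
    obtain ⟨y, hy, rfl⟩ := Finset.mem_image.1 hx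
    by_cases h1 : y = i
    · rw [h1, Equiv.swap_apply_left]
      exact h.1 (h1 ▸ hy)
    · by_cases h2 : y = l
      · rw [h2, Equiv.swap_apply_right]
        exact h.2 (h2 ▸ hy)
      · rwa [Equiv.swap_apply_of_ne_of_ne h1 h2]
  refine Finset.eq_of_subset_of_card_le hs ?_
  rw [Finset.card_image_of_injective _ (Equiv.injective _)]

private theorem P3_mem {n x y z : ℕ} (hx : x < n) (hy : y < n) (hz : z < n) (xy : x ≠ y) (xz : x ≠ z) (yz : y ≠ z) :
    ({x, y, z} : Finset ℕ) ∈ (Finset.range n).powersetCard 3 := by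
  rw [Finset.mem_powersetCard]
  refine ⟨?_, Finset.card_eq_three.2 ⟨x, y, z, xy, xz, yz, rfl⟩⟩
  intro t ht
  simp only [Finset.mem_insert, Finset.mem_singleton] at ht
  rw [Finset.mem_range]
  rcases ht with h | h | h <;> omega

private theorem P3_self {K W : Type*} [Field K] [AddCommGroup W] [Module K W] (h2 : (2 : K) ≠ 0) {x : W}
    (h : x = - x) : x = 0 := by
  have h' : (2 : K) • x = 0 := by
    rw [two_smul]
    nth_rewrite 1 [h]
    exact neg_add_cancel x
  exact (smul_eq_zero.1 h').resolve_left h2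

private theorem P3_sum8 {K W : Type*} [Field K] [AddCommGroup W] [Module K W] (h2 : (2 : K) ≠ 0) {n i l j m k o : ℕ}
    (hi : i < n) (hl : l < n) (hj : j < n) (hm : m < n) (hk : k < n) (ho : o < n) (hnd : [i, l, j, m, k, o].Nodup)
    (φ : Finset ℕ → W) (a : Finset ℕ → K)
    (hA : ∀ S ∈ (Finset.range n).powersetCard 3, φ (S.image (Equiv.swap i l)) = - φ S)
    (hB : ∀ S ∈ (Finset.range n).powersetCard 3, φ (S.image (Equiv.swap j m)) = - φ S)
    (hC : ∀ S ∈ (Finset.range n).powersetCard 3, φ (S.image (Equiv.swap k o)) = - φ S) :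
    ∑ S ∈ (Finset.range n).powersetCard 3, a S • φ S = P3F a i l j m k o • φ {i, j, k} := by
  simp only [List.nodup_cons, List.mem_cons, List.not_mem_nil, or_false, not_or, List.nodup_nil, and_true,
    not_false_eq_true] at hnd
  obtain ⟨⟨il, ij, im, ik, io⟩, ⟨lj, lm, lk, lo⟩, ⟨jm, jk, jo⟩, ⟨mk, mo⟩, ko⟩ := hnd
  have nxy : ∀ x y, (x = i ∨ x = l) → (y = j ∨ y = m) → x ≠ y := by
    rintro x y (rfl | rfl) (rfl | rfl) <;> assumption
  have nxz : ∀ x y, (x = i ∨ x = l) → (y = k ∨ y = o) → x ≠ y := by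
    rintro x y (rfl | rfl) (rfl | rfl) <;> assumption
  have nyz : ∀ x y, (x = j ∨ x = m) → (y = k ∨ y = o) → x ≠ y := by
    rintro x y (rfl | rfl) (rfl | rfl) <;> assumption
  set g : ℕ × ℕ × ℕ → Finset ℕ := fun q => {q.1, q.2.1, q.2.2} with hg
  set D : Finset (ℕ × ℕ × ℕ) := ({i, l} : Finset ℕ) ×ˢ (({j, m} : Finset ℕ) ×ˢ ({k, o} : Finset ℕ)) with hD
  have hsub : D.image g ⊆ (Finset.range n).powersetCard 3 := by
    intro S hS
    obtain ⟨⟨x, y, z⟩, hq, rfl⟩ := Finset.mem_image.1 hS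
    simp only [hD, Finset.mem_product, Finset.mem_insert, Finset.mem_singleton] at hq
    obtain ⟨hx, hy, hz⟩ := hq
    simp only [hg]
    refine P3_mem ?_ ?_ ?_ ?_ ?_ ?_
    · rcases hx with rfl | rfl <;> assumption
    · rcases hy with rfl | rfl <;> assumption
    · rcases hz with rfl | rfl <;> assumption
    · rcases hx with rfl | rfl <;> rcases hy with rfl | rfl <;> assumption
    · rcases hx with rfl | rfl <;> rcases hz with rfl | rfl <;> assumption
    · rcases hy with rfl | rfl <;> rcases hz with rfl | rfl <;> assumption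
  have hzero : ∀ S ∈ (Finset.range n).powersetCard 3, S ∉ D.image g → a S • φ S = 0 := by
    intro S hS hSn
    by_contra hne
    have hφ : φ S ≠ 0 := fun h => hne (by rw [h, smul_zero])
    have h1 : ¬ (i ∈ S ↔ l ∈ S) := fun h => hφ (P3_self h2 (by
      have := hA S hS
      rwa [P3_sub h] at this))
    have h2' : ¬ (j ∈ S ↔ m ∈ S) := fun h => hφ (P3_self h2 (by
      have := hB S hS
      rwa [P3_sub h] at this))
    have h3 : ¬ (k ∈ S ↔ o ∈ S) := fun h => hφ (P3_self h2 (by
      have := hC S hS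
      rwa [P3_sub h] at this))
    obtain ⟨x, hx, hxS⟩ : ∃ x, (x = i ∨ x = l) ∧ x ∈ S := by
      by_cases h : i ∈ S
      · exact ⟨i, Or.inl rfl, h⟩
      · refine ⟨l, Or.inr rfl, ?_⟩
        by_contra h'
        exact h1 ⟨fun q => absurd q h, fun q => absurd q h'⟩
    obtain ⟨y, hy, hyS⟩ : ∃ x, (x = j ∨ x = m) ∧ x ∈ S := by
      by_cases h : j ∈ S
      · exact ⟨j, Or.inl rfl, h⟩
      · refine ⟨m, Or.inr rfl, ?_⟩
        by_contra h'
        exact h2' ⟨fun q => absurd q h, fun q => absurd q h'⟩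
    obtain ⟨z, hz, hzS⟩ : ∃ x, (x = k ∨ x = o) ∧ x ∈ S := by
      by_cases h : k ∈ S
      · exact ⟨k, Or.inl rfl, h⟩
      · refine ⟨o, Or.inr rfl, ?_⟩
        by_contra h'
        exact h3 ⟨fun q => absurd q h, fun q => absurd q h'⟩
    apply hSn
    rw [Finset.mem_image]
    refine ⟨(x, y, z), ?_, ?_⟩
    · simp only [hD, Finset.mem_product, Finset.mem_insert, Finset.mem_singleton]
      exact ⟨hx, hy, hz⟩
    · have xy : x ≠ y := by rcases hx with rfl | rfl <;> rcases hy with rfl | rfl <;> assumption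
      have xz : x ≠ z := by rcases hx with rfl | rfl <;> rcases hz with rfl | rfl <;> assumption
      have yz : y ≠ z := by rcases hy with rfl | rfl <;> rcases hz with rfl | rfl <;> assumption
      have hc : ({x, y, z} : Finset ℕ).card = 3 := Finset.card_eq_three.2 ⟨x, y, z, xy, xz, yz, rfl⟩
      refine Finset.eq_of_subset_of_card_le ?_ ?_
      · intro t ht
        simp only [hg, Finset.mem_insert, Finset.mem_singleton] at ht
        rcases ht with rfl | rfl | rfl <;> assumption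
      · simp only [hg]
        rw [hc, (Finset.mem_powersetCard.1 hS).2]
  rw [← Finset.sum_subset hsub hzero]
  have hinj : Set.InjOn g (D : Set (ℕ × ℕ × ℕ)) := by
    rintro ⟨x, y, z⟩ hq ⟨x', y', z'⟩ hq' he
    simp only [hD, Finset.coe_product, Set.mem_prod, Finset.mem_coe, Finset.mem_insert,
      Finset.mem_singleton] at hq hq'
    obtain ⟨hx, hy, hz⟩ := hq
    obtain ⟨hx', hy', hz'⟩ := hq'
    simp only [hg] at he
    have e1 : x ∈ ({x', y', z'} : Finset ℕ) := he ▸ (by simp)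
    have e2 : y ∈ ({x', y', z'} : Finset ℕ) := he ▸ (by simp)
    have e3 : z ∈ ({x', y', z'} : Finset ℕ) := he ▸ (by simp)
    simp only [Finset.mem_insert, Finset.mem_singleton] at e1 e2 e3
    have f1 : x = x' := by
      rcases e1 with h | h | h
      · exact h
      · exact absurd h (nxy _ _ hx hy')
      · exact absurd h (nxz _ _ hx hz')
    have f2 : y = y' := by
      rcases e2 with h | h | h
      · exact absurd h.symm (nxy _ _ hx' hy)
      · exact h
      · exact absurd h (nyz _ _ hy hz')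
    have f3 : z = z' := by
      rcases e3 with h | h | h
      · exact absurd h.symm (nxz _ _ hx' hz)
      · exact absurd h.symm (nyz _ _ hy' hz)
      · exact h
    rw [f1, f2, f3]
  rw [Finset.sum_image hinj, hD, Finset.sum_product, Finset.sum_pair il, Finset.sum_product, Finset.sum_product,
    Finset.sum_pair jm, Finset.sum_pair jm, Finset.sum_pair ko, Finset.sum_pair ko, Finset.sum_pair ko,
    Finset.sum_pair ko]
  simp only [hg]
  have c1 : φ {l, j, k} = - φ {i, j, k} := by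
    rw [← hA _ (P3_mem hi hj hk ij ik jk)]
    congr 1
    rw [Finset.image_insert, Finset.image_insert, Finset.image_singleton, Equiv.swap_apply_left,
      Equiv.swap_apply_of_ne_of_ne (Ne.symm ij) (Ne.symm lj), Equiv.swap_apply_of_ne_of_ne (Ne.symm ik) (Ne.symm lk)]
  have c2 : φ {i, m, k} = - φ {i, j, k} := by
    rw [← hB _ (P3_mem hi hj hk ij ik jk)]
    congr 1
    rw [Finset.image_insert, Finset.image_insert, Finset.image_singleton, Equiv.swap_apply_left,
      Equiv.swap_apply_of_ne_of_ne ij im, Equiv.swap_apply_of_ne_of_ne (Ne.symm jk) (Ne.symm mk)]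
  have c3 : φ {i, j, o} = - φ {i, j, k} := by
    rw [← hC _ (P3_mem hi hj hk ij ik jk)]
    congr 1
    rw [Finset.image_insert, Finset.image_insert, Finset.image_singleton, Equiv.swap_apply_left,
      Equiv.swap_apply_of_ne_of_ne ik io, Equiv.swap_apply_of_ne_of_ne jk jo]
  have c4 : φ {l, m, k} = φ {i, j, k} := by
    have h : φ {l, m, k} = - φ {i, m, k} := by
      rw [← hA _ (P3_mem hi hm hk im ik mk)]
      congr 1
      rw [Finset.image_insert, Finset.image_insert, Finset.image_singleton, Equiv.swap_apply_left,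
        Equiv.swap_apply_of_ne_of_ne (Ne.symm im) (Ne.symm lm), Equiv.swap_apply_of_ne_of_ne (Ne.symm ik) (Ne.symm lk)]
    rw [h, c2, neg_neg]
  have c5 : φ {l, j, o} = φ {i, j, k} := by
    have h : φ {l, j, o} = - φ {i, j, o} := by
      rw [← hA _ (P3_mem hi hj ho ij io jo)]
      congr 1
      rw [Finset.image_insert, Finset.image_insert, Finset.image_singleton, Equiv.swap_apply_left,
        Equiv.swap_apply_of_ne_of_ne (Ne.symm ij) (Ne.symm lj), Equiv.swap_apply_of_ne_of_ne (Ne.symm io) (Ne.symm lo)]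
    rw [h, c3, neg_neg]
  have c6 : φ {i, m, o} = φ {i, j, k} := by
    have h : φ {i, m, o} = - φ {i, j, o} := by
      rw [← hB _ (P3_mem hi hj ho ij io jo)]
      congr 1
      rw [Finset.image_insert, Finset.image_insert, Finset.image_singleton, Equiv.swap_apply_left,
        Equiv.swap_apply_of_ne_of_ne ij im, Equiv.swap_apply_of_ne_of_ne (Ne.symm jo) (Ne.symm mo)]
    rw [h, c3, neg_neg]
  have c7 : φ {l, m, o} = - φ {i, j, k} := by
    have h : φ {l, m, o} = - φ {i, m, o} := by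
      rw [← hA _ (P3_mem hi hm ho im io mo)]
      congr 1
      rw [Finset.image_insert, Finset.image_insert, Finset.image_singleton, Equiv.swap_apply_left,
        Equiv.swap_apply_of_ne_of_ne (Ne.symm im) (Ne.symm lm), Equiv.swap_apply_of_ne_of_ne (Ne.symm io) (Ne.symm lo)]
    rw [h, c6]
  rw [c1, c2, c3, c4, c5, c6, c7]
  simp only [P3F]
  module

private theorem P3_aa (i l : ℕ) (S : Finset ℕ) : (S.image (Equiv.swap i l)).image (Equiv.swap i l) = S := by
  rw [Finset.image_image]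
  have h : (Equiv.swap i l : ℕ → ℕ) ∘ (Equiv.swap i l) = id := by
    funext x
    simp
  rw [h, Finset.image_id]

private theorem P3_ab {i l j m : ℕ} (ij : i ≠ j) (im : i ≠ m) (lj : l ≠ j) (lm : l ≠ m) (S : Finset ℕ) :
    (S.image (Equiv.swap i l)).image (Equiv.swap j m) = (S.image (Equiv.swap j m)).image (Equiv.swap i l) := by
  rw [Finset.image_image, Finset.image_image]
  have h : (Equiv.swap j m : ℕ → ℕ) ∘ (Equiv.swap i l) = (Equiv.swap i l) ∘ (Equiv.swap j m) := by
    funext x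
    simp only [Function.comp_apply]
    by_cases h1 : x = i
    · rw [h1, Equiv.swap_apply_left, Equiv.swap_apply_of_ne_of_ne lj lm, Equiv.swap_apply_of_ne_of_ne ij im,
        Equiv.swap_apply_left]
    · by_cases h2 : x = l
      · rw [h2, Equiv.swap_apply_right, Equiv.swap_apply_of_ne_of_ne lj lm, Equiv.swap_apply_of_ne_of_ne ij im,
          Equiv.swap_apply_right]
      · rw [Equiv.swap_apply_of_ne_of_ne h1 h2]
        by_cases h3 : x = j
        · rw [h3, Equiv.swap_apply_left, Equiv.swap_apply_of_ne_of_ne (Ne.symm im) (Ne.symm lm)]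
        · by_cases h4 : x = m
          · rw [h4, Equiv.swap_apply_right, Equiv.swap_apply_of_ne_of_ne (Ne.symm ij) (Ne.symm lj)]
          · rw [Equiv.swap_apply_of_ne_of_ne h3 h4, Equiv.swap_apply_of_ne_of_ne h1 h2]
  rw [h]

/-- the alternating sums -/
private theorem P3_key {K W : Type*} [Field K] [AddCommGroup W] [Module K W] (h2 : (2 : K) ≠ 0) {n i l j m k o : ℕ}
    (hi : i < n) (hl : l < n) (hj : j < n) (hm : m < n) (hk : k < n) (ho : o < n) (hnd : [i, l, j, m, k, o].Nodup)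
    (f : Finset ℕ → W) (a : Finset ℕ → K) :
    ∑ S ∈ (Finset.range n).powersetCard 3, a S • P3A f (Equiv.swap i l) (Equiv.swap j m) (Equiv.swap k o) S =
      P3F a i l j m k o • P3F f i l j m k o := by
  rw [P3_sum8 h2 hi hl hj hm hk ho hnd (fun S => P3A f (Equiv.swap i l) (Equiv.swap j m) (Equiv.swap k o) S) a]
  · congr 1
    simp only [List.nodup_cons, List.mem_cons, List.not_mem_nil, or_false, not_or, List.nodup_nil, and_true,
      not_false_eq_true] at hnd
    obtain ⟨⟨il, ij, im, ik, io⟩, ⟨lj, lm, lk, lo⟩, ⟨jm, jk, jo⟩, ⟨mk, mo⟩, ko⟩ := hnd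
    have s1 : Equiv.swap i l j = j := Equiv.swap_apply_of_ne_of_ne (Ne.symm ij) (Ne.symm lj)
    have s2 : Equiv.swap i l m = m := Equiv.swap_apply_of_ne_of_ne (Ne.symm im) (Ne.symm lm)
    have s3 : Equiv.swap i l k = k := Equiv.swap_apply_of_ne_of_ne (Ne.symm ik) (Ne.symm lk)
    have s4 : Equiv.swap i l o = o := Equiv.swap_apply_of_ne_of_ne (Ne.symm io) (Ne.symm lo)
    have s5 : Equiv.swap j m i = i := Equiv.swap_apply_of_ne_of_ne ij im
    have s6 : Equiv.swap j m k = k := Equiv.swap_apply_of_ne_of_ne (Ne.symm jk) (Ne.symm mk)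
    have s7 : Equiv.swap j m o = o := Equiv.swap_apply_of_ne_of_ne (Ne.symm jo) (Ne.symm mo)
    have s8 : Equiv.swap k o i = i := Equiv.swap_apply_of_ne_of_ne ik io
    have s9 : Equiv.swap k o j = j := Equiv.swap_apply_of_ne_of_ne jk jo
    simp only [P3A, P3F, Finset.image_insert, Finset.image_singleton, Equiv.swap_apply_left, s1, s2, s3, s4, s5, s6, s7,
      s8, s9]
  · simp only [List.nodup_cons, List.mem_cons, List.not_mem_nil, or_false, not_or, List.nodup_nil, and_true,
      not_false_eq_true] at hnd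
    obtain ⟨⟨il, ij, im, ik, io⟩, ⟨lj, lm, lk, lo⟩, ⟨jm, jk, jo⟩, ⟨mk, mo⟩, ko⟩ := hnd
    intro S _
    have hAA := P3_aa i l
    have hAB := P3_ab ij im lj lm
    have hAC := P3_ab ik io lk lo
    simp only [P3A, hAB, hAC, hAA]
    abel
  · simp only [List.nodup_cons, List.mem_cons, List.not_mem_nil, or_false, not_or, List.nodup_nil, and_true,
      not_false_eq_true] at hnd
    obtain ⟨⟨il, ij, im, ik, io⟩, ⟨lj, lm, lk, lo⟩, ⟨jm, jk, jo⟩, ⟨mk, mo⟩, ko⟩ := hnd
    intro S _
    have hBB := P3_aa j m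
    have hBC := P3_ab jk jo mk mo
    simp only [P3A, hBC, hBB]
    abel
  · intro S _
    have hCC := P3_aa k o
    simp only [P3A, hCC]
    abel

private theorem P3_swfix {n i l : ℕ} (hi : i < n) (hl : l < n) : ∀ t, n ≤ t → Equiv.swap i l t = t :=
  fun t ht => Equiv.swap_apply_of_ne_of_ne (by omega) (by omega)

private theorem P3_img_mem {n c : ℕ} {σ : Equiv.Perm ℕ} (hσ : ∀ i, n ≤ i → σ i = i) {S : Finset ℕ}
    (hS : S ∈ (Finset.range n).powersetCard c) : S.image σ ∈ (Finset.range n).powersetCard c := by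
  rw [Finset.mem_powersetCard] at hS ⊢
  refine ⟨?_, by rw [Finset.card_image_of_injective _ σ.injective]; exact hS.2⟩
  intro x hx
  obtain ⟨y, hy, rfl⟩ := Finset.mem_image.1 hx
  rw [Finset.mem_range]
  by_contra hc
  rw [not_lt] at hc
  have h1 : σ (σ y) = σ y := hσ _ hc
  have h2 : σ y = y := σ.injective h1
  have h3 := Finset.mem_range.1 (hS.1 hy)
  omega

private theorem P3_two {p : ℕ} [Fact p.Prime] (h5 : 5 ≤ p) : (2 : ZMod p) ≠ 0 := by
  intro h
  have h' : ((2 : ℕ) : ZMod p) = 0 := by exact_mod_cast h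
  have := (ZMod.natCast_eq_zero_iff 2 p).1 h'
  have := Nat.le_of_dvd (by norm_num) this
  omega

private theorem P3_three {p : ℕ} [Fact p.Prime] (h5 : 5 ≤ p) : (3 : ZMod p) ≠ 0 := by
  intro h
  have h' : ((3 : ℕ) : ZMod p) = 0 := by exact_mod_cast h
  have := (ZMod.natCast_eq_zero_iff 3 p).1 h'
  have := Nat.le_of_dvd (by norm_num) this
  omega

private theorem P3_op {p n : ℕ} [Fact p.Prime] (h5 : 5 ≤ p) {N : Submodule (ZMod p) (Z p)} (hN : Stb p n N)
    {e : Finset ℕ → Z p} (he : ∀ σ : Equiv.Perm ℕ, (∀ i, n ≤ i → σ i = i) →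
      ∀ S ∈ (Finset.range n).powersetCard 3, rn σ (e S) - e (S.image σ) ∈ N) {i l j m k o : ℕ}
    (hi : i < n) (hl : l < n) (hj : j < n) (hm : m < n) (hk : k < n) (ho : o < n) (hnd : [i, l, j, m, k, o].Nodup) :
    ∃ T ∈ GA p n, ∀ (u : Z p) (a : Finset ℕ → ZMod p),
      u - ∑ S ∈ (Finset.range n).powersetCard 3, a S • e S ∈ N →
      T u - P3F a i l j m k o • P3F e i l j m k o ∈ N := by
  set A : Equiv.Perm ℕ := Equiv.swap i l with hA
  set B : Equiv.Perm ℕ := Equiv.swap j m with hB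
  set C : Equiv.Perm ℕ := Equiv.swap k o with hC
  have fA : ∀ t, n ≤ t → A t = t := P3_swfix hi hl
  have fB : ∀ t, n ≤ t → B t = t := P3_swfix hj hm
  have fC : ∀ t, n ≤ t → C t = t := P3_swfix hk ho
  set TA : Z p →ₗ[ZMod p] Z p := LinearMap.id - (rn A : Z p →ₐ[ZMod p] Z p).toLinearMap with hTA
  set TB : Z p →ₗ[ZMod p] Z p := LinearMap.id - (rn B : Z p →ₐ[ZMod p] Z p).toLinearMap with hTB
  set TC : Z p →ₗ[ZMod p] Z p := LinearMap.id - (rn C : Z p →ₐ[ZMod p] Z p).toLinearMap with hTC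
  have gA : TA ∈ GA p n := Submodule.sub_mem _ (GA_one n) (GA_rn A fA)
  have gB : TB ∈ GA p n := Submodule.sub_mem _ (GA_one n) (GA_rn B fB)
  have gC : TC ∈ GA p n := Submodule.sub_mem _ (GA_one n) (GA_rn C fC)
  have gT : TA.comp (TB.comp TC) ∈ GA p n := GA_comp gA (GA_comp gB gC)
  refine ⟨TA.comp (TB.comp TC), gT, ?_⟩
  intro u a hu
  have hπ : ∀ x : Z p, x ∈ N ↔ N.mkQ x = 0 := fun x => by rw [Submodule.mkQ_apply, Submodule.Quotient.mk_eq_zero]
  have hπe : ∀ x y : Z p, x - y ∈ N → N.mkQ x = N.mkQ y := fun x y h => by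
    have := (hπ _).1 h
    rw [map_sub, sub_eq_zero] at this
    exact this
  have hN' : ∀ σ : Equiv.Perm ℕ, (∀ i, n ≤ i → σ i = i) → ∀ x ∈ N, rn σ x ∈ N := by
    intro σ hσ x hx
    exact hN _ (GA_rn σ hσ) x hx
  have e1 : ∀ σ : Equiv.Perm ℕ, (∀ i, n ≤ i → σ i = i) → ∀ S ∈ (Finset.range n).powersetCard 3,
      N.mkQ (rn σ (e S)) = N.mkQ (e (S.image σ)) := fun σ hσ S hS => hπe _ _ (he σ hσ S hS)
  have e2 : ∀ σ : Equiv.Perm ℕ, (∀ i, n ≤ i → σ i = i) → ∀ τ : Equiv.Perm ℕ, (∀ i, n ≤ i → τ i = i) →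
      ∀ S ∈ (Finset.range n).powersetCard 3,
      N.mkQ (rn σ (rn τ (e S))) = N.mkQ (e ((S.image τ).image σ)) := by
    intro σ hσ τ hτ S hS
    rw [← e1 σ hσ _ (P3_img_mem hτ hS)]
    apply hπe
    rw [← map_sub]
    exact hN' σ hσ _ (he τ hτ S hS)
  have e3 : ∀ S ∈ (Finset.range n).powersetCard 3,
      N.mkQ (rn A (rn B (rn C (e S)))) = N.mkQ (e (((S.image C).image B).image A)) := by
    intro S hS
    rw [← e2 A fA B fB _ (P3_img_mem fC hS)]
    apply hπe
    rw [← map_sub, ← map_sub]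
    exact hN' A fA _ (hN' B fB _ (he C fC S hS))
  have hT : ∀ S ∈ (Finset.range n).powersetCard 3,
      N.mkQ ((TA.comp (TB.comp TC)) (e S)) = P3A (fun S => N.mkQ (e S)) A B C S := by
    intro S hS
    have hexp : (TA.comp (TB.comp TC)) (e S) = e S - rn A (e S) - rn B (e S) - rn C (e S) + rn A (rn B (e S)) +
        rn A (rn C (e S)) + rn B (rn C (e S)) - rn A (rn B (rn C (e S))) := by
      simp only [hTA, hTB, hTC, LinearMap.comp_apply, LinearMap.sub_apply, LinearMap.id_apply,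
        AlgHom.toLinearMap_apply, map_sub]
      abel
    rw [hexp]
    simp only [map_sub, map_add]
    rw [e1 A fA S hS, e1 B fB S hS, e1 C fC S hS, e2 A fA B fB S hS, e2 A fA C fC S hS, e2 B fB C fC S hS, e3 S hS]
    rfl
  rw [hπ, map_sub, sub_eq_zero]
  have h1 : N.mkQ ((TA.comp (TB.comp TC)) u) =
      N.mkQ ((TA.comp (TB.comp TC)) (∑ S ∈ (Finset.range n).powersetCard 3, a S • e S)) := by
    apply hπe
    rw [← map_sub]
    exact hN _ gT _ hu
  rw [h1, map_sum, map_sum]
  have h2 : ∑ S ∈ (Finset.range n).powersetCard 3, N.mkQ ((TA.comp (TB.comp TC)) (a S • e S)) =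
      ∑ S ∈ (Finset.range n).powersetCard 3, a S • P3A (fun S => N.mkQ (e S)) A B C S := by
    refine Finset.sum_congr rfl (fun S hS => ?_)
    rw [map_smul, map_smul, hT S hS]
  have h3 : N.mkQ (P3F e i l j m k o) = P3F (fun S => N.mkQ (e S)) i l j m k o := by
    simp only [P3F, map_sub, map_add]
  rw [h2, P3_key (P3_two h5) hi hl hj hm hk ho hnd, map_smul, h3]

private theorem P3_trans {n c : ℕ} {f g : Fin c → ℕ} (hf : Function.Injective f) (hg : Function.Injective g)
    (hfn : ∀ t, f t < n) (hgn : ∀ t, g t < n) :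
    ∃ σ : Equiv.Perm ℕ, (∀ i, n ≤ i → σ i = i) ∧ ∀ t, σ (f t) = g t := by
  classical
  set f' : Fin c → Fin n := fun t => ⟨f t, hfn t⟩ with hf'
  set g' : Fin c → Fin n := fun t => ⟨g t, hgn t⟩ with hg'
  have if' : Function.Injective f' := fun x y h => hf (by simpa [hf'] using h)
  have ig' : Function.Injective g' := fun x y h => hg (by simpa [hg'] using h)
  let E : {x // x ∈ Set.range f'} ≃ {x // x ∈ Set.range g'} :=
    (Equiv.ofInjective f' if').symm.trans (Equiv.ofInjective g' ig')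
  let τ : Equiv.Perm (Fin n) := E.extendSubtype
  have hτ : ∀ t, τ (f' t) = g' t := by
    intro t
    have h1 : τ (f' t) = (E ⟨f' t, ⟨t, rfl⟩⟩ : Fin n) := Equiv.extendSubtype_apply_of_mem E (f' t) ⟨t, rfl⟩
    rw [h1]
    have h2 : (Equiv.ofInjective f' if').symm ⟨f' t, ⟨t, rfl⟩⟩ = t := by
      rw [Equiv.symm_apply_eq]
      rfl
    simp only [E, Equiv.trans_apply, h2]
    rfl
  refine ⟨τ.viaEmbedding Fin.valEmbedding, ?_, ?_⟩
  · intro i hi
    apply Equiv.Perm.viaEmbedding_apply_of_notMem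
    rintro ⟨x, hx⟩
    have : (x : ℕ) = i := hx
    omega
  · intro t
    have h1 := Equiv.Perm.viaEmbedding_apply τ Fin.valEmbedding (f' t)
    rw [hτ t] at h1
    exact h1

private theorem P3_all {p n : ℕ} {N : Submodule (ZMod p) (Z p)} (hN : Stb p n N)
    {e : Finset ℕ → Z p} (he : ∀ σ : Equiv.Perm ℕ, (∀ i, n ≤ i → σ i = i) →
      ∀ S ∈ (Finset.range n).powersetCard 3, rn σ (e S) - e (S.image σ) ∈ N) {i l j m k o : ℕ}
    (hi : i < n) (hl : l < n) (hj : j < n) (hm : m < n) (hk : k < n) (ho : o < n) (hnd : [i, l, j, m, k, o].Nodup)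
    (hF : P3F e i l j m k o ∈ N) {i' l' j' m' k' o' : ℕ}
    (hi' : i' < n) (hl' : l' < n) (hj' : j' < n) (hm' : m' < n) (hk' : k' < n) (ho' : o' < n)
    (hnd' : [i', l', j', m', k', o'].Nodup) : P3F e i' l' j' m' k' o' ∈ N := by
  obtain ⟨σ, hσ, hst⟩ : ∃ σ : Equiv.Perm ℕ, (∀ i, n ≤ i → σ i = i) ∧
      ∀ t, σ ((![i, l, j, m, k, o] : Fin 6 → ℕ) t) = (![i', l', j', m', k', o'] : Fin 6 → ℕ) t := by
    apply P3_trans
    · have h := List.nodup_iff_injective_get.1 hnd
      intro x y hxy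
      have hx : ∀ t : Fin 6, (![i, l, j, m, k, o] : Fin 6 → ℕ) t = [i, l, j, m, k, o].get t := by
        intro t
        fin_cases t <;> rfl
      rw [hx, hx] at hxy
      exact h hxy
    · have h := List.nodup_iff_injective_get.1 hnd'
      intro x y hxy
      have hx : ∀ t : Fin 6, (![i', l', j', m', k', o'] : Fin 6 → ℕ) t = [i', l', j', m', k', o'].get t := by
        intro t
        fin_cases t <;> rfl
      rw [hx, hx] at hxy
      exact h hxy
    · intro t
      fin_cases t <;> assumption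
    · intro t
      fin_cases t <;> assumption
  have q0 : σ i = i' := hst 0
  have q1 : σ l = l' := hst 1
  have q2 : σ j = j' := hst 2
  have q3 : σ m = m' := hst 3
  have q4 : σ k = k' := hst 4
  have q5 : σ o = o' := hst 5
  simp only [List.nodup_cons, List.mem_cons, List.not_mem_nil, or_false, not_or, List.nodup_nil, and_true,
    not_false_eq_true] at hnd
  obtain ⟨⟨il, ij, im, ik, io⟩, ⟨lj, lm, lk, lo⟩, ⟨jm, jk, jo⟩, ⟨mk, mo⟩, ko⟩ := hnd
  have hs : ∀ x y z, x < n → y < n → z < n → x ≠ y → x ≠ z → y ≠ z →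
      rn σ (e {x, y, z}) - e {σ x, σ y, σ z} ∈ N := by
    intro x y z hx hy hz xy xz yz
    have := he σ hσ _ (P3_mem hx hy hz xy xz yz)
    rwa [Finset.image_insert, Finset.image_insert, Finset.image_singleton] at this
  have hr : rn σ (P3F e i l j m k o) ∈ N := hN _ (GA_rn σ hσ) _ hF
  have t1 := hs i j k hi hj hk ij ik jk
  have t2 := hs l j k hl hj hk lj lk jk
  have t3 := hs i m k hi hm hk im ik mk
  have t4 := hs i j o hi hj ho ij io jo
  have t5 := hs l m k hl hm hk lm lk mk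
  have t6 := hs l j o hl hj ho lj lo jo
  have t7 := hs i m o hi hm ho im io mo
  have t8 := hs l m o hl hm ho lm lo mo
  simp only [q0, q1, q2, q3, q4, q5] at t1 t2 t3 t4 t5 t6 t7 t8
  have hsum : P3F e i' l' j' m' k' o' = rn σ (P3F e i l j m k o) - (rn σ (e {i, j, k}) - e {i', j', k'}) +
      (rn σ (e {l, j, k}) - e {l', j', k'}) + (rn σ (e {i, m, k}) - e {i', m', k'}) +
      (rn σ (e {i, j, o}) - e {i', j', o'}) - (rn σ (e {l, m, k}) - e {l', m', k'}) -
      (rn σ (e {l, j, o}) - e {l', j', o'}) - (rn σ (e {i, m, o}) - e {i', m', o'}) +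
      (rn σ (e {l, m, o}) - e {l', m', o'}) := by
    simp only [P3F, map_sub, map_add]
    abel
  rw [hsum]
  exact N.add_mem (N.sub_mem (N.sub_mem (N.sub_mem (N.add_mem (N.add_mem (N.add_mem (N.sub_mem hr t1) t2) t3) t4) t5)
    t6) t7) t8

private theorem P3_pc {W : Type*} [AddCommMonoid W] {i j k : ℕ} (ij : i ≠ j) (ik : i ≠ k) (jk : j ≠ k)
    (f : Finset ℕ → W) :
    ∑ T ∈ ({i, j, k} : Finset ℕ).powersetCard 2, f T = f {i, j} + f {i, k} + f {j, k} := by
  have hset : ({i, j, k} : Finset ℕ).powersetCard 2 = {{i, j}, {i, k}, {j, k}} := by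
    ext T
    rw [Finset.mem_powersetCard]
    simp only [Finset.mem_insert, Finset.mem_singleton]
    constructor
    · rintro ⟨hs, hc⟩
      obtain ⟨x, y, hxy, rfl⟩ := Finset.card_eq_two.1 hc
      have hx : x ∈ ({i, j, k} : Finset ℕ) := hs (by simp)
      have hy : y ∈ ({i, j, k} : Finset ℕ) := hs (by simp)
      simp only [Finset.mem_insert, Finset.mem_singleton] at hx hy
      rcases hx with rfl | rfl | rfl <;> rcases hy with rfl | rfl | rfl
      · exact absurd rfl hxy
      · exact Or.inl rfl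
      · exact Or.inr (Or.inl rfl)
      · exact Or.inl (Finset.pair_comm _ _)
      · exact absurd rfl hxy
      · exact Or.inr (Or.inr rfl)
      · exact Or.inr (Or.inl (Finset.pair_comm _ _))
      · exact Or.inr (Or.inr (Finset.pair_comm _ _))
      · exact absurd rfl hxy
    · rintro (rfl | rfl | rfl)
      · refine ⟨?_, Finset.card_pair ij⟩
        intro t ht
        simp only [Finset.mem_insert, Finset.mem_singleton] at ht ⊢
        tauto
      · refine ⟨?_, Finset.card_pair ik⟩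
        intro t ht
        simp only [Finset.mem_insert, Finset.mem_singleton] at ht ⊢
        tauto
      · refine ⟨?_, Finset.card_pair jk⟩
        intro t ht
        simp only [Finset.mem_insert, Finset.mem_singleton] at ht ⊢
        tauto
  have n1 : ({i, j} : Finset ℕ) ≠ {i, k} := by
    intro h
    have : j ∈ ({i, k} : Finset ℕ) := h ▸ (by simp)
    simp only [Finset.mem_insert, Finset.mem_singleton] at this
    omega
  have n2 : ({i, j} : Finset ℕ) ≠ {j, k} := by
    intro h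
    have : i ∈ ({j, k} : Finset ℕ) := h ▸ (by simp)
    simp only [Finset.mem_insert, Finset.mem_singleton] at this
    omega
  have n3 : ({i, k} : Finset ℕ) ≠ {j, k} := by
    intro h
    have : i ∈ ({j, k} : Finset ℕ) := h ▸ (by simp)
    simp only [Finset.mem_insert, Finset.mem_singleton] at this
    omega
  rw [hset, Finset.sum_insert, Finset.sum_insert, Finset.sum_singleton, add_assoc]
  · simpa using n3
  · simp only [Finset.mem_insert, Finset.mem_singleton, not_or]
    exact ⟨n1, n2⟩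

private theorem P3_cm {W : Type*} [AddCommMonoid W] (n : ℕ) (f : Finset ℕ → Finset ℕ → W) :
    ∑ S ∈ (Finset.range n).powersetCard 3, ∑ T ∈ S.powersetCard 2, f S T =
      ∑ T ∈ (Finset.range n).powersetCard 2, ∑ S ∈ ((Finset.range n).powersetCard 3).filter (fun S => T ⊆ S),
        f S T := by
  apply Finset.sum_comm'
  intro S T
  simp only [Finset.mem_powersetCard, Finset.mem_filter]
  constructor
  · rintro ⟨⟨h1, h2⟩, h3, h4⟩
    exact ⟨⟨⟨h1, h2⟩, h3⟩, h3.trans h1, h4⟩
  · rintro ⟨⟨⟨h1, h2⟩, h3⟩, h4, h5⟩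
    exact ⟨⟨h1, h2⟩, h3, h5⟩

private theorem P3_fl {W : Type*} [AddCommMonoid W] {n : ℕ} {σ : Equiv.Perm ℕ} (hσ : ∀ i, n ≤ i → σ i = i)
    (T : Finset ℕ) (f : Finset ℕ → W) :
    ∑ S ∈ ((Finset.range n).powersetCard 3).filter (fun S => T.image σ ⊆ S), f S =
      ∑ S ∈ ((Finset.range n).powersetCard 3).filter (fun S => T ⊆ S), f (S.image σ) := by
  have hσ' : ∀ i, n ≤ i → σ⁻¹ i = i := by
    intro i hi
    rw [Equiv.Perm.inv_eq_iff_eq]
    exact (hσ i hi).symm
  have hc : ∀ S : Finset ℕ, (S.image (σ⁻¹ : Equiv.Perm ℕ)).image σ = S := by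
    intro S
    rw [Finset.image_image]
    have h : (σ : ℕ → ℕ) ∘ (σ⁻¹ : Equiv.Perm ℕ) = id := by
      funext x
      simp
    rw [h, Finset.image_id]
  have hc' : ∀ S : Finset ℕ, (S.image σ).image (σ⁻¹ : Equiv.Perm ℕ) = S := by
    intro S
    rw [Finset.image_image]
    have h : ((σ⁻¹ : Equiv.Perm ℕ) : ℕ → ℕ) ∘ σ = id := by
      funext x
      simp
    rw [h, Finset.image_id]
  refine Finset.sum_bij' (fun S _ => S.image (σ⁻¹ : Equiv.Perm ℕ)) (fun S _ => S.image σ) ?_ ?_ ?_ ?_ ?_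
  · intro S hS
    rw [Finset.mem_filter] at hS ⊢
    refine ⟨P3_img_mem hσ' hS.1, ?_⟩
    have := Finset.image_subset_image (f := (σ⁻¹ : Equiv.Perm ℕ)) hS.2
    rwa [hc'] at this
  · intro S hS
    rw [Finset.mem_filter] at hS ⊢
    exact ⟨P3_img_mem hσ hS.1, Finset.image_subset_image hS.2⟩
  · intro S _
    exact hc S
  · intro S _
    exact hc' S
  · intro S _
    simp only [hc]

theorem P3 {p : ℕ} [Fact p.Prime] (h5 : 5 ≤ p) {n : ℕ} (hn : 6 ≤ n) {N : Submodule (ZMod p) (Z p)} (hN : Stb p n N)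
    {e : Finset ℕ → Z p} (he : ∀ σ : Equiv.Perm ℕ, (∀ i, n ≤ i → σ i = i) →
      ∀ S ∈ (Finset.range n).powersetCard 3, rn σ (e S) - e (S.image σ) ∈ N)
    {u w : Z p} {a b : Finset ℕ → ZMod p} (hu : u - ∑ S ∈ (Finset.range n).powersetCard 3, a S • e S ∈ N)
    (hw : w - ∑ S ∈ (Finset.range n).powersetCard 3, b S • e S ∈ N) (hl : Lkd p n N u w) : u ∈ N := by
  classical
  have h2 : (2 : ZMod p) ≠ 0 := P3_two h5
  have h3 : (3 : ZMod p) ≠ 0 := P3_three h5
  have hkap : ∀ i l j m k o, i < n → l < n → j < n → m < n → k < n → o < n → [i, l, j, m, k, o].Nodup →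
      P3F a i l j m k o • P3F e i l j m k o ∈ N ∧ P3F b i l j m k o • P3F e i l j m k o ∈ N := by
    intro i l j m k o hi hl' hj hm hk ho hnd
    obtain ⟨T, hT, hTu⟩ := P3_op h5 hN he hi hl' hj hm hk ho hnd
    have t1 := hTu u a hu
    have t2 := hTu w b hw
    obtain ⟨r1, r2⟩ := hl.rankT hT t1 t2
    constructor
    · have := N.sub_mem r1 t1
      rwa [sub_sub_cancel] at this
    · have := N.sub_mem r2 t2
      rwa [sub_sub_cancel] at this
  have hS3 : ∀ S ∈ (Finset.range n).powersetCard 3, ∃ i j k, i < n ∧ j < n ∧ k < n ∧ i ≠ j ∧ i ≠ k ∧ j ≠ k ∧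
      S = {i, j, k} := by
    intro S hS
    rw [Finset.mem_powersetCard] at hS
    obtain ⟨i, j, k, ij, ik, jk, rfl⟩ := Finset.card_eq_three.1 hS.2
    refine ⟨i, j, k, ?_, ?_, ?_, ij, ik, jk, rfl⟩
    · exact Finset.mem_range.1 (hS.1 (by simp))
    · exact Finset.mem_range.1 (hS.1 (by simp))
    · exact Finset.mem_range.1 (hS.1 (by simp))
  by_cases hex : ∃ i l j m k o, i < n ∧ l < n ∧ j < n ∧ m < n ∧ k < n ∧ o < n ∧ [i, l, j, m, k, o].Nodup ∧
      P3F e i l j m k o ∈ N
  · obtain ⟨i, l, j, m, k, o, hi, hl1, hj, hm, hk, ho, hnd, hF⟩ := hex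
    obtain ⟨η, hη⟩ := L3 h2 h3 hn N e (fun i' l' j' m' k' o' hi' hl' hj' hm' hk' ho' hnd' =>
      P3_all hN he hi hl1 hj hm hk ho hnd hF hi' hl' hj' hm' hk' ho' hnd')
    have hηS : ∀ S ∈ (Finset.range n).powersetCard 3, e S - ∑ T ∈ S.powersetCard 2, η T ∈ N := by
      intro S hS
      obtain ⟨i, j, k, hi, hj, hk, ij, ik, jk, rfl⟩ := hS3 S hS
      rw [P3_pc ij ik jk]
      have := hη i j k hi hj hk ij ik jk
      rwa [sub_sub, sub_sub, ← add_assoc] at this
    have hση : ∀ σ : Equiv.Perm ℕ, (∀ i, n ≤ i → σ i = i) →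
        ∀ T ∈ (Finset.range n).powersetCard 2, rn σ (η T) - η (T.image σ) ∈ N := by
      intro σ hσ T hT
      have hσ' : ∀ i, n ≤ i → σ⁻¹ i = i := by
        intro i hi
        rw [Equiv.Perm.inv_eq_iff_eq]
        exact (hσ i hi).symm
      have hinv : ∀ t, σ (σ⁻¹ t) = t := fun t => by simp
      have hlt : ∀ i, i < n → σ⁻¹ i < n := by
        intro i hi
        by_contra hc
        rw [not_lt] at hc
        have h1 := hσ _ hc
        rw [hinv] at h1
        omega
      have hg := L3u h2 h3 (by omega : 5 ≤ n) N (fun T => rn σ (η (T.image (σ⁻¹ : Equiv.Perm ℕ))) - η T) (by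
        intro i j k hi hj hk ij ik jk
        simp only [Finset.image_insert, Finset.image_singleton]
        have hi' := hlt i hi
        have hj' := hlt j hj
        have hk' := hlt k hk
        have ij' : σ⁻¹ i ≠ σ⁻¹ j := fun h => ij (σ⁻¹.injective h)
        have ik' : σ⁻¹ i ≠ σ⁻¹ k := fun h => ik (σ⁻¹.injective h)
        have jk' : σ⁻¹ j ≠ σ⁻¹ k := fun h => jk (σ⁻¹.injective h)
        have c1 : rn σ (e {σ⁻¹ i, σ⁻¹ j, σ⁻¹ k} - η {σ⁻¹ i, σ⁻¹ j} - η {σ⁻¹ i, σ⁻¹ k} - η {σ⁻¹ j, σ⁻¹ k}) ∈ N :=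
          hN _ (GA_rn σ hσ) _ (hη _ _ _ hi' hj' hk' ij' ik' jk')
        have c2 := hη i j k hi hj hk ij ik jk
        have c3 := he σ hσ _ (P3_mem hi' hj' hk' ij' ik' jk')
        simp only [Finset.image_insert, Finset.image_singleton, hinv] at c3
        have c4 := N.add_mem (N.sub_mem c2 c1) c3
        simp only [map_sub] at c4
        have heq : rn σ (η {σ⁻¹ i, σ⁻¹ j}) - η {i, j} + (rn σ (η {σ⁻¹ i, σ⁻¹ k}) - η {i, k}) +
            (rn σ (η {σ⁻¹ j, σ⁻¹ k}) - η {j, k}) =
            e {i, j, k} - η {i, j} - η {i, k} - η {j, k} -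
            (rn σ (e {σ⁻¹ i, σ⁻¹ j, σ⁻¹ k}) - rn σ (η {σ⁻¹ i, σ⁻¹ j}) - rn σ (η {σ⁻¹ i, σ⁻¹ k}) -
              rn σ (η {σ⁻¹ j, σ⁻¹ k})) + (rn σ (e {σ⁻¹ i, σ⁻¹ j, σ⁻¹ k}) - e {i, j, k}) := by
          abel
        rw [heq]
        exact c4)
      have hT' := P3_img_mem hσ hT
      rw [Finset.mem_powersetCard] at hT'
      obtain ⟨x, y, hxy, hT2⟩ := Finset.card_eq_two.1 hT'.2
      have hx : x < n := Finset.mem_range.1 (hT'.1 (by rw [hT2]; simp))
      have hy : y < n := Finset.mem_range.1 (hT'.1 (by rw [hT2]; simp))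
      have hh := hg x y hx hy hxy
      simp only [← hT2] at hh
      rw [Finset.image_image] at hh
      have h : ((σ⁻¹ : Equiv.Perm ℕ) : ℕ → ℕ) ∘ σ = id := by
        funext x
        simp
      rwa [h, Finset.image_id] at hh
    have hgen : ∀ (v : Z p) (c : Finset ℕ → ZMod p), v - ∑ S ∈ (Finset.range n).powersetCard 3, c S • e S ∈ N →
        v - ∑ T ∈ (Finset.range n).powersetCard 2,
          (∑ S ∈ ((Finset.range n).powersetCard 3).filter (fun S => T ⊆ S), c S) • η T ∈ N := by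
      intro v c hv
      have h1 : ∑ S ∈ (Finset.range n).powersetCard 3, c S • e S -
          ∑ S ∈ (Finset.range n).powersetCard 3, c S • ∑ T ∈ S.powersetCard 2, η T ∈ N := by
        rw [← Finset.sum_sub_distrib]
        refine N.sum_mem (fun S hS => ?_)
        rw [← smul_sub]
        exact N.smul_mem _ (hηS S hS)
      have h2 : ∑ S ∈ (Finset.range n).powersetCard 3, c S • ∑ T ∈ S.powersetCard 2, η T =
          ∑ T ∈ (Finset.range n).powersetCard 2,
          (∑ S ∈ ((Finset.range n).powersetCard 3).filter (fun S => T ⊆ S), c S) • η T := by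
        simp only [Finset.smul_sum]
        rw [P3_cm n (fun S T => c S • η T)]
        simp only [Finset.sum_smul]
      rw [← h2]
      have := N.add_mem hv h1
      rwa [sub_add_sub_cancel] at this
    exact P2 (by omega) (by omega) hN hση (hgen u a hu) (hgen w b hw) hl
  · have hz : ∀ (c : Finset ℕ → ZMod p), (∀ i l j m k o, i < n → l < n → j < n → m < n → k < n → o < n →
        [i, l, j, m, k, o].Nodup → P3F c i l j m k o • P3F e i l j m k o ∈ N) →
        ∃ α : Finset ℕ → ZMod p, ∀ S ∈ (Finset.range n).powersetCard 3, c S = ∑ T ∈ S.powersetCard 2, α T := by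
      intro c hc
      obtain ⟨α, hα⟩ := L3 h2 h3 hn (⊥ : Submodule (ZMod p) (ZMod p)) c (by
        intro i l j m k o hi hl' hj hm hk ho hnd
        rw [Submodule.mem_bot]
        change P3F c i l j m k o = 0
        by_contra hne
        have h := hc i l j m k o hi hl' hj hm hk ho hnd
        have h' := N.smul_mem (P3F c i l j m k o)⁻¹ h
        rw [smul_smul, inv_mul_cancel₀ hne, one_smul] at h'
        exact hex ⟨i, l, j, m, k, o, hi, hl', hj, hm, hk, ho, hnd, h'⟩)
      refine ⟨α, fun S hS => ?_⟩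
      obtain ⟨i, j, k, hi, hj, hk, ij, ik, jk, rfl⟩ := hS3 S hS
      rw [P3_pc ij ik jk]
      have := hα i j k hi hj hk ij ik jk
      rw [Submodule.mem_bot, sub_sub, sub_sub, ← add_assoc, sub_eq_zero] at this
      exact this
    obtain ⟨α, hα⟩ := hz a (fun i l j m k o h1 h2 h3 h4 h5 h6 h7 => (hkap i l j m k o h1 h2 h3 h4 h5 h6 h7).1)
    obtain ⟨β, hβ⟩ := hz b (fun i l j m k o h1 h2 h3 h4 h5 h6 h7 => (hkap i l j m k o h1 h2 h3 h4 h5 h6 h7).2)
    set E : Finset ℕ → Z p := fun T => ∑ S ∈ ((Finset.range n).powersetCard 3).filter (fun S => T ⊆ S), e S with hE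
    have hσE : ∀ σ : Equiv.Perm ℕ, (∀ i, n ≤ i → σ i = i) →
        ∀ T ∈ (Finset.range n).powersetCard 2, rn σ (E T) - E (T.image σ) ∈ N := by
      intro σ hσ T _
      simp only [hE]
      rw [P3_fl hσ T e, map_sum, ← Finset.sum_sub_distrib]
      refine N.sum_mem (fun S hS => ?_)
      exact he σ hσ S (Finset.mem_filter.1 hS).1
    have hgen : ∀ (v : Z p) (c γ : Finset ℕ → ZMod p),
        (∀ S ∈ (Finset.range n).powersetCard 3, c S = ∑ T ∈ S.powersetCard 2, γ T) →
        v - ∑ S ∈ (Finset.range n).powersetCard 3, c S • e S ∈ N →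
        v - ∑ T ∈ (Finset.range n).powersetCard 2, γ T • E T ∈ N := by
      intro v c γ hγ hv
      have h2 : ∑ S ∈ (Finset.range n).powersetCard 3, c S • e S =
          ∑ T ∈ (Finset.range n).powersetCard 2, γ T • E T := by
        have h1 : ∑ S ∈ (Finset.range n).powersetCard 3, c S • e S =
            ∑ S ∈ (Finset.range n).powersetCard 3, ∑ T ∈ S.powersetCard 2, γ T • e S := by
          refine Finset.sum_congr rfl (fun S hS => ?_)
          rw [hγ S hS, Finset.sum_smul]
        rw [h1, P3_cm n (fun S T => γ T • e S)]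
        refine Finset.sum_congr rfl (fun T _ => ?_)
        simp only [hE, Finset.smul_sum]
      rw [← h2]
      exact hv
    exact P2 (by omega) (by omega) hN hσE (hgen u a α hα hu) (hgen w b β hβ hw) hl

end ADQ
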